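import Mathlib

namespace H67

open Equiv

variable {G : Type} [Group G]

/-- `T` is an affine map with linear part `α`. -/
def IsAff (T : Perm G) (α : MulAut G) : Prop := ∀ x, T x = T 1 * α x

theorem IsAff.map_mul {T : Perm G} {α : MulAut G} (h : IsAff T α) (x y : G) :
    T (x * y) = T x * α y := by
  rw [h (x * y), h x, _root_.map_mul, mul_assoc]

theorem isAff_one : IsAff (1 : Perm G) (1 : MulAut G) := by
  intro x; simp

theorem IsAff.mul {T S : Perm G} {α β : MulAut G} (h : IsAff T α) (h' : IsAff S β) :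
    IsAff (T * S) (α * β) := by
  intro x
  simp only [Perm.mul_apply, MulAut.mul_apply]
  rw [h' x, h.map_mul]

theorem IsAff.pow {T : Perm G} {α : MulAut G} (h : IsAff T α) (n : ℕ) :
    IsAff (T ^ n) (α ^ n) := by
  induction n with
  | zero => simpa using isAff_one
  | succ n ih => rw [pow_succ, pow_succ]; exact ih.mul h

theorem IsAff.unique {T : Perm G} {α β : MulAut G} (h : IsAff T α) (h' : IsAff T β) : α = β := by
  ext x
  have := (h x).symm.trans (h' x)
  exact mul_left_cancel this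

theorem IsAff.lin {T : Perm G} {α : MulAut G} (h : IsAff T α) (x : G) : α x = (T 1)⁻¹ * T x := by
  rw [h x]; group

theorem IsAff.fix_one {T : Perm G} {α : MulAut G} (h : IsAff T α) (h1 : T 1 = 1) (x : G) :
    T x = α x := by rw [h x, h1, one_mul]

/-- translate of `T` by `g` -/
def tr (g : G) (T : Perm G) : Perm G := (Equiv.mulLeft g)⁻¹ * T * Equiv.mulLeft g

@[simp] theorem tr_apply (g : G) (T : Perm G) (x : G) : tr g T x = g⁻¹ * T (g * x) := by
  simp [tr]

theorem tr_pow (g : G) (T : Perm G) (n : ℕ) : tr g T ^ n = tr g (T ^ n) := by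
  unfold tr
  have := conj_pow (i := n) (a := (Equiv.mulLeft g)⁻¹) (b := T)
  simpa using this

theorem tr_one (g : G) : tr g (1 : Perm G) = 1 := by
  ext x; simp

theorem tr_eq_one {g : G} {T : Perm G} : tr g T = 1 ↔ T = 1 := by
  constructor
  · intro h
    ext x
    have := congrArg (fun S : Perm G => S (g⁻¹ * x)) h
    simp only [tr_apply, Perm.coe_one, id_eq] at this
    rw [mul_inv_cancel_left] at this
    simpa using mul_left_cancel this
  · rintro rfl; exact tr_one g

theorem orderOf_tr (g : G) (T : Perm G) : orderOf (tr g T) = orderOf T := by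
  apply orderOf_eq_orderOf_iff.mpr
  intro n
  rw [tr_pow, tr_eq_one]

theorem IsAff.tr {T : Perm G} {α : MulAut G} (h : IsAff T α) (g : G) : IsAff (tr g T) α := by
  intro x
  simp only [tr_apply, mul_one]
  rw [h.map_mul, mul_assoc]

theorem tr_tr (g g' : G) (T : Perm G) : H67.tr g' (H67.tr g T) = H67.tr (g * g') T := by
  ext x; simp [mul_assoc]

theorem semiconj_pow {A B : Type} (π : A → B) (T : Perm A) (S : Perm B)
    (h : ∀ x, π (T x) = S (π x)) (n : ℕ) (x : A) : π ((T ^ n) x) = (S ^ n) (π x) := by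
  induction n generalizing x with
  | zero => simp
  | succ n ih => rw [pow_succ, pow_succ, Perm.mul_apply, Perm.mul_apply, ih, h]

theorem mem_iff_of_inv [Finite G] {f : G → G} (hf : Function.Injective f) (H : Subgroup G)
    (h : ∀ x ∈ H, f x ∈ H) (x : G) : x ∈ H ↔ f x ∈ H := by
  constructor
  · exact h x
  · intro hx
    have hinj : Function.Injective (fun y : H => (⟨f y, h y y.2⟩ : H)) := by
      intro a b hab
      have := congrArg Subtype.val hab
      exact Subtype.ext (hf this)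
    have hsurj := Finite.surjective_of_injective hinj
    obtain ⟨y, hy⟩ := hsurj ⟨f x, hx⟩
    have := hf (congrArg Subtype.val hy)
    rw [← this]; exact y.2

/-- restriction of an automorphism -/
theorem exists_resAut [Finite G] (α : MulAut G) (H : Subgroup G) (h : ∀ x ∈ H, α x ∈ H) :
    ∃ β : MulAut H, ∀ x : H, ((β x : H) : G) = α x := by
  let f : H →* H := (α.toMonoidHom.comp H.subtype).codRestrict H (fun x => h x x.2)
  have hf : Function.Injective f := by
    intro a b hab
    have := congrArg Subtype.val hab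
    exact Subtype.ext (α.injective this)
  refine ⟨MulEquiv.ofBijective f ⟨hf, Finite.surjective_of_injective hf⟩, fun x => rfl⟩

theorem exists_res [Finite G] {T : Perm G} {α : MulAut G} (hT : IsAff T α) (H : Subgroup G)
    (h : ∀ x ∈ H, T x ∈ H) :
    ∃ (S : Perm H) (β : MulAut H), IsAff S β ∧ (∀ x : H, ((S x : H) : G) = T x) ∧
      (∀ x : H, ((β x : H) : G) = α x) := by
  have h1 : T 1 ∈ H := h 1 H.one_mem
  have hα : ∀ x ∈ H, α x ∈ H := by
    intro x hx
    rw [hT.lin x]
    exact H.mul_mem (H.inv_mem h1) (h x hx)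
  obtain ⟨β, hβ⟩ := exists_resAut α H hα
  refine ⟨(Equiv.mulLeft (⟨T 1, h1⟩ : H)) * β.toEquiv, β, ?_, ?_, hβ⟩
  · intro x
    simp
  · intro x
    simp only [Perm.mul_apply, Equiv.coe_mulLeft, Subgroup.coe_mul]
    rw [hT x]
    congr 1
    exact hβ x

theorem exists_quoAut [Finite G] (α : MulAut G) (N : Subgroup G) [N.Normal]
    (h : ∀ x ∈ N, α x ∈ N) :
    ∃ β : MulAut (G ⧸ N), ∀ x : G, β (x : G ⧸ N) = (α x : G ⧸ N) := by
  have hN : N.map (α : G →* G) = N := by
    ext x
    constructor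
    · rintro ⟨y, hy, rfl⟩; exact h y hy
    · intro hx
      refine ⟨α.symm x, ?_, by simp⟩
      have := (mem_iff_of_inv α.injective N h (α.symm x)).mpr (by simpa using hx)
      exact this
  refine ⟨QuotientGroup.congr N N α hN, fun x => rfl⟩

theorem exists_quo [Finite G] {T : Perm G} {α : MulAut G} (hT : IsAff T α) (N : Subgroup G)
    [N.Normal] (h : ∀ x ∈ N, α x ∈ N) :
    ∃ (S : Perm (G ⧸ N)) (β : MulAut (G ⧸ N)), IsAff S β ∧
      (∀ x : G, S (x : G ⧸ N) = (T x : G ⧸ N)) ∧ (∀ x : G, β (x : G ⧸ N) = (α x : G ⧸ N)) := by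
  obtain ⟨β, hβ⟩ := exists_quoAut α N h
  refine ⟨(Equiv.mulLeft ((T 1 : G) : G ⧸ N)) * β.toEquiv, β, ?_, ?_, hβ⟩
  · intro x
    simp
  · intro x
    simp only [Perm.mul_apply, Equiv.coe_mulLeft, MulEquiv.toEquiv_eq_coe, MulEquiv.coe_toEquiv]
    rw [hβ, hT x]
    rfl

theorem commute_pow_lin (α : MulAut G) (i j : ℕ) (x : G) :
    (α ^ i) ((α ^ j) x) = (α ^ j) ((α ^ i) x) := by
  rw [← MulAut.mul_apply, ← MulAut.mul_apply, ← pow_add, ← pow_add, add_comm]

theorem two_mul_lt {p : ℕ} (hp : p.Prime) (hp2 : p ≠ 2) (j : ℕ) (hj : 1 ≤ j) :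
    p ^ j < 2 * (p ^ (j - 1) * (p - 1)) := by
  have h2 := hp.two_le
  have h3 : 3 ≤ p := by omega
  obtain ⟨i, rfl⟩ : ∃ i, j = i + 1 := ⟨j - 1, by omega⟩
  rw [Nat.add_sub_cancel, pow_succ]
  have hpos : 0 < p ^ i := Nat.pow_pos hp.pos
  have h4 : p < 2 * (p - 1) := by omega
  calc p ^ i * p < p ^ i * (2 * (p - 1)) := Nat.mul_lt_mul_of_pos_left h4 hpos
    _ = 2 * (p ^ i * (p - 1)) := by ring

end H67
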