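import Mathlib
import Pool.Agent.H67.Basic

namespace H67

open Equiv

/-- The bound of Theorem A for a single group. -/
def PA (G : Type) [Group G] : Prop :=
  ∀ (T : Perm G) (α : MulAut G), IsAff T α → ∀ (N : Subgroup G) [N.Normal],
    (∀ x ∈ N, α x ∈ N) → ∀ m, 0 < m → (∀ x, x⁻¹ * (T ^ m) x ∈ N) →
      orderOf T ≤ m * Nat.card N

theorem PA.le_card {G : Type} [Group G] [Finite G] (h : PA G) {T : Perm G} {α : MulAut G}
    (hT : IsAff T α) : orderOf T ≤ Nat.card G := by
  have := h T α hT ⊤ (fun x _ => Subgroup.mem_top _) 1 one_pos (fun x => Subgroup.mem_top _)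
  simpa using this

variable {G : Type} [Group G]

/-- the fixed point configuration -/
structure FP (T : Perm G) (α : MulAut G) (H : Subgroup G) (k : ℕ) : Prop where
  aff : IsAff T α
  kpos : 0 < k
  inv : ∀ x, x ∈ H ↔ T x ∈ H
  pow : ∀ x, (T ^ k) x = (α ^ k) x
  ne : α ^ k ≠ 1
  fix : ∀ i : ℕ, (α ^ k) ^ i ≠ 1 → ∀ x, ((α ^ k) ^ i) x = x ↔ x ∈ H
  dvd : ∀ j, (∀ x ∈ H, (T ^ j) x = x) → k ∣ j

theorem FP.fix' {T : Perm G} {α : MulAut G} {H : Subgroup G} {k : ℕ} (h : FP T α H k) (i : ℕ)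
    {x : G} (hx : x ∈ H) : ((α ^ k) ^ i) x = x := by
  by_cases hi : (α ^ k) ^ i = 1
  · rw [hi]; rfl
  · exact (h.fix i hi x).mpr hx

theorem FP.pow_mul {T : Perm G} {α : MulAut G} {H : Subgroup G} {k : ℕ} (h : FP T α H k) (i : ℕ)
    (x : G) : (T ^ (k * i)) x = ((α ^ k) ^ i) x := by
  rw [_root_.pow_mul]
  exact semiconj_pow (fun x => x) (T ^ k) ((α ^ k).toEquiv) h.pow i x |>.trans (by
    have : ∀ (n : ℕ) (y : G), ((α ^ k).toEquiv ^ n) y = ((α ^ k) ^ n) y := by
      intro n
      induction n with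
      | zero => intro y; simp
      | succ n ih => intro y; rw [pow_succ, pow_succ, Perm.mul_apply, ih]; rfl
    exact this i x)

theorem exists_FP [Finite G] {T : Perm G} {α : MulAut G} (hT : IsAff T α)
    (hns : ∃ (j : ℕ) (x : G), T ^ j ≠ 1 ∧ (T ^ j) x = x) :
    ∃ (g : G) (H : Subgroup G) (k : ℕ), FP (tr g T) α H k ∧ H ≠ ⊤ := by
  classical
  -- choose j with the largest fixed point set
  let Fx : ℕ → Set G := fun j => {x | (T ^ j) x = x}
  have hbd : ∃ n : ℕ, ∀ j, T ^ j ≠ 1 → (Fx j).ncard ≤ n :=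
    ⟨Nat.card G, fun j _ => by
      rw [← Set.ncard_univ]; exact Set.ncard_le_ncard (Set.subset_univ _) (Set.toFinite _)⟩
  obtain ⟨j₀, x₀, hj₀, hx₀⟩ := hns
  have hex : ∃ n : ℕ, ∃ j, T ^ j ≠ 1 ∧ (Fx j).ncard = n ∧ ∀ i, T ^ i ≠ 1 → (Fx i).ncard ≤ n := by
    obtain ⟨n, hn⟩ := hbd
    let S : Set ℕ := {m | ∃ j, T ^ j ≠ 1 ∧ (Fx j).ncard = m}
    have hS : S.Nonempty := ⟨_, j₀, hj₀, rfl⟩
    have hSb : BddAbove S := ⟨n, by rintro m ⟨j, hj, rfl⟩; exact hn j hj⟩
    obtain ⟨j, hj, hjm⟩ := Nat.sSup_mem hS hSb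
    exact ⟨sSup S, j, hj, hjm, fun i hi => le_csSup hSb ⟨i, hi, rfl⟩⟩
  obtain ⟨n, j, hj, hjn, hmax⟩ := hex
  have hpos : 0 < n := by
    have h1 := hmax j₀ hj₀
    have h2 : 0 < (Fx j₀).ncard := (Set.ncard_pos (Set.toFinite _)).mpr ⟨x₀, hx₀⟩
    omega
  have hne : (Fx j).Nonempty := by
    rw [← Set.ncard_pos (Set.toFinite _)]; omega
  obtain ⟨g, hg⟩ := hne
  have hg' : (T ^ j) g = g := hg
  set T' := tr g T with hT'
  have hT'a : IsAff T' α := hT.tr g
  have hfix1 : (T' ^ j) 1 = 1 := by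
    rw [hT', tr_pow, tr_apply, mul_one, hg']; group
  have hTj : ∀ x, (T' ^ j) x = (α ^ j) x := (hT'a.pow j).fix_one hfix1
  let H : Subgroup G :=
    { carrier := {x | (α ^ j) x = x}
      mul_mem' := by
        intro a b ha hb
        simp only [Set.mem_ofPred_eq] at *
        rw [_root_.map_mul, ha, hb]
      one_mem' := by simp
      inv_mem' := by
        intro a ha
        simp only [Set.mem_ofPred_eq] at *
        rw [map_inv, ha] }
  have hHmem : ∀ x, x ∈ H ↔ (α ^ j) x = x := fun x => Iff.rfl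
  have hHcard : Nat.card H = n := by
    rw [← hjn]
    have : Fx j = (fun x => g * x) '' (H : Set G) := by
      ext x
      constructor
      · intro hx
        refine ⟨g⁻¹ * x, ?_, by simp⟩
        have hx' : (T ^ j) x = x := hx
        show (α ^ j) (g⁻¹ * x) = g⁻¹ * x
        rw [← hTj, hT', tr_pow, tr_apply]; simp [hx']
      · rintro ⟨y, hy, rfl⟩
        have hy' : (α ^ j) y = y := hy
        rw [← hTj, hT', tr_pow, tr_apply] at hy'
        show (T ^ j) (g * y) = g * y
        rw [inv_mul_eq_iff_eq_mul] at hy'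
        exact hy'
    rw [this, Set.ncard_image_of_injective _ (mul_right_injective g)]
    rfl
  -- T' preserves H
  have hinvT : ∀ x, x ∈ H ↔ T' x ∈ H := by
    apply mem_iff_of_inv T'.injective
    intro x hx
    rw [hHmem] at hx ⊢
    rw [← hTj] at hx ⊢
    rw [← Perm.mul_apply, ← pow_succ, pow_succ', Perm.mul_apply, hx]
  have hinvTn : ∀ (i : ℕ) (x : G), x ∈ H → (T' ^ i) x ∈ H := by
    intro i
    induction i with
    | zero => intro x hx; simpa using hx
    | succ i ih => intro x hx; rw [pow_succ, Perm.mul_apply]; exact ih _ ((hinvT x).mp hx)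
  -- k
  have hexk : ∃ k, 0 < k ∧ ∀ x ∈ H, (T' ^ k) x = x :=
    ⟨orderOf T', orderOf_pos T', fun x _ => by rw [pow_orderOf_eq_one]; rfl⟩
  let k := Nat.find hexk
  have hk : 0 < k ∧ ∀ x ∈ H, (T' ^ k) x = x := Nat.find_spec hexk
  have hkdvd : ∀ i, (∀ x ∈ H, (T' ^ i) x = x) → k ∣ i := by
    intro i hi
    by_contra hcon
    have hmod : 0 < i % k := Nat.pos_of_ne_zero (fun h => hcon (Nat.dvd_of_mod_eq_zero h))
    have hlt : i % k < k := Nat.mod_lt _ hk.1
    have := Nat.find_min hexk hlt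
    apply this
    refine ⟨hmod, fun x hx => ?_⟩
    have h1 := hi x hx
    have hkq : ∀ q : ℕ, ∀ y ∈ H, (T' ^ (k * q)) y = y := by
      intro q
      induction q with
      | zero => intro y _; simp
      | succ q ih => intro y hy; rw [Nat.mul_succ, pow_add, Perm.mul_apply, hk.2 y hy, ih y hy]
    rw [← Nat.mod_add_div i k, pow_add, Perm.mul_apply, hkq _ x hx] at h1
    exact h1
  have hTk1 : (T' ^ k) 1 = 1 := hk.2 1 H.one_mem
  have hTk : ∀ x, (T' ^ k) x = (α ^ k) x := (hT'a.pow k).fix_one hTk1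
  have hkj : k ∣ j := hkdvd j (fun x hx => by rw [hTj]; exact hx)
  have hαj : α ^ j ≠ 1 := by
    intro h
    apply hj
    rw [← tr_eq_one (g := g), ← tr_pow]
    ext x
    rw [hTj, h]; rfl
  have hαk : α ^ k ≠ 1 := by
    obtain ⟨q, hq⟩ := hkj
    intro h
    apply hαj
    rw [hq, pow_mul, h, one_pow]
  have hpowk : ∀ (i : ℕ) (x : G), (T' ^ (k * i)) x = ((α ^ k) ^ i) x := by
    intro i x
    rw [← pow_mul]
    apply (hT'a.pow (k * i)).fix_one
    clear x
    induction i with
    | zero => simp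
    | succ i ih => rw [Nat.mul_succ, pow_add, Perm.mul_apply, hTk1, ih]
  have hfix : ∀ i : ℕ, (α ^ k) ^ i ≠ 1 → ∀ x, ((α ^ k) ^ i) x = x ↔ x ∈ H := by
    intro i hi
    -- fixed subgroup contains H and has at most n elements
    have hTki : T ^ (k * i) ≠ 1 := by
      intro h
      apply hi
      ext x
      rw [← hpowk, hT', tr_pow, h, tr_one]; rfl
    have hle := hmax (k * i) hTki
    let H' : Set G := {x | ((α ^ k) ^ i) x = x}
    have hsub : (H : Set G) ⊆ H' := by
      intro x hx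
      show ((α ^ k) ^ i) x = x
      have hx' : (T' ^ k) x = x := hk.2 x hx
      rw [← hpowk]
      induction i with
      | zero => simp
      | succ i ih =>
        clear hle hTki hi
        have : ∀ q : ℕ, (T' ^ (k * q)) x = x := by
          intro q
          induction q with
          | zero => simp
          | succ q ih => rw [Nat.mul_succ, pow_add, Perm.mul_apply, hx', ih]
        exact this _
    have hcard : H'.ncard ≤ n := by
      have : Fx (k * i) = (fun x => g * x) '' H' := by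
        ext x
        constructor
        · intro hx
          refine ⟨g⁻¹ * x, ?_, by simp⟩
          have hx' : (T ^ (k * i)) x = x := hx
          show ((α ^ k) ^ i) (g⁻¹ * x) = g⁻¹ * x
          rw [← hpowk, hT', tr_pow, tr_apply]; simp [hx']
        · rintro ⟨y, hy, rfl⟩
          have hy' : ((α ^ k) ^ i) y = y := hy
          rw [← hpowk, hT', tr_pow, tr_apply] at hy'
          show (T ^ (k * i)) (g * y) = g * y
          rw [inv_mul_eq_iff_eq_mul] at hy'
          exact hy'
      rw [this, Set.ncard_image_of_injective _ (mul_right_injective g)] at hle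
      exact hle
    have heq : (H : Set G) = H' := by
      apply Set.eq_of_subset_of_ncard_le hsub _ (Set.toFinite _)
      calc H'.ncard ≤ n := hcard
        _ = Nat.card H := hHcard.symm
        _ = (H : Set G).ncard := rfl
    intro x
    constructor
    · intro hx
      have : x ∈ H' := hx
      rw [← heq] at this
      exact this
    · intro hx
      exact hsub hx
  refine ⟨g, H, k, ⟨hT'a, hk.1, hinvT, hTk, hαk, hfix, hkdvd⟩, ?_⟩
  intro htop
  apply hαj
  ext x
  have : x ∈ H := by rw [htop]; trivial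
  exact this

end H67
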