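import Mathlib
import Pool.Agent.H67.Fpa

namespace H67

open Equiv

variable {G : Type} [Group G] {T : Perm G} {α : MulAut G} {H : Subgroup G} {k : ℕ}

/-- powers of `σ = α ^ k` commute -/
theorem sig_comm (α : MulAut G) (k i j : ℕ) (x : G) :
    ((α ^ k) ^ i) (((α ^ k) ^ j) x) = ((α ^ k) ^ j) (((α ^ k) ^ i) x) :=
  commute_pow_lin (α ^ k) i j x

theorem FP.lemmaS (h : FP T α H k) {i : ℕ} (hi : (α ^ k) ^ i ≠ 1) {g : G}
    (hg : g⁻¹ * ((α ^ k) ^ i) g ∈ H) (j : ℕ) :
    g⁻¹ * ((α ^ k) ^ j) g ∈ H ∧ ((α ^ k) ^ j) g * g⁻¹ ∈ H := by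
  set z := (α ^ k) ^ i with hz
  set z' := (α ^ k) ^ j with hz'
  obtain ⟨a, ha⟩ : ∃ a, a = g⁻¹ * z g := ⟨_, rfl⟩
  obtain ⟨b, hb⟩ : ∃ b, b = g⁻¹ * z' g := ⟨_, rfl⟩
  have hza : z g = g * a := by rw [ha]; group
  have hzb : z' g = g * b := by rw [hb]; group
  have haH : a ∈ H := by rw [ha]; exact hg
  have hfa : z a = a := (h.fix i hi a).mpr haH
  have hfa' : z' a = a := h.fix' j haH
  have hm : g * a * g⁻¹ ∈ H := by
    rw [← h.fix i hi]
    change z (g * a * g⁻¹) = _
    rw [map_mul, map_mul, map_inv, hfa, hza]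
    group
  have hm' : z' (g * a * g⁻¹) = g * a * g⁻¹ := h.fix' j hm
  rw [map_mul, map_mul, map_inv, hfa', hzb] at hm'
  have hab : b * a = a * b := by
    have : g * b * a * (g * b)⁻¹ * (g * b) = g * a * g⁻¹ * (g * b) := by rw [hm']
    have h2 : g * (b * a) = g * (a * b) := by
      calc g * (b * a) = g * b * a * (g * b)⁻¹ * (g * b) := by group
        _ = g * a * g⁻¹ * (g * b) := this
        _ = g * (a * b) := by group
    exact mul_left_cancel h2
  have hcomm : z (z' g) = z' (z g) := sig_comm α k i j g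
  rw [hza, hzb, map_mul, map_mul, hza, hzb, hfa', mul_assoc, mul_assoc] at hcomm
  have hzb2 : z b = b := by
    have := mul_left_cancel hcomm
    rw [hab] at this
    exact mul_left_cancel this
  have hbH : b ∈ H := (h.fix i hi b).mp hzb2
  refine ⟨by rw [← hb]; exact hbH, ?_⟩
  rw [hzb]
  rw [← h.fix i hi]
  change z (g * b * g⁻¹) = _
  rw [map_mul, map_mul, map_inv, hzb2, hza]
  calc g * a * b * (g * a)⁻¹ = g * (a * b) * a⁻¹ * g⁻¹ := by group
    _ = g * (b * a) * a⁻¹ * g⁻¹ := by rw [hab]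
    _ = g * b * g⁻¹ := by group

theorem FP.orderOf_eq [Finite G] (h : FP T α H k) : orderOf T = k * orderOf (α ^ k) := by
  have hk : k ∣ orderOf T := h.dvd _ (fun x _ => by rw [pow_orderOf_eq_one]; rfl)
  have h1 : orderOf (T ^ k) = orderOf (α ^ k) := by
    apply orderOf_eq_orderOf_iff.mpr
    intro n
    rw [← _root_.pow_mul]
    constructor
    · intro hn
      ext x
      rw [← h.pow_mul, hn]; rfl
    · intro hn
      ext x
      rw [h.pow_mul, hn]; rfl
  rw [← h1, orderOf_pow_of_dvd h.kpos.ne' hk, Nat.mul_div_cancel' hk]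

theorem FP.alpha_mem [Finite G] (h : FP T α H k) (x : G) : x ∈ H ↔ α x ∈ H := by
  apply mem_iff_of_inv α.injective
  intro x hx
  rw [h.aff.lin]
  exact H.mul_mem (H.inv_mem ((h.inv 1).mp H.one_mem)) ((h.inv x).mp hx)

theorem FP.T_one_mem (h : FP T α H k) : T 1 ∈ H := (h.inv 1).mp H.one_mem

theorem FP.k_le [Finite G] (h : FP T α H k) (hH : PA H) : k ≤ Nat.card H := by
  obtain ⟨S, β, hS, hST, -⟩ := exists_res h.aff H (fun x hx => (h.inv x).mp hx)
  refine le_trans (Nat.le_of_dvd (orderOf_pos S) (h.dvd _ ?_)) (hH.le_card hS)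
  intro x hx
  have := semiconj_pow (fun y : H => (y : G)) S T hST (orderOf S) ⟨x, hx⟩
  rw [pow_orderOf_eq_one] at this
  exact this.symm

/-- sharper: if `S` is the restriction then its order is `k` -/
theorem FP.k_eq [Finite G] (h : FP T α H k) {S : Perm H} (hST : ∀ x : H, ((S x : H) : G) = T x) :
    orderOf S = k := by
  apply Nat.dvd_antisymm
  · apply orderOf_dvd_of_pow_eq_one
    ext x
    have := semiconj_pow (fun y : H => (y : G)) S T hST k x
    rw [this, h.pow]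
    have h2 := h.fix' 1 x.2
    rw [pow_one] at h2
    exact h2
  · apply h.dvd
    intro x hx
    have := semiconj_pow (fun y : H => (y : G)) S T hST (orderOf S) ⟨x, hx⟩
    rw [pow_orderOf_eq_one] at this
    exact this.symm

theorem sig_one_ne (h : FP T α H k) : (α ^ k) ^ 1 ≠ 1 := by rw [pow_one]; exact h.ne

theorem FP.sig_commT (h : FP T α H k) (x : G) : (α ^ k) (T x) = T ((α ^ k) x) := by
  rw [← h.pow, ← h.pow, ← Perm.mul_apply, ← Perm.mul_apply, ← pow_succ, ← pow_succ']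

theorem FP.sigpow_commT (h : FP T α H k) (i : ℕ) (x : G) :
    ((α ^ k) ^ i) (T x) = T (((α ^ k) ^ i) x) := by
  rw [← h.pow_mul, ← h.pow_mul, ← Perm.mul_apply, ← Perm.mul_apply, ← pow_succ, ← pow_succ']

/-- case (b): freeness -/
theorem FP.free (h : FP T α H k) {g : G} (hg : g⁻¹ * (α ^ k) g ∉ H) {i : ℕ}
    (hi : g⁻¹ * ((α ^ k) ^ i) g ∈ H) : (α ^ k) ^ i = 1 := by
  by_contra hcon
  have := (h.lemmaS hcon hi 1).1
  rw [pow_one] at this
  exact hg this

end H67
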