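import Mathlib
import Pool.Agent.H67.Fpb

namespace H67

open Equiv

variable {G : Type} [Group G] {T : Perm G} {α : MulAut G} {H : Subgroup G} {k : ℕ}

theorem FP.sig_mem (h : FP T α H k) (i : ℕ) {x : G} : ((α ^ k) ^ i) x ∈ H ↔ x ∈ H := by
  constructor
  · intro hx
    have h1 := h.fix' i hx
    have := ((α ^ k) ^ i).injective h1
    rw [this] at hx
    exact hx
  · intro hx
    rw [h.fix' i hx]; exact hx

theorem FP.free2 (h : FP T α H k) {g : G} (hg : g⁻¹ * (α ^ k) g ∉ H) {i j : ℕ} (hij : i ≤ j)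
    (hi : (((α ^ k) ^ i) g)⁻¹ * ((α ^ k) ^ j) g ∈ H) : orderOf (α ^ k) ∣ j - i := by
  apply orderOf_dvd_of_pow_eq_one
  apply h.free hg
  have : ((α ^ k) ^ i) (g⁻¹ * ((α ^ k) ^ (j - i)) g) ∈ H := by
    rw [map_mul, map_inv, ← MulAut.mul_apply, ← pow_add, Nat.add_sub_cancel' hij]
    exact hi
  exact (h.sig_mem i).mp this

/-- the big orbit -/
def big (α : MulAut G) (H : Subgroup G) (k : ℕ) (g : G) : Set G :=
  {x | ∃ i, (((α ^ k) ^ i) g)⁻¹ * x ∈ H}

theorem FP.card_big [Finite G] (h : FP T α H k) {g : G} (hg : g⁻¹ * (α ^ k) g ∉ H) :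
    (big α H k g).ncard = orderOf (α ^ k) * Nat.card H := by
  have hδ : 0 < orderOf (α ^ k) := orderOf_pos _
  let f : Fin (orderOf (α ^ k)) × H → big α H k g := fun p =>
    ⟨((α ^ k) ^ (p.1 : ℕ)) g * p.2, p.1, by simp⟩
  have hf : Function.Bijective f := by
    constructor
    · rintro ⟨i, a⟩ ⟨j, b⟩ hab
      have hab' : ((α ^ k) ^ (i : ℕ)) g * a = ((α ^ k) ^ (j : ℕ)) g * b := congrArg Subtype.val hab
      have key : ∀ (i j : Fin (orderOf (α ^ k))) (a b : H), (i : ℕ) ≤ j →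
          ((α ^ k) ^ (i : ℕ)) g * a = ((α ^ k) ^ (j : ℕ)) g * b → i = j := by
        intro i j a b hij hab
        have h1 : (((α ^ k) ^ (i : ℕ)) g)⁻¹ * ((α ^ k) ^ (j : ℕ)) g ∈ H := by
          have : (((α ^ k) ^ (i : ℕ)) g)⁻¹ * ((α ^ k) ^ (j : ℕ)) g = a * (b : G)⁻¹ := by
            rw [inv_mul_eq_iff_eq_mul, ← mul_assoc, hab, mul_assoc, mul_inv_cancel, mul_one]
          rw [this]
          exact H.mul_mem a.2 (H.inv_mem b.2)
        have h2 := h.free2 hg hij h1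
        have h3 : (j : ℕ) - i < orderOf (α ^ k) := by omega
        have h4 := Nat.eq_zero_of_dvd_of_lt h2 h3
        apply Fin.ext; omega
      have hij : i = j := by
        rcases le_total (i : ℕ) j with hle | hle
        · exact key i j a b hle hab'
        · exact (key j i b a hle hab'.symm).symm
      subst hij
      have := mul_left_cancel hab'
      rw [Subtype.ext this]
    · rintro ⟨x, i, hi⟩
      refine ⟨(⟨i % orderOf (α ^ k), Nat.mod_lt _ hδ⟩, ⟨_, hi⟩), ?_⟩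
      apply Subtype.ext
      simp only [f]
      rw [pow_mod_orderOf]
      group
  have := Nat.card_congr (Equiv.ofBijective f hf)
  rw [Nat.card_prod, Nat.card_fin] at this
  rw [this]
  rfl

theorem big_disj {g g' : G} (hne : ¬ ∃ i, (((α ^ k) ^ i) g)⁻¹ * g' ∈ H) [Finite G]
    (h : FP T α H k) :
    Disjoint (big α H k g) (big α H k g') := by
  rw [Set.disjoint_left]
  rintro x ⟨i, hi⟩ ⟨j, hj⟩
  apply hne
  -- σ^i g H = x H = σ^j g' H ⇒ g' ∈ σ^(i + (δ-1) j) g H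
  have h1 : (((α ^ k) ^ i) g)⁻¹ * ((α ^ k) ^ j) g' ∈ H := by
    have : (((α ^ k) ^ i) g)⁻¹ * ((α ^ k) ^ j) g' =
        ((((α ^ k) ^ i) g)⁻¹ * x) * ((((α ^ k) ^ j) g')⁻¹ * x)⁻¹ := by group
    rw [this]
    exact H.mul_mem hi (H.inv_mem hj)
  set δ := orderOf (α ^ k) with hδ
  have hδp : 0 < δ := orderOf_pos _
  refine ⟨(δ - 1) * j + i, ?_⟩
  have h2 : ((α ^ k) ^ ((δ - 1) * j)) ((((α ^ k) ^ i) g)⁻¹ * ((α ^ k) ^ j) g') ∈ H :=
    (h.sig_mem _).mpr h1
  rw [map_mul, map_inv, ← MulAut.mul_apply, ← MulAut.mul_apply, ← pow_add, ← pow_add] at h2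
  have h3 : (δ - 1) * j + j = δ * j := by
    have : δ = (δ - 1) + 1 := by omega
    calc (δ - 1) * j + j = ((δ - 1) + 1) * j := by ring
      _ = δ * j := by rw [← this]
  rw [h3, pow_mul (α ^ k) δ, pow_orderOf_eq_one, one_pow] at h2
  exact h2

theorem FP.trans_big [Finite G] (h : FP T α H k) (hH : PA H) (hc : Nat.card G < 2 * orderOf T)
    {g : G} (hg : g⁻¹ * (α ^ k) g ∉ H) {g' : G} (hg' : g'⁻¹ * (α ^ k) g' ∉ H) :
    ∃ i, (((α ^ k) ^ i) g)⁻¹ * g' ∈ H := by
  by_contra hne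
  have hd := big_disj hne h
  have h1 := Set.ncard_union_eq hd (Set.toFinite _) (Set.toFinite _)
  rw [h.card_big hg, h.card_big hg'] at h1
  have h2 : (big α H k g ∪ big α H k g').ncard ≤ Nat.card G := by
    rw [← Set.ncard_univ]
    exact Set.ncard_le_ncard (Set.subset_univ _) (Set.toFinite _)
  have h3 := h.k_le hH
  rw [h.orderOf_eq] at hc
  have h4 : k * orderOf (α ^ k) ≤ Nat.card H * orderOf (α ^ k) := Nat.mul_le_mul_right _ h3
  nlinarith

/-- Membership of the bad set is stable. -/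
theorem FP.bad_left (h : FP T α H k) {g y : G} (hy : y ∈ H) :
    (y * g)⁻¹ * (α ^ k) (y * g) = g⁻¹ * (α ^ k) g := by
  have := h.fix' 1 hy
  rw [pow_one] at this
  rw [map_mul, this]; group

theorem FP.bad_right (h : FP T α H k) {g y : G} (hy : y ∈ H) :
    (g * y)⁻¹ * (α ^ k) (g * y) ∈ H ↔ g⁻¹ * (α ^ k) g ∈ H := by
  have := h.fix' 1 hy
  rw [pow_one] at this
  rw [map_mul, this]
  have e : (g * y)⁻¹ * ((α ^ k) g * y) = y⁻¹ * (g⁻¹ * (α ^ k) g) * y := by group
  rw [e]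
  constructor
  · intro hh
    have := H.mul_mem (H.mul_mem hy hh) (H.inv_mem hy)
    have e2 : y * (y⁻¹ * (g⁻¹ * (α ^ k) g) * y) * y⁻¹ = g⁻¹ * (α ^ k) g := by group
    rwa [e2] at this
  · intro hh
    exact H.mul_mem (H.mul_mem (H.inv_mem hy) hh) hy

theorem FP.bad_sig (h : FP T α H k) {g : G} (i : ℕ) :
    (((α ^ k) ^ i) g)⁻¹ * (α ^ k) (((α ^ k) ^ i) g) ∈ H ↔ g⁻¹ * (α ^ k) g ∈ H := by
  have : (α ^ k) (((α ^ k) ^ i) g) = ((α ^ k) ^ i) ((α ^ k) g) := by
    have := sig_comm α k 1 i g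
    rw [pow_one] at this
    exact this
  rw [this, ← map_inv, ← map_mul, h.sig_mem]

/-- In case (b), the set of elements `g` with `σ g ∈ g H` is `H`. -/
theorem FP.caseB [Finite G] (h : FP T α H k) (hPA : ∀ K : Subgroup G, K ≠ ⊤ → PA K)
    (hHt : H ≠ ⊤) (hc : Nat.card G < 2 * orderOf T)
    {g₀ : G} (hg₀ : g₀⁻¹ * (α ^ k) g₀ ∉ H) (g : G) : g⁻¹ * (α ^ k) g ∈ H ↔ g ∈ H := by
  have hH := hPA H hHt
  have hσ1 := sig_one_ne h
  -- card of complement
  have hbig : big α H k g₀ = {x | x⁻¹ * (α ^ k) x ∉ H} := by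
    ext x
    constructor
    · rintro ⟨i, hi⟩
      show x⁻¹ * (α ^ k) x ∉ H
      have e : x = ((α ^ k) ^ i) g₀ * ((((α ^ k) ^ i) g₀)⁻¹ * x) := by group
      rw [e, h.bad_right hi, h.bad_sig]
      exact hg₀
    · intro hx
      exact h.trans_big hH hc hg₀ hx
  have hcardbig := h.card_big hg₀
  have hlarge : Nat.card G < 2 * (big α H k g₀).ncard := by
    rw [hcardbig]
    rw [h.orderOf_eq] at hc
    have h4 : k * orderOf (α ^ k) ≤ Nat.card H * orderOf (α ^ k) :=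
      Nat.mul_le_mul_right _ (h.k_le hH)
    nlinarith
  have hcompl : (big α H k g₀).ncard + (big α H k g₀)ᶜ.ncard = Nat.card G :=
    Set.ncard_add_ncard_compl _
  let F : Subgroup G :=
    { carrier := {x | x⁻¹ * (α ^ k) x ∈ H}
      one_mem' := by
        show (1 : G)⁻¹ * (α ^ k) 1 ∈ H
        rw [map_one]; simpa using H.one_mem
      inv_mem' := by
        intro x hx
        have hx1 : x⁻¹ * ((α ^ k) ^ 1) x ∈ H := by rw [pow_one]; exact hx
        have := (h.lemmaS hσ1 hx1 1).2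
        rw [pow_one] at this
        show (x⁻¹)⁻¹ * (α ^ k) x⁻¹ ∈ H
        rw [map_inv, inv_inv]
        have e : x * ((α ^ k) x)⁻¹ = ((α ^ k) x * x⁻¹)⁻¹ := by group
        rw [e]; exact H.inv_mem this
      mul_mem' := by
        intro x y hx hy
        by_contra hxy
        have hx1 : x⁻¹ * ((α ^ k) ^ 1) x ∈ H := by rw [pow_one]; exact hx
        have hy1 : y⁻¹ * ((α ^ k) ^ 1) y ∈ H := by rw [pow_one]; exact hy
        have hmaps : (fun u => x⁻¹ * u) '' (big α H k g₀) ⊆ (big α H k g₀)ᶜ := by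
          rintro _ ⟨u, hu, rfl⟩
          rw [hbig] at hu
          obtain ⟨i, hi⟩ := h.trans_big hH hc hxy hu
          have hxi := (h.lemmaS hσ1 hx1 i).1
          have hyi := (h.lemmaS hσ1 hy1 i).2
          rw [hbig]
          show ¬ ((x⁻¹ * u)⁻¹ * (α ^ k) (x⁻¹ * u) ∉ H)
          rw [not_not]
          have e : x⁻¹ * u = ((x⁻¹ * ((α ^ k) ^ i) x) * (((α ^ k) ^ i) y * y⁻¹)) * y *
              ((((α ^ k) ^ i) (x * y))⁻¹ * u) := by
            rw [map_mul]; group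
          rw [e, h.bad_right hi, h.bad_left (H.mul_mem hxi hyi)]
          exact hy
        have h1 := Set.ncard_le_ncard hmaps (Set.toFinite _)
        rw [Set.ncard_image_of_injective _ (mul_right_injective x⁻¹)] at h1
        omega }
  have hFmem : ∀ x, x ∈ F ↔ x⁻¹ * (α ^ k) x ∈ H := fun x => Iff.rfl
  have hHF : H ≤ F := by
    intro x hx
    rw [hFmem]
    have := h.fix' 1 hx
    rw [pow_one] at this
    rw [this]; simpa using H.one_mem
  have hFt : F ≠ ⊤ := by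
    intro htop
    apply hg₀
    rw [← hFmem, htop]; trivial
  have hFT : ∀ x ∈ F, T x ∈ F := by
    intro x hx
    rw [hFmem] at hx ⊢
    rw [h.sig_commT]
    have e : (α ^ k) x = x * (x⁻¹ * (α ^ k) x) := by group
    rw [e, h.aff.map_mul, ← mul_assoc, inv_mul_cancel, one_mul]
    exact (h.alpha_mem _).mp hx
  rw [← hFmem]
  constructor
  swap
  · exact fun hx => hHF hx
  intro hg
  by_contra hgH
  obtain ⟨S, β, hS, hST, -⟩ := exists_res h.aff F hFT
  have hle := (hPA F hFt).le_card hS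
  -- order of S is the order of T
  have hfixF : ∀ x ∈ F, (T ^ orderOf S) x = x := by
    intro x hx
    have := semiconj_pow (fun y : F => (y : G)) S T hST (orderOf S) ⟨x, hx⟩
    rw [pow_orderOf_eq_one] at this
    exact this.symm
  have hkdvd := h.dvd _ (fun x hx => hfixF x (hHF hx))
  obtain ⟨q, hq⟩ := hkdvd
  have hσq : (α ^ k) ^ q = 1 := by
    by_contra hne
    apply hgH
    rw [← h.fix q hne, ← h.pow_mul, ← hq]
    exact hfixF g hg
  have hTS : T ^ orderOf S = 1 := by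
    ext x
    rw [hq, h.pow_mul, hσq]; rfl
  have h5 : orderOf T ≤ orderOf S := Nat.le_of_dvd (orderOf_pos S) (orderOf_dvd_of_pow_eq_one hTS)
  have h6 : Nat.card F = ((big α H k g₀)ᶜ).ncard := by
    have : (F : Set G) = (big α H k g₀)ᶜ := by
      ext x
      rw [hbig]
      show x⁻¹ * (α ^ k) x ∈ H ↔ ¬ (x⁻¹ * (α ^ k) x ∉ H)
      rw [not_not]
    rw [← this]; rfl
  omega

end H67
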