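import Mathlib
import Pool.Agent.H67.Fpc

namespace H67

open Equiv

variable {G : Type} [Group G]

/-- the subgroup `[G, β]` -/
def cK (β : MulAut G) : Subgroup G := Subgroup.closure (Set.range fun g => g⁻¹ * β g)

theorem cK_mem (β : MulAut G) (g : G) : g⁻¹ * β g ∈ cK β := Subgroup.subset_closure ⟨g, rfl⟩

theorem cK_normal (β : MulAut G) : (cK β).Normal := by
  constructor
  intro x hx y
  -- it suffices to treat generators
  have key : ∀ z : G, ∀ x ∈ cK β, z⁻¹ * x * z ∈ cK β := by
    intro z x hx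
    unfold cK at hx
    induction hx using Subgroup.closure_induction with
    | mem x hx =>
      obtain ⟨g, rfl⟩ := hx
      have e : z⁻¹ * (g⁻¹ * β g) * z = ((g * z)⁻¹ * β (g * z)) * (z⁻¹ * β z)⁻¹ := by
        rw [map_mul]; group
      show z⁻¹ * (g⁻¹ * β g) * z ∈ cK β
      rw [e]
      exact (cK β).mul_mem (cK_mem β _) ((cK β).inv_mem (cK_mem β _))
    | one => simp
    | mul x y _ _ hx hy =>
      have e : z⁻¹ * (x * y) * z = (z⁻¹ * x * z) * (z⁻¹ * y * z) := by group
      rw [e]; exact (cK β).mul_mem hx hy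
    | inv x _ hx =>
      have e : z⁻¹ * x⁻¹ * z = (z⁻¹ * x * z)⁻¹ := by group
      rw [e]; exact (cK β).inv_mem hx
  have := key y⁻¹ x hx
  simpa using this

theorem cK_inv (α β : MulAut G) (hcomm : ∀ x, α (β x) = β (α x)) : ∀ x ∈ cK β, α x ∈ cK β := by
  intro x hx
  unfold cK at hx
  induction hx using Subgroup.closure_induction with
  | mem x hx =>
    obtain ⟨g, rfl⟩ := hx
    show α (g⁻¹ * β g) ∈ cK β
    rw [map_mul, map_inv, hcomm]
    exact cK_mem β _
  | one => simp
  | mul x y _ _ hx hy => rw [map_mul]; exact (cK β).mul_mem hx hy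
  | inv x _ hx => rw [map_inv]; exact (cK β).inv_mem hx

theorem cK_ne_bot {β : MulAut G} (h : β ≠ 1) : cK β ≠ ⊥ := by
  intro hb
  apply h
  ext x
  have := cK_mem β x
  rw [hb, Subgroup.mem_bot] at this
  have h2 := inv_mul_eq_one.mp this
  exact h2.symm

theorem cK_abelian {β : MulAut G} (hfix : ∀ g, β (g⁻¹ * β g) = g⁻¹ * β g) :
    ∀ x ∈ cK β, ∀ y ∈ cK β, x * y = y * x := by
  have hfK : ∀ x ∈ cK β, β x = x := by
    intro x hx
    unfold cK at hx
    induction hx using Subgroup.closure_induction with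
    | mem x hx => obtain ⟨g, rfl⟩ := hx; exact hfix g
    | one => simp
    | mul x y _ _ hx hy => rw [map_mul, hx, hy]
    | inv x _ hx => rw [map_inv, hx]
  have hN := cK_normal β
  intro x hx y hy
  unfold cK at hx
  induction hx using Subgroup.closure_induction with
  | mem x hx =>
    obtain ⟨g, rfl⟩ := hx
    show (g⁻¹ * β g) * y = y * (g⁻¹ * β g)
    have h1 : g * y * g⁻¹ ∈ cK β := hN.conj_mem y hy g
    have h2 := hfK _ h1
    rw [map_mul, map_mul, map_inv, hfK y hy] at h2
    calc g⁻¹ * β g * y = g⁻¹ * (β g * y * (β g)⁻¹) * β g := by group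
      _ = g⁻¹ * (g * y * g⁻¹) * β g := by rw [h2]
      _ = y * (g⁻¹ * β g) := by group
  | one => simp
  | mul x x' _ _ hx hx' =>
    rw [mul_assoc, hx', ← mul_assoc, hx, mul_assoc]
  | inv x _ hx =>
    calc x⁻¹ * y = x⁻¹ * (y * x) * x⁻¹ := by group
      _ = x⁻¹ * (x * y) * x⁻¹ := by rw [hx]
      _ = y * x⁻¹ := by group

theorem card_lt_of_ne_top [Finite G] {K : Subgroup G} (h : K ≠ ⊤) : Nat.card K < Nat.card G := by
  rcases lt_or_eq_of_le (Subgroup.card_le_card_group K) with h1 | h1
  · exact h1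
  · exact absurd (Subgroup.eq_top_of_card_eq K h1) h

theorem card_map_mul [Finite G] {V N : Subgroup G} [V.Normal] (h : V ≤ N) :
    Nat.card (N.map (QuotientGroup.mk' V)) * Nat.card V = Nat.card N := by
  have h1 := Subgroup.index_map_eq N (QuotientGroup.mk'_surjective V)
    (by rw [QuotientGroup.ker_mk']; exact h)
  have h2 := Subgroup.card_mul_index (N.map (QuotientGroup.mk' V))
  have h3 := Subgroup.card_mul_index N
  have h4 := Subgroup.card_eq_card_quotient_mul_card_subgroup V
  rw [h1] at h2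
  have h5 : 0 < N.index := Nat.pos_of_ne_zero Subgroup.index_ne_zero_of_finite
  apply Nat.eq_of_mul_eq_mul_right h5
  calc Nat.card (N.map (QuotientGroup.mk' V)) * Nat.card V * N.index
      = (Nat.card (N.map (QuotientGroup.mk' V)) * N.index) * Nat.card V := by ring
    _ = Nat.card N * N.index := by rw [h2, ← h4, h3]

/-- minimal invariant normal subgroups -/
structure MinInv (α : MulAut G) (V : Subgroup G) : Prop where
  normal : V.Normal
  inv : ∀ x ∈ V, α x ∈ V
  ne : V ≠ ⊥
  min : ∀ W : Subgroup G, W.Normal → (∀ x ∈ W, α x ∈ W) → W ≤ V → W ≠ ⊥ → W = V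

theorem exists_minInv [Finite G] (α : MulAut G) (N : Subgroup G) (hN : N.Normal)
    (hinv : ∀ x ∈ N, α x ∈ N) (hne : N ≠ ⊥) : ∃ V, V ≤ N ∧ MinInv α V := by
  classical
  let S : Set (Subgroup G) := {W | W.Normal ∧ (∀ x ∈ W, α x ∈ W) ∧ W ≤ N ∧ W ≠ ⊥}
  have hS : S.Nonempty := ⟨N, hN, hinv, le_refl _, hne⟩
  obtain ⟨V, hV⟩ := (Set.toFinite S).exists_minimal hS
  obtain ⟨h1, h2, h3, h4⟩ := hV.prop
  refine ⟨V, h3, h1, h2, h4, ?_⟩
  intro W hW1 hW2 hW3 hW4
  have hWS : W ∈ S := ⟨hW1, hW2, hW3.trans h3, hW4⟩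
  exact le_antisymm hW3 (hV.le_of_le hWS hW3)

theorem pow_inv_mem {α : MulAut G} {V : Subgroup G} (h : ∀ x ∈ V, α x ∈ V) (n : ℕ) :
    ∀ x ∈ V, (α ^ n) x ∈ V := by
  induction n with
  | zero => intro x hx; simpa using hx
  | succ n ih => intro x hx; rw [pow_succ, MulAut.mul_apply]; exact ih _ (h x hx)

/-- if `S` is trivial modulo the abelian normal subgroup `V`, its linear part commutes with
conjugation on `V` -/
theorem conj_comm {S : Perm G} {γ : MulAut G} (hS : IsAff S γ) {V : Subgroup G} (hV : V.Normal)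
    (hab : ∀ x ∈ V, ∀ y ∈ V, x * y = y * x) (hinv : ∀ x ∈ V, γ x ∈ V)
    (htriv : ∀ x, x⁻¹ * S x ∈ V) (g : G) {v : G} (hv : v ∈ V) :
    γ (g * v * g⁻¹) = g * γ v * g⁻¹ := by
  obtain ⟨v₁, hv₁⟩ : ∃ v₁, v₁ = S 1 := ⟨_, rfl⟩
  have hv₁V : v₁ ∈ V := by have := htriv 1; simpa [hv₁] using this
  obtain ⟨v₂, hv₂⟩ : ∃ v₂, v₂ = g⁻¹ * S g := ⟨_, rfl⟩
  have hv₂V : v₂ ∈ V := by rw [hv₂]; exact htriv g
  have hγg : γ g = v₁⁻¹ * g * v₂ := by rw [hS.lin, ← hv₁, hv₂]; group
  have hγv := hinv v hv
  rw [map_mul, map_mul, map_inv, hγg]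
  have e1 : v₂ * γ v * v₂⁻¹ = γ v := by rw [hab v₂ hv₂V _ hγv]; group
  have hmem : g * γ v * g⁻¹ ∈ V := hV.conj_mem _ hγv g
  have e2 : v₁⁻¹ * (g * γ v * g⁻¹) * v₁ = g * γ v * g⁻¹ := by
    rw [mul_assoc, hab _ hmem v₁ hv₁V]; group
  calc v₁⁻¹ * g * v₂ * γ v * (v₁⁻¹ * g * v₂)⁻¹ = v₁⁻¹ * (g * (v₂ * γ v * v₂⁻¹) * g⁻¹) * v₁ := by
        group
    _ = g * γ v * g⁻¹ := by rw [e1, e2]

theorem pow_triv {T : Perm G} {V : Subgroup G} (h : ∀ x, x⁻¹ * T x ∈ V) (n : ℕ) :
    ∀ x, x⁻¹ * (T ^ n) x ∈ V := by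
  induction n with
  | zero => intro x; simp
  | succ n ih =>
    intro x
    rw [pow_succ, Perm.mul_apply]
    have e : x⁻¹ * (T ^ n) (T x) = (x⁻¹ * T x) * ((T x)⁻¹ * (T ^ n) (T x)) := by group
    rw [e]
    exact V.mul_mem (h x) (ih _)

theorem case1 [Finite G] {B : Perm G} {β : MulAut G} (hB : IsAff B β) {V : Subgroup G}
    (htriv : ∀ x, x⁻¹ * B x ∈ V) (hβ : ∀ v ∈ V, β v = v) (x : G) (j : ℕ) :
    (B ^ j) x = x * (x⁻¹ * B x) ^ j := by
  induction j with
  | zero => simp
  | succ j ih =>
    rw [pow_succ', Perm.mul_apply, ih, hB.map_mul]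
    have : β ((x⁻¹ * B x) ^ j) = (x⁻¹ * B x) ^ j := hβ _ (V.pow_mem (htriv x) j)
    rw [this]
    rw [pow_succ', ← mul_assoc x, mul_inv_cancel_left]

theorem case2 [Finite G] {T : Perm G} {α : MulAut G} (hT : IsAff T α) {V : Subgroup G}
    (hV : MinInv α V) (hab : ∀ x ∈ V, ∀ y ∈ V, x * y = y * x) {m : ℕ}
    (htriv : ∀ x, x⁻¹ * (T ^ m) x ∈ V) (hβ : ¬ ∀ v ∈ V, (α ^ m) v = v) :
    ∃ L, 0 < L ∧ (∀ v ∈ V, ((α ^ m) ^ L) v = v) ∧
      (∀ j, (∃ v ∈ V, v ≠ 1 ∧ ((α ^ m) ^ j) v = v) → L ∣ j) ∧ (T ^ m) ^ L = 1 ∧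
      (∀ x, ∃ v ∈ V, (T ^ m) (x * v) = x * v) := by
  classical
  set β := α ^ m with hβdef
  set B := T ^ m with hBdef
  have hB : IsAff B β := hT.pow m
  have hinvβ : ∀ j : ℕ, ∀ x ∈ V, (β ^ j) x ∈ V := pow_inv_mem (pow_inv_mem hV.inv m)
  have hW : ∀ j : ℕ, (∃ v ∈ V, v ≠ 1 ∧ (β ^ j) v = v) → ∀ v ∈ V, (β ^ j) v = v := by
    intro j hj
    let W : Subgroup G :=
      { carrier := {v | v ∈ V ∧ (β ^ j) v = v}
        mul_mem' := by
          rintro a b ⟨ha, ha'⟩ ⟨hb, hb'⟩
          exact ⟨V.mul_mem ha hb, by rw [map_mul, ha', hb']⟩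
        one_mem' := ⟨V.one_mem, map_one _⟩
        inv_mem' := by
          rintro a ⟨ha, ha'⟩
          exact ⟨V.inv_mem ha, by rw [map_inv, ha']⟩ }
    have hWn : W.Normal := by
      constructor
      rintro v ⟨hv, hv'⟩ g
      refine ⟨hV.normal.conj_mem v hv g, ?_⟩
      have := conj_comm (hB.pow j) hV.normal hab (hinvβ j) (pow_triv htriv j) g hv
      rw [this, hv']
    have hWi : ∀ x ∈ W, α x ∈ W := by
      rintro x ⟨hx, hx'⟩
      refine ⟨hV.inv x hx, ?_⟩
      have : (β ^ j) (α x) = α ((β ^ j) x) := by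
        rw [hβdef, ← pow_mul, ← MulAut.mul_apply, ← MulAut.mul_apply, ← pow_succ, ← pow_succ']
      rw [this, hx']
    have hWne : W ≠ ⊥ := by
      obtain ⟨v, hv, hv1, hv2⟩ := hj
      intro hb
      have : v ∈ W := ⟨hv, hv2⟩
      rw [hb, Subgroup.mem_bot] at this
      exact hv1 this
    have hWV := hV.min W hWn hWi (fun x hx => hx.1) hWne
    intro v hv
    rw [← hWV] at hv
    exact hv.2
  have hex : ∃ L, 0 < L ∧ ∀ v ∈ V, (β ^ L) v = v :=
    ⟨orderOf β, orderOf_pos β, fun v _ => by rw [pow_orderOf_eq_one]; rfl⟩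
  let L := Nat.find hex
  have hL : 0 < L ∧ ∀ v ∈ V, (β ^ L) v = v := Nat.find_spec hex
  have hdvd : ∀ j, (∃ v ∈ V, v ≠ 1 ∧ (β ^ j) v = v) → L ∣ j := by
    intro j hj
    have hj' := hW j hj
    by_contra hcon
    have hmod : 0 < j % L := Nat.pos_of_ne_zero (fun h => hcon (Nat.dvd_of_mod_eq_zero h))
    have hlt : j % L < L := Nat.mod_lt _ hL.1
    apply Nat.find_min hex hlt
    refine ⟨hmod, fun v hv => ?_⟩
    have h1 := hj' v hv
    have hLq : ∀ q : ℕ, (β ^ (L * q)) v = v := by
      intro q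
      induction q with
      | zero => simp
      | succ q ih => rw [Nat.mul_succ, pow_add, MulAut.mul_apply, hL.2 v hv, ih]
    rw [← Nat.mod_add_div j L, pow_add, MulAut.mul_apply, hLq] at h1
    exact h1
  -- fixed points in every coset
  have hfp : ∀ x, ∃ v ∈ V, B (x * v) = x * v := by
    intro x
    have hno : ∀ v ∈ V, β v = v → v = 1 := by
      intro v hv hv'
      by_contra hne
      apply hβ
      have := hW 1 ⟨v, hv, hne, by rw [pow_one]; exact hv'⟩
      rw [pow_one] at this
      exact this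
    have hβV : ∀ v ∈ V, β v ∈ V := by
      intro v hv; have := hinvβ 1 v hv; rw [pow_one] at this; exact this
    let f : V → V := fun v => ⟨v * (β v)⁻¹, V.mul_mem v.2 (V.inv_mem (hβV v v.2))⟩
    have hf : Function.Injective f := by
      rintro ⟨v, hv⟩ ⟨w, hw⟩ hvw
      have h1 : v * (β v)⁻¹ = w * (β w)⁻¹ := congrArg Subtype.val hvw
      have h2 : w⁻¹ * v = 1 := by
        apply hno _ (V.mul_mem (V.inv_mem hw) hv)
        rw [map_mul, map_inv]
        have e1 : (β w)⁻¹ * β v = w⁻¹ * (w * (β w)⁻¹) * β v := by group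
        rw [e1, ← h1]; group
      have h3 : v = w := by
        have := inv_mul_eq_one.mp h2
        exact this.symm
      exact Subtype.ext h3
    obtain ⟨⟨v, hv⟩, hv'⟩ := Finite.surjective_of_injective hf ⟨x⁻¹ * B x, htriv x⟩
    have h1 : v * (β v)⁻¹ = x⁻¹ * B x := congrArg Subtype.val hv'
    refine ⟨v, hv, ?_⟩
    rw [hB.map_mul]
    have : B x = x * (v * (β v)⁻¹) := by rw [h1]; group
    rw [this]; group
  refine ⟨L, hL.1, hL.2, hdvd, ?_, hfp⟩
  ext x
  obtain ⟨v, hv, hxv⟩ := hfp x
  have h1 : (B ^ L) (x * v) = x * v := by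
    have : ∀ n : ℕ, (B ^ n) (x * v) = x * v := by
      intro n
      induction n with
      | zero => simp
      | succ n ih => rw [pow_succ, Perm.mul_apply, hxv, ih]
    exact this L
  have h2 : (B ^ L) (x * v) = (B ^ L) x * (β ^ L) v := (hB.pow L).map_mul x v
  rw [h1, hL.2 v hv] at h2
  simpa using (mul_right_cancel h2).symm

theorem le_of_case2 [Finite G] {α : MulAut G} {V : Subgroup G} (hV : MinInv α V) {m L : ℕ}
    (hdvd : ∀ j, (∃ v ∈ V, v ≠ 1 ∧ ((α ^ m) ^ j) v = v) → L ∣ j) :
    L ≤ Nat.card V := by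
  obtain ⟨v, hv, hv1⟩ : ∃ v ∈ V, v ≠ 1 := by
    by_contra hcon
    push Not at hcon
    exact hV.ne ((Subgroup.eq_bot_iff_forall V).mpr hcon)
  have hinvβ : ∀ j : ℕ, ∀ x ∈ V, ((α ^ m) ^ j) x ∈ V := pow_inv_mem (pow_inv_mem hV.inv m)
  let f : Fin L → V := fun i => ⟨((α ^ m) ^ (i : ℕ)) v, hinvβ i v hv⟩
  have hf : Function.Injective f := by
    have key : ∀ i j : Fin L, (i : ℕ) ≤ j → f i = f j → i = j := by
      intro i j hij hfe
      have h1 : ((α ^ m) ^ (i : ℕ)) v = ((α ^ m) ^ (j : ℕ)) v := congrArg Subtype.val hfe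
      rw [show (j : ℕ) = i + (j - i) by omega, pow_add, MulAut.mul_apply] at h1
      have h2 := ((α ^ m) ^ (i : ℕ)).injective h1
      have h3 := hdvd _ ⟨v, hv, hv1, h2.symm⟩
      have h4 : (j : ℕ) - i < L := by omega
      have h5 := Nat.eq_zero_of_dvd_of_lt h3 h4
      apply Fin.ext; omega
    intro i j hij
    rcases le_total (i : ℕ) j with hle | hle
    · exact key i j hle hij
    · exact (key j i hle hij.symm).symm
  have := Nat.card_le_card_of_injective f hf
  simpa using this

/-- Key lemma of Theorem A. -/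
theorem keyA [Finite G] (IH : ∀ (K : Type) [Group K] [Finite K], Nat.card K < Nat.card G → PA K)
    {T : Perm G} {α : MulAut G} (hT : IsAff T α) {V : Subgroup G} (hV : MinInv α V) {m : ℕ}
    (hm : 0 < m) (htriv : ∀ x, x⁻¹ * (T ^ m) x ∈ V) : orderOf T ≤ m * Nat.card V := by
  classical
  by_cases hab : ∀ x ∈ V, ∀ y ∈ V, x * y = y * x
  · by_cases hβ : ∀ v ∈ V, (α ^ m) v = v
    · apply Nat.le_of_dvd (Nat.mul_pos hm Nat.card_pos)
      apply orderOf_dvd_of_pow_eq_one
      ext x
      rw [pow_mul, case1 (hT.pow m) htriv hβ]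
      have : (x⁻¹ * (T ^ m) x) ^ Nat.card V = 1 := by
        have := pow_card_eq_one' (G := V) (x := ⟨x⁻¹ * (T ^ m) x, htriv x⟩)
        exact congrArg Subtype.val this
      rw [this]; simp
    · obtain ⟨L, hL, -, hdvd, hone, -⟩ := case2 hT hV hab htriv hβ
      have h1 : orderOf T ≤ m * L := by
        apply Nat.le_of_dvd (Nat.mul_pos hm hL)
        apply orderOf_dvd_of_pow_eq_one
        rw [pow_mul]; exact hone
      exact h1.trans (Nat.mul_le_mul_left m (le_of_case2 hV hdvd))
  · -- nonabelian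
    let Z : Subgroup G := V ⊓ Subgroup.centralizer (V : Set G)
    have hZn : Z.Normal := by
      have := hV.normal
      infer_instance
    have hZi : ∀ x ∈ Z, α x ∈ Z := by
      rintro x ⟨hx, hx'⟩
      refine ⟨hV.inv x hx, ?_⟩
      have hx'' : x ∈ Subgroup.centralizer (V : Set G) := hx'
      rw [Subgroup.mem_centralizer_iff] at hx''
      show α x ∈ Subgroup.centralizer (V : Set G)
      rw [Subgroup.mem_centralizer_iff]
      intro y hy
      have hy' : α.symm y ∈ V := (mem_iff_of_inv α.injective V hV.inv _).mpr (by simpa using hy)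
      have := hx'' _ hy'
      have h2 := congrArg α this
      rw [map_mul, map_mul] at h2
      simpa using h2
    have hZbot : Z = ⊥ := by
      by_contra hne
      have hZV := hV.min Z hZn hZi inf_le_left hne
      apply hab
      intro x hx y hy
      have : y ∈ Z := by rw [hZV]; exact hy
      have h2 : y ∈ Subgroup.centralizer (V : Set G) := this.2
      rw [Subgroup.mem_centralizer_iff] at h2
      exact h2 x hx
    by_cases htop : V = ⊤
    · -- G is α-simple and nonabelian
      by_contra hlt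
      push Not at hlt
      have hc : Nat.card G < orderOf T := by
        have h1 : Nat.card V = Nat.card G := by rw [htop]; exact Nat.card_congr Subgroup.topEquiv.toEquiv
        rw [h1] at hlt
        have : Nat.card G ≤ m * Nat.card G := Nat.le_mul_of_pos_left _ hm
        omega
      have hns : ∃ (j : ℕ) (x : G), T ^ j ≠ 1 ∧ (T ^ j) x = x := by
        by_contra hcon
        push Not at hcon
        -- powers of T applied to 1 are distinct
        let f : Fin (orderOf T) → G := fun i => (T ^ (i : ℕ)) 1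
        have hf : Function.Injective f := by
          have key : ∀ i j : Fin (orderOf T), (i : ℕ) ≤ j → f i = f j → i = j := by
            intro i j hij hfe
            have h1 : (T ^ (i : ℕ)) 1 = (T ^ (j : ℕ)) 1 := hfe
            rw [show (j : ℕ) = i + (j - i) by omega, pow_add, Perm.mul_apply] at h1
            have h2 := (T ^ (i : ℕ)).injective h1
            have h3 : T ^ ((j : ℕ) - i) = 1 := by
              by_contra hne
              exact hcon _ 1 hne h2.symm
            have h4 := orderOf_dvd_of_pow_eq_one h3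
            have h5 := Nat.eq_zero_of_dvd_of_lt h4 (by omega)
            apply Fin.ext; omega
          intro i j hij
          rcases le_total (i : ℕ) j with hle | hle
          · exact key i j hle hij
          · exact (key j i hle hij.symm).symm
        have := Nat.card_le_card_of_injective f hf
        rw [Nat.card_fin] at this
        omega
      obtain ⟨g, H, k, hFP, hHt⟩ := exists_FP hT hns
      have hPA : ∀ K : Subgroup G, K ≠ ⊤ → PA K := by
        intro K hK
        apply IH
        exact card_lt_of_ne_top hK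
      have hc' : Nat.card G < 2 * orderOf (tr g T) := by rw [orderOf_tr]; omega
      by_cases hA : ∀ x, x⁻¹ * (α ^ k) x ∈ H
      · -- case (a)
        have hfix : ∀ x, (α ^ k) (x⁻¹ * (α ^ k) x) = x⁻¹ * (α ^ k) x := by
          intro x
          have := hFP.fix' 1 (hA x)
          rw [pow_one] at this
          exact this
        have hKab := cK_abelian hfix
        have hKn := cK_normal (α ^ k)
        have hKi := cK_inv α (α ^ k) (fun x => by
          rw [← MulAut.mul_apply, ← MulAut.mul_apply, ← pow_succ, ← pow_succ'])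
        have hKne := cK_ne_bot hFP.ne
        have := hV.min (cK (α ^ k)) hKn hKi (by rw [htop]; exact le_top) hKne
        rw [this] at hKab
        exact hab hKab
      · push Not at hA
        obtain ⟨g₀, hg₀⟩ := hA
        have h1 := hFP.card_big hg₀
        have h2 := hFP.orderOf_eq
        have h3 := hFP.k_le (hPA H hHt)
        rw [orderOf_tr] at h2
        have h4 : (big α H k g₀).ncard ≤ Nat.card G := by
          rw [← Set.ncard_univ]
          exact Set.ncard_le_ncard (Set.subset_univ _) (Set.toFinite _)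
        have h5 : k * orderOf (α ^ k) ≤ Nat.card H * orderOf (α ^ k) := Nat.mul_le_mul_right _ h3
        have h6 : Nat.card H * orderOf (α ^ k) = orderOf (α ^ k) * Nat.card H := mul_comm _ _
        omega
    · -- V ≠ ⊤
      have hB := hT.pow m
      have hBV : ∀ x ∈ V, (T ^ m) x ∈ V := by
        intro x hx
        have := V.mul_mem hx (htriv x)
        have e : x * (x⁻¹ * (T ^ m) x) = (T ^ m) x := by group
        rwa [e] at this
      obtain ⟨S, β, hS, hST, hSβ⟩ := exists_res hB V hBV
      have hPAV : PA V := IH V (card_lt_of_ne_top htop)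
      have hle := hPAV.le_card hS
      have hfixV : ∀ x ∈ V, ((T ^ m) ^ orderOf S) x = x := by
        intro x hx
        have := semiconj_pow (fun y : V => (y : G)) S (T ^ m) hST (orderOf S) ⟨x, hx⟩
        rw [pow_orderOf_eq_one] at this
        exact this.symm
      have hone : ((T ^ m) ^ orderOf S) 1 = 1 := hfixV 1 V.one_mem
      have hlin := (hB.pow (orderOf S)).fix_one hone
      have htriv' := pow_triv htriv (orderOf S)
      have hT1 : (T ^ m) ^ orderOf S = 1 := by
        ext x
        set w := x⁻¹ * ((T ^ m) ^ orderOf S) x with hw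
        have hwV : w ∈ V := htriv' x
        have hwc : w ∈ Subgroup.centralizer (V : Set G) := by
          rw [Subgroup.mem_centralizer_iff]
          intro v hv
          have h1 : x * v * x⁻¹ ∈ V := hV.normal.conj_mem v hv x
          have h2 := hfixV _ h1
          rw [hlin, map_mul, map_mul, map_inv, ← hlin, ← hlin, hfixV v hv] at h2
          have h3 : ((T ^ m) ^ orderOf S) x = x * w := by rw [hw]; group
          rw [h3] at h2
          calc v * w = x⁻¹ * (x * v * x⁻¹) * x * w := by group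
            _ = x⁻¹ * (x * w * v * (x * w)⁻¹) * x * w := by rw [h2]
            _ = w * v := by group
        have hwZ : w ∈ Z := ⟨hwV, hwc⟩
        rw [hZbot, Subgroup.mem_bot] at hwZ
        have h4 : ((T ^ m) ^ orderOf S) x = x := by
          have := inv_mul_eq_one.mp hwZ
          exact this.symm
        rw [h4]; rfl
      have h1 : orderOf T ≤ m * orderOf S := by
        apply Nat.le_of_dvd (Nat.mul_pos hm (orderOf_pos S))
        apply orderOf_dvd_of_pow_eq_one
        rw [pow_mul]; exact hT1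
      exact h1.trans (Nat.mul_le_mul_left m hle)

theorem thmA_aux : ∀ (n : ℕ) (G : Type) [Group G] [Finite G], Nat.card G = n → PA G := by
  intro n
  induction n using Nat.strong_induction_on with
  | _ n ih =>
    intro G _ _ hcard
    have IH : ∀ (K : Type) [Group K] [Finite K], Nat.card K < Nat.card G → PA K := by
      intro K _ _ hK
      exact ih _ (by omega) K rfl
    intro T α hT N hN hinv m hm htriv
    by_cases hNb : N = ⊥
    · have : T ^ m = 1 := by
        ext x
        have h1 := htriv x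
        rw [hNb, Subgroup.mem_bot] at h1
        have := inv_mul_eq_one.mp h1
        exact this.symm
      have h1 := Nat.le_of_dvd hm (orderOf_dvd_of_pow_eq_one this)
      have h2 : m ≤ m * Nat.card N := Nat.le_mul_of_pos_right _ Nat.card_pos
      omega
    · obtain ⟨V, hVN, hV⟩ := exists_minInv α N hN hinv hNb
      have hVn := hV.normal
      obtain ⟨S, β, hS, hST, hSβ⟩ := exists_quo hT V hV.inv
      have hcardlt : Nat.card (G ⧸ V) < Nat.card G := by
        have h1 := Subgroup.card_eq_card_quotient_mul_card_subgroup V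
        have h2 : 1 < Nat.card V := by
          rw [Subgroup.one_lt_card_iff_ne_bot]; exact hV.ne
        have h3 : 0 < Nat.card (G ⧸ V) := Nat.card_pos
        nlinarith
      have hPAq := IH (G ⧸ V) hcardlt
      have hNq : (N.map (QuotientGroup.mk' V)).Normal :=
        hN.map _ (QuotientGroup.mk'_surjective V)
      have h1 := hPAq S β hS (N.map (QuotientGroup.mk' V)) (by
        rintro _ ⟨x, hx, rfl⟩
        exact ⟨α x, hinv x hx, (hSβ x).symm⟩) m hm (by
        intro x
        induction x using QuotientGroup.induction_on with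
        | H x =>
          have := semiconj_pow (fun y : G => (y : G ⧸ V)) T S (fun y => (hST y).symm) m x
          refine ⟨x⁻¹ * (T ^ m) x, htriv x, ?_⟩
          change ((x⁻¹ * (T ^ m) x : G) : G ⧸ V) = _
          rw [← this]
          rfl)
      have hcardN := card_map_mul hVN
      have h2 := keyA IH hT hV (orderOf_pos S) (by
        intro x
        have := semiconj_pow (fun y : G => (y : G ⧸ V)) T S (fun y => (hST y).symm) (orderOf S) x
        rw [pow_orderOf_eq_one] at this
        have h3 : ((x : G) : G ⧸ V) = (((T ^ orderOf S) x : G) : G ⧸ V) := this.symm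
        exact QuotientGroup.eq.mp h3)
      calc orderOf T ≤ orderOf S * Nat.card V := h2
        _ ≤ (m * Nat.card (N.map (QuotientGroup.mk' V))) * Nat.card V :=
            Nat.mul_le_mul_right _ h1
        _ = m * Nat.card N := by rw [mul_assoc, hcardN]

/-- Theorem A: the order of an affine map is at most `m` times the order of a normal subgroup
modulo which its `m`-th power is trivial. -/
theorem thmA (G : Type) [Group G] [Finite G] : PA G := thmA_aux _ G rfl

end H67
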