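import Mathlib
import Pool.Agent.H67.ThmA

namespace H67

open Equiv

variable {G : Type} [Group G]

/-- internal direct decomposition into invariant subgroups -/
structure DD (α : MulAut G) (X E : Subgroup G) : Prop where
  invX : ∀ x ∈ X, α x ∈ X
  invE : ∀ x ∈ E, α x ∈ E
  comm : ∀ x ∈ X, ∀ y ∈ E, x * y = y * x
  inf : ∀ x, x ∈ X → x ∈ E → x = 1
  sup : ∀ g, ∃ x ∈ X, ∃ y ∈ E, g = x * y

/-- powers of `α` act transitively on the non-identity elements of `E` -/
def TransOn (α : MulAut G) (E : Subgroup G) : Prop :=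
  ∀ x ∈ E, ∀ y ∈ E, x ≠ 1 → y ≠ 1 → ∃ i : ℕ, (α ^ i) x = y

/-- Common lemma: `G = C_G(V) ⟨t⟩`. -/
theorem gen_mod_cent [Finite G] {T : Perm G} {α : MulAut G} (hT : IsAff T α)
    (hc : Nat.card G < 2 * orderOf T) {V : Subgroup G} (hV : V.Normal)
    (hinv : ∀ x ∈ V, α x ∈ V)
    (hcx : ∀ (x : G), ∀ v ∈ V, α (x * v * x⁻¹) = x * α v * x⁻¹) :
    ∃ C : Subgroup G, C.Normal ∧ (∀ x, x ∈ C ↔ ∀ v ∈ V, x * v = v * x) ∧
      (∀ x ∈ C, α x ∈ C) ∧ (∀ (n : ℕ) (x : G), (T 1 ^ n * x)⁻¹ * (T ^ n) x ∈ C) ∧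
      (∀ g : G, ∃ i : ℤ, (T 1 ^ i)⁻¹ * g ∈ C) := by
  let C : Subgroup G := Subgroup.centralizer (V : Set G)
  have hCn : C.Normal := inferInstance
  have hCmem : ∀ x, x ∈ C ↔ ∀ v ∈ V, x * v = v * x := by
    intro x
    show x ∈ Subgroup.centralizer (V : Set G) ↔ _
    rw [Subgroup.mem_centralizer_iff]
    constructor
    · intro h v hv; exact (h v hv).symm
    · intro h v hv; exact (h v hv).symm
  have hsurjV : ∀ v ∈ V, ∃ v' ∈ V, α v' = v := by
    intro v hv
    refine ⟨α.symm v, ?_, by simp⟩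
    exact (mem_iff_of_inv α.injective V hinv _).mpr (by simpa using hv)
  have hCi : ∀ x ∈ C, α x ∈ C := by
    intro x hx
    rw [hCmem] at hx ⊢
    intro v hv
    obtain ⟨v', hv', rfl⟩ := hsurjV v hv
    rw [← map_mul, hx v' hv', map_mul]
  -- α x ∈ x C
  have hαx : ∀ x : G, x⁻¹ * α x ∈ C := by
    intro x
    rw [hCmem]
    intro v hv
    obtain ⟨v', hv', rfl⟩ := hsurjV v hv
    have h1 := hcx x v' hv'
    rw [map_mul, map_mul, map_inv] at h1
    calc x⁻¹ * α x * α v' = x⁻¹ * (α x * α v' * (α x)⁻¹) * α x := by group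
      _ = x⁻¹ * (x * α v' * x⁻¹) * α x := by rw [h1]
      _ = α v' * (x⁻¹ * α x) := by group
  have hTn : ∀ (n : ℕ) (x : G), (T 1 ^ n * x)⁻¹ * (T ^ n) x ∈ C := by
    intro n
    induction n with
    | zero => intro x; simp
    | succ n ih =>
      intro x
      rw [pow_succ' T, Perm.mul_apply]
      set y := (T ^ n) x with hy
      rw [hT y]
      have e : (T 1 ^ (n + 1) * x)⁻¹ * (T 1 * α y) =
          ((T 1 ^ n * x)⁻¹ * y) * (y⁻¹ * α y) := by
        rw [pow_succ']; group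
      rw [e]
      exact C.mul_mem (ih x) (hαx y)
  refine ⟨C, hCn, hCmem, hCi, hTn, ?_⟩
  -- order of t mod C
  set tb : G ⧸ C := ((T 1 : G) : G ⧸ C) with htb
  have h1 : orderOf T ≤ orderOf tb * Nat.card C := by
    apply thmA G T α hT C hCi _ (orderOf_pos tb)
    intro x
    have h2 := hTn (orderOf tb) x
    have h3 : T 1 ^ orderOf tb ∈ C := by
      rw [← QuotientGroup.eq_one_iff, QuotientGroup.mk_pow]
      exact pow_orderOf_eq_one tb
    have e : x⁻¹ * (T ^ orderOf tb) x = (x⁻¹ * T 1 ^ orderOf tb * x⁻¹⁻¹) *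
      ((T 1 ^ orderOf tb * x)⁻¹ * (T ^ orderOf tb) x) := by group
    rw [e]
    exact C.mul_mem (hCn.conj_mem _ h3 x⁻¹) h2
  have h2 := Subgroup.card_eq_card_quotient_mul_card_subgroup C
  have h3 : Nat.card (G ⧸ C) < 2 * orderOf tb := by
    have hCp : 0 < Nat.card C := Nat.card_pos
    have : Nat.card (G ⧸ C) * Nat.card C < (2 * orderOf tb) * Nat.card C := by nlinarith
    exact Nat.lt_of_mul_lt_mul_right this
  have h4 : Subgroup.zpowers tb = ⊤ := by
    by_contra hne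
    have h5 : Nat.card (Subgroup.zpowers tb) = orderOf tb := Nat.card_zpowers tb
    have h6 := Subgroup.card_subgroup_dvd_card (Subgroup.zpowers tb)
    obtain ⟨q, hq⟩ := h6
    rw [h5] at hq
    have hq2 : 2 ≤ q := by
      by_contra hcon
      push Not at hcon
      have : q = 0 ∨ q = 1 := by omega
      rcases this with rfl | rfl
      · have : 0 < Nat.card (G ⧸ C) := Nat.card_pos
        omega
      · apply hne
        apply Subgroup.eq_top_of_card_eq
        omega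
    nlinarith [orderOf_pos tb]
  intro g
  have h5 : ((g : G) : G ⧸ C) ∈ Subgroup.zpowers tb := by rw [h4]; trivial
  obtain ⟨i, hi⟩ := Subgroup.mem_zpowers_iff.mp h5
  refine ⟨i, ?_⟩
  rw [← QuotientGroup.eq]
  exact hi

/-- regularity from the ratio: two disjoint orbits are impossible -/
theorem trans_of_large [Finite G] {α : MulAut G} {V : Subgroup G} (hinv : ∀ x ∈ V, α x ∈ V)
    {m L : ℕ} (hfixL : ∀ v ∈ V, ((α ^ m) ^ L) v = v) (hLpos : 0 < L)
    (hdvd : ∀ j, (∃ v ∈ V, v ≠ 1 ∧ ((α ^ m) ^ j) v = v) → L ∣ j)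
    (hlarge : Nat.card V < 2 * L + 1) :
    ∀ x ∈ V, ∀ y ∈ V, x ≠ 1 → y ≠ 1 → ∃ i : ℕ, ((α ^ m) ^ i) x = y := by
  have hinvβ : ∀ j : ℕ, ∀ x ∈ V, ((α ^ m) ^ j) x ∈ V := pow_inv_mem (pow_inv_mem hinv m)
  intro x hx y hy hx1 hy1
  by_contra hne
  push Not at hne
  have horb : ∀ v ∈ V, v ≠ 1 → ∃ A : Set G, A.ncard = L ∧ A ⊆ {w | w ∈ V ∧ w ≠ 1} ∧
      (∀ w, w ∈ A ↔ ∃ i : ℕ, ((α ^ m) ^ i) v = w) := by
    intro v hv hv1
    refine ⟨Set.range (fun i : Fin L => ((α ^ m) ^ (i : ℕ)) v), ?_, ?_, ?_⟩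
    · have hinj : Function.Injective (fun i : Fin L => ((α ^ m) ^ (i : ℕ)) v) := by
        have key : ∀ i j : Fin L, (i : ℕ) ≤ j →
            ((α ^ m) ^ (i : ℕ)) v = ((α ^ m) ^ (j : ℕ)) v → i = j := by
          intro i j hij h1
          rw [show (j : ℕ) = i + (j - i) by omega, pow_add, MulAut.mul_apply] at h1
          have h2 := ((α ^ m) ^ (i : ℕ)).injective h1
          have h3 := hdvd _ ⟨v, hv, hv1, h2.symm⟩
          have h5 := Nat.eq_zero_of_dvd_of_lt h3 (by omega)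
          apply Fin.ext; omega
        intro i j hij
        rcases le_total (i : ℕ) j with hle | hle
        · exact key i j hle hij
        · exact (key j i hle hij.symm).symm
      rw [← Set.image_univ, Set.ncard_image_of_injective _ hinj, Set.ncard_univ, Nat.card_fin]
    · rintro _ ⟨i, rfl⟩
      refine ⟨hinvβ i v hv, ?_⟩
      intro h1
      exact hv1 ((MulEquiv.map_eq_one_iff ((α ^ m) ^ (i : ℕ))).mp h1)
    · intro w
      constructor
      · rintro ⟨i, rfl⟩; exact ⟨i, rfl⟩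
      · rintro ⟨i, rfl⟩
        refine ⟨⟨i % L, Nat.mod_lt _ hLpos⟩, ?_⟩
        show ((α ^ m) ^ (i % L)) v = ((α ^ m) ^ i) v
        have hLq : ∀ q : ℕ, ((α ^ m) ^ (L * q)) v = v := by
          intro q
          induction q with
          | zero => simp
          | succ q ih => rw [Nat.mul_succ, pow_add, MulAut.mul_apply, hfixL v hv, ih]
        conv_rhs => rw [← Nat.mod_add_div i L, pow_add, MulAut.mul_apply, hLq]
  obtain ⟨A, hA1, hA2, hA3⟩ := horb x hx hx1
  obtain ⟨B, hB1, hB2, hB3⟩ := horb y hy hy1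
  have hdisj : Disjoint A B := by
    rw [Set.disjoint_left]
    intro w hwA hwB
    obtain ⟨i, hi⟩ := (hA3 w).mp hwA
    obtain ⟨j, hj⟩ := (hB3 w).mp hwB
    -- y = β^{-j} w ; use L (j+1) - j
    apply hne (L * j - j + i)
    rw [pow_add, MulAut.mul_apply, hi, ← hj, ← MulAut.mul_apply, ← pow_add]
    have : L * j - j + j = L * j := by
      have : j ≤ L * j := Nat.le_mul_of_pos_left _ hLpos
      omega
    rw [this]
    have hLq : ∀ q : ℕ, ((α ^ m) ^ (L * q)) y = y := by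
      intro q
      induction q with
      | zero => simp
      | succ q ih => rw [Nat.mul_succ, pow_add, MulAut.mul_apply, hfixL y hy, ih]
    exact hLq j
  have h1 := Set.ncard_union_eq hdisj (Set.toFinite _) (Set.toFinite _)
  have h2 : (insert (1 : G) (A ∪ B)).ncard ≤ (V : Set G).ncard := by
    apply Set.ncard_le_ncard _ (Set.toFinite _)
    intro w hw
    rcases hw with rfl | hw | hw
    · exact V.one_mem
    · exact (hA2 hw).1
    · exact (hB2 hw).1
  have h3 : (1 : G) ∉ A ∪ B := by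
    rintro (hw | hw)
    · exact (hA2 hw).2 rfl
    · exact (hB2 hw).2 rfl
  rw [Set.ncard_insert_of_notMem h3 (Set.toFinite _), h1, hA1, hB1] at h2
  have h4 : (V : Set G).ncard = Nat.card V := rfl
  omega

/-- Type II minimal subgroups are direct factors. -/
theorem typeII [Finite G] {T : Perm G} {α : MulAut G} (hT : IsAff T α)
    (hc : Nat.card G < 2 * orderOf T) {V : Subgroup G} (hV : MinInv α V)
    (hab : ∀ x ∈ V, ∀ y ∈ V, x * y = y * x) {m : ℕ} (hm : 0 < m)
    (htriv : ∀ x, x⁻¹ * (T ^ m) x ∈ V) (hmle : m * Nat.card V ≤ Nat.card G)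
    (hβ : ¬ ∀ v ∈ V, (α ^ m) v = v) :
    ∃ X, DD α X V ∧ TransOn α V ∧ ∃ x ∈ V, α x ≠ x := by
  have hVn := hV.normal
  obtain ⟨L, hLpos, hfixL, hdvd, hone, -⟩ := case2 hT hV hab htriv hβ
  have hcL : orderOf T ≤ m * L := by
    apply Nat.le_of_dvd (Nat.mul_pos hm hLpos)
    apply orderOf_dvd_of_pow_eq_one
    rw [pow_mul]; exact hone
  have hlarge : Nat.card V < 2 * L + 1 := by
    have : m * Nat.card V < m * (2 * L) := by nlinarith
    have := Nat.lt_of_mul_lt_mul_left this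
    omega
  have htrans := trans_of_large hV.inv hfixL hLpos hdvd hlarge
  set β := α ^ m with hβdef
  have hinvβ : ∀ j : ℕ, ∀ x ∈ V, (β ^ j) x ∈ V := pow_inv_mem (pow_inv_mem hV.inv m)
  -- every homomorphism commuting with β on V is a power of β
  obtain ⟨v₀, hv₀, hv₀1⟩ : ∃ v ∈ V, v ≠ 1 := by
    by_contra hcon
    push Not at hcon
    exact hV.ne ((Subgroup.eq_bot_iff_forall V).mpr hcon)
  have hpw : ∀ (φ : G → G), (∀ v ∈ V, φ v ∈ V) → (∀ v ∈ V, v ≠ 1 → φ v ≠ 1) → φ 1 = 1 →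
      (∀ v ∈ V, φ (β v) = β (φ v)) → ∃ i : ℕ, ∀ v ∈ V, φ v = (β ^ i) v := by
    intro φ h1 h2 h3 h4
    obtain ⟨i, hi⟩ := htrans v₀ hv₀ (φ v₀) (h1 _ hv₀) hv₀1 (h2 _ hv₀ hv₀1)
    refine ⟨i, fun v hv => ?_⟩
    by_cases hv1 : v = 1
    · rw [hv1, h3, map_one]
    · obtain ⟨j, hj⟩ := htrans v₀ hv₀ v hv hv₀1 hv1
      rw [← hj]
      have h5 : ∀ j : ℕ, φ ((β ^ j) v₀) = (β ^ j) (φ v₀) := by
        intro j
        induction j with
        | zero => simp
        | succ j ih =>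
          rw [pow_succ', MulAut.mul_apply, h4 _ (hinvβ j v₀ hv₀), ih, MulAut.mul_apply]
      rw [h5, ← hi, commute_pow_lin]
  obtain ⟨a, ha⟩ := hpw α hV.inv (fun v _ hv1 h => hv1 ((MulEquiv.map_eq_one_iff α).mp h))
    (map_one _) (fun v _ => by
      rw [hβdef, ← MulAut.mul_apply, ← MulAut.mul_apply, ← pow_succ, ← pow_succ'])
  have hconj : ∀ g : G, ∃ i : ℕ, ∀ v ∈ V, g * v * g⁻¹ = (β ^ i) v := by
    intro g
    apply hpw (fun v => g * v * g⁻¹) (fun v hv => hVn.conj_mem v hv g)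
    · intro v _ hv1 h
      apply hv1
      have : v = g⁻¹ * (g * v * g⁻¹) * g := by group
      rw [this, h]; group
    · simp
    · intro v hv
      have := conj_comm (hT.pow m) hVn hab (pow_inv_mem hV.inv m) htriv g hv
      exact this.symm
  have hcx : ∀ (x : G), ∀ v ∈ V, α (x * v * x⁻¹) = x * α v * x⁻¹ := by
    intro x v hv
    obtain ⟨i, hi⟩ := hconj x
    rw [hi v hv, hi _ (hV.inv v hv), ha v hv, ha _ (hinvβ i v hv), commute_pow_lin]
  obtain ⟨C, hCn, hCmem, hCi, hTn, hgen⟩ := gen_mod_cent hT hc hVn hV.inv hcx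
  -- coprimality: α = β^a on V and α^m = β
  have ham : ∀ n : ℕ, ∀ v ∈ V, (α ^ n) v = (β ^ (a * n)) v := by
    intro n
    induction n with
    | zero => intro v _; simp
    | succ n ih =>
      intro v hv
      rw [pow_succ', MulAut.mul_apply, ih v hv, ha _ (hinvβ _ v hv), ← MulAut.mul_apply,
        ← pow_add]
      congr 2; ring
  have hbm : ∀ v ∈ V, (β ^ (a * m)) v = β v := fun v hv => (ham m v hv).symm
  have hcop : Nat.Coprime m L := by
    have h1 : L ∣ (a * m + L - 1 % L) ∨ True := Or.inr trivial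
    -- β^(am) = β on V
    have h2 : (β ^ (a * m + (L - 1))) v₀ = v₀ := by
      rw [add_comm, pow_add, MulAut.mul_apply, hbm v₀ hv₀, ← MulAut.mul_apply, ← pow_succ]
      have : L - 1 + 1 = L := by omega
      rw [this]; exact hfixL v₀ hv₀
    have h3 := hdvd _ ⟨v₀, hv₀, hv₀1, h2⟩
    -- L ∣ a m + L - 1
    have h4 : Nat.gcd m L ∣ a * m + (L - 1) := (Nat.gcd_dvd_right m L).trans h3
    have h5 : Nat.gcd m L ∣ a * m := Dvd.dvd.mul_left (Nat.gcd_dvd_left _ _) a
    have h6 : Nat.gcd m L ∣ L - 1 := (Nat.dvd_add_right h5).mp h4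
    have h7 : Nat.gcd m L ∣ L := Nat.gcd_dvd_right _ _
    have h8 : Nat.gcd m L ∣ L - (L - 1) := Nat.dvd_sub h7 h6
    have h9 : L - (L - 1) = 1 := by omega
    rw [h9] at h8
    exact Nat.dvd_one.mp h8
  -- t ∈ C
  obtain ⟨it, hit⟩ := hconj (T 1)
  have hpowconj : ∀ n : ℕ, ∀ v ∈ V, T 1 ^ n * v * (T 1 ^ n)⁻¹ = (β ^ (it * n)) v := by
    intro n
    induction n with
    | zero => intro v _; simp
    | succ n ih =>
      intro v hv
      have e : T 1 ^ (n + 1) * v * (T 1 ^ (n + 1))⁻¹ = T 1 * (T 1 ^ n * v * (T 1 ^ n)⁻¹) * (T 1)⁻¹ := by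
        rw [pow_succ']; group
      rw [e, ih v hv, hit _ (hinvβ _ v hv), ← MulAut.mul_apply, ← pow_add]
      congr 2; ring
  have htm : T 1 ^ m ∈ C := by
    have h1 := hTn m 1
    rw [mul_one] at h1
    have h2 : (T ^ m) 1 ∈ C := by
      have h3 := htriv 1
      rw [inv_one, one_mul] at h3
      rw [hCmem]
      intro v hv
      exact hab _ h3 v hv
    have e : T 1 ^ m = (T ^ m) 1 * ((T 1 ^ m)⁻¹ * (T ^ m) 1)⁻¹ := by group
    rw [e]
    exact C.mul_mem h2 (C.inv_mem h1)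
  have hLit : L ∣ it * m := by
    apply hdvd
    refine ⟨v₀, hv₀, hv₀1, ?_⟩
    rw [← hpowconj m v₀ hv₀]
    rw [(hCmem _).mp htm v₀ hv₀]; group
  have hLit' : L ∣ it := Nat.Coprime.dvd_of_dvd_mul_right hcop.symm hLit
  have htC : T 1 ∈ C := by
    rw [hCmem]
    intro v hv
    have h1 := hit v hv
    obtain ⟨q, hq⟩ := hLit'
    have h2 : (β ^ it) v = v := by
      rw [hq]
      clear hq h1
      induction q with
      | zero => simp
      | succ q ih => rw [Nat.mul_succ, pow_add, MulAut.mul_apply, hfixL v hv, ih]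
    rw [h2] at h1
    calc T 1 * v = (T 1 * v * (T 1)⁻¹) * T 1 := by group
      _ = v * T 1 := by rw [h1]
  have hcent : ∀ g : G, ∀ v ∈ V, g * v = v * g := by
    intro g
    obtain ⟨i, hi⟩ := hgen g
    have : g ∈ C := by
      have e : g = T 1 ^ i * ((T 1 ^ i)⁻¹ * g) := by group
      rw [e]
      exact C.mul_mem (C.zpow_mem htC i) hi
    exact (hCmem g).mp this
  -- f x = x⁻¹ β x
  have hβx : ∀ x, x⁻¹ * β x ∈ V := by
    intro x
    have h1 := htriv x
    have h2 := htriv 1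
    rw [inv_one, one_mul] at h2
    rw [hβdef, (hT.pow m).lin]
    have e : x⁻¹ * (((T ^ m) 1)⁻¹ * (T ^ m) x) = ((T ^ m) 1)⁻¹ * (x⁻¹ * (T ^ m) x) := by
      have := hcent x⁻¹ _ (V.inv_mem h2)
      rw [← mul_assoc, this, mul_assoc]
    rw [e]
    exact V.mul_mem (V.inv_mem h2) h1
  let X : Subgroup G :=
    { carrier := {x | β x = x}
      mul_mem' := by
        intro a b ha hb
        show β (a * b) = a * b
        have ha' : β a = a := ha
        have hb' : β b = b := hb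
        rw [map_mul, ha', hb']
      one_mem' := map_one _
      inv_mem' := by
        intro a ha
        have ha' : β a = a := ha
        show β a⁻¹ = a⁻¹
        rw [map_inv, ha'] }
  have hfpf : ∀ v ∈ V, β v = v → v = 1 := by
    intro v hv hv'
    by_contra hne
    have h1 : L ∣ 1 := hdvd 1 ⟨v, hv, hne, by rw [pow_one]; exact hv'⟩
    have hL1 : L = 1 := Nat.dvd_one.mp h1
    apply hβ
    intro w hw
    have := hfixL w hw
    rw [hL1, pow_one] at this
    exact this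
  have hβV : ∀ v ∈ V, β v ∈ V := by
    intro v hv; have := hinvβ 1 v hv; rw [pow_one] at this; exact this
  refine ⟨X, ⟨?_, hV.inv, ?_, ?_, ?_⟩, ?_, ?_⟩
  · intro x hx
    have hx' : β x = x := hx
    show β (α x) = α x
    have : β (α x) = α (β x) := by
      rw [hβdef, ← MulAut.mul_apply, ← MulAut.mul_apply, ← pow_succ, ← pow_succ']
    rw [this, hx']
  · intro x _ y hy
    exact hcent x y hy
  · intro x hx hxV
    exact hfpf x hxV hx
  · intro g
    let f : V → V := fun v => ⟨(v : G)⁻¹ * β v, V.mul_mem (V.inv_mem v.2) (hβV v v.2)⟩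
    have hf : Function.Injective f := by
      rintro ⟨v, hv⟩ ⟨w, hw⟩ hvw
      have h1 : v⁻¹ * β v = w⁻¹ * β w := congrArg Subtype.val hvw
      have h2 : v * w⁻¹ = 1 := by
        apply hfpf _ (V.mul_mem hv (V.inv_mem hw))
        rw [map_mul, map_inv]
        have e1 : β v = v * (w⁻¹ * β w) := by rw [← h1]; group
        rw [e1]; group
      have h3 : v = w := mul_inv_eq_one.mp h2
      exact Subtype.ext h3
    obtain ⟨⟨v, hv⟩, hv'⟩ := Finite.surjective_of_injective hf ⟨g⁻¹ * β g, hβx g⟩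
    have h1 : v⁻¹ * β v = g⁻¹ * β g := congrArg Subtype.val hv'
    refine ⟨g * v⁻¹, ?_, v, hv, by group⟩
    show β (g * v⁻¹) = g * v⁻¹
    rw [map_mul, map_inv]
    have e1 : β g = g * (v⁻¹ * β v) := by rw [h1]; group
    have e2 : g * (v⁻¹ * β v) * (β v)⁻¹ = g * v⁻¹ := by group
    rw [e1, e2]
  · intro x hx y hy hx1 hy1
    obtain ⟨i, hi⟩ := htrans x hx y hy hx1 hy1
    refine ⟨m * i, ?_⟩
    rw [pow_mul]; exact hi
  · by_contra hcon
    push Not at hcon
    apply hβ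
    intro v hv
    have : ∀ n : ℕ, (α ^ n) v = v := by
      intro n
      induction n with
      | zero => simp
      | succ n ih => rw [pow_succ, MulAut.mul_apply, hcon v hv, ih]
    exact this m

end H67
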