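import Mathlib
import Pool.Agent.H67.TypeII

namespace H67

open Equiv

variable {G : Type} [Group G]

/-- endomorphism-like maps of a group of prime order are power maps -/
theorem prime_gen [Finite G] {V : Subgroup G} {p : ℕ} (hp : p.Prime) (hcard : Nat.card V = p) :
    ∃ v₀ ∈ V, v₀ ≠ 1 ∧ v₀ ^ p = 1 ∧ (∀ v ∈ V, ∃ n : ℕ, v = v₀ ^ n) ∧ (∀ v ∈ V, v ^ p = 1) ∧
      ∀ φ : G →* G, (∀ v ∈ V, φ v ∈ V) → ∃ n : ℕ, ∀ v ∈ V, φ v = v ^ n := by
  have hpf : Fact p.Prime := ⟨hp⟩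
  have hcyc : IsCyclic V := isCyclic_of_prime_card hcard
  obtain ⟨⟨v₀, hv₀⟩, hgen⟩ := hcyc.exists_monoid_generator
  have hall : ∀ v ∈ V, ∃ n : ℕ, v = v₀ ^ n := by
    intro v hv
    obtain ⟨n, hn⟩ := Submonoid.mem_powers_iff _ _ |>.mp (hgen ⟨v, hv⟩)
    refine ⟨n, ?_⟩
    have := congrArg Subtype.val hn
    simpa using this.symm
  have hpow : ∀ v ∈ V, v ^ p = 1 := by
    intro v hv
    have := pow_card_eq_one' (G := V) (x := ⟨v, hv⟩)
    rw [hcard] at this
    have := congrArg Subtype.val this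
    simpa using this
  refine ⟨v₀, hv₀, ?_, hpow _ hv₀, hall, hpow, ?_⟩
  · rintro rfl
    have : V = ⊥ := by
      rw [Subgroup.eq_bot_iff_forall]
      intro v hv
      obtain ⟨n, hn⟩ := hall v hv
      rw [hn, one_pow]
    rw [this, Subgroup.card_bot] at hcard
    exact hp.one_lt.ne hcard
  · intro φ hφ
    obtain ⟨n, hn⟩ := hall _ (hφ _ hv₀)
    refine ⟨n, fun v hv => ?_⟩
    obtain ⟨j, hj⟩ := hall v hv
    rw [hj, map_pow, hn, ← pow_mul, ← pow_mul, mul_comm]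

theorem typeI [Finite G] {T : Perm G} {α : MulAut G} (hT : IsAff T α)
    (hc : Nat.card G < 2 * orderOf T) {V : Subgroup G} (hVn : V.Normal)
    (hVi : ∀ x ∈ V, α x ∈ V) {p : ℕ} (hp : p.Prime) (hcard : Nat.card V = p) {m : ℕ}
    (hTm : ∀ x, (T ^ m) x = (α ^ m) x) (hz : ∀ x, x⁻¹ * (α ^ m) x ∈ V)
    (hzV : ∀ v ∈ V, (α ^ m) v = v) (hne : α ^ m ≠ 1) :
    (∀ g : G, ∀ v ∈ V, g * v = v * g) ∧ TransOn α V ∧ p ≠ 2 := by
  have hpf : Fact p.Prime := ⟨hp⟩
  obtain ⟨v₀, hv₀, hv₀1, hv₀p, hgenV, hpowV, hendo⟩ := prime_gen hp hcard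
  set z := α ^ m with hzdef
  -- α and conjugations are power maps
  obtain ⟨a, ha⟩ := hendo α.toMonoidHom hVi
  have ha' : ∀ v ∈ V, α v = v ^ a := ha
  have hconj : ∀ g : G, ∃ n : ℕ, ∀ v ∈ V, g * v * g⁻¹ = v ^ n := by
    intro g
    obtain ⟨n, hn⟩ := hendo (MulAut.conj g).toMonoidHom (fun v hv => by
      show g * v * g⁻¹ ∈ V
      exact hVn.conj_mem v hv g)
    exact ⟨n, fun v hv => hn v hv⟩
  have hcx : ∀ (x : G), ∀ v ∈ V, α (x * v * x⁻¹) = x * α v * x⁻¹ := by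
    intro x v hv
    obtain ⟨n, hn⟩ := hconj x
    rw [hn v hv, hn _ (hVi v hv), ha' v hv, map_pow, ha' v hv]
  obtain ⟨C, hCn, hCmem, hCi, hTn, hgen⟩ := gen_mod_cent hT hc hVn hVi hcx
  have hαm : ∀ x, α (z x) = z (α x) := fun x => by
    rw [hzdef, ← MulAut.mul_apply, ← MulAut.mul_apply, ← pow_succ, ← pow_succ']
  have hzT : ∀ x, z (T x) = T (z x) := by
    intro x
    rw [← hTm, ← hTm, ← Perm.mul_apply, ← Perm.mul_apply, ← pow_succ, ← pow_succ']
  have hzTn : ∀ (n : ℕ) x, z ((T ^ n) x) = (T ^ n) (z x) := by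
    intro n
    induction n with
    | zero => intro x; simp
    | succ n ih => intro x; rw [pow_succ, Perm.mul_apply, ih, hzT, Perm.mul_apply]
  have hzt : z (T 1) = T 1 := by rw [hzT, map_one]
  have habV : ∀ x ∈ V, ∀ y ∈ V, x * y = y * x := by
    intro x hx y hy
    obtain ⟨i, rfl⟩ := hgenV x hx
    obtain ⟨j, rfl⟩ := hgenV y hy
    rw [← pow_add, ← pow_add, add_comm]
  -- N₀
  let N₀ : Subgroup G :=
    { carrier := {x | x ∈ C ∧ z x = x}
      mul_mem' := by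
        rintro x y ⟨hx, hx'⟩ ⟨hy, hy'⟩
        exact ⟨C.mul_mem hx hy, by rw [map_mul, hx', hy']⟩
      one_mem' := ⟨C.one_mem, map_one _⟩
      inv_mem' := by
        rintro x ⟨hx, hx'⟩
        exact ⟨C.inv_mem hx, by rw [map_inv, hx']⟩ }
  have hN₀ : ∀ x, x ∈ N₀ ↔ (x ∈ C ∧ z x = x) := fun x => Iff.rfl
  have hN₀n : N₀.Normal := by
    constructor
    rintro x ⟨hx, hx'⟩ g
    refine ⟨hCn.conj_mem x hx g, ?_⟩
    have e : z g = g * (g⁻¹ * z g) := by group
    rw [map_mul, map_mul, map_inv, hx', e]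
    have h1 := (hCmem x).mp hx _ (hz g)
    calc g * (g⁻¹ * z g) * x * (g * (g⁻¹ * z g))⁻¹
        = g * ((g⁻¹ * z g) * x) * (g⁻¹ * z g)⁻¹ * g⁻¹ := by group
      _ = g * (x * (g⁻¹ * z g)) * (g⁻¹ * z g)⁻¹ * g⁻¹ := by rw [h1]
      _ = g * x * g⁻¹ := by group
  have hN₀i : ∀ x ∈ N₀, α x ∈ N₀ := by
    rintro x ⟨hx, hx'⟩
    exact ⟨hCi x hx, by rw [← hαm, hx']⟩
  have hkey : ∀ n : ℕ, (∀ v ∈ V, (α ^ n) v = v) → T 1 ^ n ∈ C → ∀ x, x⁻¹ * (T ^ n) x ∈ N₀ := by
    intro n hn1 hn2 x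
    have hw : x⁻¹ * (T ^ n) x ∈ C := by
      have h1 := hTn n x
      have e : x⁻¹ * (T ^ n) x = (x⁻¹ * T 1 ^ n * x⁻¹⁻¹) * ((T 1 ^ n * x)⁻¹ * (T ^ n) x) := by
        group
      rw [e]
      exact C.mul_mem (hCn.conj_mem _ hn2 x⁻¹) h1
    refine ⟨hw, ?_⟩
    have e1 : z x = x * (x⁻¹ * z x) := by group
    rw [map_mul, map_inv, hzTn, e1, (hT.pow n).map_mul, hn1 _ (hz x)]
    have h1 := (hCmem _).mp hw _ (hz x)
    calc (x * (x⁻¹ * z x))⁻¹ * ((T ^ n) x * (x⁻¹ * z x))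
        = (x⁻¹ * z x)⁻¹ * ((x⁻¹ * (T ^ n) x) * (x⁻¹ * z x)) := by group
      _ = (x⁻¹ * z x)⁻¹ * ((x⁻¹ * z x) * (x⁻¹ * (T ^ n) x)) := by rw [h1]
      _ = x⁻¹ * (T ^ n) x := by group
  -- the homomorphism f on C
  obtain ⟨c₀, hc₀, hc₀1⟩ : ∃ c ∈ C, z c ≠ c := by
    by_contra hcon
    push Not at hcon
    apply hne
    ext g
    obtain ⟨i, hi⟩ := hgen g
    have h1 := hcon _ hi
    rw [map_mul, map_inv, map_zpow, hzt] at h1
    have := mul_left_cancel h1
    rw [this]; rfl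
  have hcardC : Nat.card C = Nat.card N₀ * p := by
    let f : C →* V :=
      { toFun := fun c => ⟨(c : G)⁻¹ * z c, hz c⟩
        map_one' := by apply Subtype.ext; simp
        map_mul' := by
          intro c c'
          apply Subtype.ext
          show ((c * c' : C) : G)⁻¹ * z (c * c' : C) = ((c : G)⁻¹ * z c) * ((c' : G)⁻¹ * z c')
          rw [Subgroup.coe_mul, map_mul]
          have h1 := (hCmem _).mp (C.inv_mem c'.2) _ (hz c)
          calc ((c : G) * c')⁻¹ * (z c * z c') = ((c' : G)⁻¹ * ((c : G)⁻¹ * z c)) * z c' := by group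
            _ = (((c : G)⁻¹ * z c) * (c' : G)⁻¹) * z c' := by rw [h1]
            _ = ((c : G)⁻¹ * z c) * ((c' : G)⁻¹ * z c') := by group }
    have h1 : f.ker.index = Nat.card f.range := Subgroup.index_ker f
    have h2 := Subgroup.card_mul_index f.ker
    have h3 : f.range = ⊤ := by
      have hdvd := Subgroup.card_subgroup_dvd_card f.range
      rw [hcard] at hdvd
      rcases (Nat.dvd_prime hp).mp hdvd with h | h
      · exfalso
        rw [Subgroup.card_eq_one] at h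
        apply hc₀1
        have : f ⟨c₀, hc₀⟩ ∈ f.range := ⟨_, rfl⟩
        rw [h, Subgroup.mem_bot] at this
        have h4 : c₀⁻¹ * z c₀ = 1 := congrArg Subtype.val this
        exact (inv_mul_eq_one.mp h4).symm
      · apply Subgroup.eq_top_of_card_eq
        rw [h, hcard]
    have h4 : Nat.card f.range = p := by
      rw [h3, ← hcard]; exact Nat.card_congr Subgroup.topEquiv.toEquiv
    have h5 : Nat.card f.ker = Nat.card N₀ := by
      apply Nat.card_congr
      refine ⟨fun c => ⟨(c : C), (c : C).2, ?_⟩, fun x => ⟨⟨x, x.2.1⟩, ?_⟩, ?_, ?_⟩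
      · have h6 : f (c : C) = 1 := c.2
        have h7 : ((c : C) : G)⁻¹ * z (c : C) = 1 := congrArg Subtype.val h6
        exact (inv_mul_eq_one.mp h7).symm
      · apply Subtype.ext
        show (x : G)⁻¹ * z x = 1
        rw [x.2.2, inv_mul_cancel]
      · intro c; rfl
      · intro x; rfl
    rw [← h2, h1, h4, h5]
  -- e = 1
  have hp1 : 0 < p - 1 := by have := hp.two_le; omega
  have hfermat : ∀ n : ℕ, ∀ v ∈ V, v ≠ 1 → v ^ n ≠ 1 → v ^ (n ^ (p - 1)) = v := by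
    intro n v hv hv1 hvn
    have hord : orderOf v = p := orderOf_eq_prime (hpowV v hv) hv1
    have hcop : Nat.Coprime n p := by
      rw [Nat.coprime_comm, hp.coprime_iff_not_dvd]
      intro hd
      apply hvn
      exact orderOf_dvd_iff_pow_eq_one.mp (hord ▸ hd)
    have h1 : n ^ (p - 1) ≡ 1 [MOD p] := by
      have := Nat.ModEq.pow_totient hcop
      rwa [Nat.totient_prime hp] at this
    have h2 : v ^ (n ^ (p - 1)) = v ^ 1 := by
      rw [pow_eq_pow_iff_modEq, hord]; exact h1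
    rw [h2, pow_one]
  have hαp : ∀ v ∈ V, (α ^ (p - 1)) v = v := by
    intro v hv
    by_cases hv1 : v = 1
    · rw [hv1, map_one]
    · have h1 : ∀ n : ℕ, (α ^ n) v = v ^ (a ^ n) := by
        intro n
        induction n with
        | zero => simp
        | succ n ih => rw [pow_succ', MulAut.mul_apply, ih, map_pow, ha' v hv, ← pow_mul, pow_succ']
      rw [h1]
      apply hfermat a v hv hv1
      rw [← ha' v hv]
      intro h; exact hv1 ((MulEquiv.map_eq_one_iff α).mp h)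
  have htp : T 1 ^ (p - 1) ∈ C := by
    rw [hCmem]
    obtain ⟨n, hn⟩ := hconj (T 1)
    have h1 : ∀ (j : ℕ), ∀ v ∈ V, T 1 ^ j * v * (T 1 ^ j)⁻¹ = v ^ (n ^ j) := by
      intro j
      induction j with
      | zero => intro v _; simp
      | succ j ih =>
        intro v hv
        have e : T 1 ^ (j + 1) * v * (T 1 ^ (j + 1))⁻¹ =
          T 1 * (T 1 ^ j * v * (T 1 ^ j)⁻¹) * (T 1)⁻¹ := by rw [pow_succ']; group
        rw [e, ih v hv, hn _ (V.pow_mem hv _), ← pow_mul, pow_succ]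
    intro v hv
    by_cases hv1 : v = 1
    · rw [hv1]; simp
    · have h2 := h1 (p - 1) v hv
      rw [hfermat n v hv hv1 (by
        rw [← hn v hv]
        intro h
        apply hv1
        have : v = (T 1)⁻¹ * (T 1 * v * (T 1)⁻¹) * T 1 := by group
        rw [this, h]; group)] at h2
      calc T 1 ^ (p - 1) * v = (T 1 ^ (p - 1) * v * (T 1 ^ (p - 1))⁻¹) * T 1 ^ (p - 1) := by group
        _ = v * T 1 ^ (p - 1) := by rw [h2]
  have hcle := thmA G T α hT N₀ hN₀i (p - 1) hp1 (hkey (p - 1) hαp htp)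
  have hcardG := Subgroup.card_eq_card_quotient_mul_card_subgroup C
  have hN₀pos : 0 < Nat.card N₀ := Nat.card_pos
  have hquot : Nat.card (G ⧸ C) = 1 := by
    have hpos : 0 < Nat.card (G ⧸ C) := Nat.card_pos
    by_contra hne1
    have h2 : 2 ≤ Nat.card (G ⧸ C) := by omega
    rw [hcardC] at hcardG
    have h3 : 2 * (Nat.card N₀ * p) ≤ Nat.card G := by
      rw [hcardG]; exact Nat.mul_le_mul_right _ h2
    have h4 : Nat.card N₀ * (p - 1) ≤ Nat.card N₀ * p := Nat.mul_le_mul_left _ (Nat.sub_le _ _)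
    nlinarith
  have hCtop : ∀ g, g ∈ C := by
    rw [hquot, one_mul] at hcardG
    have := Subgroup.eq_top_of_card_eq C hcardG.symm
    intro g; rw [this]; trivial
  have hcent : ∀ g : G, ∀ v ∈ V, g * v = v * g := fun g => (hCmem g).mp (hCtop g)
  refine ⟨hcent, ?_⟩
  -- period of α on V
  have hexr : ∃ r, 0 < r ∧ ∀ v ∈ V, (α ^ r) v = v := ⟨p - 1, hp1, hαp⟩
  have hαj : ∀ j : ℕ, (∃ v ∈ V, v ≠ 1 ∧ (α ^ j) v = v) → ∀ w ∈ V, (α ^ j) w = w := by
    rintro j ⟨v, hv, hv1, hvj⟩ w hw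
    have hord : orderOf v = p := orderOf_eq_prime (hpowV v hv) hv1
    -- w is a power of v
    have h1 : Nat.card (Subgroup.zpowers v) = p := by rw [Nat.card_zpowers, hord]
    have h2 : Subgroup.zpowers v = V := by
      apply Subgroup.eq_of_le_of_card_ge
      · rw [Subgroup.zpowers_le]; exact hv
      · rw [h1, hcard]
    rw [← h2] at hw
    obtain ⟨i, rfl⟩ := Subgroup.mem_zpowers_iff.mp hw
    rw [map_zpow, hvj]
  classical
  let r := Nat.find hexr
  have hr : 0 < r ∧ ∀ v ∈ V, (α ^ r) v = v := Nat.find_spec hexr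
  have hrdvd : ∀ j, (∃ v ∈ V, v ≠ 1 ∧ ((α ^ 1) ^ j) v = v) → r ∣ j := by
    intro j hj
    simp only [pow_one] at hj
    have hj' := hαj j hj
    by_contra hcon
    have hmod : 0 < j % r := Nat.pos_of_ne_zero (fun h => hcon (Nat.dvd_of_mod_eq_zero h))
    have hlt : j % r < r := Nat.mod_lt _ hr.1
    apply Nat.find_min hexr hlt
    refine ⟨hmod, fun v hv => ?_⟩
    have h1 := hj' v hv
    have hLq : ∀ q : ℕ, (α ^ (r * q)) v = v := by
      intro q
      induction q with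
      | zero => simp
      | succ q ih => rw [Nat.mul_succ, pow_add, MulAut.mul_apply, hr.2 v hv, ih]
    rw [← Nat.mod_add_div j r, pow_add, MulAut.mul_apply, hLq] at h1
    exact h1
  have hcle2 := thmA G T α hT N₀ hN₀i r hr.1 (hkey r hr.2 (hCtop _))
  rw [hquot, one_mul, hcardC] at hcardG
  have hpr : p < 2 * r := by
    have : Nat.card N₀ * p < Nat.card N₀ * (2 * r) := by nlinarith
    exact Nat.lt_of_mul_lt_mul_left this
  have htrans := trans_of_large (α := α) (V := V) hVi (m := 1) (L := r)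
    (by simpa using hr.2) hr.1 hrdvd (by omega)
  refine ⟨?_, ?_⟩
  · intro x hx y hy hx1 hy1
    obtain ⟨i, hi⟩ := htrans x hx y hy hx1 hy1
    exact ⟨i, by simpa using hi⟩
  · intro hp2
    -- p = 2 : α v₀ = v₀
    have h1 : (α v₀) = v₀ := by
      obtain ⟨n, hn⟩ := hgenV _ (hVi v₀ hv₀)
      have hne2 : α v₀ ≠ 1 := fun h => hv₀1 ((MulEquiv.map_eq_one_iff α).mp h)
      rw [hp2] at hv₀p
      rw [← Nat.mod_add_div n 2, pow_add, pow_mul, hv₀p, one_pow, mul_one] at hn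
      rcases Nat.mod_two_eq_zero_or_one n with h | h
      · rw [h, pow_zero] at hn; exact absurd hn hne2
      · rw [h, pow_one] at hn; exact hn
    have h2 := hrdvd 1 ⟨v₀, hv₀, hv₀1, by simpa using h1⟩
    have h3 := Nat.le_of_dvd one_pos h2
    omega

end H67
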