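import Mathlib
import Pool.Agent.H67.TypeI

namespace H67

open Equiv

/-- If the powers of `f` send `x₀` exactly onto the set `S`, the period of `x₀` is `|S|`. -/
theorem period_card {A : Type} [Finite A] (f : Perm A) (x₀ : A) (S : Set A)
    (hS : ∀ y, y ∈ S ↔ ∃ i : ℕ, (f ^ i) x₀ = y) (n : ℕ) : (f ^ n) x₀ = x₀ ↔ S.ncard ∣ n := by
  classical
  have hex : ∃ L, 0 < L ∧ (f ^ L) x₀ = x₀ :=
    ⟨orderOf f, orderOf_pos f, by rw [pow_orderOf_eq_one]; rfl⟩
  let L := Nat.find hex
  have hL : 0 < L ∧ (f ^ L) x₀ = x₀ := Nat.find_spec hex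
  have hLq : ∀ q : ℕ, (f ^ (L * q)) x₀ = x₀ := by
    intro q
    induction q with
    | zero => simp
    | succ q ih => rw [Nat.mul_succ, pow_add, Perm.mul_apply, hL.2, ih]
  have hdvd : ∀ j, (f ^ j) x₀ = x₀ ↔ L ∣ j := by
    intro j
    constructor
    · intro hj
      by_contra hcon
      have hmod : 0 < j % L := Nat.pos_of_ne_zero (fun h => hcon (Nat.dvd_of_mod_eq_zero h))
      have hlt : j % L < L := Nat.mod_lt _ hL.1
      apply Nat.find_min hex hlt
      refine ⟨hmod, ?_⟩
      rw [← Nat.mod_add_div j L, pow_add, Perm.mul_apply, hLq] at hj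
      exact hj
    · rintro ⟨q, rfl⟩; exact hLq q
  have hcard : S.ncard = L := by
    have hSr : S = Set.range (fun i : Fin L => (f ^ (i : ℕ)) x₀) := by
      ext y
      rw [hS]
      constructor
      · rintro ⟨i, rfl⟩
        refine ⟨⟨i % L, Nat.mod_lt _ hL.1⟩, ?_⟩
        show (f ^ (i % L)) x₀ = (f ^ i) x₀
        conv_rhs => rw [← Nat.mod_add_div i L, pow_add, Perm.mul_apply, hLq]
      · rintro ⟨i, rfl⟩; exact ⟨i, rfl⟩
    have hinj : Function.Injective (fun i : Fin L => (f ^ (i : ℕ)) x₀) := by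
      have key : ∀ i j : Fin L, (i : ℕ) ≤ j → (f ^ (i : ℕ)) x₀ = (f ^ (j : ℕ)) x₀ → i = j := by
        intro i j hij h1
        rw [show (j : ℕ) = i + (j - i) by omega, pow_add, Perm.mul_apply] at h1
        have h2 := (f ^ (i : ℕ)).injective h1
        have h3 := (hdvd _).mp h2.symm
        have h5 := Nat.eq_zero_of_dvd_of_lt h3 (by omega)
        apply Fin.ext; omega
      intro i j hij
      rcases le_total (i : ℕ) j with hle | hle
      · exact key i j hle hij
      · exact (key j i hle hij.symm).symm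
    rw [hSr, ← Set.image_univ, Set.ncard_image_of_injective _ hinj, Set.ncard_univ, Nat.card_fin]
  rw [hcard, hdvd]

theorem mulAut_toEquiv_pow {Q : Type} [Group Q] (β : MulAut Q) (n : ℕ) (x : Q) :
    ((β.toEquiv : Perm Q) ^ n) x = (β ^ n) x := by
  induction n generalizing x with
  | zero => simp
  | succ n ih => rw [pow_succ, pow_succ, Perm.mul_apply, ih]; rfl

/-- Order of an automorphism which is transitive on the non-identity elements. -/
theorem order_of_trans {Q : Type} [Group Q] [Finite Q] (β : MulAut Q) (hne : ∃ x : Q, x ≠ 1)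
    (htr : ∀ x y : Q, x ≠ 1 → y ≠ 1 → ∃ i : ℕ, (β ^ i) x = y) {n : ℕ}
    (hn : ∀ x, (β ^ n) x = x) : Nat.card Q - 1 ∣ n := by
  obtain ⟨x₀, hx₀⟩ := hne
  have h1 := period_card (β.toEquiv : Perm Q) x₀ {x | x ≠ 1} (by
    intro y
    constructor
    · intro hy
      obtain ⟨i, hi⟩ := htr x₀ y hx₀ hy
      exact ⟨i, by rw [mulAut_toEquiv_pow]; exact hi⟩
    · rintro ⟨i, rfl⟩ h
      rw [mulAut_toEquiv_pow] at h
      exact hx₀ ((MulEquiv.map_eq_one_iff _).mp h)) n
  rw [mulAut_toEquiv_pow] at h1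
  have h2 := h1.mp (hn x₀)
  have h3 : {x : Q | x ≠ 1}.ncard = Nat.card Q - 1 := by
    have h4 := Set.ncard_add_ncard_compl ({1} : Set Q)
    rw [Set.ncard_singleton] at h4
    have h5 : ({1} : Set Q)ᶜ = {x | x ≠ 1} := by ext; simp
    rw [h5] at h4
    omega
  rwa [h3] at h2

/-- Fermat for automorphisms of groups of prime order. -/
theorem fermat_aut {Q : Type} [Group Q] [Finite Q] {p : ℕ} (hp : p.Prime)
    (hcard : Nat.card Q = p) (β : MulAut Q) {n : ℕ} (hn : p - 1 ∣ n) (x : Q) : (β ^ n) x = x := by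
  have hcard' : Nat.card (⊤ : Subgroup Q) = p := by
    rw [← hcard]; exact Nat.card_congr Subgroup.topEquiv.toEquiv
  obtain ⟨v₀, -, hv₀1, hv₀p, hgenV, hpowV, hendo⟩ := prime_gen hp hcard'
  obtain ⟨a, ha⟩ := hendo β.toMonoidHom (fun v _ => Subgroup.mem_top _)
  have ha' : ∀ v, β v = v ^ a := fun v => ha v (Subgroup.mem_top _)
  have hpow : ∀ (i : ℕ) (v : Q), (β ^ i) v = v ^ (a ^ i) := by
    intro i
    induction i with
    | zero => intro v; simp
    | succ i ih => intro v; rw [pow_succ', MulAut.mul_apply, ih, map_pow, ha', ← pow_mul, pow_succ']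
  have hmain : ∀ v : Q, (β ^ (p - 1)) v = v := by
    intro v
    by_cases hv1 : v = 1
    · rw [hv1, map_one]
    · have hpf : Fact p.Prime := ⟨hp⟩
      have hord : orderOf v = p := orderOf_eq_prime (hpowV v (Subgroup.mem_top _)) hv1
      have hcop : Nat.Coprime a p := by
        rw [Nat.coprime_comm, hp.coprime_iff_not_dvd]
        intro hd
        have h1 : v ^ a = 1 := orderOf_dvd_iff_pow_eq_one.mp (hord ▸ hd)
        rw [← ha'] at h1
        exact hv1 ((MulEquiv.map_eq_one_iff β).mp h1)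
      have h1 : a ^ (p - 1) ≡ 1 [MOD p] := by
        have := Nat.ModEq.pow_totient hcop
        rwa [Nat.totient_prime hp] at this
      rw [hpow]
      have h2 : v ^ (a ^ (p - 1)) = v ^ 1 := by
        rw [pow_eq_pow_iff_modEq, hord]; exact h1
      rw [h2, pow_one]
  obtain ⟨q, rfl⟩ := hn
  have : ∀ q : ℕ, (β ^ ((p - 1) * q)) x = x := by
    intro q
    induction q with
    | zero => simp
    | succ q ih => rw [Nat.mul_succ, pow_add, MulAut.mul_apply, hmain, ih]
  exact this q

variable {G : Type} [Group G]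

/-- powers of restricted / induced automorphisms -/
theorem resAut_pow {α : MulAut G} {K : Subgroup G} {β : MulAut K} (h : ∀ x : K, (β x : G) = α x)
    (n : ℕ) (x : K) : ((β ^ n) x : G) = (α ^ n) x := by
  induction n generalizing x with
  | zero => simp
  | succ n ih => rw [pow_succ, pow_succ, MulAut.mul_apply, MulAut.mul_apply, ih, h]

theorem quoAut_pow {α : MulAut G} {N : Subgroup G} [N.Normal] {β : MulAut (G ⧸ N)}
    (h : ∀ x : G, β (x : G ⧸ N) = (α x : G ⧸ N)) (n : ℕ) (x : G) :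
    (β ^ n) (x : G ⧸ N) = ((α ^ n) x : G ⧸ N) := by
  induction n generalizing x with
  | zero => simp
  | succ n ih => rw [pow_succ, pow_succ, MulAut.mul_apply, MulAut.mul_apply, h, ih]

theorem fermat_sub [Finite G] {p : ℕ} (hp : p.Prime) {V : Subgroup G} (hcard : Nat.card V = p)
    {α : MulAut G} (hinv : ∀ x ∈ V, α x ∈ V) {n : ℕ} (hn : p - 1 ∣ n) :
    ∀ v ∈ V, (α ^ n) v = v := by
  obtain ⟨β, hβ⟩ := exists_resAut α V hinv
  intro v hv
  have h1 := fermat_aut hp hcard β hn ⟨v, hv⟩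
  have h2 := resAut_pow hβ n ⟨v, hv⟩
  rw [h1] at h2
  exact h2.symm

/-- a quotient of odd prime order on which `α` is a primitive root -/
structure SQ (α : MulAut G) (M : Subgroup G) (p : ℕ) : Prop where
  normal : M.Normal
  inv : ∀ x ∈ M, α x ∈ M
  prime : p.Prime
  ne2 : p ≠ 2
  index : M.index = p
  tr : ∀ x y, x ∉ M → y ∉ M → ∃ i : ℕ, ((α ^ i) x)⁻¹ * y ∈ M

theorem SQ.fermat [Finite G] {α : MulAut G} {M : Subgroup G} {p : ℕ} (h : SQ α M p) {n : ℕ}
    (hn : p - 1 ∣ n) (x : G) : x⁻¹ * (α ^ n) x ∈ M := by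
  have := h.normal
  obtain ⟨β, hβ⟩ := exists_quoAut α M h.inv
  have h1 := fermat_aut h.prime (Q := G ⧸ M) h.index β hn (x : G ⧸ M)
  rw [quoAut_pow hβ] at h1
  exact QuotientGroup.eq.mp h1.symm

theorem SQ.ne_top {α : MulAut G} {M : Subgroup G} {p : ℕ} (h : SQ α M p) : M ≠ ⊤ := by
  intro ht
  have := h.index
  rw [ht, Subgroup.index_top] at this
  exact h.prime.one_lt.ne this

theorem SQ.exists_notMem {α : MulAut G} {M : Subgroup G} {p : ℕ} (h : SQ α M p) : ∃ x, x ∉ M := by
  by_contra hcon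
  push Not at hcon
  exact h.ne_top ((Subgroup.eq_top_iff' M).mpr hcon)

theorem SQ.order [Finite G] {α : MulAut G} {M : Subgroup G} {p : ℕ} (h : SQ α M p) {n : ℕ}
    (hn : ∀ x, x⁻¹ * (α ^ n) x ∈ M) : p - 1 ∣ n := by
  have := h.normal
  obtain ⟨β, hβ⟩ := exists_quoAut α M h.inv
  obtain ⟨x₀, hx₀⟩ := h.exists_notMem
  have h1 := order_of_trans (Q := G ⧸ M) β
    ⟨(x₀ : G ⧸ M), fun hh => hx₀ ((QuotientGroup.eq_one_iff x₀).mp hh)⟩ (by
      intro x y hx hy
      induction x using QuotientGroup.induction_on with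
      | H x =>
        induction y using QuotientGroup.induction_on with
        | H y =>
          obtain ⟨i, hi⟩ := h.tr x y (fun hh => hx ((QuotientGroup.eq_one_iff x).mpr hh))
            (fun hh => hy ((QuotientGroup.eq_one_iff y).mpr hh))
          exact ⟨i, by rw [quoAut_pow hβ]; exact QuotientGroup.eq.mpr hi⟩) (n := n) (by
      intro x
      induction x using QuotientGroup.induction_on with
      | H x => rw [quoAut_pow hβ]; exact (QuotientGroup.eq.mpr (hn x)).symm)
  have h2 : Nat.card (G ⧸ M) = p := h.index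
  rwa [h2] at h1

/-- restriction of an `SQ` to an invariant subgroup that covers the quotient -/
theorem SQ.restrict [Finite G] {α : MulAut G} {M : Subgroup G} {p : ℕ} (h : SQ α M p)
    {K : Subgroup G} {β : MulAut K} (hβ : ∀ x : K, (β x : G) = α x)
    (hcov : ∀ g : G, ∃ k ∈ K, g⁻¹ * k ∈ M) : SQ β (M.subgroupOf K) p := by
  have hn := h.normal
  refine ⟨inferInstance, ?_, h.prime, h.ne2, ?_, ?_⟩
  · intro x hx
    rw [Subgroup.mem_subgroupOf] at hx ⊢
    rw [hβ]; exact h.inv _ hx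
  · show (M.relIndex K) = p
    rw [← h.index]
    -- K → G/M surjective
    let f : K →* G ⧸ M := (QuotientGroup.mk' M).comp K.subtype
    have hf : Function.Surjective f := by
      intro q
      induction q using QuotientGroup.induction_on with
      | H g =>
        obtain ⟨k, hk, hgk⟩ := hcov g
        exact ⟨⟨k, hk⟩, (QuotientGroup.eq.mpr hgk).symm⟩
    have hker : f.ker = M.subgroupOf K := by
      ext x
      rw [MonoidHom.mem_ker, Subgroup.mem_subgroupOf]
      exact QuotientGroup.eq_one_iff _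
    have h1 := Subgroup.index_ker f
    rw [hker, MonoidHom.range_eq_top.mpr hf] at h1
    rw [Subgroup.relIndex, h1]
    exact Nat.card_congr Subgroup.topEquiv.toEquiv
  · intro x y hx hy
    rw [Subgroup.mem_subgroupOf] at hx hy
    obtain ⟨i, hi⟩ := h.tr x y hx hy
    refine ⟨i, ?_⟩
    rw [Subgroup.mem_subgroupOf, Subgroup.coe_mul, Subgroup.coe_inv, resAut_pow hβ]
    exact hi

/-- a transitive map has no such quotient -/
theorem SQ.not_trans [Finite G] {T : Perm G} {α : MulAut G} (hT : IsAff T α)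
    (htr : ∀ x y, ∃ i : ℕ, (T ^ i) x = y) {M : Subgroup G} {p : ℕ} (h : SQ α M p) : False := by
  have hn := h.normal
  obtain ⟨S, β, hS, hST, hSβ⟩ := exists_quo hT M h.inv
  have hcardQ : Nat.card (G ⧸ M) = p := h.index
  -- β has no nontrivial fixed point
  have hpf : Fact p.Prime := ⟨h.prime⟩
  have hfpf : ∀ q : G ⧸ M, β q = q → q = 1 := by
    intro q hq
    by_contra hq1
    induction q using QuotientGroup.induction_on with
    | H x =>
      have hx : x ∉ M := fun hh => hq1 ((QuotientGroup.eq_one_iff x).mpr hh)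
      have hfixn : ∀ i : ℕ, (β ^ i) (x : G ⧸ M) = (x : G ⧸ M) := by
        intro i
        induction i with
        | zero => simp
        | succ i ih => rw [pow_succ, MulAut.mul_apply, hq, ih]
      -- all non-identity elements equal x, so p = 2
      have hall : ∀ y : G ⧸ M, y = 1 ∨ y = (x : G ⧸ M) := by
        intro y
        induction y using QuotientGroup.induction_on with
        | H y =>
          by_cases hy : y ∈ M
          · left; exact (QuotientGroup.eq_one_iff y).mpr hy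
          · right
            obtain ⟨i, hi⟩ := h.tr x y hx hy
            rw [← hfixn i, quoAut_pow hSβ]
            exact (QuotientGroup.eq.mpr hi).symm
      have h2 : Nat.card (G ⧸ M) ≤ 2 := by
        rw [← Set.ncard_univ]
        have : (Set.univ : Set (G ⧸ M)) ⊆ {1, (x : G ⧸ M)} := fun y _ => hall y
        refine (Set.ncard_le_ncard this (Set.toFinite _)).trans ?_
        have := Set.ncard_insert_le (1 : G ⧸ M) {(x : G ⧸ M)}
        rw [Set.ncard_singleton] at this
        exact this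
      have := h.prime.two_le
      have := h.ne2
      omega
  have hcyc : IsCyclic (G ⧸ M) := isCyclic_of_prime_card hcardQ
  have hcomm : ∀ a b : G ⧸ M, a * b = b * a := by
    letI := IsCyclic.commGroup (α := G ⧸ M)
    intro a b
    exact mul_comm a b
  -- fixed point of S
  obtain ⟨q, hq⟩ : ∃ q, S q = q := by
    let f : G ⧸ M → G ⧸ M := fun q => q * (β q)⁻¹
    have hf : Function.Injective f := by
      intro q q' hqq
      have h1 : q * (β q)⁻¹ = q' * (β q')⁻¹ := hqq
      have h2 : q'⁻¹ * q = 1 := by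
        apply hfpf
        rw [map_mul, map_inv]
        have h3 : β q = (q' * (β q')⁻¹)⁻¹ * q := by rw [← h1]; group
        rw [h3, hcomm]
        have h4 : (q' * (β q')⁻¹)⁻¹ * q * (β q')⁻¹ = β q' * (q'⁻¹ * q) * (β q')⁻¹ := by group
        rw [h4, hcomm (β q')]; group
      exact (inv_mul_eq_one.mp h2).symm
    obtain ⟨q, hq⟩ := Finite.surjective_of_injective hf (S 1)
    refine ⟨q, ?_⟩
    have h1 : q * (β q)⁻¹ = S 1 := hq
    rw [hS, ← h1]; group
  induction q using QuotientGroup.induction_on with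
  | H x =>
    have h1 : ∀ i : ℕ, ((T ^ i) x : G ⧸ M) = (x : G ⧸ M) := by
      intro i
      rw [semiconj_pow (fun y : G => (y : G ⧸ M)) T S (fun y => (hST y).symm) i x]
      induction i with
      | zero => simp
      | succ i ih => rw [pow_succ, Perm.mul_apply, hq, ih]
    obtain ⟨y, hy⟩ := h.exists_notMem
    obtain ⟨i, hi⟩ := htr x (x * y)
    have h2 := h1 i
    rw [hi, QuotientGroup.mk_mul] at h2
    have h3 : (y : G ⧸ M) = 1 := by
      have : (x : G ⧸ M) * (y : G ⧸ M) = (x : G ⧸ M) * 1 := by rw [mul_one]; exact h2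
      exact mul_left_cancel this
    exact hy ((QuotientGroup.eq_one_iff y).mp h3)

/-- product of two elementwise commuting subgroups -/
def cprod (A B : Subgroup G) (h : ∀ a ∈ A, ∀ b ∈ B, a * b = b * a) : Subgroup G where
  carrier := {x | ∃ a ∈ A, ∃ b ∈ B, x = a * b}
  mul_mem' := by
    rintro _ _ ⟨a, ha, b, hb, rfl⟩ ⟨a', ha', b', hb', rfl⟩
    refine ⟨a * a', A.mul_mem ha ha', b * b', B.mul_mem hb hb', ?_⟩
    have h1 := h a' ha' b hb
    calc a * b * (a' * b') = a * (b * a') * b' := by group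
      _ = a * (a' * b) * b' := by rw [h1]
      _ = a * a' * (b * b') := by group
  one_mem' := ⟨1, A.one_mem, 1, B.one_mem, by simp⟩
  inv_mem' := by
    rintro _ ⟨a, ha, b, hb, rfl⟩
    refine ⟨a⁻¹, A.inv_mem ha, b⁻¹, B.inv_mem hb, ?_⟩
    have h1 := h a⁻¹ (A.inv_mem ha) b⁻¹ (B.inv_mem hb)
    rw [h1]; group

theorem mem_cprod {A B : Subgroup G} {h : ∀ a ∈ A, ∀ b ∈ B, a * b = b * a} {x : G} :
    x ∈ cprod A B h ↔ ∃ a ∈ A, ∃ b ∈ B, x = a * b := Iff.rfl

/-- decompositions can be refined -/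
theorem DD.trans {α : MulAut G} {X₁ E₁ : Subgroup G} (h : DD α X₁ E₁) {β : MulAut X₁}
    (hβ : ∀ x : X₁, (β x : G) = α x) {X' E' : Subgroup X₁} (h' : DD β X' E') :
    ∃ X : Subgroup G, DD α X (E'.map X₁.subtype) ∧
      ∀ x, x ∈ X ↔ ∃ a ∈ X'.map X₁.subtype, ∃ b ∈ E₁, x = a * b := by
  have hcomm : ∀ a ∈ X'.map X₁.subtype, ∀ b ∈ E₁, a * b = b * a := by
    rintro _ ⟨a, -, rfl⟩ b hb
    exact h.comm a a.2 b hb
  refine ⟨cprod (X'.map X₁.subtype) E₁ hcomm, ⟨?_, ?_, ?_, ?_, ?_⟩, fun x => Iff.rfl⟩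
  · rintro _ ⟨_, ⟨a, ha, rfl⟩, b, hb, rfl⟩
    refine ⟨α a, ⟨β a, h'.invX a ha, hβ a⟩, α b, h.invE b hb, ?_⟩
    rw [map_mul]; rfl
  · rintro _ ⟨e, he, rfl⟩
    exact ⟨β e, h'.invE e he, hβ e⟩
  · rintro _ ⟨_, ⟨a, ha, rfl⟩, b, hb, rfl⟩ _ ⟨e, he, rfl⟩
    have h1 := h.comm e e.2 b hb
    have h2 := congrArg Subtype.val (h'.comm a ha e he)
    have h2' : (a : G) * e = e * a := h2
    show (a : G) * b * e = e * (a * b)
    calc (a : G) * b * e = a * (b * e) := by group
      _ = a * (e * b) := by rw [h1]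
      _ = (a * e) * b := by group
      _ = (e * a) * b := by rw [h2']
      _ = e * (a * b) := by group
  · rintro _ ⟨_, ⟨a, ha, rfl⟩, b, hb, rfl⟩ ⟨e, he, hae⟩
    have h1 : (e : G) = a * b := hae
    have h2 : b = ((a⁻¹ * e : X₁) : G) := by
      rw [Subgroup.coe_mul, Subgroup.coe_inv, h1]; group
    have h3 : b = 1 := h.inf b (by rw [h2]; exact (a⁻¹ * e : X₁).2) hb
    rw [h3, mul_one] at h1
    have h4 : e = a := Subtype.ext h1
    have h5 := h'.inf a ha (h4 ▸ he)
    show (a : G) * b = 1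
    rw [h5, h3]; simp
  · intro g
    obtain ⟨x, hx, b, hb, rfl⟩ := h.sup g
    obtain ⟨a, ha, e, he, hae⟩ := h'.sup ⟨x, hx⟩
    have h1 : x = (a : G) * e := congrArg Subtype.val hae
    refine ⟨a * b, ⟨a, ⟨a, ha, rfl⟩, b, hb, rfl⟩, e, ⟨e, he, rfl⟩, ?_⟩
    have h2 := h.comm e e.2 b hb
    rw [h1]
    calc (a : G) * e * b = a * (e * b) := by group
      _ = a * (b * e) := by rw [h2]
      _ = a * b * e := by group

end H67
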