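import Mathlib

namespace H67

open Polynomial

/-- A finite group with an automorphism whose powers are transitive on the non-identity elements is
abelian. -/
theorem comm_of_trans (Q : Type) [Group Q] [Finite Q] (σ : MulAut Q)
    (htr : ∀ x y : Q, x ≠ 1 → y ≠ 1 → ∃ i : ℕ, (σ ^ i) x = y) : ∀ x y : Q, x * y = y * x := by
  by_cases hne : ∃ x : Q, x ≠ 1
  · obtain ⟨x₁, hx₁⟩ := hne
    have hnt : Nontrivial Q := ⟨⟨x₁, 1, hx₁⟩⟩
    have hcard : Nat.card Q ≠ 1 := by
      have := Finite.one_lt_card (α := Q)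
      omega
    obtain ⟨p, hp, hpd⟩ := Nat.exists_prime_and_dvd hcard
    have hpf : Fact p.Prime := ⟨hp⟩
    obtain ⟨x₀, hx₀⟩ := exists_prime_orderOf_dvd_card' p hpd
    have hx₀1 : x₀ ≠ 1 := by
      rintro rfl
      rw [orderOf_one] at hx₀
      exact hp.one_lt.ne hx₀
    have hpg : IsPGroup p Q := by
      intro g
      refine ⟨1, ?_⟩
      rw [pow_one]
      by_cases hg : g = 1
      · rw [hg, one_pow]
      · obtain ⟨i, hi⟩ := htr x₀ g hx₀1 hg
        rw [← hi, ← map_pow, ← hx₀, pow_orderOf_eq_one, map_one]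
    have := hpg.center_nontrivial
    obtain ⟨⟨c, hc⟩, hc1⟩ := exists_ne (1 : Subgroup.center Q)
    have hc1' : c ≠ 1 := fun h => hc1 (Subtype.ext h)
    intro x y
    by_cases hx : x = 1
    · rw [hx, one_mul, mul_one]
    · obtain ⟨i, hi⟩ := htr c x hc1' hx
      rw [Subgroup.mem_center_iff] at hc
      obtain ⟨y', rfl⟩ := (σ ^ i).surjective y
      rw [← hi, ← map_mul, ← map_mul, hc y']
  · push Not at hne
    intro x y
    rw [hne x, hne y]

/-- Such a group is the additive group of a finite field on which the automorphism is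
multiplication by a generator of the multiplicative group. -/
theorem field_lemma (Q : Type) [Group Q] [Finite Q] (σ : MulAut Q) (hne : ∃ x : Q, x ≠ 1)
    (htr : ∀ x y : Q, x ≠ 1 → y ≠ 1 → ∃ i : ℕ, (σ ^ i) x = y) :
    ∃ (F : Type) (_ : Field F) (_ : Finite F) (e : Q → F) (ω : Fˣ), Function.Bijective e ∧
      (∀ x y, e (x * y) = e x + e y) ∧ (∀ x, e (σ x) = ω * e x) ∧
      ∀ u : Fˣ, ∃ i : ℕ, ω ^ i = u := by
  classical
  have hcomm := comm_of_trans Q σ htr
  let instCG : CommGroup Q := { (inferInstance : Group Q) with mul_comm := hcomm }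
  obtain ⟨v₀, hv₀⟩ := hne
  let A := Additive Q
  let s : Module.End ℤ A := (MonoidHom.toAdditive σ.toMonoidHom).toIntLinearMap
  have hs : ∀ x : Q, s (Additive.ofMul x) = Additive.ofMul (σ x) := fun x => rfl
  have hspow : ∀ (i : ℕ) (x : Q), (s ^ i) (Additive.ofMul x) = Additive.ofMul ((σ ^ i) x) := by
    intro i
    induction i with
    | zero => intro x; simp
    | succ i ih =>
      intro x
      rw [pow_succ, pow_succ, Module.End.mul_apply, hs, ih]; rfl
  let w₀ : A := Additive.ofMul v₀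
  let φ : ℤ[X] → A := fun f => (aeval s f) w₀
  have hφadd : ∀ f g, φ (f + g) = φ f + φ g := by
    intro f g
    show (aeval s (f + g)) w₀ = (aeval s f) w₀ + (aeval s g) w₀
    rw [map_add, LinearMap.add_apply]
  have hφmul : ∀ f g, φ (f * g) = (aeval s f) (φ g) := by
    intro f g
    show (aeval s (f * g)) w₀ = (aeval s f) ((aeval s g) w₀)
    rw [map_mul, Module.End.mul_apply]
  have hφX : ∀ i : ℕ, φ (X ^ i) = Additive.ofMul ((σ ^ i) v₀) := by
    intro i
    show (aeval s (X ^ i)) w₀ = _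
    rw [map_pow, aeval_X]
    exact hspow i v₀
  have hφX1 : ∀ f, φ (X * f) = s (φ f) := by
    intro f
    rw [hφmul, aeval_X]
  have hsurj : Function.Surjective φ := by
    intro a
    by_cases ha : a = 0
    · refine ⟨0, ?_⟩
      show (aeval s 0) w₀ = a
      rw [map_zero, ha]; rfl
    · have ha' : Additive.toMul a ≠ 1 := ha
      obtain ⟨i, hi⟩ := htr v₀ (Additive.toMul a) hv₀ ha'
      refine ⟨X ^ i, ?_⟩
      rw [hφX, hi]; rfl
  let I : Ideal ℤ[X] :=
    { carrier := {f | φ f = 0}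
      add_mem' := by
        intro f g hf hg
        show φ (f + g) = 0
        have hf' : φ f = 0 := hf
        have hg' : φ g = 0 := hg
        rw [hφadd, hf', hg', add_zero]
      zero_mem' := by
        show (aeval s 0) w₀ = 0
        rw [map_zero]; rfl
      smul_mem' := by
        intro f g hg
        show φ (f * g) = 0
        have hg' : φ g = 0 := hg
        rw [hφmul, hg', map_zero] }
  have hImem : ∀ f, f ∈ I ↔ φ f = 0 := fun f => Iff.rfl
  have hφsub : ∀ f g, φ (f - g) = φ f - φ g := by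
    intro f g
    show (aeval s (f - g)) w₀ = (aeval s f) w₀ - (aeval s g) w₀
    rw [map_sub, LinearMap.sub_apply]
  have hφ1 : φ 1 = w₀ := by
    show (aeval s 1) w₀ = w₀
    rw [map_one]; rfl
  have hImax : I.IsMaximal := by
    rw [Ideal.isMaximal_iff]
    constructor
    · rw [hImem, hφ1]
      intro h
      exact hv₀ h
    · intro J f hIJ hfI hfJ
      have hf : Additive.toMul (φ f) ≠ 1 := fun h => hfI h
      obtain ⟨i, hi⟩ := htr _ v₀ hf hv₀
      have h1 : X ^ i * f - 1 ∈ I := by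
        rw [hImem, hφsub, hφmul, map_pow, aeval_X, hφ1]
        have : (s ^ i) (φ f) = w₀ := by
          have := hspow i (Additive.toMul (φ f))
          rw [hi] at this
          exact this
        rw [this, sub_self]
      have h2 := hIJ h1
      have h3 : X ^ i * f ∈ J := J.mul_mem_left _ hfJ
      have h4 := J.sub_mem h3 h2
      have e : X ^ i * f - (X ^ i * f - 1) = (1 : ℤ[X]) := by ring
      rw [e] at h4
      exact h4
  let instF : Field (ℤ[X] ⧸ I) := Ideal.Quotient.field I
  let e : Q → ℤ[X] ⧸ I := fun x => Ideal.Quotient.mk I (Function.surjInv hsurj (Additive.ofMul x))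
  have heφ : ∀ f, e (Additive.toMul (φ f)) = Ideal.Quotient.mk I f := by
    intro f
    show Ideal.Quotient.mk I (Function.surjInv hsurj (φ f)) = Ideal.Quotient.mk I f
    rw [Ideal.Quotient.eq, hImem, hφsub, Function.surjInv_eq hsurj, sub_self]
  have hbij : Function.Bijective e := by
    constructor
    · intro x y hxy
      obtain ⟨f, hf⟩ := hsurj (Additive.ofMul x)
      obtain ⟨g, hg⟩ := hsurj (Additive.ofMul y)
      have hx : x = Additive.toMul (φ f) := by rw [hf]; rfl
      have hy : y = Additive.toMul (φ g) := by rw [hg]; rfl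
      rw [hx, hy, heφ, heφ, Ideal.Quotient.eq, hImem, hφsub, sub_eq_zero] at hxy
      rw [hx, hy, hxy]
    · intro u
      obtain ⟨f, rfl⟩ := Ideal.Quotient.mk_surjective u
      exact ⟨_, heφ f⟩
  have headd : ∀ x y, e (x * y) = e x + e y := by
    intro x y
    obtain ⟨f, hf⟩ := hsurj (Additive.ofMul x)
    obtain ⟨g, hg⟩ := hsurj (Additive.ofMul y)
    have hx : x = Additive.toMul (φ f) := by rw [hf]; rfl
    have hy : y = Additive.toMul (φ g) := by rw [hg]; rfl
    have hxy : x * y = Additive.toMul (φ (f + g)) := by rw [hφadd, hf, hg]; rfl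
    rw [hxy, heφ, map_add, ← heφ f, ← heφ g, ← hx, ← hy]
  have heσ : ∀ x, e (σ x) = Ideal.Quotient.mk I X * e x := by
    intro x
    obtain ⟨f, hf⟩ := hsurj (Additive.ofMul x)
    have hx : x = Additive.toMul (φ f) := by rw [hf]; rfl
    have hxy : σ x = Additive.toMul (φ (X * f)) := by rw [hφX1, hf, hs]; rfl
    rw [hxy, heφ, map_mul, ← heφ f, ← hx]
  have hX0 : Ideal.Quotient.mk I X ≠ 0 := by
    intro h
    rw [Ideal.Quotient.eq_zero_iff_mem, hImem] at h
    have h2 := hφX 1
    rw [pow_one, h, pow_one] at h2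
    have h3 : σ v₀ = 1 := by
      have := congrArg Additive.toMul h2
      exact this.symm
    exact hv₀ ((MulEquiv.map_eq_one_iff σ).mp h3)
  refine ⟨ℤ[X] ⧸ I, instF, Finite.of_surjective e hbij.2, e, Units.mk0 _ hX0, hbij, headd, heσ, ?_⟩
  intro u
  obtain ⟨x, hx⟩ := hbij.2 (u : ℤ[X] ⧸ I)
  have hx1 : x ≠ 1 := by
    rintro rfl
    have : e 1 = 0 := by
      have h1 := headd 1 1
      rw [mul_one] at h1
      have h2 : e 1 + 0 = e 1 + e 1 := by rw [add_zero]; exact h1
      exact (add_left_cancel h2).symm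
    rw [this] at hx
    exact u.ne_zero hx.symm
  obtain ⟨i, hi⟩ := htr v₀ x hv₀ hx1
  refine ⟨i, ?_⟩
  apply Units.ext
  rw [Units.val_pow_eq_pow_val, Units.val_mk0, ← hx, ← hi, ← map_pow, ← heφ, hφX]
  rfl

/-- Hua's identity argument. -/
theorem hua {F M : Type} [Field F] [Finite F] [Group M] (c : F → M)
    (hadd : ∀ u v, c (u + v) = c u * c v) (hinv : ∀ u, u ≠ 0 → c u⁻¹ = (c u)⁻¹)
    (hcard : 5 ≤ Nat.card F) : ∀ u, c u = 1 := by
  have h0 : c 0 = 1 := by
    have h1 := hadd 0 0
    rw [add_zero] at h1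
    have h2 : c 0 * 1 = c 0 * c 0 := by rw [mul_one]; exact h1
    exact (mul_left_cancel h2).symm
  have hneg : ∀ u, c (-u) = (c u)⁻¹ := by
    intro u
    rw [eq_inv_iff_mul_eq_one, ← hadd, neg_add_cancel, h0]
  have hcm : ∀ u v, c u * c v = c v * c u := by
    intro u v; rw [← hadd, ← hadd, add_comm]
  have key : ∀ a b : F, a ≠ 0 → b ≠ 0 → a * b ≠ 1 → c (a ^ 2 * b) = c a * c b := by
    intro a b ha hb hab
    have h1 : 1 - a * b ≠ 0 := fun h => hab (sub_eq_zero.mp h).symm
    have hw : a - a ^ 2 * b ≠ 0 := by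
      have : a - a ^ 2 * b = a * (1 - a * b) := by ring
      rw [this]; exact mul_ne_zero ha h1
    have hd : b⁻¹ - a ≠ 0 := by
      intro h
      apply h1
      have : b * (b⁻¹ - a) = 1 - a * b := by
        rw [mul_sub, mul_inv_cancel₀ hb]; ring
      rw [← this, h, mul_zero]
    have hwinv : (a - a ^ 2 * b)⁻¹ = a⁻¹ + (b⁻¹ - a)⁻¹ := by
      have e1 : b⁻¹ - a = b⁻¹ * (1 - a * b) := by
        rw [mul_sub, mul_one, mul_comm a b, ← mul_assoc, inv_mul_cancel₀ hb, one_mul]
      have e2 : a - a ^ 2 * b = a * (1 - a * b) := by ring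
      rw [e1, e2]
      field_simp
      ring
    have h2 : c (a - a ^ 2 * b)⁻¹ = c b := by
      rw [hwinv, hadd, hinv a ha, hinv _ hd, sub_eq_add_neg, hadd, hinv b hb, hneg]
      rw [mul_inv_rev, inv_inv, inv_inv, ← mul_assoc, inv_mul_cancel, one_mul]
    rw [hinv _ hw, sub_eq_add_neg, hadd, hneg, mul_inv_rev, inv_inv] at h2
    rw [mul_inv_eq_iff_eq_mul] at h2
    rw [h2, hcm]
  intro a
  by_cases ha : a = 0
  · rw [ha, h0]
  · have hex : ∀ S : Set F, S.ncard ≤ 4 → ∃ b, b ∉ S := by
      intro S hS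
      by_contra hcon
      push Not at hcon
      have : S = Set.univ := Set.eq_univ_of_forall hcon
      rw [this, Set.ncard_univ] at hS
      omega
    obtain ⟨b, hb⟩ := hex {0, a⁻¹} (by
      have := Set.ncard_insert_le (0 : F) {a⁻¹}
      rw [Set.ncard_singleton] at this
      omega)
    obtain ⟨b', hb'⟩ := hex {0, a⁻¹, -b, a⁻¹ - b} (by
      have h1 := Set.ncard_insert_le (0 : F) {a⁻¹, -b, a⁻¹ - b}
      have h2 := Set.ncard_insert_le (a⁻¹ : F) {-b, a⁻¹ - b}
      have h3 := Set.ncard_insert_le (-b : F) {a⁻¹ - b}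
      rw [Set.ncard_singleton] at h3
      omega)
    simp only [Set.mem_insert_iff, Set.mem_singleton_iff, not_or] at hb hb'
    obtain ⟨hb0, hba⟩ := hb
    obtain ⟨hb'0, hb'a, hb'b, hb'ab⟩ := hb'
    have hne : ∀ x : F, x ≠ a⁻¹ → a * x ≠ 1 := by
      intro x hx h
      exact hx (eq_inv_of_mul_eq_one_right h)
    have hsum0 : b + b' ≠ 0 := fun h => hb'b (eq_neg_of_add_eq_zero_right h)
    have hsuma : b + b' ≠ a⁻¹ := fun h => hb'ab (by rw [← h]; ring)
    have h1 := key a b ha hb0 (hne b hba)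
    have h2 := key a b' ha hb'0 (hne b' hb'a)
    have h3 := key a (b + b') ha hsum0 (hne _ hsuma)
    rw [mul_add, hadd, h1, h2, hadd b b'] at h3
    rw [mul_assoc] at h3
    have h4 : c a * c b' = 1 * c b' := by
      rw [one_mul]; exact mul_left_cancel (mul_left_cancel h3)
    exact mul_right_cancel h4

end H67
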