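import Mathlib
import Pool.Agent.H67.FieldLemma

namespace H67

open Equiv

/-- last ring factor -/
def LType (L : Type) [CommRing L] : Prop :=
  Subsingleton L ∨ (∃ p k : ℕ, p.Prime ∧ p ≠ 2 ∧ 1 ≤ k ∧ Nonempty (L ≃+* ZMod (p ^ k))) ∨
    (∃ p : ℕ, p.Prime ∧ p ≠ 2 ∧ Nonempty (L ≃+* DualNumber (ZMod p)))

/-- explicit list of rings -/
def Expl (R : Type) [CommRing R] : Prop :=
  ∃ (ι : Type) (_ : Finite ι) (F : ι → Type) (_ : ∀ i, Field (F i)) (_ : ∀ i, Finite (F i))
    (L : Type) (_ : CommRing L) (_ : Finite L), LType L ∧ Nonempty (R ≃+* ((∀ i, F i) × L))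

/-- ring datum -/
structure RD (R : Type) [CommRing R] (ω : Rˣ) : Prop where
  fin : Finite R
  gen : ∀ u : Rˣ, ∃ i : ℕ, ω ^ i = u
  card : Nat.card R < 2 * Nat.card Rˣ
  expl : Expl R

theorem sub_of_gen_card {R : Type} [CommRing R] [Finite R] {ω : Rˣ}
    (hgen : ∀ u : Rˣ, ∃ i : ℕ, ω ^ i = u) (hcard : Nat.card R < 2 * Nat.card Rˣ) :
    IsUnit ((ω : R) - 1) := by
  by_contra hcon
  obtain ⟨m, hm, hmem⟩ := exists_max_ideal_of_mem_nonunits hcon
  have h1 : ∀ i : ℕ, ((ω : R) ^ i - 1) ∈ m := by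
    intro i
    exact Ideal.mem_of_dvd m (sub_one_dvd_pow_sub_one (ω : R) i) hmem
  have h2 : ∀ u : Rˣ, (u : R) - 1 ∈ m := by
    intro u
    obtain ⟨i, rfl⟩ := hgen u
    rw [Units.val_pow_eq_pow_val]
    exact h1 i
  have h3 : Nat.card Rˣ ≤ Nat.card m := by
    apply Nat.card_le_card_of_injective (fun u : Rˣ => (⟨(u : R) - 1, h2 u⟩ : m))
    intro u v huv
    have h4 : (u : R) - 1 = (v : R) - 1 := congrArg Subtype.val huv
    exact Units.ext (sub_left_injective h4)
  have h4 : 2 * Nat.card m ≤ Nat.card R := by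
    have h5 := AddSubgroup.card_mul_index m.toAddSubgroup
    have h6 : m.toAddSubgroup.index ≠ 1 := by
      intro h7
      rw [AddSubgroup.index_eq_one] at h7
      apply hm.ne_top
      rw [Ideal.eq_top_iff_one]
      have : (1 : R) ∈ m.toAddSubgroup := by rw [h7]; trivial
      exact this
    have h7 : m.toAddSubgroup.index ≠ 0 := AddSubgroup.index_ne_zero_of_finite
    have h8 : 2 ≤ m.toAddSubgroup.index := by omega
    have h9 : Nat.card m.toAddSubgroup = Nat.card m := rfl
    rw [← h5, h9, mul_comm]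
    exact Nat.mul_le_mul_left _ h8
  omega

theorem RD.sub {R : Type} [CommRing R] {ω : Rˣ} (h : RD R ω) : IsUnit ((ω : R) - 1) := by
  have := h.fin
  exact sub_of_gen_card h.gen h.card

theorem RD.orderOf {R : Type} [CommRing R] {ω : Rˣ} (h : RD R ω) :
    orderOf ω = Nat.card Rˣ := by
  have := h.fin
  apply orderOf_eq_card_of_forall_mem_zpowers
  intro u
  obtain ⟨i, hi⟩ := h.gen u
  exact ⟨i, by simpa using hi⟩

theorem gen_of_order {R : Type} [CommRing R] [Finite R] {ω : Rˣ}
    (h : orderOf ω = Nat.card Rˣ) : ∀ u : Rˣ, ∃ i : ℕ, ω ^ i = u := by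
  intro u
  have h1 : Subgroup.zpowers ω = ⊤ := by
    apply Subgroup.eq_top_of_card_eq
    rw [Nat.card_zpowers, h]
  have h2 : u ∈ Subgroup.zpowers ω := by rw [h1]; trivial
  rw [← mem_powers_iff_mem_zpowers] at h2
  obtain ⟨i, hi⟩ := h2
  exact ⟨i, hi⟩

/-- ring-like automorphisms -/
def RL (E : Type) [Group E] (α : MulAut E) : Prop :=
  ∃ (R : Type) (_ : CommRing R) (ω : Rˣ), RD R ω ∧ ∃ e : Multiplicative R ≃* E,
    ∀ r : R, α (e (Multiplicative.ofAdd r)) = e (Multiplicative.ofAdd ((ω : R) * r))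

theorem expl_field (F : Type) [Field F] [Finite F] : Expl F := by
  refine ⟨Unit, inferInstance, fun _ => F, fun _ => inferInstance, fun _ => inferInstance,
    PUnit, inferInstance, inferInstance, Or.inl inferInstance, ⟨?_⟩⟩
  refine { toFun := fun x => (fun _ => x, 0), invFun := fun x => x.1 (), left_inv := ?_,
           right_inv := ?_, map_mul' := ?_, map_add' := ?_ }
  · intro x; rfl
  · rintro ⟨x, y⟩; rfl
  · intro x y; rfl
  · intro x y; rfl

theorem expl_of_ltype (L : Type) [CommRing L] [Finite L] (h : LType L) : Expl L := by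
  refine ⟨Empty, inferInstance, fun _ => ZMod 2, fun _ => inferInstance, fun _ => inferInstance,
    L, inferInstance, inferInstance, h, ⟨?_⟩⟩
  refine { toFun := fun x => (fun i => i.elim, x), invFun := fun x => x.2, left_inv := ?_,
           right_inv := ?_, map_mul' := ?_, map_add' := ?_ }
  · intro x; rfl
  · rintro ⟨x, y⟩; exact Prod.ext (funext fun i => i.elim) rfl
  · intro x y; exact Prod.ext (funext fun i => i.elim) rfl
  · intro x y; exact Prod.ext (funext fun i => i.elim) rfl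

theorem rl_sing {E : Type} [Group E] [Finite E] {α : MulAut E}
    (htr : ∀ x y : E, x ≠ 1 → y ≠ 1 → ∃ i : ℕ, (α ^ i) x = y) (hne : ∃ x : E, α x ≠ x) :
    RL E α := by
  obtain ⟨x₀, hx₀⟩ := hne
  have hx₀1 : x₀ ≠ 1 := by rintro rfl; exact hx₀ (map_one α)
  obtain ⟨F, _, _, e, ω, hbij, hadd, hω, hgen⟩ := field_lemma E α ⟨x₀, hx₀1⟩ htr
  have hω1 : ω ≠ 1 := by
    rintro rfl
    apply hx₀
    apply hbij.1
    rw [hω]; simp
  have hcard : Nat.card F < 2 * Nat.card Fˣ := by
    have h1 : Nat.card Fˣ = Nat.card F - 1 := Nat.card_units F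
    have h2 : 1 < Nat.card Fˣ := by
      rw [Finite.one_lt_card_iff_nontrivial]
      exact ⟨ω, 1, hω1⟩
    omega
  refine ⟨F, inferInstance, ω, ⟨inferInstance, hgen, hcard, expl_field F⟩, ?_⟩
  let f : E ≃* Multiplicative F :=
    { toFun := fun x => Multiplicative.ofAdd (e x)
      invFun := fun y => (Equiv.ofBijective e hbij).symm y.toAdd
      left_inv := fun x => (Equiv.ofBijective e hbij).symm_apply_apply x
      right_inv := fun y => by
        have := (Equiv.ofBijective e hbij).apply_symm_apply y.toAdd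
        exact this
      map_mul' := fun x y => by
        show Multiplicative.ofAdd (e (x * y)) = _
        rw [hadd]; rfl }
  refine ⟨f.symm, fun r => ?_⟩
  obtain ⟨x, hx⟩ := f.surjective (Multiplicative.ofAdd r)
  rw [← hx, MulEquiv.symm_apply_apply]
  apply f.injective
  rw [MulEquiv.apply_symm_apply]
  show Multiplicative.ofAdd (e (α x)) = _
  rw [hω]
  have : e x = r := hx
  rw [this]

/-- An automorphism of `ZMod n`-like group is multiplication by a unit. -/
theorem zmod_aut {n : ℕ} (f : ZMod n ≃+ ZMod n) : ∃ ω : (ZMod n)ˣ, ∀ r, f r = ω * r := by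
  have h : ∀ r, f r = f 1 * r := by
    intro r
    obtain ⟨k, rfl⟩ := ZMod.intCast_surjective r
    have h1 : ((k : ℤ) : ZMod n) = k • (1 : ZMod n) := by simp
    rw [h1, map_zsmul]
    simp [mul_comm]
  obtain ⟨s, hs⟩ := f.surjective 1
  rw [h] at hs
  exact ⟨⟨f 1, s, hs, by rw [mul_comm]; exact hs⟩, h⟩

end H67
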