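import Mathlib
import Pool.Agent.H67.Basic
import Pool.Agent.H67.RingPart

namespace H67

open Equiv

theorem rd_zmod {p j : ℕ} (hp : p.Prime) (hp2 : p ≠ 2) (hj : 1 ≤ j) {ω : (ZMod (p ^ j))ˣ}
    (hω : orderOf ω = p ^ (j - 1) * (p - 1)) : RD (ZMod (p ^ j)) ω := by
  have hpf : Fact p.Prime := ⟨hp⟩
  have hne : NeZero (p ^ j) := ⟨(Nat.pow_pos hp.pos).ne'⟩
  have hcu : Nat.card (ZMod (p ^ j))ˣ = p ^ (j - 1) * (p - 1) := by
    rw [Nat.card_eq_fintype_card, ZMod.card_units_eq_totient, Nat.totient_prime_pow hp (by omega)]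
  refine ⟨inferInstance, gen_of_order (hω.trans hcu.symm), ?_, ?_⟩
  · rw [hcu, Nat.card_zmod]
    exact two_mul_lt hp hp2 j hj
  · exact expl_of_ltype _ (Or.inr (Or.inl ⟨p, j, hp, hp2, hj, ⟨RingEquiv.refl _⟩⟩))

theorem mul_units_pow {R : Type} [CommRing R] {E : Type} [Group E] {α : MulAut E} {ω : R}
    {e : Multiplicative R ≃* E}
    (h : ∀ r : R, α (e (Multiplicative.ofAdd r)) = e (Multiplicative.ofAdd (ω * r))) (n : ℕ)
    (r : R) : (α ^ n) (e (Multiplicative.ofAdd r)) = e (Multiplicative.ofAdd (ω ^ n * r)) := by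
  induction n generalizing r with
  | zero => simp
  | succ n ih => rw [pow_succ, MulAut.mul_apply, h, ih, pow_succ, mul_assoc]

theorem pow_fix_iff {R : Type} [CommRing R] {E : Type} [Group E] {α : MulAut E} {ω : Rˣ}
    {e : Multiplicative R ≃* E}
    (h : ∀ r : R, α (e (Multiplicative.ofAdd r)) = e (Multiplicative.ofAdd ((ω : R) * r)))
    (n : ℕ) : (∀ x, (α ^ n) x = x) ↔ ω ^ n = 1 := by
  constructor
  · intro hn
    have h1 := hn (e (Multiplicative.ofAdd 1))
    rw [mul_units_pow h] at h1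
    have h2 := e.injective h1
    have h3 : (ω : R) ^ n * 1 = 1 := h2
    apply Units.ext
    rw [Units.val_pow_eq_pow_val, Units.val_one, ← h3, mul_one]
  · intro hn x
    obtain ⟨r, rfl⟩ := e.surjective x
    obtain ⟨r, rfl⟩ := Multiplicative.ofAdd.surjective r
    rw [mul_units_pow h, ← Units.val_pow_eq_pow_val, hn, Units.val_one, one_mul]

theorem rl_cyclic {E : Type} [Group E] [Finite E] {α : MulAut E} {p j : ℕ} (hp : p.Prime)
    (hp2 : p ≠ 2) (hj : 1 ≤ j) (hcard : Nat.card E = p ^ j) (hcyc : IsCyclic E)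
    (hord : ∀ n, (∀ x, (α ^ n) x = x) ↔ p ^ (j - 1) * (p - 1) ∣ n) : RL E α := by
  have e : Multiplicative (ZMod (p ^ j)) ≃* E := by
    rw [← hcard]; exact zmodCyclicMulEquiv hcyc
  let f : ZMod (p ^ j) ≃+ ZMod (p ^ j) :=
    AddEquiv.toMultiplicative.symm (e.trans (α.trans e.symm))
  have hf : ∀ r, f r = (e.symm (α (e (Multiplicative.ofAdd r)))).toAdd := fun r => rfl
  obtain ⟨ω, hω⟩ := zmod_aut f
  have hα : ∀ r : ZMod (p ^ j), α (e (Multiplicative.ofAdd r)) =
      e (Multiplicative.ofAdd ((ω : ZMod (p ^ j)) * r)) := by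
    intro r
    rw [← hω, hf, ofAdd_toAdd, MulEquiv.apply_symm_apply]
  refine ⟨ZMod (p ^ j), inferInstance, ω, rd_zmod hp hp2 hj ?_, e, hα⟩
  apply Nat.dvd_antisymm
  · apply orderOf_dvd_of_pow_eq_one
    rw [← pow_fix_iff hα, hord]
  · rw [← hord, pow_fix_iff hα, pow_orderOf_eq_one]

theorem card_dual_units {p : ℕ} (hp : p.Prime) :
    Nat.card (DualNumber (ZMod p))ˣ = p * (p - 1) := by
  have hpf : Fact p.Prime := ⟨hp⟩
  -- units are pairs with nonzero first component
  let f : (DualNumber (ZMod p))ˣ ≃ (ZMod p)ˣ × ZMod p :=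
    { toFun := fun u => (Units.map (TrivSqZeroExt.fstHom (ZMod p) (ZMod p) (ZMod p)).toMonoidHom u,
        TrivSqZeroExt.snd (u : DualNumber (ZMod p)))
      invFun := fun x => 
        ⟨TrivSqZeroExt.inl (x.1 : ZMod p) + TrivSqZeroExt.inr x.2,
          TrivSqZeroExt.inl ((x.1⁻¹ : (ZMod p)ˣ) : ZMod p) -
            TrivSqZeroExt.inr (((x.1⁻¹ : (ZMod p)ˣ) : ZMod p) * ((x.1⁻¹ : (ZMod p)ˣ) : ZMod p) * x.2),
          by
            apply TrivSqZeroExt.ext
            · simp only [TrivSqZeroExt.fst_mul, TrivSqZeroExt.fst_add, TrivSqZeroExt.fst_inl,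
                TrivSqZeroExt.fst_inr, add_zero, TrivSqZeroExt.fst_sub, sub_zero,
                TrivSqZeroExt.fst_one]
              exact x.1.mul_inv
            · simp only [TrivSqZeroExt.snd_mul, TrivSqZeroExt.fst_add, TrivSqZeroExt.fst_inl,
                TrivSqZeroExt.fst_inr, add_zero, TrivSqZeroExt.snd_sub, TrivSqZeroExt.snd_inl,
                TrivSqZeroExt.snd_inr, zero_sub, TrivSqZeroExt.fst_sub, sub_zero,
                TrivSqZeroExt.snd_add, zero_add, smul_eq_mul, MulOpposite.smul_eq_mul_unop,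
                MulOpposite.unop_op, TrivSqZeroExt.snd_one]
              have h := x.1.mul_inv
              linear_combination (-(((x.1⁻¹ : (ZMod p)ˣ) : ZMod p) * x.2)) * h,
          by
            apply TrivSqZeroExt.ext
            · simp only [TrivSqZeroExt.fst_mul, TrivSqZeroExt.fst_add, TrivSqZeroExt.fst_inl,
                TrivSqZeroExt.fst_inr, add_zero, TrivSqZeroExt.fst_sub, sub_zero,
                TrivSqZeroExt.fst_one]
              exact x.1.inv_mul
            · simp only [TrivSqZeroExt.snd_mul, TrivSqZeroExt.fst_add, TrivSqZeroExt.fst_inl,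
                TrivSqZeroExt.fst_inr, add_zero, TrivSqZeroExt.snd_sub, TrivSqZeroExt.snd_inl,
                TrivSqZeroExt.snd_inr, zero_sub, TrivSqZeroExt.fst_sub, sub_zero,
                TrivSqZeroExt.snd_add, zero_add, smul_eq_mul, MulOpposite.smul_eq_mul_unop,
                MulOpposite.unop_op, TrivSqZeroExt.snd_one]
              have h := x.1.mul_inv
              linear_combination (-(((x.1⁻¹ : (ZMod p)ˣ) : ZMod p) * x.2)) * h⟩
      left_inv := by
        intro u
        apply Units.ext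
        apply TrivSqZeroExt.ext
        · simp
        · simp
      right_inv := by
        rintro ⟨x, y⟩
        apply Prod.ext
        · apply Units.ext
          simp only [Units.coe_map, RingHom.toMonoidHom_eq_coe, AlgHom.toRingHom_eq_coe,
            TrivSqZeroExt.fstHom]
          show TrivSqZeroExt.fst (TrivSqZeroExt.inl (x : ZMod p) + TrivSqZeroExt.inr y) = _
          simp
        · show TrivSqZeroExt.snd (TrivSqZeroExt.inl (x : ZMod p) + TrivSqZeroExt.inr y) = _
          simp }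
  rw [Nat.card_congr f, Nat.card_prod, Nat.card_zmod, Nat.card_units, Nat.card_zmod, mul_comm]

theorem rd_dual {p : ℕ} (hp : p.Prime) (hp2 : p ≠ 2) {ω : (DualNumber (ZMod p))ˣ}
    (hω : orderOf ω = p * (p - 1)) : RD (DualNumber (ZMod p)) ω := by
  have hpf : Fact p.Prime := ⟨hp⟩
  have hcu := card_dual_units hp
  have hfin : Finite (DualNumber (ZMod p)) :=
    inferInstanceAs (Finite (ZMod p × ZMod p))
  refine ⟨hfin, gen_of_order (hω.trans hcu.symm), ?_, ?_⟩
  · have h1 : Nat.card (DualNumber (ZMod p)) = p * p := by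
      have : Nat.card (ZMod p × ZMod p) = p * p := by rw [Nat.card_prod, Nat.card_zmod]
      exact this
    rw [hcu, h1]
    have h2 := two_mul_lt hp hp2 2 (by omega)
    simpa [pow_two] using h2
  · exact expl_of_ltype _ (Or.inr (Or.inr ⟨p, hp, hp2, ⟨RingEquiv.refl _⟩⟩))

end H67
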