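import Mathlib
import Pool.Agent.H67.PTools
import Pool.Agent.H67.RingPart2

namespace H67

open Equiv

/-- affine maps which are full cycles -/
structure FullCyc (C : Type) [Group C] (K : Perm C) : Prop where
  fin : Finite C
  aff : ∃ κ, IsAff K κ
  trans : ∀ x y, ∃ i : ℕ, (K ^ i) x = y

/-- amalgam with the quaternion group -/
def Amal (P : Type) [Group P] (S : Perm P) : Prop :=
  ∃ (C : Type) (_ : Group C) (K : Perm C) (z : C) (σ : MulAut (QuaternionGroup 2))
    (π : C × QuaternionGroup 2 →* P),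
    FullCyc C K ∧ ¬ 3 ∣ Nat.card C ∧ z ≠ 1 ∧ z * z = 1 ∧ (∀ c, c * z = z * c) ∧
    K z = K 1 * z ∧ orderOf σ = 3 ∧ Function.Surjective π ∧
    (∀ c q, π (c, q) = 1 ↔ (c = 1 ∧ q = 1) ∨ (c = z ∧ q = QuaternionGroup.a 2)) ∧
    ∀ c q, S (π (c, q)) = π (K c, σ q)

def PCore (P : Type) [Group P] (S : Perm P) : Prop := FullCyc P S ∨ Amal P S

/-- the internal form of the classification -/
def Cls {G : Type} [Group G] (T : Perm G) (α : MulAut G) : Prop :=
  ∃ (g : G) (X E : Subgroup G) (S : Perm X) (αE : MulAut E), DD α X E ∧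
    (∀ e : E, (αE e : G) = α e) ∧ RL E αE ∧ (∀ x : X, (S x : G) = tr g T x) ∧ PCore X S

theorem orderOf_full {C : Type} [Group C] {K : Perm C} (h : FullCyc C K) :
    orderOf K = Nat.card C := by
  have := h.fin
  have h1 := period_card K 1 Set.univ (by
    intro y
    constructor
    · intro _; exact h.trans 1 y
    · intro _; trivial)
  rw [Set.ncard_univ] at h1
  apply Nat.dvd_antisymm
  · apply orderOf_dvd_of_pow_eq_one
    ext y
    obtain ⟨i, rfl⟩ := h.trans 1 y
    rw [← Perm.mul_apply, ← pow_add, add_comm, pow_add, Perm.mul_apply, (h1 _).mpr dvd_rfl]; rfl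
  · rw [← h1, pow_orderOf_eq_one]; rfl

theorem Amal.three_dvd {P : Type} [Group P] {S : Perm P} (h : Amal P S) : 3 ∣ orderOf S := by
  obtain ⟨C, _, K, z, σ, π, hK, h3, hz1, hzz, hzc, hKz, hσ, hsurj, hker, hS⟩ := h
  rw [← hσ]
  apply orderOf_dvd_of_pow_eq_one
  have h1 : ∀ (n : ℕ) c q, (S ^ n) (π (c, q)) = π ((K ^ n) c, (σ ^ n) q) := by
    intro n
    induction n with
    | zero => intro c q; simp
    | succ n ih =>
      intro c q
      rw [pow_succ, Perm.mul_apply, hS, ih, pow_succ, pow_succ]; rfl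
  set n := orderOf S with hn
  have h2 : ∀ q, π ((K ^ n) 1, (σ ^ n) q * q⁻¹) = 1 := by
    intro q
    have h3 := h1 n 1 q
    rw [hn, pow_orderOf_eq_one, ← hn] at h3
    have h4 : (((K ^ n) 1, (σ ^ n) q * q⁻¹) : C × QuaternionGroup 2) =
      ((K ^ n) 1, (σ ^ n) q) * (1, q)⁻¹ := by
      ext <;> simp
    rw [h4, map_mul, ← h3, map_inv]
    simp
  have hone : (K ^ n) 1 = 1 := by
    have h3 := (hker _ _).mp (h2 1)
    rcases h3 with h3 | h3
    · exact h3.1
    · exfalso
      have h4 := h3.2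
      rw [map_one, inv_one, mul_one] at h4
      have : (QuaternionGroup.a (0 : ZMod (2 * 2))) = QuaternionGroup.a 2 := h4
      injection this with h5
      exact absurd h5 (by decide)
  ext q
  have h3 := (hker _ _).mp (h2 q)
  rcases h3 with h3 | h3
  · have := mul_inv_eq_one.mp h3.2
    rw [this]; rfl
  · exfalso
    rw [hone] at h3
    exact hz1 h3.1.symm

/-- RL automorphisms have no fixed points -/
theorem RL.fix {E : Type} [Group E] {α : MulAut E} (h : RL E α) {x : E} (hx : α x = x) : x = 1 := by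
  obtain ⟨R, _, ω, hR, e, he⟩ := h
  obtain ⟨r, rfl⟩ := e.surjective x
  obtain ⟨r, rfl⟩ := Multiplicative.ofAdd.surjective r
  rw [he] at hx
  have h1 : (ω : R) * r = r := e.injective hx
  have h2 : ((ω : R) - 1) * r = 0 := by rw [sub_mul, h1, one_mul, sub_self]
  have h3 : r = 0 := by
    obtain ⟨u, hu⟩ := hR.sub
    rw [← hu] at h2
    have := congrArg (fun x => (↑u⁻¹ : R) * x) h2
    simpa using this
  rw [h3, ofAdd_zero, map_one]

theorem RL.comm {E : Type} [Group E] {α : MulAut E} (h : RL E α) (x y : E) : x * y = y * x := by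
  obtain ⟨R, _, ω, hR, e, he⟩ := h
  obtain ⟨r, rfl⟩ := e.surjective x
  obtain ⟨s, rfl⟩ := e.surjective y
  rw [← map_mul, ← map_mul, mul_comm]

/-- affine maps over RL automorphisms have fixed points -/
theorem RL.exists_fix {E : Type} [Group E] [Finite E] {α : MulAut E} (h : RL E α) {T : Perm E}
    (hT : IsAff T α) : ∃ x, T x = x := by
  let f : E → E := fun q => q * (α q)⁻¹
  have hf : Function.Injective f := by
    intro q q' hqq
    have h1 : q * (α q)⁻¹ = q' * (α q')⁻¹ := hqq
    have h2 : q'⁻¹ * q = 1 := by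
      apply h.fix
      rw [map_mul, map_inv]
      have h3 : α q = (q' * (α q')⁻¹)⁻¹ * q := by rw [← h1]; group
      rw [h3, h.comm]
      have h4 : (q' * (α q')⁻¹)⁻¹ * q * (α q')⁻¹ = α q' * (q'⁻¹ * q) * (α q')⁻¹ := by group
      rw [h4, h.comm (α q')]; group
    exact (inv_mul_eq_one.mp h2).symm
  obtain ⟨q, hq⟩ := Finite.surjective_of_injective hf (T 1)
  refine ⟨q, ?_⟩
  have h1 : q * (α q)⁻¹ = T 1 := hq
  rw [hT, ← h1]; group

theorem RL.order {E : Type} [Group E] {α : MulAut E} {R : Type} [CommRing R] {ω : Rˣ}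
    (hR : RD R ω) {e : Multiplicative R ≃* E}
    (he : ∀ r : R, α (e (Multiplicative.ofAdd r)) = e (Multiplicative.ofAdd ((ω : R) * r))) :
    orderOf α = Nat.card Rˣ := by
  rw [← hR.orderOf]
  apply orderOf_eq_orderOf_iff.mpr
  intro n
  rw [← pow_fix_iff he]
  constructor
  · intro hn x; rw [hn]; rfl
  · intro hn; ext x; exact hn x

theorem orderOf_of_fix {E : Type} [Group E] {T : Perm E} {α : MulAut E} (hT : IsAff T α) {x : E}
    (hx : T x = x) : orderOf T = orderOf α := by
  rw [← orderOf_tr x T]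
  apply orderOf_eq_orderOf_iff.mpr
  have hfix : (tr x T) 1 = 1 := by rw [tr_apply, mul_one, hx, inv_mul_cancel]
  have h1 : ∀ n, ((tr x T) ^ n) 1 = 1 := by
    intro n
    induction n with
    | zero => simp
    | succ n ih => rw [pow_succ', Perm.mul_apply, ih, hfix]
  intro n
  have h2 := ((hT.tr x).pow n).fix_one (h1 n)
  constructor
  · intro hn; ext y; rw [← h2, hn]; rfl
  · intro hn; ext y; rw [h2, hn]; rfl

end H67
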