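import Mathlib
import Pool.Agent.H67.TypeI

namespace H67

open Equiv

variable {G : Type} [Group G]

/-- central type I configuration -/
structure Cen (T : Perm G) (α : MulAut G) (V : Subgroup G) (m p : ℕ) : Prop where
  aff : IsAff T α
  prime : p.Prime
  card : Nat.card V = p
  inv : ∀ x ∈ V, α x ∈ V
  cent : ∀ g, ∀ v ∈ V, g * v = v * g
  trans : TransOn α V
  ne2 : p ≠ 2
  mpos : 0 < m
  pow : ∀ x, (T ^ m) x = (α ^ m) x
  triv : ∀ x, x⁻¹ * (α ^ m) x ∈ V
  fixV : ∀ v ∈ V, (α ^ m) v = v
  ne : α ^ m ≠ 1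
  ord : orderOf T = m * p
  quo : ∀ j, (∀ x, x⁻¹ * (T ^ j) x ∈ V) → m ∣ j

/-- Singer direct factor -/
def Sing (α : MulAut G) : Prop :=
  ∃ X E, DD α X E ∧ TransOn α E ∧ ∃ x ∈ E, α x ≠ x

theorem FP.caseA [Finite G] {T : Perm G} {α : MulAut G} {H : Subgroup G} {k : ℕ}
    (h : FP T α H k) (hc : Nat.card G < 2 * orderOf T) (hA : ∀ g, g⁻¹ * (α ^ k) g ∈ H) :
    Sing α ∨ ∃ V m p, Cen T α V m p := by
  classical
  have hcδ := h.orderOf_eq
  set σ := α ^ k with hσ
  set δ := orderOf σ with hδ
  have hδ1 : δ ≠ 1 := by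
    intro h1
    rw [hδ, orderOf_eq_one_iff] at h1
    exact h.ne h1
  have hδpos : 0 < δ := orderOf_pos σ
  set l := δ.minFac with hl
  have hlp : l.Prime := Nat.minFac_prime hδ1
  have hldvd : l ∣ δ := Nat.minFac_dvd δ
  obtain ⟨q, hq⟩ := hldvd
  have hqpos : 0 < q := by
    rcases Nat.eq_zero_or_pos q with h0 | h0
    · rw [h0, mul_zero] at hq; omega
    · exact h0
  set z := σ ^ q with hz
  have hz1 : z ≠ 1 := by
    intro h1
    have h2 := orderOf_dvd_of_pow_eq_one h1
    have h3 := Nat.le_of_dvd hqpos h2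
    have h4 := hlp.two_le
    rw [← hδ, hq] at h3
    nlinarith
  have hzH : ∀ g, g⁻¹ * z g ∈ H := by
    intro g
    exact (h.lemmaS (sig_one_ne h) (by rw [pow_one]; exact hA g) q).1
  have hzfix : ∀ g, z (g⁻¹ * z g) = g⁻¹ * z g := fun g => h.fix' q (hzH g)
  have hKab := cK_abelian hzfix
  have hKn := cK_normal z
  have hKi := cK_inv α z (fun x => by
    rw [hz, hσ, ← _root_.pow_mul, ← MulAut.mul_apply, ← MulAut.mul_apply, ← pow_succ, ← pow_succ'])
  have hKne := cK_ne_bot hz1
  have hTz : ∀ x, (T ^ (k * q)) x = z x := fun x => h.pow_mul q x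
  have hkql : k * q * l = orderOf T := by rw [hcδ, hq]; ring
  have hexp : ∀ g, (g⁻¹ * z g) ^ l = 1 := by
    intro g
    have h1 := case1 (h.aff.pow (k * q)) (V := H) (fun x => by rw [hTz]; exact hzH x)
      (fun v hv => by
        have := h.fix' q hv
        rw [_root_.pow_mul]; exact this) g l
    rw [← _root_.pow_mul, hkql, pow_orderOf_eq_one, hTz] at h1
    have h2 : g * 1 = g * (g⁻¹ * z g) ^ l := by rw [mul_one]; exact h1
    exact (mul_left_cancel h2).symm
  have hexpK : ∀ x ∈ cK z, x ^ l = 1 := by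
    intro x hx
    unfold cK at hx
    induction hx using Subgroup.closure_induction with
    | mem x hx => obtain ⟨g, rfl⟩ := hx; exact hexp g
    | one => exact one_pow l
    | mul x y hx' hy' ihx ihy =>
      have hc : Commute x y := hKab x hx' y hy'
      rw [hc.mul_pow, ihx, ihy, one_mul]
    | inv x hx' ihx => rw [inv_pow, ihx, inv_one]
  obtain ⟨V, hVK, hV⟩ := exists_minInv α (cK z) hKn hKi hKne
  have hVn := hV.normal
  have hab : ∀ x ∈ V, ∀ y ∈ V, x * y = y * x := fun x hx y hy => hKab x (hVK hx) y (hVK hy)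
  obtain ⟨S, γ, hS, hST, hSγ⟩ := exists_quo h.aff V hV.inv
  set m := orderOf S with hm
  have hmpos : 0 < m := orderOf_pos S
  have hsc : ∀ n x, (((T ^ n) x : G) : G ⧸ V) = (S ^ n) (x : G ⧸ V) := fun n x =>
    semiconj_pow (fun y : G => (y : G ⧸ V)) T S (fun y => (hST y).symm) n x
  have htriv : ∀ x, x⁻¹ * (T ^ m) x ∈ V := by
    intro x
    rw [← QuotientGroup.eq, hsc, hm, pow_orderOf_eq_one]; rfl
  have hquo : ∀ j, (∀ x, x⁻¹ * (T ^ j) x ∈ V) → m ∣ j := by
    intro j hj
    apply orderOf_dvd_of_pow_eq_one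
    ext x
    induction x using QuotientGroup.induction_on with
    | H x =>
      rw [← hsc]
      exact (QuotientGroup.eq.mpr (hj x)).symm
  have hcardV := Subgroup.card_eq_card_quotient_mul_card_subgroup V
  have hmle : m * Nat.card V ≤ Nat.card G := by
    rw [hcardV]
    exact Nat.mul_le_mul_right _ ((thmA (G ⧸ V)).le_card hS)
  by_cases hβ : ∀ v ∈ V, (α ^ m) v = v
  · right
    have hVl : Nat.card V = l := by
      obtain ⟨v, hv, hv1⟩ : ∃ v ∈ V, v ≠ 1 := by
        by_contra hcon
        push Not at hcon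
        exact hV.ne ((Subgroup.eq_bot_iff_forall V).mpr hcon)
      have hpf : Fact l.Prime := ⟨hlp⟩
      have h1 : orderOf (⟨v, hv⟩ : V) = l := by
        apply orderOf_eq_prime
        · apply Subtype.ext
          exact hexpK v (hVK hv)
        · intro h; exact hv1 (congrArg Subtype.val h)
      have h2 : l ∣ Nat.card V := by rw [← h1]; exact orderOf_dvd_natCard _
      have h3 : orderOf T ≤ m * l := by
        apply Nat.le_of_dvd (Nat.mul_pos hmpos hlp.pos)
        apply orderOf_dvd_of_pow_eq_one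
        ext x
        rw [_root_.pow_mul, case1 (h.aff.pow m) htriv hβ, hexpK _ (hVK (htriv x)), mul_one]; rfl
      have h4 : Nat.card V < 2 * l := by
        have : m * Nat.card V < m * (2 * l) := by nlinarith
        exact Nat.lt_of_mul_lt_mul_left this
      obtain ⟨r, hr⟩ := h2
      have h5 : 0 < Nat.card V := Nat.card_pos
      have h6 : r = 1 := by
        have h7 : r < 2 := by
          by_contra hcon
          push Not at hcon
          have := Nat.mul_le_mul_left l hcon
          rw [← hr] at this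
          omega
        have h8 : r ≠ 0 := by
          rintro rfl
          omega
        omega
      rw [hr, h6, mul_one]
    have hdvd1 : m ∣ orderOf T := hquo _ (fun x => by
      rw [pow_orderOf_eq_one]; simp)
    have hdvd2 : orderOf T ∣ m * l := by
      apply orderOf_dvd_of_pow_eq_one
      ext x
      rw [_root_.pow_mul, case1 (h.aff.pow m) htriv hβ, hexpK _ (hVK (htriv x)), mul_one]; rfl
    have hord : orderOf T = m * l := by
      obtain ⟨d, hd⟩ := hdvd1
      rw [hd] at hdvd2
      have h1 := Nat.dvd_of_mul_dvd_mul_left hmpos hdvd2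
      rcases (Nat.dvd_prime hlp).mp h1 with h2 | h2
      · exfalso
        rw [h2, mul_one] at hd
        rw [hVl] at hmle
        have := hlp.two_le
        nlinarith
      · rw [hd, h2]
    have hkqm : k * q = m := by
      have : k * q * l = m * l := by rw [hkql, hord]
      exact Nat.eq_of_mul_eq_mul_right hlp.pos this
    have hzm : α ^ m = z := by rw [← hkqm, _root_.pow_mul]
    have hTm : ∀ x, (T ^ m) x = (α ^ m) x := by
      intro x; rw [hzm, ← hkqm, hTz]
    have hztriv : ∀ x, x⁻¹ * (α ^ m) x ∈ V := fun x => by rw [← hTm]; exact htriv x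
    have hne : α ^ m ≠ 1 := by rw [hzm]; exact hz1
    obtain ⟨hc1, hc2, hc3⟩ := typeI h.aff hc hVn hV.inv hlp hVl hTm hztriv hβ hne
    exact ⟨V, m, l, h.aff, hlp, hVl, hV.inv, hc1, hc2, hc3, hmpos, hTm, hztriv, hβ, hne, hord,
      hquo⟩
  · left
    obtain ⟨X, hX⟩ := typeII h.aff hc hV hab hmpos htriv hmle hβ
    exact ⟨X, V, hX⟩

end H67
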