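import Mathlib
import Pool.Agent.H67.ThmA

namespace H67

open Equiv

variable {G : Type} [Group G] {T : Perm G} {α : MulAut G} {H : Subgroup G} {k : ℕ}

/-- `h` moves `g H` to `σ^i (g) H` for all `g` outside `H` -/
def Rel (α : MulAut G) (H : Subgroup G) (k : ℕ) (y : G) (i : ℕ) : Prop :=
  ∀ g, g ∉ H → (((α ^ k) ^ i) g)⁻¹ * (y * g) ∈ H

theorem Rel.mul (h : FP T α H k) {y y' : G} {i i' : ℕ}
    (h1 : Rel α H k y i) (h2 : Rel α H k y' i') : Rel α H k (y * y') (i + i') := by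
  intro g hg
  have h3 := h2 g hg
  have hg' : ((α ^ k) ^ i') g ∉ H := by rw [h.sig_mem]; exact hg
  have h4 := h1 _ hg'
  rw [← MulAut.mul_apply, ← pow_add] at h4
  have e : (((α ^ k) ^ (i + i')) g)⁻¹ * (y * y' * g) =
      ((((α ^ k) ^ (i + i')) g)⁻¹ * (y * ((α ^ k) ^ i') g)) *
        ((((α ^ k) ^ i') g)⁻¹ * (y' * g)) := by group
  rw [e]
  exact H.mul_mem h4 h3

theorem Rel.alpha [Finite G] (h : FP T α H k) {y : G} {i : ℕ} (h1 : Rel α H k y i) :
    Rel α H k (α y) i := by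
  intro g hg
  obtain ⟨g', rfl⟩ := α.surjective g
  have hg' : g' ∉ H := by rw [h.alpha_mem]; exact hg
  have h2 := (h.alpha_mem _).mp (h1 g' hg')
  rw [map_mul, map_mul, map_inv] at h2
  have e : ((α ^ k) ^ i) (α g') = α (((α ^ k) ^ i) g') := by
    rw [← pow_mul, ← MulAut.mul_apply, ← MulAut.mul_apply, ← pow_succ, ← pow_succ']
  rw [e]
  exact h2

theorem Rel.eq_of {y : G} {i j : ℕ} {g₀ : G} (hg₀ : g₀ ∉ H)
    (h : FP T α H k) (hB : ∀ g, g⁻¹ * (α ^ k) g ∈ H ↔ g ∈ H)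
    (h1 : Rel α H k y i) (h2 : Rel α H k y j) : (α ^ k) ^ i = (α ^ k) ^ j := by
  have hbad : g₀⁻¹ * (α ^ k) g₀ ∉ H := by rw [hB]; exact hg₀
  have key : ∀ i j : ℕ, i ≤ j → Rel α H k y i → Rel α H k y j → (α ^ k) ^ i = (α ^ k) ^ j := by
    intro i j hij h1 h2
    have h3 : (((α ^ k) ^ i) g₀)⁻¹ * ((α ^ k) ^ j) g₀ ∈ H := by
      have e : (((α ^ k) ^ i) g₀)⁻¹ * ((α ^ k) ^ j) g₀ =
        ((((α ^ k) ^ i) g₀)⁻¹ * (y * g₀)) * ((((α ^ k) ^ j) g₀)⁻¹ * (y * g₀))⁻¹ := by group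
      rw [e]
      exact H.mul_mem (h1 _ hg₀) (H.inv_mem (h2 _ hg₀))
    have h4 := h.free2 hbad hij h3
    obtain ⟨q, hq⟩ := h4
    rw [show j = i + (j - i) by omega, pow_add, hq, pow_mul, pow_orderOf_eq_one, one_pow, mul_one]
  rcases le_total i j with hle | hle
  · exact key i j hle h1 h2
  · exact (key j i hle h2 h1).symm

theorem Rel.congr {y : G} {i j : ℕ} (hij : (α ^ k) ^ i = (α ^ k) ^ j) (h1 : Rel α H k y i) :
    Rel α H k y j := by
  intro g hg
  rw [← hij]; exact h1 g hg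

theorem Rel.exists [Finite G] (h : FP T α H k) (hH : PA H) (hc : Nat.card G < 2 * orderOf T)
    (hB : ∀ g, g⁻¹ * (α ^ k) g ∈ H ↔ g ∈ H) {g₀ : G} (hg₀ : g₀ ∉ H) {y : G} (hy : y ∈ H) :
    ∃ i, Rel α H k y i := by
  have hbad : ∀ g, g ∉ H → g⁻¹ * (α ^ k) g ∉ H := fun g hg => by rw [hB]; exact hg
  have hyg : y * g₀ ∉ H := fun hh => hg₀ (by
    have := H.mul_mem (H.inv_mem hy) hh
    rwa [inv_mul_cancel_left] at this)
  obtain ⟨i, hi⟩ := h.trans_big hH hc (hbad _ hg₀) (hbad _ hyg)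
  refine ⟨i, fun g hg => ?_⟩
  obtain ⟨j, hj⟩ := h.trans_big hH hc (hbad _ hg₀) (hbad _ hg)
  -- g = σ^j g₀ * w
  set w := (((α ^ k) ^ j) g₀)⁻¹ * g with hw
  have hgw : g = ((α ^ k) ^ j) g₀ * w := by rw [hw]; group
  have h1 := (h.sig_mem j).mpr hi
  rw [map_mul, map_mul, map_inv, h.fix' j hy, sig_comm] at h1
  have h2 : ((α ^ k) ^ i) g = ((α ^ k) ^ i) (((α ^ k) ^ j) g₀) * w := by
    rw [hgw, map_mul, h.fix' i hj]
  rw [h2]
  have e : (((α ^ k) ^ i) (((α ^ k) ^ j) g₀) * w)⁻¹ * (y * g) =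
      w⁻¹ * ((((α ^ k) ^ i) (((α ^ k) ^ j) g₀))⁻¹ * (y * ((α ^ k) ^ j) g₀)) * w := by
    rw [hgw]; group
  rw [e]
  exact H.mul_mem (H.mul_mem (H.inv_mem hj) h1) hj

theorem FP.card_compl [Finite G] (h : FP T α H k) (hPA : ∀ K : Subgroup G, K ≠ ⊤ → PA K)
    (hHt : H ≠ ⊤) (hc : Nat.card G < 2 * orderOf T)
    (hB : ∀ g, g⁻¹ * (α ^ k) g ∈ H ↔ g ∈ H) {g₀ : G} (hg₀ : g₀ ∉ H) :
    orderOf (α ^ k) * Nat.card H + Nat.card H = Nat.card G := by
  have hbad : ∀ g, g ∉ H → g⁻¹ * (α ^ k) g ∉ H := fun g hg => by rw [hB]; exact hg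
  have hbig : big α H k g₀ = (H : Set G)ᶜ := by
    ext x
    constructor
    · rintro ⟨i, hi⟩
      show x ∉ H
      intro hx
      have : ((α ^ k) ^ i) g₀ ∈ H := by
        have := H.mul_mem hx (H.inv_mem hi)
        have e : x * ((((α ^ k) ^ i) g₀)⁻¹ * x)⁻¹ = ((α ^ k) ^ i) g₀ := by group
        rwa [e] at this
      rw [h.sig_mem] at this
      exact hg₀ this
    · intro hx
      exact h.trans_big (hPA H hHt) hc (hbad _ hg₀) (hbad _ hx)
  have h1 := h.card_big (hbad _ hg₀)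
  rw [hbig] at h1
  have h2 := Set.ncard_add_ncard_compl (H : Set G)
  rw [← h1]
  have h3 : (H : Set G).ncard = Nat.card H := rfl
  omega

/-- In case (b) the subgroup `H` is normal. -/
theorem FP.normal [Finite G] (h : FP T α H k) (hHt : H ≠ ⊤) (hc : Nat.card G < 2 * orderOf T)
    (hB : ∀ g, g⁻¹ * (α ^ k) g ∈ H ↔ g ∈ H) : H.Normal := by
  have hPA : ∀ K : Subgroup G, K ≠ ⊤ → PA K := fun K _ => thmA K
  obtain ⟨g₀, hg₀⟩ : ∃ g₀, g₀ ∉ H := by
    by_contra hcon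
    push Not at hcon
    exact hHt ((Subgroup.eq_top_iff' H).mpr hcon)
  have hbad : ∀ g, g ∉ H → g⁻¹ * (α ^ k) g ∉ H := fun g hg => by rw [hB]; exact hg
  have hTnm : ∀ g, g ∉ H → T g ∉ H := fun g hg hh => hg ((h.inv g).mpr hh)
  -- the element by which T acts
  obtain ⟨j, hj⟩ := h.trans_big (hPA H hHt) hc (hbad _ hg₀) (hbad _ (hTnm _ hg₀))
  have hTj : ∀ g, g ∉ H → (((α ^ k) ^ j) g)⁻¹ * T g ∈ H := by
    intro g hg
    obtain ⟨i, hi⟩ := h.trans_big (hPA H hHt) hc (hbad _ hg₀) (hbad _ hg)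
    set w := (((α ^ k) ^ i) g₀)⁻¹ * g with hw
    have hgw : g = ((α ^ k) ^ i) g₀ * w := by rw [hw]; group
    have h1 := (h.sig_mem i).mpr hj
    rw [map_mul, map_inv, h.sigpow_commT, sig_comm] at h1
    have h2 : T g = T (((α ^ k) ^ i) g₀) * α w := by rw [hgw, h.aff.map_mul]
    have h3 : ((α ^ k) ^ j) g = ((α ^ k) ^ j) (((α ^ k) ^ i) g₀) * w := by
      rw [hgw, map_mul, h.fix' j hi]
    rw [h2, h3]
    have e : (((α ^ k) ^ j) (((α ^ k) ^ i) g₀) * w)⁻¹ * (T (((α ^ k) ^ i) g₀) * α w) =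
        w⁻¹ * ((((α ^ k) ^ j) (((α ^ k) ^ i) g₀))⁻¹ * T (((α ^ k) ^ i) g₀)) * α w := by group
    rw [e]
    exact H.mul_mem (H.mul_mem (H.inv_mem hi) h1) ((h.alpha_mem w).mp hi)
  have hTnj : ∀ n : ℕ, ∀ g, g ∉ H → (((α ^ k) ^ (j * n)) g)⁻¹ * (T ^ n) g ∈ H := by
    intro n
    induction n with
    | zero => intro g _; simp
    | succ n ih =>
      intro g hg
      have h1 := ih (T g) (hTnm g hg)
      rw [← Perm.mul_apply, ← pow_succ] at h1
      have h2 := (h.sig_mem (j * n)).mpr (hTj g hg)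
      rw [map_mul, map_inv, ← MulAut.mul_apply, ← pow_add, ← Nat.mul_succ, Nat.succ_eq_add_one] at h2
      have e : (((α ^ k) ^ (j * (n + 1))) g)⁻¹ * (T ^ (n + 1)) g =
        ((((α ^ k) ^ (j * (n + 1))) g)⁻¹ * ((α ^ k) ^ (j * n)) (T g)) *
        ((((α ^ k) ^ (j * n)) (T g))⁻¹ * (T ^ (n + 1)) g) := by
          rw [mul_assoc, mul_inv_cancel_left]
      rw [e]
      exact H.mul_mem h2 h1
  have hcop : Nat.Coprime k (orderOf (α ^ k)) := by
    have h1 := hTnj k g₀ hg₀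
    rw [h.pow] at h1
    have h2 : (α ^ k) ^ (j * k) = (α ^ k) ^ 1 := by
      have key : ∀ i i' : ℕ, i ≤ i' → (((α ^ k) ^ i) g₀)⁻¹ * ((α ^ k) ^ i') g₀ ∈ H →
          (α ^ k) ^ i = (α ^ k) ^ i' := by
        intro i i' hii hmem
        obtain ⟨q, hq⟩ := h.free2 (hbad _ hg₀) hii hmem
        rw [show i' = i + (i' - i) by omega, pow_add, hq, _root_.pow_mul, pow_orderOf_eq_one,
          one_pow, mul_one]
      rcases le_total (j * k) 1 with hle | hle
      · apply key _ _ hle; rw [pow_one]; exact h1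
      · refine (key _ _ hle ?_).symm
        rw [pow_one]
        have := H.inv_mem h1
        have e : ((((α ^ k) ^ (j * k)) g₀)⁻¹ * (α ^ k) g₀)⁻¹ =
          ((α ^ k) g₀)⁻¹ * ((α ^ k) ^ (j * k)) g₀ := by group
        rwa [e] at this
    have h3 := (pow_eq_pow_iff_modEq).mp h2
    have hg := Nat.gcd_dvd_right k (orderOf (α ^ k))
    have h4 : (j * k) ≡ 1 [MOD (Nat.gcd k (orderOf (α ^ k)))] := h3.of_dvd hg
    have h5 : Nat.gcd k (orderOf (α ^ k)) ∣ j * k := Dvd.dvd.mul_left (Nat.gcd_dvd_left _ _) j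
    have h6 := (Nat.modEq_zero_iff_dvd.mpr h5).symm.trans h4
    have h7 : Nat.gcd k (orderOf (α ^ k)) ∣ 1 := (Nat.modEq_zero_iff_dvd.mp h6.symm)
    exact Nat.dvd_one.mp h7
  -- t acts trivially
  have hrone : Rel α H k 1 0 := by intro g _; simp
  have hrex := fun {y : G} (hy : y ∈ H) => Rel.exists h (hPA H hHt) hc hB hg₀ hy
  obtain ⟨it, hit⟩ := hrex h.T_one_mem
  have htn : ∀ n : ℕ, Rel α H k ((T ^ n) 1) (it * n) := by
    intro n
    induction n with
    | zero => simpa using hrone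
    | succ n ih =>
      have : (T ^ (n + 1)) 1 = T 1 * α ((T ^ n) 1) := by
        rw [pow_succ', Perm.mul_apply, h.aff]
      rw [this, Nat.mul_succ, add_comm]
      exact hit.mul h (ih.alpha h)
  have htk := htn k
  rw [h.pow, map_one] at htk
  have h8 := Rel.eq_of hg₀ h hB htk hrone
  rw [pow_zero] at h8
  have h9 := orderOf_dvd_of_pow_eq_one h8
  have h10 : orderOf (α ^ k) ∣ it := (Nat.Coprime.dvd_of_dvd_mul_right hcop.symm h9)
  have hσit : (α ^ k) ^ it = (α ^ k) ^ 0 := by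
    obtain ⟨q, hq⟩ := h10
    rw [hq, _root_.pow_mul, pow_orderOf_eq_one, one_pow, pow_zero]
  have ht0 : Rel α H k (T 1) 0 := hit.congr hσit
  -- N
  have hcore : ∀ y ∈ H, Rel α H k y 0 → y ∈ H.normalCore := by
    intro y hy hr b
    by_cases hb : b ∈ H
    · exact H.mul_mem (H.mul_mem hb hy) (H.inv_mem hb)
    · have hb' : b⁻¹ ∉ H := fun hh => hb (by simpa using H.inv_mem hh)
      have := hr b⁻¹ hb'
      simpa [mul_assoc] using this
  have htrivN : ∀ y ∈ H, y⁻¹ * T y ∈ H.normalCore := by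
    intro y hy
    apply hcore
    · exact H.mul_mem (H.inv_mem hy) ((h.inv y).mp hy)
    · obtain ⟨i, hi⟩ := hrex hy
      obtain ⟨i', hi'⟩ := hrex (H.inv_mem hy)
      have h1 := hi'.mul h hi
      rw [inv_mul_cancel] at h1
      have h2 := Rel.eq_of hg₀ h hB h1 hrone
      have h3 := (hi'.mul h (ht0.mul h (hi.alpha h)))
      rw [← h.aff y] at h3
      refine h3.congr ?_
      rw [zero_add]; exact h2
  obtain ⟨S, β, hS, hST, hSβ⟩ := exists_res h.aff H (fun x hx => (h.inv x).mp hx)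
  have hcN : (H.normalCore.subgroupOf H).Normal := inferInstance
  have hαN : ∀ x ∈ H.normalCore, α x ∈ H.normalCore := by
    intro x hx b
    obtain ⟨b', rfl⟩ := α.surjective b
    rw [← map_inv, ← map_mul, ← map_mul]
    exact (h.alpha_mem _).mp (hx b')
  have h11 := thmA H S β hS (H.normalCore.subgroupOf H) (by
    intro x hx
    rw [Subgroup.mem_subgroupOf] at hx ⊢
    rw [hSβ]
    exact hαN _ hx) 1 one_pos (by
    intro x
    rw [Subgroup.mem_subgroupOf, pow_one]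
    have := htrivN x x.2
    rw [Subgroup.coe_mul, Subgroup.coe_inv, hST]
    exact this)
  rw [h.k_eq hST, one_mul] at h11
  have h12 : Nat.card (H.normalCore.subgroupOf H) = Nat.card H.normalCore :=
    Nat.card_congr (Subgroup.subgroupOfEquivOfLe (Subgroup.normalCore_le H)).toEquiv
  rw [h12] at h11
  have h13 := h.card_compl hPA hHt hc hB hg₀
  rw [h.orderOf_eq] at hc
  have h14 : Nat.card H.normalCore ∣ Nat.card H := Subgroup.card_dvd_of_le (Subgroup.normalCore_le H)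
  have h15 : Nat.card H < 2 * Nat.card H.normalCore := by
    have h16 : k * orderOf (α ^ k) ≤ Nat.card H.normalCore * orderOf (α ^ k) :=
      Nat.mul_le_mul_right _ h11
    have h17 : orderOf (α ^ k) * Nat.card H < orderOf (α ^ k) * (2 * Nat.card H.normalCore) := by
      have : 0 < Nat.card H := Nat.card_pos
      nlinarith
    exact Nat.lt_of_mul_lt_mul_left h17
  have h18 : Nat.card H.normalCore = Nat.card H := by
    obtain ⟨q, hq⟩ := h14
    have hp : 0 < Nat.card H.normalCore := Nat.card_pos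
    have hqlt : q < 2 := by
      by_contra hcon
      push Not at hcon
      have : Nat.card H.normalCore * 2 ≤ Nat.card H.normalCore * q := Nat.mul_le_mul_left _ hcon
      omega
    have hq0 : q ≠ 0 := by
      rintro rfl
      have : 0 < Nat.card H := Nat.card_pos
      omega
    have : q = 1 := by omega
    rw [this] at hq; omega
  have h19 : H.normalCore = H := Subgroup.eq_of_le_of_card_ge (Subgroup.normalCore_le H) h18.ge
  rw [← h19]
  infer_instance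

end H67
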