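import Mathlib
import Pool.Agent.H67.CaseA
import Pool.Agent.H67.CaseB
import Pool.Agent.H67.FieldLemma

namespace H67

open Equiv

variable {G : Type} [Group G]

/-- the quaternion configuration -/
structure Q8 (T : Perm G) (α : MulAut G) (H : Subgroup G) (z i j : G) : Prop where
  aff : IsAff T α
  t_mem : T 1 ∈ H
  invH : ∀ x ∈ H, α x ∈ H
  comm_i : ∀ x ∈ H, x * i = i * x
  comm_j : ∀ x ∈ H, x * j = j * x
  ii : i * i = z
  jj : j * j = z
  zz : z * z = 1
  z1 : z ≠ 1
  zH : z ∈ H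
  ji : j * i = z * i * j
  αi : α i = j
  αj : α j = (i * j)⁻¹
  cov : ∀ g, ∃ h ∈ H, g = h ∨ g = h * i ∨ g = h * j ∨ g = h * (i * j)
  ni : i ∉ H
  nj : j ∉ H
  nij : i * j ∉ H

/-- The algebra of the quaternion case. -/
theorem q8_core {T : Perm G} {α τ : MulAut G} {H : Subgroup G} (hT : IsAff T α) (ht : T 1 ∈ H)
    (hαH : ∀ x ∈ H, α x ∈ H) (hατ : ∀ x, α (τ x) = τ (α x))
    (hτ3 : ∀ x, τ (τ (τ x)) = x) (hfix : ∀ x ∈ H, τ x = x)
    (hB : ∀ g, g⁻¹ * τ g ∈ H ↔ g ∈ H)
    (htr : ∀ g g', g ∉ H → g' ∉ H → g⁻¹ * g' ∈ H ∨ (τ g)⁻¹ * g' ∈ H ∨ (τ (τ g))⁻¹ * g' ∈ H)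
    (hsq : ∀ g, g * g ∈ H)
    {x : G} (hxC : ∀ y ∈ H, x * y = y * x) (hxH : x ∉ H) (hαx : (τ x)⁻¹ * α x ∈ H)
    (hna : ¬ ∀ a b : G, (∀ y ∈ H, a * y = y * a) → (∀ y ∈ H, b * y = y * b) → a * b = b * a) :
    ∃ z i j, Q8 T α H z i j := by
  -- C is closed under operations
  have hCmul : ∀ a b : G, (∀ y ∈ H, a * y = y * a) → (∀ y ∈ H, b * y = y * b) →
      (∀ y ∈ H, a * b * y = y * (a * b)) := by
    intro a b ha hb y hy
    rw [mul_assoc, hb y hy, ← mul_assoc, ha y hy, mul_assoc]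
  have hCinv : ∀ a : G, (∀ y ∈ H, a * y = y * a) → (∀ y ∈ H, a⁻¹ * y = y * a⁻¹) := by
    intro a ha y hy
    calc a⁻¹ * y = a⁻¹ * (y * a) * a⁻¹ := by group
      _ = a⁻¹ * (a * y) * a⁻¹ := by rw [ha y hy]
      _ = y * a⁻¹ := by group
  have hCτ : ∀ a : G, (∀ y ∈ H, a * y = y * a) → (∀ y ∈ H, τ a * y = y * τ a) := by
    intro a ha y hy
    have h1 := congrArg τ (ha y hy)
    rw [map_mul, map_mul, hfix y hy] at h1
    exact h1
  obtain ⟨i, hi⟩ : ∃ i, i = x⁻¹ * τ x := ⟨_, rfl⟩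
  obtain ⟨j, hj⟩ : ∃ j, j = τ i := ⟨_, rfl⟩
  obtain ⟨l, hl⟩ : ∃ l, l = τ j := ⟨_, rfl⟩
  have hτl : τ l = i := by rw [hl, hj]; exact hτ3 i
  have hτx : τ x = x * i := by rw [hi]; group
  have hiC : ∀ y ∈ H, i * y = y * i := by
    rw [hi]; exact hCmul _ _ (hCinv x hxC) (hCτ x hxC)
  have hjC : ∀ y ∈ H, j * y = y * j := by rw [hj]; exact hCτ _ hiC
  have hlC : ∀ y ∈ H, l * y = y * l := by rw [hl]; exact hCτ _ hjC
  have hijl : i * j * l = 1 := by
    have h1 : τ (τ x) = x * i * j := by rw [hτx, map_mul, hτx, ← hj]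
    have h2 : τ (τ (τ x)) = x * i * j * l := by rw [h1, map_mul, map_mul, hτx, ← hj, ← hl]
    rw [hτ3] at h2
    have h3 : x * 1 = x * (i * j * l) := by rw [mul_one, ← mul_assoc, ← mul_assoc]; exact h2
    exact (mul_left_cancel h3).symm
  have hiH : i ∉ H := by rw [hi, hB]; exact hxH
  have hnotτ : ∀ g, g ∉ H → τ g ∉ H := by
    intro g hg hh
    have h1 := hfix _ hh
    have h2 := τ.injective h1
    rw [h2] at hh
    exact hg hh
  have hjH : j ∉ H := by rw [hj]; exact hnotτ _ hiH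
  have hlH : l ∉ H := by rw [hl]; exact hnotτ _ hjH
  have hlij : l = (i * j)⁻¹ := by
    rw [eq_inv_iff_mul_eq_one]
    have : l * (i * j) = (i * j)⁻¹ * ((i * j) * l) * (i * j) := by group
    rw [this, hijl]; group
  have hijH : i * j ∉ H := by
    intro h
    apply hlH
    rw [hlij]; exact H.inv_mem h
  obtain ⟨z, hz⟩ : ∃ z, z = i * i := ⟨_, rfl⟩
  have hzH : z ∈ H := by rw [hz]; exact hsq i
  have hτz : τ z = z := hfix z hzH
  have hjj : j * j = z := by rw [hj, ← map_mul, ← hz, hτz]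
  have hll : l * l = z := by rw [hl, ← map_mul, hjj, hτz]
  -- x x fixed by τ
  have hixi : i * x * i = x := by
    have h1 : τ (x * x) = x * x := hfix _ (hsq x)
    rw [map_mul, hτx] at h1
    have h2 : x * (i * x * i) = x * x := by rw [← h1]; group
    exact mul_left_cancel h2
  have hxz : x * z = z * x := hxC z hzH
  have hzz : z * z = 1 := by
    have h1 : x⁻¹ * i * x = i⁻¹ := by
      have : i * x = x * i⁻¹ := by
        calc i * x = (i * x * i) * i⁻¹ := by group
          _ = x * i⁻¹ := by rw [hixi]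
      rw [mul_assoc, this]; group
    have h2 : x⁻¹ * z * x = z⁻¹ := by
      calc x⁻¹ * z * x = (x⁻¹ * i * x) * (x⁻¹ * i * x) := by rw [hz]; group
        _ = z⁻¹ := by rw [h1, hz]; group
    have h3 : x⁻¹ * z * x = z := by
      rw [mul_assoc, ← hxz]; group
    rw [h3] at h2
    calc z * z = z * z⁻¹ := by rw [← h2]
      _ = 1 := by group
  have hzinv : z⁻¹ = z := inv_eq_of_mul_eq_one_right hzz
  have hiz : i * z = z * i := hiC z hzH
  have hjz : j * z = z * j := hjC z hzH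
  have hjinv : j⁻¹ = j * z := by
    apply inv_eq_of_mul_eq_one_right
    rw [← mul_assoc, hjj, hzz]
  have hiinv : i⁻¹ = i * z := by
    apply inv_eq_of_mul_eq_one_right
    rw [← mul_assoc, ← hz, hzz]
  have hijij : (i * j) * (i * j) = z := by
    have h1 : (l * l)⁻¹ = (i * j) * (i * j) := by rw [hlij]; group
    rw [← h1, hll, hzinv]
  have hji : j * i = z * i * j := by
    have h1 : j * i * j = i⁻¹ * z := by rw [← hijij]; group
    have h2 : j * i * j = i := by rw [h1, hz]; group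
    calc j * i = (j * i * j) * j⁻¹ := by group
      _ = i * (j * z) := by rw [h2, hjinv]
      _ = i * (z * j) := by rw [hjz]
      _ = z * i * j := by rw [← mul_assoc, hiz]
  -- every element
  have hcov : ∀ g, ∃ h ∈ H, g = h ∨ g = h * i ∨ g = h * j ∨ g = h * (i * j) := by
    intro g
    by_cases hg : g ∈ H
    · exact ⟨g, hg, Or.inl rfl⟩
    · rcases htr i g hiH hg with h1 | h1 | h1
      · refine ⟨i⁻¹ * g, h1, Or.inr (Or.inl ?_)⟩
        rw [← hiC _ h1]; group
      · rw [← hj] at h1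
        refine ⟨j⁻¹ * g, h1, Or.inr (Or.inr (Or.inl ?_))⟩
        rw [← hjC _ h1]; group
      · rw [← hj, ← hl] at h1
        refine ⟨(l⁻¹ * g) * z, H.mul_mem h1 hzH, Or.inr (Or.inr (Or.inr ?_))⟩
        have h2 : g = (l⁻¹ * g) * l := by rw [← hlC _ h1]; group
        have h3 : l = z * (i * j) := by
          rw [hlij]
          apply inv_eq_of_mul_eq_one_right
          have h4 : (i * j) * z = z * (i * j) := hCmul i j hiC hjC z hzH
          rw [← mul_assoc, h4, mul_assoc, hijij, hzz]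
        conv_lhs => rw [h2]
        rw [mul_assoc, mul_assoc, ← h3, mul_assoc]
  have hz1 : z ≠ 1 := by
    intro hz1
    apply hna
    -- everything in C is h * i^a * j^b, and i, j commute
    have hij : i * j = j * i := by rw [hji, hz1, one_mul]
    intro a b ha hb
    obtain ⟨h, hh, hacase⟩ := hcov a
    obtain ⟨h', hh', hbcase⟩ := hcov b
    have hhC : ∀ (a u h : G), a = h * u → h ∈ H → (∀ y ∈ H, a * y = y * a) →
        (∀ y ∈ H, u * y = y * u) → (∀ y ∈ H, h * y = y * h) := by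
      intro a u h hau hh ha hu
      have : h = a * u⁻¹ := by rw [hau]; group
      rw [this]
      exact hCmul _ _ ha (hCinv _ hu)
    have hone : ∀ y ∈ H, (1 : G) * y = y * 1 := by intro y _; rw [one_mul, mul_one]
    have hijC := hCmul i j hiC hjC
    -- normal form
    have hform : ∀ a : G, (∀ y ∈ H, a * y = y * a) → ∃ h u, a = h * u ∧ h ∈ H ∧
        (∀ y ∈ H, h * y = y * h) ∧ (∀ y ∈ H, u * y = y * u) ∧ (u = 1 ∨ u = i ∨ u = j ∨ u = i * j) := by
      intro a ha
      obtain ⟨h, hh, hc⟩ := hcov a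
      rcases hc with hc | hc | hc | hc
      · exact ⟨h, 1, by rw [mul_one]; exact hc, hh, hhC a 1 h (by rw [mul_one]; exact hc) hh ha hone,
          hone, Or.inl rfl⟩
      · exact ⟨h, i, hc, hh, hhC a i h hc hh ha hiC, hiC, Or.inr (Or.inl rfl)⟩
      · exact ⟨h, j, hc, hh, hhC a j h hc hh ha hjC, hjC, Or.inr (Or.inr (Or.inl rfl))⟩
      · exact ⟨h, i * j, hc, hh, hhC a _ h hc hh ha hijC, hijC, Or.inr (Or.inr (Or.inr rfl))⟩
    obtain ⟨h1, u1, e1, hh1, hc1, hu1, hcase1⟩ := hform a ha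
    obtain ⟨h2, u2, e2, hh2, hc2, hu2, hcase2⟩ := hform b hb
    have hic : Commute i j := hij
    have huu : u1 * u2 = u2 * u1 := by
      have hcomm1 : ∀ u, (u = 1 ∨ u = i ∨ u = j ∨ u = i * j) → Commute u i ∧ Commute u j := by
        intro u hu
        rcases hu with rfl | rfl | rfl | rfl
        · exact ⟨Commute.one_left _, Commute.one_left _⟩
        · exact ⟨Commute.refl _, hic⟩
        · exact ⟨hic.symm, Commute.refl _⟩
        · exact ⟨(Commute.refl i).mul_left hic.symm, hic.mul_left (Commute.refl j)⟩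
      obtain ⟨h3, h4⟩ := hcomm1 u1 hcase1
      rcases hcase2 with rfl | rfl | rfl | rfl
      · rw [mul_one, one_mul]
      · exact h3
      · exact h4
      · exact h3.mul_right h4
    rw [e1, e2]
    calc h1 * u1 * (h2 * u2) = h1 * (u1 * h2) * u2 := by group
      _ = h1 * (h2 * u1) * u2 := by rw [hu1 h2 hh2]
      _ = (h1 * h2) * (u1 * u2) := by group
      _ = (h2 * h1) * (u2 * u1) := by rw [hc1 h2 hh2, huu]
      _ = h2 * (h1 * u2) * u1 := by group
      _ = h2 * (u2 * h1) * u1 := by rw [hu2 h1 hh1]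
      _ = h2 * u2 * (h1 * u1) := by group
  -- α
  have hαi : α i = j := by
    obtain ⟨v, hv⟩ : ∃ v, v = (τ x)⁻¹ * α x := ⟨_, rfl⟩
    have hvH : v ∈ H := by rw [hv]; exact hαx
    have hαx' : α x = τ x * v := by rw [hv]; group
    have h1 : α i = (α x)⁻¹ * τ (α x) := by rw [hi, map_mul, map_inv, hατ]
    rw [h1, hαx', map_mul, hfix v hvH, hτx, map_mul, hτx, ← hj]
    have e : (x * i * v)⁻¹ * (x * i * j * v) = v⁻¹ * (j * v) := by group
    rw [e, hjC v hvH]; group
  have hαj : α j = (i * j)⁻¹ := by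
    rw [← hlij]
    conv_lhs => rw [hj]
    rw [hατ, hαi, ← hl]
  exact ⟨z, i, j, hT, ht, hαH, fun y hy => (hiC y hy).symm, fun y hy => (hjC y hy).symm,
    hz.symm, hjj, hzz, hz1, hzH, hji, hαi, hαj, hcov, hiH, hjH, hijH⟩

theorem FP.caseB_dec [Finite G] {T : Perm G} {α : MulAut G} {H : Subgroup G} {k : ℕ}
    (h : FP T α H k) (hHt : H ≠ ⊤) (hc : Nat.card G < 2 * orderOf T)
    (hB : ∀ g, g⁻¹ * (α ^ k) g ∈ H ↔ g ∈ H) :
    Sing α ∨ ∃ z i j, Q8 T α H z i j := by
  classical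
  have hN := h.normal hHt hc hB
  have hPA : ∀ K : Subgroup G, K ≠ ⊤ → PA K := fun K _ => thmA K
  obtain ⟨g₀, hg₀⟩ : ∃ g₀, g₀ ∉ H := by
    by_contra hcon
    push Not at hcon
    exact hHt ((Subgroup.eq_top_iff' H).mpr hcon)
  have hbad : ∀ g, g ∉ H → g⁻¹ * (α ^ k) g ∉ H := fun g hg => by rw [hB]; exact hg
  have htr := fun {g g' : G} (hg : g ∉ H) (hg' : g' ∉ H) =>
    h.trans_big (hPA H hHt) hc (hbad _ hg) (hbad _ hg')
  have hcc := h.card_compl hPA hHt hc hB hg₀
  set σ := α ^ k with hσ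
  have hσfix : ∀ (i : ℕ), ∀ x ∈ H, (σ ^ i) x = x := fun i x hx => h.fix' i hx
  have hσfix1 : ∀ x ∈ H, σ x = x := by
    intro x hx; have := hσfix 1 x hx; rwa [pow_one] at this
  have hασ : ∀ (n : ℕ) x, α ((σ ^ n) x) = (σ ^ n) (α x) := by
    intro n x
    rw [hσ, ← _root_.pow_mul, ← MulAut.mul_apply, ← MulAut.mul_apply, ← pow_succ, ← pow_succ']
  -- quotient
  have hσH : ∀ x ∈ H, σ x ∈ H := fun x hx => by rw [hσfix1 x hx]; exact hx
  obtain ⟨σb, hσb⟩ := exists_quoAut σ H hσH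
  have hσbn : ∀ (n : ℕ) (x : G), (σb ^ n) (x : G ⧸ H) = (((σ ^ n) x : G) : G ⧸ H) := by
    intro n
    induction n with
    | zero => intro x; simp
    | succ n ih => intro x; rw [pow_succ, MulAut.mul_apply, hσb, ih, pow_succ, MulAut.mul_apply]
  have hmk1 : ∀ x : G, ((x : G) : G ⧸ H) = 1 ↔ x ∈ H := fun x => QuotientGroup.eq_one_iff x
  have htrQ : ∀ x y : G ⧸ H, x ≠ 1 → y ≠ 1 → ∃ i : ℕ, (σb ^ i) x = y := by
    intro x y hx hy
    induction x using QuotientGroup.induction_on with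
    | H x =>
      induction y using QuotientGroup.induction_on with
      | H y =>
        obtain ⟨i, hi⟩ := htr (fun hh => hx ((hmk1 x).mpr hh)) (fun hh => hy ((hmk1 y).mpr hh))
        refine ⟨i, ?_⟩
        rw [hσbn]
        exact QuotientGroup.eq.mpr hi
  have hne1 : ∃ x : G ⧸ H, x ≠ 1 := ⟨(g₀ : G ⧸ H), fun hh => hg₀ ((hmk1 g₀).mp hh)⟩
  obtain ⟨F, instF, instFin, e, ω, hbij, headd, heσ, hgen⟩ := field_lemma (G ⧸ H) σb hne1 htrQ
  have hQcomm := comm_of_trans (G ⧸ H) σb htrQ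
  have heσn : ∀ (n : ℕ) (x : G ⧸ H), e ((σb ^ n) x) = ω ^ n * e x := by
    intro n
    induction n with
    | zero => intro x; simp
    | succ n ih =>
      intro x
      rw [pow_succ, MulAut.mul_apply, ih, heσ, pow_succ]; ring
  have he1 : e 1 = 0 := by
    have h1 := headd 1 1
    rw [mul_one] at h1
    have h2 : e 1 + 0 = e 1 + e 1 := by rw [add_zero]; exact h1
    exact (add_left_cancel h2).symm
  have hcardF : Nat.card F = Nat.card (G ⧸ H) := (Nat.card_congr (Equiv.ofBijective e hbij)).symm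
  -- centralizer of H
  let C : Subgroup G :=
    { carrier := {x | ∀ y ∈ H, x * y = y * x}
      mul_mem' := by
        intro a b ha hb y hy
        have ha' := ha y hy
        have hb' := hb y hy
        rw [mul_assoc, hb', ← mul_assoc, ha', mul_assoc]
      one_mem' := by intro y _; rw [one_mul, mul_one]
      inv_mem' := by
        intro a ha y hy
        have ha' := ha y hy
        calc a⁻¹ * y = a⁻¹ * (y * a) * a⁻¹ := by group
          _ = a⁻¹ * (a * y) * a⁻¹ := by rw [ha']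
          _ = y * a⁻¹ := by group }
  have hCmem : ∀ x, x ∈ C ↔ ∀ y ∈ H, x * y = y * x := fun x => Iff.rfl
  have hσinvH : ∀ g, g⁻¹ * σ g ∈ H → g ∈ H := fun g hg => (hB g).mp hg
  have hCσ : ∀ (n : ℕ), ∀ a ∈ C, (σ ^ n) a ∈ C := by
    intro n a ha y hy
    have h1 := congrArg (σ ^ n) (ha y hy)
    rw [map_mul, map_mul, hσfix n y hy] at h1
    exact h1
  have hCσ1 : ∀ a ∈ C, σ a ∈ C := by
    intro a ha; have := hCσ 1 a ha; rwa [pow_one] at this
  have hα1 := h.alpha_mem
  have hCα : ∀ a ∈ C, α a ∈ C := by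
    intro a ha y hy
    obtain ⟨y', rfl⟩ := α.surjective y
    have hy' := (hα1 y').mpr hy
    rw [← map_mul, ← map_mul, ha y' hy']
  -- σ g g⁻¹ centralizes H
  have hσC : ∀ g, σ g * g⁻¹ ∈ C := by
    intro g y hy
    have h1 : g⁻¹ * y * g ∈ H := by
      have := hN.conj_mem y hy g⁻¹
      simpa using this
    have h2 := hσfix1 _ h1
    rw [map_mul, map_mul, map_inv, hσfix1 y hy] at h2
    calc σ g * g⁻¹ * y = σ g * (g⁻¹ * y * g) * g⁻¹ := by group
      _ = σ g * ((σ g)⁻¹ * y * σ g) * g⁻¹ := by rw [h2]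
      _ = y * (σ g * g⁻¹) := by group
  -- surjectivity onto G/H
  have hsurj1 : ∀ g : G, ∃ c ∈ C, g⁻¹ * c ∈ H := by
    intro g
    let f : G ⧸ H → G ⧸ H := fun q => σb q * q⁻¹
    have hf : Function.Injective f := by
      intro q q' hqq
      induction q using QuotientGroup.induction_on with
      | H q =>
        induction q' using QuotientGroup.induction_on with
        | H q' =>
          have h1 : σb (q : G ⧸ H) * (q : G ⧸ H)⁻¹ = σb (q' : G ⧸ H) * (q' : G ⧸ H)⁻¹ := hqq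
          have h2 : σb ((q' : G ⧸ H)⁻¹ * (q : G ⧸ H)) = (q' : G ⧸ H)⁻¹ * (q : G ⧸ H) := by
            rw [map_mul, map_inv]
            have h3 : σb (q : G ⧸ H) = σb (q' : G ⧸ H) * (q' : G ⧸ H)⁻¹ * (q : G ⧸ H) := by
              rw [← h1]; group
            rw [h3]; group
          have h4 : (((q'⁻¹ * q)⁻¹ * σ (q'⁻¹ * q) : G) : G ⧸ H) = 1 := by
            rw [QuotientGroup.mk_mul, QuotientGroup.mk_inv, ← hσb, QuotientGroup.mk_mul,
              QuotientGroup.mk_inv, h2]
            group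
          rw [hmk1] at h4
          exact (QuotientGroup.eq.mpr (hσinvH _ h4)).symm
    obtain ⟨q, hq⟩ := Finite.surjective_of_injective hf (g : G ⧸ H)
    induction q using QuotientGroup.induction_on with
    | H q =>
      refine ⟨σ q * q⁻¹, hσC q, ?_⟩
      have h1 : σb (q : G ⧸ H) * (q : G ⧸ H)⁻¹ = (g : G ⧸ H) := hq
      rw [← QuotientGroup.eq, ← h1, hσb]
      rfl
  have hsurj2 : ∀ g : G, ∃ x : G, g⁻¹ * (x⁻¹ * σ x) ∈ H := by
    intro g
    let f : G ⧸ H → G ⧸ H := fun q => q⁻¹ * σb q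
    have hf : Function.Injective f := by
      intro q q' hqq
      induction q using QuotientGroup.induction_on with
      | H q =>
        induction q' using QuotientGroup.induction_on with
        | H q' =>
          have h1 : (q : G ⧸ H)⁻¹ * σb (q : G ⧸ H) = (q' : G ⧸ H)⁻¹ * σb (q' : G ⧸ H) := hqq
          have h2 : σb ((q : G ⧸ H) * (q' : G ⧸ H)⁻¹) = (q : G ⧸ H) * (q' : G ⧸ H)⁻¹ := by
            rw [map_mul, map_inv]
            have h3 : σb (q : G ⧸ H) = (q : G ⧸ H) * ((q' : G ⧸ H)⁻¹ * σb (q' : G ⧸ H)) := by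
              rw [← h1]; group
            rw [h3]; group
          have h4 : (((q * q'⁻¹)⁻¹ * σ (q * q'⁻¹) : G) : G ⧸ H) = 1 := by
            rw [QuotientGroup.mk_mul, QuotientGroup.mk_inv, ← hσb, QuotientGroup.mk_mul,
              QuotientGroup.mk_inv, h2]
            group
          rw [hmk1] at h4
          have h5 := hσinvH _ h4
          rw [← hmk1, QuotientGroup.mk_mul, QuotientGroup.mk_inv, mul_inv_eq_one] at h5
          exact h5
    obtain ⟨q, hq⟩ := Finite.surjective_of_injective hf (g : G ⧸ H)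
    induction q using QuotientGroup.induction_on with
    | H q =>
      refine ⟨q, ?_⟩
      have h1 : (q : G ⧸ H)⁻¹ * σb (q : G ⧸ H) = (g : G ⧸ H) := hq
      rw [← QuotientGroup.eq, ← h1, hσb]
      rfl
  by_cases hCab : ∀ a b : G, (∀ y ∈ H, a * y = y * a) → (∀ y ∈ H, b * y = y * b) → a * b = b * a
  · -- abelian case
    left
    let E : Subgroup G :=
      { carrier := {x | ∃ c ∈ C, x = c⁻¹ * σ c}
        mul_mem' := by
          rintro _ _ ⟨c, hc, rfl⟩ ⟨c', hc', rfl⟩
          refine ⟨c * c', C.mul_mem hc hc', ?_⟩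
          have h1 := hCab (c'⁻¹) (c⁻¹ * σ c) (C.inv_mem hc') (C.mul_mem (C.inv_mem hc) (hCσ1 c hc))
          rw [map_mul]
          calc c⁻¹ * σ c * (c'⁻¹ * σ c') = ((c⁻¹ * σ c) * c'⁻¹) * σ c' := by group
            _ = (c'⁻¹ * (c⁻¹ * σ c)) * σ c' := by rw [h1]
            _ = (c * c')⁻¹ * (σ c * σ c') := by group
        one_mem' := ⟨1, C.one_mem, by simp⟩
        inv_mem' := by
          rintro _ ⟨c, hc, rfl⟩
          refine ⟨c⁻¹, C.inv_mem hc, ?_⟩
          have h1 := hCab c (σ c)⁻¹ hc (C.inv_mem (hCσ1 c hc))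
          rw [map_inv, inv_inv, h1]; group }
    have hEC : ∀ x ∈ E, x ∈ C := by
      rintro _ ⟨c, hc, rfl⟩
      exact C.mul_mem (C.inv_mem hc) (hCσ1 c hc)
    have hEH : ∀ x, x ∈ H → x ∈ E → x = 1 := by
      rintro _ hxH ⟨c, hc, rfl⟩
      have h1 := hσinvH c hxH
      rw [hσfix1 c h1]; group
    refine ⟨H, E, ⟨fun x hx => (hα1 x).mp hx, ?_, ?_, hEH, ?_⟩, ?_, ?_⟩
    · rintro _ ⟨c, hc, rfl⟩
      refine ⟨α c, hCα c hc, ?_⟩
      have := hασ 1 c
      rw [pow_one] at this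
      rw [map_mul, map_inv, this]
    · intro x hx y hy
      exact (hEC y hy x hx).symm
    · intro g
      obtain ⟨x, hx⟩ := hsurj2 g
      obtain ⟨c, hcC, hcx⟩ := hsurj1 x
      -- x = c * y with y ∈ H
      obtain ⟨y, hy⟩ : ∃ y, y = c⁻¹ * x := ⟨_, rfl⟩
      have hyH : y ∈ H := by
        rw [hy]
        have := H.inv_mem hcx
        have e1 : (x⁻¹ * c)⁻¹ = c⁻¹ * x := by group
        rwa [e1] at this
      have hxc : x = c * y := by rw [hy]; group
      have h1 : x⁻¹ * σ x = c⁻¹ * σ c := by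
        rw [hxc, map_mul, hσfix1 y hyH]
        have h2 : c⁻¹ * σ c ∈ C := C.mul_mem (C.inv_mem hcC) (hCσ1 c hcC)
        calc (c * y)⁻¹ * (σ c * y) = y⁻¹ * ((c⁻¹ * σ c) * y) := by group
          _ = y⁻¹ * (y * (c⁻¹ * σ c)) := by rw [h2 y hyH]
          _ = c⁻¹ * σ c := by group
      rw [h1] at hx
      refine ⟨(g⁻¹ * (c⁻¹ * σ c))⁻¹, H.inv_mem hx, c⁻¹ * σ c, ⟨c, hcC, rfl⟩, ?_⟩
      have h2 : c⁻¹ * σ c ∈ C := C.mul_mem (C.inv_mem hcC) (hCσ1 c hcC)
      rw [← h2 _ (H.inv_mem hx)]; group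
    · intro x hx y hy hx1 hy1
      have hxH : x ∉ H := fun hh => hx1 (hEH x hh hx)
      have hyH : y ∉ H := fun hh => hy1 (hEH y hh hy)
      obtain ⟨i, hi⟩ := htr hxH hyH
      refine ⟨k * i, ?_⟩
      have hmem : ((σ ^ i) x)⁻¹ * y ∈ E := by
        apply E.mul_mem (E.inv_mem _) hy
        obtain ⟨c, hc, rfl⟩ := hx
        refine ⟨(σ ^ i) c, hCσ i c hc, ?_⟩
        rw [map_mul, map_inv]
        congr 1
        have := sig_comm α k i 1 c
        rw [pow_one] at this
        exact this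
      have h1 := hEH _ hi hmem
      rw [_root_.pow_mul]
      exact inv_mul_eq_one.mp h1
    · by_contra hcon
      push Not at hcon
      apply h.ne
      ext g
      obtain ⟨x, hx⟩ := hsurj2 g
      obtain ⟨c, hcC, hcx⟩ := hsurj1 g
      have hE1 : ∀ n : ℕ, ∀ x ∈ E, (α ^ n) x = x := by
        intro n
        induction n with
        | zero => intro x _; simp
        | succ n ih => intro x hx; rw [pow_succ, MulAut.mul_apply, hcon x hx, ih x hx]
      -- σ c = c for c ∈ C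
      have h2 : c⁻¹ * σ c ∈ E := ⟨c, hcC, rfl⟩
      have h3 : c⁻¹ * σ c ∈ H := by
        apply hσinvH
        have h8 : σ (c⁻¹ * σ c) = c⁻¹ * σ c := hE1 k _ h2
        rw [h8, inv_mul_cancel]; exact H.one_mem
      have h4 := hEH _ h3 h2
      have h5 : c = σ c := inv_mul_eq_one.mp h4
      have h6 : g = c * (g⁻¹ * c)⁻¹ := by group
      have h7 : σ g = g := by
        conv_lhs => rw [h6]
        rw [map_mul, ← h5, map_inv, hσfix1 _ hcx, ← h6]
      rw [← hσ, h7]; rfl
  · -- nonabelian case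
    right
    -- lifts
    have hlift : ∀ u : F, ∃ c ∈ C, e (c : G ⧸ H) = u := by
      intro u
      obtain ⟨q, hq⟩ := hbij.2 u
      induction q using QuotientGroup.induction_on with
      | H q =>
        obtain ⟨c, hcC, hcq⟩ := hsurj1 q
        refine ⟨c, hcC, ?_⟩
        rw [← QuotientGroup.eq.mpr hcq]; exact hq
    choose s hsC hse using hlift
    have hcomH : ∀ a b : G, a * b * a⁻¹ * b⁻¹ ∈ H := by
      intro a b
      rw [← hmk1]
      rw [QuotientGroup.mk_mul, QuotientGroup.mk_mul, QuotientGroup.mk_mul, QuotientGroup.mk_inv,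
        QuotientGroup.mk_inv, hQcomm (a : G ⧸ H) b]
      group
    -- commutator is insensitive to H on both sides (for elements of C)
    have hcomR : ∀ a ∈ C, ∀ b b' : G, b ∈ C → b' ∈ C → b⁻¹ * b' ∈ H →
        a * b * a⁻¹ * b⁻¹ = a * b' * a⁻¹ * b'⁻¹ := by
      intro a ha b b' hb hb' hbb
      obtain ⟨y, hy⟩ : ∃ y, y = b⁻¹ * b' := ⟨_, rfl⟩
      have hyH : y ∈ H := by rw [hy]; exact hbb
      have hb'' : b' = b * y := by rw [hy]; group
      rw [hb'']
      have h1 := C.inv_mem ha y hyH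
      calc a * b * a⁻¹ * b⁻¹ = a * b * (a⁻¹ * y) * y⁻¹ * b⁻¹ := by group
        _ = a * b * (y * a⁻¹) * y⁻¹ * b⁻¹ := by rw [h1]
        _ = a * (b * y) * a⁻¹ * (b * y)⁻¹ := by group
    have hcomL : ∀ b ∈ C, ∀ a a' : G, a ∈ C → a' ∈ C → a⁻¹ * a' ∈ H →
        a * b * a⁻¹ * b⁻¹ = a' * b * a'⁻¹ * b⁻¹ := by
      intro b hb a a' ha ha' haa
      have h1 := hcomR b hb a a' ha ha' haa
      have h2 := congrArg (fun g : G => g⁻¹) h1
      simp only [mul_inv_rev, inv_inv] at h2
      calc a * b * a⁻¹ * b⁻¹ = a * (b * (a⁻¹ * b⁻¹)) := by group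
        _ = a' * (b * (a'⁻¹ * b⁻¹)) := h2
        _ = a' * b * a'⁻¹ * b⁻¹ := by group
    have heq : ∀ a b : G, e (a : G ⧸ H) = e (b : G ⧸ H) → a⁻¹ * b ∈ H := by
      intro a b hab
      exact QuotientGroup.eq.mp (hbij.1 hab)
    set x₀ := s 1 with hx₀
    let c : F → G := fun u => x₀ * s u * x₀⁻¹ * (s u)⁻¹
    have hcadd : ∀ u v, c (u + v) = c u * c v := by
      intro u v
      have h1 : (s u * s v)⁻¹ * s (u + v) ∈ H := by
        apply heq
        rw [QuotientGroup.mk_mul, headd, hse, hse, hse]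
      have h2 := hcomR x₀ (hsC 1) _ _ (C.mul_mem (hsC u) (hsC v)) (hsC (u + v)) h1
      show x₀ * s (u + v) * x₀⁻¹ * (s (u + v))⁻¹ = _
      rw [← h2]
      have h3 := hsC u _ (hcomH x₀ (s v))
      show x₀ * (s u * s v) * x₀⁻¹ * (s u * s v)⁻¹ =
        (x₀ * s u * x₀⁻¹ * (s u)⁻¹) * (x₀ * s v * x₀⁻¹ * (s v)⁻¹)
      calc x₀ * (s u * s v) * x₀⁻¹ * (s u * s v)⁻¹
          = x₀ * s u * x₀⁻¹ * ((x₀ * s v * x₀⁻¹ * (s v)⁻¹)) * (s u)⁻¹ := by group
        _ = x₀ * s u * x₀⁻¹ * (s u)⁻¹ * (s u * (x₀ * s v * x₀⁻¹ * (s v)⁻¹)) * (s u)⁻¹ := by group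
        _ = x₀ * s u * x₀⁻¹ * (s u)⁻¹ * ((x₀ * s v * x₀⁻¹ * (s v)⁻¹) * s u) * (s u)⁻¹ := by
            rw [h3]
        _ = (x₀ * s u * x₀⁻¹ * (s u)⁻¹) * (x₀ * s v * x₀⁻¹ * (s v)⁻¹) := by group
    have hcinv : ∀ u, u ≠ 0 → c u⁻¹ = (c u)⁻¹ := by
      intro u hu
      obtain ⟨i, hi⟩ := hgen (Units.mk0 u hu)
      have hi' : (ω : F) ^ i = u := by
        have := congrArg Units.val hi
        rwa [Units.val_pow_eq_pow_val] at this
      have h1 : (σ ^ i) (c u⁻¹) = c u⁻¹ := hσfix i _ (hcomH _ _)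
      have h2 : (s u)⁻¹ * (σ ^ i) x₀ ∈ H := by
        apply heq
        rw [← hσbn, heσn, hse, hse, hi', mul_one]
      have h3 : x₀⁻¹ * (σ ^ i) (s u⁻¹) ∈ H := by
        apply heq
        rw [← hσbn, heσn, hse, hse, hi', mul_inv_cancel₀ hu]
      rw [← h1]
      show (σ ^ i) (x₀ * s u⁻¹ * x₀⁻¹ * (s u⁻¹)⁻¹) = (x₀ * s u * x₀⁻¹ * (s u)⁻¹)⁻¹
      rw [map_mul, map_mul, map_mul, map_inv, map_inv]
      rw [← hcomL _ (hCσ i _ (hsC _)) (s u) ((σ ^ i) x₀) (hsC u) (hCσ i _ (hsC 1)) h2]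
      rw [← hcomR (s u) (hsC u) x₀ _ (hsC 1) (hCσ i _ (hsC _)) h3]
      group
    have hcne : ¬ ∀ u, c u = 1 := by
      intro hc1
      apply hCab
      intro a b ha hb
      by_cases haH : a ∈ H
      · exact (hb a haH).symm
      · have hea : e (a : G ⧸ H) ≠ 0 := by
          rw [← he1]
          intro hh
          exact haH ((hmk1 a).mp (hbij.1 hh))
        obtain ⟨i, hi⟩ := hgen (Units.mk0 _ hea)
        have hi' : (ω : F) ^ i = e (a : G ⧸ H) := by
          have := congrArg Units.val hi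
          rwa [Units.val_pow_eq_pow_val] at this
        obtain ⟨b', hb'⟩ := (σ ^ i).surjective b
        have hb'C : b' ∈ C := by
          intro y hy
          apply (σ ^ i).injective
          rw [map_mul, map_mul, hb', hσfix i y hy]
          exact hb y hy
        have h1 : ((σ ^ i) x₀)⁻¹ * a ∈ H := by
          apply heq
          rw [← hσbn, heσn, hse, hi', mul_one]
        have h2 : (s (e (b' : G ⧸ H)))⁻¹ * b' ∈ H := by
          apply heq; rw [hse]
        have h3 := hcomR x₀ (hsC 1) _ b' (hsC _) hb'C h2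
        have h4 : x₀ * b' * x₀⁻¹ * b'⁻¹ = 1 := by
          rw [← h3]; exact hc1 _
        have h5 := congrArg (σ ^ i) h4
        rw [map_mul, map_mul, map_mul, map_inv, map_inv, map_one, hb'] at h5
        rw [hcomL b hb _ a (hCσ i _ (hsC 1)) ha h1] at h5
        calc a * b = (a * b * a⁻¹ * b⁻¹) * b * a := by group
          _ = b * a := by rw [h5, one_mul]
    have hcard4 : Nat.card F = 4 := by
      have hle : Nat.card F ≤ 4 := by
        by_contra hcon
        push Not at hcon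
        exact hcne (hua c hcadd hcinv (by omega))
      have hge : 4 ≤ Nat.card F := by
        by_contra hcon
        push Not at hcon
        apply hcne
        have h0 : c 0 = 1 := by
          have h1 := hcadd 0 0
          rw [add_zero] at h1
          have h2 : c 0 * 1 = c 0 * c 0 := by rw [mul_one]; exact h1
          exact (mul_left_cancel h2).symm
        have h1 : c 1 = 1 := by
          show x₀ * s 1 * x₀⁻¹ * (s 1)⁻¹ = 1
          rw [← hx₀]; group
        have hm1 : c (-1) = 1 := by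
          have := hcadd (-1) 1
          rw [neg_add_cancel, h0, h1, mul_one] at this
          exact this.symm
        intro u
        by_contra hu
        have hu0 : u ≠ 0 := by rintro rfl; exact hu h0
        have hu1 : u ≠ 1 := by rintro rfl; exact hu h1
        have hum : u ≠ -1 := by rintro rfl; exact hu hm1
        have h2 : u + 1 ≠ 0 := fun hh => hum (eq_neg_of_add_eq_zero_left hh)
        have h3 : u + 1 ≠ 1 := fun hh => hu0 (by simpa using hh)
        have h4 : u + 1 ≠ u := fun hh => one_ne_zero (α := F) (by simp at hh)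
        have h5 : ({0, 1, u, u + 1} : Set F).ncard = 4 := by
          rw [Set.ncard_insert_of_notMem, Set.ncard_insert_of_notMem, Set.ncard_pair h4.symm]
          · simp only [Set.mem_insert_iff, Set.mem_singleton_iff, not_or]
            exact ⟨hu1.symm, h3.symm⟩
          · simp only [Set.mem_insert_iff, Set.mem_singleton_iff, not_or]
            exact ⟨zero_ne_one, hu0.symm, h2.symm⟩
        have h6 := Set.ncard_le_ncard (Set.subset_univ ({0, 1, u, u + 1} : Set F)) (Set.toFinite _)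
        rw [h5, Set.ncard_univ] at h6
        omega
      omega
    have hδ : orderOf σ = 3 := by
      have h1 := Subgroup.card_eq_card_quotient_mul_card_subgroup H
      rw [← hcardF, hcard4] at h1
      rw [h1] at hcc
      have hpos : 0 < Nat.card H := Nat.card_pos
      have h2 : (orderOf σ + 1) * Nat.card H = 4 * Nat.card H := by rw [← hcc]; ring
      have h3 := Nat.eq_of_mul_eq_mul_right hpos h2
      omega
    have hσ3 : σ ^ 3 = 1 := by rw [← hδ]; exact pow_orderOf_eq_one σ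
    have h2F : (2 : F) = 0 := by
      have h4F : (4 : ℕ) • (1 : F) = 0 := by rw [← hcard4]; exact card_nsmul_eq_zero'
      have h5 : (2 : F) * 2 = 0 := by
        have : (2 : F) * 2 = (4 : ℕ) • (1 : F) := by rw [nsmul_eq_mul]; norm_num
        rw [this, h4F]
      exact mul_self_eq_zero.mp h5
    have hsq : ∀ g, g * g ∈ H := by
      intro g
      rw [← hmk1]
      apply hbij.1
      rw [QuotientGroup.mk_mul, headd, he1, ← two_mul, h2F, zero_mul]
    -- choose x
    obtain ⟨x, hxC, hxg⟩ := hsurj1 g₀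
    have hxH : x ∉ H := by
      intro hh
      apply hg₀
      have := H.mul_mem hh (H.inv_mem hxg)
      have e1 : x * (g₀⁻¹ * x)⁻¹ = g₀ := by group
      rwa [e1] at this
    have hαxH : α x ∉ H := fun hh => hxH ((hα1 x).mpr hh)
    obtain ⟨n, hn⟩ := htr hxH hαxH
    set τ := σ ^ n with hτ
    -- τ ≠ 1
    have hn3 : ¬ 3 ∣ n := by
      rintro ⟨q, hq⟩
      have hτ1 : τ = 1 := by rw [hτ, hq, _root_.pow_mul, hσ3, one_pow]
      rw [hτ1] at hn
      have h1 : ∀ r : ℕ, x⁻¹ * (α ^ r) x ∈ H := by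
        intro r
        induction r with
        | zero => simp
        | succ r ih =>
          rw [pow_succ', MulAut.mul_apply]
          have h2 := (hα1 _).mp ih
          rw [map_mul, map_inv] at h2
          have e1 : x⁻¹ * α ((α ^ r) x) = (((1 : MulAut G) x)⁻¹ * α x) * ((α x)⁻¹ * α ((α ^ r) x)) := by
            simp
          rw [e1]
          exact H.mul_mem hn h2
      exact hbad x hxH (h1 k)
    have hτ3 : ∀ g, τ (τ (τ g)) = g := by
      intro g
      rw [← MulAut.mul_apply, ← MulAut.mul_apply]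
      have : τ * (τ * τ) = 1 := by
        rw [hτ, ← pow_add, ← pow_add]
        have e1 : n + (n + n) = 3 * n := by ring
        rw [e1, _root_.pow_mul, hσ3, one_pow]
      rw [mul_assoc, this]; rfl
    have hτB : ∀ g, g⁻¹ * τ g ∈ H ↔ g ∈ H := by
      intro g
      constructor
      · intro hh
        by_contra hgH
        have h1 := h.free (hbad g hgH) hh
        have h2 := orderOf_dvd_of_pow_eq_one h1
        have h3 : orderOf σ ∣ n := h2
        rw [hδ] at h3
        exact hn3 h3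
      · intro hh
        rw [hτ, hσfix n g hh, inv_mul_cancel]; exact H.one_mem
    obtain ⟨n', hn'⟩ : ∃ n', τ ^ n' = σ := by
      have h3 : n % 3 = 1 ∨ n % 3 = 2 := by omega
      rcases h3 with h3 | h3
      · refine ⟨1, ?_⟩
        rw [pow_one, hτ, ← Nat.mod_add_div n 3, h3, pow_add, _root_.pow_mul, hσ3, one_pow, pow_one,
          mul_one]
      · refine ⟨2, ?_⟩
        rw [hτ, ← _root_.pow_mul, ← Nat.mod_add_div n 3, h3]
        have e1 : (2 + 3 * (n / 3)) * 2 = 1 + 3 * (1 + 2 * (n / 3)) := by ring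
        rw [e1, pow_add, _root_.pow_mul, hσ3, one_pow, pow_one, mul_one]
    have hτtr : ∀ g g', g ∉ H → g' ∉ H →
        g⁻¹ * g' ∈ H ∨ (τ g)⁻¹ * g' ∈ H ∨ (τ (τ g))⁻¹ * g' ∈ H := by
      intro g g' hg hg'
      obtain ⟨i, hi⟩ := htr hg hg'
      rw [← hn', ← _root_.pow_mul] at hi
      have hτp : τ ^ 3 = 1 := by
        ext g
        rw [pow_succ, pow_two]; exact hτ3 g
      rw [← Nat.mod_add_div (n' * i) 3, pow_add, _root_.pow_mul, hτp, one_pow, mul_one] at hi
      have h3 : n' * i % 3 = 0 ∨ n' * i % 3 = 1 ∨ n' * i % 3 = 2 := by omega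
      rcases h3 with h3 | h3 | h3
      · rw [h3, pow_zero] at hi; exact Or.inl hi
      · rw [h3, pow_one] at hi; exact Or.inr (Or.inl hi)
      · rw [h3, pow_two] at hi; exact Or.inr (Or.inr hi)
    exact q8_core h.aff h.T_one_mem (fun x hx => (hα1 x).mp hx) (fun g => hασ n g) hτ3
      (hσfix n) hτB hτtr hsq hxC hxH hn hCab

end H67
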