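import Mathlib
import Pool.Agent.H67.CaseBDec

namespace H67

open Equiv

variable {G : Type} [Group G]

theorem trans_of_semireg [Finite G] {T : Perm G} (hc : Nat.card G < 2 * orderOf T)
    (hs : ∀ (j : ℕ) (x : G), (T ^ j) x = x → T ^ j = 1) : ∀ x y, ∃ i : ℕ, (T ^ i) x = y := by
  intro x y
  by_contra hne
  push Not at hne
  have horb : ∀ v : G, (Set.range (fun i : Fin (orderOf T) => (T ^ (i : ℕ)) v)).ncard = orderOf T := by
    intro v
    have hinj : Function.Injective (fun i : Fin (orderOf T) => (T ^ (i : ℕ)) v) := by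
      have key : ∀ i j : Fin (orderOf T), (i : ℕ) ≤ j →
          (T ^ (i : ℕ)) v = (T ^ (j : ℕ)) v → i = j := by
        intro i j hij h1
        rw [show (j : ℕ) = i + (j - i) by omega, pow_add, Perm.mul_apply] at h1
        have h2 := (T ^ (i : ℕ)).injective h1
        have h3 := orderOf_dvd_of_pow_eq_one (hs _ _ h2.symm)
        have h5 := Nat.eq_zero_of_dvd_of_lt h3 (by omega)
        apply Fin.ext; omega
      intro i j hij
      rcases le_total (i : ℕ) j with hle | hle
      · exact key i j hle hij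
      · exact (key j i hle hij.symm).symm
    rw [← Set.image_univ, Set.ncard_image_of_injective _ hinj, Set.ncard_univ, Nat.card_fin]
  have hdisj : Disjoint (Set.range (fun i : Fin (orderOf T) => (T ^ (i : ℕ)) x))
      (Set.range (fun i : Fin (orderOf T) => (T ^ (i : ℕ)) y)) := by
    rw [Set.disjoint_left]
    rintro _ ⟨i, rfl⟩ ⟨j, hj⟩
    simp only at hj
    apply hne (orderOf T * j - j + i)
    have hpos := orderOf_pos T
    rw [pow_add, Perm.mul_apply, ← hj, ← Perm.mul_apply, ← pow_add]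
    have : orderOf T * (j : ℕ) - j + j = orderOf T * j := by
      have : (j : ℕ) ≤ orderOf T * j := Nat.le_mul_of_pos_left _ hpos
      omega
    rw [this, pow_mul, pow_orderOf_eq_one, one_pow]; rfl
  have h1 := Set.ncard_union_eq hdisj (Set.toFinite _) (Set.toFinite _)
  rw [horb x, horb y] at h1
  have h2 := Set.ncard_le_ncard (Set.subset_univ
    (Set.range (fun i : Fin (orderOf T) => (T ^ (i : ℕ)) x) ∪
      Set.range (fun i : Fin (orderOf T) => (T ^ (i : ℕ)) y))) (Set.toFinite _)
  rw [h1, Set.ncard_univ] at h2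
  omega

/-- The step lemma. -/
theorem step [Finite G] {T : Perm G} {α : MulAut G} (hT : IsAff T α)
    (hc : Nat.card G < 2 * orderOf T) :
    (∀ x y, ∃ i : ℕ, (T ^ i) x = y) ∨ Sing α ∨
      (∃ g H z i j, Q8 (tr g T) α H z i j) ∨ (∃ g V m p, Cen (tr g T) α V m p) := by
  by_cases hns : ∃ (j : ℕ) (x : G), T ^ j ≠ 1 ∧ (T ^ j) x = x
  · obtain ⟨g, H, k, hFP, hHt⟩ := exists_FP hT hns
    have hc' : Nat.card G < 2 * orderOf (tr g T) := by rw [orderOf_tr]; exact hc
    by_cases hA : ∀ x, x⁻¹ * (α ^ k) x ∈ H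
    · rcases hFP.caseA hc' hA with h | ⟨V, m, p, h⟩
      · exact Or.inr (Or.inl h)
      · exact Or.inr (Or.inr (Or.inr ⟨g, V, m, p, h⟩))
    · push Not at hA
      obtain ⟨g₀, hg₀⟩ := hA
      have hB := fun x => hFP.caseB (fun K _ => thmA K) hHt hc' hg₀ x
      rcases hFP.caseB_dec hHt hc' hB with h | ⟨z, i, j, h⟩
      · exact Or.inr (Or.inl h)
      · exact Or.inr (Or.inr (Or.inl ⟨g, H, z, i, j, h⟩))
  · push Not at hns
    left
    apply trans_of_semireg hc
    intro j x hx
    by_contra hne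
    exact hns j x hne hx

theorem prodCongr_pow {A B : Type} (S : Perm A) (R : Perm B) (n : ℕ) :
    (S.prodCongr R : Perm (A × B)) ^ n = (S ^ n).prodCongr (R ^ n) := by
  induction n with
  | zero => ext x <;> simp
  | succ n ih =>
    rw [pow_succ, ih, pow_succ, pow_succ]
    ext x <;> simp

theorem prodCongr_eq_one {A B : Type} [Nonempty A] [Nonempty B] (S : Perm A) (R : Perm B) :
    (S.prodCongr R : Perm (A × B)) = 1 ↔ S = 1 ∧ R = 1 := by
  constructor
  · intro h
    constructor
    · ext a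
      obtain ⟨b⟩ := (inferInstance : Nonempty B)
      have := congrArg (fun f : Perm (A × B) => (f (a, b)).1) h
      simpa using this
    · ext b
      obtain ⟨a⟩ := (inferInstance : Nonempty A)
      have := congrArg (fun f : Perm (A × B) => (f (a, b)).2) h
      simpa using this
  · rintro ⟨rfl, rfl⟩
    ext x <;> simp

theorem orderOf_prodCongr {A B : Type} [Nonempty A] [Nonempty B] (S : Perm A) (R : Perm B) :
    orderOf (S.prodCongr R : Perm (A × B)) = Nat.lcm (orderOf S) (orderOf R) := by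
  apply Nat.dvd_antisymm
  · apply orderOf_dvd_of_pow_eq_one
    rw [prodCongr_pow, prodCongr_eq_one]
    exact ⟨orderOf_dvd_iff_pow_eq_one.mp (Nat.dvd_lcm_left _ _),
      orderOf_dvd_iff_pow_eq_one.mp (Nat.dvd_lcm_right _ _)⟩
  · apply Nat.lcm_dvd
    · apply orderOf_dvd_of_pow_eq_one
      have := pow_orderOf_eq_one (S.prodCongr R : Perm (A × B))
      rw [prodCongr_pow, prodCongr_eq_one] at this
      exact this.1
    · apply orderOf_dvd_of_pow_eq_one
      have := pow_orderOf_eq_one (S.prodCongr R : Perm (A × B))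
      rw [prodCongr_pow, prodCongr_eq_one] at this
      exact this.2

/-- conjugate permutations have the same order -/
theorem orderOf_of_equiv {A B : Type} (e : A ≃ B) (S : Perm A) (R : Perm B)
    (h : ∀ x, e (S x) = R (e x)) : orderOf S = orderOf R := by
  apply orderOf_eq_orderOf_iff.mpr
  intro n
  constructor
  · intro hn
    ext y
    obtain ⟨x, rfl⟩ := e.surjective y
    rw [← semiconj_pow e S R h n x, hn]; rfl
  · intro hn
    ext x
    apply e.injective
    rw [semiconj_pow e S R h n x, hn]; rfl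

/-- the isomorphism of an internal direct decomposition -/
theorem DD.equiv {α : MulAut G} {X E : Subgroup G} (h : DD α X E) :
    ∃ μ : X × E ≃* G, ∀ (x : X) (e : E), μ (x, e) = x * e := by
  let f : X × E →* G :=
    { toFun := fun p => p.1 * p.2
      map_one' := by simp
      map_mul' := by
        rintro ⟨x, e⟩ ⟨x', e'⟩
        show ((x * x' : X) : G) * ((e * e' : E) : G) = (x : G) * e * (x' * e')
        rw [Subgroup.coe_mul, Subgroup.coe_mul]
        have := h.comm x' x'.2 e e.2
        calc (x : G) * x' * (e * e') = x * (x' * e) * e' := by group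
          _ = x * (e * x') * e' := by rw [this]
          _ = (x : G) * e * (x' * e') := by group }
  have hf : Function.Bijective f := by
    constructor
    · rw [injective_iff_map_eq_one]
      rintro ⟨x, e⟩ hxe
      have h1 : (x : G) * e = 1 := hxe
      have h2 : (e : G) = (x : G)⁻¹ := (eq_inv_of_mul_eq_one_right h1)
      have h3 : (e : G) = 1 := by
        apply h.inf _ _ e.2
        rw [h2]; exact X.inv_mem x.2
      have h4 : (x : G) = 1 := by rw [h3, mul_one] at h1; exact h1
      exact Prod.ext (Subtype.ext h4) (Subtype.ext h3)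
    · intro g
      obtain ⟨x, hx, e, he, hg⟩ := h.sup g
      exact ⟨(⟨x, hx⟩, ⟨e, he⟩), hg.symm⟩
  exact ⟨MulEquiv.ofBijective f hf, fun x e => rfl⟩

theorem DD.card [Finite G] {α : MulAut G} {X E : Subgroup G} (h : DD α X E) :
    Nat.card G = Nat.card X * Nat.card E := by
  obtain ⟨μ, -⟩ := h.equiv
  rw [← Nat.card_prod]
  exact (Nat.card_congr μ.toEquiv).symm

theorem DD.symm {α : MulAut G} {X E : Subgroup G} (h : DD α X E) : DD α E X where
  invX := h.invE
  invE := h.invX
  comm := fun x hx y hy => (h.comm y hy x hx).symm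
  inf := fun x hx hy => h.inf x hy hx
  sup := fun g => by
    obtain ⟨x, hx, e, he, hg⟩ := h.sup g
    exact ⟨e, he, x, hx, by rw [hg, h.comm x hx e he]⟩

theorem DD.split [Finite G] {T : Perm G} {α : MulAut G} (hT : IsAff T α) {X E : Subgroup G}
    (h : DD α X E) :
    ∃ (TX : Perm X) (αX : MulAut X) (TE : Perm E) (αE : MulAut E), IsAff TX αX ∧ IsAff TE αE ∧
      (∀ x : X, (αX x : G) = α x) ∧ (∀ e : E, (αE e : G) = α e) ∧
      (∀ (x : X) (e : E), T (x * e) = TX x * TE e) ∧
      orderOf T = Nat.lcm (orderOf TX) (orderOf TE) := by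
  obtain ⟨αX, hαX⟩ := exists_resAut α X h.invX
  obtain ⟨αE, hαE⟩ := exists_resAut α E h.invE
  obtain ⟨x₁, hx₁, e₁, he₁, ht⟩ := h.sup (T 1)
  obtain ⟨μ, hμ⟩ := h.equiv
  have hTX : IsAff (Equiv.mulLeft (⟨x₁, hx₁⟩ : X) * αX.toEquiv) αX := by
    intro x; simp
  have hTE : IsAff (Equiv.mulLeft (⟨e₁, he₁⟩ : E) * αE.toEquiv) αE := by
    intro x; simp
  have hTT : ∀ (x : X) (e : E), T (x * e) =
      ((Equiv.mulLeft (⟨x₁, hx₁⟩ : X) * αX.toEquiv) x : G) *
      ((Equiv.mulLeft (⟨e₁, he₁⟩ : E) * αE.toEquiv) e : G) := by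
    intro x e
    have h1 : (((Equiv.mulLeft (⟨x₁, hx₁⟩ : X) * αX.toEquiv) x : X) : G) = x₁ * α x := by
      rw [← hαX]; rfl
    have h2 : (((Equiv.mulLeft (⟨e₁, he₁⟩ : E) * αE.toEquiv) e : E) : G) = e₁ * α e := by
      rw [← hαE]; rfl
    rw [h1, h2, hT, ht, map_mul]
    have h3 := h.comm (α x) (h.invX x x.2) e₁ he₁
    calc x₁ * e₁ * (α x * α e) = x₁ * (e₁ * α x) * α e := by group
      _ = x₁ * (α x * e₁) * α e := by rw [h3]
      _ = x₁ * α x * (e₁ * α e) := by group
  refine ⟨_, αX, _, αE, hTX, hTE, hαX, hαE, hTT, ?_⟩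
  rw [← orderOf_prodCongr]
  symm
  apply orderOf_of_equiv μ.toEquiv
  rintro ⟨x, e⟩
  show μ (_, _) = T (μ (x, e))
  rw [hμ, hμ, hTT]

/-- numerical consequences -/
theorem ratio_split {c a b x e : ℕ} (hc : c = Nat.lcm a b) (ha : a ≤ x) (hb : b ≤ e)
    (hxpos : 0 < x) (hepos : 0 < e) (hlarge : x * e < 2 * c) :
    Nat.Coprime a b ∧ c = a * b ∧ x < 2 * a ∧ e < 2 * b := by
  have h1 := Nat.gcd_mul_lcm a b
  rw [← hc] at h1
  have hcpos : 0 < c := by
    rcases Nat.eq_zero_or_pos c with h | h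
    · have := Nat.mul_pos hxpos hepos
      omega
    · exact h
  have hapos : 0 < a := by
    rcases Nat.eq_zero_or_pos a with h | h
    · rw [h, Nat.lcm_zero_left] at hc; omega
    · exact h
  have hgpos : 0 < Nat.gcd a b := Nat.gcd_pos_of_pos_left _ hapos
  have hab : a * b ≤ x * e := Nat.mul_le_mul ha hb
  have hg : Nat.gcd a b = 1 := by
    by_contra hne
    have h2 : 2 ≤ Nat.gcd a b := by omega
    have h3 : 2 * c ≤ Nat.gcd a b * c := Nat.mul_le_mul_right _ h2
    omega
  rw [hg, one_mul] at h1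
  refine ⟨hg, h1, ?_, ?_⟩
  · by_contra hcon
    push Not at hcon
    have h2 : 2 * a * b ≤ x * e := Nat.mul_le_mul hcon hb
    have h3 : 2 * a * b = 2 * (a * b) := by ring
    rw [h3] at h2
    omega
  · by_contra hcon
    push Not at hcon
    have h2 : a * (2 * b) ≤ x * e := Nat.mul_le_mul ha hcon
    have h3 : a * (2 * b) = 2 * (a * b) := by ring
    rw [h3] at h2
    omega

end H67
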