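import Mathlib
import Pool.Agent.H67.PTools
import Pool.Agent.H67.Step

namespace H67

open Equiv

variable {G : Type} [Group G]

/-- the conclusion of Theorem P -/
def PConc (α : MulAut G) (M : Subgroup G) (p : ℕ) : Prop :=
  ∃ (X E : Subgroup G) (j : ℕ), DD α X E ∧ X ≤ M ∧ 1 ≤ j ∧ Nat.card E = p ^ j ∧
    (IsCyclic E ∨ (j = 2 ∧ ∀ x ∈ E, x ^ p = 1)) ∧
    (∀ n, (∀ x ∈ E, (α ^ n) x = x) ↔ p ^ (j - 1) * (p - 1) ∣ n)

theorem orderOf_toEquiv {Q : Type} [Group Q] (β : MulAut Q) :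
    orderOf (β.toEquiv : Perm Q) = orderOf β := by
  apply orderOf_eq_orderOf_iff.mpr
  intro n
  constructor
  · intro hn
    ext x
    rw [← mulAut_toEquiv_pow, hn]; rfl
  · intro hn
    ext x
    rw [mulAut_toEquiv_pow, hn]; rfl

theorem isAff_toEquiv {Q : Type} [Group Q] (β : MulAut Q) : IsAff (β.toEquiv : Perm Q) β := by
  intro x
  simp

/-- α on V has period exactly p - 1 -/
theorem Cen.period [Finite G] {T : Perm G} {α : MulAut G} {V : Subgroup G} {m p : ℕ}
    (h : Cen T α V m p) {v : G} (hv : v ∈ V) (hv1 : v ≠ 1) (n : ℕ) :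
    (α ^ n) v = v ↔ p - 1 ∣ n := by
  have h1 := period_card (α.toEquiv : Perm G) v {x | x ∈ V ∧ x ≠ 1} (by
    intro y
    constructor
    · rintro ⟨hy, hy1⟩
      obtain ⟨i, hi⟩ := h.trans v hv y hy hv1 hy1
      exact ⟨i, by rw [mulAut_toEquiv_pow]; exact hi⟩
    · rintro ⟨i, rfl⟩
      rw [mulAut_toEquiv_pow]
      exact ⟨pow_inv_mem h.inv i v hv, fun hh => hv1 ((MulEquiv.map_eq_one_iff _).mp hh)⟩) n
  rw [mulAut_toEquiv_pow] at h1
  rw [h1]
  have h3 : {x : G | x ∈ V ∧ x ≠ 1}.ncard = p - 1 := by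
    have h5 : {x : G | x ∈ V ∧ x ≠ 1} = (V : Set G) \ {1} := by ext; simp
    rw [h5, Set.ncard_sdiff_singleton_of_mem V.one_mem]
    have : (V : Set G).ncard = p := h.card
    rw [this]
  rw [h3]

/-- the order data of the lifting argument -/
theorem Cen.lift_orders [Finite G] {T : Perm G} {α : MulAut G} {V : Subgroup G} {m p : ℕ}
    (h : Cen T α V m p) (hc : Nat.card G < 2 * orderOf T) [hVn : V.Normal]
    {S : Perm (G ⧸ V)} {αb : MulAut (G ⧸ V)} (hS : IsAff S αb)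
    (hST : ∀ x : G, S (x : G ⧸ V) = (T x : G ⧸ V))
    (hαb : ∀ x : G, αb (x : G ⧸ V) = (α x : G ⧸ V))
    {Xb Eb : Subgroup (G ⧸ V)} {j : ℕ} (hD : DD αb Xb Eb) (hj : 1 ≤ j)
    (hcardE : Nat.card Eb = p ^ j)
    (hord : ∀ n, (∀ x ∈ Eb, (αb ^ n) x = x) ↔ p ^ (j - 1) * (p - 1) ∣ n) :
    ∃ (cX : ℕ) (TX : Perm Xb) (αX : MulAut Xb), IsAff TX αX ∧ (∀ x : Xb, (αX x : G ⧸ V) = αb x) ∧
      orderOf TX = cX ∧ Nat.card Xb < 2 * cX ∧ Nat.Coprime cX (p ^ j * (p - 1)) ∧
      (∀ n, (∀ x ∈ Eb.comap (QuotientGroup.mk' V), (α ^ n) x = x) ↔ p ^ j * (p - 1) ∣ n) ∧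
      (∀ g : G, ∃ x ∈ Xb.comap (QuotientGroup.mk' V), (α ^ cX) x = x ∧
        ∃ e ∈ Eb.comap (QuotientGroup.mk' V), g = x * e) := by
  have hp := h.prime
  have hpf : Fact p.Prime := ⟨hp⟩
  have hsc : ∀ n x, (((T ^ n) x : G) : G ⧸ V) = (S ^ n) (x : G ⧸ V) := fun n x =>
    semiconj_pow (fun y : G => (y : G ⧸ V)) T S (fun y => (hST y).symm) n x
  have hSm : orderOf S = m := by
    apply Nat.dvd_antisymm
    · apply orderOf_dvd_of_pow_eq_one
      ext x
      induction x using QuotientGroup.induction_on with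
      | H x =>
        rw [← hsc, h.pow]
        exact (QuotientGroup.eq.mpr (h.triv x)).symm
    · apply h.quo
      intro x
      rw [← QuotientGroup.eq, hsc, pow_orderOf_eq_one]; rfl
  have hcardG := Subgroup.card_eq_card_quotient_mul_card_subgroup V
  rw [h.card] at hcardG
  have hratio : Nat.card (G ⧸ V) < 2 * orderOf S := by
    rw [hSm]
    rw [h.ord, hcardG] at hc
    have : Nat.card (G ⧸ V) * p < (2 * m) * p := by nlinarith
    exact Nat.lt_of_mul_lt_mul_right this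
  obtain ⟨TX, αX, TE, αE, hTX, hTE, hαX, hαE, -, hlcm⟩ := hD.split hS
  rw [hD.card] at hratio
  obtain ⟨hcop, hprod, hX2, hE2⟩ := ratio_split hlcm ((thmA _).le_card hTX) ((thmA _).le_card hTE)
    Nat.card_pos Nat.card_pos hratio
  set cX := orderOf TX with hcX
  set rE := p ^ (j - 1) * (p - 1) with hrE
  have hrEpos : 0 < rE := Nat.mul_pos (Nat.pow_pos hp.pos) (by have := hp.two_le; omega)
  have hTEpow : ∀ n, TE ^ n = 1 → αE ^ n = 1 := by
    intro n hn
    have h1 := hTE.pow n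
    rw [hn] at h1
    exact h1.unique isAff_one
  have hTXpow : ∀ n, TX ^ n = 1 → αX ^ n = 1 := by
    intro n hn
    have h1 := hTX.pow n
    rw [hn] at h1
    exact h1.unique isAff_one
  have hcE : orderOf TE = rE := by
    have h1 : rE ∣ orderOf TE := by
      rw [← hord]
      intro x hx
      have h2 := hTEpow _ (pow_orderOf_eq_one TE)
      have h3 := resAut_pow hαE (orderOf TE) ⟨x, hx⟩
      rw [h2] at h3
      exact h3.symm
    obtain ⟨d, hd⟩ := h1
    have h2 := (thmA _).le_card hTE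
    rw [hcardE] at h2
    have h3 := two_mul_lt hp h.ne2 j hj
    rw [← hrE] at h3
    have hdpos : 0 < orderOf TE := orderOf_pos TE
    have h4 : d = 1 := by
      have h5 : d ≠ 0 := by rintro rfl; omega
      by_contra hne
      have h6 : 2 ≤ d := by omega
      have := Nat.mul_le_mul_left rE h6
      rw [← hd] at this
      omega
    rw [hd, h4, mul_one]
  rw [hcE] at hcop hprod
  rw [hSm] at hprod
  -- r
  set Et := Eb.comap (QuotientGroup.mk' V) with hEt
  set Xt := Xb.comap (QuotientGroup.mk' V) with hXt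
  have hEtmem : ∀ x, x ∈ Et ↔ (x : G ⧸ V) ∈ Eb := fun x => Iff.rfl
  have hXtmem : ∀ x, x ∈ Xt ↔ (x : G ⧸ V) ∈ Xb := fun x => Iff.rfl
  have hEti : ∀ x ∈ Et, α x ∈ Et := by
    intro x hx
    rw [hEtmem] at hx ⊢
    rw [← hαb]; exact hD.invE _ hx
  have hVEt : V ≤ Et := by
    intro v hv
    rw [hEtmem, (QuotientGroup.eq_one_iff v).mpr hv]; exact Eb.one_mem
  have hVXt : V ≤ Xt := by
    intro v hv
    rw [hXtmem, (QuotientGroup.eq_one_iff v).mpr hv]; exact Xb.one_mem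
  obtain ⟨αEt, hαEt⟩ := exists_resAut α Et hEti
  set r := orderOf αEt with hr
  have hfixEt : ∀ n, (∀ x ∈ Et, (α ^ n) x = x) ↔ r ∣ n := by
    intro n
    rw [hr, orderOf_dvd_iff_pow_eq_one]
    constructor
    · intro hn
      ext x
      rw [resAut_pow hαEt, hn x x.2]; rfl
    · intro hn x hx
      have h1 := resAut_pow hαEt n ⟨x, hx⟩
      rw [hn] at h1
      exact h1.symm
  have hcardEt : Nat.card Et = p ^ j * p := by
    have h1 := card_map_mul (N := Et) hVEt
    rw [Subgroup.map_comap_eq_self_of_surjective (QuotientGroup.mk'_surjective V), hcardE, h.card] at h1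
    exact h1.symm
  have hrle : r ≤ p ^ j * p := by
    rw [← hcardEt, hr, ← orderOf_toEquiv]
    exact (thmA _).le_card (isAff_toEquiv αEt)
  have hrEr : rE ∣ r := by
    rw [← hord]
    intro x hx
    induction x using QuotientGroup.induction_on with
    | H x =>
      rw [quoAut_pow hαb, (hfixEt r).mpr dvd_rfl x hx]
  have hrpos : 0 < r := orderOf_pos _
  have hcXpos : 0 < cX := orderOf_pos _
  -- ψ = α^cX
  have hp1 : p - 1 ≠ 1 := by
    intro hh
    have := h.ne2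
    omega
  have hψV : ∀ v ∈ V, (α ^ cX) v = v → v = 1 := by
    intro v hv hv'
    by_contra hv1
    have h1 := (h.period hv hv1 cX).mp hv'
    have h2 : p - 1 ∣ rE := Dvd.intro_left _ rfl
    have h3 : p - 1 ∣ 1 := by
      have := Nat.dvd_gcd h1 h2
      rwa [hcop] at this
    exact hp1 (Nat.dvd_one.mp h3)
  have hψX : ∀ x ∈ Xt, x⁻¹ * (α ^ cX) x ∈ V := by
    intro x hx
    rw [← QuotientGroup.eq, ← quoAut_pow hαb]
    have h1 := resAut_pow hαX cX ⟨(x : G ⧸ V), hx⟩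
    rw [hTXpow _ (pow_orderOf_eq_one TX)] at h1
    exact h1
  have hXtV : ∀ x ∈ Xt, ∃ v ∈ V, (α ^ cX) (x * v) = x * v := by
    intro x hx
    have hinv := pow_inv_mem h.inv cX
    let f : V → V := fun v => ⟨v * ((α ^ cX) v)⁻¹, V.mul_mem v.2 (V.inv_mem (hinv v v.2))⟩
    have hf : Function.Injective f := by
      rintro ⟨v, hv⟩ ⟨w, hw⟩ hvw
      have h1 : v * ((α ^ cX) v)⁻¹ = w * ((α ^ cX) w)⁻¹ := congrArg Subtype.val hvw
      have h2 : w⁻¹ * v = 1 := by
        apply hψV _ (V.mul_mem (V.inv_mem hw) hv)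
        rw [map_mul, map_inv]
        have h3 : (α ^ cX) v = (w * ((α ^ cX) w)⁻¹)⁻¹ * v := by rw [← h1]; group
        have h4 := h.cent (w * ((α ^ cX) w)⁻¹)⁻¹ v hv
        have h5 := h.cent ((α ^ cX) w)⁻¹ v hv
        rw [h3, h4]
        have h6 := h.cent ((α ^ cX) w)⁻¹ (v * (w * ((α ^ cX) w)⁻¹)⁻¹)
          (V.mul_mem hv (V.inv_mem (V.mul_mem hw (V.inv_mem (hinv w hw)))))
        rw [h6]
        have h7 := h.cent v w⁻¹ (V.inv_mem hw)
        calc v * (w * ((α ^ cX) w)⁻¹)⁻¹ * ((α ^ cX) w)⁻¹ = v * ((α ^ cX) w * w⁻¹ * ((α ^ cX) w)⁻¹) := by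
              group
          _ = v * (w⁻¹ * (α ^ cX) w * ((α ^ cX) w)⁻¹) := by rw [h.cent _ w⁻¹ (V.inv_mem hw)]
          _ = v * w⁻¹ := by group
          _ = w⁻¹ * v := h7
      exact Subtype.ext (inv_mul_eq_one.mp h2).symm
    obtain ⟨⟨v, hv⟩, hv'⟩ := Finite.surjective_of_injective hf ⟨x⁻¹ * (α ^ cX) x, hψX x hx⟩
    have h1 : v * ((α ^ cX) v)⁻¹ = x⁻¹ * (α ^ cX) x := congrArg Subtype.val hv'
    refine ⟨v, hv, ?_⟩
    have h2 : (α ^ cX) x = x * (v * ((α ^ cX) v)⁻¹) := by rw [h1]; group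
    rw [map_mul, h2]; group
  have hsup : ∀ g : G, ∃ x ∈ Xt, (α ^ cX) x = x ∧ ∃ e ∈ Et, g = x * e := by
    intro g
    obtain ⟨xb, hxb, eb, heb, hg⟩ := hD.sup (g : G ⧸ V)
    induction xb using QuotientGroup.induction_on with
    | H x =>
      obtain ⟨v, hv, hxv⟩ := hXtV x hxb
      refine ⟨x * v, Xt.mul_mem hxb (hVXt hv), hxv, (x * v)⁻¹ * g, ?_, by group⟩
      rw [hEtmem, QuotientGroup.mk_mul, QuotientGroup.mk_inv, QuotientGroup.mk_mul,
        (QuotientGroup.eq_one_iff v).mpr hv, mul_one, hg, inv_mul_cancel_left]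
      exact heb
  -- T^l = 1 for l = lcm cX r
  set l := Nat.lcm cX r with hl
  have hαl : α ^ l = 1 := by
    ext g
    obtain ⟨x, hx, hxfix, e, he, rfl⟩ := hsup g
    have h1 : (α ^ l) e = e := (hfixEt l).mpr (Nat.dvd_lcm_right _ _) e he
    have h2 : (α ^ l) x = x := by
      obtain ⟨q, hq⟩ := Nat.dvd_lcm_left cX r
      rw [← hl] at hq
      rw [hq]
      have : ∀ q : ℕ, (α ^ (cX * q)) x = x := by
        intro q
        induction q with
        | zero => simp
        | succ q ih => rw [Nat.mul_succ, pow_add, MulAut.mul_apply, hxfix, ih]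
      exact this q
    rw [map_mul, h1, h2]; rfl
  have hmdvd : m ∣ l := by
    rw [hprod]
    exact Nat.Coprime.mul_dvd_of_dvd_of_dvd hcop (Nat.dvd_lcm_left _ _)
      (hrEr.trans (Nat.dvd_lcm_right _ _))
  have hTl : T ^ l = 1 := by
    have hlin := h.aff.pow l
    rw [hαl] at hlin
    have hw : (T ^ l) 1 ∈ V := by
      have h1 : (((T ^ l) 1 : G) : G ⧸ V) = 1 := by
        rw [hsc]
        obtain ⟨q, hq⟩ := hmdvd
        rw [hq, pow_mul, ← hSm, pow_orderOf_eq_one, one_pow]; rfl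
      exact (QuotientGroup.eq_one_iff _).mp h1
    have hw1 : (T ^ l) 1 = 1 := by
      by_contra hne
      have h1 : T ((T ^ l) 1) = (T ^ l) (T 1) := by
        rw [← Perm.mul_apply, ← Perm.mul_apply, ← pow_succ, ← pow_succ']
      rw [h.aff, hlin (T 1)] at h1
      rw [MulAut.one_apply, ← h.cent (T 1) _ hw] at h1
      have h2 := mul_left_cancel h1
      have h3 := (h.period hw hne 1).mp (by rw [pow_one]; exact h2)
      exact hp1 (Nat.dvd_one.mp h3)
    ext x
    rw [hlin x, hw1]; simp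
  have hcl : m * p ∣ l := by rw [← h.ord]; exact orderOf_dvd_of_pow_eq_one hTl
  -- numbers
  have hgl := Nat.gcd_mul_lcm cX r
  rw [← hl] at hgl
  obtain ⟨q, hq⟩ := hcl
  set g := Nat.gcd cX r with hg
  have hgpos : 0 < g := Nat.gcd_pos_of_pos_left _ hcXpos
  have h1 : g * (rE * p * q) = r := by
    have : cX * (g * (rE * p * q)) = cX * r := by
      rw [← hgl, hq, hprod]; ring
    exact Nat.eq_of_mul_eq_mul_left hcXpos this
  have hrEp : rE * p = p ^ j * (p - 1) := by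
    rw [hrE]
    obtain ⟨i, rfl⟩ : ∃ i, j = i + 1 := ⟨j - 1, by omega⟩
    rw [Nat.add_sub_cancel, pow_succ]; ring
  have hlt : p ^ j * p < 2 * (rE * p) := by
    have := two_mul_lt hp h.ne2 j hj
    rw [← hrE] at this
    have hpp := hp.pos
    nlinarith
  have hgq : g * q = 1 := by
    have h2 : (g * q) * (rE * p) = r := by rw [← h1]; ring
    by_contra hne
    have h3 : g * q ≠ 0 := by
      intro h0
      rw [h0, zero_mul] at h2
      omega
    have h4 : 2 ≤ g * q := by omega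
    have h5 := Nat.mul_le_mul_right (rE * p) h4
    rw [h2] at h5
    omega
  have hg1 : g = 1 := Nat.eq_one_of_mul_eq_one_right hgq
  have hq1 : q = 1 := Nat.eq_one_of_mul_eq_one_left hgq
  have hrfin : r = p ^ j * (p - 1) := by
    rw [← h1, hg1, hq1, hrEp]; ring
  refine ⟨cX, TX, αX, hTX, hαX, rfl, hX2, ?_, ?_, hsup⟩
  · rw [← hrfin]; exact hg1
  · intro n
    rw [hfixEt, hrfin]

end H67
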