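import Mathlib
import Pool.Agent.H67.CaseBDec

namespace H67

open Equiv

variable {G : Type} [Group G]

/-- The homomorphism from the quaternion group. -/
theorem exists_q8hom {i j z : G} (hii : i * i = z) (hjj : j * j = z) (hzz : z * z = 1)
    (hji : j * i = z * i * j) :
    ∃ φ : QuaternionGroup 2 →* G, (∀ m : ZMod (2 * 2), φ (.a m) = i ^ m.val) ∧
      (∀ m : ZMod (2 * 2), φ (.xa m) = j * i ^ m.val) := by
  have hi4 : i ^ 4 = 1 := by
    have : i ^ 4 = (i * i) * (i * i) := by
      rw [show (4 : ℕ) = 2 + 2 from rfl, pow_add, pow_two]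
    rw [this, hii, hzz]
  have hval : ∀ (x : ZMod (2 * 2)) (a : ℕ), (a : ZMod (2 * 2)) = x → i ^ x.val = i ^ a := by
    intro x a hax
    rw [← hax, ZMod.val_natCast]
    conv_rhs => rw [← Nat.mod_add_div a (2 * 2), pow_add, pow_mul]
    have : i ^ (2 * 2) = 1 := hi4
    rw [this, one_pow, mul_one]
  have hiz : i * z = z * i := by rw [← hii]; group
  have hjz : j * z = z * j := by rw [← hjj]; group
  have hij : i * j = j * i ^ 3 := by
    have h1 : j * i ^ 3 = (j * i) * (i * i) := by
      rw [show (3 : ℕ) = 1 + 2 from rfl, pow_add, pow_two, pow_one, mul_assoc]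
    rw [h1, hii, hji]
    calc i * j = i * j * (z * z) := by rw [hzz, mul_one]
      _ = i * (j * z) * z := by simp only [mul_assoc]
      _ = i * (z * j) * z := by rw [hjz]
      _ = (i * z) * j * z := by simp only [mul_assoc]
      _ = z * i * j * z := by rw [hiz]
  have himj : ∀ m : ℕ, i ^ m * j = j * i ^ (3 * m) := by
    intro m
    induction m with
    | zero => simp
    | succ m ih =>
      calc i ^ (m + 1) * j = i * (i ^ m * j) := by rw [pow_succ']; group
        _ = i * (j * i ^ (3 * m)) := by rw [ih]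
        _ = (i * j) * i ^ (3 * m) := by group
        _ = j * i ^ 3 * i ^ (3 * m) := by rw [hij]
        _ = j * i ^ (3 * (m + 1)) := by rw [mul_assoc, ← pow_add]; congr 2; ring
  have h4 : (4 : ZMod (2 * 2)) = 0 := by decide
  let f : QuaternionGroup 2 → G := fun q => match q with
    | .a m => i ^ m.val
    | .xa m => j * i ^ m.val
  have hfa : ∀ m, f (.a m) = i ^ m.val := fun m => rfl
  have hfx : ∀ m, f (.xa m) = j * i ^ m.val := fun m => rfl
  refine ⟨⟨⟨f, ?_⟩, ?_⟩, hfa, hfx⟩
  · show f (.a 0) = 1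
    rw [hfa]; simp
  · intro x y
    rcases x with m | m <;> rcases y with n | n
    · show f (.a m * .a n) = f (.a m) * f (.a n)
      rw [QuaternionGroup.a_mul_a, hfa, hfa, hfa, ← pow_add]
      apply hval
      push_cast
      rw [ZMod.natCast_zmod_val, ZMod.natCast_zmod_val]
    · show f (.a m * .xa n) = f (.a m) * f (.xa n)
      rw [QuaternionGroup.a_mul_xa, hfx, hfa, hfx, ← mul_assoc, himj, mul_assoc, ← pow_add]
      congr 1
      apply hval
      push_cast
      rw [ZMod.natCast_zmod_val, ZMod.natCast_zmod_val]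
      linear_combination m * h4
    · show f (.xa m * .a n) = f (.xa m) * f (.a n)
      rw [QuaternionGroup.xa_mul_a, hfx, hfx, hfa, mul_assoc, ← pow_add]
      congr 1
      apply hval
      push_cast
      rw [ZMod.natCast_zmod_val, ZMod.natCast_zmod_val]
    · show f (.xa m * .xa n) = f (.xa m) * f (.xa n)
      rw [QuaternionGroup.xa_mul_xa, hfa, hfx, hfx]
      have e : j * i ^ m.val * (j * i ^ n.val) = j * (i ^ m.val * j) * i ^ n.val := by
        simp only [mul_assoc]
      have e2 : j * (j * i ^ (3 * m.val)) * i ^ n.val = i ^ (2 + (3 * m.val + n.val)) := by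
        rw [pow_add i 2, pow_add i (3 * m.val), pow_two, hii, ← hjj]
        simp only [mul_assoc]
      rw [e, himj, e2]
      apply hval
      push_cast
      rw [ZMod.natCast_zmod_val, ZMod.natCast_zmod_val]
      linear_combination m * h4

variable {T : Perm G} {α : MulAut G} {H : Subgroup G} {z i j : G}

theorem Q8.zH_comm (h : Q8 T α H z i j) : ∀ x ∈ H, x * z = z * x := by
  intro x hx
  rw [← h.ii, ← mul_assoc, h.comm_i x hx, mul_assoc, h.comm_i x hx, mul_assoc]

theorem Q8.zi (h : Q8 T α H z i j) : z * i = i * z := by rw [← h.ii]; group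

theorem Q8.zj (h : Q8 T α H z i j) : z * j = j * z := by rw [← h.jj]; group

theorem Q8.z_comm (h : Q8 T α H z i j) : ∀ g, z * g = g * z := by
  intro g
  obtain ⟨y, hy, hg⟩ := h.cov g
  have h1 := h.zH_comm y hy
  have h2 := h.zi
  have h3 := h.zj
  rcases hg with rfl | rfl | rfl | rfl
  · exact h1.symm
  · rw [← mul_assoc, ← h1, mul_assoc, h2, mul_assoc]
  · rw [← mul_assoc, ← h1, mul_assoc, h3, mul_assoc]
  · rw [← mul_assoc, ← h1, mul_assoc y z, ← mul_assoc z i j, h2, mul_assoc i z j, h3]; group

theorem Q8.αz (h : Q8 T α H z i j) : α z = z := by rw [← h.ii, map_mul, h.αi, h.jj, h.ii]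

theorem Q8.α3i (h : Q8 T α H z i j) : (α ^ 3) i = i := by
  rw [pow_succ, pow_two, MulAut.mul_apply, MulAut.mul_apply, h.αi, h.αj, map_inv, map_mul, h.αi,
    h.αj]
  group

theorem Q8.α3j (h : Q8 T α H z i j) : (α ^ 3) j = j := by
  have h1 := h.α3i
  have h2 := commute_pow_lin α 3 1 i
  rw [pow_one, h1, h.αi] at h2
  exact h2

theorem Q8.card_eq [Finite G] (h : Q8 T α H z i j) : Nat.card G = 4 * Nat.card H := by
  have hii' : i⁻¹ = i * z := by
    apply inv_eq_of_mul_eq_one_right; rw [← mul_assoc, h.ii, h.zz]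
  -- bijection H × Fin 4 → G
  let u : Fin 4 → G := ![1, i, j, i * j]
  let f : H × Fin 4 → G := fun p => (p.1 : G) * u p.2
  have hu : ∀ a b : Fin 4, u a * (u b)⁻¹ ∈ H → a = b := by
    have hi' : i⁻¹ ∉ H := fun hh => h.ni (by simpa using H.inv_mem hh)
    have hj' : j⁻¹ ∉ H := fun hh => h.nj (by simpa using H.inv_mem hh)
    have hij' : (i * j)⁻¹ ∉ H := fun hh => h.nij (by simpa using H.inv_mem hh)
    have hz' : ∀ x, z * x ∈ H → x ∈ H := by
      intro x hx
      have := H.mul_mem (H.inv_mem h.zH) hx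
      rwa [inv_mul_cancel_left] at this
    have hjinv : j⁻¹ = z * j := by
      apply inv_eq_of_mul_eq_one_right
      rw [h.zj, ← mul_assoc, h.jj, h.zz]
    have hiinv : i⁻¹ = z * i := by
      apply inv_eq_of_mul_eq_one_right
      rw [h.zi, ← mul_assoc, h.ii, h.zz]
    have hij2 : i * j = z * j * i := by
      have := h.ji
      calc i * j = (z * z) * i * j := by rw [h.zz, one_mul]
        _ = z * (z * i * j) := by simp only [mul_assoc]
        _ = z * (j * i) := by rw [this]
        _ = z * j * i := by simp only [mul_assoc]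
    have hzinv : z⁻¹ = z := inv_eq_of_mul_eq_one_right h.zz
    have n1 : i * j⁻¹ ∉ H := by
      intro hab
      rw [hjinv, ← mul_assoc, ← h.zi, mul_assoc] at hab
      exact h.nij (hz' _ hab)
    have n2 : i * (i * j)⁻¹ ∉ H := by
      intro hab
      have e : i * (i * j)⁻¹ = z * j⁻¹ := by
        rw [hij2]
        calc i * (z * j * i)⁻¹ = j⁻¹ * z⁻¹ := by group
          _ = j⁻¹ * z := by rw [hzinv]
          _ = z * j⁻¹ := (h.z_comm _).symm
      rw [e] at hab
      exact hj' (hz' _ hab)
    have n3 : j * i⁻¹ ∉ H := by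
      intro hab
      rw [hiinv, ← mul_assoc, ← h.zj, mul_assoc, h.ji] at hab
      have := hz' _ hab
      rw [mul_assoc] at this
      exact h.nij (hz' _ this)
    have n4 : j * (i * j)⁻¹ ∉ H := by
      have e : j * (i * j)⁻¹ = i⁻¹ := by group
      rw [e]; exact hi'
    have n5 : i * j * i⁻¹ ∉ H := by
      intro hab
      have e : i * j * i⁻¹ = z * j := by rw [hij2]; group
      rw [e] at hab
      exact h.nj (hz' _ hab)
    have n6 : i * j * j⁻¹ ∉ H := by
      have e : i * j * j⁻¹ = i := by group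
      rw [e]; exact h.ni
    intro a b hab
    fin_cases a <;> fin_cases b
    · rfl
    · exact absurd (show (1 : G) * i⁻¹ ∈ H from hab) (by rw [one_mul]; exact hi')
    · exact absurd (show (1 : G) * j⁻¹ ∈ H from hab) (by rw [one_mul]; exact hj')
    · exact absurd (show (1 : G) * (i * j)⁻¹ ∈ H from hab) (by rw [one_mul]; exact hij')
    · exact absurd (show i * (1 : G)⁻¹ ∈ H from hab) (by rw [inv_one, mul_one]; exact h.ni)
    · rfl
    · exact absurd hab n1
    · exact absurd hab n2
    · exact absurd (show j * (1 : G)⁻¹ ∈ H from hab) (by rw [inv_one, mul_one]; exact h.nj)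
    · exact absurd hab n3
    · rfl
    · exact absurd hab n4
    · exact absurd (show i * j * (1 : G)⁻¹ ∈ H from hab) (by rw [inv_one, mul_one]; exact h.nij)
    · exact absurd hab n5
    · exact absurd hab n6
    · rfl
  have hf : Function.Bijective f := by
    constructor
    · rintro ⟨x, a⟩ ⟨y, b⟩ hxy
      have h1 : (x : G) * u a = y * u b := hxy
      have h2 : a = b := by
        apply hu
        have : u a * (u b)⁻¹ = (x : G)⁻¹ * y := by
          have h3 : u a = (x : G)⁻¹ * (y * u b) := by rw [← h1]; group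
          rw [h3]; group
        rw [this]
        exact H.mul_mem (H.inv_mem x.2) y.2
      subst h2
      have h3 := mul_right_cancel h1
      rw [Subtype.ext h3]
    · intro g
      obtain ⟨y, hy, hg⟩ := h.cov g
      rcases hg with rfl | rfl | rfl | rfl
      · exact ⟨(⟨g, hy⟩, 0), by simp [f, u]⟩
      · exact ⟨(⟨y, hy⟩, 1), by simp [f, u]⟩
      · exact ⟨(⟨y, hy⟩, 2), by simp [f, u]⟩
      · exact ⟨(⟨y, hy⟩, 3), by simp [f, u]⟩
  have := Nat.card_congr (Equiv.ofBijective f hf)
  rw [Nat.card_prod, Nat.card_fin] at this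
  omega

end H67
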