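import Mathlib
import Pool.Agent.H67.PLift
import Pool.Agent.H67.Q8Tools

namespace H67

open Equiv

variable {G : Type} [Group G]

/-- orders in the quaternion case -/
theorem Q8.orders [Finite G] {T : Perm G} {α : MulAut G} {H : Subgroup G} {z i j : G}
    (h : Q8 T α H z i j) (hc : Nat.card G < 2 * orderOf T) :
    ∃ (S : Perm H) (β : MulAut H), IsAff S β ∧ (∀ x : H, ((S x : H) : G) = T x) ∧
      (∀ x : H, ((β x : H) : G) = α x) ∧ Nat.Coprime (orderOf S) 3 ∧
      2 * Nat.card H < 3 * orderOf S := by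
  have hTH : ∀ x ∈ H, T x ∈ H := by
    intro x hx
    rw [h.aff]
    exact H.mul_mem h.t_mem (h.invH x hx)
  obtain ⟨S, β, hS, hST, hSβ⟩ := exists_res h.aff H hTH
  set k := orderOf S with hk
  have hkpos : 0 < k := orderOf_pos S
  have hβk : β ^ k = 1 := by
    have h1 := hS.pow k
    rw [hk, pow_orderOf_eq_one] at h1
    rw [hk]
    exact h1.unique isAff_one
  have hTk : (T ^ k) 1 = 1 := by
    have := semiconj_pow (fun y : H => (y : G)) S T hST k 1
    rw [hk, pow_orderOf_eq_one] at this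
    rw [hk]
    exact this.symm
  have hαk : ∀ x ∈ H, (α ^ k) x = x := by
    intro x hx
    have := resAut_pow hSβ k ⟨x, hx⟩
    rw [hβk] at this
    exact this.symm
  have hmult : ∀ n, k ∣ n → 3 ∣ n → T ^ n = 1 := by
    intro n hkn h3n
    have hαH : ∀ x ∈ H, (α ^ n) x = x := by
      intro x hx
      obtain ⟨q, rfl⟩ := hkn
      have : ∀ q : ℕ, (α ^ (k * q)) x = x := by
        intro q
        induction q with
        | zero => simp
        | succ q ih => rw [Nat.mul_succ, pow_add, MulAut.mul_apply, hαk x hx, ih]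
      exact this q
    have hα3 : ∀ x, (α ^ 3) x = x → (α ^ n) x = x := by
      intro x hx
      obtain ⟨q, rfl⟩ := h3n
      have : ∀ q : ℕ, (α ^ (3 * q)) x = x := by
        intro q
        induction q with
        | zero => simp
        | succ q ih => rw [Nat.mul_succ, pow_add, MulAut.mul_apply, hx, ih]
      exact this q
    have hαi := hα3 i h.α3i
    have hαj := hα3 j h.α3j
    have hT1 : (T ^ n) 1 = 1 := by
      obtain ⟨q, rfl⟩ := hkn
      have : ∀ q : ℕ, (T ^ (k * q)) 1 = 1 := by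
        intro q
        induction q with
        | zero => simp
        | succ q ih => rw [Nat.mul_succ, pow_add, Perm.mul_apply, hTk, ih]
      exact this q
    ext g
    rw [(h.aff.pow n).fix_one hT1]
    obtain ⟨y, hy, hg⟩ := h.cov g
    have h1 := hαH y hy
    rcases hg with rfl | rfl | rfl | rfl
    · rw [h1]; rfl
    · rw [map_mul, h1, hαi]; rfl
    · rw [map_mul, h1, hαj]; rfl
    · rw [map_mul, map_mul, h1, hαi, hαj]; rfl
  have hcard := h.card_eq
  have hkle : k ≤ Nat.card H := (thmA H).le_card hS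
  have hcop : Nat.Coprime k 3 := by
    rw [Nat.coprime_comm, Nat.prime_three.coprime_iff_not_dvd]
    intro h3
    have h1 := Nat.le_of_dvd hkpos (orderOf_dvd_of_pow_eq_one (hmult k dvd_rfl h3))
    omega
  refine ⟨S, β, hS, hST, hSβ, hcop, ?_⟩
  have h1 : orderOf T ≤ k * 3 := Nat.le_of_dvd (by omega)
    (orderOf_dvd_of_pow_eq_one (hmult (k * 3) (Dvd.intro _ rfl) (Dvd.intro_left _ rfl)))
  omega

/-- α-transitive subgroup properties -/
theorem TransOn.order [Finite G] {α : MulAut G} {E : Subgroup G} (hinv : ∀ x ∈ E, α x ∈ E)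
    (h : TransOn α E) (hne : ∃ x ∈ E, x ≠ 1) {n : ℕ} (hn : ∀ x ∈ E, (α ^ n) x = x) :
    Nat.card E - 1 ∣ n := by
  obtain ⟨β, hβ⟩ := exists_resAut α E hinv
  obtain ⟨x₀, hx₀, hx₀1⟩ := hne
  apply order_of_trans β ⟨⟨x₀, hx₀⟩, fun hh => hx₀1 (congrArg Subtype.val hh)⟩
  · rintro ⟨x, hx⟩ ⟨y, hy⟩ hx1 hy1
    obtain ⟨i, hi⟩ := h x hx y hy (fun hh => hx1 (Subtype.ext hh)) (fun hh => hy1 (Subtype.ext hh))
    exact ⟨i, Subtype.ext (by rw [resAut_pow hβ]; exact hi)⟩
  · intro x
    apply Subtype.ext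
    rw [resAut_pow hβ, hn x x.2]

theorem lin_pow_one {G : Type} [Group G] {T : Perm G} {α : MulAut G} (hT : IsAff T α) {n : ℕ}
    (hn : T ^ n = 1) : α ^ n = 1 := by
  have h1 := hT.pow n
  rw [hn] at h1
  exact h1.unique isAff_one

/-- The Singer case of Theorem P. -/
theorem P_sing [Finite G] {T : Perm G} {α : MulAut G} (hT : IsAff T α)
    (hc : Nat.card G < 2 * orderOf T) {M : Subgroup G} {p : ℕ} (hM : SQ α M p)
    {X₁ E₁ : Subgroup G} (hD : DD α X₁ E₁) (htr : TransOn α E₁) (hne : ∃ x ∈ E₁, α x ≠ x)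
    (IH : ∀ (K : Type) [Group K] [Finite K], Nat.card K < Nat.card G →
      ∀ (T : Perm K) (α : MulAut K), IsAff T α → Nat.card K < 2 * orderOf T →
      ∀ (M : Subgroup K), SQ α M p → PConc α M p) : PConc α M p := by
  have hp := hM.prime
  have hpf : Fact p.Prime := ⟨hp⟩
  have hMn := hM.normal
  have hp1 : p - 1 ≠ 1 := by
    intro hh
    have := hM.ne2
    omega
  obtain ⟨x₀, hx₀E, hx₀α⟩ := hne
  have hx₀1 : x₀ ≠ 1 := by rintro rfl; exact hx₀α (map_one _)
  obtain ⟨TX, αX, TE, αE, hTX, hTE, hαX, hαE, hTT, hlcm⟩ := hD.split hT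
  have hratio := hc
  rw [hD.card] at hratio
  obtain ⟨hcop, hprod, hX2, hE2⟩ := ratio_split hlcm ((thmA _).le_card hTX) ((thmA _).le_card hTE)
    Nat.card_pos Nat.card_pos hratio
  by_cases hEM : E₁ ≤ M
  · -- restrict to X₁
    have hSQ := hM.restrict hαX (by
      intro g
      obtain ⟨x, hx, e, he, rfl⟩ := hD.sup g
      refine ⟨x, hx, ?_⟩
      have e1 : (x * e)⁻¹ * x = e⁻¹ := by
        rw [hD.comm x hx e he]
        have h1 := hD.comm x hx e⁻¹ (E₁.inv_mem he)
        calc (e * x)⁻¹ * x = x⁻¹ * (e⁻¹ * x) := by group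
          _ = x⁻¹ * (x * e⁻¹) := by rw [h1]
          _ = e⁻¹ := by group
      rw [e1]
      exact M.inv_mem (hEM he))
    have hlt : Nat.card X₁ < Nat.card G := by
      apply card_lt_of_ne_top
      intro htop
      apply hx₀1
      exact hD.inf x₀ (by rw [htop]; trivial) hx₀E
    obtain ⟨X', E', j, hD', hX'M, hj, hcardE', htype, hord⟩ :=
      IH X₁ hlt TX αX hTX hX2 _ hSQ
    obtain ⟨X, hDX, hX⟩ := hD.trans hαX hD'
    refine ⟨X, E'.map X₁.subtype, j, hDX, ?_, hj, ?_, ?_, ?_⟩
    · intro x hx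
      obtain ⟨_, ⟨a, ha, rfl⟩, b, hb, rfl⟩ := (hX x).mp hx
      have h1 := hX'M ha
      rw [Subgroup.mem_subgroupOf] at h1
      exact M.mul_mem h1 (hEM hb)
    · rw [← hcardE']
      exact (Nat.card_congr (E'.equivMapOfInjective _ X₁.subtype_injective).toEquiv).symm
    · rcases htype with hcyc | ⟨hj2, hexp⟩
      · left
        exact isCyclic_of_surjective (E'.equivMapOfInjective _ X₁.subtype_injective)
          (E'.equivMapOfInjective _ X₁.subtype_injective).surjective
      · right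
        refine ⟨hj2, ?_⟩
        rintro _ ⟨e, he, rfl⟩
        rw [← map_pow, hexp e he, map_one]
    · intro n
      rw [← hord n]
      constructor
      · intro hn x hx
        apply Subtype.ext
        rw [resAut_pow hαX]
        exact hn _ ⟨x, hx, rfl⟩
      · rintro hn _ ⟨x, hx, rfl⟩
        show (α ^ n) (x : G) = x
        rw [← resAut_pow hαX, hn x hx]
  · -- E₁ ∩ M = 1
    have hEM1 : ∀ x ∈ E₁, x ∈ M → x = 1 := by
      intro x hx hxM
      by_contra hx1
      apply hEM
      intro y hy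
      by_cases hy1 : y = 1
      · rw [hy1]; exact M.one_mem
      · obtain ⟨i, rfl⟩ := htr x hx y hy hx1 hy1
        exact pow_inv_mem hM.inv i x hxM
    have hcardE : Nat.card E₁ = p := by
      let f : E₁ →* G ⧸ M := (QuotientGroup.mk' M).comp E₁.subtype
      have hf : Function.Injective f := by
        rw [injective_iff_map_eq_one]
        intro x hx
        have h1 : ((x : G) : G ⧸ M) = 1 := hx
        exact Subtype.ext (hEM1 x x.2 ((QuotientGroup.eq_one_iff _).mp h1))
      have h1 := Subgroup.card_dvd_of_injective f hf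
      have h2 : Nat.card (G ⧸ M) = p := hM.index
      rw [h2] at h1
      rcases (Nat.dvd_prime hp).mp h1 with h3 | h3
      · exfalso
        rw [Subgroup.card_eq_one] at h3
        apply hx₀1
        rw [h3, Subgroup.mem_bot] at hx₀E
        exact hx₀E
      · exact h3
    have hcyc : IsCyclic E₁ := isCyclic_of_prime_card hcardE
    have hordE : ∀ n, (∀ x ∈ E₁, (α ^ n) x = x) ↔ p - 1 ∣ n := by
      intro n
      constructor
      · intro hn
        have := htr.order hD.invE ⟨x₀, hx₀E, hx₀1⟩ hn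
        rwa [hcardE] at this
      · intro hn
        exact fermat_sub hp hcardE hD.invE hn
    have hXM : X₁ ≤ M := by
      by_contra hXM
      -- X₁ covers G/M
      have hcov : ∀ g : G, ∃ k ∈ X₁, g⁻¹ * k ∈ M := by
        obtain ⟨x₁, hx₁, hx₁M⟩ := Set.not_subset.mp hXM
        have hcardQ : Nat.card (G ⧸ M) = p := hM.index
        intro g
        have h1 : (x₁ : G ⧸ M) ≠ 1 := fun hh => hx₁M ((QuotientGroup.eq_one_iff x₁).mp hh)
        have h2 := mem_powers_of_prime_card hcardQ h1 (g' := (g : G ⧸ M))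
        obtain ⟨n, hn⟩ := Submonoid.mem_powers_iff _ _ |>.mp h2
        refine ⟨x₁ ^ n, X₁.pow_mem hx₁ n, ?_⟩
        rw [← QuotientGroup.eq, QuotientGroup.mk_pow, hn]
      have hSQ := hM.restrict hαX hcov
      have h1 : p - 1 ∣ orderOf TX := by
        apply hSQ.order
        intro x
        rw [lin_pow_one hTX (pow_orderOf_eq_one TX), MulAut.one_apply, inv_mul_cancel]
        exact Subgroup.one_mem _
      have h2 : p - 1 ∣ orderOf TE := by
        rw [← hordE]
        intro x hx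
        have h3 := resAut_pow hαE (orderOf TE) ⟨x, hx⟩
        rw [lin_pow_one hTE (pow_orderOf_eq_one TE)] at h3
        exact h3.symm
      have h3 := Nat.dvd_gcd h1 h2
      rw [hcop] at h3
      exact hp1 (Nat.dvd_one.mp h3)
    refine ⟨X₁, E₁, 1, hD, hXM, le_refl 1, by rw [hcardE, pow_one], Or.inl hcyc, ?_⟩
    intro n
    rw [hordE n]; simp

/-- The quaternion case of Theorem P. -/
theorem P_q8 [Finite G] {T : Perm G} {α : MulAut G}
    (hc : Nat.card G < 2 * orderOf T) {M : Subgroup G} {p : ℕ} (hM : SQ α M p)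
    {H : Subgroup G} {z i j : G} (h : Q8 T α H z i j)
    (IH : ∀ (K : Type) [Group K] [Finite K], Nat.card K < Nat.card G →
      ∀ (T : Perm K) (α : MulAut K), IsAff T α → Nat.card K < 2 * orderOf T →
      ∀ (M : Subgroup K), SQ α M p → PConc α M p) : PConc α M p := by
  have hp := hM.prime
  have hpf : Fact p.Prime := ⟨hp⟩
  have hMn := hM.normal
  have hodd : p % 2 = 1 := by
    rcases hp.eq_two_or_odd with h2 | h2
    · exact absurd h2 hM.ne2
    · exact h2
  obtain ⟨S, β, hS, hST, hSβ, hcop3, hratio⟩ := h.orders hc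
  have hlt : Nat.card H < Nat.card G := by
    apply card_lt_of_ne_top
    intro htop
    apply h.ni; rw [htop]; trivial
  have hS2 : Nat.card H < 2 * orderOf S := by
    have : 0 < Nat.card H := Nat.card_pos
    omega
  -- i, j ∈ M
  have hexp : ∀ g : G, g ^ 4 = 1 → g ∈ M := by
    intro g hg
    rw [← QuotientGroup.eq_one_iff]
    have h1 : (g : G ⧸ M) ^ 4 = 1 := by rw [← QuotientGroup.mk_pow, hg]; rfl
    have h2 : (g : G ⧸ M) ^ p = 1 := by
      have h3 : Nat.card (G ⧸ M) = p := hM.index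
      rw [← h3]; exact pow_card_eq_one'
    have h3 : Nat.Coprime 4 p := by
      have : Nat.Coprime 2 p := by
        rw [Nat.prime_two.coprime_iff_not_dvd]; omega
      have h4 : (4 : ℕ) = 2 ^ 2 := rfl
      rw [h4]; exact this.pow_left 2
    have h4 := Nat.dvd_gcd (orderOf_dvd_of_pow_eq_one h1) (orderOf_dvd_of_pow_eq_one h2)
    rw [h3] at h4
    exact orderOf_eq_one_iff.mp (Nat.dvd_one.mp h4)
  have hi4 : i ^ 4 = 1 := by
    rw [show (4 : ℕ) = 2 + 2 from rfl, pow_add, pow_two, h.ii, h.zz]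
  have hj4 : j ^ 4 = 1 := by
    rw [show (4 : ℕ) = 2 + 2 from rfl, pow_add, pow_two, h.jj, h.zz]
  have hiM := hexp i hi4
  have hjM := hexp j hj4
  have hSQ := hM.restrict hSβ (by
    intro g
    obtain ⟨y, hy, hg⟩ := h.cov g
    refine ⟨y, hy, ?_⟩
    have hkey : ∀ u ∈ M, (y * u)⁻¹ * y ∈ M := by
      intro u hu
      have e2 : (y * u)⁻¹ * y = u⁻¹ * (y⁻¹ * y) := by group
      rw [e2, inv_mul_cancel, mul_one]; exact M.inv_mem hu
    rcases hg with rfl | rfl | rfl | rfl
    · rw [inv_mul_cancel]; exact M.one_mem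
    · exact hkey i hiM
    · exact hkey j hjM
    · exact hkey _ (M.mul_mem hiM hjM))
  obtain ⟨X', E', jj, hD', hX'M, hjj, hcardE', htype, hord⟩ := IH H hlt S β hS hS2 _ hSQ
  obtain ⟨φ, hφa, hφx⟩ := exists_q8hom h.ii h.jj h.zz h.ji
  -- z ∈ X'
  have hzX' : (⟨z, h.zH⟩ : H) ∈ X' := by
    obtain ⟨a, ha, e, he, hae⟩ := hD'.sup ⟨z, h.zH⟩
    have h1 : (a * e) * (a * e) = 1 := by
      rw [← hae]; exact Subtype.ext h.zz
    have h2 := hD'.comm a ha e he
    have h3 : (a * a) * (e * e) = 1 := by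
      rw [← h1]
      calc a * a * (e * e) = a * (a * e) * e := by group
        _ = a * (e * a) * e := by rw [h2]
        _ = a * e * (a * e) := by group
    have h4 : e * e = 1 := by
      apply hD'.inf _ _ (E'.mul_mem he he)
      have h5 : e * e = (a * a)⁻¹ := eq_inv_of_mul_eq_one_right h3
      rw [h5]; exact X'.inv_mem (X'.mul_mem ha ha)
    have h5 : e = 1 := by
      have h6 : (⟨e, he⟩ : E') ^ (p ^ jj) = 1 := by rw [← hcardE']; exact pow_card_eq_one'
      have h7 : e ^ (p ^ jj) = 1 := congrArg Subtype.val h6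
      have h8 : e ^ 2 = 1 := by rw [pow_two]; exact h4
      have h9 : Nat.Coprime 2 (p ^ jj) := by
        apply Nat.Coprime.pow_right
        rw [Nat.prime_two.coprime_iff_not_dvd]; omega
      have h10 := Nat.dvd_gcd (orderOf_dvd_of_pow_eq_one h8) (orderOf_dvd_of_pow_eq_one h7)
      rw [h9] at h10
      exact orderOf_eq_one_iff.mp (Nat.dvd_one.mp h10)
    rw [hae, h5, mul_one]; exact ha
  -- elements of the range of φ
  have hφcomm : ∀ x ∈ H, ∀ q, x * φ q = φ q * x := by
    intro x hx q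
    have ci : Commute x i := h.comm_i x hx
    have cj : Commute x j := h.comm_j x hx
    rcases q with m | m
    · rw [hφa]; exact ci.pow_right _
    · rw [hφx]; exact cj.mul_right (ci.pow_right _)
  have hcomm : ∀ a ∈ X'.map H.subtype, ∀ b ∈ φ.range, a * b = b * a := by
    rintro _ ⟨a, -, rfl⟩ _ ⟨q, rfl⟩
    exact hφcomm a a.2 q
  have hz2 : i ^ 2 = z := by rw [pow_two, h.ii]
  have hzi3 : i ^ 3 = z * i := by
    rw [show (3 : ℕ) = 2 + 1 from rfl, pow_add, pow_one, hz2]
  have hzcancel : ∀ x, z * x ∈ H → x ∈ H := by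
    intro x hx
    have := H.mul_mem (H.inv_mem h.zH) hx
    rwa [inv_mul_cancel_left] at this
  have hφH : ∀ q, φ q ∈ H → φ q = 1 ∨ φ q = z := by
    intro q hq
    rcases q with m | m
    · rw [hφa] at hq ⊢
      fin_cases m
      · left; exact pow_zero i
      · exfalso
        have : i ^ 1 ∈ H := hq
        rw [pow_one] at this; exact h.ni this
      · right; exact hz2
      · exfalso
        have : i ^ 3 ∈ H := hq
        rw [hzi3] at this
        exact h.ni (hzcancel _ this)
    · rw [hφx] at hq ⊢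
      exfalso
      fin_cases m
      · have : j * i ^ 0 ∈ H := hq
        rw [pow_zero, mul_one] at this; exact h.nj this
      · have : j * i ^ 1 ∈ H := hq
        rw [pow_one, h.ji, mul_assoc] at this
        exact h.nij (hzcancel _ this)
      · have : j * i ^ 2 ∈ H := hq
        rw [hz2, ← h.zj] at this
        exact h.nj (hzcancel _ this)
      · have : j * i ^ 3 ∈ H := hq
        rw [hzi3, ← mul_assoc, ← h.zj, mul_assoc, h.ji, mul_assoc] at this
        exact h.nij (hzcancel _ (hzcancel _ this))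
  have hφα : ∀ q, α (φ q) ∈ φ.range := by
    have hir : i ∈ φ.range := ⟨.a 1, by rw [hφa]; exact pow_one i⟩
    have hjr : j ∈ φ.range := ⟨.xa 0, by rw [hφx]; simp⟩
    intro q
    rcases q with m | m
    · rw [hφa, map_pow, h.αi]; exact φ.range.pow_mem hjr _
    · rw [hφx, map_mul, map_pow, h.αi, h.αj]
      exact φ.range.mul_mem (φ.range.inv_mem (φ.range.mul_mem hir hjr)) (φ.range.pow_mem hjr _)
  refine ⟨cprod (X'.map H.subtype) φ.range hcomm, E'.map H.subtype, jj,
    ⟨?_, ?_, ?_, ?_, ?_⟩, ?_, hjj, ?_, ?_, ?_⟩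
  · rintro _ ⟨_, ⟨a, ha, rfl⟩, _, ⟨q, rfl⟩, rfl⟩
    refine ⟨β a, ⟨β a, hD'.invX a ha, rfl⟩, α (φ q), hφα q, ?_⟩
    rw [map_mul, hSβ]; rfl
  · rintro _ ⟨e, he, rfl⟩
    exact ⟨β e, hD'.invE e he, hSβ e⟩
  · rintro _ ⟨_, ⟨a, ha, rfl⟩, _, ⟨q, rfl⟩, rfl⟩ _ ⟨e, he, rfl⟩
    have h1 := hφcomm e e.2 q
    have h2 := congrArg Subtype.val (hD'.comm a ha e he)
    have h2' : (a : G) * e = e * a := h2
    show (a : G) * φ q * e = e * (a * φ q)
    calc (a : G) * φ q * e = a * (φ q * e) := by group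
      _ = a * (e * φ q) := by rw [h1]
      _ = (a * e) * φ q := by group
      _ = (e * a) * φ q := by rw [h2']
      _ = e * (a * φ q) := by group
  · rintro _ ⟨_, ⟨a, ha, rfl⟩, _, ⟨q, rfl⟩, rfl⟩ ⟨e, he, hae⟩
    have h1 : (e : G) = a * φ q := hae
    have h2 : φ q ∈ H := by
      have : φ q = ((a⁻¹ * e : H) : G) := by
        rw [Subgroup.coe_mul, Subgroup.coe_inv, h1]; group
      rw [this]; exact (a⁻¹ * e : H).2
    have h3 : ∃ y ∈ X', (y : G) = a * φ q := by
      rcases hφH q h2 with h4 | h4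
      · exact ⟨a, ha, by rw [h4, mul_one]⟩
      · exact ⟨a * ⟨z, h.zH⟩, X'.mul_mem ha hzX', by rw [h4]; rfl⟩
    obtain ⟨y, hy, hya⟩ := h3
    have h4 : e = y := Subtype.ext (by rw [h1, hya])
    have h5 := hD'.inf y hy (h4 ▸ he)
    show (a : G) * φ q = 1
    rw [← hya, h5]; rfl
  · intro g
    obtain ⟨y, hy, hg⟩ := h.cov g
    have hu : ∃ q, g = y * φ q := by
      have e1 : φ (.a 1) = i := by rw [hφa]; exact pow_one i
      have e2 : φ (.xa 0) = j := by rw [hφx]; simp
      rcases hg with rfl | rfl | rfl | rfl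
      · exact ⟨1, by rw [map_one, mul_one]⟩
      · exact ⟨.a 1, by rw [e1]⟩
      · exact ⟨.xa 0, by rw [e2]⟩
      · exact ⟨.a 1 * .xa 0, by rw [map_mul, e1, e2]⟩
    obtain ⟨q, rfl⟩ := hu
    obtain ⟨a, ha, e, he, hae⟩ := hD'.sup ⟨y, hy⟩
    have h1 : y = (a : G) * e := congrArg Subtype.val hae
    refine ⟨a * φ q, ⟨a, ⟨a, ha, rfl⟩, φ q, ⟨q, rfl⟩, rfl⟩, e, ⟨e, he, rfl⟩, ?_⟩
    rw [h1]
    have h2 := hφcomm e e.2 q
    calc (a : G) * e * φ q = a * (e * φ q) := by group
      _ = a * (φ q * e) := by rw [h2]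
      _ = a * φ q * e := by group
  · rintro _ ⟨_, ⟨a, ha, rfl⟩, _, ⟨q, rfl⟩, rfl⟩
    have h1 := hX'M ha
    rw [Subgroup.mem_subgroupOf] at h1
    apply M.mul_mem h1
    rcases q with m | m
    · rw [hφa]; exact M.pow_mem hiM _
    · rw [hφx]; exact M.mul_mem hjM (M.pow_mem hiM _)
  · rw [← hcardE']
    exact (Nat.card_congr (E'.equivMapOfInjective _ H.subtype_injective).toEquiv).symm
  · rcases htype with hcyc | ⟨hj2, hexp⟩
    · left
      exact isCyclic_of_surjective (E'.equivMapOfInjective _ H.subtype_injective)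
        (E'.equivMapOfInjective _ H.subtype_injective).surjective
    · right
      refine ⟨hj2, ?_⟩
      rintro _ ⟨e, he, rfl⟩
      rw [← map_pow, hexp e he, map_one]
  · intro n
    rw [← hord n]
    constructor
    · intro hn x hx
      apply Subtype.ext
      rw [resAut_pow hSβ]
      exact hn _ ⟨x, hx, rfl⟩
    · rintro hn _ ⟨x, hx, rfl⟩
      show (α ^ n) (x : G) = x
      rw [← resAut_pow hSβ, hn x hx]

end H67
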