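import Mathlib
import Pool.Agent.H67.RingPart

namespace H67

open Equiv

theorem ltype_two_unit {L : Type} [CommRing L] (h : LType L) : IsUnit (2 : L) := by
  rcases h with h | ⟨p, k, hp, hp2, hk, ⟨e⟩⟩ | ⟨p, hp, hp2, ⟨e⟩⟩
  · exact isUnit_of_subsingleton _
  · have h1 : IsUnit (2 : ZMod (p ^ k)) := by
      have h2 : IsUnit ((2 : ℕ) : ZMod (p ^ k)) := by
        rw [ZMod.isUnit_iff_coprime]
        apply Nat.Coprime.pow_right
        rw [Nat.prime_two.coprime_iff_not_dvd]
        intro h3
        rw [Nat.prime_dvd_prime_iff_eq Nat.prime_two hp] at h3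
        exact hp2 h3.symm
      simpa using h2
    have h2 := h1.map e.symm
    rwa [map_ofNat] at h2
  · have h1 : IsUnit (2 : DualNumber (ZMod p)) := by
      have h2 : IsUnit ((2 : ℕ) : ZMod p) := by
        rw [ZMod.isUnit_iff_coprime, Nat.prime_two.coprime_iff_not_dvd]
        intro h3
        rw [Nat.prime_dvd_prime_iff_eq Nat.prime_two hp] at h3
        exact hp2 h3.symm
      have h3 := h2.map (TrivSqZeroExt.inlHom (ZMod p) (ZMod p))
      rw [map_natCast] at h3
      simpa using h3
    have h2 := h1.map e.symm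
    rwa [map_ofNat] at h2

theorem even_units {R L P : Type} [CommRing R] [CommRing L] [CommRing P] [Finite R]
    (e : R ≃+* (P × L)) (hL : LType L) (hns : ¬ Subsingleton L) : 2 ∣ Nat.card Rˣ := by
  have h1 : (-1 : Rˣ) ≠ 1 := by
    intro h
    have h2 : (-1 : R) = 1 := by
      have := congrArg Units.val h
      simpa using this
    have h3 : (-1 : L) = 1 := by
      have h4 := congrArg (fun x => (e x).2) h2
      simpa using h4
    have h4 : (2 : L) = 0 := by
      have : (1 : L) + 1 = 0 := by
        nth_rewrite 1 [← h3]; ring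
      rw [← one_add_one_eq_two]; exact this
    have h5 := ltype_two_unit hL
    rw [h4, isUnit_zero_iff] at h5
    exact hns (subsingleton_of_zero_eq_one h5)
  have h2 : (-1 : Rˣ) ^ 2 = 1 := by simp
  have h3 : orderOf (-1 : Rˣ) = 2 := orderOf_eq_prime h2 h1
  rw [← h3]
  exact orderOf_dvd_natCard _

/-- product of index families -/
def sumRing {ι κ : Type} (F : ι ⊕ κ → Type) [∀ i, CommRing (F i)] :
    (∀ i, F i) ≃+* (∀ i, F (Sum.inl i)) × (∀ i, F (Sum.inr i)) where
  toFun f := (fun i => f (Sum.inl i), fun i => f (Sum.inr i))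
  invFun g := fun i => Sum.casesOn (motive := fun i => F i) i g.1 g.2
  left_inv f := by
    funext i
    rcases i with i | i <;> rfl
  right_inv g := rfl
  map_mul' _ _ := rfl
  map_add' _ _ := rfl

theorem expl_prod {R R' : Type} [CommRing R] [CommRing R'] [Finite R] [Finite R']
    (h : Expl R) (h' : Expl R') (hcop : Nat.Coprime (Nat.card Rˣ) (Nat.card R'ˣ)) :
    Expl (R × R') := by
  obtain ⟨ι, hι, F, hF, hFf, L, hL, hLf, hLt, ⟨e⟩⟩ := h
  obtain ⟨κ, hκ, F', hF', hFf', L', hL', hLf', hLt', ⟨e'⟩⟩ := h'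
  have hone : Subsingleton L ∨ Subsingleton L' := by
    by_contra hcon
    push Not at hcon
    obtain ⟨h1, h2⟩ := hcon
    have h3 := even_units e hLt (not_subsingleton_iff_nontrivial.mpr h1)
    have h4 := even_units e' hLt' (not_subsingleton_iff_nontrivial.mpr h2)
    have h5 := Nat.dvd_gcd h3 h4
    rw [hcop] at h5
    omega
  let FF : ι ⊕ κ → Type := Sum.elim F F'
  let i1 : ∀ i, Field (FF i) := fun i => by
    rcases i with i | i
    · exact hF i
    · exact hF' i
  have i2 : ∀ i, Finite (FF i) := by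
    intro i
    rcases i with i | i
    · exact hFf i
    · exact hFf' i
  let eF : (∀ i, FF i) ≃+* (∀ i, F i) × (∀ i, F' i) := sumRing FF
  have key : ∀ (L₀ : Type) (_ : CommRing L₀) (_ : Finite L₀), LType L₀ →
      (L × L' ≃+* L₀) → Expl (R × R') := by
    intro L₀ i3 i4 hL₀ e₀
    refine ⟨ι ⊕ κ, inferInstance, FF, i1, i2, L₀, i3, i4, hL₀, ⟨?_⟩⟩
    exact (RingEquiv.prodCongr e e').trans ((RingEquiv.prodProdProdComm _ _ _ _).trans
      (RingEquiv.prodCongr eF.symm e₀))
  rcases hone with h1 | h1
  · refine key L' hL' hLf' hLt' ?_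
    exact { toFun := fun x => x.2
            invFun := fun y => (0, y)
            left_inv := fun x => Prod.ext (Subsingleton.elim _ _) rfl
            right_inv := fun y => rfl
            map_mul' := fun _ _ => rfl
            map_add' := fun _ _ => rfl }
  · refine key L hL hLf hLt ?_
    exact { toFun := fun x => x.1
            invFun := fun y => (y, 0)
            left_inv := fun x => Prod.ext rfl (Subsingleton.elim _ _)
            right_inv := fun y => rfl
            map_mul' := fun _ _ => rfl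
            map_add' := fun _ _ => rfl }

theorem card_units_prod (R R' : Type) [CommRing R] [CommRing R'] :
    Nat.card (R × R')ˣ = Nat.card Rˣ * Nat.card R'ˣ := by
  rw [← Nat.card_prod]
  exact Nat.card_congr MulEquiv.prodUnits.toEquiv

theorem RD.prod {R R' : Type} [CommRing R] [CommRing R'] {ω : Rˣ} {ω' : R'ˣ}
    (h : RD R ω) (h' : RD R' ω') (hcop : Nat.Coprime (Nat.card Rˣ) (Nat.card R'ˣ))
    (hcard : Nat.card R * Nat.card R' < 2 * (Nat.card Rˣ * Nat.card R'ˣ)) :
    RD (R × R') (MulEquiv.prodUnits.symm (ω, ω')) := by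
  have hf := h.fin
  have hf' := h'.fin
  refine ⟨inferInstance, gen_of_order ?_, ?_, expl_prod h.expl h'.expl hcop⟩
  · rw [card_units_prod, MulEquiv.orderOf_eq, Prod.orderOf_mk, h.orderOf, h'.orderOf]
    exact hcop.lcm_eq_mul
  · rw [Nat.card_prod, card_units_prod]
    exact hcard

end H67
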