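import Mathlib
import Pool.Agent.H67.Assem
import Pool.Agent.H67.PMain
import Pool.Agent.H67.RingPart4

namespace H67

open Equiv

variable {G : Type} [Group G]

theorem FullCyc.congr {C D : Type} [Group C] [Group D] {K : Perm C} {L : Perm D} (e : C ≃* D)
    (h : FullCyc C K) (hKL : ∀ x, e (K x) = L (e x)) : FullCyc D L := by
  have hf := h.fin
  obtain ⟨κ, hκ⟩ := h.aff
  refine ⟨Finite.of_equiv C e.toEquiv, ⟨(e.symm.trans κ).trans e, ?_⟩, ?_⟩
  · intro x
    obtain ⟨y, rfl⟩ := e.surjective x
    have h1 : L 1 = e (K 1) := by rw [hKL, _root_.map_one e]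
    rw [← hKL, h1, hκ y, map_mul]
    simp
  · intro x y
    obtain ⟨a, rfl⟩ := e.surjective x
    obtain ⟨b, rfl⟩ := e.surjective y
    obtain ⟨i, hi⟩ := h.trans a b
    refine ⟨i, ?_⟩
    rw [← hi]
    exact (semiconj_pow e K L hKL i a).symm

theorem rd_triv : RD PUnit (1 : PUnitˣ) := by
  refine ⟨inferInstance, fun u => ⟨0, Subsingleton.elim _ _⟩, ?_, ?_⟩
  · simp
  · exact expl_of_ltype _ (Or.inl inferInstance)

theorem cls_of_trans [Finite G] {T : Perm G} {α : MulAut G} (hT : IsAff T α)
    (htr : ∀ x y, ∃ i : ℕ, (T ^ i) x = y) : Cls T α := by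
  let S : Perm (⊤ : Subgroup G) :=
    (Subgroup.topEquiv.toEquiv.trans T).trans Subgroup.topEquiv.toEquiv.symm
  have hS : ∀ x : (⊤ : Subgroup G), ((S x : (⊤ : Subgroup G)) : G) = T x := fun x => rfl
  refine ⟨1, ⊤, ⊥, S, 1, ⟨?_, ?_, ?_, ?_, ?_⟩, ?_, ?_, ?_, Or.inl ?_⟩
  · intro x _; trivial
  · intro x hx
    rw [Subgroup.mem_bot] at hx ⊢
    rw [hx, map_one]
  · intro x _ y hy
    rw [Subgroup.mem_bot] at hy
    rw [hy]; simp
  · intro x _ hx
    exact (Subgroup.mem_bot.mp hx)
  · intro g
    exact ⟨g, trivial, 1, Subgroup.one_mem _, by simp⟩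
  · rintro ⟨e, he⟩
    rw [Subgroup.mem_bot] at he
    subst he
    simp
  · refine ⟨PUnit, inferInstance, 1, rd_triv, ?_⟩
    refine ⟨{ toFun := fun _ => 1
              invFun := fun _ => 1
              left_inv := fun _ => rfl
              right_inv := fun x => ?_
              map_mul' := fun _ _ => by simp }, fun r => by simp⟩
    obtain ⟨x, hx⟩ := x
    rw [Subgroup.mem_bot] at hx
    subst hx
    rfl
  · intro x
    rw [hS, tr_apply]; simp
  · have h1 : FullCyc G T := ⟨inferInstance, ⟨α, hT⟩, htr⟩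
    exact h1.congr Subgroup.topEquiv.symm (fun x => rfl)

theorem cls_of_dd [Finite G] {T : Perm G} {α : MulAut G} (hT : IsAff T α)
    (hc : Nat.card G < 2 * orderOf T) {X₁ E₁ : Subgroup G} (hD : DD α X₁ E₁)
    {αE : MulAut E₁} (hαE : ∀ e : E₁, (αE e : G) = α e) (hRL : RL E₁ αE)
    (IH : ∀ (T : Perm X₁) (α : MulAut X₁), IsAff T α → Nat.card X₁ < 2 * orderOf T →
      Cls T α) : Cls T α := by
  obtain ⟨TX, αX, TE, αE', hTX, hTE, hαX, hαE', hTT, hlcm⟩ := hD.split hT
  have hEE : αE' = αE := by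
    ext x; rw [hαE', hαE]
  subst hEE
  have hratio := hc
  rw [hD.card] at hratio
  obtain ⟨hcop, hprod, hX2, hE2⟩ := ratio_split hlcm ((thmA _).le_card hTX) ((thmA _).le_card hTE)
    Nat.card_pos Nat.card_pos hratio
  obtain ⟨g', X', E', S, αE'', hD', hαE'', hRL', hS, hcore⟩ := IH TX αX hTX hX2
  obtain ⟨e₀, he₀⟩ := hRL.exists_fix hTE
  obtain ⟨E, hDE, hE⟩ := hD.trans hαX hD'.symm
  have hDD := hDE.symm
  -- commutation data
  obtain ⟨R, _, ω, hR, f, hf⟩ := hRL'
  obtain ⟨R', _, ω', hR', f', hf'⟩ := hRL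
  have hRf := hR.fin
  have hRf' := hR'.fin
  -- orders
  have ho' : orderOf TE = Nat.card R'ˣ := by
    rw [orderOf_of_fix hTE he₀]
    exact RL.order hR' hf'
  have hcomm : ∀ (a : X₁) (b : E₁), (a : G) * b = b * a := fun a b => hD.comm a a.2 b b.2
  have hdisj : ∀ (a : X₁) (b : E₁), (a : G) * b = 1 → a = 1 ∧ b = 1 := by
    intro a b hab
    have h2 : (b : G) = (a : G)⁻¹ := (eq_inv_of_mul_eq_one_right hab)
    have h3 : (b : G) = 1 := by
      apply hD.inf _ _ b.2
      rw [h2]; exact X₁.inv_mem a.2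
    rw [h3, mul_one] at hab
    exact ⟨Subtype.ext hab, Subtype.ext h3⟩
  -- the isomorphism
  let F : Multiplicative (R × R') →* E :=
    { toFun := fun r => ⟨((f (Multiplicative.ofAdd r.toAdd.1) : X₁) : G) *
          f' (Multiplicative.ofAdd r.toAdd.2), (hE _).mpr ⟨_, ⟨_, (f _).2, rfl⟩, _, (f' _).2, rfl⟩⟩
      map_one' := by
        apply Subtype.ext
        show ((f (Multiplicative.ofAdd 0) : X₁) : G) * f' (Multiplicative.ofAdd 0) = 1
        rw [ofAdd_zero, ofAdd_zero, map_one, map_one]; simp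
      map_mul' := by
        intro r s
        apply Subtype.ext
        show ((f (Multiplicative.ofAdd (r.toAdd.1 + s.toAdd.1)) : X₁) : G) *
          f' (Multiplicative.ofAdd (r.toAdd.2 + s.toAdd.2)) =
          ((f (Multiplicative.ofAdd r.toAdd.1) : X₁) : G) * f' (Multiplicative.ofAdd r.toAdd.2) *
          (((f (Multiplicative.ofAdd s.toAdd.1) : X₁) : G) * f' (Multiplicative.ofAdd s.toAdd.2))
        rw [ofAdd_add, ofAdd_add, map_mul, map_mul, Subgroup.coe_mul, Subgroup.coe_mul,
          Subgroup.coe_mul]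
        have h1 := hcomm (f (Multiplicative.ofAdd s.toAdd.1)) (f' (Multiplicative.ofAdd r.toAdd.2))
        set a := ((f (Multiplicative.ofAdd r.toAdd.1) : X₁) : G)
        set b := ((f' (Multiplicative.ofAdd r.toAdd.2) : E₁) : G)
        set c := ((f (Multiplicative.ofAdd s.toAdd.1) : X₁) : G)
        set d := ((f' (Multiplicative.ofAdd s.toAdd.2) : E₁) : G)
        calc a * c * (b * d) = a * (c * b) * d := by group
          _ = a * (b * c) * d := by rw [h1]
          _ = _ := by group }
  have hF : ∀ r : R × R', (F (Multiplicative.ofAdd r) : G) =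
    ((f (Multiplicative.ofAdd r.1) : X₁) : G) * f' (Multiplicative.ofAdd r.2) := fun r => rfl
  have hFbij : Function.Bijective F := by
    constructor
    · rw [injective_iff_map_eq_one]
      intro r hr
      obtain ⟨r, rfl⟩ := Multiplicative.ofAdd.surjective r
      have h1 := congrArg Subtype.val hr
      rw [hF] at h1
      obtain ⟨h2, h3⟩ := hdisj _ _ h1
      have h4 : f (Multiplicative.ofAdd r.1) = 1 := Subtype.ext h2
      have h5 := f.injective (h4.trans (map_one f).symm)
      have h6 := f'.injective (h3.trans (map_one f').symm)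
      have h7 : r.1 = 0 := h5
      have h8 : r.2 = 0 := h6
      have h9 : r = 0 := Prod.ext h7 h8
      rw [h9, ofAdd_zero]
    · rintro ⟨x, hx⟩
      obtain ⟨_, ⟨a, ha, rfl⟩, b, hb, rfl⟩ := (hE x).mp hx
      obtain ⟨r, hr⟩ := f.surjective ⟨a, ha⟩
      obtain ⟨s, hs⟩ := f'.surjective ⟨b, hb⟩
      refine ⟨Multiplicative.ofAdd (r.toAdd, s.toAdd), Subtype.ext ?_⟩
      rw [hF]
      show ((f r : X₁) : G) * f' s = _
      rw [hr, hs]; rfl
  obtain ⟨αEn, hαEn⟩ := exists_resAut α E hDD.invE
  refine ⟨(g' : G) * e₀, X'.map X₁.subtype, E, ?_⟩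
  -- the permutation
  let μ := X'.equivMapOfInjective X₁.subtype X₁.subtype_injective
  have hμ : ∀ x : X', ((μ x : X'.map X₁.subtype) : G) = ((x : X₁) : G) := fun x => rfl
  refine ⟨(μ.symm.toEquiv.trans S).trans μ.toEquiv, αEn, hDD, hαEn, ?_, ?_, ?_⟩
  · refine ⟨R × R', inferInstance, MulEquiv.prodUnits.symm (ω, ω'), hR.prod hR' ?_ ?_,
      MulEquiv.ofBijective F hFbij, ?_⟩
    · -- coprimality
      have h1 : Nat.card Rˣ ∣ orderOf TX := by
        rw [← RL.order hR hf]
        apply orderOf_dvd_of_pow_eq_one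
        ext x
        rw [resAut_pow hαE'', lin_pow_one hTX (pow_orderOf_eq_one TX)]; rfl
      rw [← ho']
      exact Nat.Coprime.coprime_dvd_left h1 hcop
    · -- cardinalities
      have hcardE' : Nat.card E' = Nat.card R := (Nat.card_congr f.toEquiv).symm
      have hcardE₁ : Nat.card E₁ = Nat.card R' := (Nat.card_congr f'.toEquiv).symm
      have h1 : Nat.card X' * Nat.card R * Nat.card R' < 2 * (orderOf TX * orderOf TE) := by
        rw [← hcardE', ← hcardE₁, ← hprod, ← hD'.card, ← hD.card]; exact hc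
      -- order of TX
      have h2 : orderOf TX ≤ Nat.card X' * Nat.card Rˣ := by
        rw [← orderOf_tr g' TX]
        have h3 : orderOf (tr g' TX) ∣ orderOf S * Nat.card Rˣ := by
          apply orderOf_dvd_of_pow_eq_one
          ext1 y
          obtain ⟨x, hx, e, he, rfl⟩ := hD'.sup y
          have h4 : ((tr g' TX) ^ (orderOf S * Nat.card Rˣ)) x = x := by
            have := semiconj_pow (fun y : X' => (y : X₁)) S (tr g' TX) hS
              (orderOf S * Nat.card Rˣ) ⟨x, hx⟩
            rw [pow_mul, pow_orderOf_eq_one, one_pow] at this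
            exact this.symm
          have h5 : (αX ^ (orderOf S * Nat.card Rˣ)) e = e := by
            have := resAut_pow hαE'' (orderOf S * Nat.card Rˣ) ⟨e, he⟩
            rw [← RL.order hR hf, mul_comm, pow_mul, pow_orderOf_eq_one, one_pow] at this
            rw [← RL.order hR hf, mul_comm]
            exact this.symm
          rw [((hTX.tr g').pow _).map_mul, h4, h5]; rfl
        have hXle : orderOf S ≤ Nat.card X' := by
          have h7 : orderOf S ≤ Nat.card X' := by
            have hSaff : IsAff S (exists_resAut αX X' hD'.invX).choose := by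
              have hspec := (exists_resAut αX X' hD'.invX).choose_spec
              intro x
              apply Subtype.ext
              rw [Subgroup.coe_mul, hS, hS, hspec, Subgroup.coe_one]
              exact (hTX.tr g') x
            exact (thmA _).le_card hSaff
          exact h7
        have h8 : 0 < orderOf S * Nat.card Rˣ := by
          have := Finite.card_pos (α := Rˣ)
          exact Nat.mul_pos (orderOf_pos S) this
        exact (Nat.le_of_dvd h8 h3).trans (Nat.mul_le_mul_right _ hXle)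
      rw [ho'] at h1
      have h9 : 0 < Nat.card X' := Nat.card_pos
      by_contra hcon
      push Not at hcon
      have h10 : 2 * (orderOf TX * Nat.card R'ˣ) ≤ 2 * (Nat.card X' * Nat.card Rˣ * Nat.card R'ˣ) :=
        Nat.mul_le_mul_left _ (Nat.mul_le_mul_right _ h2)
      have h11 := Nat.mul_le_mul_left (Nat.card X') hcon
      have h12 : Nat.card X' * (2 * (Nat.card Rˣ * Nat.card R'ˣ)) =
        2 * (Nat.card X' * Nat.card Rˣ * Nat.card R'ˣ) := by ring
      have h13 : Nat.card X' * (Nat.card R * Nat.card R') = Nat.card X' * Nat.card R * Nat.card R' := by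
        ring
      omega
    · intro r
      apply Subtype.ext
      rw [hαEn]
      show α (F (Multiplicative.ofAdd r) : G) = (F _ : G)
      rw [hF, hF, map_mul]
      have h1 := hαE'' (f (Multiplicative.ofAdd r.1))
      rw [hf] at h1
      have h2 := hαE' (f' (Multiplicative.ofAdd r.2))
      rw [hf'] at h2
      rw [← h2, ← hαX, ← h1]
      rfl
  · intro x
    obtain ⟨x, rfl⟩ := μ.surjective x
    show ((μ (S (μ.symm (μ x))) : X'.map X₁.subtype) : G) = _
    rw [MulEquiv.symm_apply_apply, hμ, hμ, hS, tr_apply, tr_apply]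
    have h1 : (g' : G) * e₀ * ((x : X₁) : G) = ((g' * x : X₁) : G) * (e₀ : E₁) := by
      rw [Subgroup.coe_mul, mul_assoc, ← hcomm, ← mul_assoc]
    rw [h1, hTT, he₀, Subgroup.coe_mul, Subgroup.coe_inv, mul_inv_rev]
    have h2 := hcomm (TX (g' * x)) e₀
    rw [h2]
    have h3 := hcomm g'⁻¹ e₀
    rw [Subgroup.coe_inv] at h3
    calc (g' : G)⁻¹ * ((TX (g' * (x : X₁)) : X₁) : G)
        = (e₀ : G)⁻¹ * ((e₀ : G) * (g' : G)⁻¹) * ((TX (g' * (x : X₁)) : X₁) : G) := by group
      _ = (e₀ : G)⁻¹ * ((g' : G)⁻¹ * (e₀ : G)) * ((TX (g' * (x : X₁)) : X₁) : G) := by rw [h3]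
      _ = _ := by group
  · rcases hcore with h1 | h1
    · left
      exact h1.congr μ (fun x => by
        show μ (S x) = μ (S (μ.symm (μ x)))
        rw [MulEquiv.symm_apply_apply])
    · right
      obtain ⟨C, iC, K, z, σ, π, hK, h3, hz1, hzz, hzc, hKz, hσ, hsurj, hker, hSπ⟩ := h1
      refine ⟨C, iC, K, z, σ, μ.toMonoidHom.comp π, hK, h3, hz1, hzz, hzc, hKz, hσ,
        μ.surjective.comp hsurj, ?_, ?_⟩
      · intro c q
        rw [← hker]
        show μ (π (c, q)) = 1 ↔ _
        exact MulEquiv.map_eq_one_iff μ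
      · intro c q
        show μ (S (μ.symm (μ (π (c, q))))) = μ (π (K c, σ q))
        rw [MulEquiv.symm_apply_apply, hSπ]

end H67
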