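import Mathlib
import Pool.Agent.H67.CaseA
import Pool.Agent.H67.PTools

namespace H67

open Equiv

variable {G : Type} [Group G]

/-- commutation of the two lifted subgroups -/
theorem Cen.lift_comm [Finite G] {T : Perm G} {α : MulAut G} {V : Subgroup G} {m p : ℕ}
    (h : Cen T α V m p) [hVn : V.Normal]
    {αb : MulAut (G ⧸ V)}
    (hαb : ∀ x : G, αb (x : G ⧸ V) = (α x : G ⧸ V))
    {Xb Eb : Subgroup (G ⧸ V)} {j : ℕ} (hD : DD αb Xb Eb)
    {cX : ℕ} {TX : Perm Xb} {αX : MulAut Xb} (hTX : IsAff TX αX)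
    (hαX : ∀ x : Xb, (αX x : G ⧸ V) = αb x) (hcX : orderOf TX = cX)
    (hX2 : Nat.card Xb < 2 * cX) (hj : 1 ≤ j) (hcop : Nat.Coprime cX (p ^ j * (p - 1)))
    (hE : ∀ n, (∀ x ∈ Eb.comap (QuotientGroup.mk' V), (α ^ n) x = x) ↔ p ^ j * (p - 1) ∣ n) :
    ∀ x ∈ Xb.comap (QuotientGroup.mk' V), ∀ e ∈ Eb.comap (QuotientGroup.mk' V), x * e = e * x := by
  have hp := h.prime
  set Et := Eb.comap (QuotientGroup.mk' V) with hEt
  set Xt := Xb.comap (QuotientGroup.mk' V) with hXt
  have hEtmem : ∀ x, x ∈ Et ↔ (x : G ⧸ V) ∈ Eb := fun x => Iff.rfl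
  have hXtmem : ∀ x, x ∈ Xt ↔ (x : G ⧸ V) ∈ Xb := fun x => Iff.rfl
  have hVEt : V ≤ Et := by
    intro v hv
    rw [hEtmem, (QuotientGroup.eq_one_iff v).mpr hv]; exact Eb.one_mem
  have hpowV : ∀ v ∈ V, v ^ p = 1 := by
    intro v hv
    have := pow_card_eq_one' (G := V) (x := ⟨v, hv⟩)
    rw [h.card] at this
    exact congrArg Subtype.val this
  -- commutators lie in V
  have hcomV : ∀ x ∈ Xt, ∀ e ∈ Et, x * e * x⁻¹ * e⁻¹ ∈ V := by
    intro x hx e he
    rw [← QuotientGroup.eq_one_iff]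
    have h1 := hD.comm _ hx _ he
    rw [QuotientGroup.mk_mul, QuotientGroup.mk_mul, QuotientGroup.mk_mul, QuotientGroup.mk_inv,
      QuotientGroup.mk_inv]
    have h1' : (x : G ⧸ V) * (e : G ⧸ V) = (e : G ⧸ V) * (x : G ⧸ V) := h1
    rw [h1']; group
  -- conjugation form
  have hconj : ∀ x ∈ Xt, ∀ e ∈ Et, ∃ v ∈ V, x * e * x⁻¹ = v * e := by
    intro x hx e he
    exact ⟨_, hcomV x hx e he, by group⟩
  let N : Subgroup Xb :=
    { carrier := {xb | ∀ x : G, (x : G ⧸ V) = xb → ∀ e ∈ Et, x * e = e * x}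
      mul_mem' := by
        intro a b ha hb x hx e he
        obtain ⟨y, hy⟩ := QuotientGroup.mk_surjective (a : G ⧸ V)
        have h1 := ha y hy e he
        have h2 : ((y⁻¹ * x : G) : G ⧸ V) = (b : G ⧸ V) := by
          rw [QuotientGroup.mk_mul, QuotientGroup.mk_inv, hy, hx, Subgroup.coe_mul,
            inv_mul_cancel_left]
        have h3 := hb _ h2 e he
        calc x * e = y * (y⁻¹ * x * e) := by group
          _ = y * (e * (y⁻¹ * x)) := by rw [h3]
          _ = (y * e) * (y⁻¹ * x) := by group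
          _ = (e * y) * (y⁻¹ * x) := by rw [h1]
          _ = e * x := by group
      one_mem' := by
        intro x hx e he
        have hxV : x ∈ V := (QuotientGroup.eq_one_iff x).mp hx
        exact (h.cent e x hxV).symm
      inv_mem' := by
        intro a ha x hx e he
        have h1 : ((x⁻¹ : G) : G ⧸ V) = (a : G ⧸ V) := by
          rw [QuotientGroup.mk_inv, hx, Subgroup.coe_inv, inv_inv]
        have h2 := ha _ h1 e he
        calc x * e = x * (e * x⁻¹) * x := by group
          _ = x * (x⁻¹ * e) * x := by rw [h2]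
          _ = e * x := by group }
  have hNmem : ∀ xb : Xb, xb ∈ N ↔ ∀ x : G, (x : G ⧸ V) = xb → ∀ e ∈ Et, x * e = e * x :=
    fun x => Iff.rfl
  -- it suffices to check one lift
  have hN1 : ∀ (xb : Xb) (x : G), (x : G ⧸ V) = xb → (∀ e ∈ Et, x * e = e * x) → xb ∈ N := by
    intro xb x hx hxe y hy e he
    have h1 : x⁻¹ * y ∈ V := by rw [← QuotientGroup.eq, hx, hy]
    have h2 := h.cent e _ h1
    calc y * e = x * ((x⁻¹ * y) * e) := by group
      _ = x * (e * (x⁻¹ * y)) := by rw [h2]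
      _ = (x * e) * (x⁻¹ * y) := by group
      _ = (e * x) * (x⁻¹ * y) := by rw [hxe e he]
      _ = e * y := by group
  have hNn : N.Normal := by
    constructor
    intro a ha b
    obtain ⟨x, hx⟩ := QuotientGroup.mk_surjective (a : G ⧸ V)
    obtain ⟨y, hy⟩ := QuotientGroup.mk_surjective (b : G ⧸ V)
    apply hN1 _ (y * x * y⁻¹)
    · rw [QuotientGroup.mk_mul, QuotientGroup.mk_mul, QuotientGroup.mk_inv, hx, hy]; rfl
    · intro e he
      have hyX : y ∈ Xt := by rw [hXtmem, hy]; exact b.2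
      obtain ⟨v, hv, hve⟩ := hconj y⁻¹ (Xt.inv_mem hyX) e he
      rw [inv_inv] at hve
      have h1 := ha x hx e he
      have h2 := h.cent x v hv
      calc y * x * y⁻¹ * e = y * x * (y⁻¹ * e * y) * y⁻¹ := by group
        _ = y * x * (v * e) * y⁻¹ := by rw [hve]
        _ = y * (x * v) * e * y⁻¹ := by group
        _ = y * (v * x) * e * y⁻¹ := by rw [h2]
        _ = y * v * (x * e) * y⁻¹ := by group
        _ = y * v * (e * x) * y⁻¹ := by rw [h1]
        _ = y * (v * e) * x * y⁻¹ := by group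
        _ = y * (y⁻¹ * e * y) * x * y⁻¹ := by rw [hve]
        _ = e * (y * x * y⁻¹) := by group
  have hEti : ∀ x, x ∈ Et ↔ α x ∈ Et := by
    apply mem_iff_of_inv α.injective
    intro x hx
    rw [hEtmem] at hx ⊢
    rw [← hαb]; exact hD.invE _ hx
  have hNi : ∀ x ∈ N, αX x ∈ N := by
    intro a ha
    obtain ⟨x, hx⟩ := QuotientGroup.mk_surjective (a : G ⧸ V)
    apply hN1 _ (α x)
    · rw [hαX, ← hx, hαb]
    · intro e he
      obtain ⟨e', rfl⟩ := α.surjective e
      have h1 := ha x hx e' ((hEti e').mpr he)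
      rw [← map_mul, h1, map_mul]
  set r := p ^ j * (p - 1) with hr
  -- the action on the quotient
  obtain ⟨S', γ, hS', hST', hγ⟩ := exists_quo hTX N hNi
  have hγc : γ ^ cX = 1 := by
    have h1 := hTX.pow cX
    rw [← hcX, pow_orderOf_eq_one] at h1
    have h2 := h1.unique isAff_one
    ext x
    induction x using QuotientGroup.induction_on with
    | H x => rw [quoAut_pow hγ, ← hcX, h2]; rfl
  have hγr : γ ^ r = 1 := by
    ext a
    induction a using QuotientGroup.induction_on with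
    | H a =>
      rw [quoAut_pow hγ]
      symm
      show (a : Xb ⧸ N) = _
      rw [QuotientGroup.eq]
      obtain ⟨x, hx⟩ := QuotientGroup.mk_surjective (a : G ⧸ V)
      have hxX : x ∈ Xt := by rw [hXtmem, hx]; exact a.2
      apply hN1 _ (x⁻¹ * (α ^ r) x)
      · rw [Subgroup.coe_mul, Subgroup.coe_inv, resAut_pow hαX, ← hx, quoAut_pow hαb]; rfl
      · intro e he
        have h1 := hcomV x hxX e he
        have h2 := (hE r).mpr dvd_rfl _ (hVEt h1)
        rw [map_mul, map_mul, map_mul, map_inv, map_inv, (hE r).mpr dvd_rfl e he] at h2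
        have h3 : (α ^ r) x * e * ((α ^ r) x)⁻¹ = x * e * x⁻¹ := mul_right_cancel h2
        calc x⁻¹ * (α ^ r) x * e = x⁻¹ * ((α ^ r) x * e * ((α ^ r) x)⁻¹) * (α ^ r) x := by group
          _ = x⁻¹ * (x * e * x⁻¹) * (α ^ r) x := by rw [h3]
          _ = e * (x⁻¹ * (α ^ r) x) := by group
  have hγ1 : γ = 1 := by
    rw [← orderOf_eq_one_iff]
    have h1 := Nat.dvd_gcd (orderOf_dvd_of_pow_eq_one hγc) (orderOf_dvd_of_pow_eq_one hγr)
    rw [hcop] at h1
    exact Nat.dvd_one.mp h1
  -- exponent p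
  have hexp : ∀ a : Xb ⧸ N, a ^ p = 1 := by
    intro a
    induction a using QuotientGroup.induction_on with
    | H a =>
      rw [← QuotientGroup.mk_pow, QuotientGroup.eq_one_iff]
      obtain ⟨x, hx⟩ := QuotientGroup.mk_surjective (a : G ⧸ V)
      have hxX : x ∈ Xt := by rw [hXtmem, hx]; exact a.2
      apply hN1 _ (x ^ p)
      · rw [QuotientGroup.mk_pow, hx]; rfl
      · intro e he
        obtain ⟨v, hv, hve⟩ := hconj x hxX e he
        have h1 : ∀ n : ℕ, x ^ n * e * (x ^ n)⁻¹ = v ^ n * e := by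
          intro n
          induction n with
          | zero => simp
          | succ n ih =>
            have h2 := h.cent x (v ^ n) (V.pow_mem hv n)
            calc x ^ (n + 1) * e * (x ^ (n + 1))⁻¹ = x * (x ^ n * e * (x ^ n)⁻¹) * x⁻¹ := by
                  rw [pow_succ']; group
              _ = x * (v ^ n * e) * x⁻¹ := by rw [ih]
              _ = (x * v ^ n) * e * x⁻¹ := by group
              _ = (v ^ n * x) * e * x⁻¹ := by rw [h2]
              _ = v ^ n * (x * e * x⁻¹) := by group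
              _ = v ^ n * (v * e) := by rw [hve]
              _ = v ^ (n + 1) * e := by rw [pow_succ]; group
        have h3 := h1 p
        rw [hpowV v hv, one_mul] at h3
        calc x ^ p * e = (x ^ p * e * (x ^ p)⁻¹) * x ^ p := by group
          _ = e * x ^ p := by rw [h3]
  -- S' is trivial
  have hS'n : ∀ (n : ℕ) (y : Xb ⧸ N), (S' ^ n) y = S' 1 ^ n * y := by
    intro n
    induction n with
    | zero => intro y; simp
    | succ n ih =>
      intro y
      rw [pow_succ, Perm.mul_apply, ih, hS' y, hγ1, MulAut.one_apply, pow_succ, mul_assoc]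
  have hS'1 : S' 1 = 1 := by
    have h1 : (S' ^ cX) 1 = 1 := by
      have := semiconj_pow (fun y : Xb => (y : Xb ⧸ N)) TX S' (fun y => (hST' y).symm) cX 1
      rw [← hcX, pow_orderOf_eq_one] at this
      rw [← hcX]
      exact this.symm
    rw [hS'n, mul_one] at h1
    have h2 := Nat.dvd_gcd (orderOf_dvd_of_pow_eq_one h1) (orderOf_dvd_of_pow_eq_one (hexp (S' 1)))
    have h3 : Nat.Coprime cX p := by
      apply Nat.Coprime.coprime_dvd_right _ hcop
      rw [hr]
      obtain ⟨i, rfl⟩ : ∃ i, j = i + 1 := ⟨j - 1, by omega⟩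
      rw [pow_succ]
      exact Dvd.intro_left (p ^ i * (p - 1)) (by ring)
    rw [h3] at h2
    rw [← orderOf_eq_one_iff]
    exact Nat.dvd_one.mp h2
  have htriv : ∀ a : Xb, a⁻¹ * (TX ^ 1) a ∈ N := by
    intro a
    rw [pow_one, ← QuotientGroup.eq]
    have h1 := hS'n 1 (a : Xb ⧸ N)
    rw [pow_one, hST', pow_one, hS'1, one_mul] at h1
    exact h1.symm
  have hle := thmA Xb TX αX hTX N hNi 1 one_pos htriv
  rw [hcX, one_mul] at hle
  have hNtop : N = ⊤ := by
    by_contra hne
    obtain ⟨q, hq⟩ := Subgroup.card_subgroup_dvd_card N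
    have hlt := card_lt_of_ne_top hne
    have hq2 : 2 ≤ q := by
      by_contra hcon
      push Not at hcon
      have hq01 : q = 0 ∨ q = 1 := by omega
      rcases hq01 with h0 | h0
      · rw [h0, mul_zero] at hq
        have : 0 < Nat.card Xb := Nat.card_pos
        omega
      · rw [h0, mul_one] at hq; omega
    have := Nat.mul_le_mul_left (Nat.card N) hq2
    rw [← hq] at this
    omega
  intro x hx e he
  have h1 : (⟨(x : G ⧸ V), hx⟩ : Xb) ∈ N := by rw [hNtop]; trivial
  exact h1 x rfl e he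

/-- the cyclic case of the structure of the lifted factor -/
theorem Cen.lift_cyclic [Finite G] {T : Perm G} {α : MulAut G} {V : Subgroup G} {m p : ℕ}
    (h : Cen T α V m p) [hVn : V.Normal]
    {αb : MulAut (G ⧸ V)}
    (hαb : ∀ x : G, αb (x : G ⧸ V) = (α x : G ⧸ V))
    {Eb : Subgroup (G ⧸ V)} {j : ℕ} (hinvE : ∀ x ∈ Eb, αb x ∈ Eb)
    (hj : 1 ≤ j) (hcardEb : Nat.card Eb = p ^ j) (hcyc : IsCyclic Eb)
    (hE : ∀ n, (∀ x ∈ Eb.comap (QuotientGroup.mk' V), (α ^ n) x = x) ↔ p ^ j * (p - 1) ∣ n) :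
    IsCyclic (Eb.comap (QuotientGroup.mk' V)) ∨
      (j + 1 = 2 ∧ ∀ x ∈ Eb.comap (QuotientGroup.mk' V), x ^ p = 1) := by
  have hp := h.prime
  have hpf : Fact p.Prime := ⟨hp⟩
  set Et := Eb.comap (QuotientGroup.mk' V) with hEt
  have hEtmem : ∀ x, x ∈ Et ↔ (x : G ⧸ V) ∈ Eb := fun x => Iff.rfl
  have hVEt : V ≤ Et := by
    intro v hv
    rw [hEtmem, (QuotientGroup.eq_one_iff v).mpr hv]; exact Eb.one_mem
  have hcardEt : Nat.card Et = p ^ j * p := by
    have h1 := card_map_mul (N := Et) hVEt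
    rw [Subgroup.map_comap_eq_self_of_surjective (QuotientGroup.mk'_surjective V), hcardEb, h.card]
      at h1
    exact h1.symm
  have hpowV : ∀ v ∈ V, v ^ p = 1 := by
    intro v hv
    have := pow_card_eq_one' (G := V) (x := ⟨v, hv⟩)
    rw [h.card] at this
    exact congrArg Subtype.val this
  by_cases hc : IsCyclic Et
  · exact Or.inl hc
  right
  -- every element has order dividing p ^ j
  have hexp : ∀ x ∈ Et, x ^ (p ^ j) = 1 := by
    intro x hx
    have h1 : orderOf (⟨x, hx⟩ : Et) ∣ p ^ (j + 1) := by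
      have := orderOf_dvd_natCard (⟨x, hx⟩ : Et)
      rwa [hcardEt, ← pow_succ] at this
    obtain ⟨i, hi, hio⟩ := (Nat.dvd_prime_pow hp).mp h1
    have h2 : i ≠ j + 1 := by
      rintro rfl
      apply hc
      apply isCyclic_of_orderOf_eq_card (⟨x, hx⟩ : Et)
      rw [hio, hcardEt, pow_succ]
    have h3 : orderOf (⟨x, hx⟩ : Et) ∣ p ^ j := by
      rw [hio]; exact Nat.pow_dvd_pow p (by omega)
    have h4 := orderOf_dvd_iff_pow_eq_one.mp h3
    exact congrArg Subtype.val h4
  by_cases hj1 : j = 1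
  · subst hj1
    refine ⟨rfl, ?_⟩
    intro x hx
    have := hexp x hx
    rwa [pow_one] at this
  · exfalso
    obtain ⟨⟨yb, hyb⟩, hgen⟩ := hcyc.exists_monoid_generator
    obtain ⟨y, rfl⟩ := QuotientGroup.mk_surjective yb
    have hyE : y ∈ Et := hyb
    have hyall : ∀ e ∈ Et, ∃ (n : ℕ), ∃ v ∈ V, e = y ^ n * v := by
      intro e he
      obtain ⟨n, hn⟩ := Submonoid.mem_powers_iff _ _ |>.mp (hgen ⟨(e : G ⧸ V), he⟩)
      have h1 : (y : G ⧸ V) ^ n = (e : G ⧸ V) := congrArg Subtype.val hn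
      refine ⟨n, (y ^ n)⁻¹ * e, ?_, by group⟩
      rw [← QuotientGroup.eq, QuotientGroup.mk_pow, h1]
    obtain ⟨i, rfl⟩ : ∃ i, j = i + 2 := ⟨j - 2, by omega⟩
    -- αb acts as ω on the generator
    have hαE : α y ∈ Et := by rw [hEtmem, ← hαb]; exact hinvE _ hyb
    obtain ⟨ω, v₁, hv₁, hω⟩ := hyall _ hαE
    have hyord : orderOf (y : G ⧸ V) = p ^ (i + 2) := by
      have h1 := orderOf_eq_card_of_forall_mem_zpowers (g := (⟨(y : G ⧸ V), hyb⟩ : Eb)) (by
        intro x
        obtain ⟨n, hn⟩ := Submonoid.mem_powers_iff _ _ |>.mp (hgen x)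
        refine ⟨n, ?_⟩
        show (⟨(y : G ⧸ V), hyb⟩ : Eb) ^ ((n : ℕ) : ℤ) = x
        rw [zpow_natCast]; exact hn)
      rw [hcardEb] at h1
      rw [← h1]
      exact (Subgroup.orderOf_mk _ _).symm
    have hαω : ∀ n : ℕ, (αb ^ n) (y : G ⧸ V) = (y : G ⧸ V) ^ (ω ^ n) := by
      have h1 : αb (y : G ⧸ V) = (y : G ⧸ V) ^ ω := by
        rw [hαb, hω, QuotientGroup.mk_mul, (QuotientGroup.eq_one_iff v₁).mpr hv₁, mul_one,
          QuotientGroup.mk_pow]
      intro n
      induction n with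
      | zero => simp
      | succ n ih => rw [pow_succ', MulAut.mul_apply, ih, map_pow, h1, ← pow_mul, pow_succ']
    have hωcop : Nat.Coprime ω p := by
      rw [Nat.coprime_comm, hp.coprime_iff_not_dvd]
      rintro ⟨q, hq⟩
      have h1 := hαω 1
      rw [pow_one, pow_one] at h1
      have h2 : orderOf (αb (y : G ⧸ V)) = p ^ (i + 2) := by
        rw [MulEquiv.orderOf_eq, hyord]
      have h3 : (αb (y : G ⧸ V)) ^ (p ^ (i + 1)) = 1 := by
        rw [h1, ← pow_mul, hq]
        have : p * q * p ^ (i + 1) = p ^ (i + 2) * q := by ring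
        rw [this, pow_mul, ← hyord, pow_orderOf_eq_one, one_pow]
      have h4 := orderOf_dvd_of_pow_eq_one h3
      rw [h2] at h4
      have h5 := Nat.le_of_dvd (Nat.pow_pos hp.pos) h4
      have h6 : p ^ (i + 1) < p ^ (i + 2) := Nat.pow_lt_pow_right hp.one_lt (by omega)
      omega
    -- η = α ^ i₀
    set i₀ := p ^ i * (p - 1) with hi₀
    have heuler : ω ^ i₀ ≡ 1 [MOD p ^ (i + 1)] := by
      have h1 := Nat.ModEq.pow_totient (hωcop.pow_right (i + 1))
      rw [Nat.totient_prime_pow_succ hp] at h1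
      exact h1
    obtain ⟨s, hs⟩ : ∃ s, ω ^ i₀ = 1 + p ^ (i + 1) * s := by
      have h1 : 1 ≤ ω ^ i₀ := by
        apply Nat.one_le_pow
        rcases Nat.eq_zero_or_pos ω with h0 | h0
        · rw [h0, Nat.coprime_zero_left] at hωcop
          exact absurd hωcop hp.one_lt.ne'
        · exact h0
      have h2 := (Nat.modEq_iff_dvd' h1).mp heuler.symm
      obtain ⟨s, hs⟩ := h2
      exact ⟨s, by omega⟩
    obtain ⟨w, hw⟩ : ∃ w, w = y⁻¹ * (α ^ i₀) y := ⟨_, rfl⟩
    have hηy : (α ^ i₀) y = y * w := by rw [hw]; group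
    have hwV : ∃ v ∈ V, w = y ^ (p ^ (i + 1) * s) * v := by
      refine ⟨(y ^ (p ^ (i + 1) * s))⁻¹ * w, ?_, by group⟩
      have hs' : (y : G ⧸ V) ^ (ω ^ i₀) = y * y ^ (p ^ (i + 1) * s) := by
        rw [hs, pow_add (y : G ⧸ V), pow_one]
      rw [← QuotientGroup.eq, hw, QuotientGroup.mk_mul, QuotientGroup.mk_inv,
        ← quoAut_pow hαb, hαω, hs', inv_mul_cancel_left, QuotientGroup.mk_pow]
    obtain ⟨v', hv', hwv⟩ := hwV
    have hcentV : ∀ v ∈ V, ∀ g : G, g * v = v * g := fun v hv g => h.cent g v hv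
    have hcom_yw : Commute y w := by
      rw [hwv]
      apply Commute.mul_right
      · exact (Commute.refl y).pow_right _
      · exact h.cent y v' hv'
    have hηV : ∀ v ∈ V, (α ^ i₀) v = v := fermat_sub hp h.card h.inv (Dvd.intro_left _ rfl)
    have hwp : w ^ (p ^ (i + 1)) = 1 := by
      rw [hwv]
      have hcom : Commute (y ^ (p ^ (i + 1) * s)) v' := h.cent _ v' hv'
      rw [hcom.mul_pow, ← pow_mul]
      have e1 : p ^ (i + 1) * s * p ^ (i + 1) = p ^ (i + 2) * (p ^ i * s) := by ring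
      have e2 : p ^ (i + 1) = p * p ^ i := by ring
      rw [e1, pow_mul, hexp y hyE, one_pow, e2, pow_mul, hpowV v' hv', one_pow, one_mul]
    have hwp1 : w ^ p = 1 := by
      rw [hwv]
      have hcom : Commute (y ^ (p ^ (i + 1) * s)) v' := h.cent _ v' hv'
      rw [hcom.mul_pow, ← pow_mul]
      have e1 : p ^ (i + 1) * s * p = p ^ (i + 2) * s := by ring
      rw [e1, pow_mul, hexp y hyE, one_pow, hpowV v' hv', one_mul]
    have hηw : (α ^ i₀) w = w := by
      conv_lhs => rw [hwv]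
      rw [map_mul, map_pow, hηy, hηV v' hv', hcom_yw.mul_pow, pow_mul w, hwp, one_pow, mul_one]
      exact hwv.symm
    have hηn : ∀ n : ℕ, ((α ^ i₀) ^ n) y = y * w ^ n := by
      intro n
      induction n with
      | zero => simp
      | succ n ih =>
        have h1 : ∀ q : ℕ, (α ^ i₀) (w ^ q) = w ^ q := by intro q; rw [map_pow, hηw]
        rw [pow_succ', MulAut.mul_apply, ih, map_mul, h1, hηy, pow_succ', mul_assoc]
    have hfin : ∀ e ∈ Et, (α ^ (i₀ * p)) e = e := by
      intro e he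
      obtain ⟨n, v, hv, rfl⟩ := hyall e he
      rw [pow_mul]
      have h1 : ((α ^ i₀) ^ p) v = v := by
        rw [← pow_mul]
        apply fermat_sub hp h.card h.inv _ v hv
        rw [hi₀]
        exact Dvd.intro_left (p ^ i * p) (by ring)
      have h2 : ((α ^ i₀) ^ p) y = y := by rw [hηn, hwp1, mul_one]
      rw [map_mul, map_pow, h1, h2]
    have h1 := (hE _).mp hfin
    have h2 : i₀ * p < p ^ (i + 2) * (p - 1) := by
      have hp1 : 0 < p - 1 := by have := hp.two_le; omega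
      have e1 : i₀ * p = p ^ (i + 1) * (p - 1) := by rw [hi₀]; ring
      rw [e1]
      exact Nat.mul_lt_mul_of_pos_right (Nat.pow_lt_pow_right hp.one_lt (by omega)) hp1
    have h3 : 0 < i₀ * p := by
      have hp1 : 0 < p - 1 := by have := hp.two_le; omega
      exact Nat.mul_pos (Nat.mul_pos (Nat.pow_pos hp.pos) hp1) hp.pos
    have h4 := Nat.le_of_dvd h3 h1
    omega

end H67
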