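import Mathlib
import Pool.Agent.H67.PLift
import Pool.Agent.H67.PLift2

namespace H67

open Equiv

variable {G : Type} [Group G]

theorem SQ.quo [Finite G] {α : MulAut G} {M : Subgroup G} {p : ℕ} (h : SQ α M p)
    {V : Subgroup G} [V.Normal] (hV : V ≤ M) {αb : MulAut (G ⧸ V)}
    (hαb : ∀ x : G, αb (x : G ⧸ V) = (α x : G ⧸ V)) :
    SQ αb (M.map (QuotientGroup.mk' V)) p := by
  have hn := h.normal
  have hmem : ∀ x : G, ((x : G ⧸ V) ∈ M.map (QuotientGroup.mk' V)) ↔ x ∈ M := by
    intro x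
    constructor
    · rintro ⟨y, hy, hyx⟩
      have h1 : y⁻¹ * x ∈ V := QuotientGroup.eq.mp hyx
      have h2 := M.mul_mem hy (hV h1)
      rwa [mul_inv_cancel_left] at h2
    · intro hx; exact ⟨x, hx, rfl⟩
  refine ⟨hn.map _ (QuotientGroup.mk'_surjective V), ?_, h.prime, h.ne2, ?_, ?_⟩
  · intro x hx
    induction x using QuotientGroup.induction_on with
    | H x => rw [hαb, hmem]; exact h.inv x ((hmem x).mp hx)
  · rw [Subgroup.index_map_eq M (QuotientGroup.mk'_surjective V)
      (by rw [QuotientGroup.ker_mk']; exact hV), h.index]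
  · intro x y hx hy
    induction x using QuotientGroup.induction_on with
    | H x =>
      induction y using QuotientGroup.induction_on with
      | H y =>
        rw [hmem] at hx hy
        obtain ⟨i, hi⟩ := h.tr x y hx hy
        refine ⟨i, ?_⟩
        rw [quoAut_pow hαb, ← QuotientGroup.mk_inv, ← QuotientGroup.mk_mul, hmem]
        exact hi

theorem Cen.lift_elem [Finite G] {T : Perm G} {α : MulAut G} {V : Subgroup G} {m p : ℕ}
    (h : Cen T α V m p) [hVn : V.Normal]
    {αb : MulAut (G ⧸ V)}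
    (hαb : ∀ x : G, αb (x : G ⧸ V) = (α x : G ⧸ V))
    {Xb Eb Mb : Subgroup (G ⧸ V)} (hD : DD αb Xb Eb) (hM : SQ αb Mb p) (hXM : Xb ≤ Mb)
    (hcardEb : Nat.card Eb = p ^ 2) (hexp : ∀ x ∈ Eb, x ^ p = 1)
    (hE : ∀ n, (∀ x ∈ Eb.comap (QuotientGroup.mk' V), (α ^ n) x = x) ↔ p ^ 2 * (p - 1) ∣ n) :
    False := by
  have hp := h.prime
  have hpf : Fact p.Prime := ⟨hp⟩
  have hp1 : 0 < p - 1 := by have := hp.two_le; omega
  set Et := Eb.comap (QuotientGroup.mk' V) with hEt
  have hEtmem : ∀ x, x ∈ Et ↔ (x : G ⧸ V) ∈ Eb := fun x => Iff.rfl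
  have hpowV : ∀ v ∈ V, v ^ p = 1 := by
    intro v hv
    have := pow_card_eq_one' (G := V) (x := ⟨v, hv⟩)
    rw [h.card] at this
    exact congrArg Subtype.val this
  -- Eb ∩ Mb has order p
  obtain ⟨αE, hαE⟩ := exists_resAut αb Eb hD.invE
  have hSQE := hM.restrict hαE (by
    intro g
    obtain ⟨x, hx, e, he, rfl⟩ := hD.sup g
    refine ⟨e, he, ?_⟩
    rw [hD.comm x hx e he]
    have : (e * x)⁻¹ * e = x⁻¹ := by group
    rw [this]; exact Mb.inv_mem (hXM hx))
  have hcardW : Nat.card (Mb.subgroupOf Eb) = p := by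
    have h1 := Subgroup.card_mul_index (Mb.subgroupOf Eb)
    rw [hSQE.index, hcardEb, pow_two] at h1
    exact Nat.eq_of_mul_eq_mul_right hp.pos h1
  have hfix := fermat_sub hp hcardW hSQE.inv (dvd_refl (p - 1))
  have hcommE : ∀ a ∈ Eb, ∀ b ∈ Eb, a * b = b * a := by
    intro a ha b hb
    have h0 := IsPGroup.isMulCommutative_of_card_eq_prime_sq (p := p) (G := Eb) hcardEb
    have h1 := h0.is_comm.comm ⟨a, ha⟩ ⟨b, hb⟩
    exact congrArg Subtype.val h1
  have hηV : ∀ v ∈ V, (α ^ (p - 1)) v = v := fermat_sub hp h.card h.inv dvd_rfl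
  have hEti : ∀ x ∈ Et, (α ^ (p - 1)) x ∈ Et := by
    apply pow_inv_mem
    intro x hx
    rw [hEtmem] at hx ⊢
    rw [← hαb]; exact hD.invE _ hx
  have hfin : ∀ y ∈ Et, (α ^ ((p - 1) * p)) y = y := by
    intro y hy
    rw [pow_mul]
    set η := α ^ (p - 1) with hη
    obtain ⟨w, hw⟩ : ∃ w, w = y⁻¹ * η y := ⟨_, rfl⟩
    have hηy : η y = y * w := by rw [hw]; group
    have hwE : w ∈ Et := by rw [hw]; exact Et.mul_mem (Et.inv_mem hy) (hEti y hy)
    have hwM : (w : G ⧸ V) ∈ Mb := by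
      have h1 := hM.fermat (dvd_refl (p - 1)) (y : G ⧸ V)
      rw [quoAut_pow hαb] at h1
      rw [hw]; exact h1
    obtain ⟨w', hw'⟩ : ∃ w', w' = w⁻¹ * η w := ⟨_, rfl⟩
    have hηw : η w = w * w' := by rw [hw']; group
    have hw'V : w' ∈ V := by
      rw [hw', ← QuotientGroup.eq, hη, ← quoAut_pow hαb]
      have h1 := hfix ⟨(w : G ⧸ V), hwE⟩ (by rw [Subgroup.mem_subgroupOf]; exact hwM)
      have h2 := resAut_pow hαE (p - 1) ⟨(w : G ⧸ V), hwE⟩
      rw [h1] at h2
      exact h2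
    have hηw' : η w' = w' := hηV w' hw'V
    have hcw' : ∀ g : G, g * w' = w' * g := fun g => h.cent g w' hw'V
    have hηnw : ∀ n : ℕ, (η ^ n) w = w * w' ^ n := by
      intro n
      induction n with
      | zero => simp
      | succ n ih =>
        rw [pow_succ', MulAut.mul_apply, ih, map_mul, map_pow, hηw', hηw, pow_succ', mul_assoc]
    have hηny : ∀ n : ℕ, (η ^ n) y = y * w ^ n * w' ^ (n * (n - 1) / 2) := by
      intro n
      induction n with
      | zero => simp
      | succ n ih =>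
        rw [pow_succ, MulAut.mul_apply, hηy, map_mul, ih, hηnw]
        have h1 : (n + 1) * (n + 1 - 1) / 2 = n * (n - 1) / 2 + n := by
          rw [Nat.add_sub_cancel]
          rcases n with _ | n
          · rfl
          · rw [Nat.add_sub_cancel]
            have : (n + 1 + 1) * (n + 1) = (n + 1) * n + (n + 1) * 2 := by ring
            rw [this, Nat.add_mul_div_right _ _ (by norm_num)]
        have hc1 : Commute w (w' ^ (n * (n - 1) / 2)) := (Commute.pow_right (hcw' w) _)
        rw [h1]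
        calc y * w ^ n * w' ^ (n * (n - 1) / 2) * (w * w' ^ n)
            = y * w ^ n * (w' ^ (n * (n - 1) / 2) * w) * w' ^ n := by group
          _ = y * w ^ n * (w * w' ^ (n * (n - 1) / 2)) * w' ^ n := by rw [hc1.eq]
          _ = y * (w ^ n * w) * (w' ^ (n * (n - 1) / 2) * w' ^ n) := by group
          _ = y * w ^ (n + 1) * w' ^ (n * (n - 1) / 2 + n) := by
              rw [pow_succ w, pow_add w']
    -- commutator form
    obtain ⟨c, hc⟩ : ∃ c, c = w * y * w⁻¹ * y⁻¹ := ⟨_, rfl⟩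
    have hcV : c ∈ V := by
      rw [hc, ← QuotientGroup.eq_one_iff]
      have h1 := hcommE _ hwE _ hy
      have h1' : (w : G ⧸ V) * (y : G ⧸ V) = (y : G ⧸ V) * (w : G ⧸ V) := h1
      rw [QuotientGroup.mk_mul, QuotientGroup.mk_mul, QuotientGroup.mk_mul, QuotientGroup.mk_inv,
        QuotientGroup.mk_inv, h1']
      group
    have hcc : ∀ g : G, g * c = c * g := fun g => h.cent g c hcV
    have hwy : w * y = c * y * w := by rw [hc]; group
    have hwyn : ∀ n : ℕ, w ^ n * y = c ^ n * y * w ^ n := by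
      intro n
      induction n with
      | zero => simp
      | succ n ih =>
        have hcn : Commute w (c ^ n) := Commute.pow_right (hcc w) n
        calc w ^ (n + 1) * y = w * (w ^ n * y) := by rw [pow_succ']; group
          _ = w * (c ^ n * y * w ^ n) := by rw [ih]
          _ = (w * c ^ n) * y * w ^ n := by group
          _ = (c ^ n * w) * y * w ^ n := by rw [hcn.eq]
          _ = c ^ n * (w * y) * w ^ n := by group
          _ = c ^ n * (c * y * w) * w ^ n := by rw [hwy]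
          _ = c ^ (n + 1) * y * w ^ (n + 1) := by rw [pow_succ c, pow_succ' w]; group
    have hform : ∀ n : ℕ, (y * w) ^ n = c ^ (n * (n - 1) / 2) * y ^ n * w ^ n := by
      intro n
      induction n with
      | zero => simp
      | succ n ih =>
        have h1 : (n + 1) * (n + 1 - 1) / 2 = n * (n - 1) / 2 + n := by
          rw [Nat.add_sub_cancel]
          rcases n with _ | n
          · rfl
          · rw [Nat.add_sub_cancel]
            have : (n + 1 + 1) * (n + 1) = (n + 1) * n + (n + 1) * 2 := by ring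
            rw [this, Nat.add_mul_div_right _ _ (by norm_num)]
        have hc1 : Commute (y ^ n) (c ^ n) := Commute.pow_right (hcc _) _
        rw [pow_succ, ih, h1]
        calc c ^ (n * (n - 1) / 2) * y ^ n * w ^ n * (y * w)
            = c ^ (n * (n - 1) / 2) * y ^ n * (w ^ n * y) * w := by group
          _ = c ^ (n * (n - 1) / 2) * y ^ n * (c ^ n * y * w ^ n) * w := by rw [hwyn]
          _ = c ^ (n * (n - 1) / 2) * (y ^ n * c ^ n) * y * w ^ n * w := by group
          _ = c ^ (n * (n - 1) / 2) * (c ^ n * y ^ n) * y * w ^ n * w := by rw [hc1.eq]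
          _ = c ^ (n * (n - 1) / 2 + n) * y ^ (n + 1) * w ^ (n + 1) := by
              rw [pow_add, pow_succ y, pow_succ w]; group
    have hdvd : ∀ v ∈ V, v ^ (p * (p - 1) / 2) = 1 := by
      intro v hv
      have hodd : p % 2 = 1 := by
        rcases hp.eq_two_or_odd with h2 | h2
        · exact absurd h2 h.ne2
        · exact h2
      obtain ⟨q, hq⟩ : ∃ q, p - 1 = 2 * q := ⟨(p - 1) / 2, by omega⟩
      have : p * (p - 1) / 2 = p * q := by
        rw [hq, ← mul_assoc, mul_comm p 2, mul_assoc, Nat.mul_div_cancel_left _ (by norm_num)]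
      rw [this, pow_mul, hpowV v hv, one_pow]
    have hyp : y ^ p ∈ V := by
      rw [← QuotientGroup.eq_one_iff, QuotientGroup.mk_pow]
      exact hexp _ hy
    have hwp : w ^ p = 1 := by
      have h1 := hηV _ hyp
      rw [map_pow, hηy, hform p, hdvd c hcV, one_mul] at h1
      have h2 : y ^ p * w ^ p = y ^ p * 1 := by rw [mul_one]; exact h1
      exact mul_left_cancel h2
    rw [hηny p, hwp, hdvd w' hw'V, mul_one, mul_one]
  have h1 := (hE _).mp hfin
  have h2 : 0 < (p - 1) * p := Nat.mul_pos hp1 hp.pos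
  have h3 := Nat.le_of_dvd h2 h1
  have h4 : (p - 1) * p < p ^ 2 * (p - 1) := by
    rw [pow_two, mul_comm (p - 1) p]
    apply Nat.mul_lt_mul_of_pos_right _ hp1
    have := hp.one_lt
    nlinarith
  omega

/-- The lifting step of Theorem P. -/
theorem Cen.lift [Finite G] {T : Perm G} {α : MulAut G} {V : Subgroup G} {m p : ℕ}
    (h : Cen T α V m p) (hc : Nat.card G < 2 * orderOf T) [hVn : V.Normal]
    {M : Subgroup G} (hM : SQ α M p) (hVM : V ≤ M)
    {S : Perm (G ⧸ V)} {αb : MulAut (G ⧸ V)} (hS : IsAff S αb)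
    (hST : ∀ x : G, S (x : G ⧸ V) = (T x : G ⧸ V))
    (hαb : ∀ x : G, αb (x : G ⧸ V) = (α x : G ⧸ V))
    (IH : PConc αb (M.map (QuotientGroup.mk' V)) p) : PConc α M p := by
  obtain ⟨Xb, Eb, j, hD, hXM, hj, hcardE, htype, hord⟩ := IH
  have hp := h.prime
  obtain ⟨cX, TX, αX, hTX, hαX, hcX, hX2, hcop, hE, hsup⟩ :=
    h.lift_orders hc hS hST hαb hD hj hcardE hord
  have hcomm := h.lift_comm hαb hD hTX hαX hcX hX2 hj hcop hE
  set Et := Eb.comap (QuotientGroup.mk' V) with hEt
  set Xt := Xb.comap (QuotientGroup.mk' V) with hXt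
  have hEtmem : ∀ x, x ∈ Et ↔ (x : G ⧸ V) ∈ Eb := fun x => Iff.rfl
  have hXtmem : ∀ x, x ∈ Xt ↔ (x : G ⧸ V) ∈ Xb := fun x => Iff.rfl
  have hp1 : p - 1 ≠ 1 := by
    intro hh
    have := h.ne2
    omega
  have hcardEt : Nat.card Et = p ^ (j + 1) := by
    have hVEt : V ≤ Et := by
      intro v hv
      rw [hEtmem, (QuotientGroup.eq_one_iff v).mpr hv]; exact Eb.one_mem
    have h1 := card_map_mul (N := Et) hVEt
    rw [Subgroup.map_comap_eq_self_of_surjective (QuotientGroup.mk'_surjective V), hcardE, h.card]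
      at h1
    rw [← h1, pow_succ]
  have hψV : ∀ v ∈ V, (α ^ cX) v = v → v = 1 := by
    intro v hv hv'
    by_contra hv1
    have h1 := (h.period hv hv1 cX).mp hv'
    have h2 : p - 1 ∣ p ^ j * (p - 1) := Dvd.intro_left _ rfl
    have h3 : p - 1 ∣ 1 := by
      have := Nat.dvd_gcd h1 h2
      rwa [hcop] at this
    exact hp1 (Nat.dvd_one.mp h3)
  let X : Subgroup G :=
    { carrier := {x | x ∈ Xt ∧ (α ^ cX) x = x}
      mul_mem' := by
        rintro a b ⟨ha, ha'⟩ ⟨hb, hb'⟩
        exact ⟨Xt.mul_mem ha hb, by rw [map_mul, ha', hb']⟩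
      one_mem' := ⟨Xt.one_mem, map_one _⟩
      inv_mem' := by
        rintro a ⟨ha, ha'⟩
        exact ⟨Xt.inv_mem ha, by rw [map_inv, ha']⟩ }
  refine ⟨X, Et, j + 1, ⟨?_, ?_, ?_, ?_, ?_⟩, ?_, by omega, hcardEt, ?_, ?_⟩
  · rintro x ⟨hx, hx'⟩
    refine ⟨?_, ?_⟩
    · rw [hXtmem] at hx ⊢
      rw [← hαb]; exact hD.invX _ hx
    · have : (α ^ cX) (α x) = α ((α ^ cX) x) := by
        rw [← MulAut.mul_apply, ← MulAut.mul_apply, ← pow_succ, ← pow_succ']
      rw [this, hx']
  · intro x hx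
    rw [hEtmem] at hx ⊢
    rw [← hαb]; exact hD.invE _ hx
  · intro x hx e he
    exact hcomm x hx.1 e he
  · rintro x ⟨hx, hx'⟩ hxE
    have h1 := hD.inf _ hx hxE
    have h2 : x ∈ V := (QuotientGroup.eq_one_iff x).mp h1
    exact hψV x h2 hx'
  · intro g
    obtain ⟨x, hx, hx', e, he, hg⟩ := hsup g
    exact ⟨x, ⟨hx, hx'⟩, e, he, hg⟩
  · rintro x ⟨hx, -⟩
    obtain ⟨y, hy, hyx⟩ := hXM hx
    have h1 : y⁻¹ * x ∈ V := QuotientGroup.eq.mp hyx
    have h2 := M.mul_mem hy (hVM h1)
    rwa [mul_inv_cancel_left] at h2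
  · rcases htype with hcyc | ⟨hj2, hexp⟩
    · exact h.lift_cyclic hαb hD.invE hj hcardE hcyc hE
    · subst hj2
      exact (h.lift_elem hαb hD (hM.quo hVM hαb) hXM hcardE hexp hE).elim
  · rw [Nat.add_sub_cancel]
    exact hE

end H67
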