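import Mathlib
import Pool.Agent.H67.PLift3
import Pool.Agent.H67.PMain

namespace H67

open Equiv

variable {G : Type} [Group G]

theorem SQ.fixed [Finite G] {T : Perm G} {α : MulAut G} (hT : IsAff T α)
    {M : Subgroup G} {p : ℕ} (h : SQ α M p) : ∃ g, g⁻¹ * T g ∈ M := by
  have hn := h.normal
  obtain ⟨S, β, hS, hST, hSβ⟩ := exists_quo hT M h.inv
  have hcardQ : Nat.card (G ⧸ M) = p := h.index
  have hpf : Fact p.Prime := ⟨h.prime⟩
  have hfpf : ∀ q : G ⧸ M, β q = q → q = 1 := by
    intro q hq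
    by_contra hq1
    induction q using QuotientGroup.induction_on with
    | H x =>
      have hx : x ∉ M := fun hh => hq1 ((QuotientGroup.eq_one_iff x).mpr hh)
      have hfixn : ∀ i : ℕ, (β ^ i) (x : G ⧸ M) = (x : G ⧸ M) := by
        intro i
        induction i with
        | zero => simp
        | succ i ih => rw [pow_succ, MulAut.mul_apply, hq, ih]
      have hall : ∀ y : G ⧸ M, y = 1 ∨ y = (x : G ⧸ M) := by
        intro y
        induction y using QuotientGroup.induction_on with
        | H y =>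
          by_cases hy : y ∈ M
          · left; exact (QuotientGroup.eq_one_iff y).mpr hy
          · right
            obtain ⟨i, hi⟩ := h.tr x y hx hy
            rw [← hfixn i, quoAut_pow hSβ]
            exact (QuotientGroup.eq.mpr hi).symm
      have h2 : Nat.card (G ⧸ M) ≤ 2 := by
        rw [← Set.ncard_univ]
        have : (Set.univ : Set (G ⧸ M)) ⊆ {1, (x : G ⧸ M)} := fun y _ => hall y
        refine (Set.ncard_le_ncard this (Set.toFinite _)).trans ?_
        have := Set.ncard_insert_le (1 : G ⧸ M) {(x : G ⧸ M)}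
        rw [Set.ncard_singleton] at this
        exact this
      have := h.prime.two_le
      have := h.ne2
      omega
  have hcyc : IsCyclic (G ⧸ M) := isCyclic_of_prime_card hcardQ
  have hcomm : ∀ a b : G ⧸ M, a * b = b * a := by
    letI := IsCyclic.commGroup (α := G ⧸ M)
    intro a b
    exact mul_comm a b
  obtain ⟨q, hq⟩ : ∃ q, S q = q := by
    let f : G ⧸ M → G ⧸ M := fun q => q * (β q)⁻¹
    have hf : Function.Injective f := by
      intro q q' hqq
      have h1 : q * (β q)⁻¹ = q' * (β q')⁻¹ := hqq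
      have h2 : q'⁻¹ * q = 1 := by
        apply hfpf
        rw [map_mul, map_inv]
        have h3 : β q = (q' * (β q')⁻¹)⁻¹ * q := by rw [← h1]; group
        rw [h3, hcomm]
        have h4 : (q' * (β q')⁻¹)⁻¹ * q * (β q')⁻¹ = β q' * (q'⁻¹ * q) * (β q')⁻¹ := by group
        rw [h4, hcomm (β q')]; group
      exact (inv_mul_eq_one.mp h2).symm
    obtain ⟨q, hq⟩ := Finite.surjective_of_injective hf (S 1)
    refine ⟨q, ?_⟩
    have h1 : q * (β q)⁻¹ = S 1 := hq
    rw [hS, ← h1]; group
  induction q using QuotientGroup.induction_on with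
  | H x =>
    refine ⟨x, ?_⟩
    rw [← QuotientGroup.eq, ← hST, hq]

theorem SQ.triv_pow [Finite G] {T : Perm G} {α : MulAut G} (hT : IsAff T α)
    {M : Subgroup G} {p : ℕ} (h : SQ α M p) {n : ℕ} (hn : p - 1 ∣ n) (x : G) :
    x⁻¹ * (T ^ n) x ∈ M := by
  have hMn := h.normal
  obtain ⟨g, hg⟩ := h.fixed hT
  have h1 : ∀ n, g⁻¹ * (T ^ n) g ∈ M := by
    intro n
    induction n with
    | zero => simp [M.one_mem]
    | succ n ih =>
      rw [pow_succ', Perm.mul_apply]
      have e : (T ^ n) g = g * (g⁻¹ * (T ^ n) g) := by group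
      rw [e, hT.map_mul, ← mul_assoc]
      exact M.mul_mem hg (h.inv _ ih)
  have h2 := h.fermat hn (g⁻¹ * x)
  have h3 : (T ^ n) x = (T ^ n) g * (α ^ n) (g⁻¹ * x) := by
    rw [← (hT.pow n).map_mul]; congr 1; group
  rw [h3]
  have h4 : x⁻¹ * ((T ^ n) g * (α ^ n) (g⁻¹ * x)) =
      (g⁻¹ * x)⁻¹ * (g⁻¹ * (T ^ n) g) * (g⁻¹ * x) * ((g⁻¹ * x)⁻¹ * (α ^ n) (g⁻¹ * x)) := by
    group
  rw [h4]
  apply M.mul_mem _ h2
  have := hMn.conj_mem _ (h1 n) (g⁻¹ * x)⁻¹
  simpa using this

theorem SQ.unique [Finite G] {T : Perm G} {α : MulAut G} (hT : IsAff T α)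
    (hc : Nat.card G < 2 * orderOf T) {M M' : Subgroup G} {p p' : ℕ} (h : SQ α M p)
    (h' : SQ α M' p') : M = M' := by
  have hMn := h.normal
  have hMn' := h'.normal
  by_contra hne
  have hp := h.prime
  have hp' := h'.prime
  have h1 : M.relIndex M' ∣ p := by
    rw [← h.index]; exact Subgroup.relIndex_dvd_index_of_normal M M'
  have hidx : (M ⊓ M').index = p * p' := by
    rcases (Nat.dvd_prime hp).mp h1 with h2 | h2
    · exfalso
      rw [Subgroup.relIndex_eq_one] at h2
      -- M' ≤ M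
      have h3 := Subgroup.relIndex_mul_index h2
      rw [h.index, h'.index] at h3
      have h4 : p ∣ p' := Dvd.intro_left _ h3
      have h5 := (Nat.prime_dvd_prime_iff_eq hp hp').mp h4
      rw [← h5] at h3
      have h6 : M'.relIndex M = 1 := by
        have hpp := hp.pos
        exact Nat.eq_of_mul_eq_mul_right hpp (by rw [h3, one_mul])
      rw [Subgroup.relIndex_eq_one] at h6
      exact hne (le_antisymm h6 h2)
    · have h3 := Subgroup.relIndex_mul_index (inf_le_right : M ⊓ M' ≤ M')
      rw [Subgroup.inf_relIndex_right, h2, h'.index] at h3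
      exact h3.symm
  have hcard := Subgroup.card_mul_index (M ⊓ M')
  rw [hidx] at hcard
  have hodd : ∀ {q : ℕ}, q.Prime → q ≠ 2 → 2 ∣ q - 1 := by
    intro q hq hq2
    rcases hq.eq_two_or_odd with h2 | h2
    · exact absurd h2 hq2
    · omega
  obtain ⟨a, ha⟩ := hodd hp h.ne2
  obtain ⟨b, hb⟩ := hodd hp' h'.ne2
  have hp2 := hp.two_le
  have hp2' := hp'.two_le
  have hpp2 := h.ne2
  have hpp2' := h'.ne2
  have hapos : 0 < a := by omega
  have hbpos : 0 < b := by omega
  have h5 := thmA G T α hT (M ⊓ M') (fun x hx => ⟨h.inv x hx.1, h'.inv x hx.2⟩) (2 * a * b)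
    (by positivity) (fun x => ⟨h.triv_pow hT ⟨b, by rw [ha]⟩ x,
      h'.triv_pow hT ⟨a, by rw [hb]; ring⟩ x⟩)
  have hNpos : 0 < Nat.card (M ⊓ M' : Subgroup G) := Nat.card_pos
  have h6 : 2 * (2 * a * b) < p * p' := by
    have e1 : p = 2 * a + 1 := by omega
    have e2 : p' = 2 * b + 1 := by omega
    rw [e1, e2]
    nlinarith
  have h7 := Nat.mul_lt_mul_of_pos_left h6 hNpos
  nlinarith

/-- the quotient attached to a central configuration -/
theorem Cen.sq [Finite G] {T : Perm G} {α : MulAut G} {V : Subgroup G} {m p : ℕ}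
    (h : Cen T α V m p) : ∃ M', SQ α M' p ∧ V ≤ M' := by
  have hpf : Fact p.Prime := ⟨h.prime⟩
  have hVn : V.Normal := ⟨fun v hv g => by rw [h.cent g v hv, mul_inv_cancel_right]; exact hv⟩
  let f : G →* V :=
    { toFun := fun x => ⟨x⁻¹ * (α ^ m) x, h.triv x⟩
      map_one' := Subtype.ext (by simp)
      map_mul' := by
        intro x y
        apply Subtype.ext
        show (x * y)⁻¹ * (α ^ m) (x * y) = x⁻¹ * (α ^ m) x * (y⁻¹ * (α ^ m) y)
        rw [map_mul]
        have h1 := h.cent y⁻¹ _ (h.triv x)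
        calc (x * y)⁻¹ * ((α ^ m) x * (α ^ m) y) = y⁻¹ * (x⁻¹ * (α ^ m) x) * (α ^ m) y := by group
          _ = (x⁻¹ * (α ^ m) x) * y⁻¹ * (α ^ m) y := by rw [h1]
          _ = _ := by group }
  have hf : ∀ x, (f x : G) = x⁻¹ * (α ^ m) x := fun x => rfl
  have hfα : ∀ x, (f (α x) : G) = α (f x) := by
    intro x
    rw [hf, hf, map_mul, map_inv]
    congr 1
    have := commute_pow_lin α m 1 x
    rw [pow_one] at this
    exact this
  have hfαn : ∀ (i : ℕ) x, (f ((α ^ i) x) : G) = (α ^ i) (f x) := by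
    intro i x
    induction i with
    | zero => rfl
    | succ i ih => rw [pow_succ', MulAut.mul_apply, hfα, ih]; rfl
  have hker : ∀ x, x ∈ f.ker ↔ (α ^ m) x = x := by
    intro x
    rw [MonoidHom.mem_ker]
    constructor
    · intro hx
      have h1 : x⁻¹ * (α ^ m) x = 1 := congrArg Subtype.val hx
      exact (inv_mul_eq_one.mp h1).symm
    · intro hx
      apply Subtype.ext
      rw [hf, hx]; simp
  refine ⟨f.ker, ⟨inferInstance, ?_, h.prime, h.ne2, ?_, ?_⟩, ?_⟩
  · intro x hx
    rw [hker] at hx ⊢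
    have := commute_pow_lin α m 1 x
    rw [pow_one] at this
    rw [this, hx]
  · rw [Subgroup.index_ker]
    have h1 : Nat.card f.range ∣ p := by
      rw [← h.card]; exact Subgroup.card_subgroup_dvd_card _
    rcases (Nat.dvd_prime h.prime).mp h1 with h2 | h2
    · exfalso
      rw [Subgroup.card_eq_one] at h2
      apply h.ne
      ext x
      have h3 : f x = 1 := by
        have : f x ∈ f.range := ⟨x, rfl⟩
        rwa [h2, Subgroup.mem_bot] at this
      exact (hker x).mp h3
    · exact h2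
  · intro x y hx hy
    have hx1 : (f x : G) ≠ 1 := fun hh => hx (Subtype.ext hh)
    have hy1 : (f y : G) ≠ 1 := fun hh => hy (Subtype.ext hh)
    obtain ⟨i, hi⟩ := h.trans (f x) (f x).2 (f y) (f y).2 hx1 hy1
    refine ⟨i, ?_⟩
    rw [MonoidHom.mem_ker, map_mul, map_inv, inv_mul_eq_one]
    apply Subtype.ext
    rw [hfαn, hi]
  · intro v hv
    rw [hker]; exact h.fixV v hv

/-- Theorem P, the central case -/
theorem P_cen [Finite G] {T : Perm G} {α : MulAut G} 
    (hc : Nat.card G < 2 * orderOf T) {M : Subgroup G} {p : ℕ} (hM : SQ α M p)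
    {V : Subgroup G} {m p' : ℕ} (h : Cen T α V m p')
    (IH : ∀ (K : Type) [Group K] [Finite K], Nat.card K < Nat.card G →
      ∀ (T : Perm K) (α : MulAut K), IsAff T α → Nat.card K < 2 * orderOf T →
      ∀ (M : Subgroup K), SQ α M p → PConc α M p) : PConc α M p := by
  obtain ⟨M', hM', hVM⟩ := h.sq
  have hMM := hM.unique h.aff hc hM'
  subst hMM
  have hpp : p = p' := by rw [← hM.index, ← hM'.index]
  subst hpp
  have hVn : V.Normal := ⟨fun v hv g => by rw [h.cent g v hv, mul_inv_cancel_right]; exact hv⟩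
  obtain ⟨S, αb, hS, hST, hαb⟩ := exists_quo h.aff V h.inv
  have hsc : ∀ n x, (((T ^ n) x : G) : G ⧸ V) = (S ^ n) (x : G ⧸ V) := fun n x =>
    semiconj_pow (fun y : G => (y : G ⧸ V)) T S (fun y => (hST y).symm) n x
  have hSm : orderOf S = m := by
    apply Nat.dvd_antisymm
    · apply orderOf_dvd_of_pow_eq_one
      ext x
      induction x using QuotientGroup.induction_on with
      | H x =>
        rw [← hsc, h.pow]
        exact (QuotientGroup.eq.mpr (h.triv x)).symm
    · apply h.quo
      intro x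
      rw [← QuotientGroup.eq, hsc, pow_orderOf_eq_one]; rfl
  have hcardG := Subgroup.card_eq_card_quotient_mul_card_subgroup V
  rw [h.card] at hcardG
  have hppos := hM.prime.pos
  have hp2 := hM.prime.two_le
  have hratio : Nat.card (G ⧸ V) < 2 * orderOf S := by
    rw [hSm]
    rw [h.ord, hcardG] at hc
    have : Nat.card (G ⧸ V) * p < (2 * m) * p := by nlinarith
    exact Nat.lt_of_mul_lt_mul_right this
  have hlt : Nat.card (G ⧸ V) < Nat.card G := by
    have : 0 < Nat.card (G ⧸ V) := Nat.card_pos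
    rw [hcardG]
    nlinarith
  exact h.lift hc hM hVM hS hST hαb (IH (G ⧸ V) hlt S αb hS hratio _ (hM.quo hVM hαb))

theorem thmP_aux : ∀ (n : ℕ) (G : Type) [Group G] [Finite G], Nat.card G = n →
    ∀ (T : Perm G) (α : MulAut G), IsAff T α → Nat.card G < 2 * orderOf T →
      ∀ (M : Subgroup G) (p : ℕ), SQ α M p → PConc α M p := by
  intro n
  induction n using Nat.strong_induction_on with
  | _ n ih =>
    intro G _ _ hn T α hT hc M p hM
    have IH : ∀ (K : Type) [Group K] [Finite K], Nat.card K < Nat.card G →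
      ∀ (T : Perm K) (α : MulAut K), IsAff T α → Nat.card K < 2 * orderOf T →
      ∀ (M : Subgroup K), SQ α M p → PConc α M p := by
      intro K _ _ hK T α hT hc M hM
      exact ih (Nat.card K) (hn ▸ hK) K rfl T α hT hc M p hM
    rcases step hT hc with h | h | h | h
    · exact (hM.not_trans hT h).elim
    · obtain ⟨X, E, hD, htr, hne⟩ := h
      exact P_sing hT hc hM hD htr hne IH
    · obtain ⟨g, H, z, i, j, hQ⟩ := h
      exact P_q8 (T := tr g T) (by rw [orderOf_tr]; exact hc) hM hQ IH
    · obtain ⟨g, V, m, p', hCen⟩ := h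
      exact P_cen (T := tr g T) (by rw [orderOf_tr]; exact hc) hM hCen IH

/-- Theorem P -/
theorem thmP {G : Type} [Group G] [Finite G] {T : Perm G} {α : MulAut G} (hT : IsAff T α)
    (hc : Nat.card G < 2 * orderOf T) {M : Subgroup G} {p : ℕ} (hM : SQ α M p) :
    PConc α M p := thmP_aux _ G rfl T α hT hc M p hM

end H67
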