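import Mathlib
import Pool.Agent.H67.RingPart2

namespace H67

open Equiv

theorem rl_of_val {E : Type} [Group E] {α : MulAut E} {R : Type} [CommRing R] {w : R}
    {e : Multiplicative R ≃* E}
    (h : ∀ r : R, α (e (Multiplicative.ofAdd r)) = e (Multiplicative.ofAdd (w * r))) :
    ∃ ω : Rˣ, (ω : R) = w := by
  obtain ⟨x, hx⟩ := α.surjective (e (Multiplicative.ofAdd 1))
  obtain ⟨r, rfl⟩ := e.surjective x
  obtain ⟨r, rfl⟩ := Multiplicative.ofAdd.surjective r
  rw [h] at hx
  have h1 : w * r = 1 := e.injective hx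
  exact ⟨⟨w, r, h1, by rw [mul_comm]; exact h1⟩, rfl⟩

theorem dual_core' {A : Type} [AddCommGroup A] [Finite A] {p : ℕ} (hp : p.Prime)
    [Module (ZMod p) A] (F : A →+ A) (hFinj : Function.Injective F) (hcard : Nat.card A = p ^ 2)
    (WA : Submodule (ZMod p) A) (hcW : Nat.card WA = p) (hWi : ∀ x ∈ WA, F x ∈ WA)
    (hnot : ¬ ∀ x, F^[p - 1] x = x) :
    ∃ (a : ZMod p) (e : DualNumber (ZMod p) ≃+ A), ∀ r,
      F (e r) = e ((TrivSqZeroExt.inl a + TrivSqZeroExt.inr 1) * r) := by
  have hpf : Fact p.Prime := ⟨hp⟩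
  have hF : ∀ (c : ZMod p) (x : A), F (c • x) = c • F x := by
    intro c x
    exact (F.toZModLinearMap p).map_smul c x
  obtain ⟨y, hy⟩ : ∃ y : A, y ∉ WA := by
    by_contra hcon
    push Not at hcon
    have h1 : Nat.card WA = Nat.card A := 
      Nat.card_congr (Equiv.subtypeUnivEquiv hcon)
    rw [hcW, hcard] at h1
    have h2 := hp.one_lt
    nlinarith
  obtain ⟨w₀, hw₀, hw₀1⟩ : ∃ w₀ ∈ WA, w₀ ≠ 0 := by
    have : Nontrivial WA := by
      rw [← Finite.one_lt_card_iff_nontrivial, hcW]; exact hp.one_lt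
    obtain ⟨⟨w, hw⟩, hne⟩ := exists_ne (0 : WA)
    exact ⟨w, hw, fun h => hne (Subtype.ext h)⟩
  -- every pair (y, w) with w ∈ W nonzero is a basis
  have hbas : ∀ y' : A, y' ∉ WA → ∀ w ∈ WA, w ≠ 0 →
      Function.Bijective (fun r : DualNumber (ZMod p) =>
        TrivSqZeroExt.fst r • y' + TrivSqZeroExt.snd r • w) := by
    intro y' hy' w hw hw1
    have hinj : Function.Injective (fun r : DualNumber (ZMod p) =>
        TrivSqZeroExt.fst r • y' + TrivSqZeroExt.snd r • w) := by
      intro r s hrs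
      have h1 : TrivSqZeroExt.fst r • y' + TrivSqZeroExt.snd r • w =
        TrivSqZeroExt.fst s • y' + TrivSqZeroExt.snd s • w := hrs
      have h2 : (TrivSqZeroExt.fst r - TrivSqZeroExt.fst s) • y' =
        (TrivSqZeroExt.snd s - TrivSqZeroExt.snd r) • w := by
        rw [sub_smul, sub_smul, sub_eq_sub_iff_add_eq_add]
        rw [h1]; abel
      have h3 : TrivSqZeroExt.fst r = TrivSqZeroExt.fst s := by
        by_contra hne
        have h4 : TrivSqZeroExt.fst r - TrivSqZeroExt.fst s ≠ 0 := sub_ne_zero.mpr hne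
        apply hy'
        have h5 : y' = (TrivSqZeroExt.fst r - TrivSqZeroExt.fst s)⁻¹ •
            ((TrivSqZeroExt.snd s - TrivSqZeroExt.snd r) • w) := by
          rw [← h2, smul_smul, inv_mul_cancel₀ h4, one_smul]
        rw [h5]
        exact WA.smul_mem _ (WA.smul_mem _ hw)
      have h4 : TrivSqZeroExt.snd r = TrivSqZeroExt.snd s := by
        rw [h3, sub_self, zero_smul] at h2
        have h5 := smul_eq_zero.mp h2.symm
        rcases h5 with h6 | h6
        · exact (sub_eq_zero.mp h6).symm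
        · exact absurd h6 hw1
      exact TrivSqZeroExt.ext h3 h4
    have : Finite (DualNumber (ZMod p)) := inferInstanceAs (Finite (ZMod p × ZMod p))
    rw [Nat.bijective_iff_injective_and_card]
    refine ⟨hinj, ?_⟩
    have h1 : Nat.card (DualNumber (ZMod p)) = p * p := by
      have : Nat.card (ZMod p × ZMod p) = p * p := by rw [Nat.card_prod, Nat.card_zmod]
      exact this
    rw [h1, hcard, pow_two]
  -- coordinates of α y and α w₀
  obtain ⟨r1, hr1⟩ := (hbas y hy w₀ hw₀ hw₀1).2 (F y)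
  obtain ⟨r2, hr2⟩ := (hbas y hy w₀ hw₀ hw₀1).2 (F w₀)
  have hr1' : TrivSqZeroExt.fst r1 • y + TrivSqZeroExt.snd r1 • w₀ = F y := hr1
  have hr2' : TrivSqZeroExt.fst r2 • y + TrivSqZeroExt.snd r2 • w₀ = F w₀ := hr2
  set a := TrivSqZeroExt.fst r1 with ha
  set b := TrivSqZeroExt.snd r1 with hb
  set d := TrivSqZeroExt.snd r2 with hd
  have hFw : F w₀ ∈ WA := hWi _ hw₀
  have hfst2 : TrivSqZeroExt.fst r2 = 0 := by
    by_contra hne
    apply hy
    have h1 : y = (TrivSqZeroExt.fst r2)⁻¹ • (F w₀ - TrivSqZeroExt.snd r2 • w₀) := by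
      rw [← hr2', add_sub_cancel_right, smul_smul, inv_mul_cancel₀ hne, one_smul]
    rw [h1]
    exact WA.smul_mem _ (WA.sub_mem hFw (WA.smul_mem _ hw₀))
  rw [hfst2, zero_smul, zero_add] at hr2'
  -- powers of α on eigenvectors
  have heig : ∀ (c : ZMod p) (x : A), x ≠ 0 → F x = c • x → F^[p - 1] x = x := by
    intro c x hx hc
    have hc0 : c ≠ 0 := by
      rintro rfl
      rw [zero_smul] at hc
      exact hx (hFinj (hc.trans (map_zero F).symm))
    have h1 : ∀ n : ℕ, F^[n] x = (c ^ n) • x := by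
      intro n
      induction n with
      | zero => simp
      | succ n ih =>
        rw [Function.iterate_succ', Function.comp_apply, ih, hF, hc, smul_smul, pow_succ]
    rw [h1, ZMod.pow_card_sub_one_eq_one hc0, one_smul]
  have hiter : ∀ (n : ℕ) (c d : ZMod p) (x y : A), F^[n] (c • x + d • y) =
      c • F^[n] x + d • F^[n] y := by
    intro n c d x y
    induction n with
    | zero => simp
    | succ n ih =>
      rw [Function.iterate_succ', Function.comp_apply, ih, map_add, hF, hF]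
      rfl
  have hall : ∀ (y' : A), y' ∉ WA → F^[p - 1] y' = y' → False := by
    intro y' hy' h1
    apply hnot
    intro x
    obtain ⟨r, hr⟩ := (hbas y' hy' w₀ hw₀ hw₀1).2 x
    have h2 := heig d w₀ hw₀1 hr2'.symm
    have h3 : TrivSqZeroExt.fst r • y' + TrivSqZeroExt.snd r • w₀ = x := hr
    rw [← h3, hiter, h1, h2]
  have had : a = d := by
    by_contra hne
    have hne' : a - d ≠ 0 := sub_ne_zero.mpr hne
    -- y' = y + c w₀ with F y' = a y'
    set c := (a - d)⁻¹ * b with hc
    have h1 : F (y + c • w₀) = a • (y + c • w₀) := by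
      rw [map_add, hF, ← hr1', ← hr2', smul_add, smul_smul, smul_smul, add_assoc, ← add_smul]
      congr 2
      rw [hc]
      field_simp
      ring
    have h2 : y + c • w₀ ∉ WA := by
      intro h
      apply hy
      have : y = (y + c • w₀) - c • w₀ := by abel
      rw [this]
      exact WA.sub_mem h (WA.smul_mem _ hw₀)
    have h3 : y + c • w₀ ≠ 0 := by
      intro h
      rw [h] at h2
      exact h2 WA.zero_mem
    exact hall _ h2 (heig a _ h3 h1)
  have hb0 : b ≠ 0 := by
    intro h0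
    rw [h0, zero_smul, add_zero] at hr1'
    have h3 : y ≠ 0 := by
      rintro rfl
      exact hy WA.zero_mem
    exact hall y hy (heig a y h3 hr1'.symm)
  -- final coordinates
  obtain ⟨w, hwW, hw1, hFw', hr1''⟩ : ∃ w ∈ WA, w ≠ 0 ∧ F w = a • w ∧ a • y + w = F y :=
    ⟨b • w₀, WA.smul_mem _ hw₀, smul_ne_zero hb0 hw₀1, by
      rw [hF, ← hr2', had, smul_comm], hr1'⟩
  have hbij := hbas y hy w hwW hw1
  let e : DualNumber (ZMod p) ≃+ A :=
    { (Equiv.ofBijective _ hbij) with
      map_add' := by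
        intro r s
        show TrivSqZeroExt.fst (r + s) • y + TrivSqZeroExt.snd (r + s) • w =
          (TrivSqZeroExt.fst r • y + TrivSqZeroExt.snd r • w) +
          (TrivSqZeroExt.fst s • y + TrivSqZeroExt.snd s • w)
        rw [TrivSqZeroExt.fst_add, TrivSqZeroExt.snd_add, add_smul, add_smul]
        abel }
  have he : ∀ r : DualNumber (ZMod p), e r =
    TrivSqZeroExt.fst r • y + TrivSqZeroExt.snd r • w := fun r => rfl
  refine ⟨a, e, ?_⟩
  intro r
  rw [he, he]
  rw [map_add, hF, hF, ← hr1'', hFw', TrivSqZeroExt.fst_mul, TrivSqZeroExt.snd_mul]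
  simp only [TrivSqZeroExt.fst_add, TrivSqZeroExt.fst_inl, TrivSqZeroExt.fst_inr, add_zero,
    TrivSqZeroExt.snd_add, TrivSqZeroExt.snd_inl, TrivSqZeroExt.snd_inr, zero_add,
    MulOpposite.smul_eq_mul_unop, MulOpposite.unop_op, smul_eq_mul, one_mul]
  show TrivSqZeroExt.fst r • (a • y + w) + TrivSqZeroExt.snd r • a • w = _
  rw [smul_add, smul_smul, smul_smul, add_smul, mul_comm a (TrivSqZeroExt.fst r),
    mul_comm a (TrivSqZeroExt.snd r)]
  abel

theorem dual_core {A : Type} [AddCommGroup A] [Finite A] {p : ℕ} (hp : p.Prime)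
    (hexp : ∀ x : A, p • x = 0) (F : A →+ A) (hFinj : Function.Injective F)
    (hcard : Nat.card A = p ^ 2)
    (WA : AddSubgroup A) (hcW : Nat.card WA = p) (hWi : ∀ x ∈ WA, F x ∈ WA)
    (hnot : ¬ ∀ x, F^[p - 1] x = x) :
    ∃ (a : ZMod p) (e : DualNumber (ZMod p) ≃+ A), ∀ r,
      F (e r) = e ((TrivSqZeroExt.inl a + TrivSqZeroExt.inr 1) * r) := by
  have hpf : Fact p.Prime := ⟨hp⟩
  let _ : Module (ZMod p) A := AddCommGroup.zmodModule (n := p) hexp
  exact dual_core' hp F hFinj hcard (AddSubgroup.toZModSubmodule p WA) hcW hWi hnot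

theorem rl_dual_comm {E : Type} [CommGroup E] [Finite E] {α : MulAut E} {p : ℕ} (hp : p.Prime)
    (hp2 : p ≠ 2) (hcard : Nat.card E = p ^ 2) (hexp : ∀ x : E, x ^ p = 1) {W : Subgroup E}
    (hW : Nat.card W = p) (hWi : ∀ x ∈ W, α x ∈ W)
    (hord : ∀ n, (∀ x, (α ^ n) x = x) ↔ p * (p - 1) ∣ n) : RL E α := by
  have hlt : ¬ p * (p - 1) ∣ (p - 1) := by
    intro h
    have h2 := hp.two_le
    have h3 := Nat.le_of_dvd (by omega) h
    have h4 : 1 * (p - 1) < p * (p - 1) := Nat.mul_lt_mul_of_pos_right (by omega) (by omega)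
    omega
  have hit : ∀ (n : ℕ) (x : Additive E), (MonoidHom.toAdditive α.toMonoidHom)^[n] x =
      Additive.ofMul ((α ^ n) x.toMul) := by
    intro n x
    induction n with
    | zero => rfl
    | succ n ih =>
      rw [Function.iterate_succ', Function.comp_apply, ih, pow_succ']
      rfl
  obtain ⟨a, e', he'⟩ := dual_core (A := Additive E) hp (fun x => hexp x.toMul)
    (MonoidHom.toAdditive α.toMonoidHom) (fun x y h => α.injective h) hcard
    (Subgroup.toAddSubgroup W) hW hWi (by
      intro hh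
      apply hlt
      rw [← hord]
      intro x
      have := hh (Additive.ofMul x)
      rw [hit] at this
      exact this)
  let e : Multiplicative (DualNumber (ZMod p)) ≃* E :=
    { toFun := fun r => (e' r.toAdd).toMul
      invFun := fun x => Multiplicative.ofAdd (e'.symm (Additive.ofMul x))
      left_inv := fun r => e'.symm_apply_apply _
      right_inv := fun x => e'.apply_symm_apply _
      map_mul' := fun r s => e'.map_add _ _ }
  have hα : ∀ r : DualNumber (ZMod p), α (e (Multiplicative.ofAdd r)) =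
      e (Multiplicative.ofAdd ((TrivSqZeroExt.inl a + TrivSqZeroExt.inr 1) * r)) := he'
  obtain ⟨ω, hω⟩ := rl_of_val hα
  rw [← hω] at hα
  refine ⟨DualNumber (ZMod p), inferInstance, ω, rd_dual hp hp2 ?_, e, hα⟩
  apply Nat.dvd_antisymm
  · apply orderOf_dvd_of_pow_eq_one
    rw [← pow_fix_iff hα, hord]
  · rw [← hord, pow_fix_iff hα, pow_orderOf_eq_one]

theorem rl_dual {E : Type} [Group E] [Finite E] {α : MulAut E} {p : ℕ} (hp : p.Prime)
    (hp2 : p ≠ 2) (hcard : Nat.card E = p ^ 2) (hexp : ∀ x : E, x ^ p = 1) {W : Subgroup E}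
    (hW : Nat.card W = p) (hWi : ∀ x ∈ W, α x ∈ W)
    (hord : ∀ n, (∀ x, (α ^ n) x = x) ↔ p * (p - 1) ∣ n) : RL E α := by
  have hpf : Fact p.Prime := ⟨hp⟩
  have hEcomm : ∀ x y : E, x * y = y * x := fun x y => by
    have := IsPGroup.isMulCommutative_of_card_eq_prime_sq hcard
    exact this.is_comm.comm x y
  let _ : CommGroup E := { (inferInstance : Group E) with mul_comm := hEcomm }
  exact rl_dual_comm hp hp2 hcard hexp hW hWi hord

end H67
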