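import Mathlib
import Pool.Agent.H67.Assem2
import Pool.Agent.H67.PThm
import Pool.Agent.H67.RingPart3

namespace H67

open Equiv

variable {G : Type} [Group G]

theorem cls_of_q8 [Finite G] {T : Perm G} {α : MulAut G}
    (hc : Nat.card G < 2 * orderOf T) {H : Subgroup G} {z i j : G} (h : Q8 T α H z i j)
    (IH : ∀ (T : Perm H) (α : MulAut H), IsAff T α → Nat.card H < 2 * orderOf T →
      Cls T α) : Cls T α := by
  obtain ⟨S₀, β, hS₀, hST, hSβ, hcop3, hratio⟩ := h.orders hc
  have hS2 : Nat.card H < 2 * orderOf S₀ := by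
    have : 0 < Nat.card H := Nat.card_pos
    omega
  obtain ⟨g', X', E', S, αE, hD', hαE, hRL, hS, hcore⟩ := IH S₀ β hS₀ hS2
  obtain ⟨φ, hφa, hφx⟩ := exists_q8hom h.ii h.jj h.zz h.ji
  -- order of S divides order of S₀
  have hSS₀ : orderOf S ∣ orderOf S₀ := by
    rw [← orderOf_tr g' S₀]
    apply orderOf_dvd_of_pow_eq_one
    ext1 x
    have := semiconj_pow (fun y : X' => (y : H)) S (tr g' S₀) hS (orderOf (tr g' S₀)) x
    rw [pow_orderOf_eq_one] at this
    exact Subtype.ext this
  have h3S : ¬ 3 ∣ orderOf S := by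
    intro h3
    have h4 := Nat.dvd_gcd (h3.trans hSS₀) (dvd_refl 3)
    rw [hcop3] at h4
    omega
  have hK : FullCyc X' S := by
    rcases hcore with h1 | h1
    · exact h1
    · exact absurd h1.three_dvd h3S
  -- z ∈ X'
  have hzX' : (⟨z, h.zH⟩ : H) ∈ X' := by
    obtain ⟨a, ha, e, he, hae⟩ := hD'.sup ⟨z, h.zH⟩
    have hβz : β ⟨z, h.zH⟩ = ⟨z, h.zH⟩ := by
      apply Subtype.ext; rw [hSβ]; exact h.αz
    have h1 : β e = e := by
      rw [hae, map_mul] at hβz
      have h2 : e * (β e)⁻¹ = a⁻¹ * β a := by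
        have : a⁻¹ * (β a * β e) * (β e)⁻¹ = a⁻¹ * (a * e) * (β e)⁻¹ := by rw [hβz]
        calc e * (β e)⁻¹ = a⁻¹ * (a * e) * (β e)⁻¹ := by group
          _ = a⁻¹ * (β a * β e) * (β e)⁻¹ := by rw [hβz]
          _ = a⁻¹ * β a := by group
      have h3 : e * (β e)⁻¹ = 1 := by
        apply hD'.inf _ _ (E'.mul_mem he (E'.inv_mem (hD'.invE e he)))
        rw [h2]; exact X'.mul_mem (X'.inv_mem ha) (hD'.invX a ha)
      exact (mul_inv_eq_one.mp h3).symm
    have h2 : (⟨e, he⟩ : E') = 1 := by
      apply hRL.fix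
      exact Subtype.ext (by rw [hαE, h1])
    have h3 : e = 1 := congrArg Subtype.val h2
    rw [hae, h3, mul_one]; exact ha
  -- elements of the range of φ
  have hφcomm : ∀ x ∈ H, ∀ q, x * φ q = φ q * x := by
    intro x hx q
    have ci : Commute x i := h.comm_i x hx
    have cj : Commute x j := h.comm_j x hx
    rcases q with m | m
    · rw [hφa]; exact ci.pow_right _
    · rw [hφx]; exact cj.mul_right (ci.pow_right _)
  have hz2 : i ^ 2 = z := by rw [pow_two, h.ii]
  have hzi3 : i ^ 3 = z * i := by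
    rw [show (3 : ℕ) = 2 + 1 from rfl, pow_add, pow_one, hz2]
  have hzcancel : ∀ x, z * x ∈ H → x ∈ H := by
    intro x hx
    have := H.mul_mem (H.inv_mem h.zH) hx
    rwa [inv_mul_cancel_left] at this
  have hφH : ∀ q, φ q ∈ H → q = 1 ∨ q = QuaternionGroup.a 2 := by
    intro q hq
    rcases q with m | m
    · rw [hφa] at hq
      fin_cases m
      · left; rfl
      · exfalso
        have : i ^ 1 ∈ H := hq
        rw [pow_one] at this; exact h.ni this
      · right; rfl
      · exfalso
        have : i ^ 3 ∈ H := hq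
        rw [hzi3] at this
        exact h.ni (hzcancel _ this)
    · rw [hφx] at hq
      exfalso
      fin_cases m
      · have : j * i ^ 0 ∈ H := hq
        rw [pow_zero, mul_one] at this; exact h.nj this
      · have : j * i ^ 1 ∈ H := hq
        rw [pow_one, h.ji, mul_assoc] at this
        exact h.nij (hzcancel _ this)
      · have : j * i ^ 2 ∈ H := hq
        rw [hz2, ← h.zj] at this
        exact h.nj (hzcancel _ this)
      · have : j * i ^ 3 ∈ H := hq
        rw [hzi3, ← mul_assoc, ← h.zj, mul_assoc, h.ji, mul_assoc] at this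
        exact h.nij (hzcancel _ (hzcancel _ this))
  have hφ2 : φ (QuaternionGroup.a 2) = z := by rw [hφa]; exact hz2
  have hφinj : Function.Injective φ := by
    rw [injective_iff_map_eq_one]
    intro q hq
    rcases hφH q (by rw [hq]; exact H.one_mem) with h1 | h1
    · exact h1
    · exfalso
      rw [h1, hφ2] at hq
      exact h.z1 hq
  have hir : i ∈ φ.range := ⟨.a 1, by rw [hφa]; exact pow_one i⟩
  have hjr : j ∈ φ.range := ⟨.xa 0, by rw [hφx]; simp⟩
  have hφα : ∀ q, α (φ q) ∈ φ.range := by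
    intro q
    rcases q with m | m
    · rw [hφa, map_pow, h.αi]; exact φ.range.pow_mem hjr _
    · rw [hφx, map_mul, map_pow, h.αi, h.αj]
      exact φ.range.mul_mem (φ.range.inv_mem (φ.range.mul_mem hir hjr)) (φ.range.pow_mem hjr _)
  -- the automorphism σ
  obtain ⟨αφ, hαφ⟩ := exists_resAut α φ.range (by
    rintro _ ⟨q, rfl⟩; exact hφα q)
  let ψ : QuaternionGroup 2 ≃* φ.range := MonoidHom.ofInjective hφinj
  have hψ : ∀ q, ((ψ q : φ.range) : G) = φ q := fun q => rfl
  let σ : MulAut (QuaternionGroup 2) := (ψ.trans αφ).trans ψ.symm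
  have hσ : ∀ q, φ (σ q) = α (φ q) := by
    intro q
    rw [← hψ, ← hψ q, ← hαφ]
    show ((ψ (ψ.symm (αφ (ψ q))) : φ.range) : G) = _
    rw [MulEquiv.apply_symm_apply]
  have hσn : ∀ (n : ℕ) q, φ ((σ ^ n) q) = (α ^ n) (φ q) := by
    intro n
    induction n with
    | zero => intro q; rfl
    | succ n ih => intro q; rw [pow_succ, MulAut.mul_apply, ih, hσ, pow_succ]; rfl
  have hσ3 : orderOf σ = 3 := by
    apply orderOf_eq_prime
    · ext q
      apply hφinj
      rw [hσn]
      have e1 := h.α3i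
      have e2 := h.α3j
      rcases q with m | m
      · rw [hφa, map_pow, e1]; rw [MulAut.one_apply, hφa]
      · rw [hφx, map_mul, map_pow, e1, e2]; rw [MulAut.one_apply, hφx]
    · intro h1
      have h2 := hσ (.a 1)
      rw [h1, MulAut.one_apply, hφa] at h2
      have h3 : i ^ 1 = α (i ^ 1) := h2
      rw [pow_one, h.αi] at h3
      have h4 := h.ji
      rw [← h3, mul_assoc, h.ii, h.zz] at h4
      exact h.z1 h4
  -- π
  have hcommX : ∀ (x : X') q, ((x : H) : G) * φ q = φ q * (x : H) := fun x q => hφcomm _ (x : H).2 q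
  let π₀ : X' × QuaternionGroup 2 →* G :=
    { toFun := fun p => ((p.1 : H) : G) * φ p.2
      map_one' := by simp
      map_mul' := by
        rintro ⟨x, q⟩ ⟨x', q'⟩
        show (((x * x' : X') : H) : G) * φ (q * q') = ((x : H) : G) * φ q * (((x' : H) : G) * φ q')
        rw [Subgroup.coe_mul, Subgroup.coe_mul, map_mul]
        have := hcommX x' q
        calc ((x : H) : G) * ((x' : H) : G) * (φ q * φ q')
            = ((x : H) : G) * (((x' : H) : G) * φ q) * φ q' := by group
          _ = ((x : H) : G) * (φ q * ((x' : H) : G)) * φ q' := by rw [this]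
          _ = _ := by group }
  have hπ₀ : ∀ x q, π₀ (x, q) = ((x : H) : G) * φ q := fun x q => rfl
  set T' := tr (g' : G) T with hT'
  have hT'a : IsAff T' α := h.aff.tr _
  have hT'H : ∀ x : H, T' x = ((tr g' S₀ x : H) : G) := by
    intro x
    rw [hT', tr_apply, tr_apply, Subgroup.coe_mul, Subgroup.coe_inv, hST, Subgroup.coe_mul]
  have hT'π : ∀ x q, T' (π₀ (x, q)) = π₀ (S x, σ q) := by
    intro x q
    rw [hπ₀, hπ₀, hT'a.map_mul, hT'H, ← hS, hσ]
  let X : Subgroup G := π₀.range
  have hXinv : ∀ x ∈ X, T' x ∈ X := by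
    rintro _ ⟨⟨x, q⟩, rfl⟩
    exact ⟨(S x, σ q), (hT'π x q).symm⟩
  obtain ⟨SX, αX, hSX, hSXT, hαX⟩ := exists_res hT'a X hXinv
  refine ⟨g', X, E'.map H.subtype, SX, ?_⟩
  let μ := E'.equivMapOfInjective H.subtype H.subtype_injective
  have hμ : ∀ x : E', ((μ x : E'.map H.subtype) : G) = ((x : H) : G) := fun x => rfl
  have hDD : DD α X (E'.map H.subtype) := by
    refine ⟨?_, ?_, ?_, ?_, ?_⟩
    · intro x hx
      rw [← hαX ⟨x, hx⟩]
      exact (αX ⟨x, hx⟩).2
    · rintro _ ⟨e, he, rfl⟩
      exact ⟨β e, hD'.invE e he, hSβ e⟩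
    · rintro _ ⟨⟨a, q⟩, rfl⟩ _ ⟨e, he, rfl⟩
      have h1 := hφcomm e e.2 q
      have h2 := congrArg Subtype.val (hD'.comm a a.2 e he)
      have h2' : ((a : H) : G) * e = e * a := h2
      show ((a : H) : G) * φ q * e = e * (a * φ q)
      calc ((a : H) : G) * φ q * e = a * (φ q * e) := by group
        _ = a * (e * φ q) := by rw [h1]
        _ = (a * e) * φ q := by group
        _ = (e * a) * φ q := by rw [h2']
        _ = e * (a * φ q) := by group
    · rintro _ ⟨⟨a, q⟩, rfl⟩ ⟨e, he, hae⟩
      have h1 : (e : G) = (a : H) * φ q := hae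
      have h2 : φ q ∈ H := by
        have : φ q = (((a : H)⁻¹ * e : H) : G) := by
          rw [Subgroup.coe_mul, Subgroup.coe_inv, h1]; group
        rw [this]; exact ((a : H)⁻¹ * e : H).2
      have h3 : ∃ y ∈ X', (y : G) = (a : H) * φ q := by
        rcases hφH q h2 with h4 | h4
        · exact ⟨a, a.2, by rw [h4, map_one, mul_one]⟩
        · exact ⟨a * ⟨z, h.zH⟩, X'.mul_mem a.2 hzX', by rw [h4, hφ2]; rfl⟩
      obtain ⟨y, hy, hya⟩ := h3
      have h4 : e = y := Subtype.ext (by rw [h1, hya])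
      have h5 := hD'.inf y hy (h4 ▸ he)
      show ((a : H) : G) * φ q = 1
      rw [← hya, h5]; rfl
    · intro g
      obtain ⟨y, hy, hg⟩ := h.cov g
      have hu : ∃ q, g = y * φ q := by
        have e1 : φ (.a 1) = i := by rw [hφa]; exact pow_one i
        have e2 : φ (.xa 0) = j := by rw [hφx]; simp
        rcases hg with rfl | rfl | rfl | rfl
        · exact ⟨1, by rw [map_one, mul_one]⟩
        · exact ⟨.a 1, by rw [e1]⟩
        · exact ⟨.xa 0, by rw [e2]⟩
        · exact ⟨.a 1 * .xa 0, by rw [map_mul, e1, e2]⟩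
      obtain ⟨q, rfl⟩ := hu
      obtain ⟨a, ha, e, he, hae⟩ := hD'.sup ⟨y, hy⟩
      have h1 : y = (a : G) * e := congrArg Subtype.val hae
      refine ⟨a * φ q, ⟨(⟨a, ha⟩, q), rfl⟩, e, ⟨e, he, rfl⟩, ?_⟩
      rw [h1]
      have h2 := hφcomm e e.2 q
      calc (a : G) * e * φ q = a * (e * φ q) := by group
        _ = a * (φ q * e) := by rw [h2]
        _ = a * φ q * e := by group
  obtain ⟨αEn, hαEn⟩ := exists_resAut α (E'.map H.subtype) hDD.invE
  refine ⟨αEn, hDD, hαEn, ?_, hSXT, Or.inr ?_⟩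
  · obtain ⟨R, iR, ω, hR, f, hf⟩ := hRL
    refine ⟨R, iR, ω, hR, f.trans μ, ?_⟩
    intro r
    apply Subtype.ext
    rw [hαEn]
    show α ((μ (f (Multiplicative.ofAdd r)) : E'.map H.subtype) : G) =
      ((μ (f _) : E'.map H.subtype) : G)
    rw [hμ, hμ, ← hf, hαE, hSβ]
  · refine ⟨X', inferInstance, S, ⟨⟨z, h.zH⟩, hzX'⟩, σ, π₀.rangeRestrict, hK, ?_, ?_, ?_, ?_, ?_, hσ3,
      π₀.rangeRestrict_surjective, ?_, ?_⟩
    · rw [← orderOf_full hK]; exact h3S
    · intro hh
      exact h.z1 (congrArg (fun x : X' => ((x : H) : G)) hh)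
    · apply Subtype.ext; apply Subtype.ext; exact h.zz
    · intro c
      apply Subtype.ext; apply Subtype.ext
      exact h.zH_comm _ (c : H).2
    · apply Subtype.ext; apply Subtype.ext
      rw [hS, Subgroup.coe_mul, Subgroup.coe_mul, hS, ← hT'H, ← hT'H]
      show T' z = T' 1 * z
      rw [hT'a z, h.αz]
    · intro c q
      constructor
      · intro hcq
        have h1 : ((c : H) : G) * φ q = 1 := congrArg Subtype.val hcq
        have h2 : φ q ∈ H := by
          rw [eq_inv_of_mul_eq_one_right h1]; exact H.inv_mem (c : H).2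
        rcases hφH q h2 with h3 | h3
        · left
          refine ⟨?_, h3⟩
          rw [h3, map_one, mul_one] at h1
          exact Subtype.ext (Subtype.ext h1)
        · right
          refine ⟨?_, h3⟩
          rw [h3, hφ2] at h1
          apply Subtype.ext; apply Subtype.ext
          show ((c : H) : G) = z
          rw [eq_inv_of_mul_eq_one_left h1, inv_eq_iff_mul_eq_one, h.zz]
      · rintro (⟨rfl, rfl⟩ | ⟨rfl, rfl⟩)
        · exact map_one _
        · apply Subtype.ext
          show z * φ (.a 2) = 1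
          rw [hφ2, h.zz]
    · intro c q
      apply Subtype.ext
      rw [hSXT]
      exact hT'π c q

theorem cls_aux : ∀ (n : ℕ) (G : Type) [Group G] [Finite G], Nat.card G = n →
    ∀ (T : Perm G) (α : MulAut G), IsAff T α → Nat.card G < 2 * orderOf T → Cls T α := by
  intro n
  induction n using Nat.strong_induction_on with
  | _ n ih =>
    intro G _ _ hn T α hT hc
    have IH : ∀ (K : Subgroup G), Nat.card K < Nat.card G →
      ∀ (T : Perm K) (α : MulAut K), IsAff T α → Nat.card K < 2 * orderOf T → Cls T α := by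
      intro K hK T α hT hc
      exact ih (Nat.card K) (hn ▸ hK) K rfl T α hT hc
    have hlt : ∀ {X E : Subgroup G}, DD α X E → (∃ x ∈ E, x ≠ 1) → Nat.card X < Nat.card G := by
      rintro X E hD ⟨x, hx, hx1⟩
      apply card_lt_of_ne_top
      intro htop
      exact hx1 (hD.inf x (by rw [htop]; trivial) hx)
    have htrcls : ∀ g, Cls (tr g T) α → Cls T α := by
      rintro g ⟨g', X, E, S, αE, hD, hαE, hRL, hS, hcore⟩
      exact ⟨g * g', X, E, S, αE, hD, hαE, hRL, fun x => by rw [hS, tr_tr], hcore⟩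
    rcases step hT hc with h | h | h | h
    · exact cls_of_trans hT h
    · obtain ⟨X, E, hD, htr, hne⟩ := h
      obtain ⟨αE, hαE⟩ := exists_resAut α E hD.invE
      obtain ⟨x₀, hx₀, hx₀α⟩ := hne
      have hx₀1 : x₀ ≠ 1 := by rintro rfl; exact hx₀α (map_one _)
      apply cls_of_dd hT hc hD hαE _ (IH X (hlt hD ⟨x₀, hx₀, hx₀1⟩))
      apply rl_sing
      · intro x y hx hy
        obtain ⟨i, hi⟩ := htr x x.2 y y.2 (fun hh => hx (Subtype.ext hh))
          (fun hh => hy (Subtype.ext hh))
        exact ⟨i, Subtype.ext (by rw [resAut_pow hαE]; exact hi)⟩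
      · refine ⟨⟨x₀, hx₀⟩, fun hh => hx₀α ?_⟩
        have := congrArg Subtype.val hh
        rw [hαE] at this
        exact this
    · obtain ⟨g, H, z, i, j, hQ⟩ := h
      apply htrcls g
      apply cls_of_q8 (by rw [orderOf_tr]; exact hc) hQ (IH H _)
      apply card_lt_of_ne_top
      intro htop
      apply hQ.ni; rw [htop]; trivial
    · obtain ⟨g, V, m, p, hCen⟩ := h
      obtain ⟨M, hM, hVM⟩ := hCen.sq
      have hc' : Nat.card G < 2 * orderOf (tr g T) := by rw [orderOf_tr]; exact hc
      obtain ⟨X, E, j, hD, hXM, hj, hcardE, htype, hord⟩ := thmP hCen.aff hc' hM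
      have hMn := hM.normal
      have hp := hM.prime
      obtain ⟨αE, hαE⟩ := exists_resAut α E hD.invE
      have hne : ∃ x ∈ E, x ≠ 1 := by
        have h1 : 1 < Nat.card E := by
          rw [hcardE]; exact Nat.one_lt_pow (by omega) hp.one_lt
        rw [Finite.one_lt_card_iff_nontrivial] at h1
        obtain ⟨x, hx⟩ := exists_ne (1 : E)
        exact ⟨x, x.2, fun hh => hx (Subtype.ext hh)⟩
      have hord' : ∀ n, (∀ x : E, (αE ^ n) x = x) ↔ p ^ (j - 1) * (p - 1) ∣ n := by
        intro n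
        rw [← hord]
        constructor
        · intro hn x hx
          rw [← resAut_pow hαE n ⟨x, hx⟩, hn]
        · intro hn x
          apply Subtype.ext
          rw [resAut_pow hαE, hn x x.2]
      apply cls_of_dd hT hc hD hαE _ (IH X (hlt hD hne))
      rcases htype with hcyc | ⟨hj2, hexp⟩
      · exact rl_cyclic hp hM.ne2 hj hcardE hcyc hord'
      · subst hj2
        have hSQ := hM.restrict hαE (by
          intro g
          obtain ⟨x, hx, e, he, rfl⟩ := hD.sup g
          refine ⟨e, he, ?_⟩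
          rw [mul_inv_rev, mul_assoc]
          have h1 := hMn.conj_mem _ (M.inv_mem (hXM hx)) e⁻¹
          simpa [mul_assoc] using h1)
        have hW : Nat.card (M.subgroupOf E) = p := by
          have h1 := Subgroup.card_mul_index (M.subgroupOf E)
          rw [hSQ.index, hcardE, pow_two] at h1
          exact Nat.eq_of_mul_eq_mul_right hp.pos h1
        refine rl_dual hp hM.ne2 hcardE (fun x => Subtype.ext ?_) hW hSQ.inv ?_
        · rw [Subgroup.coe_pow]; exact hexp x x.2
        · intro n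
          rw [hord' n]; simp

/-- Part I -/
theorem cls {G : Type} [Group G] [Finite G] {T : Perm G} {α : MulAut G} (hT : IsAff T α)
    (hc : Nat.card G < 2 * orderOf T) : Cls T α := cls_aux _ G rfl T α hT hc

end H67
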