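import Mathlib

/-!
Definitions used in the classification of the pairs `(G, A)`, `G` a finite group and `A` an affine
map of `G` with `ord(A) > |G| / 2` (the theorem is in
`Pool/Agent/Results/MP_84eb5c_al/Classification.lean`).
-/

namespace H67

open Equiv

/-- `A` is an affine map of `G`: `A x = t * α x` with `t ∈ G` and `α ∈ Aut(G)`. -/
def IsAffine {G : Type} [Group G] (A : Perm G) : Prop :=
  ∃ (t : G) (α : MulAut G), ∀ x, A x = t * α x

/-- `(G, A)` and `(G', A')` are equivalent: some group isomorphism carries `A` to `A'`. -/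
def PairEquiv {G G' : Type} [Group G] [Group G'] (A : Perm G) (A' : Perm G') : Prop :=
  ∃ φ : G ≃* G', ∀ x, φ (A x) = A' (φ x)

/-- Cyclic core with parameters `m, w`, in the coordinates `e`: `H ≅ (ℤ/m, +)` and `S(x) = w x + 1`, where
`w ≡ 1` modulo every prime divisor of `m`, and modulo `4` if `4 ∣ m`. -/
def CycCoord (m w : ℕ) (H : Type) [Group H] (S : Perm H) (e : Multiplicative (ZMod m) ≃* H) :
    Prop :=
  0 < m ∧ (∀ p : ℕ, p.Prime → p ∣ m → (p : ℤ) ∣ (w : ℤ) - 1) ∧ (4 ∣ m → (4 : ℤ) ∣ (w : ℤ) - 1) ∧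
    ∀ x : ZMod m, S (e (Multiplicative.ofAdd x)) = e (Multiplicative.ofAdd (w * x + 1))

/-- Dihedral core with parameters `m, w, k, v`, in the coordinates `e`: `H ≅ (ℤ/m, +) × D`, `D` dihedral
of order `2 ^ (k + 1)`, `k ≥ 1` (the four-group for `k = 1`), `m` and `v` odd, `w ≡ 1` modulo every
prime divisor of `m`, and `S = (x ↦ w x + 1) × (r^i ↦ s r^(v i), s r^i ↦ r^(v i + 1))`. -/
def DihCoord (m w k v : ℕ) (H : Type) [Group H] (S : Perm H)
    (e : Multiplicative (ZMod m) × DihedralGroup (2 ^ k) ≃* H) : Prop :=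
  Odd m ∧ (∀ p : ℕ, p.Prime → p ∣ m → (p : ℤ) ∣ (w : ℤ) - 1) ∧ 1 ≤ k ∧ Odd v ∧
    (∀ (x : ZMod m) (i : ZMod (2 ^ k)), S (e (Multiplicative.ofAdd x, .r i)) =
      e (Multiplicative.ofAdd (w * x + 1), .sr (v * i))) ∧
    ∀ (x : ZMod m) (i : ZMod (2 ^ k)), S (e (Multiplicative.ofAdd x, .sr i)) =
      e (Multiplicative.ofAdd (w * x + 1), .r (v * i + 1))

/-- Quaternion core with parameters `m, w, k, v`, in the coordinates `e`: the same with the generalised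
quaternion group of order `2 ^ (k + 2)` in place of the dihedral group. -/
def QuatCoord (m w k v : ℕ) (H : Type) [Group H] (S : Perm H)
    (e : Multiplicative (ZMod m) × QuaternionGroup (2 ^ k) ≃* H) : Prop :=
  Odd m ∧ (∀ p : ℕ, p.Prime → p ∣ m → (p : ℤ) ∣ (w : ℤ) - 1) ∧ 1 ≤ k ∧ Odd v ∧
    (∀ (x : ZMod m) (i : ZMod (2 * 2 ^ k)), S (e (Multiplicative.ofAdd x, .a i)) =
      e (Multiplicative.ofAdd (w * x + 1), .xa (v * i))) ∧
    ∀ (x : ZMod m) (i : ZMod (2 * 2 ^ k)), S (e (Multiplicative.ofAdd x, .xa i)) =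
      e (Multiplicative.ofAdd (w * x + 1), .a (v * i + 1))

/-- `(H, S)` is a core: cyclic, dihedral or quaternion. -/
def IsCore (H : Type) [Group H] (S : Perm H) : Prop :=
  (∃ (m w : ℕ) (e : Multiplicative (ZMod m) ≃* H), CycCoord m w H S e) ∨
  (∃ (m w k v : ℕ) (e : Multiplicative (ZMod m) × DihedralGroup (2 ^ k) ≃* H),
    DihCoord m w k v H S e) ∨
  (∃ (m w k v : ℕ) (e : Multiplicative (ZMod m) × QuaternionGroup (2 ^ k) ≃* H),
    QuatCoord m w k v H S e)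

/-- Parameters of a full pair: a core `(H, S)`, odd `n₁, n₂` with `n₁, n₂, |H|` pairwise coprime,
characters `χᵢ : H → (ℤ/nᵢ)ˣ` which satisfy `χᵢ(S h) = χᵢ(S 1) χᵢ(h)` and for which `χᵢ(S 1) - 1` is a
unit modulo `nᵢ`, and numbers `wᵢ` which are `1` modulo every prime divisor of `nᵢ`. -/
def FullDatum (n₁ n₂ : ℕ) (H : Type) [Group H] (S : Perm H) (χ₁ : H →* (ZMod n₁)ˣ)
    (χ₂ : H →* (ZMod n₂)ˣ) (w₁ w₂ : ℕ) : Prop :=
  Odd n₁ ∧ Odd n₂ ∧ Nat.Coprime n₁ n₂ ∧ Nat.Coprime n₁ (Nat.card H) ∧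
  Nat.Coprime n₂ (Nat.card H) ∧ IsCore H S ∧
  (∀ p : ℕ, p.Prime → p ∣ n₁ → (p : ℤ) ∣ (w₁ : ℤ) - 1) ∧
  (∀ p : ℕ, p.Prime → p ∣ n₂ → (p : ℤ) ∣ (w₂ : ℤ) - 1) ∧
  (∀ h, χ₁ (S h) = χ₁ (S 1) * χ₁ h) ∧ (∀ h, χ₂ (S h) = χ₂ (S 1) * χ₂ h) ∧
  IsUnit ((χ₁ (S 1) : ZMod n₁) - 1) ∧ IsUnit ((χ₂ (S 1) : ZMod n₂) - 1)

/-- In the coordinates `f : ℤ/n₁ × H × ℤ/n₂ ≃ C` the group `C` has the multiplication
`(x₁, h, x₂) (y₁, g, y₂) = (x₁ + χ₁(h) y₁, h g, χ₂(g)⁻¹ x₂ + y₂)` (so `C` is the semidirect product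
of `ℤ/n₁ × ℤ/n₂` and `H`), and `K (x₁, h, x₂) = (w₁ x₁ + 1, S h, w₂ x₂ + 1)`. -/
def FullCoord {n₁ n₂ : ℕ} {H : Type} [Group H] (S : Perm H) (χ₁ : H →* (ZMod n₁)ˣ)
    (χ₂ : H →* (ZMod n₂)ˣ) (w₁ w₂ : ℕ) (C : Type) [Group C] (K : Perm C)
    (f : ZMod n₁ × H × ZMod n₂ ≃ C) : Prop :=
  (∀ x₁ h x₂ y₁ g y₂, f (x₁, h, x₂) * f (y₁, g, y₂) =
    f (x₁ + (χ₁ h : ZMod n₁) * y₁, h * g, ((χ₂ g)⁻¹ : (ZMod n₂)ˣ) * x₂ + y₂)) ∧
  ∀ x₁ h x₂, K (f (x₁, h, x₂)) = f ((w₁ : ZMod n₁) * x₁ + 1, S h, (w₂ : ZMod n₂) * x₂ + 1)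

/-- `(C, K)` is a full pair: it is given by some parameters as in `FullDatum`, in the coordinates of
`FullCoord`. -/
def IsFull (C : Type) [Group C] (K : Perm C) : Prop :=
  ∃ (n₁ n₂ : ℕ) (H : Type) (_ : Group H) (S : Perm H) (χ₁ : H →* (ZMod n₁)ˣ)
    (χ₂ : H →* (ZMod n₂)ˣ) (w₁ w₂ : ℕ) (f : ZMod n₁ × H × ZMod n₂ ≃ C),
    FullDatum n₁ n₂ H S χ₁ χ₂ w₁ w₂ ∧ FullCoord S χ₁ χ₂ w₁ w₂ C K f

/-- `(R, u)` is a ring pair: `R` is a finite commutative ring, `Rˣ` is generated by `u`,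
`|R| < 2 |Rˣ|`, and `R` is the product of finitely many fields and of one further ring `L`, which is
zero, `ℤ/p^k` or `𝔽_p[ε]`, `p` an odd prime, `k ≥ 1`. -/
def IsRingPair (R : Type) [CommRing R] (u : Rˣ) : Prop :=
  Finite R ∧ (∀ v : Rˣ, ∃ i : ℕ, u ^ i = v) ∧ Nat.card R < 2 * Nat.card Rˣ ∧
  ∃ (ι : Type) (_ : Finite ι) (F : ι → Type) (_ : ∀ i, Field (F i)) (L : Type) (_ : CommRing L),
    (Subsingleton L ∨
      (∃ p k : ℕ, p.Prime ∧ p ≠ 2 ∧ 1 ≤ k ∧ Nonempty (L ≃+* ZMod (p ^ k))) ∨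
      (∃ p : ℕ, p.Prime ∧ p ≠ 2 ∧ Nonempty (L ≃+* DualNumber (ZMod p)))) ∧
    Nonempty (R ≃+* ((∀ i, F i) × L))

/-- The data of an amalgam: a full pair `(C, K)` with `3 ∤ |C|`, a central involution `z` of `C` with
`K z = K 1 * z`, and an affine map `τ` of order `3` of the quaternion group of order `8`. -/
def AmalgamDatum (C : Type) [Group C] (K : Perm C) (z : C) (τ : Perm (QuaternionGroup 2)) : Prop :=
  IsFull C K ∧ ¬ 3 ∣ Nat.card C ∧ z ≠ 1 ∧ z * z = 1 ∧ (∀ c, c * z = z * c) ∧ K z = K 1 * z ∧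
  IsAffine τ ∧ orderOf τ = 3

/-- `(P, B)` is the amalgam along `π`: `π` maps `C × Q₈` onto `P` with kernel `{(1, 1), (z, -1)}`, and
`B` is induced by `K × τ`. -/
def AmalgamCoord {C : Type} [Group C] (K : Perm C) (z : C) (τ : Perm (QuaternionGroup 2))
    (P : Type) [Group P] (B : Perm P) (π : C × QuaternionGroup 2 →* P) : Prop :=
  Function.Surjective π ∧
  (∀ c q, π (c, q) = 1 ↔ (c = 1 ∧ q = 1) ∨ (c = z ∧ q = QuaternionGroup.a 2)) ∧
  ∀ c q, B (π (c, q)) = π (K c, τ q)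

/-- `(P, B)` is the amalgam of a full pair with the quaternion group of order `8`. -/
def IsAmalgam (P : Type) [Group P] (B : Perm P) : Prop :=
  ∃ (C : Type) (_ : Group C) (K : Perm C) (z : C) (τ : Perm (QuaternionGroup 2))
    (π : C × QuaternionGroup 2 →* P), AmalgamDatum C K z τ ∧ AmalgamCoord K z τ P B π

/-- The list: through the group isomorphism `e`, `G = P × (R, +)` and `A(x, r) = (B x, u r + s)`, where
`(R, u)` is a ring pair, `s ∈ R`, and either `(P, B)` is a full pair and `|P|`, `|Rˣ|` are coprime, or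
`(P, B)` is an amalgam, `3 |P|` and `|Rˣ|` are coprime, and `2 |R| < 3 |Rˣ|`. -/
def Listing {G : Type} [Group G] (A : Perm G) (P : Type) [Group P] (B : Perm P) (R : Type)
    [CommRing R] (u : Rˣ) (s : R) (e : P × Multiplicative R ≃* G) : Prop :=
  IsRingPair R u ∧
    ((IsFull P B ∧ Nat.Coprime (Nat.card P) (Nat.card Rˣ)) ∨
      (IsAmalgam P B ∧ Nat.Coprime (3 * Nat.card P) (Nat.card Rˣ) ∧
        2 * Nat.card R < 3 * Nat.card Rˣ)) ∧
    ∀ (x : P) (r : R), A (e (x, Multiplicative.ofAdd r)) =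
      e (B x, Multiplicative.ofAdd ((u : R) * r + s))

/-- `(G, A)` is in the list. -/
def IsListed (G : Type) [Group G] (A : Perm G) : Prop :=
  ∃ (P : Type) (_ : Group P) (B : Perm P) (R : Type) (_ : CommRing R) (u : Rˣ) (s : R)
    (e : P × Multiplicative R ≃* G), Listing A P B R u s e

/-- Every choice of parameters of a core is realised. -/
def CoresRealised : Prop :=
  (∀ m w : ℕ, 0 < m → (∀ p : ℕ, p.Prime → p ∣ m → (p : ℤ) ∣ (w : ℤ) - 1) →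
    (4 ∣ m → (4 : ℤ) ∣ (w : ℤ) - 1) →
    ∃ (H : Type) (_ : Group H) (S : Perm H) (e : Multiplicative (ZMod m) ≃* H),
      CycCoord m w H S e) ∧
  (∀ m w k v : ℕ, Odd m → (∀ p : ℕ, p.Prime → p ∣ m → (p : ℤ) ∣ (w : ℤ) - 1) → 1 ≤ k → Odd v →
    (∃ (H : Type) (_ : Group H) (S : Perm H)
      (e : Multiplicative (ZMod m) × DihedralGroup (2 ^ k) ≃* H), DihCoord m w k v H S e) ∧
    (∃ (H : Type) (_ : Group H) (S : Perm H)
      (e : Multiplicative (ZMod m) × QuaternionGroup (2 ^ k) ≃* H), QuatCoord m w k v H S e))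

/-- Every choice of parameters of a full pair, of an amalgam and of a listing is realised. -/
def PairsRealised : Prop :=
  (∀ (n₁ n₂ : ℕ) (H : Type) [Group H] (S : Perm H) (χ₁ : H →* (ZMod n₁)ˣ)
    (χ₂ : H →* (ZMod n₂)ˣ) (w₁ w₂ : ℕ), FullDatum n₁ n₂ H S χ₁ χ₂ w₁ w₂ →
    ∃ (C : Type) (_ : Group C) (K : Perm C) (f : ZMod n₁ × H × ZMod n₂ ≃ C),
      FullCoord S χ₁ χ₂ w₁ w₂ C K f) ∧
  (∀ (C : Type) [Group C] (K : Perm C) (z : C) (τ : Perm (QuaternionGroup 2)),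
    AmalgamDatum C K z τ →
    ∃ (P : Type) (_ : Group P) (B : Perm P) (π : C × QuaternionGroup 2 →* P),
      AmalgamCoord K z τ P B π) ∧
  (∀ (P : Type) [Group P] (B : Perm P) (R : Type) [CommRing R] (u : Rˣ) (s : R),
    IsRingPair R u → ((IsFull P B ∧ Nat.Coprime (Nat.card P) (Nat.card Rˣ)) ∨
      (IsAmalgam P B ∧ Nat.Coprime (3 * Nat.card P) (Nat.card Rˣ) ∧
        2 * Nat.card R < 3 * Nat.card Rˣ)) →
    ∃ (G : Type) (_ : Group G) (A : Perm G) (e : P × Multiplicative R ≃* G),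
      Listing A P B R u s e)

/-- Two listed pairs are equivalent if and only if the pairs `(P, B)` are equivalent, and some ring
isomorphism carries `u` to `u'` and `s` to a unit multiple of `s'`. -/
def ListingEquiv : Prop :=
  ∀ (G : Type) [Group G] (A : Perm G) (P : Type) [Group P] (B : Perm P) (R : Type) [CommRing R]
    (u : Rˣ) (s : R) (e : P × Multiplicative R ≃* G)
    (G' : Type) [Group G'] (A' : Perm G') (P' : Type) [Group P'] (B' : Perm P') (R' : Type)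
    [CommRing R'] (u' : R'ˣ) (s' : R') (e' : P' × Multiplicative R' ≃* G'),
    Listing A P B R u s e → Listing A' P' B' R' u' s' e' →
    (PairEquiv A A' ↔ PairEquiv B B' ∧
      ∃ (ψ : R ≃+* R') (v : R'ˣ), ψ u = u' ∧ s' = v * ψ s)

/-- Two full pairs are equivalent if and only if `n₁, n₂` and the residues `w₁` modulo `n₁`, `w₂` modulo
`n₂` are the same and some equivalence of the cores carries the characters to each other. -/
def FullEquiv : Prop :=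
  ∀ (n₁ n₂ : ℕ) (H : Type) [Group H] (S : Perm H) (χ₁ : H →* (ZMod n₁)ˣ)
    (χ₂ : H →* (ZMod n₂)ˣ) (w₁ w₂ : ℕ) (C : Type) [Group C] (K : Perm C)
    (f : ZMod n₁ × H × ZMod n₂ ≃ C)
    (n₁' n₂' : ℕ) (H' : Type) [Group H'] (S' : Perm H') (χ₁' : H' →* (ZMod n₁')ˣ)
    (χ₂' : H' →* (ZMod n₂')ˣ) (w₁' w₂' : ℕ) (C' : Type) [Group C'] (K' : Perm C')
    (f' : ZMod n₁' × H' × ZMod n₂' ≃ C'),
    FullDatum n₁ n₂ H S χ₁ χ₂ w₁ w₂ → FullCoord S χ₁ χ₂ w₁ w₂ C K f →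
    FullDatum n₁' n₂' H' S' χ₁' χ₂' w₁' w₂' → FullCoord S' χ₁' χ₂' w₁' w₂' C' K' f' →
    (PairEquiv K K' ↔
      n₁ = n₁' ∧ n₂ = n₂' ∧ w₁ ≡ w₁' [MOD n₁] ∧ w₂ ≡ w₂' [MOD n₂] ∧
      ∃ θ : H ≃* H', (∀ x, θ (S x) = S' (θ x)) ∧
        (∀ x, (χ₁ x : ZMod n₁).val = (χ₁' (θ x) : ZMod n₁').val) ∧
        (∀ x, (χ₂ x : ZMod n₂).val = (χ₂' (θ x) : ZMod n₂').val))

/-- Two amalgams are equivalent if and only if their data `(C, K, z)` and `τ` are; a full pair is never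
equivalent to an amalgam. -/
def AmalgamEquiv : Prop :=
  (∀ (C : Type) [Group C] (K : Perm C) (z : C) (τ : Perm (QuaternionGroup 2))
    (P : Type) [Group P] (B : Perm P) (π : C × QuaternionGroup 2 →* P)
    (C' : Type) [Group C'] (K' : Perm C') (z' : C') (τ' : Perm (QuaternionGroup 2))
    (P' : Type) [Group P'] (B' : Perm P') (π' : C' × QuaternionGroup 2 →* P'),
    AmalgamDatum C K z τ → AmalgamCoord K z τ P B π →
    AmalgamDatum C' K' z' τ' → AmalgamCoord K' z' τ' P' B' π' →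
    (PairEquiv B B' ↔
      (∃ θ : C ≃* C', (∀ x, θ (K x) = K' (θ x)) ∧ θ z = z') ∧ PairEquiv τ τ')) ∧
  (∀ (P : Type) [Group P] (B : Perm P) (P' : Type) [Group P'] (B' : Perm P'),
    IsFull P B → IsAmalgam P' B' → ¬ PairEquiv B B')

/-- Two cores of the same kind are equivalent if and only if `m, k` and the residues of `w` modulo `m`
and of `v` modulo `2 ^ k` (dihedral) or `2 ^ (k + 1)` (quaternion) are the same; cores of different
kinds are never equivalent. -/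
def CoreEquiv : Prop :=
  ∀ (H : Type) [Group H] (S : Perm H) (H' : Type) [Group H'] (S' : Perm H') (m w k v m' w' k' v' : ℕ),
    (∀ e e', CycCoord m w H S e → CycCoord m' w' H' S' e' →
      (PairEquiv S S' ↔ m = m' ∧ w ≡ w' [MOD m])) ∧
    (∀ e e', DihCoord m w k v H S e → DihCoord m' w' k' v' H' S' e' →
      (PairEquiv S S' ↔ m = m' ∧ w ≡ w' [MOD m] ∧ k = k' ∧ v ≡ v' [MOD 2 ^ k])) ∧
    (∀ e e', QuatCoord m w k v H S e → QuatCoord m' w' k' v' H' S' e' →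
      (PairEquiv S S' ↔ m = m' ∧ w ≡ w' [MOD m] ∧ k = k' ∧ v ≡ v' [MOD 2 ^ (k + 1)])) ∧
    (∀ e e', CycCoord m w H S e → DihCoord m' w' k' v' H' S' e' → ¬ PairEquiv S S') ∧
    (∀ e e', CycCoord m w H S e → QuatCoord m' w' k' v' H' S' e' → ¬ PairEquiv S S') ∧
    (∀ e e', QuatCoord m w k v H S e → DihCoord m' w' k' v' H' S' e' → ¬ PairEquiv S S')

end H67
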