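import Mathlib

namespace H67

open Equiv

theorem hull {n w : ℕ} (hp : ∀ p : ℕ, p.Prime → p ∣ n → (p : ℤ) ∣ (w : ℤ) - 1)
    (h4 : 4 ∣ n → (4 : ℤ) ∣ (w : ℤ) - 1) {k : ℕ}
    (h : (n : ℤ) ∣ ∑ i ∈ Finset.range k, (w : ℤ) ^ i) : n ∣ k := by
  by_cases hw : w = 1
  · subst hw
    simp only [Nat.cast_one, one_pow, Finset.sum_const, Finset.card_range,
      mul_one, nsmul_eq_mul] at h
    exact Int.natCast_dvd_natCast.mp h
  rw [Nat.dvd_iff_prime_pow_dvd_dvd]
  intro p e hpp hpe
  rcases Nat.eq_zero_or_pos e with rfl | he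
  · simp
  have hpn : p ∣ n := (dvd_pow_self p he.ne').trans hpe
  have hpw := hp p hpp hpn
  set S := ∑ i ∈ Finset.range k, (w : ℤ) ^ i with hS
  have hgeom : S * ((w : ℤ) - 1) = (w : ℤ) ^ k - 1 ^ k := by
    rw [hS, geom_sum_mul, one_pow]
  have hpS : ((p : ℤ)) ^ e ∣ S := by
    refine Dvd.dvd.trans ?_ h
    exact_mod_cast hpe
  have hpw' : ¬ (p : ℤ) ∣ (w : ℤ) := by
    intro hcon
    have h1 : (p : ℤ) ∣ 1 := by
      have := dvd_sub hcon hpw
      simpa using this
    have h2 : (p : ℤ) ∣ ((1 : ℕ) : ℤ) := by simpa using h1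
    exact hpp.one_lt.ne' (Nat.dvd_one.mp (Int.natCast_dvd_natCast.mp h2))
  have hpi : Prime (p : ℤ) := Nat.prime_iff_prime_int.mp hpp
  have hw1 : (w : ℤ) - 1 ≠ 0 := by
    intro h0
    apply hw
    have : (w : ℤ) = 1 := by linarith
    exact_mod_cast this
  have hfin : FiniteMultiplicity (p : ℤ) ((w : ℤ) - 1) := by
    apply Int.finiteMultiplicity_iff.mpr
    refine ⟨?_, hw1⟩
    rw [Int.natAbs_natCast]
    exact hpp.one_lt.ne'
  have key : emultiplicity (p : ℤ) ((w : ℤ) ^ k - 1 ^ k) =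
      emultiplicity (p : ℤ) ((w : ℤ) - 1) + emultiplicity p k → p ^ e ∣ k := by
    intro hk
    rw [← hgeom, emultiplicity_mul hpi, add_comm] at hk
    have h1 : emultiplicity (p : ℤ) S = emultiplicity p k := by
      have h2 : emultiplicity (p : ℤ) ((w : ℤ) - 1) ≠ ⊤ := by
        rw [ne_eq, emultiplicity_eq_top, not_not]; exact hfin
      exact ENat.add_right_injective_of_ne_top h2 hk
    rw [pow_dvd_iff_le_emultiplicity, ← h1, ← pow_dvd_iff_le_emultiplicity]
    exact hpS
  by_cases hp2 : p = 2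
  · subst hp2
    by_cases h44 : (4 : ℤ) ∣ (w : ℤ) - 1
    · apply key
      have := Int.two_pow_sub_pow' k h44 hpw'
      rw [show ((2 : ℕ) : ℤ) = 2 from rfl]
      rw [this]
      congr 1
      rw [show (2 : ℤ) = ((2 : ℕ) : ℤ) from rfl, Int.natCast_emultiplicity]
    · -- then e = 1
      have he1 : e = 1 := by
        by_contra hne
        apply h44
        apply h4
        have : 2 ^ 2 ∣ 2 ^ e := pow_dvd_pow 2 (by omega)
        exact this.trans hpe
      subst he1
      rw [pow_one] at hpS ⊢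
      have h1 : (2 : ℤ) ∣ S - k := by
        have : S - k = ∑ i ∈ Finset.range k, ((w : ℤ) ^ i - 1) := by
          rw [Finset.sum_sub_distrib, hS]; simp
        rw [this]
        apply Finset.dvd_sum
        intro i _
        exact hpw.trans (sub_one_dvd_pow_sub_one _ _)
      have h2 : (2 : ℤ) ∣ S := hpS
      have h3 : (2 : ℤ) ∣ (k : ℤ) := by
        have := dvd_sub h2 h1
        simpa using this
      exact_mod_cast h3
  · apply key
    have hodd : Odd p := hpp.odd_of_ne_two hp2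
    exact Int.emultiplicity_pow_sub_pow hpp hodd hpw hpw' k

theorem trans_of_period {A : Type} [Finite A] (S : Perm A) (x₀ : A)
    (h : ∀ k : ℕ, (S ^ k) x₀ = x₀ → Nat.card A ∣ k) : ∀ x y, ∃ i : ℕ, (S ^ i) x = y := by
  have hinj : Function.Injective (fun i : Fin (Nat.card A) => (S ^ (i : ℕ)) x₀) := by
    have key : ∀ i j : Fin (Nat.card A), (i : ℕ) ≤ j → (S ^ (i : ℕ)) x₀ = (S ^ (j : ℕ)) x₀ → i = j := by
      intro i j hij h1
      rw [show (j : ℕ) = i + (j - i) by omega, pow_add, Perm.mul_apply] at h1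
      have h2 := (S ^ (i : ℕ)).injective h1
      have h3 := h _ h2.symm
      have h5 := Nat.eq_zero_of_dvd_of_lt h3 (by omega)
      apply Fin.ext; omega
    intro i j hij
    rcases le_total (i : ℕ) j with hle | hle
    · exact key i j hle hij
    · exact (key j i hle hij.symm).symm
  have hsurj : Function.Surjective (fun i : Fin (Nat.card A) => (S ^ (i : ℕ)) x₀) := by
    apply ((Nat.bijective_iff_injective_and_card _).mpr ⟨hinj, ?_⟩).2
    rw [Nat.card_fin]
  intro x y
  obtain ⟨i, hi⟩ := hsurj x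
  obtain ⟨j, hj⟩ := hsurj y
  have hi' : (S ^ (i : ℕ)) x₀ = x := hi
  have hj' : (S ^ (j : ℕ)) x₀ = y := hj
  refine ⟨orderOf S * i - i + j, ?_⟩
  have hpos := orderOf_pos S
  rw [← hi', ← Perm.mul_apply, ← pow_add]
  have h1 : orderOf S * (i : ℕ) - i + j + i = j + orderOf S * i := by
    have : (i : ℕ) ≤ orderOf S * i := Nat.le_mul_of_pos_left _ hpos
    omega
  rw [h1, pow_add, pow_mul, pow_orderOf_eq_one, one_pow, mul_one, hj']

/-- Hull–Dobell for maps conjugate to `x ↦ w x + 1`. -/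
theorem hull_trans {A : Type} {n w : ℕ} (hn : 0 < n) (e : ZMod n ≃ A) {S : Perm A}
    (hS : ∀ x, S (e x) = e (w * x + 1))
    (hp : ∀ p : ℕ, p.Prime → p ∣ n → (p : ℤ) ∣ (w : ℤ) - 1)
    (h4 : 4 ∣ n → (4 : ℤ) ∣ (w : ℤ) - 1) : ∀ x y, ∃ i : ℕ, (S ^ i) x = y := by
  have : NeZero n := ⟨hn.ne'⟩
  have : Finite A := Finite.of_equiv _ e
  apply trans_of_period S (e 0)
  intro k hk
  have hcard : Nat.card A = n := by rw [← Nat.card_congr e, Nat.card_zmod]
  rw [hcard]
  have h1 : ∀ k : ℕ, (S ^ k) (e 0) = e (∑ i ∈ Finset.range k, (w : ZMod n) ^ i) := by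
    intro k
    induction k with
    | zero => simp
    | succ k ih =>
      rw [pow_succ', Perm.mul_apply, ih, hS, Finset.sum_range_succ', Finset.mul_sum]
      congr 1
      rw [pow_zero]
      congr 1
      apply Finset.sum_congr rfl
      intro i _
      rw [pow_succ']
  rw [h1] at hk
  have h2 := e.injective hk
  apply hull hp h4
  rw [← ZMod.intCast_zmod_eq_zero_iff_dvd]
  push_cast
  exact h2

end H67
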