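import Mathlib
import Pool.Agent.H67.Assem
import Pool.Agent.H67.Defs
import Pool.Agent.H67.Hull
import Pool.Agent.H67.Step

namespace H67

open Equiv

theorem isAff_of_hom {G : Type} [Group G] {T : Perm G} (φ : G →* G) (h : ∀ x, T x = T 1 * φ x) :
    ∃ α, IsAff T α := by
  have hbij : Function.Bijective φ := by
    constructor
    · intro x y hxy
      apply T.injective
      rw [h x, h y, hxy]
    · intro y
      obtain ⟨x, hx⟩ := T.surjective (T 1 * y)
      refine ⟨x, ?_⟩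
      rw [h x] at hx
      exact mul_left_cancel hx
  exact ⟨MulEquiv.ofBijective φ hbij, h⟩

theorem isAffine_iff {G : Type} [Group G] {T : Perm G} : IsAffine T ↔ ∃ α, IsAff T α := by
  constructor
  · rintro ⟨t, α, h⟩
    refine ⟨α, fun x => ?_⟩
    have h1 : T 1 = t := by rw [h, map_one, mul_one]
    rw [h1, h]
  · rintro ⟨α, h⟩
    exact ⟨T 1, α, h⟩

/-- product of full cycles of coprime lengths -/
theorem trans_prod {A B : Type} [Finite A] [Finite B] {S : Perm A} {R : Perm B}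
    (hS : ∀ x y, ∃ i : ℕ, (S ^ i) x = y) (hR : ∀ x y, ∃ i : ℕ, (R ^ i) x = y)
    (hcop : Nat.Coprime (Nat.card A) (Nat.card B)) (x₀ : A × B) :
    ∀ x y, ∃ i : ℕ, ((S.prodCongr R : Perm (A × B)) ^ i) x = y := by
  apply trans_of_period _ x₀
  intro k hk
  rw [prodCongr_pow] at hk
  have h1 : (S ^ k) x₀.1 = x₀.1 := congrArg Prod.fst hk
  have h2 : (R ^ k) x₀.2 = x₀.2 := congrArg Prod.snd hk
  have h3 := period_card S x₀.1 Set.univ (by
    intro y
    constructor
    · intro _; exact hS _ y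
    · intro _; trivial) k
  have h4 := period_card R x₀.2 Set.univ (by
    intro y
    constructor
    · intro _; exact hR _ y
    · intro _; trivial) k
  rw [Set.ncard_univ] at h3 h4
  rw [Nat.card_prod]
  exact hcop.mul_dvd_of_dvd_of_dvd (h3.mp h1) (h4.mp h2)

theorem trans_congr {A B : Type} (e : A ≃ B) {S : Perm A} {R : Perm B}
    (h : ∀ x, e (S x) = R (e x)) (hS : ∀ x y, ∃ i : ℕ, (S ^ i) x = y) :
    ∀ x y, ∃ i : ℕ, (R ^ i) x = y := by
  intro x y
  obtain ⟨a, rfl⟩ := e.surjective x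
  obtain ⟨b, rfl⟩ := e.surjective y
  obtain ⟨i, hi⟩ := hS a b
  refine ⟨i, ?_⟩
  rw [← hi]
  exact (semiconj_pow e S R h i a).symm

/-- the map `x ↦ w x + 1` as a permutation of `ZMod n` -/
theorem exists_affZ {n w : ℕ} (hn : 0 < n)
    (hp : ∀ p : ℕ, p.Prime → p ∣ n → (p : ℤ) ∣ (w : ℤ) - 1) :
    ∃ a : Perm (ZMod n), (∀ x, a x = w * x + 1) ∧ IsUnit (w : ZMod n) := by
  have hw : IsUnit (w : ZMod n) := by
    rw [ZMod.isUnit_iff_coprime]
    by_contra hcon
    rw [Nat.coprime_iff_gcd_eq_one] at hcon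
    obtain ⟨p, hpp, hpd⟩ := Nat.exists_prime_and_dvd hcon
    have h1 := hp p hpp (hpd.trans (Nat.gcd_dvd_right _ _))
    have h2 : (p : ℤ) ∣ (w : ℤ) := Int.natCast_dvd_natCast.mpr (hpd.trans (Nat.gcd_dvd_left _ _))
    have h3 : (p : ℤ) ∣ ((1 : ℕ) : ℤ) := by
      have := dvd_sub h2 h1
      simpa using this
    exact hpp.one_lt.ne' (Nat.dvd_one.mp (Int.natCast_dvd_natCast.mp h3))
  obtain ⟨u, hu⟩ := hw
  refine ⟨(Units.mulLeft u).trans (Equiv.addRight 1), fun x => ?_, ⟨u, hu⟩⟩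
  show (u : ZMod n) * x + 1 = _
  rw [hu]

theorem cyc_full {H : Type} [Group H] {S : Perm H} {m w : ℕ} (hm : 0 < m)
    (e : Multiplicative (ZMod m) ≃* H)
    (hw : ∀ p : ℕ, p.Prime → p ∣ m → (p : ℤ) ∣ (w : ℤ) - 1) (h4 : 4 ∣ m → (4 : ℤ) ∣ (w : ℤ) - 1)
    (hS : ∀ x : ZMod m, S (e (Multiplicative.ofAdd x)) = e (Multiplicative.ofAdd (w * x + 1))) :
    FullCyc H S := by
  have : NeZero m := ⟨hm.ne'⟩
  have hfin : Finite H := Finite.of_equiv _ e.toEquiv
  refine ⟨hfin, ?_, ?_⟩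
  · let φ : H →* H :=
      { toFun := fun x => e (Multiplicative.ofAdd ((w : ZMod m) * (e.symm x).toAdd))
        map_one' := by simp
        map_mul' := by
          intro x y
          rw [← map_mul, map_mul e.symm]
          congr 1
          rw [← ofAdd_add]; congr 1
          rw [toAdd_mul, mul_add] }
    apply isAff_of_hom φ
    intro x
    obtain ⟨x, rfl⟩ := e.surjective x
    obtain ⟨x, rfl⟩ := Multiplicative.ofAdd.surjective x
    have h1 : S 1 = e (Multiplicative.ofAdd 1) := by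
      have := hS 0
      rw [ofAdd_zero, map_one, mul_zero, zero_add] at this
      exact this
    rw [hS, h1]
    show _ = e _ * e (Multiplicative.ofAdd ((w : ZMod m) * (e.symm (e (Multiplicative.ofAdd x))).toAdd))
    rw [MulEquiv.symm_apply_apply, ← map_mul]
    congr 1
    rw [← ofAdd_add, add_comm]; rfl
  · exact hull_trans hm (Multiplicative.ofAdd.trans e.toEquiv) hS hw h4

end H67
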