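import Mathlib
import Pool.Agent.H67.Assem2
import Pool.Agent.H67.Conv1

namespace H67

open Equiv

theorem full_period {C : Type} [Group C] {K : Perm C} (h : FullCyc C K) (x : C) (n : ℕ) :
    (K ^ n) x = x ↔ Nat.card C ∣ n := by
  have := h.fin
  have h1 := period_card K x Set.univ (by
    intro y
    constructor
    · intro _; exact h.trans x y
    · intro _; trivial) n
  rwa [Set.ncard_univ] at h1

/-- products of full pairs of coprime orders -/
theorem full_prod {A B H : Type} [Group A] [Group B] [Group H] {K : Perm A} {L : Perm B}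
    {S : Perm H} (hK : FullCyc A K) (hL : FullCyc B L)
    (hcop : Nat.Coprime (Nat.card A) (Nat.card B)) (e : A × B ≃* H)
    (hS : ∀ x y, S (e (x, y)) = e (K x, L y)) : FullCyc H S := by
  have := hK.fin
  have := hL.fin
  have h1 : FullCyc (A × B) (K.prodCongr L) := by
    refine ⟨inferInstance, ?_, trans_prod hK.trans hL.trans hcop 1⟩
    obtain ⟨κ, hκ⟩ := hK.aff
    obtain ⟨ν, hν⟩ := hL.aff
    refine ⟨κ.prodCongr ν, ?_⟩
    rintro ⟨x, y⟩
    show (K x, L y) = (K 1, L 1) * (κ x, ν y)
    rw [Prod.mk_mul_mk, ← hκ, ← hν]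
  exact FullCyc.congr e h1 (fun x => (hS x.1 x.2).symm)

theorem exists_v {k v : ℕ} (hv : Odd v) : ∃ u : (ZMod (2 ^ k))ˣ, (u : ZMod (2 ^ k)) = v := by
  have : IsUnit (v : ZMod (2 ^ k)) := by
    rw [ZMod.isUnit_iff_coprime]
    exact Nat.Coprime.pow_right _ (Nat.coprime_two_right.mpr hv)
  obtain ⟨u, hu⟩ := this
  exact ⟨u, hu⟩

theorem sq_hyp {v : ℕ} (hv : Odd v) (k : ℕ) :
    (∀ p : ℕ, p.Prime → p ∣ 2 ^ k → (p : ℤ) ∣ ((v * v : ℕ) : ℤ) - 1) ∧
    (4 ∣ 2 ^ k → (4 : ℤ) ∣ ((v * v : ℕ) : ℤ) - 1) := by
  obtain ⟨c, rfl⟩ := hv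
  constructor
  · intro p hp hpk
    have h1 : p = 2 := (Nat.prime_dvd_prime_iff_eq hp Nat.prime_two).mp (hp.dvd_of_dvd_pow hpk)
    subst h1
    push_cast
    exact ⟨2 * c ^ 2 + 2 * c, by ring⟩
  · intro _
    push_cast
    exact ⟨c ^ 2 + c, by ring⟩

theorem dih_full {k v : ℕ} (hv : Odd v) :
    ∃ D : Perm (DihedralGroup (2 ^ k)), (∀ i, D (.r i) = .sr (v * i)) ∧
      (∀ i, D (.sr i) = .r (v * i + 1)) ∧ FullCyc (DihedralGroup (2 ^ k)) D := by
  set V : ZMod (2 ^ k) := (v : ZMod (2 ^ k)) with hV
  have hk0 : NeZero (2 ^ k) := ⟨by positivity⟩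
  obtain ⟨u, hu⟩ := exists_v (k := k) hv
  let f : DihedralGroup (2 ^ k) → DihedralGroup (2 ^ k) := fun x => match x with
    | .r i => .sr (V * i)
    | .sr i => .r (V * i + 1)
  have hfinj : Function.Injective f := by
    intro x y hxy
    rcases x with i | i <;> rcases y with j | j
    · have h1 : DihedralGroup.sr (V * i) = .sr (V * j) := hxy
      injection h1 with h1
      rw [hV, ← hu] at h1
      rw [(Units.mul_right_inj u).mp h1]
    · have h1 : DihedralGroup.sr (V * i) = .r (V * j + 1) := hxy
      cases h1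
    · have h1 : DihedralGroup.r (V * i + 1) = .sr (V * j) := hxy
      cases h1
    · have h1 : DihedralGroup.r (V * i + 1) = .r (V * j + 1) := hxy
      injection h1 with h1
      have h2 := add_right_cancel h1
      rw [hV, ← hu] at h2
      rw [(Units.mul_right_inj u).mp h2]
  let D : Perm (DihedralGroup (2 ^ k)) := Equiv.ofBijective f (Finite.injective_iff_bijective.mp hfinj)
  have hDr : ∀ i, D (.r i) = .sr (V * i) := fun i => rfl
  have hDs : ∀ i, D (.sr i) = .r (V * i + 1) := fun i => rfl
  refine ⟨D, hDr, hDs, inferInstance, ?_, ?_⟩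
  · let g : DihedralGroup (2 ^ k) → DihedralGroup (2 ^ k) := fun x => match x with
      | .r i => .r (V * i)
      | .sr i => .sr (V * i + 1)
    let φ : DihedralGroup (2 ^ k) →* DihedralGroup (2 ^ k) :=
      { toFun := g
        map_one' := by
          show DihedralGroup.r (V * 0) = DihedralGroup.r 0
          rw [mul_zero]
        map_mul' := by
          intro x y
          rcases x with i | i <;> rcases y with j | j
          · show DihedralGroup.r (V * (i + j)) = DihedralGroup.r (V * i + V * j)
            congr 1; ring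
          · show DihedralGroup.sr (V * (j - i) + 1) =
              DihedralGroup.sr (V * j + 1 - V * i)
            congr 1; ring
          · show DihedralGroup.sr (V * (i + j) + 1) =
              DihedralGroup.sr (V * i + 1 + V * j)
            congr 1; ring
          · show DihedralGroup.r (V * (j - i)) =
              DihedralGroup.r (V * j + 1 - (V * i + 1))
            congr 1; ring }
    apply isAff_of_hom φ
    intro x
    rcases x with i | i
    · show DihedralGroup.sr (V * i) =
        DihedralGroup.sr (V * 0 + V * i)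
      congr 1; ring
    · show DihedralGroup.r (V * i + 1) =
        DihedralGroup.r ((V * i + 1) - V * 0)
      congr 1; ring
  · apply trans_of_period D (.r 0)
    let a : Perm (ZMod (2 ^ k)) := (Units.mulLeft (u * u)).trans (Equiv.addRight 1)
    have ha : ∀ x, a x = ((v * v : ℕ) : ZMod (2 ^ k)) * x + 1 := by
      intro x
      show ((u * u : (ZMod (2 ^ k))ˣ) : ZMod (2 ^ k)) * x + 1 = _
      rw [Units.val_mul, hu]; push_cast; rfl
    have hatr := hull_trans (by positivity) (Equiv.refl (ZMod (2 ^ k))) (S := a) ha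
      (sq_hyp hv k).1 (sq_hyp hv k).2
    have haper := fun n => period_card a 0 Set.univ (by
      intro y
      constructor
      · intro _; exact hatr 0 y
      · intro _; trivial) n
    have hD2 : ∀ n i, (D ^ (2 * n)) (.r i) = .r ((a ^ n) i) := by
      intro n
      induction n with
      | zero => intro i; simp
      | succ n ih =>
        intro i
        rw [mul_add, mul_one, pow_add, Perm.mul_apply, pow_two D, Perm.mul_apply, hDr, hDs, ih,
          pow_succ, Perm.mul_apply, ha]
        push_cast
        rw [mul_assoc]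
    intro n hn
    have hcard : Nat.card (DihedralGroup (2 ^ k)) = 2 * 2 ^ k := by
      rw [Nat.card_eq_fintype_card, DihedralGroup.card]
    rw [hcard]
    rcases Nat.even_or_odd' n with ⟨c, rfl | rfl⟩
    · rw [hD2] at hn
      injection hn with hn
      have h1 := (haper c).mp hn
      rw [Set.ncard_univ, Nat.card_zmod] at h1
      exact Nat.mul_dvd_mul_left 2 h1
    · exfalso
      rw [pow_succ', Perm.mul_apply, hD2, hDr] at hn
      cases hn

theorem quat_full {k v : ℕ} (hv : Odd v) :
    ∃ D : Perm (QuaternionGroup (2 ^ k)), (∀ i, D (.a i) = .xa (v * i)) ∧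
      (∀ i, D (.xa i) = .a (v * i + 1)) ∧ FullCyc (QuaternionGroup (2 ^ k)) D := by
  set V : ZMod (2 * 2 ^ k) := (v : ZMod (2 * 2 ^ k)) with hV
  have hk0 : NeZero (2 ^ k) := ⟨by positivity⟩
  have hk1 : NeZero (2 * 2 ^ k) := ⟨by positivity⟩
  obtain ⟨u, hu⟩ : ∃ u : (ZMod (2 * 2 ^ k))ˣ, (u : ZMod (2 * 2 ^ k)) = v := by
    have := exists_v (k := k + 1) hv
    rwa [pow_succ'] at this
  have hvn : V * ((2 ^ k : ℕ) : ZMod (2 * 2 ^ k)) =
      ((2 ^ k : ℕ) : ZMod (2 * 2 ^ k)) := by
    obtain ⟨c, rfl⟩ := hv
    rw [← Nat.cast_mul, add_mul, one_mul, Nat.cast_add, add_eq_right,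
      ZMod.natCast_eq_zero_iff]
    exact ⟨c, by ring⟩
  let f : QuaternionGroup (2 ^ k) → QuaternionGroup (2 ^ k) := fun x => match x with
    | .a i => .xa (V * i)
    | .xa i => .a (V * i + 1)
  have hfinj : Function.Injective f := by
    intro x y hxy
    rcases x with i | i <;> rcases y with j | j
    · have h1 : QuaternionGroup.xa (V * i) = .xa (V * j) := hxy
      injection h1 with h1
      rw [hV, ← hu] at h1
      rw [(Units.mul_right_inj u).mp h1]
    · have h1 : QuaternionGroup.xa (V * i) = .a (V * j + 1) := hxy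
      cases h1
    · have h1 : QuaternionGroup.a (V * i + 1) = .xa (V * j) := hxy
      cases h1
    · have h1 : QuaternionGroup.a (V * i + 1) = .a (V * j + 1) := hxy
      injection h1 with h1
      have h2 := add_right_cancel h1
      rw [hV, ← hu] at h2
      rw [(Units.mul_right_inj u).mp h2]
  let D : Perm (QuaternionGroup (2 ^ k)) :=
    Equiv.ofBijective f (Finite.injective_iff_bijective.mp hfinj)
  have hDr : ∀ i, D (.a i) = .xa (V * i) := fun i => rfl
  have hDs : ∀ i, D (.xa i) = .a (V * i + 1) := fun i => rfl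
  refine ⟨D, hDr, hDs, inferInstance, ?_, ?_⟩
  · let g : QuaternionGroup (2 ^ k) → QuaternionGroup (2 ^ k) := fun x => match x with
      | .a i => .a (V * i)
      | .xa i => .xa (((2 ^ k : ℕ) : ZMod (2 * 2 ^ k)) + V * i + 1)
    let φ : QuaternionGroup (2 ^ k) →* QuaternionGroup (2 ^ k) :=
      { toFun := g
        map_one' := by
          show QuaternionGroup.a (V * 0) = QuaternionGroup.a 0
          rw [mul_zero]
        map_mul' := by
          intro x y
          rcases x with i | i <;> rcases y with j | j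
          · show QuaternionGroup.a (V * (i + j)) =
              QuaternionGroup.a (V * i + V * j)
            congr 1; ring
          · show QuaternionGroup.xa (((2 ^ k : ℕ) : ZMod (2 * 2 ^ k)) + V * (j - i) + 1) =
              QuaternionGroup.xa (((2 ^ k : ℕ) : ZMod (2 * 2 ^ k)) + V * j + 1 - V * i)
            congr 1; ring
          · show QuaternionGroup.xa (((2 ^ k : ℕ) : ZMod (2 * 2 ^ k)) + V * (i + j) + 1) =
              QuaternionGroup.xa (((2 ^ k : ℕ) : ZMod (2 * 2 ^ k)) + V * i + 1 + V * j)
            congr 1; ring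
          · show QuaternionGroup.a (V *
                (((2 ^ k : ℕ) : ZMod (2 * 2 ^ k)) + j - i)) =
              QuaternionGroup.a (((2 ^ k : ℕ) : ZMod (2 * 2 ^ k)) +
                (((2 ^ k : ℕ) : ZMod (2 * 2 ^ k)) + V * j + 1) -
                (((2 ^ k : ℕ) : ZMod (2 * 2 ^ k)) + V * i + 1))
            congr 1
            linear_combination hvn }
    apply isAff_of_hom φ
    intro x
    rcases x with i | i
    · show QuaternionGroup.xa (V * i) =
        QuaternionGroup.xa (V * 0 + V * i)
      congr 1; ring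
    · show QuaternionGroup.a (V * i + 1) =
        QuaternionGroup.a (((2 ^ k : ℕ) : ZMod (2 * 2 ^ k)) +
          (((2 ^ k : ℕ) : ZMod (2 * 2 ^ k)) + V * i + 1) - V * 0)
      congr 1
      have h2 : ((2 ^ k : ℕ) : ZMod (2 * 2 ^ k)) + ((2 ^ k : ℕ) : ZMod (2 * 2 ^ k)) = 0 := by
        rw [← Nat.cast_add, ZMod.natCast_eq_zero_iff]
        exact ⟨1, by ring⟩
      linear_combination -h2
  · apply trans_of_period D (.a 0)
    let a : Perm (ZMod (2 * 2 ^ k)) := (Units.mulLeft (u * u)).trans (Equiv.addRight 1)
    have ha : ∀ x, a x = ((v * v : ℕ) : ZMod (2 * 2 ^ k)) * x + 1 := by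
      intro x
      show ((u * u : (ZMod (2 * 2 ^ k))ˣ) : ZMod (2 * 2 ^ k)) * x + 1 = _
      rw [Units.val_mul, hu]; push_cast; rfl
    have hs := sq_hyp hv (k + 1)
    rw [pow_succ'] at hs
    have hatr := hull_trans (by positivity) (Equiv.refl (ZMod (2 * 2 ^ k))) (S := a) ha
      hs.1 hs.2
    have haper := fun n => period_card a 0 Set.univ (by
      intro y
      constructor
      · intro _; exact hatr 0 y
      · intro _; trivial) n
    have hD2 : ∀ n i, (D ^ (2 * n)) (.a i) = .a ((a ^ n) i) := by
      intro n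
      induction n with
      | zero => intro i; simp
      | succ n ih =>
        intro i
        rw [mul_add, mul_one, pow_add, Perm.mul_apply, pow_two D, Perm.mul_apply, hDr, hDs, ih,
          pow_succ, Perm.mul_apply, ha]
        push_cast
        rw [mul_assoc]
    intro n hn
    have hcard : Nat.card (QuaternionGroup (2 ^ k)) = 2 * (2 * 2 ^ k) := by
      rw [Nat.card_eq_fintype_card, QuaternionGroup.card]; ring
    rw [hcard]
    rcases Nat.even_or_odd' n with ⟨c, rfl | rfl⟩
    · rw [hD2] at hn
      injection hn with hn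
      have h1 := (haper c).mp hn
      rw [Set.ncard_univ, Nat.card_zmod] at h1
      exact Nat.mul_dvd_mul_left 2 h1
    · exfalso
      rw [pow_succ', Perm.mul_apply, hD2, hDr] at hn
      cases hn

/-- cores are full cycles -/
theorem core_full {H : Type} [Group H] {S : Perm H} (h : IsCore H S) : FullCyc H S := by
  rcases h with ⟨m, w, e, hm, hw, h4, hS⟩ | ⟨m, w, k, v, e, hm, hw, hk, hv, hS1, hS2⟩ |
    ⟨m, w, k, v, e, hm, hw, hk, hv, hS1, hS2⟩
  · exact cyc_full hm e hw h4 hS
  · obtain ⟨D, hD1, hD2, hD⟩ := dih_full (k := k) hv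
    have hm0 : 0 < m := hm.pos
    obtain ⟨a, ha, -⟩ := exists_affZ hm0 hw
    let a' : Perm (Multiplicative (ZMod m)) :=
      (Multiplicative.toAdd.trans a).trans Multiplicative.ofAdd
    have ha' : ∀ x, a' (Multiplicative.ofAdd x) = Multiplicative.ofAdd (w * x + 1) := by
      intro x
      show Multiplicative.ofAdd (a x) = _
      rw [ha]
    have h1 : FullCyc (Multiplicative (ZMod m)) a' :=
      cyc_full hm0 (MulEquiv.refl _) hw (by
        intro h4; exfalso
        exact (Nat.not_even_iff_odd.mpr hm) (even_iff_two_dvd.mpr ((by norm_num : 2 ∣ 4).trans h4)))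
        ha'
    apply full_prod h1 hD _ e
    · rintro x (i | i)
      · obtain ⟨y, rfl⟩ := Multiplicative.ofAdd.surjective x
        rw [hD1, ha', hS1]
      · obtain ⟨y, rfl⟩ := Multiplicative.ofAdd.surjective x
        rw [hD2, ha', hS2]
    · have : Nat.card (Multiplicative (ZMod m)) = m := by
        rw [Nat.card_congr Multiplicative.toAdd, Nat.card_zmod]
      rw [this]
      have hc : Nat.card (DihedralGroup (2 ^ k)) = 2 ^ (k + 1) := by
        rw [DihedralGroup.nat_card, pow_succ']
      rw [hc]
      exact Nat.Coprime.pow_right _ (Nat.coprime_two_right.mpr hm)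
  · obtain ⟨D, hD1, hD2, hD⟩ := quat_full (k := k) hv
    have hm0 : 0 < m := hm.pos
    obtain ⟨a, ha, -⟩ := exists_affZ hm0 hw
    let a' : Perm (Multiplicative (ZMod m)) :=
      (Multiplicative.toAdd.trans a).trans Multiplicative.ofAdd
    have ha' : ∀ x, a' (Multiplicative.ofAdd x) = Multiplicative.ofAdd (w * x + 1) := by
      intro x
      show Multiplicative.ofAdd (a x) = _
      rw [ha]
    have h1 : FullCyc (Multiplicative (ZMod m)) a' :=
      cyc_full hm0 (MulEquiv.refl _) hw (by
        intro h4; exfalso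
        exact (Nat.not_even_iff_odd.mpr hm) (even_iff_two_dvd.mpr ((by norm_num : 2 ∣ 4).trans h4)))
        ha'
    apply full_prod h1 hD _ e
    · rintro x (i | i)
      · obtain ⟨y, rfl⟩ := Multiplicative.ofAdd.surjective x
        rw [hD1, ha', hS1]
      · obtain ⟨y, rfl⟩ := Multiplicative.ofAdd.surjective x
        rw [hD2, ha', hS2]
    · have : Nat.card (Multiplicative (ZMod m)) = m := by
        rw [Nat.card_congr Multiplicative.toAdd, Nat.card_zmod]
      rw [this]
      have : NeZero (2 ^ k) := ⟨by positivity⟩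
      have hc : Nat.card (QuaternionGroup (2 ^ k)) = 2 ^ (k + 2) := by
        rw [Nat.card_eq_fintype_card, QuaternionGroup.card]; ring
      rw [hc]
      exact Nat.Coprime.pow_right _ (Nat.coprime_two_right.mpr hm)

end H67
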