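import Mathlib
import Pool.Agent.H67.Assem

namespace H67

open Equiv

/-- Ito's theorem, elementwise. -/
theorem ito {Γ : Type} [Group Γ] (A B : Subgroup Γ) (hA : ∀ x ∈ A, ∀ y ∈ A, x * y = y * x)
    (hB : ∀ x ∈ B, ∀ y ∈ B, x * y = y * x)
    (hAB : ∀ a ∈ A, ∀ b ∈ B, ∃ b' ∈ B, ∃ a' ∈ A, a * b = b' * a')
    {a a₁ b b₁ : Γ} (ha : a ∈ A) (ha₁ : a₁ ∈ A) (hb : b ∈ B) (hb₁ : b₁ ∈ B) :
    Commute (b * a * b⁻¹ * a⁻¹) (b₁ * a₁ * b₁⁻¹ * a₁⁻¹) := by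
  -- it suffices to treat inverses
  suffices H : ∀ a₁ ∈ A, ∀ b₁ ∈ B, (a₁ * b₁) * (b * a * b⁻¹ * a⁻¹) * (a₁ * b₁)⁻¹ =
      (b₁ * a₁) * (b * a * b⁻¹ * a⁻¹) * (b₁ * a₁)⁻¹ by
    have h1 := H a₁⁻¹ (A.inv_mem ha₁) b₁⁻¹ (B.inv_mem hb₁)
    set c := b * a * b⁻¹ * a⁻¹ with hc
    have h2 : Commute c (b₁ * a₁ * b₁⁻¹ * a₁⁻¹)⁻¹ := by
      show c * (b₁ * a₁ * b₁⁻¹ * a₁⁻¹)⁻¹ = (b₁ * a₁ * b₁⁻¹ * a₁⁻¹)⁻¹ * c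
      have h3 : c = (a₁⁻¹ * b₁⁻¹)⁻¹ * ((b₁⁻¹ * a₁⁻¹) * c * (b₁⁻¹ * a₁⁻¹)⁻¹) * (a₁⁻¹ * b₁⁻¹) := by
        rw [← h1]; group
      have h4 : c * ((a₁⁻¹ * b₁⁻¹)⁻¹ * (b₁⁻¹ * a₁⁻¹)) = ((a₁⁻¹ * b₁⁻¹)⁻¹ * (b₁⁻¹ * a₁⁻¹)) * c := by
        nth_rewrite 1 [h3]; group
      have h5 : (a₁⁻¹ * b₁⁻¹)⁻¹ * (b₁⁻¹ * a₁⁻¹) = b₁ * a₁ * b₁⁻¹ * a₁⁻¹ := by group
      rw [h5] at h4
      exact (Commute.inv_right (show Commute c _ from h4))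
    simpa using h2.inv_right
  intro a₁ ha₁ b₁ hb₁
  -- b₁ a b₁⁻¹ = a₂ b₂
  obtain ⟨a₂, ha₂, b₂, hb₂, h2⟩ : ∃ a₂ ∈ A, ∃ b₂ ∈ B, b₁ * a * b₁⁻¹ = a₂ * b₂ := by
    obtain ⟨b', hb', a', ha', h⟩ := hAB a⁻¹ (A.inv_mem ha) b₁⁻¹ (B.inv_mem hb₁)
    refine ⟨a'⁻¹, A.inv_mem ha', (b₁ * b')⁻¹, B.inv_mem (B.mul_mem hb₁ hb'), ?_⟩
    have : b₁ * a * b₁⁻¹ = (b₁ * (a⁻¹ * b₁⁻¹))⁻¹ := by group
    rw [this, h]; group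
  obtain ⟨b₃, hb₃, a₃, ha₃, h3⟩ : ∃ b₃ ∈ B, ∃ a₃ ∈ A, a₁ * b * a₁⁻¹ = b₃ * a₃ := by
    obtain ⟨b', hb', a', ha', h⟩ := hAB a₁ ha₁ b hb
    exact ⟨b', hb', a' * a₁⁻¹, A.mul_mem ha' (A.inv_mem ha₁), by rw [h]; group⟩
  have e1 : b₁ * b * b₁⁻¹ = b := by rw [hB b₁ hb₁ b hb]; group
  have e2 : a₁ * a * a₁⁻¹ = a := by rw [hA a₁ ha₁ a ha]; group
  have e3 : a₁ * a₂ * a₁⁻¹ = a₂ := by rw [hA a₁ ha₁ a₂ ha₂]; group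
  have e4 : b₁ * b₃ * b₁⁻¹ = b₃ := by rw [hB b₁ hb₁ b₃ hb₃]; group
  -- left side
  have l1 : b₁ * (b * a * b⁻¹ * a⁻¹) * b₁⁻¹ = b * a₂ * b⁻¹ * a₂⁻¹ := by
    calc b₁ * (b * a * b⁻¹ * a⁻¹) * b₁⁻¹ =
        (b₁ * b * b₁⁻¹) * (b₁ * a * b₁⁻¹) * (b₁ * b * b₁⁻¹)⁻¹ * (b₁ * a * b₁⁻¹)⁻¹ := by group
      _ = b * (a₂ * b₂) * b⁻¹ * (a₂ * b₂)⁻¹ := by rw [e1, h2]
      _ = b * a₂ * (b₂ * b⁻¹) * b₂⁻¹ * a₂⁻¹ := by group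
      _ = b * a₂ * (b⁻¹ * b₂) * b₂⁻¹ * a₂⁻¹ := by rw [hB b₂ hb₂ b⁻¹ (B.inv_mem hb)]
      _ = _ := by group
  have l2 : a₁ * (b * a₂ * b⁻¹ * a₂⁻¹) * a₁⁻¹ = b₃ * a₂ * b₃⁻¹ * a₂⁻¹ := by
    calc a₁ * (b * a₂ * b⁻¹ * a₂⁻¹) * a₁⁻¹ =
        (a₁ * b * a₁⁻¹) * (a₁ * a₂ * a₁⁻¹) * (a₁ * b * a₁⁻¹)⁻¹ * (a₁ * a₂ * a₁⁻¹)⁻¹ := by group
      _ = (b₃ * a₃) * a₂ * (b₃ * a₃)⁻¹ * a₂⁻¹ := by rw [e3, h3]
      _ = b₃ * (a₃ * a₂) * a₃⁻¹ * b₃⁻¹ * a₂⁻¹ := by group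
      _ = b₃ * (a₂ * a₃) * a₃⁻¹ * b₃⁻¹ * a₂⁻¹ := by rw [hA a₃ ha₃ a₂ ha₂]
      _ = _ := by group
  have r1 : a₁ * (b * a * b⁻¹ * a⁻¹) * a₁⁻¹ = b₃ * a * b₃⁻¹ * a⁻¹ := by
    calc a₁ * (b * a * b⁻¹ * a⁻¹) * a₁⁻¹ =
        (a₁ * b * a₁⁻¹) * (a₁ * a * a₁⁻¹) * (a₁ * b * a₁⁻¹)⁻¹ * (a₁ * a * a₁⁻¹)⁻¹ := by group
      _ = (b₃ * a₃) * a * (b₃ * a₃)⁻¹ * a⁻¹ := by rw [e2, h3]
      _ = b₃ * (a₃ * a) * a₃⁻¹ * b₃⁻¹ * a⁻¹ := by group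
      _ = b₃ * (a * a₃) * a₃⁻¹ * b₃⁻¹ * a⁻¹ := by rw [hA a₃ ha₃ a ha]
      _ = _ := by group
  have r2 : b₁ * (b₃ * a * b₃⁻¹ * a⁻¹) * b₁⁻¹ = b₃ * a₂ * b₃⁻¹ * a₂⁻¹ := by
    calc b₁ * (b₃ * a * b₃⁻¹ * a⁻¹) * b₁⁻¹ =
        (b₁ * b₃ * b₁⁻¹) * (b₁ * a * b₁⁻¹) * (b₁ * b₃ * b₁⁻¹)⁻¹ * (b₁ * a * b₁⁻¹)⁻¹ := by group
      _ = b₃ * (a₂ * b₂) * b₃⁻¹ * (a₂ * b₂)⁻¹ := by rw [e4, h2]
      _ = b₃ * a₂ * (b₂ * b₃⁻¹) * b₂⁻¹ * a₂⁻¹ := by group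
      _ = b₃ * a₂ * (b₃⁻¹ * b₂) * b₂⁻¹ * a₂⁻¹ := by rw [hB b₂ hb₂ b₃⁻¹ (B.inv_mem hb₃)]
      _ = _ := by group
  calc (a₁ * b₁) * (b * a * b⁻¹ * a⁻¹) * (a₁ * b₁)⁻¹
      = a₁ * (b₁ * (b * a * b⁻¹ * a⁻¹) * b₁⁻¹) * a₁⁻¹ := by group
    _ = b₃ * a₂ * b₃⁻¹ * a₂⁻¹ := by rw [l1, l2]
    _ = b₁ * (a₁ * (b * a * b⁻¹ * a⁻¹) * a₁⁻¹) * b₁⁻¹ := by rw [r1, r2]
    _ = _ := by group

variable {G : Type} [Group G]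

/-- a transitive affine map on a finite group -/
structure FC (T : Perm G) (α : MulAut G) : Prop where
  fin : Finite G
  aff : IsAff T α
  trans : ∀ x y, ∃ i : ℕ, (T ^ i) x = y

theorem FC.full {T : Perm G} {α : MulAut G} (h : FC T α) : FullCyc G T :=
  ⟨h.fin, ⟨α, h.aff⟩, h.trans⟩

theorem FullCyc.fc {T : Perm G} (h : FullCyc G T) : ∃ α, FC T α := by
  obtain ⟨α, hα⟩ := h.aff
  exact ⟨α, h.fin, hα, h.trans⟩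

theorem affine_pow_apply {T : Perm G} {α : MulAut G} (h : IsAff T α) (i : ℕ) (x : G) :
    (T ^ i) x = (T ^ i) 1 * (α ^ i) x := (h.pow i) x

theorem FC.comm_gen {T : Perm G} {α : MulAut G} (h : FC T α) (x y : G) :
    Commute (x * (α x)⁻¹) (y * (α y)⁻¹) := by
  have := h.fin
  -- work in Perm G
  let a : Perm G := α.toEquiv
  let L : G → Perm G := fun g => Equiv.mulLeft g
  have hL : ∀ g x, L g x = g * x := fun g x => rfl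
  have haL : ∀ g, a * L g = L (α g) * a := by
    intro g; ext x
    show α (g * x) = α g * α x
    rw [map_mul]
  have hanL : ∀ (n : ℕ) g, a ^ n * L g = L ((α ^ n) g) * a ^ n := by
    intro n
    induction n with
    | zero => intro g; simp
    | succ n ih =>
      intro g
      rw [pow_succ', mul_assoc, ih, ← mul_assoc, haL, mul_assoc, pow_succ' α]
      rfl
  have hLm : ∀ g h, L g * L h = L (g * h) := by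
    intro g h; ext x; show g * (h * x) = g * h * x; rw [mul_assoc]
  have hTn : ∀ n : ℕ, T ^ n = L ((T ^ n) 1) * a ^ n := by
    intro n; ext x
    rw [Perm.mul_apply, hL, mulAut_toEquiv_pow]
    exact (h.aff.pow n) x
  have ha_fix : ∀ p ∈ Subgroup.zpowers a, ∃ n : ℕ, p = a ^ n := by
    intro p hp
    rw [← mem_powers_iff_mem_zpowers] at hp
    obtain ⟨n, hn⟩ := hp
    exact ⟨n, hn.symm⟩
  have hT_fix : ∀ p ∈ Subgroup.zpowers T, ∃ n : ℕ, p = T ^ n := by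
    intro p hp
    rw [← mem_powers_iff_mem_zpowers] at hp
    obtain ⟨n, hn⟩ := hp
    exact ⟨n, hn.symm⟩
  have hAB : ∀ p ∈ Subgroup.zpowers a, ∀ q ∈ Subgroup.zpowers T,
      ∃ q' ∈ Subgroup.zpowers T, ∃ p' ∈ Subgroup.zpowers a, p * q = q' * p' := by
    intro p hp q hq
    obtain ⟨n, rfl⟩ := ha_fix p hp
    obtain ⟨m, rfl⟩ := hT_fix q hq
    obtain ⟨l, hl⟩ := h.trans 1 ((α ^ n) ((T ^ m) 1))
    refine ⟨T ^ l, Subgroup.npow_mem_zpowers T l, (a ^ l)⁻¹ * (a ^ n * a ^ m),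
      Subgroup.mul_mem _ (Subgroup.inv_mem _ (Subgroup.npow_mem_zpowers a l))
        (Subgroup.mul_mem _ (Subgroup.npow_mem_zpowers a n) (Subgroup.npow_mem_zpowers a m)), ?_⟩
    have hTm := hTn m
    have hTl := hTn l
    rw [hl] at hTl
    generalize (T ^ m) 1 = c at hTm hTl
    rw [hTm, hTl, ← mul_assoc, hanL]
    group
  have key : ∀ x : G, ∃ b ∈ Subgroup.zpowers T, L (x * (α x)⁻¹) = b * a * b⁻¹ * a⁻¹ := by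
    intro x
    obtain ⟨i, hi⟩ := h.trans 1 x
    refine ⟨T ^ i, Subgroup.npow_mem_zpowers T i, ?_⟩
    rw [hTn i, hi]
    have h1 : L x * a ^ i * a * (L x * a ^ i)⁻¹ * a⁻¹ = L x * (a * (L x)⁻¹ * a⁻¹) := by
      have : a ^ i * a * (a ^ i)⁻¹ = a := by rw [← pow_succ, pow_succ']; group
      calc L x * a ^ i * a * (L x * a ^ i)⁻¹ * a⁻¹
          = L x * (a ^ i * a * (a ^ i)⁻¹) * (L x)⁻¹ * a⁻¹ := by group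
        _ = L x * a * (L x)⁻¹ * a⁻¹ := by rw [this]
        _ = _ := by group
    rw [h1]
    have h2 : (L x)⁻¹ = L x⁻¹ := by
      rw [inv_eq_iff_mul_eq_one, hLm]
      ext y; simp [hL]
    rw [h2, haL, mul_assoc, mul_inv_cancel, mul_one, hLm, map_inv]
  obtain ⟨b, hb, hbx⟩ := key x
  obtain ⟨b₁, hb₁, hby⟩ := key y
  have hcomm : ∀ (p : Perm G), ∀ x ∈ Subgroup.zpowers p, ∀ y ∈ Subgroup.zpowers p, x * y = y * x := by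
    rintro p _ ⟨m, rfl⟩ _ ⟨n, rfl⟩
    exact (Commute.refl p).zpow_zpow m n
  have h1 := ito (Subgroup.zpowers a) (Subgroup.zpowers T) (hcomm a) (hcomm T) hAB
    (Subgroup.mem_zpowers a) (Subgroup.mem_zpowers a) hb hb₁
  rw [← hbx, ← hby] at h1
  have h2 : L (x * (α x)⁻¹ * (y * (α y)⁻¹)) = L (y * (α y)⁻¹ * (x * (α x)⁻¹)) := by
    rw [← hLm (x * (α x)⁻¹), ← hLm (y * (α y)⁻¹)]; exact h1
  have h3 := congrArg (fun p : Perm G => p 1) h2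
  have h4 : (x * (α x)⁻¹) * (y * (α y)⁻¹) = (y * (α y)⁻¹) * (x * (α x)⁻¹) := by
    simpa [hL] using h3
  exact h4

/-- `[G, α]` is abelian for a transitive affine map. -/
theorem FC.cK_comm {T : Perm G} {α : MulAut G} (h : FC T α) :
    ∀ x ∈ cK α, ∀ y ∈ cK α, x * y = y * x := by
  have hgen : ∀ x y : G, Commute (x⁻¹ * α x) (y⁻¹ * α y) := by
    intro x y
    have := h.comm_gen x⁻¹ y⁻¹
    simpa using this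
  intro x hx y hy
  have h1 : ∀ g : G, ∀ y ∈ cK α, Commute (g⁻¹ * α g) y := by
    intro g y hy
    induction hy using Subgroup.closure_induction with
    | mem y hy => obtain ⟨k, rfl⟩ := hy; exact hgen g k
    | one => exact Commute.one_right _
    | mul a b _ _ ha hb => exact ha.mul_right hb
    | inv a _ ha => exact ha.inv_right
  have h2 : ∀ x ∈ cK α, Commute x y := by
    intro x hx
    induction hx using Subgroup.closure_induction with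
    | mem x hx => obtain ⟨k, rfl⟩ := hx; exact h1 k y hy
    | one => exact Commute.one_left _
    | mul a b _ _ ha hb => exact ha.mul_left hb
    | inv a _ ha => exact ha.inv_left
  exact h2 x hx

end H67
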