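import Mathlib
import Pool.Agent.H67.Ito

namespace H67

open Equiv

variable {G : Type} [Group G]

theorem FC.order {T : Perm G} {α : MulAut G} (h : FC T α) : orderOf T = Nat.card G :=
  orderOf_full h.full

theorem FC.fix_iff {T : Perm G} {α : MulAut G} (h : FC T α) (x : G) (n : ℕ) :
    (T ^ n) x = x ↔ Nat.card G ∣ n := by
  have := h.fin
  have h1 := period_card T x Set.univ (by
    intro y
    constructor
    · intro _; exact h.trans x y
    · intro _; trivial) n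
  rwa [Set.ncard_univ] at h1

theorem FC.quo {T : Perm G} {α : MulAut G} (h : FC T α) (N : Subgroup G) [N.Normal]
    (hN : ∀ x ∈ N, α x ∈ N) :
    ∃ (S : Perm (G ⧸ N)) (β : MulAut (G ⧸ N)), FC S β ∧
      (∀ x : G, S (x : G ⧸ N) = (T x : G ⧸ N)) ∧ (∀ x : G, β (x : G ⧸ N) = (α x : G ⧸ N)) := by
  have := h.fin
  obtain ⟨S, β, hS, hST, hSβ⟩ := exists_quo h.aff N hN
  refine ⟨S, β, ⟨inferInstance, hS, ?_⟩, hST, hSβ⟩
  intro x y
  induction x using QuotientGroup.induction_on with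
  | H x =>
    induction y using QuotientGroup.induction_on with
    | H y =>
      obtain ⟨i, hi⟩ := h.trans x y
      refine ⟨i, ?_⟩
      rw [← hi]
      exact (semiconj_pow (fun y : G => (y : G ⧸ N)) T S (fun y => (hST y).symm) i x).symm

theorem FC.mem_iff {T : Perm G} {α : MulAut G} (h : FC T α) (N : Subgroup G) [N.Normal]
    (hN : ∀ x ∈ N, α x ∈ N) (x : G) (n : ℕ) : x⁻¹ * (T ^ n) x ∈ N ↔ N.index ∣ n := by
  obtain ⟨S, β, hS, hST, hSβ⟩ := h.quo N hN
  rw [← QuotientGroup.eq, semiconj_pow (fun y : G => (y : G ⧸ N)) T S (fun y => (hST y).symm) n x,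
    eq_comm, hS.fix_iff]
  rfl

theorem FC.sub {T : Perm G} {α : MulAut G} (h : FC T α) (N : Subgroup G) [N.Normal]
    (hN : ∀ x ∈ N, α x ∈ N) :
    ∃ (S : Perm N) (β : MulAut N), FC S β ∧ (∀ x : N, (S x : G) = (T ^ N.index) x) ∧
      (∀ x : N, (β x : G) = (α ^ N.index) x) := by
  have := h.fin
  have h1 : ∀ x ∈ N, (T ^ N.index) x ∈ N := by
    intro x hx
    have h2 := (h.mem_iff N hN x N.index).mpr dvd_rfl
    have h3 := N.mul_mem hx h2
    rwa [mul_inv_cancel_left] at h3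
  obtain ⟨S, β, hS, hST, hSβ⟩ := exists_res (h.aff.pow N.index) N h1
  refine ⟨S, β, ⟨inferInstance, hS, ?_⟩, hST, hSβ⟩
  intro x y
  obtain ⟨i, hi⟩ := h.trans x y
  have h2 : (x : G)⁻¹ * (T ^ i) x ∈ N := by
    rw [hi]; exact N.mul_mem (N.inv_mem x.2) y.2
  obtain ⟨j, rfl⟩ := (h.mem_iff N hN x i).mp h2
  refine ⟨j, Subtype.ext ?_⟩
  rw [← hi, pow_mul]
  exact semiconj_pow (fun y : N => (y : G)) S (T ^ N.index) hST j x

theorem FC.trivial_of_fix {T : Perm G} {α : MulAut G} (h : FC T α) {x : G} (hx : T x = x) :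
    ∀ y : G, y = 1 := by
  have h1 : ∀ n : ℕ, (T ^ n) x = x := by
    intro n
    induction n with
    | zero => rfl
    | succ n ih => rw [pow_succ, Perm.mul_apply, hx, ih]
  have h2 : ∀ y, y = x := by
    intro y
    obtain ⟨i, hi⟩ := h.trans x y
    rw [← hi, h1]
  intro y
  rw [h2 y, h2 1]

/-- a full cycle on an abelian group with `α - 1` injective is trivial -/
theorem FC.trivial_of_inj {T : Perm G} {α : MulAut G} (h : FC T α)
    (hc : ∀ x y : G, x * y = y * x) (hinj : ∀ x, α x = x → x = 1) : ∀ y : G, y = 1 := by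
  have := h.fin
  let f : G → G := fun q => q * (α q)⁻¹
  have hf : Function.Injective f := by
    intro q q' hqq
    have h1 : q * (α q)⁻¹ = q' * (α q')⁻¹ := hqq
    have h2 : q'⁻¹ * q = 1 := by
      apply hinj
      rw [map_mul, map_inv]
      have h3 : α q = (q' * (α q')⁻¹)⁻¹ * q := by rw [← h1]; group
      rw [h3, hc]
      have h4 : (q' * (α q')⁻¹)⁻¹ * q * (α q')⁻¹ = α q' * (q'⁻¹ * q) * (α q')⁻¹ := by group
      rw [h4, hc (α q')]; group
    exact (inv_mul_eq_one.mp h2).symm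
  obtain ⟨q, hq⟩ := Finite.surjective_of_injective hf (T 1)
  apply h.trivial_of_fix (x := q)
  have h1 : q * (α q)⁻¹ = T 1 := hq
  rw [h.aff, ← h1]; group

/-- if `α` fixes `t = T 1` then everything is generated by `t` -/
theorem FC.of_fix_t {T : Perm G} {α : MulAut G} (h : FC T α) (ht : α (T 1) = T 1) :
    ∀ x, ∃ i : ℕ, x = (T 1) ^ i := by
  intro x
  obtain ⟨i, rfl⟩ := h.trans 1 x
  refine ⟨i, ?_⟩
  induction i with
  | zero => simp
  | succ i ih =>
    rw [pow_succ', Perm.mul_apply, ih, h.aff, map_pow, ht, pow_succ']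

theorem cK_mem' (α : MulAut G) (g : G) : α g * g⁻¹ ∈ cK α := by
  have := cK_mem α g⁻¹
  rw [map_inv, inv_inv] at this
  have h2 := (cK α).inv_mem this
  rwa [mul_inv_rev, inv_inv] at h2

/-- every element is `t^i b` -/
theorem FC.gen {T : Perm G} {α : MulAut G} (h : FC T α) (x : G) :
    ∃ i : ℕ, ∃ b ∈ cK α, x = (T 1) ^ i * b := by
  have hn := cK_normal α
  obtain ⟨i, rfl⟩ := h.trans 1 x
  refine ⟨i, ((T 1) ^ i)⁻¹ * (T ^ i) 1, ?_, by group⟩
  induction i with
  | zero => simp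
  | succ i ih =>
    rw [pow_succ' T, Perm.mul_apply, h.aff ((T ^ i) 1), pow_succ']
    have h1 : (T 1 * T 1 ^ i)⁻¹ * (T 1 * α ((T ^ i) 1)) =
        ((T 1) ^ i)⁻¹ * (α ((T ^ i) 1) * ((T ^ i) 1)⁻¹) * (T 1) ^ i * (((T 1) ^ i)⁻¹ * (T ^ i) 1) := by
      group
    rw [h1]
    apply (cK α).mul_mem _ ih
    have := hn.conj_mem _ (cK_mem' α ((T ^ i) 1)) ((T 1) ^ i)⁻¹
    rwa [inv_inv] at this

end H67
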