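import Mathlib
import Pool.Agent.H67.FCBasic

namespace H67

open Equiv

/-- transfer of `FC` to a commutative structure -/
def yHom {V : Type} [CommGroup V] (β : MulAut V) : V →* V where
  toFun x := x⁻¹ * β x
  map_one' := by simp
  map_mul' x y := by
    rw [map_mul, mul_inv]
    exact mul_mul_mul_comm _ _ _ _

theorem yHom_apply {V : Type} [CommGroup V] (β : MulAut V) (x : V) : yHom β x = x⁻¹ * β x := rfl

theorem β_eq {V : Type} [CommGroup V] (β : MulAut V) (x : V) : β x = x * yHom β x := by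
  rw [yHom_apply]; group

theorem yHom_comm {V : Type} [CommGroup V] (β : MulAut V) (x : V) :
    yHom β (β x) = β (yHom β x) := by
  rw [yHom_apply, yHom_apply, map_mul, map_inv]

theorem iter_comm {V : Type} [CommGroup V] (β : MulAut V) (j : ℕ) (x : V) :
    (yHom β)^[j] (β x) = β ((yHom β)^[j] x) := by
  induction j generalizing x with
  | zero => rfl
  | succ j ih => rw [Function.iterate_succ_apply, yHom_comm, ih, ← Function.iterate_succ_apply]

theorem iter_mul {V : Type} [CommGroup V] (y : V →* V) (j : ℕ) (a b : V) :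
    y^[j] (a * b) = y^[j] a * y^[j] b := by
  induction j generalizing a b with
  | zero => rfl
  | succ j ih => rw [Function.iterate_succ_apply, map_mul, ih]; rfl

theorem iter_one {V : Type} [CommGroup V] (y : V →* V) (j : ℕ) : y^[j] (1 : V) = 1 := by
  induction j with
  | zero => rfl
  | succ j ih => rw [Function.iterate_succ_apply, map_one, ih]

theorem iter_inv {V : Type} [CommGroup V] (y : V →* V) (j : ℕ) (a : V) :
    y^[j] a⁻¹ = (y^[j] a)⁻¹ := by
  induction j generalizing a with
  | zero => rfl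
  | succ j ih => rw [Function.iterate_succ_apply, map_inv, ih]; rfl

/-- kernel of the iterate -/
def kerIt {V : Type} [CommGroup V] (y : V →* V) (j : ℕ) : Subgroup V where
  carrier := {x | y^[j] x = 1}
  mul_mem' := by
    intro a b ha hb
    have ha' : y^[j] a = 1 := ha
    have hb' : y^[j] b = 1 := hb
    show y^[j] (a * b) = 1
    rw [iter_mul, ha', hb', mul_one]
  one_mem' := iter_one y j
  inv_mem' := by
    intro a ha
    have ha' : y^[j] a = 1 := ha
    show y^[j] a⁻¹ = 1
    rw [iter_inv, ha', inv_one]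

/-- range of the iterate -/
def ranIt {V : Type} [CommGroup V] (y : V →* V) (j : ℕ) : Subgroup V where
  carrier := {x | ∃ z, y^[j] z = x}
  mul_mem' := by
    rintro a b ⟨c, rfl⟩ ⟨d, rfl⟩
    exact ⟨c * d, iter_mul y j c d⟩
  one_mem' := ⟨1, iter_one y j⟩
  inv_mem' := by
    rintro a ⟨c, rfl⟩
    exact ⟨c⁻¹, iter_inv y j c⟩

theorem ranIt_succ_le {V : Type} [CommGroup V] (y : V →* V) (j : ℕ) :
    ranIt y (j + 1) ≤ ranIt y j := by
  rintro _ ⟨z, rfl⟩
  exact ⟨y z, rfl⟩

theorem fc_stable {V : Type} [CommGroup V] {S : Perm V} {β : MulAut V} (h : FC S β) {j : ℕ}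
    (hj : ranIt (yHom β) j ≤ ranIt (yHom β) (j + 1)) : ∀ x, (yHom β)^[j] x = 1 := by
  have := h.fin
  set y := yHom β with hy
  -- y injective on the range
  have hmap : ∀ x : ranIt y j, y x ∈ ranIt y j := by
    rintro ⟨_, ⟨z, rfl⟩⟩
    exact ⟨y z, by
      show y^[j] (y z) = y (y^[j] z)
      rw [← Function.iterate_succ_apply, Function.iterate_succ_apply']⟩
  have hinj : Function.Injective (fun x : ranIt y j => (⟨y x, hmap x⟩ : ranIt y j)) := by
    apply Finite.injective_iff_surjective.mpr
    rintro ⟨x, hx⟩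
    obtain ⟨z, hz⟩ := hj hx
    refine ⟨⟨y^[j] z, ⟨z, rfl⟩⟩, Subtype.ext ?_⟩
    show y (y^[j] z) = x
    rw [← Function.iterate_succ_apply' y j z, hz]
  have hker : ∀ x, y^[j + 1] x = 1 → y^[j] x = 1 := by
    intro x hx
    have h1 : (⟨y (y^[j] x), hmap ⟨_, ⟨x, rfl⟩⟩⟩ : ranIt y j) = ⟨y ((1 : ranIt y j) : V), hmap 1⟩ := by
      apply Subtype.ext
      show y (y^[j] x) = y 1
      rw [← Function.iterate_succ_apply' y j x, hx, map_one]
    have h2 := hinj (a₁ := ⟨y^[j] x, ⟨x, rfl⟩⟩) (a₂ := 1) h1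
    exact congrArg Subtype.val h2
  have hK : ∀ x ∈ kerIt y j, β x ∈ kerIt y j := by
    intro x hx
    have hx' : y^[j] x = 1 := hx
    show y^[j] (β x) = 1
    rw [iter_comm, hx', map_one]
  obtain ⟨S', β', hS', -, hβ'⟩ := h.quo (kerIt y j) hK
  have htriv := hS'.trivial_of_inj (fun a b => mul_comm a b) (by
    intro q hq
    induction q using QuotientGroup.induction_on with
    | H x =>
      rw [hβ'] at hq
      have h1 : x⁻¹ * β x ∈ kerIt y j := QuotientGroup.eq.mp hq.symm
      have h2 : y^[j + 1] x = 1 := h1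
      exact (QuotientGroup.eq_one_iff x).mpr (hker x h2))
  intro x
  exact (QuotientGroup.eq_one_iff x).mp (htriv (x : V ⧸ kerIt y j))

theorem fc_y2 {V : Type} [CommGroup V] {S : Perm V} {β : MulAut V} (h : FC S β) {p : ℕ}
    (hp : p.Prime) (hp2 : p ≠ 2) (hexp : ∀ x : V, x ^ p = 1)
    (hy : ∀ x, yHom β (yHom β x) = 1) : Nat.card V ∣ p := by
  set c := S 1 with hc
  have h1 : ∀ n : ℕ, (S ^ n) 1 = c ^ n * (yHom β c) ^ (n.choose 2) := by
    intro n
    induction n with
    | zero => simp
    | succ n ih =>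
      rw [pow_succ', Perm.mul_apply, ih, h.aff, ← hc, map_mul, map_pow, map_pow, β_eq β c,
        β_eq β (yHom β c), hy, mul_one, mul_pow, Nat.choose_succ_succ' n 1, Nat.choose_one_right,
        pow_add, pow_succ']
      group
  have h2 : (S ^ p) 1 = 1 := by
    rw [h1, hexp, one_mul]
    have h3 : p ∣ p.choose 2 := hp.dvd_choose_self (by omega) (by have := hp.two_le; omega)
    obtain ⟨q, hq⟩ := h3
    rw [hq, pow_mul, hexp, one_pow]
  exact (h.fix_iff 1 p).mp h2

theorem fc_y3 {V : Type} [CommGroup V] {S : Perm V} {β : MulAut V} (h : FC S β)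
    (hexp : ∀ x : V, x ^ 2 = 1)
    (hy : ∀ x, yHom β (yHom β (yHom β x)) = 1) : Nat.card V ∣ 4 := by
  set c := S 1 with hc
  set b := yHom β c with hb
  set d := yHom β b with hd
  have e1 : β c = c * b := β_eq β c
  have e2 : β b = b * d := β_eq β b
  have e3 : β d = d := by rw [β_eq β d, hd, hb, hy, mul_one]
  have hS : ∀ x, S x = c * β x := fun x => h.aff x
  have hsq : ∀ x : V, x * x = 1 := fun x => by rw [← pow_two]; exact hexp x
  have f2 : S (S 1) = b := by
    rw [hS (S 1), ← hc, e1, ← mul_assoc, hsq, one_mul]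
  have f3 : S (S (S 1)) = c * b * d := by rw [f2, hS, e2, mul_assoc]
  have f4 : S (S (S (S 1))) = 1 := by
    rw [f3, hS, map_mul, map_mul, e1, e2, e3]
    have : c * (c * b * (b * d) * d) = (c * c) * (b * b) * (d * d) := by
      simp only [mul_comm, mul_left_comm]
    rw [this, hsq c, hsq b, hsq d]; simp
  have h2 : (S ^ 4) 1 = 1 := f4
  exact (h.fix_iff 1 4).mp h2

theorem elem_card {V : Type} [CommGroup V] {S : Perm V} {β : MulAut V} (h : FC S β) {p : ℕ}
    (hp : p.Prime) (hexp : ∀ x : V, x ^ p = 1) : Nat.card V ∣ p ∨ (p = 2 ∧ Nat.card V = 4 ∧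
      (∀ x, yHom β (yHom β x) = 1) ∧ ∃ x, yHom β x ≠ 1) := by
  have hfin := h.fin
  set y := yHom β with hy
  have hpf : Fact p.Prime := ⟨hp⟩
  have hinv : ∀ j, ∀ x ∈ ranIt y j, β x ∈ ranIt y j := by
    rintro j _ ⟨z, rfl⟩
    exact ⟨β z, iter_comm β j z⟩
  -- quotient by the j-th range
  have hquo : ∀ j, ∃ (S' : Perm (V ⧸ ranIt y j)) (β' : MulAut (V ⧸ ranIt y j)), FC S' β' ∧
      (∀ x : V ⧸ ranIt y j, x ^ p = 1) ∧ ∀ x, (yHom β')^[j] x = 1 := by
    intro j
    obtain ⟨S', β', hS', -, hβ'⟩ := h.quo (ranIt y j) (hinv j)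
    refine ⟨S', β', hS', ?_, ?_⟩
    · intro x
      induction x using QuotientGroup.induction_on with
      | H x => rw [← QuotientGroup.mk_pow, hexp]; rfl
    · intro x
      induction x using QuotientGroup.induction_on with
      | H x =>
        have h1 : ∀ n : ℕ, (yHom β')^[n] (x : V ⧸ ranIt y j) = ((y^[n] x : V) : V ⧸ ranIt y j) := by
          intro n
          induction n with
          | zero => rfl
          | succ n ih =>
            rw [Function.iterate_succ_apply', ih, Function.iterate_succ_apply', yHom_apply, hβ']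
            rfl
        rw [h1]
        exact (QuotientGroup.eq_one_iff _).mpr ⟨x, rfl⟩
  by_cases h0 : ranIt y 0 ≤ ranIt y 1
  · left
    have h1 := fc_stable h h0
    have h2 : Nat.card V = 1 := by
      rw [Nat.card_eq_one_iff_unique]
      refine ⟨⟨fun a b => ?_⟩, ⟨1⟩⟩
      have ha : a = 1 := h1 a
      have hb : b = 1 := h1 b
      rw [ha, hb]
    rw [h2]; exact one_dvd _
  by_cases h1 : ranIt y 1 ≤ ranIt y 2
  · left
    have h2 := fc_stable h h1
    have h3 : ∀ x, β x = x := by
      intro x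
      rw [β_eq β x]
      have : yHom β x = 1 := h2 x
      rw [this, mul_one]
    have h4 : ∀ n : ℕ, (S ^ n) 1 = (S 1) ^ n := by
      intro n
      induction n with
      | zero => simp
      | succ n ih => rw [pow_succ', Perm.mul_apply, ih, h.aff, h3, pow_succ']
    exact (h.fix_iff 1 p).mp (by rw [h4, hexp])
  -- index of the first range is at least p, of the second at least p^2
  have hr0 : ranIt y 0 = ⊤ := by
    rw [Subgroup.eq_top_iff']
    intro x; exact ⟨x, rfl⟩
  have hrel1 : p ∣ (ranIt y 1).index := by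
    obtain ⟨q, hq⟩ := (IsPGroup.iff_card (p := p) (G := V ⧸ ranIt y 1)).mp (by
      intro x
      induction x using QuotientGroup.induction_on with
      | H x => exact ⟨1, by rw [pow_one, ← QuotientGroup.mk_pow, hexp]; rfl⟩)
    have h2 : (ranIt y 1).index = p ^ q := hq
    rw [h2]
    apply dvd_pow_self
    rintro rfl
    rw [pow_zero, Subgroup.index_eq_one] at h2
    exact h0 (by rw [h2]; exact le_top)
  have hrel2 : p ∣ (ranIt y 2).relIndex (ranIt y 1) := by
    obtain ⟨q, hq⟩ := (IsPGroup.iff_card (p := p) (G := ranIt y 1 ⧸ (ranIt y 2).subgroupOf (ranIt y 1))).mp (by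
      intro x
      induction x using QuotientGroup.induction_on with
      | H x => exact ⟨1, by
          rw [pow_one, ← QuotientGroup.mk_pow]
          have : x ^ p = 1 := Subtype.ext (by rw [Subgroup.coe_pow]; exact hexp x)
          rw [this]; rfl⟩)
    have h2 : (ranIt y 2).relIndex (ranIt y 1) = p ^ q := hq
    rw [h2]
    apply dvd_pow_self
    rintro rfl
    rw [pow_zero, Subgroup.relIndex_eq_one] at h2
    exact h1 h2
  have hidx2 : p * p ∣ (ranIt y 2).index := by
    rw [← Subgroup.relIndex_mul_index (ranIt_succ_le y 1)]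
    exact mul_dvd_mul hrel2 hrel1
  by_cases hp2 : p = 2
  · right
    refine ⟨hp2, ?_⟩
    subst hp2
    obtain ⟨S', β', hS', he', hy'⟩ := hquo 3
    have h3 := fc_y3 hS' he' hy'
    have h4 : (ranIt y 3).index ∣ 4 := h3
    have h5 : (ranIt y 3).relIndex (ranIt y 2) * (ranIt y 2).index = (ranIt y 3).index :=
      Subgroup.relIndex_mul_index (ranIt_succ_le y 2)
    have h6 : (ranIt y 3).index ≠ 0 := Subgroup.index_ne_zero_of_finite
    have h7 : (ranIt y 3).relIndex (ranIt y 2) = 1 := by
      have h8 : (ranIt y 2).index ≠ 0 := Subgroup.index_ne_zero_of_finite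
      have h9 := Nat.le_of_dvd (Nat.pos_of_ne_zero h8) hidx2
      have h10 := Nat.le_of_dvd (by norm_num) h4
      have h11 : (ranIt y 3).relIndex (ranIt y 2) ≠ 0 := by
        intro h0
        rw [h0, zero_mul] at h5
        exact h6 h5.symm
      by_contra hne
      have h12 : 2 ≤ (ranIt y 3).relIndex (ranIt y 2) := by omega
      have h13 := Nat.mul_le_mul h12 h9
      rw [h5] at h13
      omega
    rw [Subgroup.relIndex_eq_one] at h7
    have h8 := fc_stable h h7
    have h9 : ranIt y 3 = ⊥ := by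
      rw [Subgroup.eq_bot_iff_forall]
      rintro _ ⟨z, rfl⟩
      have : y^[2] (y z) = 1 := h8 (y z)
      exact this
    have h10 : ranIt y 2 = ⊥ := by
      rw [Subgroup.eq_bot_iff_forall]
      rintro _ ⟨z, rfl⟩
      exact h8 z
    rw [h9, Subgroup.index_bot] at h4
    rw [h10, Subgroup.index_bot] at hidx2
    refine ⟨Nat.dvd_antisymm h4 hidx2, h8, ?_⟩
    by_contra hcon
    push Not at hcon
    apply h1
    rintro _ ⟨z, rfl⟩
    exact ⟨1, by
      show y^[2] 1 = y z
      rw [iter_one, hcon]⟩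
  · exfalso
    obtain ⟨S', β', hS', he', hy'⟩ := hquo 2
    have h3 := fc_y2 hS' hp hp2 he' hy'
    have h4 : (ranIt y 2).index ∣ p := h3
    have h5 := Nat.le_of_dvd hp.pos (hidx2.trans h4)
    have h6 := hp.one_lt
    nlinarith

end H67
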