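import Mathlib
import Pool.Agent.H67.FCElem

namespace H67

open Equiv

theorem v4_aut {B : Type} [Group B] [Finite B] (hcard : Nat.card B = 4) (hsq : ∀ x : B, x * x = 1)
    {Z : Subgroup B} (hZ : Nat.card Z = 2) {φ : MulAut B} (hφ : ∀ x ∈ Z, φ x ∈ Z) :
    (∀ b, b⁻¹ * φ b ∈ Z) ∧ ∀ b, φ (φ b) = b := by
  have hidx : Z.index = 2 := by
    have := Z.card_mul_index
    rw [hZ, hcard] at this
    omega
  have hmem : ∀ b, b⁻¹ * φ b ∈ Z := by
    intro b
    by_cases hb : b ∈ Z
    · exact Z.mul_mem (Z.inv_mem hb) (hφ b hb)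
    · rw [Subgroup.mul_mem_iff_of_index_two hidx, Z.inv_mem_iff]
      constructor
      · intro h; exact absurd h hb
      · intro h; exact absurd ((mem_iff_of_inv φ.injective Z hφ b).mpr h) hb
  have hfixZ : ∀ x ∈ Z, φ x = x := by
    intro x hx
    by_cases hx1 : x = 1
    · rw [hx1, map_one]
    · obtain ⟨a, b, hab, huniv⟩ := Nat.card_eq_two_iff.mp hZ
      have h1 : ∀ w : Z, w = a ∨ w = b := by
        intro w
        have : w ∈ ({a, b} : Set Z) := by rw [huniv]; trivial
        simpa using this
      have hφx1 : φ x ≠ 1 := fun h => hx1 ((MulEquiv.map_eq_one_iff φ).mp h)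
      have e1 : (⟨x, hx⟩ : Z) ≠ 1 := fun h => hx1 (congrArg Subtype.val h)
      have e2 : (⟨φ x, hφ x hx⟩ : Z) ≠ 1 := fun h => hφx1 (congrArg Subtype.val h)
      have h2 := h1 ⟨x, hx⟩
      have h3 := h1 ⟨φ x, hφ x hx⟩
      have h4 := h1 1
      have h5 : (⟨φ x, hφ x hx⟩ : Z) = ⟨x, hx⟩ := by
        rcases h2 with h2 | h2 <;> rcases h3 with h3 | h3 <;> rcases h4 with h4 | h4 <;>
          first
            | exact absurd (h2.trans h4.symm) e1
            | exact absurd (h3.trans h4.symm) e2
            | exact h3.trans h2.symm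
      exact congrArg Subtype.val h5
  refine ⟨hmem, fun b => ?_⟩
  have h1 : φ b = b * (b⁻¹ * φ b) := by group
  have h2 := hfixZ _ (hmem b)
  generalize b⁻¹ * φ b = w at h1 h2
  calc φ (φ b) = φ (b * w) := by rw [← h1]
    _ = φ b * φ w := map_mul _ _ _
    _ = b * w * w := by rw [h2, h1]
    _ = b := by rw [mul_assoc, hsq, mul_one]

variable {G : Type} [Group G]

/-- conjugation restricted to a normal subgroup -/
theorem exists_conjAut [Finite G] (N : Subgroup G) [hN : N.Normal] (t : G) :
    ∃ u : MulAut N, ∀ x : N, (u x : G) = t * x * t⁻¹ := by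
  obtain ⟨u, hu⟩ := exists_resAut (MulAut.conj t) N (fun x hx => hN.conj_mem x hx t)
  exact ⟨u, fun x => by rw [hu]; rfl⟩

theorem fc_elem_B {T : Perm G} {α : MulAut G} (h : FC T α) {p : ℕ} (hp : p.Prime)
    (hexp : ∀ b ∈ cK α, b ^ p = 1) : ∀ b ∈ cK α, b ∈ Subgroup.zpowers ((T 1)⁻¹ * α (T 1)) := by
  have hfin := h.fin
  have hpf : Fact p.Prime := ⟨hp⟩
  have hBn := cK_normal α
  have hBi : ∀ x ∈ cK α, α x ∈ cK α := cK_inv α α (fun x => rfl)
  have hBc := h.cK_comm
  set t := T 1 with ht
  set r := t⁻¹ * α t with hr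
  have hrB : r ∈ cK α := cK_mem α t
  obtain ⟨S, γ, hS, hST, hγ⟩ := h.sub (cK α) hBi
  set k := (cK α).index with hk
  let _ : CommGroup (cK α) := { (inferInstance : Group (cK α)) with
    mul_comm := fun x y => Subtype.ext (hBc x x.2 y y.2) }
  have hS' : FC S γ := hS
  rcases elem_card hS' hp (fun x => Subtype.ext (hexp x x.2)) with h1 | ⟨hp2, hcard, hyy, hy⟩
  · by_cases hr1 : r = 1
    · -- everything is a power of t
      have hfix : α t = t := (inv_mul_eq_one.mp hr1).symm
      have hall := h.of_fix_t hfix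
      have hα1 : ∀ x, α x = x := by
        intro x
        obtain ⟨i, rfl⟩ := hall x
        rw [map_pow, ← ht, hfix]
      intro b hb
      have : b = 1 := by
        have h2 : cK α ≤ ⊥ := by
          unfold cK
          rw [Subgroup.closure_le]
          rintro _ ⟨g, rfl⟩
          show g⁻¹ * α g ∈ (⊥ : Subgroup G)
          rw [hα1, inv_mul_cancel]; exact Subgroup.one_mem _
        exact Subgroup.mem_bot.mp (h2 hb)
      rw [this]; exact Subgroup.one_mem _
    · have h2 : orderOf r = p := orderOf_eq_prime (hexp r hrB) hr1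
      have h3 : Subgroup.zpowers r ≤ cK α := by
        rw [Subgroup.zpowers_le]; exact hrB
      have h4 : Subgroup.zpowers r = cK α := by
        apply Subgroup.eq_of_le_of_card_ge h3
        rw [Nat.card_zpowers, h2]
        exact Nat.le_of_dvd hp.pos h1
      intro b hb
      rw [h4]; exact hb
  · exfalso
    subst hp2
    have hsq : ∀ x : cK α, x * x = 1 := fun x => by
      apply Subtype.ext
      have := hexp x x.2
      rw [pow_two] at this
      exact this
    -- the fixed subgroup of γ
    let Z : Subgroup (cK α) := (yHom γ).ker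
    have hZmem : ∀ x : cK α, x ∈ Z ↔ γ x = x := by
      intro x
      rw [MonoidHom.mem_ker, yHom_apply, inv_mul_eq_one, eq_comm]
    have hZcard : Nat.card Z = 2 := by
      have h1 := Subgroup.card_mul_index Z
      have h2 : Z.index = Nat.card (yHom γ).range := Subgroup.index_ker _
      have h3 : (yHom γ).range ≤ Z := by
        rintro _ ⟨x, rfl⟩
        exact hyy x
      have h4 := Subgroup.card_dvd_of_le h3
      have h5 : (yHom γ).range ≠ ⊥ := by
        intro hbot
        obtain ⟨x, hx⟩ := hy
        have : yHom γ x ∈ (yHom γ).range := ⟨x, rfl⟩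
        rw [hbot, Subgroup.mem_bot] at this
        exact hx this
      have h6 : Nat.card (yHom γ).range ≠ 1 := fun hh => h5 ((Subgroup.card_eq_one).mp hh)
      rw [h2] at h1
      have h7 : Nat.card (cK α) = 4 := hcard
      rw [h7] at h1
      obtain ⟨q, hq⟩ := h4
      rw [hq] at h1
      set m := Nat.card (yHom γ).range
      have h8 : m ≠ 0 := by
        intro h0; rw [h0] at h1; omega
      have h9 : m < 4 := by
        by_contra hcon
        push Not at hcon
        have : 16 ≤ m * m := Nat.mul_le_mul hcon hcon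
        have h10 : q ≠ 0 := by rintro rfl; omega
        have h11 : m * m ≤ m * q * m := by
          have : m * q * m = m * m * q := by ring
          rw [this]
          exact Nat.le_mul_of_pos_right _ (Nat.pos_of_ne_zero h10)
        omega
      have h10 : m = 2 ∨ m = 3 := by omega
      rcases h10 with h10 | h10
      · rw [hq, h10]
        rw [h10] at h1
        omega
      · rw [h10] at h1
        omega
    -- automorphisms commuting with γ
    have hkey : ∀ φ : MulAut (cK α), (∀ x, φ (γ x) = γ (φ x)) →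
        (∀ b, b⁻¹ * φ b ∈ Z) ∧ ∀ b, φ (φ b) = b := by
      intro φ hφ
      apply v4_aut hcard hsq hZcard
      intro x hx
      rw [hZmem] at hx ⊢
      rw [← hφ, hx]
    obtain ⟨a, ha⟩ := exists_resAut α (cK α) hBi
    obtain ⟨u, hu⟩ := exists_conjAut (cK α) t
    have haγ : ∀ x, a (γ x) = γ (a x) := by
      intro x
      apply Subtype.ext
      rw [ha, hγ, hγ, ha]
      have := commute_pow_lin α k 1 (x : G)
      rw [pow_one] at this
      exact this.symm
    have hak : a ^ k = γ := by
      ext x
      rw [resAut_pow ha, hγ]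
    -- conj commutes with α on B
    have hconj : ∀ b ∈ cK α, α (t * b * t⁻¹) = t * α b * t⁻¹ := by
      intro b hb
      rw [map_mul, map_mul, map_inv]
      have h2 : α t = t * r := by rw [hr]; group
      have h3 := hBc r hrB (α b) (hBi b hb)
      rw [h2, mul_inv_rev]
      calc t * r * α b * (r⁻¹ * t⁻¹) = t * (r * α b) * r⁻¹ * t⁻¹ := by group
        _ = t * (α b * r) * r⁻¹ * t⁻¹ := by rw [h3]
        _ = _ := by group
    have hua : ∀ x, u (a x) = a (u x) := by
      intro x
      apply Subtype.ext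
      rw [hu, ha, ha, hu, hconj x x.2]
    have hupow : ∀ (n : ℕ) x, u ((a ^ n) x) = (a ^ n) (u x) := by
      intro n
      induction n with
      | zero => intro x; rfl
      | succ n ih => intro x; rw [pow_succ, MulAut.mul_apply, MulAut.mul_apply, ih, hua]
    have huγ : ∀ x, u (γ x) = γ (u x) := by
      intro x; rw [← hak, hupow]
    obtain ⟨haZ, haa⟩ := hkey a haγ
    obtain ⟨huZ, huu⟩ := hkey u huγ
    -- k odd
    have hkodd : ¬ 2 ∣ k := by
      rintro ⟨q, hq⟩
      obtain ⟨x, hx⟩ := hy
      apply hx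
      rw [yHom_apply, inv_mul_eq_one, ← hak, hq, pow_mul]
      have : a ^ 2 = 1 := by ext b; rw [pow_two, MulAut.mul_apply, haa]; rfl
      rw [this, one_pow]; rfl
    obtain ⟨q, hq⟩ : ∃ q, k = 2 * q + 1 := ⟨k / 2, by omega⟩
    -- u = 1
    have htk : t ^ k ∈ cK α := Subgroup.pow_index_mem _ t
    have hun : ∀ (n : ℕ) (x : cK α), ((u ^ n) x : G) = t ^ n * x * (t ^ n)⁻¹ := by
      intro n
      induction n with
      | zero => intro x; simp
      | succ n ih =>
        intro x
        rw [pow_succ', MulAut.mul_apply, hu, ih, pow_succ']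
        group
    have hu1 : ∀ x, u x = x := by
      intro x
      have h2 : (u ^ k) x = x := by
        apply Subtype.ext
        rw [hun, hBc _ htk _ x.2]; group
      rw [hq, pow_add, pow_mul, pow_one] at h2
      have h3 : u ^ 2 = 1 := by ext b; rw [pow_two, MulAut.mul_apply, huu]; rfl
      rw [h3, one_pow, one_mul] at h2
      exact h2
    have htB : ∀ b ∈ cK α, t * b = b * t := by
      intro b hb
      have h2 := congrArg Subtype.val (hu1 ⟨b, hb⟩)
      rw [hu] at h2
      have h3 : t * b * t⁻¹ = b := h2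
      calc t * b = t * b * t⁻¹ * t := by group
        _ = b * t := by rw [h3]
    have hG : ∀ x y : G, x * y = y * x := by
      have h2 : ∀ (i : ℕ), ∀ b ∈ cK α, t ^ i * b = b * t ^ i := by
        intro i b hb
        have : Commute t b := htB b hb
        exact (this.pow_left i)
      intro x y
      obtain ⟨i, b, hb, rfl⟩ := h.gen x
      obtain ⟨j, c, hc, rfl⟩ := h.gen y
      rw [← ht]
      calc t ^ i * b * (t ^ j * c) = t ^ i * (b * t ^ j) * c := by group
        _ = t ^ i * (t ^ j * b) * c := by rw [h2 j b hb]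
        _ = t ^ (i + j) * (b * c) := by rw [pow_add]; group
        _ = t ^ (j + i) * (c * b) := by rw [hBc b hb c hc, add_comm]
        _ = t ^ j * (t ^ i * c) * b := by rw [pow_add]; group
        _ = t ^ j * (c * t ^ i) * b := by rw [h2 i c hc]
        _ = _ := by group
    -- all g⁻¹ α g lie in Z
    have hfg : ∀ g : G, (⟨g⁻¹ * α g, cK_mem α g⟩ : cK α) ∈ Z := by
      intro g
      have h2 : g ^ k ∈ cK α := Subgroup.pow_index_mem _ g
      have h3 := haZ ⟨g ^ k, h2⟩
      have h4 : (⟨g⁻¹ * α g, cK_mem α g⟩ : cK α) = (⟨g ^ k, h2⟩ : cK α)⁻¹ * a ⟨g ^ k, h2⟩ := by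
        apply Subtype.ext
        show g⁻¹ * α g = ((⟨g ^ k, h2⟩ : cK α) : G)⁻¹ * (a ⟨g ^ k, h2⟩ : cK α)
        rw [ha]
        show g⁻¹ * α g = (g ^ k)⁻¹ * α (g ^ k)
        have h5 : (g⁻¹ * α g) ^ k = (g ^ k)⁻¹ * α (g ^ k) := by
          have : Commute g⁻¹ (α g) := hG _ _
          rw [this.mul_pow, inv_pow, map_pow]
        rw [← h5]
        have h6 : (g⁻¹ * α g) ^ 2 = 1 := hexp _ (cK_mem α g)
        rw [hq, pow_add, pow_mul, h6, one_pow, pow_one, one_mul]
      rw [h4]; exact h3
    have hle : cK α ≤ Z.map (cK α).subtype := by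
      conv_lhs => unfold cK
      rw [Subgroup.closure_le]
      rintro _ ⟨g, rfl⟩
      exact ⟨_, hfg g, rfl⟩
    have h2 := Subgroup.card_le_of_le hle
    have h3 : Nat.card (Z.map (cK α).subtype) = 2 := by
      rw [← hZcard]
      exact (Nat.card_congr (Z.equivMapOfInjective _ (cK α).subtype_injective).toEquiv).symm
    have h4 : Nat.card (cK α) = 4 := hcard
    omega

end H67
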