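import Mathlib
import Pool.Agent.H67.FCCyc

namespace H67

open Equiv

variable {G : Type} [Group G]

theorem cK_quo {α : MulAut G} {N : Subgroup G} [N.Normal] {β : MulAut (G ⧸ N)}
    (hβ : ∀ x : G, β (x : G ⧸ N) = (α x : G ⧸ N)) (q : G ⧸ N) :
    q ∈ cK β ↔ ∃ b ∈ cK α, q = (b : G ⧸ N) := by
  constructor
  · intro hq
    induction hq using Subgroup.closure_induction with
    | mem x hx =>
      obtain ⟨g, rfl⟩ := hx
      induction g using QuotientGroup.induction_on with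
      | H g =>
        refine ⟨g⁻¹ * α g, cK_mem α g, ?_⟩
        show (g : G ⧸ N)⁻¹ * β (g : G ⧸ N) = _
        rw [hβ]; rfl
    | one => exact ⟨1, Subgroup.one_mem _, rfl⟩
    | mul a b _ _ ha hb =>
      obtain ⟨x, hx, rfl⟩ := ha
      obtain ⟨y, hy, rfl⟩ := hb
      exact ⟨x * y, Subgroup.mul_mem _ hx hy, rfl⟩
    | inv a _ ha =>
      obtain ⟨x, hx, rfl⟩ := ha
      exact ⟨x⁻¹, Subgroup.inv_mem _ hx, rfl⟩
  · rintro ⟨b, hb, rfl⟩
    induction hb using Subgroup.closure_induction with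
    | mem x hx =>
      obtain ⟨g, rfl⟩ := hx
      have := cK_mem β (g : G ⧸ N)
      rw [hβ] at this
      exact this
    | one => exact Subgroup.one_mem _
    | mul a b _ _ ha hb => exact Subgroup.mul_mem _ ha hb
    | inv a _ ha => exact Subgroup.inv_mem _ ha

/-- p-th powers of an abelian subgroup -/
def powSub (B : Subgroup G) (hB : ∀ x ∈ B, ∀ y ∈ B, x * y = y * x) (p : ℕ) : Subgroup G where
  carrier := {x | ∃ b ∈ B, x = b ^ p}
  mul_mem' := by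
    rintro _ _ ⟨a, ha, rfl⟩ ⟨b, hb, rfl⟩
    refine ⟨a * b, B.mul_mem ha hb, ?_⟩
    have : Commute a b := hB a ha b hb
    rw [this.mul_pow]
  one_mem' := ⟨1, B.one_mem, by simp⟩
  inv_mem' := by
    rintro _ ⟨a, ha, rfl⟩
    exact ⟨a⁻¹, B.inv_mem ha, by simp⟩

theorem FC.B_cyclic {T : Perm G} {α : MulAut G} (h : FC T α) :
    ∀ b ∈ cK α, b ∈ Subgroup.zpowers ((T 1)⁻¹ * α (T 1)) := by
  have hfin := h.fin
  have hBn := cK_normal α
  have hBi : ∀ x ∈ cK α, α x ∈ cK α := cK_inv α α (fun x => rfl)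
  have hBc := h.cK_comm
  set t := T 1 with ht
  set r := t⁻¹ * α t with hr
  have hrB : r ∈ cK α := cK_mem α t
  have hle : Subgroup.zpowers r ≤ cK α := by
    rw [Subgroup.zpowers_le]; exact hrB
  -- mod p
  have hmod : ∀ p : ℕ, p.Prime → ∀ b ∈ cK α, ∃ (i : ℤ), ∃ c ∈ cK α, b = r ^ i * c ^ p := by
    intro p hp b hb
    let P := powSub (cK α) hBc p
    have hPn : P.Normal := by
      refine ⟨?_⟩
      rintro _ ⟨b, hb, rfl⟩ g
      exact ⟨g * b * g⁻¹, hBn.conj_mem b hb g, by rw [conj_pow]⟩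
    have hPi : ∀ x ∈ P, α x ∈ P := by
      rintro _ ⟨b, hb, rfl⟩
      exact ⟨α b, hBi b hb, by rw [map_pow]⟩
    obtain ⟨S, β, hS, hST, hβ⟩ := h.quo P hPi
    have h1 := fc_elem_B hS hp (by
      intro q hq
      obtain ⟨c, hc, rfl⟩ := (cK_quo hβ q).mp hq
      rw [← QuotientGroup.mk_pow]
      exact (QuotientGroup.eq_one_iff _).mpr ⟨c, hc, rfl⟩)
    have h2 := h1 (b : G ⧸ P) ((cK_quo hβ _).mpr ⟨b, hb, rfl⟩)
    obtain ⟨i, hi⟩ := h2
    have h3 : S 1 = ((t : G) : G ⧸ P) := by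
      rw [← QuotientGroup.mk_one, hST]
    have h4 : (S 1)⁻¹ * β (S 1) = ((r : G) : G ⧸ P) := by
      rw [h3, hβ]; rfl
    have h5 : ((r ^ i : G) : G ⧸ P) = (b : G ⧸ P) := by
      rw [← hi]
      show _ = ((S 1)⁻¹ * β (S 1)) ^ i
      rw [h4]; rfl
    obtain ⟨c, hc, hbc⟩ := QuotientGroup.eq.mp h5
    exact ⟨i, c, hc, by rw [← hbc]; group⟩
  -- conclusion
  let Z := (Subgroup.zpowers r).subgroupOf (cK α)
  have hZn : Z.Normal := by
    refine ⟨?_⟩
    rintro ⟨x, hx⟩ hxZ ⟨g, hg⟩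
    have : (⟨g, hg⟩ : cK α) * ⟨x, hx⟩ * (⟨g, hg⟩ : cK α)⁻¹ = ⟨x, hx⟩ := by
      apply Subtype.ext
      show g * x * g⁻¹ = x
      rw [hBc g hg x hx]; group
    rw [this]; exact hxZ
  by_contra hcon
  push Not at hcon
  obtain ⟨b₀, hb₀, hb₀r⟩ := hcon
  have hidx : Nat.card (cK α ⧸ Z) ≠ 1 := by
    intro h1
    have h2 : Z.index = 1 := h1
    rw [Subgroup.index_eq_one] at h2
    apply hb₀r
    have : (⟨b₀, hb₀⟩ : cK α) ∈ Z := by rw [h2]; trivial
    exact this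
  obtain ⟨p, hp, hpd⟩ := Nat.exists_prime_and_dvd hidx
  have hpf : Fact p.Prime := ⟨hp⟩
  obtain ⟨q, hq⟩ := exists_prime_orderOf_dvd_card' p hpd
  have hsurj : Function.Surjective (fun x : cK α ⧸ Z => x ^ p) := by
    intro x
    induction x using QuotientGroup.induction_on with
    | H x =>
      obtain ⟨i, c, hc, hxc⟩ := hmod p hp x x.2
      refine ⟨((⟨c, hc⟩ : cK α) : cK α ⧸ Z), ?_⟩
      show ((⟨c, hc⟩ : cK α) : cK α ⧸ Z) ^ p = _
      rw [← QuotientGroup.mk_pow, eq_comm, ← inv_mul_eq_one, ← QuotientGroup.mk_inv,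
        ← QuotientGroup.mk_mul, QuotientGroup.eq_one_iff]
      show ((x⁻¹ * (⟨c, hc⟩ : cK α) ^ p : cK α) : G) ∈ Subgroup.zpowers r
      have h1 : ((x⁻¹ * (⟨c, hc⟩ : cK α) ^ p : cK α) : G) = (x : G)⁻¹ * c ^ p := rfl
      rw [h1, hxc]
      have h2 : (r ^ i * c ^ p)⁻¹ * c ^ p = r ^ (-i) := by
        have h3 := hBc (r ^ i) (Subgroup.zpow_mem _ hrB i) (c ^ p) (Subgroup.pow_mem _ hc p)
        rw [h3, zpow_neg]; group
      rw [h2]
      exact ⟨-i, rfl⟩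
  have hinj := Finite.injective_iff_surjective.mpr hsurj
  have h1 : q = 1 := by
    apply hinj
    show q ^ p = 1 ^ p
    rw [one_pow, ← hq, pow_orderOf_eq_one]
  rw [h1, orderOf_one] at hq
  exact hp.one_lt.ne hq

end H67
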