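import Mathlib
import Pool.Agent.H67.FCCyc2

namespace H67

open Equiv

variable {G : Type} [Group G]

theorem split_num (N : ℕ) (hN : 0 < N) (w : ℤ) : ∃ N₁ N₀ : ℕ, N = N₁ * N₀ ∧ Nat.Coprime N₁ N₀ ∧
    IsCoprime (w : ℤ) (N₁ : ℤ) ∧ ∀ p : ℕ, p.Prime → p ∣ N₀ → (p : ℤ) ∣ w := by
  induction N using Nat.strong_induction_on with
  | _ N ih =>
    by_cases hc : IsCoprime (w : ℤ) (N : ℤ)
    · exact ⟨N, 1, by simp, Nat.coprime_one_right N, hc, fun p hp h => by
        exact absurd (Nat.dvd_one.mp h) hp.one_lt.ne'⟩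
    · rw [Int.isCoprime_iff_gcd_eq_one] at hc
      obtain ⟨p, hp, hpd⟩ := Nat.exists_prime_and_dvd hc
      have hpw : (p : ℤ) ∣ w := (Int.natCast_dvd_natCast.mpr hpd).trans (Int.gcd_dvd_left ..)
      have hpN : p ∣ N := by
        have := (Int.natCast_dvd_natCast.mpr hpd).trans (Int.gcd_dvd_right w (N : ℤ))
        exact Int.natCast_dvd_natCast.mp this
      have h1 := Nat.ordProj_mul_ordCompl_eq_self N p
      have h2 : N / p ^ N.factorization p < N := by
        apply Nat.div_lt_self hN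
        apply Nat.one_lt_pow _ hp.one_lt
        exact (hp.factorization_pos_of_dvd hN.ne' hpN).ne'
      have h3 : 0 < N / p ^ N.factorization p := Nat.ordCompl_pos p hN.ne'
      obtain ⟨N₁, N₀, hNN, hcop, hw, hall⟩ := ih _ h2 h3
      refine ⟨N₁, N₀ * p ^ N.factorization p, ?_, ?_, hw, ?_⟩
      · rw [← mul_assoc, ← hNN, mul_comm]; exact h1.symm
      · apply Nat.Coprime.mul_right hcop
        apply Nat.Coprime.pow_right
        rw [Nat.coprime_comm, hp.coprime_iff_not_dvd]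
        intro h4
        have h5 : p ∣ N / p ^ N.factorization p := by rw [hNN]; exact h4.mul_right _
        exact Nat.not_dvd_ordCompl hp hN.ne' h5
      · intro q hq hqd
        rcases (hq.dvd_mul).mp hqd with h4 | h4
        · exact hall q hq h4
        · rw [(Nat.prime_dvd_prime_iff_eq hq hp).mp (hq.dvd_of_dvd_pow h4)]; exact hpw

/-- torsion subgroup of an abelian subgroup -/
def torSub (B : Subgroup G) (hB : ∀ x ∈ B, ∀ y ∈ B, x * y = y * x) (n : ℕ) : Subgroup G where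
  carrier := {x | x ∈ B ∧ x ^ n = 1}
  mul_mem' := by
    rintro a b ⟨ha, ha'⟩ ⟨hb, hb'⟩
    refine ⟨B.mul_mem ha hb, ?_⟩
    have : Commute a b := hB a ha b hb
    rw [this.mul_pow, ha', hb', one_mul]
  one_mem' := ⟨B.one_mem, by simp⟩
  inv_mem' := by
    rintro a ⟨ha, ha'⟩
    exact ⟨B.inv_mem ha, by simp [ha']⟩

theorem mem_torSub {B : Subgroup G} {hB : ∀ x ∈ B, ∀ y ∈ B, x * y = y * x} {n : ℕ} {x : G} :
    x ∈ torSub B hB n ↔ x ∈ B ∧ x ^ n = 1 := Iff.rfl

theorem torSub_normal (B : Subgroup G) (hn : B.Normal) (hB : ∀ x ∈ B, ∀ y ∈ B, x * y = y * x)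
    (n : ℕ) : (torSub B hB n).Normal := by
  refine ⟨?_⟩
  rintro x ⟨hx, hx'⟩ g
  exact ⟨hn.conj_mem x hx g, by rw [conj_pow, hx']; simp⟩

theorem torSub_inv (B : Subgroup G) (hB : ∀ x ∈ B, ∀ y ∈ B, x * y = y * x) (n : ℕ)
    {α : MulAut G} (hα : ∀ x ∈ B, α x ∈ B) : ∀ x ∈ torSub B hB n, α x ∈ torSub B hB n := by
  rintro x ⟨hx, hx'⟩
  exact ⟨hα x hx, by rw [← map_pow, hx', map_one]⟩

/-- power-type full cycles -/
theorem fc_pow {V : Type} [Group V] (hV : ∀ x y : V, x * y = y * x) {S : Perm V} {β : MulAut V}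
    (h : FC S β) {w : ℕ} (hw : ∀ x, β x = x ^ w) {p : ℕ} (hp : p.Prime) (hpd : p ∣ Nat.card V) :
    (p : ℤ) ∣ (w : ℤ) - 1 := by
  have hfin := h.fin
  have hpf : Fact p.Prime := ⟨hp⟩
  by_contra hcon
  let P := powSub (⊤ : Subgroup V) (fun x _ y _ => hV x y) p
  have hPn : P.Normal := by
    refine ⟨?_⟩
    rintro x hx g
    have : g * x * g⁻¹ = x := by rw [hV g x]; group
    rw [this]; exact hx
  have hPi : ∀ x ∈ P, β x ∈ P := by
    rintro _ ⟨b, -, rfl⟩
    exact ⟨β b, trivial, by rw [map_pow]⟩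
  obtain ⟨S', β', hS', -, hβ'⟩ := h.quo P hPi
  have hcop : IsCoprime ((w : ℤ) - 1) (p : ℤ) := by
    rw [isCoprime_comm, Prime.coprime_iff_not_dvd (Nat.prime_iff_prime_int.mp hp)]
    exact hcon
  obtain ⟨a, b, hab⟩ := hcop
  have htriv := hS'.trivial_of_inj (by
    intro x y
    induction x using QuotientGroup.induction_on with
    | H x =>
      induction y using QuotientGroup.induction_on with
      | H y => rw [← QuotientGroup.mk_mul, hV, QuotientGroup.mk_mul]) (by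
    intro q hq
    induction q using QuotientGroup.induction_on with
    | H x =>
      rw [hβ', hw, QuotientGroup.mk_pow] at hq
      have h1 : (x : V ⧸ P) ^ p = 1 := by
        rw [← QuotientGroup.mk_pow]
        exact (QuotientGroup.eq_one_iff _).mpr ⟨x, trivial, rfl⟩
      have h2 : (x : V ⧸ P) ^ ((w : ℤ) - 1) = 1 := by
        rw [zpow_sub, zpow_natCast, hq, zpow_one, mul_inv_cancel]
      have h3 : (x : V ⧸ P) ^ (a * ((w : ℤ) - 1) + b * (p : ℤ)) = 1 := by
        rw [zpow_add, mul_comm a, mul_comm b, zpow_mul, zpow_mul, h2, one_zpow, zpow_natCast, h1,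
          one_zpow, one_mul]
      rw [hab, zpow_one] at h3
      exact h3)
  have hsurj : Function.Surjective (fun x : V => x ^ p) := by
    intro x
    obtain ⟨b, -, hb⟩ := (QuotientGroup.eq_one_iff x).mp (htriv (x : V ⧸ P))
    exact ⟨b, hb.symm⟩
  have hinj := Finite.injective_iff_surjective.mpr hsurj
  obtain ⟨q, hq⟩ := exists_prime_orderOf_dvd_card' p hpd
  have h1 : q = 1 := by
    apply hinj
    show q ^ p = 1 ^ p
    rw [one_pow, ← hq, pow_orderOf_eq_one]
  rw [h1, orderOf_one] at hq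
  exact hp.one_lt.ne hq

/-- a full cycle of power type on an abelian group is generated by `S 1` -/
theorem fc_pow_gen {V : Type} [Group V] (hV : ∀ x y : V, x * y = y * x) {S : Perm V}
    {β : MulAut V} (h : FC S β) {w : ℕ} (hw : ∀ x, β x = x ^ w) :
    ∀ x, x ∈ Subgroup.zpowers (S 1) := by
  have hn : (Subgroup.zpowers (S 1)).Normal := by
    refine ⟨?_⟩
    rintro x hx g
    have : g * x * g⁻¹ = x := by rw [hV g x]; group
    rw [this]; exact hx
  obtain ⟨S', β', hS', hST, -⟩ := h.quo (Subgroup.zpowers (S 1)) (by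
    intro x hx
    rw [hw]; exact Subgroup.pow_mem _ hx w)
  have h1 : S' 1 = 1 := by
    rw [← QuotientGroup.mk_one, hST]
    exact (QuotientGroup.eq_one_iff _).mpr (Subgroup.mem_zpowers _)
  intro x
  exact (QuotientGroup.eq_one_iff x).mp (hS'.trivial_of_fix h1 (x : V ⧸ Subgroup.zpowers (S 1)))

theorem mem_zpowers_pow {G : Type} [Group G] [Finite G] {r x : G} (h : x ∈ Subgroup.zpowers r) :
    ∃ n : ℕ, x = r ^ n := by
  rw [← mem_powers_iff_mem_zpowers] at h
  obtain ⟨n, hn⟩ := h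
  exact ⟨n, hn.symm⟩

/-- unipotence -/
def Uni (α : MulAut G) : Prop :=
  ∃ v : ℕ, (∀ b ∈ cK α, α b = b ^ v) ∧ ∀ p : ℕ, p.Prime → p ∣ Nat.card (cK α) → (p : ℤ) ∣ (v : ℤ) - 1

end H67
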