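import Mathlib
import Pool.Agent.H67.Split1

namespace H67

open Equiv

variable {G : Type} [Group G]

/-- numerical data of a full cycle whose two linear parts are unipotent -/
structure CoreD (T : Perm G) (α : MulAut G) (N k v c d : ℕ) : Prop where
  fc : FC T α
  card : Nat.card (cK α) = N
  index : (cK α).index = k
  hv : ∀ b ∈ cK α, α b = b ^ v
  hc : ∀ b ∈ cK α, T 1 * b * (T 1)⁻¹ = b ^ c
  hd : (T 1) ^ k = ((T 1)⁻¹ * α (T 1)) ^ d
  pv : ∀ p : ℕ, p.Prime → p ∣ N → (p : ℤ) ∣ (v : ℤ) - 1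
  pc : ∀ p : ℕ, p.Prime → p ∣ N → (p : ℤ) ∣ (c : ℤ) - 1

theorem order_r {T : Perm G} {α : MulAut G} (h : FC T α) :
    orderOf ((T 1)⁻¹ * α (T 1)) = Nat.card (cK α) := by
  have h1 : Subgroup.zpowers ((T 1)⁻¹ * α (T 1)) = cK α := by
    apply le_antisymm
    · rw [Subgroup.zpowers_le]; exact cK_mem α (T 1)
    · exact h.B_cyclic
  rw [← h1, Nat.card_zpowers]

theorem pow_act {T : Perm G} {α : MulAut G} (h : FC T α) (φ : MulAut G)
    (hφ : ∀ x ∈ cK α, φ x ∈ cK α) : ∃ c : ℕ, ∀ b ∈ cK α, φ b = b ^ c := by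
  have hfin := h.fin
  obtain ⟨c, hc⟩ := mem_zpowers_pow (h.B_cyclic _ (hφ _ (cK_mem α (T 1))))
  refine ⟨c, fun b hb => ?_⟩
  obtain ⟨i, rfl⟩ := mem_zpowers_pow (h.B_cyclic b hb)
  rw [map_pow, hc, ← pow_mul, ← pow_mul, mul_comm]

theorem exists_coreD {T : Perm G} {α : MulAut G} (h : FC T α) (h1 : Uni α)
    (h2 : Uni (MulAut.conj (T 1) * α)) : ∃ N k v c d, CoreD T α N k v c d := by
  have hfin := h.fin
  have hBn := cK_normal α
  have hBi : ∀ x ∈ cK α, α x ∈ cK α := cK_inv α α (fun x => rfl)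
  obtain ⟨v, hv, hpv⟩ := h1
  obtain ⟨v', hv', hpv'⟩ := h2
  obtain ⟨c, hc⟩ := pow_act h (MulAut.conj (T 1)) (fun x hx => hBn.conj_mem x hx (T 1))
  have hc' : ∀ b ∈ cK α, T 1 * b * (T 1)⁻¹ = b ^ c := hc
  have hk : (T 1) ^ (cK α).index ∈ cK α := Subgroup.pow_index_mem _ _
  obtain ⟨d, hd⟩ := mem_zpowers_pow (h.B_cyclic _ hk)
  refine ⟨_, _, v, c, d, h, rfl, rfl, hv, hc', hd, hpv, ?_⟩
  intro p hp hpN
  have hpf : Fact p.Prime := ⟨hp⟩
  obtain ⟨x, hx⟩ := exists_prime_orderOf_dvd_card' p hpN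
  have hxB := x.2
  have hxo : orderOf (x : G) = p := by rw [Subgroup.orderOf_coe]; exact hx
  have hβ : (MulAut.conj (T 1) * α) (x : G) = (x : G) ^ (v * c) := by
    rw [MulAut.mul_apply, MulAut.conj_apply, hv _ hxB, hc' _ (Subgroup.pow_mem _ hxB v), ← pow_mul]
  by_contra hcon
  have hpv1 := hpv p hp hpN
  have hne : ¬ (p : ℤ) ∣ ((v * c : ℕ) : ℤ) - 1 := by
    intro h3
    apply hcon
    have h4 : (c : ℤ) - 1 = (((v * c : ℕ) : ℤ) - 1) - (c : ℤ) * ((v : ℤ) - 1) := by push_cast; ring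
    rw [h4]
    exact dvd_sub h3 (hpv1.mul_left _)
  -- x ∈ cK of the dual
  have hmem : (x : G) ∈ cK (MulAut.conj (T 1) * α) := by
    have h3 := cK_mem (MulAut.conj (T 1) * α) (x : G)
    rw [hβ] at h3
    have h4 : (x : G)⁻¹ * (x : G) ^ (v * c) = (x : G) ^ (((v * c : ℕ) : ℤ) - 1) := by
      rw [zpow_sub_one, zpow_natCast]
      exact ((Commute.refl (x : G)).inv_left.pow_right _).eq
    rw [h4] at h3
    have hcop : IsCoprime (((v * c : ℕ) : ℤ) - 1) (p : ℤ) := by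
      rw [isCoprime_comm, Prime.coprime_iff_not_dvd (Nat.prime_iff_prime_int.mp hp)]
      exact hne
    obtain ⟨a, b, hab⟩ := hcop
    have h5 : (x : G) = ((x : G) ^ (((v * c : ℕ) : ℤ) - 1)) ^ a := by
      rw [← zpow_mul]
      nth_rewrite 1 [← zpow_one (x : G), ← hab]
      rw [zpow_add, mul_comm b, zpow_mul (x : G) (p : ℤ), zpow_natCast, ← hxo, pow_orderOf_eq_one,
        one_zpow, mul_one, mul_comm a]
    rw [h5]
    exact Subgroup.zpow_mem _ h3 a
  have h3 := hv' _ hmem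
  have h4 : p ∣ Nat.card (cK (MulAut.conj (T 1) * α)) := by
    rw [← hxo]
    exact Subgroup.orderOf_dvd_natCard _ hmem
  have h5 := hpv' p hp h4
  rw [hβ] at h3
  have h6 : (x : G) ^ v' = x := by
    obtain ⟨q, hq⟩ := h5
    have : (x : G) ^ ((v' : ℤ) - 1) = 1 := by
      rw [hq, zpow_mul, zpow_natCast, ← hxo, pow_orderOf_eq_one, one_zpow]
    rw [zpow_sub_one, zpow_natCast] at this
    exact mul_inv_eq_one.mp this
  rw [h6] at h3
  apply hne
  have h7 : (x : G) ^ (((v * c : ℕ) : ℤ) - 1) = 1 := by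
    rw [zpow_sub_one, zpow_natCast, h3, mul_inv_cancel]
  rw [← hxo]
  exact orderOf_dvd_iff_zpow_eq_one.mpr h7

/-- facts F1 and F2 -/
theorem CoreD.facts {T : Perm G} {α : MulAut G} {N k v c d : ℕ} (h : CoreD T α N k v c d)
    {p : ℕ} (hp : p.Prime) (hpN : p ∣ N) : p ∣ k ∧ ¬ p ∣ d + k.choose 2 := by
  have hfin := h.fc.fin
  have hpf : Fact p.Prime := ⟨hp⟩
  have hBn := cK_normal α
  have hBi : ∀ x ∈ cK α, α x ∈ cK α := cK_inv α α (fun x => rfl)
  have hBc := h.fc.cK_comm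
  set t := T 1 with ht
  set r := t⁻¹ * α t with hr
  have hrB : r ∈ cK α := cK_mem α t
  have hro : orderOf r = N := by rw [hr, ht, order_r h.fc, h.card]
  let P := powSub (cK α) hBc p
  have hPmem : ∀ x, x ∈ P ↔ ∃ b ∈ cK α, x = b ^ p := fun x => Iff.rfl
  have hPn : P.Normal := by
    refine ⟨?_⟩
    rintro _ ⟨b, hb, rfl⟩ g
    exact ⟨g * b * g⁻¹, hBn.conj_mem b hb g, by rw [conj_pow]⟩
  have hPi : ∀ x ∈ P, α x ∈ P := by
    rintro _ ⟨b, hb, rfl⟩
    exact ⟨α b, hBi b hb, by rw [map_pow]⟩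
  obtain ⟨S, β, hS, hST, hβ⟩ := h.fc.quo P hPi
  -- r̄ has order p
  have hrP : ∀ n : ℤ, (r ^ n ∈ P ↔ (p : ℤ) ∣ n) := by
    intro n
    rw [hPmem]
    constructor
    · rintro ⟨b, hb, hbn⟩
      obtain ⟨i, rfl⟩ := mem_zpowers_pow (h.fc.B_cyclic b hb)
      have h1 : r ^ (n - (i * p : ℕ)) = 1 := by
        rw [zpow_sub, hbn, zpow_natCast, pow_mul, mul_inv_cancel]
      rw [← orderOf_dvd_iff_zpow_eq_one, hro] at h1
      have h2 : (p : ℤ) ∣ n - (i * p : ℕ) := (Int.natCast_dvd_natCast.mpr hpN).trans h1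
      have h3 : (p : ℤ) ∣ ((i * p : ℕ) : ℤ) := by push_cast; exact dvd_mul_left _ _
      have := dvd_add h2 h3
      simpa using this
    · rintro ⟨q, rfl⟩
      exact ⟨r ^ q, Subgroup.zpow_mem _ hrB q, by
        rw [← zpow_natCast, ← zpow_mul, mul_comm]⟩
  -- action on r
  have hcr : (((t * r * t⁻¹ : G)) : G ⧸ P) = (r : G ⧸ P) := by
    rw [h.hc r hrB, eq_comm, QuotientGroup.eq]
    have h1 : r⁻¹ * r ^ c = r ^ ((c : ℤ) - 1) := by
      rw [zpow_sub_one, zpow_natCast]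
      exact ((Commute.refl r).inv_left.pow_right _).eq
    rw [h1, hrP]
    exact h.pc p hp hpN
  have hvr : ((α r : G) : G ⧸ P) = (r : G ⧸ P) := by
    rw [h.hv r hrB, eq_comm, QuotientGroup.eq]
    have h1 : r⁻¹ * r ^ v = r ^ ((v : ℤ) - 1) := by
      rw [zpow_sub_one, zpow_natCast]
      exact ((Commute.refl r).inv_left.pow_right _).eq
    rw [h1, hrP]
    exact h.pv p hp hpN
  set tb : G ⧸ P := (t : G ⧸ P) with htb
  set rb : G ⧸ P := (r : G ⧸ P) with hrb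
  have hcomm : Commute tb rb := by
    have : tb * rb * tb⁻¹ = rb := hcr
    show tb * rb = rb * tb
    calc tb * rb = tb * rb * tb⁻¹ * tb := by group
      _ = rb * tb := by rw [this]
  have hβt : β tb = tb * rb := by
    rw [htb, hβ]
    show ((α t : G) : G ⧸ P) = ((t * r : G) : G ⧸ P)
    rw [hr]; congr 1; group
  have hβr : β rb = rb := by rw [hrb, hβ]; exact hvr
  have hS1 : S 1 = tb := by
    rw [← QuotientGroup.mk_one, hST]
  have hSn : ∀ n : ℕ, (S ^ n) 1 = tb ^ n * rb ^ (n.choose 2) := by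
    intro n
    induction n with
    | zero => simp
    | succ n ih =>
      rw [pow_succ', Perm.mul_apply, ih, hS.aff, hS1, map_mul, map_pow, map_pow, hβt, hβr,
        hcomm.mul_pow, Nat.choose_succ_succ' n 1, Nat.choose_one_right, pow_add, pow_succ']
      group
  have htk : tb ^ k = rb ^ d := by
    show ((t ^ k : G) : G ⧸ P) = ((r ^ d : G) : G ⧸ P)
    rw [h.hd]
  constructor
  · -- p ∣ k
    have h1 : β (tb ^ k) = tb ^ k := by rw [htk, map_pow, hβr]
    rw [map_pow, hβt, hcomm.mul_pow] at h1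
    have h2 : rb ^ k = 1 := mul_eq_left.mp h1
    have h3 : ((r ^ k : G) : G ⧸ P) = 1 := h2
    rw [QuotientGroup.eq_one_iff, ← zpow_natCast, hrP] at h3
    exact Int.natCast_dvd_natCast.mp h3
  · intro hcon
    have h1 : (S ^ k) 1 = 1 := by
      rw [hSn, htk, ← pow_add]
      show ((r ^ (d + k.choose 2) : G) : G ⧸ P) = 1
      rw [QuotientGroup.eq_one_iff, ← zpow_natCast, hrP]
      exact Int.natCast_dvd_natCast.mpr hcon
    have h2 := (hS.fix_iff 1 k).mp h1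
    -- index of P is k * (something divisible by p)
    have h3 : P ≤ cK α := by
      rintro _ ⟨b, hb, rfl⟩
      exact Subgroup.pow_mem _ hb p
    have h4 := Subgroup.relIndex_mul_index h3
    have h5 : P.index = Nat.card (G ⧸ P) := rfl
    rw [← h5] at h2
    rw [← h4, h.index] at h2
    have hkpos : 0 < k := by
      rw [← h.index]
      exact Nat.pos_of_ne_zero Subgroup.index_ne_zero_of_finite
    have h6 : P.relIndex (cK α) ∣ 1 := by
      have : P.relIndex (cK α) * k ∣ 1 * k := by rwa [one_mul]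
      exact Nat.dvd_of_mul_dvd_mul_right hkpos this
    rw [Nat.dvd_one, Subgroup.relIndex_eq_one] at h6
    have h7 := (hrP 1).mp (by rw [zpow_one]; exact h6 hrB)
    have h8 := Int.natCast_dvd_natCast.mp (show ((p : ℕ) : ℤ) ∣ ((1 : ℕ) : ℤ) by simpa using h7)
    exact hp.one_lt.ne' (Nat.dvd_one.mp h8)

end H67
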