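import Mathlib
import Pool.Agent.H67.Basic

namespace H67

open Equiv

variable {G : Type} [Group G]

theorem exists_rho {r : G} {n : ℕ} (hn : 0 < n) (hr : r ^ n = 1) :
    ∃ ρ : ZMod n → G, (∀ m : ℕ, ρ m = r ^ m) ∧ (∀ i j, ρ (i + j) = ρ i * ρ j) ∧ ρ 0 = 1 ∧
      (∀ i, ρ (-i) = (ρ i)⁻¹) ∧ ∀ i, ρ i = r ^ i.val := by
  have : NeZero n := ⟨hn.ne'⟩
  have h1 : ∀ m : ℕ, r ^ ((m : ZMod n).val) = r ^ m := by
    intro m
    rw [ZMod.val_natCast]
    nth_rewrite 2 [← Nat.mod_add_div m n]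
    rw [pow_add, pow_mul, hr, one_pow, mul_one]
  have h2 : ∀ i j : ZMod n, r ^ (i + j).val = r ^ i.val * r ^ j.val := by
    intro i j
    have e : i + j = ((i.val + j.val : ℕ) : ZMod n) := by
      push_cast; rw [ZMod.natCast_zmod_val, ZMod.natCast_zmod_val]
    rw [e, h1, pow_add]
  refine ⟨fun i => r ^ i.val, h1, h2, by simp, ?_, fun i => rfl⟩
  intro i
  show r ^ (-i).val = (r ^ i.val)⁻¹
  rw [eq_inv_iff_mul_eq_one, ← h2, neg_add_cancel]; simp

/-- dihedral 2-cores -/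
def DihP (G : Type) [Group G] (T : Perm G) : Prop :=
  ∃ (ν v : ℕ) (e : DihedralGroup (2 ^ ν) ≃* G), 1 ≤ ν ∧ Odd v ∧
    (∀ i : ZMod (2 ^ ν), T (e (.r i)) = e (.sr (v * i))) ∧
    ∀ i : ZMod (2 ^ ν), T (e (.sr i)) = e (.r (v * i + 1))

/-- quaternion 2-cores -/
def QuatP (G : Type) [Group G] (T : Perm G) : Prop :=
  ∃ (ν v : ℕ) (e : QuaternionGroup (2 ^ ν) ≃* G), 1 ≤ ν ∧ Odd v ∧
    (∀ i : ZMod (2 * 2 ^ ν), T (e (.a i)) = e (.xa (v * i))) ∧
    ∀ i : ZMod (2 * 2 ^ ν), T (e (.xa i)) = e (.a (v * i + 1))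

theorem dih_of_rel [Finite G] {T : Perm G} {α : MulAut G} (hT : IsAff T α) {ν v : ℕ} {r : G}
    (hν : 1 ≤ ν) (hvodd : Odd v)
    (hr : r ^ (2 ^ ν) = 1) (hcard : Nat.card G = 2 * 2 ^ ν)
    (hgen : ∀ x : G, ∃ j : ℕ, x = r ^ j ∨ x = T 1 * r ^ j)
    (hconj : T 1 * r * (T 1)⁻¹ = r⁻¹) (hαr : α r = r ^ v) (hαt : T 1 * α (T 1) = r)
    (ht2 : T 1 * T 1 = 1) : DihP G T := by
  set t := T 1 with ht
  have hpos : 0 < 2 ^ ν := by positivity
  have hne : NeZero (2 ^ ν) := ⟨hpos.ne'⟩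
  obtain ⟨ρ, hρ1, hρ2, hρ0, hρn, hρv⟩ := exists_rho hpos hr
  have hρt : ∀ i, ρ i * t = t * ρ (-i) := by
    intro i
    rw [hρn, hρv]
    have h1 : t * (r ^ i.val)⁻¹ * t⁻¹ = r ^ i.val := by
      rw [← inv_pow, ← conj_pow, show t * r⁻¹ * t⁻¹ = r by rw [← conj_inv, hconj, inv_inv]]
    calc r ^ i.val * t = t * (r ^ i.val)⁻¹ * t⁻¹ * t := by rw [h1]
      _ = t * (r ^ i.val)⁻¹ := by group
  let φ : DihedralGroup (2 ^ ν) →* G :=
    { toFun := fun x => match x with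
        | .r i => ρ i
        | .sr i => t * ρ i
      map_one' := hρ0
      map_mul' := by
        rintro (i | i) (j | j)
        · exact hρ2 i j
        · show t * ρ (j - i) = ρ i * (t * ρ j)
          rw [← mul_assoc, hρt, mul_assoc, ← hρ2]; congr 2; ring
        · show t * ρ (i + j) = t * ρ i * ρ j
          rw [hρ2, mul_assoc]
        · show ρ (j - i) = t * ρ i * (t * ρ j)
          calc ρ (j - i) = (t * t) * (ρ (-i) * ρ j) := by rw [ht2, one_mul, ← hρ2]; congr 1; ring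
            _ = t * (t * ρ (-i)) * ρ j := by group
            _ = t * (ρ i * t) * ρ j := by rw [hρt]
            _ = _ := by group }
  have hφr : ∀ i, φ (.r i) = ρ i := fun i => rfl
  have hφs : ∀ i, φ (.sr i) = t * ρ i := fun i => rfl
  have hsurj : Function.Surjective φ := by
    intro x
    obtain ⟨j, hj | hj⟩ := hgen x
    · exact ⟨.r j, by rw [hφr, hρ1, hj]⟩
    · exact ⟨.sr j, by rw [hφs, hρ1, hj]⟩
  have hbij : Function.Bijective φ := by
    rw [Nat.bijective_iff_surjective_and_card]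
    exact ⟨hsurj, by rw [DihedralGroup.nat_card, hcard]⟩
  have hαρ : ∀ i : ZMod (2 ^ ν), α (ρ i) = ρ (v * i) := by
    intro i
    have e : (v : ZMod (2 ^ ν)) * i = ((v * i.val : ℕ) : ZMod (2 ^ ν)) := by
      push_cast; rw [ZMod.natCast_zmod_val]
    rw [e, hρ1, hρv, map_pow, hαr, ← pow_mul]
  refine ⟨ν, v, MulEquiv.ofBijective φ hbij, hν, hvodd, ?_, ?_⟩
  · intro i
    show T (φ (.r i)) = φ (.sr (v * i))
    rw [hφr, hφs, hT, hαρ, ht]
  · intro i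
    show T (φ (.sr i)) = φ (.r (v * i + 1))
    rw [hφs, hφr, hT, map_mul, hαρ, ← ht, ← mul_assoc, hαt]
    have : r = ρ 1 := by
      have := hρ1 1
      rw [pow_one, Nat.cast_one] at this
      exact this.symm
    rw [this, ← hρ2, add_comm]

theorem quat_of_rel [Finite G] {T : Perm G} {α : MulAut G} (hT : IsAff T α) {ν v : ℕ} {r : G}
    (hν : 1 ≤ ν) (hvodd : Odd v)
    (hr : r ^ (2 * 2 ^ ν) = 1) (hcard : Nat.card G = 4 * 2 ^ ν)
    (hgen : ∀ x : G, ∃ j : ℕ, x = r ^ j ∨ x = T 1 * r ^ j)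
    (hconj : T 1 * r * (T 1)⁻¹ = r⁻¹) (hαr : α r = r ^ v) (hαt : T 1 * α (T 1) = r)
    (ht2 : T 1 * T 1 = r ^ (2 ^ ν)) : QuatP G T := by
  set t := T 1 with ht
  have hpos : 0 < 2 * 2 ^ ν := by positivity
  have hne : NeZero (2 * 2 ^ ν) := ⟨hpos.ne'⟩
  have hne' : NeZero (2 ^ ν) := ⟨by positivity⟩
  obtain ⟨ρ, hρ1, hρ2, hρ0, hρn, hρv⟩ := exists_rho hpos hr
  have hρt : ∀ i, ρ i * t = t * ρ (-i) := by
    intro i
    rw [hρn, hρv]
    have h1 : t * (r ^ i.val)⁻¹ * t⁻¹ = r ^ i.val := by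
      rw [← inv_pow, ← conj_pow, show t * r⁻¹ * t⁻¹ = r by rw [← conj_inv, hconj, inv_inv]]
    calc r ^ i.val * t = t * (r ^ i.val)⁻¹ * t⁻¹ * t := by rw [h1]
      _ = t * (r ^ i.val)⁻¹ := by group
  have ht2' : t * t = ρ ((2 ^ ν : ℕ) : ZMod (2 * 2 ^ ν)) := by rw [hρ1, ht2]
  let φ : QuaternionGroup (2 ^ ν) →* G :=
    { toFun := fun x => match x with
        | .a i => ρ i
        | .xa i => t * ρ i
      map_one' := hρ0
      map_mul' := by
        rintro (i | i) (j | j)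
        · exact hρ2 i j
        · show t * ρ (j - i) = ρ i * (t * ρ j)
          rw [← mul_assoc, hρt, mul_assoc, ← hρ2]; congr 2; ring
        · show t * ρ (i + j) = t * ρ i * ρ j
          rw [hρ2, mul_assoc]
        · show ρ (((2 ^ ν : ℕ) : ZMod (2 * 2 ^ ν)) + j - i) = t * ρ i * (t * ρ j)
          calc ρ (((2 ^ ν : ℕ) : ZMod (2 * 2 ^ ν)) + j - i) = (t * t) * (ρ (-i) * ρ j) := by
                rw [ht2', ← hρ2, ← hρ2]; congr 1; ring
            _ = t * (t * ρ (-i)) * ρ j := by group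
            _ = t * (ρ i * t) * ρ j := by rw [hρt]
            _ = _ := by group }
  have hφr : ∀ i, φ (.a i) = ρ i := fun i => rfl
  have hφs : ∀ i, φ (.xa i) = t * ρ i := fun i => rfl
  have hsurj : Function.Surjective φ := by
    intro x
    obtain ⟨j, hj | hj⟩ := hgen x
    · exact ⟨.a j, by rw [hφr, hρ1, hj]⟩
    · exact ⟨.xa j, by rw [hφs, hρ1, hj]⟩
  have hbij : Function.Bijective φ := by
    rw [Nat.bijective_iff_surjective_and_card]
    exact ⟨hsurj, by rw [Nat.card_eq_fintype_card, QuaternionGroup.card, hcard]⟩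
  have hαρ : ∀ i : ZMod (2 * 2 ^ ν), α (ρ i) = ρ (v * i) := by
    intro i
    have e : (v : ZMod (2 * 2 ^ ν)) * i = ((v * i.val : ℕ) : ZMod (2 * 2 ^ ν)) := by
      push_cast; rw [ZMod.natCast_zmod_val]
    rw [e, hρ1, hρv, map_pow, hαr, ← pow_mul]
  refine ⟨ν, v, MulEquiv.ofBijective φ hbij, hν, hvodd, ?_, ?_⟩
  · intro i
    show T (φ (.a i)) = φ (.xa (v * i))
    rw [hφr, hφs, hT, hαρ, ht]
  · intro i
    show T (φ (.xa i)) = φ (.a (v * i + 1))
    rw [hφs, hφr, hT, map_mul, hαρ, ← ht, ← mul_assoc, hαt]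
    have : r = ρ 1 := by
      have := hρ1 1
      rw [pow_one, Nat.cast_one] at this
      exact this.symm
    rw [this, ← hρ2, add_comm]

end H67
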