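import Mathlib
import Pool.Agent.H67.Core1
import Pool.Agent.H67.Core3

namespace H67

open Equiv

variable {G : Type} [Group G]

/-- arithmetic of the 2-core -/
theorem two_arith {ν : ℕ} (hν : 1 ≤ ν) {v c d : ℤ} (hv : (2 : ℤ) ∣ v - 1) (hc : (2 : ℤ) ∣ c - 1)
    (hd : ¬ (2 : ℤ) ∣ d + 1) (h1 : (2 : ℤ) ^ ν ∣ (c - 1) * d)
    (h2 : (2 : ℤ) ^ ν ∣ (c + 1) - (v - 1) * d) :
    (2 : ℤ) ^ ν ∣ c + 1 ∧ ((2 : ℤ) ^ ν ∣ d ∨ (2 ≤ ν ∧ (2 : ℤ) ^ ν ∣ d - 2 ^ (ν - 1))) := by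
  obtain ⟨d', rfl⟩ : ∃ d', d = 2 * d' := ⟨d / 2, by omega⟩
  rcases Nat.lt_or_ge ν 2 with hlt | hge
  · have : ν = 1 := by omega
    subst this
    rw [pow_one] at *
    constructor
    · omega
    · left; exact dvd_mul_right _ _
  · obtain ⟨μ, rfl⟩ : ∃ μ, ν = μ + 2 := ⟨ν - 2, by omega⟩
    obtain ⟨v', hv'⟩ := hv
    have hpow : (2 : ℤ) ^ (μ + 2) = 4 * 2 ^ μ := by rw [pow_add]; ring
    have h4 : (4 : ℤ) ∣ c + 1 := by
      have h5 : (4 : ℤ) ∣ (c + 1) - (v - 1) * (2 * d') := (Dvd.intro _ hpow.symm).trans h2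
      rw [hv'] at h5
      have h6 : (4 : ℤ) ∣ 2 * v' * (2 * d') := ⟨v' * d', by ring⟩
      have := dvd_add h5 h6
      simpa using this
    obtain ⟨c', hc'⟩ := h4
    have hc1 : c - 1 = 2 * (2 * c' - 1) := by linarith
    -- 2^(μ+2) ∣ 2 (2c'-1) 2 d'
    have h5 : (2 : ℤ) ^ μ ∣ (2 * c' - 1) * d' := by
      rw [hc1, hpow] at h1
      obtain ⟨q, hq⟩ := h1
      exact ⟨q, by linarith⟩
    have h6 : IsCoprime ((2 : ℤ) ^ μ) (2 * c' - 1) := by
      apply IsCoprime.pow_left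
      exact ⟨c', -1, by ring⟩
    have h7 : (2 : ℤ) ^ μ ∣ d' := h6.dvd_of_dvd_mul_left h5
    obtain ⟨e, rfl⟩ := h7
    have h8 : (2 : ℤ) ^ (μ + 2) ∣ c + 1 := by
      have h9 : (2 : ℤ) ^ (μ + 2) ∣ (v - 1) * (2 * (2 ^ μ * e)) := by
        rw [hv', hpow]; exact ⟨v' * e, by ring⟩
      have := dvd_add h2 h9
      simpa using this
    refine ⟨h8, ?_⟩
    rcases Int.even_or_odd' e with ⟨q, hq | hq⟩
    · left; rw [hq, hpow]; exact ⟨q, by ring⟩
    · right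
      refine ⟨hge, ?_⟩
      rw [hq, hpow, show μ + 2 - 1 = μ + 1 by omega, pow_succ]
      exact ⟨q, by ring⟩

theorem CoreD.two_group {T : Perm G} {α : MulAut G} {N v c d ν : ℕ} (h : CoreD T α N 2 v c d)
    (hν : 1 ≤ ν) (hN : N = 2 ^ ν) : DihP G T ∨ QuatP G T := by
  have hfin := h.fc.fin
  have h2N : 2 ∣ N := by rw [hN]; exact dvd_pow_self 2 (by omega)
  obtain ⟨-, hF2⟩ := h.facts Nat.prime_two h2N
  have hv2 := h.pv 2 Nat.prime_two h2N
  have hc2 := h.pc 2 Nat.prime_two h2N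
  push_cast at hv2 hc2
  have hBi : ∀ x ∈ cK α, α x ∈ cK α := cK_inv α α (fun x => rfl)
  set t := T 1 with ht
  set r := t⁻¹ * α t with hr
  have hrB : r ∈ cK α := cK_mem α t
  have hro : orderOf r = 2 ^ ν := by rw [hr, ht, order_r h.fc, h.card, hN]
  have hαt : α t = t * r := by rw [hr]; group
  have ht2 : t * t = r ^ d := by rw [← pow_two]; exact h.hd
  have hcr : t * r * t⁻¹ = r ^ c := h.hc r hrB
  have hαr : α r = r ^ v := h.hv r hrB
  have hzp : ∀ a b : ℤ, r ^ a = r ^ b ↔ (2 : ℤ) ^ ν ∣ a - b := by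
    intro a b
    rw [zpow_eq_zpow_iff_modEq, hro, Int.modEq_comm, Int.modEq_iff_dvd]
    push_cast; rfl
  -- t commutes with t^2
  have e1 : (2 : ℤ) ^ ν ∣ ((c : ℤ) - 1) * d := by
    have h1 : t * r ^ d * t⁻¹ = r ^ d := by rw [← ht2]; group
    rw [← conj_pow, hcr, ← pow_mul] at h1
    have h2 : r ^ ((c * d : ℕ) : ℤ) = r ^ ((d : ℕ) : ℤ) := by rw [zpow_natCast, zpow_natCast, h1]
    have h3 := (hzp _ _).mp h2
    have h4 : ((c : ℤ) - 1) * d = ((c * d : ℕ) : ℤ) - ((d : ℕ) : ℤ) := by push_cast; ring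
    rw [h4]; exact h3
  -- α (t^2)
  have e2 : (2 : ℤ) ^ ν ∣ ((c : ℤ) + 1) - ((v : ℤ) - 1) * d := by
    have h1 : α (t * t) = r ^ (v * d) := by rw [ht2, map_pow, hαr, ← pow_mul]
    have h2 : α (t * t) = r ^ (c + d + 1) := by
      rw [map_mul, hαt]
      calc t * r * (t * r) = (t * r * t⁻¹) * (t * t) * r := by group
        _ = r ^ (c + d + 1) := by rw [hcr, ht2, pow_succ, pow_add]
    rw [h1] at h2
    have h3 : r ^ ((c + d + 1 : ℕ) : ℤ) = r ^ ((v * d : ℕ) : ℤ) := by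
      rw [zpow_natCast, zpow_natCast, h2]
    have h4 := (hzp _ _).mp h3
    have h5 : ((c : ℤ) + 1) - ((v : ℤ) - 1) * d = ((c + d + 1 : ℕ) : ℤ) - ((v * d : ℕ) : ℤ) := by
      push_cast; ring
    rw [h5]; exact h4
  have hd' : ¬ (2 : ℤ) ∣ (d : ℤ) + 1 := by
    intro hcon
    apply hF2
    have : (2 : ℕ).choose 2 = 1 := rfl
    rw [this]
    omega
  obtain ⟨hc1, hdd⟩ := two_arith hν hv2 hc2 hd' e1 e2
  have hconj : t * r * t⁻¹ = r⁻¹ := by
    rw [hcr, ← zpow_natCast, ← zpow_neg_one, hzp]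
    simpa using hc1
  have hvodd : Odd v := by
    rw [← Int.odd_coe_nat]
    obtain ⟨q, hq⟩ := hv2
    exact ⟨q, by linarith⟩
  have hcardG : Nat.card G = 2 * 2 ^ ν := by
    rw [← Subgroup.card_mul_index (cK α), h.index, h.card, hN, mul_comm]
  have hgen : ∀ x : G, ∃ j : ℕ, x = r ^ j ∨ x = t * r ^ j := by
    intro x
    obtain ⟨i, b, hb, hx⟩ := h.fc.gen x
    obtain ⟨j, rfl⟩ := mem_zpowers_pow (h.fc.B_cyclic b hb)
    rw [← ht] at hx
    change x = t ^ i * r ^ j at hx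
    obtain ⟨q, hq | hq⟩ := Nat.even_or_odd' i
    · refine ⟨d * q + j, Or.inl ?_⟩
      rw [hx, hq, pow_mul, pow_two, ht2, ← pow_mul, ← pow_add]
    · refine ⟨d * q + j, Or.inr ?_⟩
      rw [hx, hq, pow_succ', pow_mul, pow_two, ht2, ← pow_mul, mul_assoc, ← pow_add]
  rcases hdd with hd0 | ⟨hν2, hdh⟩
  · left
    have ht21 : t * t = 1 := by
      rw [ht2, ← zpow_natCast, ← zpow_zero r, hzp]
      simpa using hd0
    apply dih_of_rel (α := α) (r := r) h.fc.aff hν hvodd _ hcardG hgen hconj hαr _ ht21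
    · rw [← hro, pow_orderOf_eq_one]
    · rw [← ht, hαt, ← mul_assoc, ht21, one_mul]
  · right
    obtain ⟨μ, rfl⟩ : ∃ μ, ν = μ + 2 := ⟨ν - 2, by omega⟩
    rw [show μ + 2 - 1 = μ + 1 by omega] at hdh
    have ht2' : t * t = r ^ (2 ^ (μ + 1)) := by
      rw [ht2]
      have : r ^ ((d : ℕ) : ℤ) = r ^ ((2 ^ (μ + 1) : ℕ) : ℤ) := by
        rw [hzp]; push_cast; exact hdh
      rw [zpow_natCast, zpow_natCast] at this
      exact this
    -- the new generator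
    set m := 2 ^ (μ + 1) with hm
    have hm2 : 2 ^ (μ + 2) = 2 * m := by rw [hm, pow_succ, mul_comm]
    have hrm : r ^ (2 * m) = 1 := by rw [← hm2, ← hro, pow_orderOf_eq_one]
    have hmeven : ∃ q, m = 2 * q := ⟨2 ^ μ, by rw [hm, pow_succ, mul_comm]⟩
    obtain ⟨q, hq⟩ := hmeven
    have hzc : r ^ m * r ^ m = 1 := by rw [← pow_add, ← two_mul, hrm]
    have hrr : (r ^ (m + 1)) ^ m = r ^ m := by
      rw [← pow_mul, show (m + 1) * m = 2 * m * q + m by rw [hq]; ring, pow_add, pow_mul, hrm,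
        one_pow, one_mul]
    have hrr2 : (r ^ (m + 1)) ^ (m + 1) = r := by
      rw [pow_succ, hrr, ← pow_add, show m + (m + 1) = 2 * m + 1 by ring, pow_add, hrm, one_mul,
        pow_one]
    apply quat_of_rel (α := α) (ν := μ + 1) (v := v) (r := r ^ (m + 1)) h.fc.aff (by omega) hvodd
    · rw [← hm, mul_comm 2 m, pow_mul, hrr, ← pow_mul, mul_comm m 2, hrm]
    · rw [hcardG, hm2]; ring
    · intro x
      obtain ⟨j, hj⟩ := hgen x
      refine ⟨(m + 1) * j, ?_⟩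
      rw [pow_mul, hrr2]; exact hj
    · rw [← conj_pow, hconj, inv_pow]
    · rw [map_pow, hαr, ← pow_mul, ← pow_mul, mul_comm]
    · rw [← ht, hαt, ← mul_assoc, ht2', ← pow_succ]
    · rw [← ht, ← hm, hrr]; exact ht2'

end H67
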