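import Mathlib
import Pool.Agent.H67.Core1

namespace H67

open Equiv

variable {G : Type} [Group G]

theorem choose_two_mul (k : ℕ) : k.choose 2 * 2 = k * (k - 1) := by
  rw [Nat.choose_two_right]
  exact Nat.div_mul_cancel (Nat.even_mul_pred_self k).two_dvd

theorem mem_zpowers_of_coprime {r : G} {d : ℕ} (h : Nat.Coprime d (orderOf r)) :
    r ∈ Subgroup.zpowers (r ^ d) := by
  obtain ⟨a, b, hab⟩ := Nat.isCoprime_iff_coprime.mpr h
  refine ⟨a, ?_⟩
  show (r ^ d) ^ a = r
  rw [← zpow_natCast, ← zpow_mul, mul_comm]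
  calc r ^ (a * (d : ℤ)) = r ^ (a * (d : ℤ) + b * (orderOf r : ℤ)) := by
        rw [zpow_add, mul_comm b, zpow_mul r (orderOf r : ℤ), zpow_natCast, pow_orderOf_eq_one,
          one_zpow, mul_one]
    _ = r := by rw [hab, zpow_one]

theorem CoreD.gen_of {T : Perm G} {α : MulAut G} {N k v c d : ℕ} (h : CoreD T α N k v c d)
    (hN : ¬ 2 ∣ N ∨ 4 ∣ k) : ∀ x, x ∈ Subgroup.zpowers (T 1) := by
  have hfin := h.fc.fin
  set t := T 1 with ht
  set r := t⁻¹ * α t with hr
  have hro : orderOf r = N := by rw [hr, ht, order_r h.fc, h.card]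
  have hcop : Nat.Coprime d (orderOf r) := by
    rw [hro]
    by_contra hcon
    rw [Nat.coprime_iff_gcd_eq_one] at hcon
    obtain ⟨p, hp, hpd⟩ := Nat.exists_prime_and_dvd hcon
    have h1 := hpd.trans (Nat.gcd_dvd_left d N)
    have h2 := hpd.trans (Nat.gcd_dvd_right d N)
    obtain ⟨h3, h4⟩ := h.facts hp h2
    apply h4
    apply dvd_add h1
    have h5 := choose_two_mul k
    by_cases hp2 : p = 2
    · subst hp2
      have h6 : 4 ∣ k := by
        rcases hN with h7 | h7
        · exact absurd h2 h7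
        · exact h7
      obtain ⟨q, rfl⟩ := h6
      have h7 : (4 * q).choose 2 = 2 * (q * (4 * q - 1)) := by
        have : (4 * q).choose 2 * 2 = 2 * (q * (4 * q - 1)) * 2 := by rw [h5]; ring
        omega
      rw [h7]; exact dvd_mul_right _ _
    · have h6 : p ∣ k.choose 2 * 2 := by rw [h5]; exact h3.mul_right _
      rcases (hp.dvd_mul).mp h6 with h7 | h7
      · exact h7
      · exact absurd ((Nat.prime_dvd_prime_iff_eq hp Nat.prime_two).mp h7) hp2
  have hrt : r ∈ Subgroup.zpowers t := by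
    have h1 := mem_zpowers_of_coprime hcop
    have h2 : Subgroup.zpowers (r ^ d) ≤ Subgroup.zpowers t := by
      rw [Subgroup.zpowers_le, ← h.hd]
      exact Subgroup.pow_mem _ (Subgroup.mem_zpowers t) k
    exact h2 h1
  intro x
  obtain ⟨i, b, hb, rfl⟩ := h.fc.gen x
  apply Subgroup.mul_mem _ (Subgroup.pow_mem _ (Subgroup.mem_zpowers t) i)
  have h3 : Subgroup.zpowers r ≤ Subgroup.zpowers t := by
    rw [Subgroup.zpowers_le]; exact hrt
  exact h3 (h.fc.B_cyclic b hb)

/-- cyclic cores -/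
def CycCore (H : Type) [Group H] (S : Perm H) : Prop :=
  ∃ (m w : ℕ) (e : Multiplicative (ZMod m) ≃* H), 0 < m ∧
    (∀ p : ℕ, p.Prime → p ∣ m → (p : ℤ) ∣ (w : ℤ) - 1) ∧ (4 ∣ m → (4 : ℤ) ∣ (w : ℤ) - 1) ∧
    ∀ x : ZMod m, S (e (Multiplicative.ofAdd x)) = e (Multiplicative.ofAdd (w * x + 1))

theorem cycCore_of_gen {T : Perm G} {α : MulAut G} (h : FC T α)
    (hgen : ∀ x, x ∈ Subgroup.zpowers (T 1)) : CycCore G T := by
  have hfin := h.fin
  set t := T 1 with ht
  have hcomm : ∀ x y : G, x * y = y * x := by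
    intro x y
    obtain ⟨i, rfl⟩ := hgen x
    obtain ⟨j, rfl⟩ := hgen y
    exact (Commute.refl t).zpow_zpow i j
  obtain ⟨w, hw⟩ := mem_zpowers_pow (hgen (α t))
  have hw' : ∀ x, α x = x ^ w := by
    intro x
    obtain ⟨i, rfl⟩ := mem_zpowers_pow (hgen x)
    rw [map_pow, hw, ← pow_mul, ← pow_mul, mul_comm]
  set m := Nat.card G with hm
  let e : Multiplicative (ZMod m) ≃* G := zmodMulEquivOfGenerator hgen rfl
  have he1 : e (Multiplicative.ofAdd 1) = t := zmodMulEquivOfGenerator_apply_ofAdd_one hgen rfl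
  refine ⟨m, w, e, Nat.card_pos, fun p hp hpm => fc_pow hcomm h hw' hp hpm, ?_, ?_⟩
  · intro h4
    have h2 : (2 : ℤ) ∣ (w : ℤ) - 1 := by
      have := fc_pow hcomm h hw' Nat.prime_two ((by norm_num : 2 ∣ 4).trans h4)
      exact_mod_cast this
    by_contra hcon
    have h3 : 4 ∣ w + 1 := by omega
    have hNn : (Subgroup.zpowers (t ^ 4)).Normal := by
      refine ⟨fun x hx g => ?_⟩
      rw [hcomm g x, mul_inv_cancel_right]; exact hx
    have h5 := h.mem_iff (Subgroup.zpowers (t ^ 4)) (by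
      intro x hx
      rw [hw']; exact Subgroup.pow_mem _ hx w) 1 2
    have h6 : (T ^ 2) 1 = t ^ (w + 1) := by
      rw [pow_two, Perm.mul_apply, ← ht, h.aff, ← ht, hw', pow_succ']
    have h7 : (1 : G)⁻¹ * (T ^ 2) 1 ∈ Subgroup.zpowers (t ^ 4) := by
      rw [h6, inv_one, one_mul]
      obtain ⟨q, hq⟩ := h3
      rw [hq, pow_mul]
      exact Subgroup.pow_mem _ (Subgroup.mem_zpowers _) q
    have h8 := h5.mp h7
    have h9 : orderOf t = m := by
      rw [hm]
      exact orderOf_eq_card_of_forall_mem_zpowers hgen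
    have h10 := Subgroup.card_mul_index (Subgroup.zpowers (t ^ 4))
    rw [Nat.card_zpowers, orderOf_pow, h9, ← hm, Nat.gcd_eq_right h4] at h10
    have h11 : 0 < m := Nat.card_pos
    obtain ⟨q, hq⟩ := h4
    rw [hq, Nat.mul_div_cancel_left _ (by norm_num)] at h10
    have h12 : (Subgroup.zpowers (t ^ 4)).index = 4 := by
      have hqpos : 0 < q := by omega
      exact Nat.eq_of_mul_eq_mul_left hqpos (by rw [h10, mul_comm])
    rw [h12] at h8
    omega
  · intro x
    rw [h.aff, hw', ← ht, ← he1, ← map_pow, ← map_mul]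
    congr 1
    rw [ofAdd_add, mul_comm]
    congr 1
    rw [← ofAdd_nsmul, nsmul_eq_mul]

end H67
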