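import Mathlib
import Pool.Agent.H67.Core2
import Pool.Agent.H67.Step

namespace H67

open Equiv

variable {G : Type} [Group G]

theorem fc_dd {T : Perm G} {α : MulAut G} (h : FC T α) {X E : Subgroup G} (hD : DD α X E) :
    ∃ (TX : Perm X) (αX : MulAut X) (TE : Perm E) (αE : MulAut E), FC TX αX ∧ FC TE αE ∧
      (∀ x : X, (αX x : G) = α x) ∧ (∀ e : E, (αE e : G) = α e) ∧
      (∀ (x : X) (e : E), T (x * e) = TX x * TE e) ∧ Nat.Coprime (Nat.card X) (Nat.card E) := by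
  have hfin := h.fin
  obtain ⟨TX, αX, TE, αE, hTX, hTE, hαX, hαE, hTT, hlcm⟩ := hD.split h.aff
  obtain ⟨μ, hμ⟩ := hD.equiv
  have hμT : ∀ p, μ ((TX.prodCongr TE) p) = T (μ p) := by
    rintro ⟨x, e⟩
    show μ (TX x, TE e) = T (μ (x, e))
    rw [hμ, hμ, hTT]
  have hμn : ∀ (n : ℕ) p, μ (((TX.prodCongr TE : Perm (X × E)) ^ n) p) = (T ^ n) (μ p) := fun n p =>
    semiconj_pow μ _ T hμT n p
  have htrP : ∀ p q : X × E, ∃ i : ℕ, ((TX.prodCongr TE : Perm (X × E)) ^ i) p = q := by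
    intro p q
    obtain ⟨i, hi⟩ := h.trans (μ p) (μ q)
    refine ⟨i, μ.injective ?_⟩
    rw [hμn, hi]
  have hFX : FC TX αX := by
    refine ⟨inferInstance, hTX, fun x y => ?_⟩
    obtain ⟨i, hi⟩ := htrP (x, 1) (y, 1)
    rw [prodCongr_pow] at hi
    exact ⟨i, congrArg Prod.fst hi⟩
  have hFE : FC TE αE := by
    refine ⟨inferInstance, hTE, fun x y => ?_⟩
    obtain ⟨i, hi⟩ := htrP (1, x) (1, y)
    rw [prodCongr_pow] at hi
    exact ⟨i, congrArg Prod.snd hi⟩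
  refine ⟨TX, αX, TE, αE, hFX, hFE, hαX, hαE, hTT, ?_⟩
  rw [h.order, hFX.order, hFE.order, hD.card] at hlcm
  have h2 := Nat.gcd_mul_lcm (Nat.card X) (Nat.card E)
  rw [← hlcm] at h2
  have h3 : 0 < Nat.card X * Nat.card E := Nat.mul_pos Nat.card_pos Nat.card_pos
  exact Nat.eq_of_mul_eq_mul_right h3 (by rw [h2, one_mul])

/-- central odd part splits off -/
theorem dd_of_pow [Finite G] {α : MulAut G} {φ : G →* G} {M : ℕ} (hφ : ∀ x, φ x = x ^ M)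
    (hcent : ∀ x y : G, x ^ M * y = y * x ^ M) {m : ℕ} (hcop : Nat.Coprime M m)
    (hcard : Nat.card G ∣ M * m) : DD α φ.ker φ.range ∧ Nat.Coprime M (Nat.card φ.range) := by
  have hpow : ∀ x : G, x ^ (M * m) = 1 := by
    intro x
    obtain ⟨q, hq⟩ := hcard
    rw [hq, pow_mul, pow_card_eq_one', one_pow]
  obtain ⟨A, C, hAC⟩ := Nat.isCoprime_iff_coprime.mpr hcop
  have hexpO : ∀ x ∈ φ.range, x ^ m = 1 := by
    rintro _ ⟨y, rfl⟩
    rw [hφ, ← pow_mul, hpow]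
  refine ⟨⟨?_, ?_, ?_, ?_, ?_⟩, ?_⟩
  · intro x hx
    rw [MonoidHom.mem_ker, hφ] at hx ⊢
    rw [← map_pow, hx, map_one]
  · rintro _ ⟨y, rfl⟩
    exact ⟨α y, by rw [hφ, hφ, map_pow]⟩
  · rintro x - _ ⟨y, rfl⟩
    rw [hφ, hcent]
  · intro x hx hxO
    rw [MonoidHom.mem_ker, hφ] at hx
    have h1 : x ^ (A * (M : ℤ) + C * (m : ℤ)) = 1 := by
      rw [zpow_add, mul_comm A, mul_comm C, zpow_mul, zpow_mul, zpow_natCast, zpow_natCast, hx,
        hexpO x hxO, one_zpow, one_zpow, mul_one]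
    rwa [hAC, zpow_one] at h1
  · intro g
    refine ⟨g ^ (C * (m : ℤ)), ?_, g ^ (A * (M : ℤ)), ⟨g ^ A, ?_⟩, ?_⟩
    · rw [MonoidHom.mem_ker, hφ, ← zpow_natCast, ← zpow_mul,
        show C * (m : ℤ) * (M : ℤ) = ((M * m : ℕ) : ℤ) * C by push_cast; ring, zpow_mul,
        zpow_natCast, hpow, one_zpow]
    · rw [hφ, ← zpow_natCast, ← zpow_mul]
    · rw [← zpow_add, add_comm, hAC, zpow_one]
  · by_contra hcon
    rw [Nat.coprime_iff_gcd_eq_one] at hcon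
    obtain ⟨p, hp, hpd⟩ := Nat.exists_prime_and_dvd hcon
    have hpf : Fact p.Prime := ⟨hp⟩
    obtain ⟨x, hx⟩ := exists_prime_orderOf_dvd_card' p (hpd.trans (Nat.gcd_dvd_right _ _))
    have h1 : p ∣ m := by
      rw [← hx]
      apply orderOf_dvd_of_pow_eq_one
      exact Subtype.ext (by rw [Subgroup.coe_pow]; exact hexpO x x.2)
    have h2 := Nat.dvd_gcd (hpd.trans (Nat.gcd_dvd_left _ _)) h1
    rw [hcop] at h2
    exact hp.one_lt.ne' (Nat.dvd_one.mp h2)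

/-- Uni is automatic for 2-groups -/
theorem uni_two {T : Perm G} {α : MulAut G} (h : FC T α) {L : ℕ} (hL : ∀ x : G, x ^ (2 ^ L) = 1) :
    Uni α := by
  have hfin := h.fin
  have hBi : ∀ x ∈ cK α, α x ∈ cK α := cK_inv α α (fun x => rfl)
  obtain ⟨v, hv⟩ := pow_act h α hBi
  refine ⟨v, hv, ?_⟩
  intro p hp hpd
  have hpf : Fact p.Prime := ⟨hp⟩
  obtain ⟨x, hx⟩ := exists_prime_orderOf_dvd_card' p hpd
  have hp2 : p = 2 := by
    have h1 : p ∣ 2 ^ L := by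
      rw [← hx]
      apply orderOf_dvd_of_pow_eq_one
      exact Subtype.ext (by rw [Subgroup.coe_pow]; exact hL x)
    exact (Nat.prime_dvd_prime_iff_eq hp Nat.prime_two).mp (hp.dvd_of_dvd_pow h1)
  subst hp2
  rcases Nat.even_or_odd' v with ⟨q, hq | hq⟩
  · exfalso
    have h3 := hv x x.2
    have h4 : (x : G) ^ 2 = 1 := by
      have := pow_orderOf_eq_one x
      rw [hx] at this
      exact congrArg Subtype.val this
    rw [hq, pow_mul, h4, one_pow] at h3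
    have h5 : (x : G) = 1 := (MulEquiv.map_eq_one_iff α).mp h3
    have h6 : x = 1 := Subtype.ext h5
    rw [h6, orderOf_one] at hx
    omega
  · exact ⟨q, by rw [hq]; push_cast; ring⟩

theorem odd_pow_two {c : ℤ} (hc : (2 : ℤ) ∣ c - 1) (ν : ℕ) : (2 : ℤ) ^ ν ∣ c ^ (2 ^ ν) - 1 := by
  induction ν with
  | zero => simp
  | succ ν ih =>
    have h3 : c ^ (2 ^ (ν + 1)) - 1 = (c ^ (2 ^ ν) - 1) * (c ^ (2 ^ ν) - 1 + 2) := by
      rw [pow_succ 2 ν, pow_mul]; ring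
    rw [h3, pow_succ]
    apply mul_dvd_mul ih
    apply dvd_add _ (dvd_refl 2)
    exact hc.trans (sub_one_dvd_pow_sub_one _ _)

/-- powers of elements of `G` are central in the mixed case -/
theorem CoreD.central_pow {T : Perm G} {α : MulAut G} {N k v c d : ℕ} (h : CoreD T α N k v c d)
    (h2N : 2 ∣ N) : ∃ L : ℕ, ∀ x y : G, x ^ (2 ^ L) * y = y * x ^ (2 ^ L) := by
  have hfin := h.fc.fin
  have hBn := cK_normal α
  set t := T 1 with ht
  set r := t⁻¹ * α t with hr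
  have hrB : r ∈ cK α := cK_mem α t
  have hro : orderOf r = N := by rw [hr, ht, order_r h.fc, h.card]
  have hNpos : 0 < N := by rw [← h.card]; exact Nat.card_pos
  have hc2 := h.pc 2 Nat.prime_two h2N
  push_cast at hc2
  obtain ⟨ν, N', hN', hNN⟩ : ∃ ν N', ¬ 2 ∣ N' ∧ N = 2 ^ ν * N' :=
    Nat.exists_eq_pow_mul_and_not_dvd hNpos.ne' 2 (by norm_num)
  -- N divides (c-1) d
  have e1 : (N : ℤ) ∣ ((c : ℤ) - 1) * d := by
    have h1 : t * r ^ d * t⁻¹ = r ^ d := by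
      rw [← h.hd, ← ht, ← pow_succ', pow_succ, mul_assoc, mul_inv_cancel, mul_one]
    rw [← conj_pow, h.hc r hrB, ← pow_mul] at h1
    have h2 : r ^ (((c * d : ℕ) : ℤ) - ((d : ℕ) : ℤ)) = 1 := by
      rw [zpow_sub, zpow_natCast, zpow_natCast, h1, mul_inv_cancel]
    rw [← orderOf_dvd_iff_zpow_eq_one, hro] at h2
    have h4 : ((c : ℤ) - 1) * d = ((c * d : ℕ) : ℤ) - ((d : ℕ) : ℤ) := by push_cast; ring
    rw [h4]; exact h2
  have e2 : IsCoprime (N' : ℤ) (d : ℤ) := by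
    rw [Nat.isCoprime_iff_coprime]
    by_contra hcon
    rw [Nat.coprime_iff_gcd_eq_one] at hcon
    obtain ⟨p, hp, hpd⟩ := Nat.exists_prime_and_dvd hcon
    have h1 := hpd.trans (Nat.gcd_dvd_left _ _)
    have h2 := hpd.trans (Nat.gcd_dvd_right _ _)
    have hp2 : p ≠ 2 := by rintro rfl; exact hN' h1
    obtain ⟨h3, h4⟩ := h.facts hp (by rw [hNN]; exact h1.mul_left _)
    apply h4
    apply dvd_add h2
    have h5 := choose_two_mul k
    have h6 : p ∣ k.choose 2 * 2 := by rw [h5]; exact h3.mul_right _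
    rcases (hp.dvd_mul).mp h6 with h7 | h7
    · exact h7
    · exact absurd ((Nat.prime_dvd_prime_iff_eq hp Nat.prime_two).mp h7) hp2
  have e3 : (N' : ℤ) ∣ (c : ℤ) - 1 := by
    apply e2.dvd_of_dvd_mul_right
    have : (N' : ℤ) ∣ (N : ℤ) := by rw [hNN]; push_cast; exact dvd_mul_left _ _
    exact this.trans e1
  have hzp : ∀ a : ℤ, r ^ a = 1 ↔ (N : ℤ) ∣ a := by
    intro a
    rw [← orderOf_dvd_iff_zpow_eq_one, hro]
  -- r^(2^ν) commutes with t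
  have hrt : t * r ^ (2 ^ ν) * t⁻¹ = r ^ (2 ^ ν) := by
    rw [← conj_pow, h.hc r hrB, ← pow_mul]
    have h1 : r ^ (((c * 2 ^ ν : ℕ) : ℤ) - ((2 ^ ν : ℕ) : ℤ)) = 1 := by
      rw [hzp, hNN]
      obtain ⟨q, hq⟩ := e3
      refine ⟨q, ?_⟩
      push_cast
      linear_combination (2 : ℤ) ^ ν * hq
    rw [zpow_sub, zpow_natCast, zpow_natCast] at h1
    exact mul_inv_eq_one.mp h1
  -- conjugation by powers of t
  have hconj : ∀ n : ℕ, ∀ b ∈ cK α, t ^ n * b * (t ^ n)⁻¹ = b ^ (c ^ n) := by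
    intro n
    induction n with
    | zero => intro b hb; simp
    | succ n ih =>
      intro b hb
      have h1 : t ^ (n + 1) * b * (t ^ (n + 1))⁻¹ = t ^ n * (t * b * t⁻¹) * (t ^ n)⁻¹ := by
        rw [pow_succ]; group
      rw [h1, h.hc b hb, ih _ (Subgroup.pow_mem _ hb _), ← pow_mul, pow_succ']
  have hcpow : (N : ℤ) ∣ (c : ℤ) ^ (2 ^ ν) - 1 := by
    have h1 : (N' : ℤ) ∣ (c : ℤ) ^ (2 ^ ν) - 1 := e3.trans (sub_one_dvd_pow_sub_one _ _)
    have h2 : (2 : ℤ) ^ ν ∣ (c : ℤ) ^ (2 ^ ν) - 1 := odd_pow_two hc2 ν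
    rw [hNN]; push_cast
    apply IsCoprime.mul_dvd _ h2 h1
    apply IsCoprime.pow_left
    rw [show (2 : ℤ) = ((2 : ℕ) : ℤ) from rfl, Nat.isCoprime_iff_coprime,
      Nat.prime_two.coprime_iff_not_dvd]
    exact hN'
  -- central elements
  have hcommB : ∀ b ∈ cK α, t ^ (2 ^ ν) * b = b * t ^ (2 ^ ν) := by
    intro b hb
    have h1 := hconj (2 ^ ν) b hb
    have h2 : b ^ (c ^ (2 ^ ν)) = b := by
      obtain ⟨j, rfl⟩ := mem_zpowers_pow (h.fc.B_cyclic b hb)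
      have h3 : (r ^ j) ^ (((c ^ (2 ^ ν) : ℕ) : ℤ) - 1) = 1 := by
        rw [← zpow_natCast r, ← zpow_mul, mul_comm, zpow_mul]
        have : r ^ (((c ^ (2 ^ ν) : ℕ) : ℤ) - 1) = 1 := by rw [hzp]; push_cast; exact hcpow
        rw [this, one_zpow]
      rw [zpow_sub_one, zpow_natCast] at h3
      exact mul_inv_eq_one.mp h3
    rw [h2] at h1
    exact mul_inv_eq_iff_eq_mul.mp h1
  have hcen1 : ∀ y : G, t ^ (2 ^ ν) * y = y * t ^ (2 ^ ν) := by
    intro y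
    obtain ⟨i, b, hb, rfl⟩ := h.fc.gen y
    rw [← ht]
    calc t ^ (2 ^ ν) * (t ^ i * b) = t ^ i * (t ^ (2 ^ ν) * b) := by
          rw [← mul_assoc, ← pow_add, add_comm, pow_add, mul_assoc]
      _ = t ^ i * b * t ^ (2 ^ ν) := by rw [hcommB b hb, mul_assoc]
  have hcen2 : ∀ b ∈ cK α, ∀ y : G, b ^ (2 ^ ν) * y = y * b ^ (2 ^ ν) := by
    intro b hb y
    have hBc := h.fc.cK_comm
    have h1 : Commute (b ^ (2 ^ ν)) t := by
      obtain ⟨j, rfl⟩ := mem_zpowers_pow (h.fc.B_cyclic b hb)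
      rw [← pow_mul, mul_comm, pow_mul]
      apply Commute.pow_left
      have h2 := mul_inv_eq_iff_eq_mul.mp hrt
      exact h2.symm
    obtain ⟨i, b', hb', rfl⟩ := h.fc.gen y
    rw [← ht]
    have h2 : Commute (b ^ (2 ^ ν)) (t ^ i) := h1.pow_right i
    have h3 : Commute (b ^ (2 ^ ν)) b' := hBc _ (Subgroup.pow_mem _ hb _) _ hb'
    exact (h2.mul_right h3)
  have hpowform : ∀ (i : ℕ) (b : G), b ∈ cK α → ∀ n : ℕ, ∃ b' ∈ cK α, (t ^ i * b) ^ n =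
      t ^ (i * n) * b' := by
    intro i b hb n
    induction n with
    | zero => exact ⟨1, Subgroup.one_mem _, by simp⟩
    | succ n ih =>
      obtain ⟨b', hb', hbn⟩ := ih
      refine ⟨(t ^ i)⁻¹ * b' * t ^ i * b, ?_, ?_⟩
      · apply Subgroup.mul_mem _ _ hb
        have := hBn.conj_mem b' hb' (t ^ i)⁻¹
        rwa [inv_inv] at this
      · rw [pow_succ, hbn, Nat.mul_succ, pow_add]; group
  refine ⟨ν + ν, ?_⟩
  intro x y
  obtain ⟨i, b, hb, rfl⟩ := h.fc.gen x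
  rw [← ht, pow_add 2 ν ν, pow_mul]
  obtain ⟨b', hb', hbn⟩ := hpowform i b hb (2 ^ ν)
  rw [hbn]
  have h1 : ∀ y : G, t ^ (i * 2 ^ ν) * y = y * t ^ (i * 2 ^ ν) := by
    intro y
    rw [mul_comm i, pow_mul]
    have : Commute (t ^ (2 ^ ν)) y := hcen1 y
    exact this.pow_left i
  have h2 : (t ^ (i * 2 ^ ν) * b') ^ (2 ^ ν) = (t ^ (i * 2 ^ ν)) ^ (2 ^ ν) * b' ^ (2 ^ ν) := by
    have : Commute (t ^ (i * 2 ^ ν)) b' := h1 b'
    exact this.mul_pow _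
  rw [h2]
  have h3 : Commute ((t ^ (i * 2 ^ ν)) ^ (2 ^ ν)) y := by
    have : Commute (t ^ (i * 2 ^ ν)) y := h1 y
    exact this.pow_left _
  have h4 : Commute (b' ^ (2 ^ ν)) y := hcen2 b' hb' y
  exact h3.mul_left h4

end H67
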