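import Mathlib
import Pool.Agent.H67.Split1
import Pool.Agent.H67.Step

namespace H67

open Equiv

variable {G : Type} [Group G]

/-- automorphisms of a group identified with `ZMod n` act by scalars -/
theorem scalar_of_aut {U : Type} [Group U] {n : ℕ} (e : Multiplicative (ZMod n) ≃* U)
    (φ : MulAut U) (x : ZMod n) : φ (e (Multiplicative.ofAdd x)) =
      e (Multiplicative.ofAdd ((e.symm (φ (e (Multiplicative.ofAdd 1)))).toAdd * x)) := by
  let f : ZMod n ≃+ ZMod n :=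
    AddEquiv.toMultiplicative.symm (e.trans (φ.trans e.symm))
  have hf : ∀ r, f r = (e.symm (φ (e (Multiplicative.ofAdd r)))).toAdd := fun r => rfl
  obtain ⟨ω, hω⟩ := zmod_aut f
  have h1 : f x = f 1 * x := by rw [hω, hω, mul_one]
  rw [hf, hf] at h1
  rw [← h1, ofAdd_toAdd, MulEquiv.apply_symm_apply]

/-- the character of an action on `ZMod n` -/
theorem exists_char {H U : Type} [Group H] [Group U] {n : ℕ} (e : Multiplicative (ZMod n) ≃* U)
    (Φ : H →* MulAut U) : ∃ χ : H →* (ZMod n)ˣ, ∀ (h : H) (x : ZMod n),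
      Φ h (e (Multiplicative.ofAdd x)) = e (Multiplicative.ofAdd ((χ h : ZMod n) * x)) := by
  let f : H →* ZMod n :=
    { toFun := fun h => (e.symm (Φ h (e (Multiplicative.ofAdd 1)))).toAdd
      map_one' := by simp
      map_mul' := by
        intro h g
        rw [map_mul, MulAut.mul_apply, scalar_of_aut e (Φ g) 1, mul_one,
          scalar_of_aut e (Φ h), MulEquiv.symm_apply_apply]
        simp }
  refine ⟨f.toHomUnits, ?_⟩
  intro h x
  rw [scalar_of_aut e (Φ h) x]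
  rfl

/-- The splitting theorem. -/
theorem FC.split {T : Perm G} {α : MulAut G} (h : FC T α) :
    ∃ (n : ℕ) (H : Type) (_ : Group H) (S : Perm H) (β : MulAut H) (χ : H →* (ZMod n)ˣ) (w : ℕ)
      (f : ZMod n × H ≃ G), 0 < n ∧ Odd n ∧ Nat.Coprime n (Nat.card H) ∧ FC S β ∧ Uni β ∧
      (∀ x h y g, f (x, h) * f (y, g) = f (x + (χ h : ZMod n) * y, h * g)) ∧
      (∀ x h, T (f (x, h)) = f ((w : ZMod n) * x + 1, S h)) ∧
      (∀ p : ℕ, p.Prime → p ∣ n → (p : ℤ) ∣ (w : ℤ) - 1) ∧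
      (∀ h, χ (β h) = χ h) ∧ IsUnit ((χ (S 1) : ZMod n) - 1) ∧ ∀ x, f (x, 1) ∈ cK α := by
  have hfin := h.fin
  have hBn := cK_normal α
  have hBi : ∀ x ∈ cK α, α x ∈ cK α := cK_inv α α (fun x => rfl)
  have hBc := h.cK_comm
  have hBcyc := h.B_cyclic
  set t := T 1 with ht
  set r := t⁻¹ * α t with hr
  have hrB : r ∈ cK α := cK_mem α t
  -- every automorphism preserving B acts on it by powers
  have hpow : ∀ φ : MulAut G, (∀ x ∈ cK α, φ x ∈ cK α) → ∃ c : ℕ, ∀ b ∈ cK α, φ b = b ^ c := by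
    intro φ hφ
    obtain ⟨c, hc⟩ := mem_zpowers_pow (hBcyc _ (hφ r hrB))
    refine ⟨c, fun b hb => ?_⟩
    obtain ⟨i, rfl⟩ := mem_zpowers_pow (hBcyc b hb)
    rw [map_pow, hc, ← pow_mul, ← pow_mul, mul_comm]
  obtain ⟨v, hv⟩ := hpow α hBi
  obtain ⟨N₁, N₀, hNN, hcop, hw1, hw0⟩ := split_num (Nat.card (cK α)) Nat.card_pos ((v : ℤ) - 1)
  set U := torSub (cK α) hBc N₁ with hU
  set K := torSub (cK α) hBc N₀ with hK
  have hUn : U.Normal := torSub_normal _ hBn _ _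
  have hKn : K.Normal := torSub_normal _ hBn _ _
  have hUi : ∀ x ∈ U, α x ∈ U := torSub_inv _ hBc N₁ hBi
  have hKi : ∀ x ∈ K, α x ∈ K := torSub_inv _ hBc N₀ hBi
  obtain ⟨a₁, b₁, hab⟩ := Nat.isCoprime_iff_coprime.mpr hcop
  obtain ⟨a₂, b₂, hab2⟩ := hw1
  -- B = K U
  have hKU : ∀ b ∈ cK α, ∃ k ∈ K, ∃ u ∈ U, b = k * u := by
    intro b hb
    have hbN : b ^ (Nat.card (cK α)) = 1 := by
      have : (⟨b, hb⟩ : cK α) ^ Nat.card (cK α) = 1 := pow_card_eq_one'
      exact congrArg Subtype.val this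
    refine ⟨b ^ (a₁ * (N₁ : ℤ)), ⟨Subgroup.zpow_mem _ hb _, ?_⟩, b ^ (b₁ * (N₀ : ℤ)),
      ⟨Subgroup.zpow_mem _ hb _, ?_⟩, ?_⟩
    · rw [← zpow_natCast, ← zpow_mul, show a₁ * (N₁ : ℤ) * (N₀ : ℤ) =
        ((Nat.card (cK α) : ℕ) : ℤ) * a₁ by rw [hNN]; push_cast; ring, zpow_mul, zpow_natCast, hbN,
        one_zpow]
    · rw [← zpow_natCast, ← zpow_mul, show b₁ * (N₀ : ℤ) * (N₁ : ℤ) =
        ((Nat.card (cK α) : ℕ) : ℤ) * b₁ by rw [hNN]; push_cast; ring, zpow_mul, zpow_natCast, hbN,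
        one_zpow]
    · rw [← zpow_add, hab, zpow_one]
  have hKUinf : ∀ x, x ∈ K → x ∈ U → x = 1 := by
    intro x hx hx'
    have h1 : x ^ (a₁ * (N₁ : ℤ) + b₁ * (N₀ : ℤ)) = 1 := by
      rw [zpow_add, mul_comm a₁, mul_comm b₁, zpow_mul, zpow_mul, zpow_natCast, zpow_natCast,
        hx'.2, hx.2, one_zpow, one_zpow, mul_one]
    rwa [hab, zpow_one] at h1
  -- u ^ (v-1) is bijective on U
  have hUv : ∀ x ∈ U, x ^ ((v : ℤ) - 1) = 1 → x = 1 := by
    intro x hx hx'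
    have h1 : x ^ (a₂ * ((v : ℤ) - 1) + b₂ * (N₁ : ℤ)) = 1 := by
      rw [zpow_add, mul_comm a₂, mul_comm b₂, zpow_mul, zpow_mul, zpow_natCast,
        hx.2, hx', one_zpow, one_zpow, mul_one]
    rwa [hab2, zpow_one] at h1
  have hUsurj : ∀ x ∈ U, ∃ y ∈ U, y ^ ((v : ℤ) - 1) = x := by
    intro x hx
    refine ⟨x ^ a₂, U.zpow_mem hx _, ?_⟩
    have h1 : x ^ (a₂ * ((v : ℤ) - 1) + b₂ * (N₁ : ℤ)) = x := by rw [hab2, zpow_one]
    rw [zpow_add, mul_comm b₂, zpow_mul x (N₁ : ℤ), zpow_natCast, hx.2, one_zpow, mul_one] at h1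
    rw [← zpow_mul, h1]
  have hfα : ∀ x ∈ cK α, x⁻¹ * α x = x ^ ((v : ℤ) - 1) := by
    intro x hx
    rw [hv x hx, zpow_sub_one, zpow_natCast]
    exact ((Commute.refl x).inv_left.pow_right v).eq
  -- the complement
  let H : Subgroup G :=
    { carrier := {g | g⁻¹ * α g ∈ K}
      mul_mem' := by
        intro a b ha hb
        have ha' : a⁻¹ * α a ∈ K := ha
        have hb' : b⁻¹ * α b ∈ K := hb
        show (a * b)⁻¹ * α (a * b) ∈ K
        have h1 : (a * b)⁻¹ * α (a * b) = b⁻¹ * (a⁻¹ * α a) * b * (b⁻¹ * α b) := by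
          rw [map_mul]; group
        rw [h1]
        apply K.mul_mem _ hb'
        have := hKn.conj_mem _ ha' b⁻¹
        rwa [inv_inv] at this
      one_mem' := by
        show (1 : G)⁻¹ * α 1 ∈ K
        rw [map_one]; simp
      inv_mem' := by
        intro a ha
        have ha' : a⁻¹ * α a ∈ K := ha
        show a⁻¹⁻¹ * α a⁻¹ ∈ K
        have h1 : a⁻¹⁻¹ * α a⁻¹ = a * (a⁻¹ * α a)⁻¹ * a⁻¹ := by
          rw [map_inv]; group
        rw [h1]
        exact hKn.conj_mem _ (K.inv_mem ha') a }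
  have hHmem : ∀ g, g ∈ H ↔ g⁻¹ * α g ∈ K := fun g => Iff.rfl
  have hHi : ∀ x ∈ H, α x ∈ H := by
    intro x hx
    rw [hHmem] at hx ⊢
    have := hKi _ hx
    rwa [map_mul, map_inv] at this
  have hUH : ∀ x, x ∈ U → x ∈ H → x = 1 := by
    intro x hxU hxH
    apply hUv x hxU
    rw [← hfα x hxU.1]
    exact hKUinf _ hxH (U.mul_mem (U.inv_mem hxU) (hUi x hxU))
  have hUHsup : ∀ g, ∃ u ∈ U, ∃ y ∈ H, g = u * y := by
    intro g
    obtain ⟨k₀, hk₀, u₀, hu₀, hb⟩ := hKU _ (cK_mem α g)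
    obtain ⟨u, hu, huv⟩ := hUsurj (g * u₀⁻¹ * g⁻¹) (hUn.conj_mem _ (U.inv_mem hu₀) g)
    refine ⟨u⁻¹, U.inv_mem hu, u * g, ?_, by group⟩
    rw [hHmem]
    have h1 : (u * g)⁻¹ * α (u * g) = g⁻¹ * (u⁻¹ * α u) * g * (g⁻¹ * α g) := by
      rw [map_mul]; group
    rw [h1, hfα u hu.1, huv, hb]
    have h2 : g⁻¹ * (g * u₀⁻¹ * g⁻¹) * g * (k₀ * u₀) = u₀⁻¹ * k₀ * u₀ := by group
    rw [h2]
    have := hKn.conj_mem k₀ hk₀ u₀⁻¹
    rwa [inv_inv] at this
  obtain ⟨u₁, hu₁, s, hs, hts⟩ := hUHsup t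
  -- the two permutations
  obtain ⟨αU, hαU⟩ := exists_resAut α U hUi
  obtain ⟨αH, hαH⟩ := exists_resAut α H hHi
  obtain ⟨cs, hcs⟩ := exists_conjAut U s
  let TU : Perm U := Equiv.mulLeft (⟨u₁, hu₁⟩ : U) * (cs * αU).toEquiv
  let TH : Perm H := Equiv.mulLeft (⟨s, hs⟩ : H) * αH.toEquiv
  have hTUapp : ∀ x : U, ((TU x : U) : G) = u₁ * (s * α x * s⁻¹) := by
    intro x
    show u₁ * ((cs (αU x) : U) : G) = _
    rw [hcs, hαU]
  have hTHapp : ∀ x : H, ((TH x : H) : G) = s * α x := by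
    intro x
    show s * ((αH x : H) : G) = _
    rw [hαH]
  have hTUaff : IsAff TU (cs * αU) := by
    intro x
    show (⟨u₁, hu₁⟩ : U) * (cs * αU) x = (⟨u₁, hu₁⟩ : U) * (cs * αU) 1 * (cs * αU) x
    rw [map_one, mul_one]
  have hTHaff : IsAff TH αH := by
    intro x
    show (⟨s, hs⟩ : H) * αH x = (⟨s, hs⟩ : H) * αH 1 * αH x
    rw [map_one, mul_one]
  have hUcomm : ∀ x ∈ U, ∀ y ∈ cK α, x * y = y * x := fun x hx y hy => hBc x hx.1 y hy
  have hTsplit : ∀ (x : U) (y : H), T (x * y) = (TU x : G) * TH y := by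
    intro x y
    rw [hTUapp, hTHapp, h.aff, ← ht, hts, map_mul]
    group
  -- the bijection
  let μ : U × H ≃ G := Equiv.ofBijective (fun p => (p.1 : G) * p.2) (by
    constructor
    · rintro ⟨x, y⟩ ⟨x', y'⟩ hxy
      have h1 : (x : G) * y = x' * y' := hxy
      have h2 : (x' : G)⁻¹ * x = y' * (y : G)⁻¹ := by
        calc (x' : G)⁻¹ * x = (x' : G)⁻¹ * (x * y) * (y : G)⁻¹ := by group
          _ = _ := by rw [h1]; group
      have h3 : (x' : G)⁻¹ * x = 1 := by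
        apply hUH _ (U.mul_mem (U.inv_mem x'.2) x.2)
        rw [h2]; exact H.mul_mem y'.2 (H.inv_mem y.2)
      have h4 : (x : G) = x' := (inv_mul_eq_one.mp h3).symm
      rw [h4] at h1
      exact Prod.ext (Subtype.ext h4) (Subtype.ext (mul_left_cancel h1))
    · intro g
      obtain ⟨u, hu, y, hy, rfl⟩ := hUHsup g
      exact ⟨(⟨u, hu⟩, ⟨y, hy⟩), rfl⟩)
  have hμ : ∀ x y, μ (x, y) = (x : G) * y := fun x y => rfl
  have hμT : ∀ p, μ ((TU.prodCongr TH) p) = T (μ p) := by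
    rintro ⟨x, y⟩
    show μ (TU x, TH y) = T (μ (x, y))
    rw [hμ, hμ, hTsplit]
  have hμn : ∀ (n : ℕ) p, μ (((TU.prodCongr TH) ^ n) p) = (T ^ n) (μ p) := fun n p =>
    semiconj_pow μ _ T hμT n p
  have htrP : ∀ p q : U × H, ∃ i : ℕ, ((TU.prodCongr TH : Perm (U × H)) ^ i) p = q := by
    intro p q
    obtain ⟨i, hi⟩ := h.trans (μ p) (μ q)
    refine ⟨i, μ.injective ?_⟩
    rw [hμn, hi]
  have hFU : FC TU (cs * αU) := by
    refine ⟨inferInstance, hTUaff, fun x y => ?_⟩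
    obtain ⟨i, hi⟩ := htrP (x, 1) (y, 1)
    rw [prodCongr_pow] at hi
    exact ⟨i, congrArg Prod.fst hi⟩
  have hFH : FC TH αH := by
    refine ⟨inferInstance, hTHaff, fun x y => ?_⟩
    obtain ⟨i, hi⟩ := htrP (1, x) (1, y)
    rw [prodCongr_pow] at hi
    exact ⟨i, congrArg Prod.snd hi⟩
  have hcardG : Nat.card G = Nat.card U * Nat.card H := by
    rw [← Nat.card_prod]; exact (Nat.card_congr μ).symm
  have hcopUH : Nat.Coprime (Nat.card U) (Nat.card H) := by
    have h1 : orderOf T = Nat.lcm (orderOf TU) (orderOf TH) := by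
      rw [← orderOf_prodCongr]
      exact (orderOf_of_equiv μ _ T hμT).symm
    rw [h.order, hFU.order, hFH.order, hcardG] at h1
    have h2 := Nat.gcd_mul_lcm (Nat.card U) (Nat.card H)
    rw [← h1] at h2
    have h3 : 0 < Nat.card U * Nat.card H := Nat.mul_pos Nat.card_pos Nat.card_pos
    exact Nat.eq_of_mul_eq_mul_right h3 (by rw [h2, one_mul])
  -- power type
  obtain ⟨c, hc⟩ := hpow (MulAut.conj s) (fun x hx => hBn.conj_mem x hx s)
  have hwU : ∀ x : U, (cs * αU) x = x ^ (v * c) := by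
    intro x
    apply Subtype.ext
    rw [MulAut.mul_apply, hcs, hαU, hv x x.2.1, Subgroup.coe_pow, pow_mul]
    exact hc _ (Subgroup.pow_mem _ x.2.1 _)
  have hUU : ∀ x y : U, x * y = y * x := fun x y => Subtype.ext (hBc x x.2.1 y y.2.1)
  have hgen : ∀ x : U, x ∈ Subgroup.zpowers (TU 1) := fc_pow_gen hUU hFU hwU
  let n := Nat.card U
  have hnpos : 0 < n := Nat.card_pos
  let e : Multiplicative (ZMod n) ≃* U := zmodMulEquivOfGenerator hgen rfl
  have he1 : e (Multiplicative.ofAdd 1) = TU 1 := zmodMulEquivOfGenerator_apply_ofAdd_one hgen rfl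
  obtain ⟨χ, hχ⟩ := exists_char e (MulAut.conjNormal.comp H.subtype)
  have hχ' : ∀ (y : H) (x : ZMod n), (y : G) * e (Multiplicative.ofAdd x) * (y : G)⁻¹ =
      (e (Multiplicative.ofAdd ((χ y : ZMod n) * x)) : U) := by
    intro y x
    rw [← hχ]
    rfl
  let f : ZMod n × H ≃ G := ((Multiplicative.ofAdd.trans e.toEquiv).prodCongr (Equiv.refl H)).trans μ
  have hf : ∀ x y, f (x, y) = (e (Multiplicative.ofAdd x) : U) * (y : G) := fun x y => rfl
  have hprimeN₁ : ∀ p : ℕ, p.Prime → p ∣ n → p ∣ N₁ := by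
    intro p hp hpn
    have hpf : Fact p.Prime := ⟨hp⟩
    obtain ⟨x, hx⟩ := exists_prime_orderOf_dvd_card' p hpn
    rw [← hx]
    apply orderOf_dvd_of_pow_eq_one
    exact Subtype.ext x.2.2
  have hww : ∀ p : ℕ, p.Prime → p ∣ n → (p : ℤ) ∣ ((v * c : ℕ) : ℤ) - 1 := fun p hp hpn =>
    fc_pow hUU hFU hwU hp hpn
  refine ⟨n, H, inferInstance, TH, αH, χ, v * c, f, hnpos, ?_, hcopUH, hFH, ?_, ?_, ?_, hww, ?_, ?_, ?_⟩
  · -- odd
    by_contra hodd
    rw [Nat.not_odd_iff_even, even_iff_two_dvd] at hodd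
    have h2 := hprimeN₁ 2 Nat.prime_two hodd
    have : Fact (Nat.Prime 2) := ⟨Nat.prime_two⟩
    obtain ⟨x, hx⟩ := exists_prime_orderOf_dvd_card' 2 hodd
    have hx2 : (x : G) ^ 2 = 1 := by
      have := pow_orderOf_eq_one x
      rw [hx] at this
      exact congrArg Subtype.val this
    have hx1 : (x : G) ≠ 1 := by
      intro h1
      have : x = 1 := Subtype.ext h1
      rw [this, orderOf_one] at hx
      omega
    -- v is odd or even
    rcases Nat.even_or_odd' v with ⟨q, hq | hq⟩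
    · apply hx1
      have h3 := hv x x.2.1
      rw [hq, pow_mul, hx2, one_pow] at h3
      exact (MulEquiv.map_eq_one_iff α).mp h3
    · obtain ⟨m, hm⟩ := h2
      rw [hq, hm] at hab2
      push_cast at hab2
      have h4 : (2 : ℤ) * (a₂ * q + b₂ * m) = 1 := by linear_combination hab2
      omega
  · -- Uni
    refine ⟨v, ?_, ?_⟩
    · intro b hb
      have hbK : (b : G) ∈ K := by
        have h1 : cK αH ≤ K.subgroupOf H := by
          unfold cK
          rw [Subgroup.closure_le]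
          rintro _ ⟨g, rfl⟩
          show ((g⁻¹ * αH g : H) : G) ∈ K
          rw [Subgroup.coe_mul, Subgroup.coe_inv, hαH]
          exact g.2
        exact h1 hb
      apply Subtype.ext
      rw [hαH, hv _ hbK.1]; rfl
    · intro p hp hpd
      apply hw0 p hp
      have hpf : Fact p.Prime := ⟨hp⟩
      obtain ⟨x, hx⟩ := exists_prime_orderOf_dvd_card' p hpd
      have hbK : ((x : H) : G) ∈ K := by
        have h1 : cK αH ≤ K.subgroupOf H := by
          unfold cK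
          rw [Subgroup.closure_le]
          rintro _ ⟨g, rfl⟩
          show ((g⁻¹ * αH g : H) : G) ∈ K
          rw [Subgroup.coe_mul, Subgroup.coe_inv, hαH]
          exact g.2
        exact h1 x.2
      rw [← hx]
      apply orderOf_dvd_of_pow_eq_one
      apply Subtype.ext
      apply Subtype.ext
      exact hbK.2
  · -- multiplication
    intro x y x' y'
    rw [hf, hf, hf, ofAdd_add, map_mul, Subgroup.coe_mul, ← hχ']
    show _ = (e (Multiplicative.ofAdd x) : G) * (y * (e (Multiplicative.ofAdd x') : G) * (y : G)⁻¹) *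
      ((y : G) * y')
    group
  · intro x y
    rw [hf, hf, hTsplit]
    congr 2
    rw [hTUaff, hwU, ← he1, ← map_pow, ← map_mul]
    congr 1
    rw [mul_comm]
    show _ = Multiplicative.ofAdd (_ + _)
    rw [ofAdd_add]
    congr 1
    rw [← ofAdd_nsmul, nsmul_eq_mul]
  · intro y
    -- χ (αH y) = χ y
    apply Units.ext
    have h1 : ∀ x : ZMod n, (e (Multiplicative.ofAdd ((χ (αH y) : ZMod n) * x)) : U) =
        e (Multiplicative.ofAdd ((χ y : ZMod n) * x)) := by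
      intro x
      apply Subtype.ext
      rw [← hχ', ← hχ', hαH]
      have h2 := cK_mem α (y : G)
      have h3 := hUcomm _ (e (Multiplicative.ofAdd x)).2 _ h2
      have h4 : α (y : G) = y * ((y : G)⁻¹ * α y) := by group
      rw [h4]
      set b := (y : G)⁻¹ * α y
      calc (y : G) * b * (e (Multiplicative.ofAdd x) : U) * ((y : G) * b)⁻¹
          = y * (b * (e (Multiplicative.ofAdd x) : U)) * b⁻¹ * (y : G)⁻¹ := by group
        _ = y * ((e (Multiplicative.ofAdd x) : U) * b) * b⁻¹ * (y : G)⁻¹ := by rw [h3]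
        _ = _ := by group
    have h2 := e.injective (h1 1)
    have h3 : (χ (αH y) : ZMod n) * 1 = (χ y : ZMod n) * 1 := h2
    rwa [mul_one, mul_one] at h3
  · -- χ s - 1 is a unit
    have hTH1 : TH 1 = ⟨s, hs⟩ := by
      apply Subtype.ext
      rw [hTHapp]; simp
    rw [hTH1]
    -- χ s = c in ZMod n
    have hχs : (χ ⟨s, hs⟩ : ZMod n) = c := by
      have h1 := hχ' ⟨s, hs⟩ 1
      have h2 : s * ((e (Multiplicative.ofAdd 1) : U) : G) * s⁻¹ =
          ((e (Multiplicative.ofAdd 1) : U) : G) ^ c := hc _ (e (Multiplicative.ofAdd 1)).2.1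
      have h3 : (e (Multiplicative.ofAdd ((χ ⟨s, hs⟩ : ZMod n) * 1)) : U) =
          e (Multiplicative.ofAdd (c : ZMod n)) := by
        apply Subtype.ext
        rw [← h1, h2, ← Subgroup.coe_pow, ← map_pow, ← ofAdd_nsmul, nsmul_eq_mul, mul_one]
      have h4 := e.injective h3
      have h5 : (χ ⟨s, hs⟩ : ZMod n) * 1 = (c : ZMod n) := h4
      rwa [mul_one] at h5
    rw [hχs]
    have h1 : IsUnit (((c : ℤ) - 1 : ℤ) : ZMod n) := by
      rw [ZMod.coe_int_isUnit_iff_isCoprime]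
      by_contra hcon
      rw [Int.isCoprime_iff_gcd_eq_one] at hcon
      obtain ⟨p, hp, hpd⟩ := Nat.exists_prime_and_dvd hcon
      have hpn : (p : ℤ) ∣ (n : ℤ) := (Int.natCast_dvd_natCast.mpr hpd).trans (Int.gcd_dvd_left ..)
      have hpc : (p : ℤ) ∣ (c : ℤ) - 1 := (Int.natCast_dvd_natCast.mpr hpd).trans (Int.gcd_dvd_right ..)
      have hpn' : p ∣ n := Int.natCast_dvd_natCast.mp hpn
      have h2 := hww p hp hpn'
      have h3 := hprimeN₁ p hp hpn'
      -- p ∣ v - 1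
      have h4 : (p : ℤ) ∣ (v : ℤ) - 1 := by
        have h5 : (v : ℤ) - 1 = (((v * c : ℕ) : ℤ) - 1) - (v : ℤ) * ((c : ℤ) - 1) := by
          push_cast; ring
        rw [h5]
        exact dvd_sub h2 (hpc.mul_left _)
      have h5 : (p : ℤ) ∣ 1 := by
        rw [← hab2]
        exact dvd_add (h4.mul_left _) ((Int.natCast_dvd_natCast.mpr h3).mul_left _)
      have h6 := Int.natCast_dvd_natCast.mp (show ((p : ℕ) : ℤ) ∣ ((1 : ℕ) : ℤ) by simpa using h5)
      exact hp.one_lt.ne' (Nat.dvd_one.mp h6)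
    push_cast at h1
    exact h1
  · intro x
    rw [hf]
    show ((e (Multiplicative.ofAdd x) : U) : G) * ((1 : H) : G) ∈ cK α
    rw [Subgroup.coe_one, mul_one]
    exact (e (Multiplicative.ofAdd x)).2.1

end H67
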