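import Mathlib
import Pool.Agent.H67.Split2

namespace H67

open Equiv

variable {G : Type} [Group G]

/-- the dual of an affine map -/
def dual (T : Perm G) : Perm G := (Equiv.inv G).trans (T.trans (Equiv.inv G))

theorem dual_apply (T : Perm G) (x : G) : dual T x = (T x⁻¹)⁻¹ := rfl

theorem dual_dual (T : Perm G) : dual (dual T) = T := by
  ext x; simp [dual_apply]

theorem dual_pow (T : Perm G) (n : ℕ) (x : G) : (dual T ^ n) x = ((T ^ n) x⁻¹)⁻¹ := by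
  induction n generalizing x with
  | zero => simp
  | succ n ih => rw [pow_succ, Perm.mul_apply, ih, dual_apply, inv_inv, pow_succ]; rfl

theorem FC.dual {T : Perm G} {α : MulAut G} (h : FC T α) : FC (dual T) (MulAut.conj (T 1) * α) := by
  refine ⟨h.fin, ?_, ?_⟩
  · intro x
    rw [dual_apply, dual_apply, inv_one, h.aff x⁻¹, MulAut.mul_apply, MulAut.conj_apply, map_inv]
    group
  · intro x y
    obtain ⟨i, hi⟩ := h.trans x⁻¹ y⁻¹
    exact ⟨i, by rw [dual_pow, hi, inv_inv]⟩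

theorem cK_map {H : Type} [Group H] {π : G →* H} (hπ : Function.Surjective π) {α : MulAut G}
    {β : MulAut H} (hc : ∀ x, π (α x) = β (π x)) : cK β = (cK α).map π := by
  unfold cK
  rw [MonoidHom.map_closure]
  congr 1
  ext y
  constructor
  · rintro ⟨g, rfl⟩
    obtain ⟨x, rfl⟩ := hπ g
    exact ⟨x⁻¹ * α x, ⟨x, rfl⟩, by rw [map_mul, map_inv, hc]⟩
  · rintro ⟨_, ⟨x, rfl⟩, rfl⟩
    exact ⟨π x, by
      show (π x)⁻¹ * β (π x) = π (x⁻¹ * α x)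
      rw [map_mul, map_inv, hc]⟩

theorem Uni.map [Finite G] {H : Type} [Group H] {π : G →* H} (hπ : Function.Surjective π)
    {α : MulAut G} {β : MulAut H} (hc : ∀ x, π (α x) = β (π x)) (h : Uni α) : Uni β := by
  obtain ⟨v, hv, hp⟩ := h
  have h1 := cK_map hπ hc
  refine ⟨v, ?_, ?_⟩
  · intro b hb
    rw [h1] at hb
    obtain ⟨a, ha, rfl⟩ := hb
    rw [← hc, hv a ha, map_pow]
  · intro p hpp hpd
    apply hp p hpp
    rw [h1] at hpd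
    exact hpd.trans (Subgroup.card_map_dvd _ _)

/-- The double splitting theorem. -/
theorem FC.split_two {T : Perm G} {α : MulAut G} (h : FC T α) :
    ∃ (n₁ n₂ : ℕ) (H : Type) (_ : Group H) (S : Perm H) (β : MulAut H)
      (χ₁ : H →* (ZMod n₁)ˣ) (χ₂ : H →* (ZMod n₂)ˣ) (w₁ w₂ : ℕ)
      (f : ZMod n₁ × H × ZMod n₂ ≃ G), 0 < n₁ ∧ 0 < n₂ ∧ Odd n₁ ∧ Odd n₂ ∧ Nat.Coprime n₁ n₂ ∧
      Nat.Coprime n₁ (Nat.card H) ∧ Nat.Coprime n₂ (Nat.card H) ∧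
      FC S β ∧ Uni β ∧ Uni (MulAut.conj (S 1) * β) ∧
      (∀ x₁ h x₂ y₁ g y₂, f (x₁, h, x₂) * f (y₁, g, y₂) =
        f (x₁ + (χ₁ h : ZMod n₁) * y₁, h * g, ((χ₂ g)⁻¹ : (ZMod n₂)ˣ) * x₂ + y₂)) ∧
      (∀ x₁ h x₂, T (f (x₁, h, x₂)) = f ((w₁ : ZMod n₁) * x₁ + 1, S h, (w₂ : ZMod n₂) * x₂ + 1)) ∧
      (∀ p : ℕ, p.Prime → p ∣ n₁ → (p : ℤ) ∣ (w₁ : ℤ) - 1) ∧
      (∀ p : ℕ, p.Prime → p ∣ n₂ → (p : ℤ) ∣ (w₂ : ℤ) - 1) ∧
      (∀ h, χ₁ (S h) = χ₁ (S 1) * χ₁ h) ∧ (∀ h, χ₂ (S h) = χ₂ (S 1) * χ₂ h) ∧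
      IsUnit ((χ₁ (S 1) : ZMod n₁) - 1) ∧ IsUnit ((χ₂ (S 1) : ZMod n₂) - 1) := by
  have hfin := h.fin
  obtain ⟨n₁, H₁, _, S₁, β₁, χ, w₁, f₁, hn₁, hodd₁, hcop₁, hFC₁, hUni₁, hmul₁, hT₁, hw₁, hχ₁, hu₁, hB₁⟩ :=
    h.split
  obtain ⟨n₂, H, _, S', β', ψ, w₂, f₂, hn₂, hodd₂, hcop₂, hFC₂, hUni₂, hmul₂, hT₂, hw₂, hχ₂, hu₂, hB₂⟩ :=
    hFC₁.dual.split
  have hfin₁ := hFC₁.fin
  have hfin₂ := hFC₂.fin
  have hcardH₁ : Nat.card H₁ = n₂ * Nat.card H := by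
    rw [← Nat.card_congr f₂, Nat.card_prod, Nat.card_zmod]
  -- χ is trivial on cK of the dual
  have hχdual : ∀ x ∈ cK (MulAut.conj (S₁ 1) * β₁), χ x = 1 := by
    intro x hx
    have h1 : cK (MulAut.conj (S₁ 1) * β₁) ≤ χ.ker := by
      unfold cK
      rw [Subgroup.closure_le]
      rintro _ ⟨g, rfl⟩
      show χ (g⁻¹ * (MulAut.conj (S₁ 1) * β₁) g) = 1
      rw [MulAut.mul_apply, MulAut.conj_apply, map_mul, map_mul, map_mul, map_inv, map_inv, hχ₁]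
      rw [mul_comm (χ (S₁ 1)) (χ g), mul_assoc, mul_inv_cancel, mul_one, inv_mul_cancel]
    exact h1 hx
  have h01 : ∀ (x : ZMod n₂), χ (f₂ (x, 1)) = 1 := fun x => hχdual _ (hB₂ x)
  -- f₂ (0, h) is a homomorphism
  have hone : f₂ (0, 1) = 1 := by
    have h1 := hmul₂ 0 1 0 1
    rw [mul_zero, add_zero, one_mul] at h1
    exact mul_eq_left.mp h1
  let ι : H →* H₁ :=
    { toFun := fun h => f₂ (0, h)
      map_one' := hone
      map_mul' := fun h g => by rw [hmul₂]; simp }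
  have hι : ∀ h, ι h = f₂ (0, h) := fun h => rfl
  have hfact : ∀ x h, f₂ (x, h) = f₂ (x, 1) * ι h := by
    intro x h
    rw [hι, hmul₂]; simp
  -- inverse formula
  have hinv : ∀ x h, (f₂ (x, h))⁻¹ = f₂ (-(((ψ h)⁻¹ : (ZMod n₂)ˣ) : ZMod n₂) * x, h⁻¹) := by
    intro x h
    rw [inv_eq_iff_mul_eq_one, hmul₂, mul_inv_cancel, ← hone]
    congr 2
    have := (ψ h).mul_inv
    linear_combination (-x) * this
  -- the projection
  let π : H₁ →* H :=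
    { toFun := fun x => (f₂.symm x).2
      map_one' := by rw [← hone, Equiv.symm_apply_apply]
      map_mul' := by
        intro x y
        obtain ⟨⟨a, h⟩, rfl⟩ := f₂.surjective x
        obtain ⟨⟨b, g⟩, rfl⟩ := f₂.surjective y
        rw [hmul₂]; simp }
  have hπ : ∀ x h, π (f₂ (x, h)) = h := by
    intro x h
    show (f₂.symm (f₂ (x, h))).2 = h
    rw [Equiv.symm_apply_apply]
  have hπs : Function.Surjective π := fun h => ⟨f₂ (0, h), hπ 0 h⟩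
  set S := H67.dual S' with hS
  have hFC : FC S (MulAut.conj (S' 1) * β') := hFC₂.dual
  have hS1 : S 1 = (S' 1)⁻¹ := by rw [hS, dual_apply, inv_one]
  have hπS : ∀ x, π (S₁ x) = S (π x) := by
    intro x
    obtain ⟨⟨a, h⟩, hah⟩ := f₂.surjective x⁻¹
    have h1 : S₁ x = (H67.dual S₁ x⁻¹)⁻¹ := by rw [dual_apply, inv_inv, inv_inv]
    have hx : (π x)⁻¹ = h := by rw [← map_inv π, ← hah, hπ]
    rw [h1, ← hah, hT₂, map_inv π, hπ, hS, dual_apply, hx]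
  have hdb : MulAut.conj (S 1) * (MulAut.conj (S' 1) * β') = β' := by
    rw [hS1, ← mul_assoc, ← map_mul, inv_mul_cancel, map_one, one_mul]
  have hUniA : Uni (MulAut.conj (S' 1) * β') := by
    apply hUni₁.map hπs
    intro x
    have h1 := hFC₁.aff.lin x
    rw [h1, map_mul, map_inv, hπS, hπS, map_one]
    exact (hFC.aff.lin (π x)).symm
  let F : ZMod n₁ × H × ZMod n₂ → G := fun p => f₁ (p.1, (f₂ (p.2.2, p.2.1⁻¹))⁻¹)
  have hF : ∀ x h y, F (x, h, y) = f₁ (x, (f₂ (y, h⁻¹))⁻¹) := fun x h y => rfl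
  have hFbij : Function.Bijective F := by
    constructor
    · rintro ⟨x, h, y⟩ ⟨x', h', y'⟩ he
      rw [hF, hF] at he
      have h1 := f₁.injective he
      have h2 : x = x' := congrArg Prod.fst h1
      have h3 : (f₂ (y, h⁻¹))⁻¹ = (f₂ (y', h'⁻¹))⁻¹ := congrArg Prod.snd h1
      have h4 := f₂.injective (inv_injective h3)
      have h5 : y = y' := congrArg Prod.fst h4
      have h6 : h = h' := inv_injective (congrArg Prod.snd h4)
      rw [h2, h5, h6]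
    · intro g
      obtain ⟨⟨x, z⟩, rfl⟩ := f₁.surjective g
      obtain ⟨⟨y, h⟩, hz⟩ := f₂.surjective z⁻¹
      exact ⟨(x, h⁻¹, y), by rw [hF, inv_inv, hz, inv_inv]⟩
  have hχF : ∀ y h, χ (f₂ (y, h⁻¹))⁻¹ = χ (ι h) := by
    intro y h
    rw [hfact, map_inv, map_mul, h01, one_mul, ← map_inv, ← map_inv, inv_inv]
  refine ⟨n₁, n₂, H, inferInstance, S, MulAut.conj (S' 1) * β', χ.comp ι, ψ, w₁, w₂,
    Equiv.ofBijective F hFbij, hn₁, hn₂, hodd₁, hodd₂, ?_, ?_, hcop₂, hFC, hUniA, ?_, ?_, ?_, hw₁,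
    hw₂, ?_, ?_, ?_, ?_⟩
  · rw [hcardH₁] at hcop₁
    exact Nat.Coprime.coprime_mul_right_right hcop₁
  · rw [hcardH₁] at hcop₁
    exact Nat.Coprime.coprime_mul_left_right hcop₁
  · rw [hdb]; exact hUni₂
  · intro x₁ h x₂ y₁ g y₂
    show F (x₁, h, x₂) * F (y₁, g, y₂) = F _
    rw [hF, hF, hF, hmul₁, hχF, ← mul_inv_rev, hmul₂, ← mul_inv_rev, map_inv]
    congr 4
    rw [add_comm]
  · intro x₁ h x₂
    show T (F (x₁, h, x₂)) = F _
    rw [hF, hF, hT₁]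
    congr 2
    have h1 : S₁ (f₂ (x₂, h⁻¹))⁻¹ = (H67.dual S₁ (f₂ (x₂, h⁻¹)))⁻¹ := by
      rw [dual_apply, inv_inv]
    rw [h1, hT₂, hS, dual_apply, inv_inv]
  · -- χ₁
    intro h
    have h2 : ∀ g, χ (ι (S g)) = χ (S₁ (ι g)) := by
      intro g
      have h3 : S₁ (ι g) = (H67.dual S₁ (ι g)⁻¹)⁻¹ := by rw [dual_apply, inv_inv, inv_inv]
      have e : (ι g)⁻¹ = f₂ (0, g⁻¹) := by rw [← map_inv ι]; rfl
      rw [h3, e, hT₂, mul_zero, zero_add, ← hχF 1 (S g), hS, dual_apply, inv_inv]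
    show χ (ι (S h)) = χ (ι (S 1)) * χ (ι h)
    rw [h2, h2, map_one, hFC₁.aff (ι h), map_mul, hχ₁]
  · -- χ₂
    intro h
    have h1 : S h = (S' h⁻¹)⁻¹ := by rw [hS, dual_apply]
    rw [h1, hS1, hFC₂.aff, map_inv, map_mul, hχ₂, map_inv, map_inv, mul_inv, inv_inv]
  · have h2 : χ (ι (S 1)) = χ (S₁ 1) := by
      have h3 : S₁ 1 = (H67.dual S₁ 1)⁻¹ := by rw [dual_apply, inv_inv, inv_one]
      rw [h3, ← hone, hT₂, mul_zero, zero_add, ← hχF 1 (S 1), hS, dual_apply, inv_inv, inv_one]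
    show IsUnit ((χ (ι (S 1)) : ZMod n₁) - 1)
    rw [h2]; exact hu₁
  · rw [hS1, map_inv]
    have h1 : ((((ψ (S' 1))⁻¹ : (ZMod n₂)ˣ) : ZMod n₂) - 1) =
        (((ψ (S' 1))⁻¹ : (ZMod n₂)ˣ) : ZMod n₂) * (-((ψ (S' 1) : ZMod n₂) - 1)) := by
      have := (ψ (S' 1)).inv_mul
      linear_combination (1 : ZMod n₂) * this
    rw [h1]
    exact (Units.isUnit _).mul hu₂.neg

end H67
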