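import Mathlib
import Pool.Agent.H67.Core4
import Pool.Agent.H67.Core5
import Pool.Agent.H67.Split3

namespace H67

open Equiv

variable {G : Type} [Group G]

/-- product with a cyclic group of odd order: dihedral -/
def DihCore (H : Type) [Group H] (S : Perm H) : Prop :=
  ∃ (m w ν v : ℕ) (e : Multiplicative (ZMod m) × DihedralGroup (2 ^ ν) ≃* H), 0 < m ∧ Odd m ∧
    (∀ p : ℕ, p.Prime → p ∣ m → (p : ℤ) ∣ (w : ℤ) - 1) ∧ 1 ≤ ν ∧ Odd v ∧
    (∀ (x : ZMod m) (i : ZMod (2 ^ ν)), S (e (Multiplicative.ofAdd x, .r i)) =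
      e (Multiplicative.ofAdd (w * x + 1), .sr (v * i))) ∧
    ∀ (x : ZMod m) (i : ZMod (2 ^ ν)), S (e (Multiplicative.ofAdd x, .sr i)) =
      e (Multiplicative.ofAdd (w * x + 1), .r (v * i + 1))

/-- product with a cyclic group of odd order: quaternion -/
def QuatCore (H : Type) [Group H] (S : Perm H) : Prop :=
  ∃ (m w ν v : ℕ) (e : Multiplicative (ZMod m) × QuaternionGroup (2 ^ ν) ≃* H), 0 < m ∧ Odd m ∧
    (∀ p : ℕ, p.Prime → p ∣ m → (p : ℤ) ∣ (w : ℤ) - 1) ∧ 1 ≤ ν ∧ Odd v ∧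
    (∀ (x : ZMod m) (i : ZMod (2 * 2 ^ ν)), S (e (Multiplicative.ofAdd x, .a i)) =
      e (Multiplicative.ofAdd (w * x + 1), .xa (v * i))) ∧
    ∀ (x : ZMod m) (i : ZMod (2 * 2 ^ ν)), S (e (Multiplicative.ofAdd x, .xa i)) =
      e (Multiplicative.ofAdd (w * x + 1), .a (v * i + 1))

theorem gen_of_parts {T : Perm G} {α : MulAut G} (h : FC T α) {X E : Subgroup G} (hD : DD α X E)
    {a b : G} (ha : a ∈ X) (hb : b ∈ E) (hT1 : T 1 = a * b)
    (hcop : Nat.Coprime (Nat.card X) (Nat.card E))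
    (hX : ∀ x ∈ X, x ∈ Subgroup.zpowers a) (hE : ∀ x ∈ E, x ∈ Subgroup.zpowers b) :
    ∀ x, x ∈ Subgroup.zpowers (T 1) := by
  obtain ⟨A, C, hAC⟩ := Nat.isCoprime_iff_coprime.mpr hcop
  have hfin := h.fin
  have haX : a ^ (Nat.card X) = 1 := by
    have : (⟨a, ha⟩ : X) ^ Nat.card X = 1 := pow_card_eq_one'
    exact congrArg Subtype.val this
  have hbE : b ^ (Nat.card E) = 1 := by
    have : (⟨b, hb⟩ : E) ^ Nat.card E = 1 := pow_card_eq_one'
    exact congrArg Subtype.val this
  have hab : Commute a b := hD.comm a ha b hb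
  have ha' : a ∈ Subgroup.zpowers (T 1) := by
    refine ⟨C * (Nat.card E : ℤ), ?_⟩
    show (T 1) ^ (C * (Nat.card E : ℤ)) = a
    rw [hT1, hab.mul_zpow, mul_comm C, zpow_mul b, zpow_natCast b, hbE, one_zpow, mul_one,
      mul_comm]
    calc a ^ (C * (Nat.card E : ℤ)) = a ^ (A * (Nat.card X : ℤ) + C * (Nat.card E : ℤ)) := by
          rw [zpow_add, mul_comm A, zpow_mul a (Nat.card X : ℤ), zpow_natCast, haX, one_zpow, one_mul]
      _ = a := by rw [hAC, zpow_one]
  have hb' : b ∈ Subgroup.zpowers (T 1) := by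
    have : b = a⁻¹ * T 1 := by rw [hT1]; group
    rw [this]
    exact Subgroup.mul_mem _ (Subgroup.inv_mem _ ha') (Subgroup.mem_zpowers _)
  intro x
  obtain ⟨y, hy, e, he, rfl⟩ := hD.sup x
  have h1 : Subgroup.zpowers a ≤ Subgroup.zpowers (T 1) := by rw [Subgroup.zpowers_le]; exact ha'
  have h2 : Subgroup.zpowers b ≤ Subgroup.zpowers (T 1) := by rw [Subgroup.zpowers_le]; exact hb'
  exact Subgroup.mul_mem _ (h1 (hX y hy)) (h2 (hE e he))

theorem core_class {T : Perm G} {α : MulAut G} (h : FC T α) (h1 : Uni α)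
    (h2 : Uni (MulAut.conj (T 1) * α)) : CycCore G T ∨ DihCore G T ∨ QuatCore G T := by
  have hfin := h.fin
  obtain ⟨N, k, v, c, d, hcore⟩ := exists_coreD h h1 h2
  by_cases hcase : ¬ 2 ∣ N ∨ 4 ∣ k
  · left; exact cycCore_of_gen h (hcore.gen_of hcase)
  push Not at hcase
  obtain ⟨h2N, h4k⟩ := hcase
  obtain ⟨L, hL⟩ := hcore.central_pow h2N
  -- index of the center
  have : Fact (Nat.Prime 2) := ⟨Nat.prime_two⟩
  obtain ⟨j, hj⟩ : ∃ j, (Subgroup.center G).index = 2 ^ j := by
    obtain ⟨q, hq⟩ := (IsPGroup.iff_card (p := 2) (G := G ⧸ Subgroup.center G)).mp (by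
      intro x
      induction x using QuotientGroup.induction_on with
      | H x =>
        refine ⟨L, ?_⟩
        rw [← QuotientGroup.mk_pow, QuotientGroup.eq_one_iff, Subgroup.mem_center_iff]
        intro y
        exact (hL x y).symm)
    exact ⟨q, hq⟩
  obtain ⟨a, m, hm, ham⟩ : ∃ a m, ¬ 2 ∣ m ∧ Nat.card G = 2 ^ a * m :=
    Nat.exists_eq_pow_mul_and_not_dvd Nat.card_pos.ne' 2 (by norm_num)
  have hidxc : ∀ x y : G, x ^ (Subgroup.center G).index * y = y * x ^ (Subgroup.center G).index := by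
    intro x y
    exact ((Subgroup.mem_center_iff.mp ((Subgroup.center G).pow_index_mem x)) y).symm
  have hidxm : ∀ x y : G, (x * y) ^ (Subgroup.center G).index =
      x ^ (Subgroup.center G).index * y ^ (Subgroup.center G).index := by
    intro x y
    exact congrArg Subtype.val (map_mul (MonoidHom.transferCenterPow G) x y)
  let φ : G →* G :=
    { toFun := fun x => x ^ (2 ^ (j + a))
      map_one' := one_pow _
      map_mul' := by
        intro x y
        rw [pow_add, pow_mul, pow_mul, pow_mul, ← hj, hidxm]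
        have : Commute (x ^ (Subgroup.center G).index) (y ^ (Subgroup.center G).index) := hidxc _ _
        exact this.mul_pow _ }
  have hφ : ∀ x, φ x = x ^ (2 ^ (j + a)) := fun x => rfl
  have hcent : ∀ x y : G, x ^ (2 ^ (j + a)) * y = y * x ^ (2 ^ (j + a)) := by
    intro x y
    rw [pow_add, pow_mul, ← hj]
    have : Commute (x ^ (Subgroup.center G).index) y := hidxc _ _
    exact this.pow_left _
  have hcop : Nat.Coprime (2 ^ (j + a)) m := by
    apply Nat.Coprime.pow_left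
    rw [Nat.prime_two.coprime_iff_not_dvd]; exact hm
  obtain ⟨hD, hMO⟩ := dd_of_pow (α := α) hφ hcent hcop (by
    rw [ham, pow_add, mul_assoc]; exact dvd_mul_left _ _)
  set X := φ.ker with hX
  set O := φ.range with hO
  obtain ⟨TX, αX, TO, αO, hFX, hFO, hαX, hαO, hTT, hcopXO⟩ := fc_dd h hD
  -- O is commutative of odd order
  have hOc : ∀ x y : O, x * y = y * x := by
    rintro ⟨_, ⟨x, rfl⟩⟩ ⟨y, hy⟩
    apply Subtype.ext
    show φ x * y = y * φ x
    rw [hφ, hcent]
  have hOodd : ¬ 2 ∣ Nat.card O := by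
    intro h3
    have h4 : Nat.Coprime 2 (Nat.card O) := by
      rcases Nat.eq_zero_or_pos (j + a) with h5 | h5
      · -- then the group has odd order, contradiction
        have ha0 : a = 0 := by omega
        have hN : N ∣ Nat.card G := by rw [← hcore.card]; exact Subgroup.card_subgroup_dvd_card _
        have : 2 ∣ Nat.card G := h2N.trans hN
        rw [ham, ha0, pow_zero, one_mul] at this
        exact absurd this hm
      · exact (Nat.coprime_pow_left_iff h5 2 _).mp hMO
    have h5 := Nat.dvd_gcd (dvd_refl 2) h3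
    rw [h4] at h5
    omega
  have hUniO : Uni αO := by
    apply h1.map (π := φ.rangeRestrict) φ.rangeRestrict_surjective
    intro x
    apply Subtype.ext
    rw [hαO]
    show φ (α x) = α (φ x)
    rw [hφ, hφ, map_pow]
  have hconjO : MulAut.conj (TO 1) * αO = αO := by
    ext x
    rw [MulAut.mul_apply, MulAut.conj_apply, hOc (TO 1), mul_inv_cancel_right]
  have hgenO : ∀ x, x ∈ Subgroup.zpowers (TO 1) := by
    obtain ⟨N', k', v', c', d', hcO⟩ := exists_coreD hFO hUniO (by rw [hconjO]; exact hUniO)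
    apply hcO.gen_of
    left
    intro h3
    apply hOodd
    rw [← hcO.card] at h3
    exact h3.trans (Subgroup.card_subgroup_dvd_card _)
  -- X is a 2-group
  have hX2 : ∀ x : X, x ^ (2 ^ (j + a)) = 1 := by
    rintro ⟨x, hx⟩
    apply Subtype.ext
    rw [MonoidHom.mem_ker, hφ] at hx
    exact hx
  have hXp : IsPGroup 2 X := fun x => ⟨j + a, hX2 x⟩
  obtain ⟨N', k', v', c', d', hcX⟩ := exists_coreD hFX (uni_two hFX hX2)
    (uni_two hFX.dual hX2 |> fun h => by simpa using h)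
  by_cases hcase' : ¬ 2 ∣ N' ∨ 4 ∣ k'
  · left
    have hgenX := hcX.gen_of hcase'
    apply cycCore_of_gen h
    have hT1 : T 1 = (TX 1 : G) * TO 1 := by
      have := hTT 1 1
      simpa using this
    apply gen_of_parts h hD (TX 1).2 (TO 1).2 hT1 hcopXO
    · intro x hx
      obtain ⟨i, hi⟩ := hgenX ⟨x, hx⟩
      exact ⟨i, congrArg Subtype.val hi⟩
    · intro x hx
      obtain ⟨i, hi⟩ := hgenO ⟨x, hx⟩
      exact ⟨i, congrArg Subtype.val hi⟩
  push Not at hcase'
  obtain ⟨h2N', h4k'⟩ := hcase'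
  obtain ⟨h2k', -⟩ := hcX.facts Nat.prime_two h2N'
  obtain ⟨q, hq⟩ := (IsPGroup.iff_card).mp hXp
  have hNk : N' * k' = 2 ^ q := by
    rw [← hq, ← Subgroup.card_mul_index (cK αX), hcX.card, hcX.index]
  obtain ⟨μ, -, hμ⟩ := (Nat.dvd_prime_pow Nat.prime_two).mp (Dvd.intro _ hNk)
  obtain ⟨κ, -, hκ⟩ := (Nat.dvd_prime_pow Nat.prime_two).mp (Dvd.intro_left _ hNk)
  have hk2 : k' = 2 := by
    have h3 : κ ≠ 0 := by rintro rfl; rw [pow_zero] at hκ; omega
    have h4 : κ < 2 := by
      by_contra hcon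
      push Not at hcon
      apply h4k'
      rw [hκ, show 4 = 2 ^ 2 from rfl]
      exact pow_dvd_pow 2 hcon
    have h5 : κ = 1 := by omega
    rw [hκ, h5, pow_one]
  have hμ1 : 1 ≤ μ := by
    by_contra hcon
    have : μ = 0 := by omega
    rw [this, pow_zero] at hμ
    omega
  subst hk2
  have hcyO := cycCore_of_gen hFO hgenO
  obtain ⟨m', w', e', hm', hw', -, he'⟩ := hcyO
  have hm'odd : Odd m' := by
    rw [← Nat.not_even_iff_odd, even_iff_two_dvd]
    intro h3
    apply hOodd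
    have : Nat.card O = m' := by
      rw [← Nat.card_congr e'.toEquiv, Nat.card_congr Multiplicative.toAdd, Nat.card_zmod]
    rw [this]; exact h3
  obtain ⟨ψ, hψ⟩ := hD.equiv
  rcases hcX.two_group hμ1 hμ with ⟨ν, u, e, hν, hu, he1, he2⟩ | ⟨ν, u, e, hν, hu, he1, he2⟩
  · right; left
    let E : Multiplicative (ZMod m') × DihedralGroup (2 ^ ν) ≃* G :=
      ((MulEquiv.prodCongr e' e).trans MulEquiv.prodComm).trans ψ
    have hE : ∀ x y, E (x, y) = (e y : G) * e' x := fun x y => hψ _ _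
    refine ⟨m', w', ν, u, E, hm', hm'odd, hw', hν, hu, ?_, ?_⟩
    · intro x i
      rw [hE, hE, hTT, he', he1]
    · intro x i
      rw [hE, hE, hTT, he', he2]
  · right; right
    let E : Multiplicative (ZMod m') × QuaternionGroup (2 ^ ν) ≃* G :=
      ((MulEquiv.prodCongr e' e).trans MulEquiv.prodComm).trans ψ
    have hE : ∀ x y, E (x, y) = (e y : G) * e' x := fun x y => hψ _ _
    refine ⟨m', w', ν, u, E, hm', hm'odd, hw', hν, hu, ?_, ?_⟩
    · intro x i
      rw [hE, hE, hTT, he', he1]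
    · intro x i
      rw [hE, hE, hTT, he', he2]

end H67
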