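import Mathlib
import Pool.Agent.H67.Conv2
import Pool.Agent.H67.Core6

namespace H67

open Equiv

theorem fullDatum_pos {n₁ n₂ : ℕ} {H : Type} [Group H] {S : Perm H} {χ₁ : H →* (ZMod n₁)ˣ}
    {χ₂ : H →* (ZMod n₂)ˣ} {w₁ w₂ : ℕ} (hD : FullDatum n₁ n₂ H S χ₁ χ₂ w₁ w₂) :
    0 < n₁ ∧ 0 < n₂ ∧ FullCyc H S := by
  obtain ⟨h1, h2, h3, h4, h5, h6, -⟩ := hD
  exact ⟨h1.pos, h2.pos, core_full h6⟩

theorem not_four_dvd_of_odd {n : ℕ} (h : Odd n) : ¬ 4 ∣ n := by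
  intro h4
  exact (Nat.not_even_iff_odd.mpr h) (even_iff_two_dvd.mpr ((by norm_num : 2 ∣ 4).trans h4))

/-- full pairs are full cycles -/
theorem full_of_isFull {C : Type} [Group C] {K : Perm C} (h : IsFull C K) : FullCyc C K := by
  obtain ⟨n₁, n₂, H, _, S, χ₁, χ₂, w₁, w₂, f, hD, hC⟩ := h
  obtain ⟨hn₁, hn₂, hS⟩ := fullDatum_pos hD
  obtain ⟨ho₁, ho₂, hcop, hcop₁, hcop₂, hcore, hw₁, hw₂, hχ₁, hχ₂, hu₁, hu₂⟩ := hD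
  obtain ⟨hmul, hK⟩ := hC
  have : NeZero n₁ := ⟨hn₁.ne'⟩
  have : NeZero n₂ := ⟨hn₂.ne'⟩
  have hHfin := hS.fin
  obtain ⟨a₁, ha₁, hwu₁⟩ := exists_affZ hn₁ hw₁
  obtain ⟨a₂, ha₂, hwu₂⟩ := exists_affZ hn₂ hw₂
  have ht₁ := hull_trans hn₁ (Equiv.refl (ZMod n₁)) (S := a₁) ha₁ hw₁
    (fun h4 => absurd h4 (not_four_dvd_of_odd ho₁))
  have ht₂ := hull_trans hn₂ (Equiv.refl (ZMod n₂)) (S := a₂) ha₂ hw₂
    (fun h4 => absurd h4 (not_four_dvd_of_odd ho₂))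
  have ht : ∀ x y, ∃ i : ℕ, ((a₁.prodCongr (S.prodCongr a₂) : Perm (ZMod n₁ × H × ZMod n₂)) ^ i) x
      = y := by
    apply trans_prod ht₁ (trans_prod hS.trans ht₂ _ (1, 0)) _ (0, 1, 0)
    · rw [Nat.card_zmod]; exact hcop₂.symm
    · rw [Nat.card_prod, Nat.card_zmod, Nat.card_zmod]
      exact Nat.Coprime.mul_right hcop₁ hcop
  refine ⟨Finite.of_equiv _ f, ?_, trans_congr f ?_ ht⟩
  · obtain ⟨β, hβ⟩ := hS.aff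
    have hβ₁ : ∀ g, χ₁ (β g) = χ₁ g := by
      intro g
      have h1 := hχ₁ g
      rw [hβ g, map_mul] at h1
      exact mul_left_cancel h1
    have hβ₂ : ∀ g, χ₂ (β g) = χ₂ g := by
      intro g
      have h1 := hχ₂ g
      rw [hβ g, map_mul] at h1
      exact mul_left_cancel h1
    have hone : f (0, 1, 0) = 1 := by
      have h1 := hmul 0 1 0 0 1 0
      rw [mul_zero, mul_zero, add_zero, add_zero, one_mul] at h1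
      exact mul_eq_left.mp h1
    let F : ZMod n₁ × H × ZMod n₂ → C := fun p =>
      f (((χ₁ (S 1))⁻¹ : (ZMod n₁)ˣ) * (w₁ : ZMod n₁) * p.1, β p.2.1,
        (w₂ : ZMod n₂) * p.2.2 + 1 - ((χ₂ p.2.1)⁻¹ : (ZMod n₂)ˣ))
    have hF : ∀ x₁ h x₂, F (x₁, h, x₂) = f (((χ₁ (S 1))⁻¹ : (ZMod n₁)ˣ) * (w₁ : ZMod n₁) * x₁, β h,
        (w₂ : ZMod n₂) * x₂ + 1 - ((χ₂ h)⁻¹ : (ZMod n₂)ˣ)) := fun _ _ _ => rfl
    let φ : C →* C :=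
      { toFun := fun x => F (f.symm x)
        map_one' := by
          rw [← hone, Equiv.symm_apply_apply, hF]
          congr 1
          ext
          · simp
          · simp
          · simp
        map_mul' := by
          intro x y
          obtain ⟨⟨x₁, h, x₂⟩, rfl⟩ := f.surjective x
          obtain ⟨⟨y₁, g, y₂⟩, rfl⟩ := f.surjective y
          rw [hmul]
          simp only [Equiv.symm_apply_apply]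
          rw [hF, hF, hF, hmul]
          congr 1
          have e1 : (((χ₁ (S 1))⁻¹ : (ZMod n₁)ˣ) : ZMod n₁) * (w₁ : ZMod n₁) *
              (x₁ + (χ₁ h : ZMod n₁) * y₁) =
              (((χ₁ (S 1))⁻¹ : (ZMod n₁)ˣ) : ZMod n₁) * (w₁ : ZMod n₁) * x₁ +
                (χ₁ (β h) : ZMod n₁) * ((((χ₁ (S 1))⁻¹ : (ZMod n₁)ˣ) : ZMod n₁) *
                (w₁ : ZMod n₁) * y₁) := by
            rw [hβ₁]; ring
          have e3 : (w₂ : ZMod n₂) * ((((χ₂ g)⁻¹ : (ZMod n₂)ˣ) : ZMod n₂) * x₂ + y₂) + 1 -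
              (((χ₂ (h * g))⁻¹ : (ZMod n₂)ˣ) : ZMod n₂) =
              (((χ₂ (β g))⁻¹ : (ZMod n₂)ˣ) : ZMod n₂) *
                ((w₂ : ZMod n₂) * x₂ + 1 - (((χ₂ h)⁻¹ : (ZMod n₂)ˣ) : ZMod n₂)) +
                ((w₂ : ZMod n₂) * y₂ + 1 - (((χ₂ g)⁻¹ : (ZMod n₂)ˣ) : ZMod n₂)) := by
            rw [hβ₂, map_mul, mul_inv_rev, Units.val_mul]; ring
          rw [e1, e3, map_mul β] }
    apply isAff_of_hom φ
    intro x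
    obtain ⟨⟨x₁, h, x₂⟩, rfl⟩ := f.surjective x
    show _ = K 1 * F (f.symm (f (x₁, h, x₂)))
    rw [Equiv.symm_apply_apply, ← hone, hK, hK, hF, hmul, ← hβ h]
    congr 1
    have e1 : (w₁ : ZMod n₁) * x₁ + 1 = (w₁ : ZMod n₁) * 0 + 1 + (χ₁ (S 1) : ZMod n₁) *
        ((((χ₁ (S 1))⁻¹ : (ZMod n₁)ˣ) : ZMod n₁) * (w₁ : ZMod n₁) * x₁) := by
      have := (χ₁ (S 1)).mul_inv
      linear_combination (-(w₁ : ZMod n₁) * x₁) * this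
    have e3 : (w₂ : ZMod n₂) * x₂ + 1 = (((χ₂ (β h))⁻¹ : (ZMod n₂)ˣ) : ZMod n₂) *
        ((w₂ : ZMod n₂) * 0 + 1) + ((w₂ : ZMod n₂) * x₂ + 1 -
          (((χ₂ h)⁻¹ : (ZMod n₂)ˣ) : ZMod n₂)) := by
      rw [hβ₂]; ring
    rw [← e1, ← e3]
  · rintro ⟨x₁, h, x₂⟩
    rw [hK]
    show f (a₁ x₁, S h, a₂ x₂) = _
    rw [ha₁, ha₂]

/-- full cycles are full pairs -/
theorem isFull_of_full {C : Type} [Group C] {K : Perm C} (h : FullCyc C K) : IsFull C K := by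
  obtain ⟨α, hα⟩ := h.fc
  obtain ⟨n₁, n₂, H, _, S, β, χ₁, χ₂, w₁, w₂, f, hn₁, hn₂, ho₁, ho₂, hcop, hcop₁, hcop₂, hS, hU₁,
    hU₂, hmul, hK, hw₁, hw₂, hχ₁, hχ₂, hu₁, hu₂⟩ := hα.split_two
  refine ⟨n₁, n₂, H, _, S, χ₁, χ₂, w₁, w₂, f,
    ⟨ho₁, ho₂, hcop, hcop₁, hcop₂, ?_, hw₁, hw₂, hχ₁, hχ₂, hu₁, hu₂⟩, hmul, hK⟩
  rcases core_class hS hU₁ hU₂ with hc | hc | hc
  · exact Or.inl hc
  · obtain ⟨m, w, k, v, e, hm0, hm, hw, hk, hv, h1, h2⟩ := hc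
    exact Or.inr (Or.inl ⟨m, w, k, v, e, hm, hw, hk, hv, h1, h2⟩)
  · obtain ⟨m, w, k, v, e, hm0, hm, hw, hk, hv, h1, h2⟩ := hc
    exact Or.inr (Or.inr ⟨m, w, k, v, e, hm, hw, hk, hv, h1, h2⟩)

theorem isFull_iff {C : Type} [Group C] {K : Perm C} : IsFull C K ↔ FullCyc C K :=
  ⟨full_of_isFull, isFull_of_full⟩

/-- every datum is realised -/
theorem full_exists {n₁ n₂ : ℕ} {H : Type} [Group H] {S : Perm H} {χ₁ : H →* (ZMod n₁)ˣ}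
    {χ₂ : H →* (ZMod n₂)ˣ} {w₁ w₂ : ℕ} (hD : FullDatum n₁ n₂ H S χ₁ χ₂ w₁ w₂) :
    ∃ (C : Type) (_ : Group C) (K : Perm C) (f : ZMod n₁ × H × ZMod n₂ ≃ C),
      FullCoord S χ₁ χ₂ w₁ w₂ C K f := by
  obtain ⟨hn₁, hn₂, hS⟩ := fullDatum_pos hD
  obtain ⟨ho₁, ho₂, hcop, hcop₁, hcop₂, hcore, hw₁, hw₂, hχ₁, hχ₂, hu₁, hu₂⟩ := hD
  obtain ⟨a₁, ha₁, hwu₁⟩ := exists_affZ hn₁ hw₁
  obtain ⟨a₂, ha₂, hwu₂⟩ := exists_affZ hn₂ hw₂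
  let M : Mul (ZMod n₁ × H × ZMod n₂) := ⟨fun p q =>
    (p.1 + (χ₁ p.2.1 : ZMod n₁) * q.1, p.2.1 * q.2.1,
      ((χ₂ q.2.1)⁻¹ : (ZMod n₂)ˣ) * p.2.2 + q.2.2)⟩
  let O : One (ZMod n₁ × H × ZMod n₂) := ⟨(0, 1, 0)⟩
  let I : Inv (ZMod n₁ × H × ZMod n₂) := ⟨fun p =>
    (-(((χ₁ p.2.1)⁻¹ : (ZMod n₁)ˣ) * p.1), p.2.1⁻¹, -((χ₂ p.2.1 : ZMod n₂) * p.2.2))⟩
  have hmul : ∀ x₁ h x₂ y₁ g y₂, M.mul ((x₁, h, x₂) : ZMod n₁ × H × ZMod n₂) (y₁, g, y₂) =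
    (x₁ + (χ₁ h : ZMod n₁) * y₁, h * g, ((χ₂ g)⁻¹ : (ZMod n₂)ˣ) * x₂ + y₂) :=
      fun _ _ _ _ _ _ => rfl
  let Gr : Group (ZMod n₁ × H × ZMod n₂) := @Group.ofLeftAxioms _ M I O (by
      rintro ⟨x₁, h, x₂⟩ ⟨y₁, g, y₂⟩ ⟨z₁, k, z₂⟩
      show M.mul (M.mul (x₁, h, x₂) (y₁, g, y₂)) (z₁, k, z₂) =
        M.mul (x₁, h, x₂) (M.mul (y₁, g, y₂) (z₁, k, z₂))
      rw [hmul, hmul, hmul, hmul, map_mul, map_mul, Units.val_mul, mul_inv_rev, Units.val_mul,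
        mul_assoc]
      ext
      · simp only []; ring
      · exact mul_assoc h g k
      · simp only []; ring) (by
      rintro ⟨x₁, h, x₂⟩
      show M.mul (0, 1, 0) (x₁, h, x₂) = (x₁, h, x₂)
      rw [hmul, map_one, Units.val_one, one_mul, one_mul, zero_add, mul_zero, zero_add]) (by
      rintro ⟨x₁, h, x₂⟩
      show M.mul (-(((χ₁ h)⁻¹ : (ZMod n₁)ˣ) * x₁), h⁻¹, -((χ₂ h : ZMod n₂) * x₂)) (x₁, h, x₂) =
        (0, 1, 0)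
      rw [hmul, map_inv, inv_mul_cancel, neg_add_cancel, mul_neg, ← mul_assoc, Units.inv_mul,
        one_mul, neg_add_cancel])
  exact ⟨_, Gr, a₁.prodCongr (S.prodCongr a₂), Equiv.refl _, fun x₁ h x₂ y₁ g y₂ => rfl,
    fun x₁ h x₂ => by
      show (a₁ x₁, S h, a₂ x₂) = _
      rw [ha₁, ha₂]; rfl⟩

end H67
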