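import Mathlib
import Pool.Agent.H67.Conv3

namespace H67

open Equiv

theorem FullCyc.tr {C : Type} [Group C] {K : Perm C} (h : FullCyc C K) (g : C) :
    FullCyc C (tr g K) := by
  obtain ⟨κ, hκ⟩ := h.aff
  refine ⟨h.fin, ⟨κ, hκ.tr g⟩, ?_⟩
  intro x y
  obtain ⟨i, hi⟩ := h.trans (g * x) (g * y)
  refine ⟨i, ?_⟩
  rw [tr_pow, tr_apply, hi, inv_mul_cancel_left]

/-- the order of the amalgamated map, and more -/
theorem amalgam_facts {P : Type} [Group P] {B : Perm P} (h : IsAmalgam P B) :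
    ∃ n : ℕ, Finite P ∧ (∃ β, IsAff B β) ∧ 2 ∣ n ∧ Nat.card P = 4 * n ∧ orderOf B = 3 * n := by
  obtain ⟨C, _, K, z, τ, π, ⟨hfull, h3, hz1, hzz, hzc, hKz, hτ, hτ3⟩, hsurj, hker, hB⟩ := h
  have hK := full_of_isFull hfull
  have hCfin := hK.fin
  obtain ⟨κ, hκ⟩ := hK.aff
  obtain ⟨ν, hν⟩ := isAffine_iff.mp hτ
  have hPfin : Finite P := Finite.of_surjective _ hsurj
  have hBn : ∀ (n : ℕ) c q, (B ^ n) (π (c, q)) = π ((K ^ n) c, (τ ^ n) q) := by
    intro n
    induction n with
    | zero => intro c q; simp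
    | succ n ih =>
      intro c q
      rw [pow_succ, Perm.mul_apply, hB, ih, pow_succ, pow_succ]; rfl
  have hcase : ∀ (n : ℕ), B ^ n = 1 → ∀ c q, ((K ^ n) c = c ∧ (τ ^ n) q = q) ∨
      (c⁻¹ * (K ^ n) c = z ∧ q⁻¹ * (τ ^ n) q = QuaternionGroup.a 2) := by
    intro n hn c q
    have h1 := hBn n c q
    rw [hn, Perm.one_apply] at h1
    have h2 : π (c⁻¹ * (K ^ n) c, q⁻¹ * (τ ^ n) q) = 1 := by
      have h4 : ((c⁻¹ * (K ^ n) c, q⁻¹ * (τ ^ n) q) : C × QuaternionGroup 2) =
        (c, q)⁻¹ * ((K ^ n) c, (τ ^ n) q) := rfl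
      rw [h4, map_mul, map_inv, ← h1, inv_mul_cancel]
    rcases (hker _ _).mp h2 with h5 | h5
    · left
      exact ⟨(inv_mul_eq_one.mp h5.1).symm, (inv_mul_eq_one.mp h5.2).symm⟩
    · right; exact h5
  have ha2 : (QuaternionGroup.a 2 : QuaternionGroup 2) ≠ 1 := by decide
  have ha22 : (QuaternionGroup.a 2 : QuaternionGroup 2) * QuaternionGroup.a 2 = 1 := by decide
  have hpow : ∀ n : ℕ, B ^ n = 1 → K ^ n = 1 ∧ τ ^ n = 1 := by
    intro n hn
    have hτn : τ ^ n = 1 := by
      by_contra hcon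
      have hex : ∃ q, (τ ^ n) q ≠ q := by
        by_contra hall
        push Not at hall
        exact hcon (Equiv.ext hall)
      obtain ⟨q₀, hq₀⟩ := hex
      have h1 : ∀ c, c⁻¹ * (K ^ n) c = z := by
        intro c
        rcases hcase n hn c q₀ with h | h
        · exact absurd h.2 hq₀
        · exact h.1
      have h2 : ∀ q, q⁻¹ * (τ ^ n) q = QuaternionGroup.a 2 := by
        intro q
        rcases hcase n hn 1 q with h | h
        · exfalso
          have h5 := h1 1
          rw [h.1, inv_mul_cancel] at h5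
          exact hz1 h5.symm
        · exact h.2
      have h3 : ∀ q, (τ ^ n) q = q * QuaternionGroup.a 2 := by
        intro q
        rw [← h2 q, mul_inv_cancel_left]
      have h4 : τ ^ (2 * n) = 1 := by
        ext q
        rw [two_mul, pow_add, Perm.mul_apply, h3 q, h3, mul_assoc, ha22, mul_one]; rfl
      have h5 := orderOf_dvd_of_pow_eq_one h4
      rw [hτ3] at h5
      have h6 : 3 ∣ n := by
        rcases (Nat.Prime.dvd_mul Nat.prime_three).mp h5 with h | h
        · omega
        · exact h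
      rw [← hτ3] at h6
      exact hcon (orderOf_dvd_iff_pow_eq_one.mp h6)
    refine ⟨?_, hτn⟩
    ext c
    rcases hcase n hn c 1 with h | h
    · exact h.1
    · exfalso
      have h5 := h.2
      rw [hτn] at h5
      apply ha2
      rw [← h5]; simp
  refine ⟨Nat.card C, hPfin, ?_, ?_, ?_, ?_⟩
  · let φ : P →* P :=
      { toFun := fun x => (B 1)⁻¹ * B x
        map_one' := by simp
        map_mul' := by
          intro x y
          obtain ⟨⟨c, q⟩, rfl⟩ := hsurj x
          obtain ⟨⟨d, r⟩, rfl⟩ := hsurj y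
          have e1 : (1 : P) = π (1, 1) := by rw [← Prod.one_eq_mk, map_one]
          have e2 : ∀ c q, (B 1)⁻¹ * B (π (c, q)) = π (κ c, ν q) := by
            intro c q
            rw [hB, e1, hB, ← map_inv, ← map_mul]
            congr 1
            show ((K 1)⁻¹ * K c, (τ 1)⁻¹ * τ q) = _
            rw [hκ c, hν q]; simp
          rw [← map_mul, Prod.mk_mul_mk, e2, e2, e2, ← map_mul, Prod.mk_mul_mk, map_mul, map_mul] }
    apply isAff_of_hom φ
    intro x
    show B x = B 1 * ((B 1)⁻¹ * B x)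
    rw [mul_inv_cancel_left]
  · have h1 : orderOf z = 2 := orderOf_eq_prime (by rw [pow_two]; exact hzz) hz1
    rw [← h1]; exact orderOf_dvd_natCard z
  · have h1 : Nat.card (C × QuaternionGroup 2) = Nat.card C * 8 := by
      rw [Nat.card_prod]
      congr 1
      rw [Nat.card_eq_fintype_card, QuaternionGroup.card]
    have h2 : Nat.card π.ker = 2 := by
      have h3 : (π.ker : Set (C × QuaternionGroup 2)) = {1, (z, QuaternionGroup.a 2)} := by
        ext ⟨c, q⟩
        show π (c, q) = 1 ↔ _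
        rw [hker]
        constructor
        · rintro (⟨rfl, rfl⟩ | ⟨rfl, rfl⟩)
          · left; rfl
          · right; rfl
        · rintro (h | h)
          · left
            exact ⟨congrArg Prod.fst h, congrArg Prod.snd h⟩
          · right
            have h' : (c, q) = (z, QuaternionGroup.a 2) := h
            exact ⟨congrArg Prod.fst h', congrArg Prod.snd h'⟩
      have h4 : Nat.card π.ker = (π.ker : Set (C × QuaternionGroup 2)).ncard := rfl
      rw [h4, h3, Set.ncard_pair]
      intro h5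
      exact hz1 (congrArg Prod.fst h5).symm
    have h3 := Subgroup.card_mul_index π.ker
    rw [Subgroup.index_ker, h1, h2] at h3
    have h4 : Nat.card π.range = Nat.card P := by
      rw [MonoidHom.range_eq_top.mpr hsurj]
      exact Nat.card_congr Subgroup.topEquiv.toEquiv
    rw [h4] at h3
    omega
  · have h1 : Nat.Coprime 3 (Nat.card C) := (Nat.Prime.coprime_iff_not_dvd Nat.prime_three).mpr h3
    apply Nat.dvd_antisymm
    · apply orderOf_dvd_of_pow_eq_one
      ext x
      obtain ⟨⟨c, q⟩, rfl⟩ := hsurj x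
      rw [hBn]
      have h2 : K ^ (3 * Nat.card C) = 1 := by
        rw [← orderOf_full hK, mul_comm, pow_mul, pow_orderOf_eq_one, one_pow]
      have h4 : τ ^ (3 * Nat.card C) = 1 := by
        rw [← hτ3, pow_mul, pow_orderOf_eq_one, one_pow]
      rw [h2, h4]; rfl
    · obtain ⟨h2, h4⟩ := hpow _ (pow_orderOf_eq_one B)
      apply h1.mul_dvd_of_dvd_of_dvd
      · rw [← hτ3]; exact orderOf_dvd_of_pow_eq_one h4
      · rw [← orderOf_full hK]; exact orderOf_dvd_of_pow_eq_one h2

theorem IsAmalgam.tr {P : Type} [Group P] {B : Perm P} (h : IsAmalgam P B) (x : P) :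
    IsAmalgam P (tr x B) := by
  obtain ⟨C, _, K, z, τ, π, ⟨hfull, h3, hz1, hzz, hzc, hKz, hτ, hτ3⟩, hsurj, hker, hB⟩ := h
  obtain ⟨⟨c₀, q₀⟩, rfl⟩ := hsurj x
  have hK := full_of_isFull hfull
  obtain ⟨κ, hκ⟩ := hK.aff
  obtain ⟨ν, hν⟩ := isAffine_iff.mp hτ
  refine ⟨C, _, H67.tr c₀ K, z, H67.tr q₀ τ, π, ⟨isFull_of_full (hK.tr c₀), h3, hz1, hzz, hzc, ?_,
    isAffine_iff.mpr ⟨ν, hν.tr q₀⟩, ?_⟩, hsurj, hker, ?_⟩
  · have h1 : κ z = z := by
      have h2 := hκ z
      rw [hKz] at h2
      exact (mul_left_cancel h2).symm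
    rw [tr_apply, tr_apply, mul_one, hκ.map_mul, h1, mul_assoc]
  · rw [orderOf_tr, hτ3]
  · intro c q
    rw [tr_apply, tr_apply, tr_apply, ← map_mul, Prod.mk_mul_mk, hB, ← map_inv, ← map_mul]
    rfl

theorem isAmalgam_of_amal {P : Type} [Group P] {S : Perm P} (h : Amal P S) : IsAmalgam P S := by
  obtain ⟨C, _, K, z, σ, π, hK, h3, hz1, hzz, hzc, hKz, hσ, hsurj, hker, hS⟩ := h
  refine ⟨C, _, K, z, σ.toEquiv, π, ⟨isFull_of_full hK, h3, hz1, hzz, hzc, hKz,
    ⟨1, σ, fun x => (one_mul _).symm⟩, ?_⟩, hsurj, hker, hS⟩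
  rw [← hσ]
  apply orderOf_eq_orderOf_iff.mpr
  intro n
  have h1 : ∀ (n : ℕ) q, ((σ.toEquiv : Perm (QuaternionGroup 2)) ^ n) q = (σ ^ n) q := by
    intro n
    induction n with
    | zero => intro q; simp
    | succ n ih =>
      intro q
      rw [pow_succ, Perm.mul_apply, ih, pow_succ]; rfl
  constructor
  · intro h; ext q; rw [← h1, h]; rfl
  · intro h; ext q; rw [h1, h]; rfl

theorem isRingPair_iff {R : Type} [CommRing R] {u : Rˣ} : IsRingPair R u ↔ RD R u := by
  constructor
  · rintro ⟨hfin, hgen, hcard, ι, hι, F, hF, L, hL, hLt, ⟨e⟩⟩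
    refine ⟨hfin, hgen, hcard, ι, hι, F, hF, ?_, L, hL, ?_, hLt, ⟨e⟩⟩
    · intro i
      classical
      apply Finite.of_injective (fun x : F i => e.symm (Function.update 0 i x, 0))
      intro x y hxy
      have h1 := e.symm.injective hxy
      have h2 := congrFun (congrArg Prod.fst h1) i
      simpa using h2
    · apply Finite.of_injective (fun x : L => e.symm (0, x))
      intro x y hxy
      have h1 := e.symm.injective hxy
      exact congrArg Prod.snd h1
  · rintro ⟨hfin, hgen, hcard, ι, hι, F, hF, hFf, L, hL, hLf, hLt, ⟨e⟩⟩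
    exact ⟨hfin, hgen, hcard, ι, hι, F, hF, L, hL, hLt, ⟨e⟩⟩

/-- the order of `r ↦ u r + s` -/
theorem orderOf_ring {R : Type} [CommRing R] {u : Rˣ} (h : RD R u) {M : Perm R} {s : R}
    (hM : ∀ r, M r = u * r + s) : orderOf M = Nat.card Rˣ := by
  rw [← h.orderOf]
  obtain ⟨v, hv⟩ := h.sub
  set r₀ : R := -((v⁻¹ : Rˣ) * s) with hr₀
  have hfix : (u : R) * r₀ + s = r₀ := by
    have h1 : ((u : R) - 1) * r₀ = -s := by
      rw [← hv, hr₀, mul_neg, ← mul_assoc, Units.mul_inv, one_mul]
    linear_combination h1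
  have hpow : ∀ (n : ℕ) r, (M ^ n) (r₀ + r) = r₀ + (u : R) ^ n * r := by
    intro n
    induction n with
    | zero => intro r; simp
    | succ n ih =>
      intro r
      rw [pow_succ', Perm.mul_apply, ih, hM, pow_succ]
      linear_combination hfix
  apply orderOf_eq_orderOf_iff.mpr
  intro n
  constructor
  · intro hn
    have h1 := hpow n 1
    rw [hn, Perm.one_apply, mul_one] at h1
    have h2 := add_left_cancel h1
    apply Units.ext
    rw [Units.val_pow_eq_pow_val, ← h2, Units.val_one]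
  · intro hn
    have h3 : (u : R) ^ n = 1 := by
      rw [← Units.val_pow_eq_pow_val, hn, Units.val_one]
    ext r
    have h1 := hpow n (r - r₀)
    rw [h3, one_mul, add_sub_cancel] at h1
    exact h1

end H67
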