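import Mathlib
import Pool.Agent.H67.Assem3
import Pool.Agent.H67.Conv4

namespace H67

open Equiv

theorem listed_of_large {G : Type} [Group G] [Finite G] {A : Perm G} (hA : IsAffine A)
    (hlarge : Nat.card G < 2 * orderOf A) : IsListed G A := by
  obtain ⟨α, hα⟩ := isAffine_iff.mp hA
  obtain ⟨g, X, E, S, αE, hDD, hαE, hRL, hS, hcore⟩ := cls hα hlarge
  obtain ⟨TX, αX, TE, αE', hTX, hTE, hαX, hαE', hTT, hord⟩ := hDD.split hα
  have hEE : αE' = αE := by
    ext x
    have h1 : ((αE' x : E) : G) = αE x := by rw [hαE', hαE]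
    exact h1
  subst hEE
  obtain ⟨R, hR, ω, hRD, e', he'⟩ := hRL
  -- the translate
  obtain ⟨x₀, hx₀, e₀, he₀, hg⟩ := hDD.sup g
  have hSX : S = tr (⟨x₀, hx₀⟩ : X) TX := by
    ext x
    have h1 := hS x
    have h2 : g * (x : G) = ((⟨x₀, hx₀⟩ * x : X) : G) * ((⟨e₀, he₀⟩ : E) : G) := by
      rw [hg, Subgroup.coe_mul, mul_assoc, mul_assoc, hDD.comm x x.2 e₀ he₀]
    rw [tr_apply, h2, hTT, hg] at h1
    have h3 : ((S x : X) : G) = ((tr (⟨x₀, hx₀⟩ : X) TX x : X) : G) *
        (((⟨e₀, he₀⟩ : E)⁻¹ * TE ⟨e₀, he₀⟩ : E) : G) := by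
      rw [h1, tr_apply, Subgroup.coe_mul, Subgroup.coe_mul, Subgroup.coe_inv, Subgroup.coe_inv]
      have h4 := hDD.comm (TX (⟨x₀, hx₀⟩ * x)) (TX (⟨x₀, hx₀⟩ * x)).2 (e₀⁻¹) (E.inv_mem he₀)
      have h5 := hDD.comm (x₀⁻¹) (X.inv_mem hx₀) (e₀⁻¹) (E.inv_mem he₀)
      calc (x₀ * e₀)⁻¹ * ((TX (⟨x₀, hx₀⟩ * x) : G) * (TE ⟨e₀, he₀⟩ : G)) =
          (e₀⁻¹ * x₀⁻¹) * (TX (⟨x₀, hx₀⟩ * x) : G) * (TE ⟨e₀, he₀⟩ : G) := by group
        _ = (x₀⁻¹ * e₀⁻¹) * (TX (⟨x₀, hx₀⟩ * x) : G) * (TE ⟨e₀, he₀⟩ : G) := by rw [h5]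
        _ = x₀⁻¹ * (e₀⁻¹ * (TX (⟨x₀, hx₀⟩ * x) : G)) * (TE ⟨e₀, he₀⟩ : G) := by group
        _ = x₀⁻¹ * ((TX (⟨x₀, hx₀⟩ * x) : G) * e₀⁻¹) * (TE ⟨e₀, he₀⟩ : G) := by rw [h4]
        _ = x₀⁻¹ * (TX (⟨x₀, hx₀⟩ * x) : G) * (e₀⁻¹ * (TE ⟨e₀, he₀⟩ : G)) := by group
    have h6 : (((⟨e₀, he₀⟩ : E)⁻¹ * TE ⟨e₀, he₀⟩ : E) : G) = 1 := by
      apply hDD.inf _ _ (SetLike.coe_mem _)
      have h7 : (((⟨e₀, he₀⟩ : E)⁻¹ * TE ⟨e₀, he₀⟩ : E) : G) =
          ((((tr (⟨x₀, hx₀⟩ : X) TX x)⁻¹ * S x : X)) : G) := by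
        rw [Subgroup.coe_mul X, Subgroup.coe_inv X, h3, inv_mul_cancel_left]
      rw [h7]; exact SetLike.coe_mem _
    rw [h6, mul_one] at h3
    exact h3
  have hTXS : TX = tr (⟨x₀, hx₀⟩ : X)⁻¹ S := by
    rw [hSX, tr_tr, mul_inv_cancel]
    ext x; simp
  have hcore' : FullCyc X TX ∨ IsAmalgam X TX := by
    rw [hTXS]
    rcases hcore with h | h
    · exact Or.inl (h.tr _)
    · exact Or.inr ((isAmalgam_of_amal h).tr _)
  have hRfin := hRD.fin
  set s : R := (e'.symm (TE 1)).toAdd with hs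
  have hTE' : ∀ r : R, TE (e' (Multiplicative.ofAdd r)) =
      e' (Multiplicative.ofAdd ((ω : R) * r + s)) := by
    intro r
    have h1 : e' (Multiplicative.ofAdd s) = TE 1 := by
      rw [hs, ofAdd_toAdd, MulEquiv.apply_symm_apply]
    rw [hTE, he', ← h1, ← map_mul, ← ofAdd_add, add_comm s]
  have hcardE : Nat.card E = Nat.card R := by
    rw [← Nat.card_congr e'.toEquiv, Nat.card_congr Multiplicative.toAdd]
  have hordE : orderOf TE = Nat.card Rˣ := by
    let M : Perm R := (Units.mulLeft ω).trans (Equiv.addRight s)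
    have hM : ∀ r, M r = ω * r + s := fun r => rfl
    rw [← orderOf_ring hRD hM]
    symm
    apply orderOf_of_equiv (Multiplicative.ofAdd.trans e'.toEquiv)
    intro r
    show e' (Multiplicative.ofAdd (M r)) = TE (e' (Multiplicative.ofAdd r))
    rw [hM, hTE']
  have hcardG := hDD.card
  have hUle : Nat.card Rˣ ≤ Nat.card E := by
    rw [hcardE]
    exact Nat.card_le_card_of_injective _ Units.val_injective
  rw [hordE] at hord
  have hPle : orderOf TX ≤ Nat.card X := by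
    rcases hcore' with h | h
    · exact (orderOf_full h).le
    · obtain ⟨n, -, -, -, h1, h2⟩ := amalgam_facts h
      rw [h1, h2]; omega
  rw [hcardG] at hlarge
  obtain ⟨hcop, hprod, -, -⟩ := ratio_split hord hPle hUle Nat.card_pos Nat.card_pos hlarge
  obtain ⟨μ, hμ⟩ := hDD.equiv
  refine ⟨X, inferInstance, TX, R, hR, ω, s, ((MulEquiv.refl X).prodCongr e').trans μ,
    isRingPair_iff.mpr hRD, ?_, ?_⟩
  · rcases hcore' with h | h
    · left
      refine ⟨isFull_of_full h, ?_⟩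
      rwa [orderOf_full h] at hcop
    · right
      obtain ⟨n, -, -, hn2, h1, h2⟩ := amalgam_facts h
      refine ⟨h, ?_, ?_⟩
      · rw [h1]
        rw [h2] at hcop
        have h3 : Nat.Coprime n (Nat.card Rˣ) := Nat.Coprime.coprime_mul_left hcop
        have h4 : Nat.Coprime 3 (Nat.card Rˣ) := Nat.Coprime.coprime_mul_right hcop
        have h5 : Nat.Coprime 2 (Nat.card Rˣ) := Nat.Coprime.coprime_dvd_left hn2 h3
        have h6 : Nat.Coprime 4 (Nat.card Rˣ) := by
          have := Nat.Coprime.mul_left h5 h5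
          simpa using this
        exact Nat.Coprime.mul_left h4 (Nat.Coprime.mul_left h6 h3)
      · rw [hprod, h1, h2, hcardE] at hlarge
        have hn : 0 < n := by
          rcases Nat.eq_zero_or_pos n with h0 | h0
          · rw [h0] at hlarge; omega
          · exact h0
        have h3 : n * (4 * Nat.card R) < n * (6 * Nat.card Rˣ) := by
          calc n * (4 * Nat.card R) = 4 * n * Nat.card R := by ring
            _ < 2 * (3 * n * Nat.card Rˣ) := hlarge
            _ = n * (6 * Nat.card Rˣ) := by ring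
        have h4 := Nat.lt_of_mul_lt_mul_left h3
        omega
  · intro x r
    show A (μ (x, e' (Multiplicative.ofAdd r))) = μ (TX x, e' (Multiplicative.ofAdd (ω * r + s)))
    rw [hμ, hμ, hTT, hTE']

theorem large_of_listed {G : Type} [Group G] {A : Perm G} (h : IsListed G A) :
    Finite G ∧ IsAffine A ∧ Nat.card G < 2 * orderOf A := by
  obtain ⟨P, _, B, R, _, u, s, e, hRP, hcase, hA⟩ := h
  have hRD := isRingPair_iff.mp hRP
  have hRfin := hRD.fin
  let M : Perm R := (Units.mulLeft u).trans (Equiv.addRight s)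
  have hM : ∀ r, M r = u * r + s := fun r => rfl
  have hordM := orderOf_ring hRD hM
  have hBaff : ∃ β, IsAff B β := by
    rcases hcase with ⟨h, -⟩ | ⟨h, -, -⟩
    · exact (full_of_isFull h).aff
    · obtain ⟨n, -, h1, -⟩ := amalgam_facts h
      exact h1
  have hPfin : Finite P := by
    rcases hcase with ⟨h, -⟩ | ⟨h, -, -⟩
    · exact (full_of_isFull h).fin
    · obtain ⟨n, h1, -⟩ := amalgam_facts h
      exact h1
  have hfin : Finite G := Finite.of_equiv _ e.toEquiv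
  refine ⟨hfin, ?_, ?_⟩
  · obtain ⟨β, hβ⟩ := hBaff
    let φ : P × Multiplicative R →* P × Multiplicative R :=
      { toFun := fun x => (β x.1, Multiplicative.ofAdd ((u : R) * x.2.toAdd))
        map_one' := by simp
        map_mul' := by
          rintro ⟨x, y⟩ ⟨x', y'⟩
          rw [Prod.mk_mul_mk, Prod.mk_mul_mk, map_mul, toAdd_mul, mul_add, ofAdd_add] }
    apply isAffine_iff.mpr
    apply isAff_of_hom ((e.toMonoidHom.comp φ).comp e.symm.toMonoidHom)
    intro x
    obtain ⟨⟨x, r⟩, rfl⟩ := e.surjective x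
    obtain ⟨r, rfl⟩ := Multiplicative.ofAdd.surjective r
    show _ = A 1 * e (φ (e.symm (e (x, Multiplicative.ofAdd r))))
    rw [MulEquiv.symm_apply_apply]
    have h1 : A 1 = e (B 1, Multiplicative.ofAdd s) := by
      have h2 := hA 1 0
      rw [ofAdd_zero, ← Prod.one_eq_mk, map_one, mul_zero, zero_add] at h2
      exact h2
    rw [h1, hA, ← map_mul]
    congr 1
    show _ = (B 1 * β x, Multiplicative.ofAdd s * Multiplicative.ofAdd ((u : R) * r))
    rw [← hβ, ← ofAdd_add, add_comm]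
  · have hord : orderOf A = Nat.lcm (orderOf B) (Nat.card Rˣ) := by
      rw [← hordM, ← orderOf_prodCongr]
      symm
      apply orderOf_of_equiv ((Equiv.prodCongr (Equiv.refl P) Multiplicative.ofAdd).trans e.toEquiv)
      rintro ⟨x, r⟩
      show e (B x, Multiplicative.ofAdd (M r)) = A (e (x, Multiplicative.ofAdd r))
      rw [hA, hM]
    have hcardG : Nat.card G = Nat.card P * Nat.card R := by
      rw [← Nat.card_congr e.toEquiv, Nat.card_prod, Nat.card_congr Multiplicative.toAdd]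
    have hPpos : 0 < Nat.card P := Nat.card_pos
    have hc := hRD.card
    rcases hcase with ⟨h, hcop⟩ | ⟨h, hcop, h23⟩
    · have h1 := orderOf_full (full_of_isFull h)
      rw [hord, h1, hcop.lcm_eq_mul, hcardG]
      calc Nat.card P * Nat.card R < Nat.card P * (2 * Nat.card Rˣ) :=
            Nat.mul_lt_mul_of_pos_left hc hPpos
        _ = 2 * (Nat.card P * Nat.card Rˣ) := by ring
    · obtain ⟨n, -, -, hn2, h1, h2⟩ := amalgam_facts h
      have hcop' : Nat.Coprime (3 * n) (Nat.card Rˣ) := by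
        apply Nat.Coprime.coprime_dvd_left _ hcop
        rw [h1]
        exact Nat.mul_dvd_mul_left 3 (dvd_mul_left n 4)
      have hn : 0 < n := by omega
      rw [hord, h2, hcop'.lcm_eq_mul, hcardG, h1]
      calc 4 * n * Nat.card R = 2 * n * (2 * Nat.card R) := by ring
        _ < 2 * n * (3 * Nat.card Rˣ) := Nat.mul_lt_mul_of_pos_left h23 (by omega)
        _ = 2 * (3 * n * Nat.card Rˣ) := by ring

theorem main_iff (G : Type) [Group G] [Finite G] (A : Perm G) :
    (IsAffine A ∧ Nat.card G < 2 * orderOf A) ↔ IsListed G A :=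
  ⟨fun h => listed_of_large h.1 h.2, fun h => (large_of_listed h).2⟩

end H67
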