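import Mathlib
import Pool.Agent.H67.Conv3

namespace H67

open Equiv

theorem q8_a2 (ν : MulAut (QuaternionGroup 2)) : ν (QuaternionGroup.a 2) = QuaternionGroup.a 2 := by
  have h1 : ∀ q : QuaternionGroup 2, q ≠ 1 → q * q = 1 → q = QuaternionGroup.a 2 := by decide
  apply h1
  · intro h
    have : (QuaternionGroup.a 2 : QuaternionGroup 2) = 1 := (map_eq_one_iff ν ν.injective).mp h
    exact absurd this (by decide)
  · rw [← map_mul]
    have : (QuaternionGroup.a 2 : QuaternionGroup 2) * QuaternionGroup.a 2 = 1 := by decide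
    rw [this, map_one]

/-- every amalgam datum is realised -/
theorem amalgam_exists {C : Type} [Group C] {K : Perm C} {z : C} {τ : Perm (QuaternionGroup 2)}
    (h : AmalgamDatum C K z τ) :
    ∃ (P : Type) (_ : Group P) (B : Perm P) (π : C × QuaternionGroup 2 →* P),
      AmalgamCoord K z τ P B π := by
  obtain ⟨hfull, h3, hz1, hzz, hzc, hKz, hτ, hτ3⟩ := h
  have hK := full_of_isFull hfull
  have hCfin := hK.fin
  obtain ⟨κ, hκ⟩ := hK.aff
  obtain ⟨ν, hν⟩ := isAffine_iff.mp hτ
  have hκz : κ z = z := by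
    have h2 := hκ z
    rw [hKz] at h2
    exact (mul_left_cancel h2).symm
  have ha2c : ∀ q : QuaternionGroup 2, q * QuaternionGroup.a 2 = QuaternionGroup.a 2 * q := by
    decide
  have ha22 : (QuaternionGroup.a 2 : QuaternionGroup 2) * QuaternionGroup.a 2 = 1 := by decide
  let N : Subgroup (C × QuaternionGroup 2) :=
    { carrier := {x | x = 1 ∨ x = (z, QuaternionGroup.a 2)}
      one_mem' := Or.inl rfl
      mul_mem' := by
        rintro x y (rfl | rfl) (rfl | rfl)
        · left; rw [one_mul]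
        · right; rw [one_mul]
        · right; rw [mul_one]
        · left; rw [Prod.mk_mul_mk, hzz, ha22]; rfl
      inv_mem' := by
        rintro x (rfl | rfl)
        · left; rw [inv_one]
        · right
          rw [Prod.inv_mk, inv_eq_of_mul_eq_one_left hzz, inv_eq_of_mul_eq_one_left ha22] }
  have hmem : ∀ x, x ∈ N ↔ x = 1 ∨ x = (z, QuaternionGroup.a 2) := fun x => Iff.rfl
  have hNn : N.Normal := by
    refine ⟨?_⟩
    rintro x (rfl | rfl) ⟨c, q⟩
    · rw [mul_one, mul_inv_cancel]; exact N.one_mem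
    · right
      show (c * z * c⁻¹, q * QuaternionGroup.a 2 * q⁻¹) = _
      rw [hzc, ha2c, mul_inv_cancel_right, mul_inv_cancel_right]
  have haff : IsAff (K.prodCongr τ) (κ.prodCongr ν) := by
    rintro ⟨x, y⟩
    show (K x, τ y) = (K 1, τ 1) * (κ x, ν y)
    rw [Prod.mk_mul_mk, ← hκ, ← hν]
  obtain ⟨B, β, hB, hBT, -⟩ := exists_quo haff N (by
    rintro x (rfl | rfl)
    · rw [map_one]; exact N.one_mem
    · right
      show (κ z, ν (QuaternionGroup.a 2)) = _
      rw [hκz, q8_a2])
  refine ⟨_, _, B, QuotientGroup.mk' N, QuotientGroup.mk'_surjective N, ?_, ?_⟩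
  · intro c q
    rw [QuotientGroup.mk'_apply, QuotientGroup.eq_one_iff, hmem, Prod.mk_eq_one, Prod.mk_inj]
  · intro c q
    exact hBT (c, q)

end H67
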