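import Mathlib
import Pool.Agent.H67.Defs

namespace H67

open Equiv
open scoped commutatorElement

/-- commutators commute -/
def MB (G : Type) [Group G] : Prop := ∀ a b c d : G, ⁅a, b⁆ * ⁅c, d⁆ = ⁅c, d⁆ * ⁅a, b⁆

theorem MB.map {G H : Type} [Group G] [Group H] (h : MB G) (f : G →* H)
    (hf : Function.Surjective f) : MB H := by
  intro a b c d
  obtain ⟨a, rfl⟩ := hf a
  obtain ⟨b, rfl⟩ := hf b
  obtain ⟨c, rfl⟩ := hf c
  obtain ⟨d, rfl⟩ := hf d
  rw [← map_commutatorElement, ← map_commutatorElement, ← map_mul, h, map_mul]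

theorem MB.prod {G H : Type} [Group G] [Group H] (h : MB G) (h' : MB H) : MB (G × H) := by
  rintro ⟨a, a'⟩ ⟨b, b'⟩ ⟨c, c'⟩ ⟨d, d'⟩
  exact Prod.ext (h a b c d) (h' a' b' c' d')

theorem MB.of_comm {G : Type} [Group G] (h : ∀ x y : G, x * y = y * x) : MB G :=
  fun _ _ _ _ => h _ _

theorem mb_dih (n : ℕ) : MB (DihedralGroup n) := by
  have key : ∀ a b : DihedralGroup n, ∃ i, ⁅a, b⁆ = .r i := by
    intro a b
    rw [commutatorElement_def]
    rcases a with i | i <;> rcases b with j | j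
    · exact ⟨_, rfl⟩
    · exact ⟨_, rfl⟩
    · exact ⟨_, rfl⟩
    · exact ⟨_, rfl⟩
  intro a b c d
  obtain ⟨i, hi⟩ := key a b
  obtain ⟨j, hj⟩ := key c d
  rw [hi, hj, DihedralGroup.r_mul_r, DihedralGroup.r_mul_r, add_comm]

theorem mb_quat (n : ℕ) : MB (QuaternionGroup n) := by
  have key : ∀ a b : QuaternionGroup n, ∃ i, ⁅a, b⁆ = .a i := by
    intro a b
    rw [commutatorElement_def]
    rcases a with i | i <;> rcases b with j | j
    · exact ⟨_, rfl⟩
    · exact ⟨_, rfl⟩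
    · exact ⟨_, rfl⟩
    · exact ⟨_, rfl⟩
  intro a b c d
  obtain ⟨i, hi⟩ := key a b
  obtain ⟨j, hj⟩ := key c d
  rw [hi, hj, QuaternionGroup.a_mul_a, QuaternionGroup.a_mul_a, add_comm]

theorem mb_core {H : Type} [Group H] {S : Perm H} (h : IsCore H S) : MB H := by
  have hZ : ∀ m : ℕ, MB (Multiplicative (ZMod m)) := fun m => MB.of_comm (fun x y => mul_comm x y)
  rcases h with ⟨m, w, e, -⟩ | ⟨m, w, k, v, e, -⟩ | ⟨m, w, k, v, e, -⟩
  · exact (hZ m).map e.toMonoidHom e.surjective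
  · exact ((hZ m).prod (mb_dih _)).map e.toMonoidHom e.surjective
  · exact ((hZ m).prod (mb_quat _)).map e.toMonoidHom e.surjective

theorem mb_full {C : Type} [Group C] {K : Perm C} (h : IsFull C K) : MB C := by
  obtain ⟨n₁, n₂, H, _, S, χ₁, χ₂, w₁, w₂, f, hD, hC⟩ := h
  obtain ⟨ho₁, ho₂, hcop, hcop₁, hcop₂, hcore, -⟩ := hD
  obtain ⟨hmul, -⟩ := hC
  have hH := mb_core hcore
  have hone : f (0, 1, 0) = 1 := by
    have h1 := hmul 0 1 0 0 1 0
    rw [mul_zero, mul_zero, add_zero, add_zero, one_mul] at h1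
    exact mul_eq_left.mp h1
  let pr : C →* H :=
    { toFun := fun x => (f.symm x).2.1
      map_one' := by rw [← hone, Equiv.symm_apply_apply]
      map_mul' := by
        intro x y
        obtain ⟨⟨x₁, h, x₂⟩, rfl⟩ := f.surjective x
        obtain ⟨⟨y₁, g, y₂⟩, rfl⟩ := f.surjective y
        rw [hmul]
        simp only [Equiv.symm_apply_apply] }
  have hpr : ∀ x, ∃ a b, x = f (a, pr x, b) := by
    intro x
    obtain ⟨⟨a, h, b⟩, rfl⟩ := f.surjective x
    refine ⟨a, b, ?_⟩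
    show _ = f (a, (f.symm (f (a, h, b))).2.1, b)
    rw [Equiv.symm_apply_apply]
  intro a b c d
  obtain ⟨x₁, x₂, hx⟩ := hpr ⁅a, b⁆
  obtain ⟨y₁, y₂, hy⟩ := hpr ⁅c, d⁆
  rw [map_commutatorElement] at hx hy
  have h1 : ∀ (n : ℕ) (χ : H →* (ZMod n)ˣ) (g h : H), χ ⁅g, h⁆ = 1 := by
    intro n χ g h
    rw [map_commutatorElement]
    exact commutatorElement_eq_one_iff_mul_comm.mpr (mul_comm _ _)
  rw [hx, hy, hmul, hmul, h1, h1, h1, h1, hH]
  congr 1
  ext
  · simp only [Units.val_one]; ring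
  · rfl
  · simp only [inv_one, Units.val_one]; ring

theorem mb_amalgam {P : Type} [Group P] {B : Perm P} (h : IsAmalgam P B) : MB P := by
  obtain ⟨C, _, K, z, τ, π, ⟨hfull, -⟩, hsurj, -⟩ := h
  exact ((mb_full hfull).prod (mb_quat 2)).map π hsurj

theorem derived_of_mb {G : Type} [Group G] (h : MB G) : derivedSeries G 2 = ⊥ := by
  rw [derivedSeries_succ, derivedSeries_one, Subgroup.commutator_eq_bot_iff_le_centralizer,
    commutator_eq_closure]
  rw [Subgroup.closure_le]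
  rintro _ ⟨a, b, rfl⟩
  show ⁅a, b⁆ ∈ Subgroup.centralizer _
  rw [Subgroup.mem_centralizer_iff]
  intro x hx
  induction hx using Subgroup.closure_induction with
  | mem x hx =>
    obtain ⟨c, d, rfl⟩ := hx
    exact h c d a b
  | one => rw [one_mul, mul_one]
  | mul x y _ _ hx hy => rw [mul_assoc, hy, ← mul_assoc, hx, mul_assoc]
  | inv x _ hx => exact (Commute.inv_left (show Commute x ⁅a, b⁆ from hx)).eq

/-- All groups in the list are metabelian. -/
theorem listed_metabelian {G : Type} [Group G] {A : Perm G} (h : IsListed G A) :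
    derivedSeries G 2 = ⊥ := by
  obtain ⟨P, _, B, R, _, u, s, e, -, hcase, -⟩ := h
  have hR : MB (Multiplicative R) := MB.of_comm (fun x y => mul_comm x y)
  have hP : MB P := by
    rcases hcase with ⟨h, -⟩ | ⟨h, -⟩
    · exact mb_full h
    · exact mb_amalgam h
  exact derived_of_mb ((hP.prod hR).map e.toMonoidHom e.surjective)

end H67
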