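import Mathlib

namespace H67

open Equiv

/-- the function on the quaternion group given by the images of the generators -/
def qF (x y : QuaternionGroup 2) : QuaternionGroup 2 → QuaternionGroup 2
  | .a m => x ^ m.val
  | .xa m => y * x ^ m.val

set_option maxRecDepth 100000 in
set_option synthInstance.maxHeartbeats 400000 in
set_option synthInstance.maxSize 1000 in
set_option maxHeartbeats 4000000 in
theorem qF_dec : ∀ x y : QuaternionGroup 2, (∀ q, qF x y (qF x y (qF x y q)) = q) →
    (∀ q r, qF x y (q * r) = qF x y q * qF x y r) → (x ≠ .a 1 ∨ y ≠ .xa 0) →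
    (∀ q, ∃ r s, q = qF x y r * r⁻¹ * (qF x y s * s⁻¹)) ∧
      (∀ q, qF x y q = q → q = 1 ∨ q = .a 2) := by
  decide

theorem q8_gens : (∀ m : ZMod (2 * 2), (QuaternionGroup.a m : QuaternionGroup 2) = .a 1 ^ m.val) ∧
    (∀ m : ZMod (2 * 2), (QuaternionGroup.xa m : QuaternionGroup 2) = .xa 0 * .a 1 ^ m.val) := by
  decide

theorem q8_order3 (ν : MulAut (QuaternionGroup 2)) (h3 : ν ^ 3 = 1) (hne : ν ≠ 1) :
    (∀ q, ∃ r s, q = ν r * r⁻¹ * (ν s * s⁻¹)) ∧ (∀ q, ν q = q → q = 1 ∨ q = .a 2) := by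
  have key : ∀ q, qF (ν (.a 1)) (ν (.xa 0)) q = ν q := by
    intro q
    rcases q with m | m
    · rw [q8_gens.1 m, map_pow]; rw [← q8_gens.1 m]; rfl
    · rw [q8_gens.2 m, map_mul, map_pow]; rw [← q8_gens.2 m]; rfl
  have h := qF_dec (ν (.a 1)) (ν (.xa 0)) (by
    intro q
    rw [key, key, key]
    have : (ν ^ 3) q = q := by rw [h3]; rfl
    exact this) (by
    intro q r
    rw [key, key, key, map_mul]) (by
    by_contra hcon
    push Not at hcon
    apply hne
    ext q
    rw [← key, hcon.1, hcon.2]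
    rcases q with m | m
    · exact (q8_gens.1 m).symm
    · exact (q8_gens.2 m).symm)
  simp only [key] at h
  exact h

theorem q8_not_comm : ∃ q r : QuaternionGroup 2, q * r ≠ r * q := ⟨.a 1, .xa 0, by decide⟩

theorem q8_pow8 : ∀ q : QuaternionGroup 2, q ^ 8 = 1 := by decide

/-- an affine map of order three has linear part of order three -/
theorem q8_lin {τ : Perm (QuaternionGroup 2)} {ν : MulAut (QuaternionGroup 2)}
    (hν : ∀ x, τ x = τ 1 * ν x) (h3 : τ ^ 3 = 1) (hne : τ ≠ 1) : ν ^ 3 = 1 ∧ ν ≠ 1 := by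
  have hpow : ∀ n x, (τ ^ n) x = (τ ^ n) 1 * (ν ^ n) x := by
    intro n
    induction n with
    | zero => intro x; simp
    | succ n ih =>
      intro x
      rw [pow_succ', Perm.mul_apply, Perm.mul_apply, ih x, hν ((τ ^ n) 1 * (ν ^ n) x), map_mul,
        ← mul_assoc, ← hν, pow_succ', MulAut.mul_apply]
  constructor
  · ext x
    have h1 := hpow 3 x
    rw [h3] at h1
    simpa using h1.symm
  · rintro rfl
    apply hne
    have h1 : ∀ n : ℕ, ∀ x, (τ ^ n) x = (τ 1) ^ n * x := by
      intro n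
      induction n with
      | zero => intro x; simp
      | succ n ih =>
        intro x
        rw [pow_succ', Perm.mul_apply, ih, hν, pow_succ', mul_assoc]; rfl
    have h2 : (τ 1) ^ 3 = 1 := by
      have := h1 3 1
      rw [h3] at this
      simpa using this.symm
    have h4 : τ 1 = 1 := by
      have h5 := q8_pow8 (τ 1)
      calc τ 1 = (τ 1 ^ 3) ^ 3 * ((τ 1) ^ 8)⁻¹ := by group
        _ = 1 := by rw [h2, h5]; simp
    ext x
    rw [hν x, h4]; simp

end H67
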