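import Mathlib
import Pool.Agent.H67.Conv4
import Pool.Agent.H67.UQ8

namespace H67

open Equiv

/-- basic facts on a listing -/
structure LF {G : Type} [Group G] (A : Perm G) (P : Type) [Group P] (B : Perm P) (R : Type)
    [CommRing R] (u : Rˣ) (s : R) (e : P × Multiplicative R ≃* G) (β : MulAut P) (M : Perm R)
    (r₀ : R) : Prop where
  rd : RD R u
  finP : Finite P
  affB : IsAff B β
  hM : ∀ r, M r = u * r + s
  fix : M r₀ = r₀
  map : ∀ x r, A (e (x, Multiplicative.ofAdd r)) = e (B x, Multiplicative.ofAdd (M r))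
  cop : Nat.Coprime (orderOf B) (Nat.card Rˣ)
  ordM : orderOf M = Nat.card Rˣ
  core : IsFull P B ∨ IsAmalgam P B

section

variable {G : Type} [Group G] {A : Perm G} {P : Type} [Group P] {B : Perm P} {R : Type}
    [CommRing R] {u : Rˣ} {s : R} {e : P × Multiplicative R ≃* G}

theorem Listing.lf (h : Listing A P B R u s e) : ∃ β M r₀, LF A P B R u s e β M r₀ := by
  obtain ⟨hRP, hcase, hA⟩ := h
  have hRD := isRingPair_iff.mp hRP
  have hRfin := hRD.fin
  let M : Perm R := (Units.mulLeft u).trans (Equiv.addRight s)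
  have hM : ∀ r, M r = u * r + s := fun r => rfl
  have hordM := orderOf_ring hRD hM
  obtain ⟨v, hv⟩ := hRD.sub
  have hfix : M (-((v⁻¹ : Rˣ) * s)) = -((v⁻¹ : Rˣ) * s) := by
    rw [hM]
    have h1 : ((u : R) - 1) * (-((v⁻¹ : Rˣ) * s)) = -s := by
      rw [← hv, mul_neg, ← mul_assoc, Units.mul_inv, one_mul]
    linear_combination h1
  rcases hcase with ⟨h, hcop⟩ | ⟨h, hcop, -⟩
  · have hf := full_of_isFull h
    obtain ⟨β, hβ⟩ := hf.aff
    exact ⟨β, M, _, hRD, hf.fin, hβ, hM, hfix, hA, by rwa [orderOf_full hf], hordM, Or.inl h⟩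
  · obtain ⟨n, hf, ⟨β, hβ⟩, h2, h3, h4⟩ := amalgam_facts h
    refine ⟨β, M, _, hRD, hf, hβ, hM, hfix, hA, ?_, hordM, Or.inr h⟩
    apply Nat.Coprime.coprime_dvd_left _ hcop
    rw [h3, h4]
    exact Nat.mul_dvd_mul_left 3 (dvd_mul_left n 4)

variable {β : MulAut P} {M : Perm R} {r₀ : R}

theorem LF.pow (h : LF A P B R u s e β M r₀) (n : ℕ) (x : P) (r : R) :
    (A ^ n) (e (x, Multiplicative.ofAdd r)) =
      e ((B ^ n) x, Multiplicative.ofAdd ((M ^ n) r)) := by
  induction n with
  | zero => simp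
  | succ n ih =>
    rw [pow_succ', Perm.mul_apply, ih, h.map, pow_succ', pow_succ']; rfl

theorem LF.pow_fix (h : LF A P B R u s e β M r₀) (n : ℕ) : (M ^ n) r₀ = r₀ := by
  induction n with
  | zero => simp
  | succ n ih => rw [pow_succ', Perm.mul_apply, ih, h.fix]

theorem LF.finG (h : LF A P B R u s e β M r₀) : Finite G := by
  have := h.finP
  have := h.rd.fin
  exact Finite.of_equiv _ e.toEquiv

theorem LF.ordA (h : LF A P B R u s e β M r₀) : orderOf A = orderOf B * Nat.card Rˣ := by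
  rw [← h.cop.lcm_eq_mul, ← h.ordM, ← orderOf_prodCongr]
  symm
  apply orderOf_of_equiv ((Equiv.prodCongr (Equiv.refl P) Multiplicative.ofAdd).trans e.toEquiv)
  rintro ⟨x, r⟩
  show e (B x, Multiplicative.ofAdd (M r)) = A (e (x, Multiplicative.ofAdd r))
  rw [h.map]

theorem LF.aff (h : LF A P B R u s e β M r₀) : ∃ α : MulAut G, IsAff A α ∧
    ∀ n x r, (α ^ n) (e (x, Multiplicative.ofAdd r)) =
      e ((β ^ n) x, Multiplicative.ofAdd ((u : R) ^ n * r)) := by
  let φ : P × Multiplicative R →* P × Multiplicative R :=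
    { toFun := fun x => (β x.1, Multiplicative.ofAdd ((u : R) * x.2.toAdd))
      map_one' := by simp
      map_mul' := by
        rintro ⟨x, y⟩ ⟨x', y'⟩
        rw [Prod.mk_mul_mk, Prod.mk_mul_mk, map_mul, toAdd_mul, mul_add, ofAdd_add] }
  have h1 : A 1 = e (B 1, Multiplicative.ofAdd s) := by
    have h2 := h.map 1 0
    rw [ofAdd_zero, ← Prod.one_eq_mk, map_one, h.hM, mul_zero, zero_add] at h2
    exact h2
  obtain ⟨α, hα⟩ : ∃ α, IsAff A α := by
    apply isAff_of_hom ((e.toMonoidHom.comp φ).comp e.symm.toMonoidHom)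
    intro x
    obtain ⟨⟨x, r⟩, rfl⟩ := e.surjective x
    obtain ⟨r, rfl⟩ := Multiplicative.ofAdd.surjective r
    show _ = A 1 * e (φ (e.symm (e (x, Multiplicative.ofAdd r))))
    rw [MulEquiv.symm_apply_apply, h1, h.map, ← map_mul]
    congr 1
    show _ = (B 1 * β x, Multiplicative.ofAdd s * Multiplicative.ofAdd ((u : R) * r))
    rw [← h.affB, ← ofAdd_add, add_comm, h.hM]
  refine ⟨α, hα, ?_⟩
  have h2 : ∀ x r, α (e (x, Multiplicative.ofAdd r)) =
      e (β x, Multiplicative.ofAdd ((u : R) * r)) := by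
    intro x r
    rw [hα.lin, h1, h.map, ← map_inv, ← map_mul]
    congr 1
    show ((B 1)⁻¹ * B x, (Multiplicative.ofAdd s)⁻¹ * Multiplicative.ofAdd (M r)) = _
    rw [h.affB x, inv_mul_cancel_left, h.hM, ← ofAdd_neg, ← ofAdd_add]
    congr 2
    ring
  intro n
  induction n with
  | zero => intro x r; simp
  | succ n ih =>
    intro x r
    rw [pow_succ', MulAut.mul_apply, ih, h2, pow_succ', pow_succ', mul_assoc]; rfl

end

theorem FC.pow_eq_one_of_fix {C : Type} [Group C] {K : Perm C} (h : FullCyc C K) {n : ℕ} {x : C}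
    (hx : (K ^ n) x = x) : K ^ n = 1 := by
  have h1 := (full_period h x n).mp hx
  rw [← orderOf_full h] at h1
  exact orderOf_dvd_iff_pow_eq_one.mp h1

/-- the key coprimality -/
theorem LF.coprime_cross {G : Type} [Group G] {A : Perm G}
    {P : Type} [Group P] {B : Perm P} {R : Type} [CommRing R] {u : Rˣ} {s : R}
    {e : P × Multiplicative R ≃* G} {β : MulAut P} {M : Perm R} {r₀ : R}
    (h : LF A P B R u s e β M r₀)
    {P' : Type} [Group P'] {B' : Perm P'} {R' : Type} [CommRing R'] {u' : R'ˣ} {s' : R'}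
    {e' : P' × Multiplicative R' ≃* G} {β' : MulAut P'} {M' : Perm R'} {r₀' : R'}
    (h' : LF A P' B' R' u' s' e' β' M' r₀') : Nat.Coprime (Nat.card Rˣ) (orderOf B') := by
  have hfinG := h.finG
  by_contra hcon
  rw [Nat.coprime_iff_gcd_eq_one] at hcon
  obtain ⟨l, hl, hldvd⟩ := Nat.exists_prime_and_dvd hcon
  have hlm : l ∣ Nat.card Rˣ := hldvd.trans (Nat.gcd_dvd_left _ _)
  have hlo : l ∣ orderOf B' := hldvd.trans (Nat.gcd_dvd_right _ _)
  have hN := h.ordA
  have hN' := h'.ordA
  have hNpos : 0 < orderOf A := orderOf_pos A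
  obtain ⟨a, N', hlN', hNN⟩ := Nat.exists_eq_pow_mul_and_not_dvd hNpos.ne' l hl.ne_one
  have hlNdvd : l ∣ orderOf A := by rw [hN]; exact hlm.mul_left _
  have hcopl : Nat.Coprime (orderOf B) (l ^ a) :=
    Nat.Coprime.pow_right _ (Nat.Coprime.coprime_dvd_right hlm h.cop)
  have hoN : orderOf B ∣ N' := by
    apply hcopl.dvd_of_dvd_mul_left
    rw [← hNN, hN]; exact dvd_mul_right _ _
  have hcopl' : Nat.Coprime (Nat.card R'ˣ) (l ^ a) :=
    Nat.Coprime.pow_right _ (Nat.Coprime.coprime_dvd_right hlo h'.cop.symm)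
  have hmN : Nat.card R'ˣ ∣ N' := by
    apply hcopl'.dvd_of_dvd_mul_left
    rw [← hNN, hN']; exact dvd_mul_left _ _
  have hD1 : A ^ N' ≠ 1 := by
    intro h1
    exact hlN' (hlNdvd.trans (orderOf_dvd_of_pow_eq_one h1))
  have hBN : B ^ N' = 1 := orderOf_dvd_iff_pow_eq_one.mp hoN
  have hMN' : M' ^ N' = 1 := by
    rw [← h'.ordM] at hmN
    exact orderOf_dvd_iff_pow_eq_one.mp hmN
  have hB'ne : B' ^ N' ≠ 1 := by
    intro h1
    apply hD1
    ext g
    obtain ⟨⟨x, r⟩, rfl⟩ := e'.surjective g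
    obtain ⟨r, rfl⟩ := Multiplicative.ofAdd.surjective r
    rw [h'.pow, h1, hMN']; rfl
  -- a fixed point of `B' ^ N'`
  obtain ⟨x₁, hx₁⟩ : ∃ x₁, (B' ^ N') x₁ = x₁ := by
    have h1 := h.pow N' 1 r₀
    rw [hBN, h.pow_fix, Perm.one_apply] at h1
    obtain ⟨⟨x₁, r₁⟩, hx⟩ := e'.surjective (e (1, Multiplicative.ofAdd r₀))
    obtain ⟨r₁, rfl⟩ := Multiplicative.ofAdd.surjective r₁
    rw [← hx, h'.pow] at h1
    exact ⟨x₁, congrArg Prod.fst (e'.injective h1)⟩
  rcases h'.core with hc | hc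
  · exact hB'ne (FC.pow_eq_one_of_fix (full_of_isFull hc) hx₁)
  · have hP'fin := h'.finP
    have hfacts := amalgam_facts hc
    obtain ⟨C, _, K, z, τ, π, ⟨hfull, h3, hz1, hzz, hzc, hKz, hτ, hτ3⟩, hsurj, hker, hB'⟩ := hc
    have hK := full_of_isFull hfull
    have hCfin := hK.fin
    have hBn : ∀ (n : ℕ) c q, (B' ^ n) (π (c, q)) = π ((K ^ n) c, (τ ^ n) q) := by
      intro n
      induction n with
      | zero => intro c q; simp
      | succ n ih =>
        intro c q
        rw [pow_succ, Perm.mul_apply, hB', ih, pow_succ, pow_succ]; rfl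
    have ha2 : (1 : QuaternionGroup 2) ≠ QuaternionGroup.a 2 := by decide
    -- order of `B'`
    have hordB' : orderOf B' = 3 * Nat.card C := by
      obtain ⟨n, -, -, -, hn1, hn2⟩ := hfacts
      have h1 : Nat.card (C × QuaternionGroup 2) = Nat.card C * 8 := by
        rw [Nat.card_prod]
        congr 1
        rw [Nat.card_eq_fintype_card, QuaternionGroup.card]
      have h2 : Nat.card π.ker = 2 := by
        have h3 : (π.ker : Set (C × QuaternionGroup 2)) = {1, (z, QuaternionGroup.a 2)} := by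
          ext ⟨c, q⟩
          show π (c, q) = 1 ↔ _
          rw [hker]
          constructor
          · rintro (⟨rfl, rfl⟩ | ⟨rfl, rfl⟩)
            · left; rfl
            · right; rfl
          · rintro (h | h)
            · left
              exact ⟨congrArg Prod.fst h, congrArg Prod.snd h⟩
            · right
              have h' : (c, q) = (z, QuaternionGroup.a 2) := h
              exact ⟨congrArg Prod.fst h', congrArg Prod.snd h'⟩
        have h4 : Nat.card π.ker = (π.ker : Set (C × QuaternionGroup 2)).ncard := rfl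
        rw [h4, h3, Set.ncard_pair]
        intro h5
        exact hz1 (congrArg Prod.fst h5).symm
      have h3 := Subgroup.card_mul_index π.ker
      rw [Subgroup.index_ker, h1, h2] at h3
      have h4 : Nat.card π.range = Nat.card P' := by
        rw [MonoidHom.range_eq_top.mpr hsurj]
        exact Nat.card_congr Subgroup.topEquiv.toEquiv
      rw [h4] at h3
      rw [hn2]
      omega
    have hcopC : Nat.Coprime 3 (Nat.card C) :=
      (Nat.Prime.coprime_iff_not_dvd Nat.prime_three).mpr h3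
    by_cases h3N : 3 ∣ N'
    · -- `τ ^ N' = 1`
      have hτN : τ ^ N' = 1 := by
        rw [← hτ3] at h3N
        exact orderOf_dvd_iff_pow_eq_one.mp h3N
      obtain ⟨⟨c, q⟩, rfl⟩ := hsurj x₁
      rw [hBn, hτN] at hx₁
      have h1 : π (c⁻¹ * (K ^ N') c, 1) = 1 := by
        have h4 : ((c⁻¹ * (K ^ N') c, 1) : C × QuaternionGroup 2) =
          (c, q)⁻¹ * ((K ^ N') c, q) := by
          ext <;> simp
        rw [h4, map_mul, map_inv]
        have h5 : π ((K ^ N') c, q) = π (c, q) := hx₁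
        rw [h5, inv_mul_cancel]
      rcases (hker _ _).mp h1 with h5 | h5
      · have h6 : K ^ N' = 1 := FC.pow_eq_one_of_fix hK (inv_mul_eq_one.mp h5.1).symm
        apply hB'ne
        ext x
        obtain ⟨⟨c, q⟩, rfl⟩ := hsurj x
        rw [hBn, h6, hτN]; rfl
      · exact ha2 h5.2
    · -- `l = 3`
      have hdvd : 3 * Nat.card C ∣ l ^ a * N' := by
        rw [← hNN, hN', hordB']; exact dvd_mul_right _ _
      have h3l : 3 ∣ l ^ a := by
        rcases (Nat.Prime.dvd_mul Nat.prime_three).mp ((dvd_mul_right 3 _).trans hdvd) with h1 | h1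
        · exact h1
        · exact absurd h1 h3N
      have hl3 : l = 3 :=
        ((Nat.prime_dvd_prime_iff_eq Nat.prime_three hl).mp
          (Nat.Prime.dvd_of_dvd_pow Nat.prime_three h3l)).symm
      have hCN : Nat.card C ∣ N' := by
        have h1 : Nat.Coprime (Nat.card C) (l ^ a) := by
          rw [hl3]; exact Nat.Coprime.pow_right _ hcopC.symm
        exact h1.dvd_of_dvd_mul_left ((dvd_mul_left _ 3).trans hdvd)
      have hKN : K ^ N' = 1 := by
        rw [← orderOf_full hK] at hCN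
        exact orderOf_dvd_iff_pow_eq_one.mp hCN
      have hτN3 : (τ ^ N') ^ 3 = 1 := by
        rw [← pow_mul, mul_comm, pow_mul, ← hτ3, pow_orderOf_eq_one, one_pow]
      have hτNne : τ ^ N' ≠ 1 := by
        intro h1
        apply h3N
        rw [← hτ3]; exact orderOf_dvd_of_pow_eq_one h1
      obtain ⟨ν, hν⟩ := isAffine_iff.mp hτ
      have hνN := hν.pow N'
      obtain ⟨hν3, hνne⟩ := q8_lin hνN hτN3 hτNne
      obtain ⟨hgen, -⟩ := q8_order3 _ hν3 hνne
      obtain ⟨α, hα, hαe⟩ := h.aff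
      have hβN : β ^ N' = 1 := by
        have h1 := h.affB.pow N'
        rw [hBN] at h1
        exact h1.unique isAff_one
      -- images in the first coordinates
      have him : ∀ g, ∃ r : R, (α ^ N') g * g⁻¹ = e (1, Multiplicative.ofAdd r) := by
        intro g
        obtain ⟨⟨x, r⟩, rfl⟩ := e.surjective g
        obtain ⟨r, rfl⟩ := Multiplicative.ofAdd.surjective r
        refine ⟨(u : R) ^ N' * r - r, ?_⟩
        rw [hαe, hβN, ← map_inv, ← map_mul]
        congr 1
        show (x * x⁻¹, Multiplicative.ofAdd ((u : R) ^ N' * r) * (Multiplicative.ofAdd r)⁻¹) = _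
        rw [mul_inv_cancel, ← ofAdd_neg, ← ofAdd_add, ← sub_eq_add_neg]
      have hcomm : ∀ g g', (α ^ N') g * g⁻¹ * ((α ^ N') g' * g'⁻¹) =
          (α ^ N') g' * g'⁻¹ * ((α ^ N') g * g⁻¹) := by
        intro g g'
        obtain ⟨r, hr⟩ := him g
        obtain ⟨r', hr'⟩ := him g'
        rw [hr, hr', ← map_mul, ← map_mul]
        congr 1
        ext
        · rfl
        · show Multiplicative.ofAdd r * Multiplicative.ofAdd r' =
            Multiplicative.ofAdd r' * Multiplicative.ofAdd r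
          exact mul_comm _ _
      -- images in the second coordinates
      have him' : ∀ q, (α ^ N') (e' (π (1, q), 1)) * (e' (π (1, q), 1))⁻¹ =
          e' (π (1, (ν ^ N') q * q⁻¹), 1) := by
        intro q
        have h1 : ∀ q, (A ^ N') (e' (π (1, q), 1)) = e' (π (1, (τ ^ N') q), 1) := by
          intro q
          have h2 := h'.pow N' (π (1, q)) 0
          rw [hMN', hBn, hKN] at h2
          exact h2
        have h2 : (1 : G) = e' (π (1, 1), 1) := by
          rw [← Prod.one_eq_mk, map_one, ← Prod.one_eq_mk, map_one]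
        rw [(hα.pow N').lin, h1]
        nth_rewrite 1 [h2]
        rw [h1, ← map_inv, ← map_inv, ← map_mul, ← map_mul]
        congr 1
        show ((π (1, (τ ^ N') 1))⁻¹ * π (1, (τ ^ N') q) * (π (1, q))⁻¹,
          (1 : Multiplicative R')⁻¹ * 1 * 1⁻¹) = _
        rw [← map_inv, ← map_inv, ← map_mul, ← map_mul]
        congr 1
        · congr 1
          show ((1 : C)⁻¹ * 1 * 1⁻¹, ((τ ^ N') 1)⁻¹ * (τ ^ N') q * q⁻¹) = _
          rw [hνN.lin q]; simp
        · simp
      have hcommQ : ∀ q r : QuaternionGroup 2, (ν ^ N') q * q⁻¹ * ((ν ^ N') r * r⁻¹) =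
          (ν ^ N') r * r⁻¹ * ((ν ^ N') q * q⁻¹) := by
        intro q r
        have h1 := hcomm (e' (π (1, q), 1)) (e' (π (1, r), 1))
        rw [him', him', ← map_mul, ← map_mul] at h1
        have h2 := congrArg Prod.fst (e'.injective h1)
        have h4 : π (1, (ν ^ N') q * q⁻¹) * π (1, (ν ^ N') r * r⁻¹) =
          π (1, (ν ^ N') r * r⁻¹) * π (1, (ν ^ N') q * q⁻¹) := h2
        have hinj : ∀ x : QuaternionGroup 2, π (1, x) = 1 → x = 1 := by
          intro x hx
          rcases (hker _ _).mp hx with h5 | h5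
          · exact h5.2
          · exact absurd h5.1.symm hz1
        rw [← map_mul, ← map_mul, Prod.mk_mul_mk, Prod.mk_mul_mk, one_mul] at h4
        rw [← mul_inv_eq_one]
        apply hinj
        have h5 : ((1, (ν ^ N') q * q⁻¹ * ((ν ^ N') r * r⁻¹) *
          ((ν ^ N') r * r⁻¹ * ((ν ^ N') q * q⁻¹))⁻¹) : C × QuaternionGroup 2) =
          (1, (ν ^ N') q * q⁻¹ * ((ν ^ N') r * r⁻¹)) *
          (1, ((ν ^ N') r * r⁻¹ * ((ν ^ N') q * q⁻¹)))⁻¹ := by
          ext <;> simp
        rw [h5, map_mul, map_inv, h4, mul_inv_cancel]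
      obtain ⟨q, r, hqr⟩ := q8_not_comm
      apply hqr
      obtain ⟨q₁, q₂, hq⟩ := hgen q
      obtain ⟨r₁, r₂, hr⟩ := hgen r
      rw [hq, hr]
      have c1 := hcommQ q₁ r₁
      have c2 := hcommQ q₁ r₂
      have c3 := hcommQ q₂ r₁
      have c4 := hcommQ q₂ r₂
      have key : Commute ((ν ^ N') q₁ * q₁⁻¹ * ((ν ^ N') q₂ * q₂⁻¹))
          ((ν ^ N') r₁ * r₁⁻¹ * ((ν ^ N') r₂ * r₂⁻¹)) :=
        Commute.mul_left (Commute.mul_right c1 c2) (Commute.mul_right c3 c4)
      exact key.eq

end H67
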