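import Mathlib
import Pool.Agent.H67.Uniq1

namespace H67

open Equiv

/-- splitting an isomorphism of products -/
theorem prod_split {P P' M M' : Type} [Group P] [Group P'] [Group M] [Group M']
    (φ : P × M ≃* P' × M') (h1 : ∀ x, (φ (x, 1)).2 = 1) (h2 : ∀ r, (φ (1, r)).1 = 1)
    (h1' : ∀ x, (φ.symm (x, 1)).2 = 1) (h2' : ∀ r, (φ.symm (1, r)).1 = 1) :
    ∃ (θ : P ≃* P') (t : M ≃* M'), ∀ x r, φ (x, r) = (θ x, t r) := by
  have hx : ∀ x, φ (x, 1) = ((φ (x, 1)).1, 1) := fun x => Prod.ext rfl (h1 x)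
  have hr : ∀ r, φ (1, r) = (1, (φ (1, r)).2) := fun r => Prod.ext (h2 r) rfl
  have hx' : ∀ x, φ.symm (x, 1) = ((φ.symm (x, 1)).1, 1) := fun x => Prod.ext rfl (h1' x)
  have hr' : ∀ r, φ.symm (1, r) = (1, (φ.symm (1, r)).2) := fun r => Prod.ext (h2' r) rfl
  refine ⟨⟨⟨fun x => (φ (x, 1)).1, fun x => (φ.symm (x, 1)).1, ?_, ?_⟩, ?_⟩,
    ⟨⟨fun x => (φ (1, x)).2, fun x => (φ.symm (1, x)).2, ?_, ?_⟩, ?_⟩, ?_⟩
  · intro x
    show (φ.symm ((φ (x, 1)).1, 1)).1 = x
    rw [← hx, MulEquiv.symm_apply_apply]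
  · intro x
    show (φ ((φ.symm (x, 1)).1, 1)).1 = x
    rw [← hx', MulEquiv.apply_symm_apply]
  · intro x y
    show (φ (x * y, 1)).1 = (φ (x, 1)).1 * (φ (y, 1)).1
    rw [← Prod.fst_mul, ← map_mul, Prod.mk_mul_mk, one_mul]
  · intro x
    show (φ.symm (1, (φ (1, x)).2)).2 = x
    rw [← hr, MulEquiv.symm_apply_apply]
  · intro x
    show (φ (1, (φ.symm (1, x)).2)).2 = x
    rw [← hr', MulEquiv.apply_symm_apply]
  · intro x y
    show (φ (1, x * y)).2 = (φ (1, x)).2 * (φ (1, y)).2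
    rw [← Prod.snd_mul, ← map_mul, Prod.mk_mul_mk, one_mul]
  · intro x r
    show φ (x, r) = ((φ (x, 1)).1, (φ (1, r)).2)
    have h3 : ((x, r) : P × M) = (x, 1) * (1, r) := by rw [Prod.mk_mul_mk, mul_one, one_mul]
    rw [h3, map_mul, hx, hr, Prod.mk_mul_mk, one_mul, mul_one]

section

variable {G : Type} [Group G] {A : Perm G} {P : Type} [Group P] {B : Perm P} {R : Type}
    [CommRing R] {u : Rˣ} {s : R} {e : P × Multiplicative R ≃* G} {β : MulAut P} {M : Perm R}
    {r₀ : R}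
    {P' : Type} [Group P'] {B' : Perm P'} {R' : Type} [CommRing R'] {u' : R'ˣ} {s' : R'}
    {e' : P' × Multiplicative R' ≃* G} {β' : MulAut P'} {M' : Perm R'} {r₀' : R'}

theorem LF.ord_eq (h : LF A P B R u s e β M r₀) (h' : LF A P' B' R' u' s' e' β' M' r₀') :
    orderOf B = orderOf B' ∧ Nat.card Rˣ = Nat.card R'ˣ := by
  have h1 := h.coprime_cross h'
  have h2 := h'.coprime_cross h
  have h3 := h.ordA
  rw [h'.ordA] at h3
  have h4 : Nat.card Rˣ ∣ Nat.card R'ˣ := by
    apply h1.dvd_of_dvd_mul_left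
    rw [h3]; exact dvd_mul_left _ _
  have h5 : Nat.card R'ˣ ∣ Nat.card Rˣ := by
    apply h2.dvd_of_dvd_mul_left
    rw [← h3]; exact dvd_mul_left _ _
  have h6 := Nat.dvd_antisymm h4 h5
  refine ⟨?_, h6⟩
  have h7 : 0 < Nat.card Rˣ := by
    have := h.rd.fin
    exact Nat.card_pos
  rw [← h6] at h3
  exact (Nat.eq_of_mul_eq_mul_right h7 h3).symm

/-- `u ^ n - 1` is a unit for `n` coprime to the number of units -/
theorem LF.sub_unit (h : LF A P B R u s e β M r₀) :
    IsUnit ((u : R) ^ (orderOf B) - 1) := by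
  have := h.rd.fin
  rw [← Units.val_pow_eq_pow_val]
  apply sub_of_gen_card (ω := u ^ orderOf B) _ h.rd.card
  apply gen_of_order
  rw [orderOf_pow, h.rd.orderOf, Nat.gcd_comm, Nat.coprime_iff_gcd_eq_one.mp h.cop, Nat.div_one]

/-- the linear part of the power -/
theorem LF.lin_pow (h : LF A P B R u s e β M r₀) {α : MulAut G} (hα : IsAff A α) (x : P) (r : R) :
    (α ^ orderOf B) (e (x, Multiplicative.ofAdd r)) =
      e (x, Multiplicative.ofAdd ((u : R) ^ orderOf B * r)) := by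
  obtain ⟨α', hα', h1⟩ := h.aff
  have h2 : α = α' := hα.unique hα'
  subst h2
  rw [h1]
  have h3 : β ^ orderOf B = 1 := by
    have h4 := h.affB.pow (orderOf B)
    rw [pow_orderOf_eq_one] at h4
    exact h4.unique isAff_one
  rw [h3]; rfl

theorem LF.fix_iff (h : LF A P B R u s e β M r₀) {α : MulAut G} (hα : IsAff A α) (x : P)
    (r : Multiplicative R) : (α ^ orderOf B) (e (x, r)) = e (x, r) ↔ r = 1 := by
  obtain ⟨r, rfl⟩ := Multiplicative.ofAdd.surjective r
  rw [h.lin_pow hα, e.injective.eq_iff, Prod.mk_inj]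
  constructor
  · rintro ⟨-, h1⟩
    have h2 := Multiplicative.ofAdd.injective h1
    have h3 : ((u : R) ^ orderOf B - 1) * r = 0 := by linear_combination h2
    rw [h.sub_unit.mul_right_eq_zero] at h3
    rw [h3]; rfl
  · intro h1
    have h2 : r = 0 := Multiplicative.ofAdd.injective h1
    rw [h2, mul_zero]
    exact ⟨rfl, rfl⟩

theorem LF.im_iff (h : LF A P B R u s e β M r₀) {α : MulAut G} (hα : IsAff A α) (x : P)
    (r : Multiplicative R) : (∃ g, (α ^ orderOf B) g * g⁻¹ = e (x, r)) ↔ x = 1 := by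
  obtain ⟨r, rfl⟩ := Multiplicative.ofAdd.surjective r
  have key : ∀ (y : P) (t : R), (α ^ orderOf B) (e (y, Multiplicative.ofAdd t)) *
      (e (y, Multiplicative.ofAdd t))⁻¹ =
      e (1, Multiplicative.ofAdd (((u : R) ^ orderOf B - 1) * t)) := by
    intro y t
    rw [h.lin_pow hα, ← map_inv, ← map_mul]
    congr 1
    show (y * y⁻¹, Multiplicative.ofAdd _ * (Multiplicative.ofAdd t)⁻¹) = _
    rw [mul_inv_cancel, ← ofAdd_neg, ← ofAdd_add]
    congr 2
    ring
  constructor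
  · rintro ⟨g, hg⟩
    obtain ⟨⟨y, t⟩, rfl⟩ := e.surjective g
    obtain ⟨t, rfl⟩ := Multiplicative.ofAdd.surjective t
    rw [key] at hg
    exact (congrArg Prod.fst (e.injective hg)).symm
  · rintro rfl
    obtain ⟨v, hv⟩ := h.sub_unit
    refine ⟨e (1, Multiplicative.ofAdd ((v⁻¹ : Rˣ) * r)), ?_⟩
    rw [key, ← hv, ← mul_assoc, Units.mul_inv, one_mul]

/-- The two listings are related by isomorphisms. -/
theorem LF.iso (h : LF A P B R u s e β M r₀) (h' : LF A P' B' R' u' s' e' β' M' r₀') :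
    ∃ (θ : P ≃* P') (t : Multiplicative R ≃* Multiplicative R'),
      ∀ x r, e (x, r) = e' (θ x, t r) := by
  obtain ⟨α, hα, -⟩ := h.aff
  obtain ⟨ho, hm⟩ := h.ord_eq h'
  obtain ⟨θ, t, ht⟩ := prod_split (e.trans e'.symm) (by
    intro x
    have h1 := (h.fix_iff hα x 1).mpr rfl
    obtain ⟨⟨y, r⟩, hy⟩ := e'.surjective (e (x, 1))
    rw [ho, ← hy] at h1
    have h2 := (h'.fix_iff hα y r).mp h1
    show (e'.symm (e (x, 1))).2 = 1
    rw [← hy, MulEquiv.symm_apply_apply, h2]) (by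
    intro r
    have h1 := (h.im_iff hα 1 r).mpr rfl
    obtain ⟨⟨y, r'⟩, hy⟩ := e'.surjective (e (1, r))
    rw [ho, ← hy] at h1
    have h2 := (h'.im_iff hα y r').mp h1
    show (e'.symm (e (1, r))).1 = 1
    rw [← hy, MulEquiv.symm_apply_apply, h2]) (by
    intro x
    have h1 := (h'.fix_iff hα x 1).mpr rfl
    obtain ⟨⟨y, r⟩, hy⟩ := e.surjective (e' (x, 1))
    rw [← ho, ← hy] at h1
    have h2 := (h.fix_iff hα y r).mp h1
    show (e.symm (e' (x, 1))).2 = 1
    rw [← hy, MulEquiv.symm_apply_apply, h2]) (by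
    intro r
    have h1 := (h'.im_iff hα 1 r).mpr rfl
    obtain ⟨⟨y, r'⟩, hy⟩ := e.surjective (e' (1, r))
    rw [← ho, ← hy] at h1
    have h2 := (h.im_iff hα y r').mp h1
    show (e.symm (e' (1, r))).1 = 1
    rw [← hy, MulEquiv.symm_apply_apply, h2])
  refine ⟨θ, t, fun x r => ?_⟩
  rw [← ht]
  show _ = e' (e'.symm (e (x, r)))
  rw [MulEquiv.apply_symm_apply]

end

/-- the ring isomorphism -/
theorem ring_iso {R R' : Type} [CommRing R] [CommRing R'] {u : Rˣ} {u' : R'ˣ} (h : RD R u)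
    (t : R ≃+ R') (ht : ∀ r, t (u * r) = u' * t r) :
    ∃ (ψ : R ≃+* R') (v : R'ˣ), ψ u = u' ∧ ∀ r, t r = v * ψ r := by
  have hfin := h.fin
  -- multiplications that are carried to multiplications
  let S : Subring R :=
    { carrier := {a | ∃ a' : R', ∀ r, t (a * r) = a' * t r}
      mul_mem' := by
        rintro a b ⟨a', ha⟩ ⟨b', hb⟩
        exact ⟨a' * b', fun r => by rw [mul_assoc, ha, hb, mul_assoc]⟩
      one_mem' := ⟨1, fun r => by rw [one_mul, one_mul]⟩
      add_mem' := by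
        rintro a b ⟨a', ha⟩ ⟨b', hb⟩
        exact ⟨a' + b', fun r => by rw [add_mul, map_add, ha, hb, add_mul]⟩
      zero_mem' := ⟨0, fun r => by rw [zero_mul, zero_mul, map_zero]⟩
      neg_mem' := by
        rintro a ⟨a', ha⟩
        exact ⟨-a', fun r => by rw [neg_mul, map_neg, ha, neg_mul]⟩ }
  have hu : (u : R) ∈ S := ⟨u', ht⟩
  have hunits : ∀ v : Rˣ, (v : R) ∈ S := by
    intro v
    obtain ⟨i, rfl⟩ := h.gen v
    rw [Units.val_pow_eq_pow_val]
    exact S.pow_mem hu i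
  have htop : ∀ a, a ∈ S := by
    by_contra hcon
    push Not at hcon
    obtain ⟨a, ha⟩ := hcon
    have h1 : Nat.card Rˣ ≤ Nat.card S := by
      apply Nat.card_le_card_of_injective (fun v : Rˣ => (⟨(v : R), hunits v⟩ : S))
      intro v w hvw
      exact Units.ext (congrArg Subtype.val hvw)
    have h2 := AddSubgroup.card_mul_index S.toAddSubgroup
    have h3 : S.toAddSubgroup.index ≠ 1 := by
      intro h4
      rw [AddSubgroup.index_eq_one] at h4
      apply ha
      have : a ∈ S.toAddSubgroup := by rw [h4]; trivial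
      exact this
    have h5 : S.toAddSubgroup.index ≠ 0 := AddSubgroup.index_ne_zero_of_finite
    have h6 : 2 ≤ S.toAddSubgroup.index := by omega
    have h7 : Nat.card S.toAddSubgroup = Nat.card S := rfl
    have h8 : Nat.card S * 2 ≤ Nat.card R := by
      rw [← h2, h7]; exact Nat.mul_le_mul_left _ h6
    have h9 := h.card
    omega
  have hex : ∀ a, ∃ a' : R', ∀ r, t (a * r) = a' * t r := htop
  -- `t 1` is a unit
  have hv : IsUnit (t 1) := by
    obtain ⟨a, ha⟩ := t.surjective 1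
    obtain ⟨a', ha'⟩ := hex a
    have h1 := ha' 1
    rw [mul_one, ha] at h1
    exact IsUnit.of_mul_eq_one _ (by rw [mul_comm]; exact h1.symm)
  obtain ⟨v, hv⟩ := hv
  have hmul : ∀ a b, t (a * b) * t 1 = t a * t b := by
    intro a b
    obtain ⟨a', ha'⟩ := hex a
    have h1 := ha' 1
    rw [mul_one] at h1
    rw [ha' b, h1]; ring
  let f : R → R' := fun r => (v⁻¹ : R'ˣ) * t r
  have hfmul : ∀ a b, f (a * b) = f a * f b := by
    intro a b
    show ((v⁻¹ : R'ˣ) : R') * t (a * b) = (v⁻¹ : R'ˣ) * t a * ((v⁻¹ : R'ˣ) * t b)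
    have h1 := hmul a b
    rw [← hv] at h1
    calc ((v⁻¹ : R'ˣ) : R') * t (a * b) =
        ((v⁻¹ : R'ˣ) : R') * ((v⁻¹ : R'ˣ) * ((v : R') * t (a * b))) := by
          rw [← mul_assoc ((v⁻¹ : R'ˣ) : R') (v : R'), Units.inv_mul, one_mul]
      _ = ((v⁻¹ : R'ˣ) : R') * ((v⁻¹ : R'ˣ) * (t a * t b)) := by rw [← h1, mul_comm (v : R')]
      _ = _ := by ring
  have hfbij : Function.Bijective f := by
    constructor
    · intro a b hab
      apply t.injective
      exact (Units.mul_right_inj v⁻¹).mp hab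
    · intro y
      obtain ⟨r, hr⟩ := t.surjective (v * y)
      refine ⟨r, ?_⟩
      show ((v⁻¹ : R'ˣ) : R') * t r = y
      rw [hr, ← mul_assoc, Units.inv_mul, one_mul]
  let F : R →+* R' :=
    { toFun := f
      map_one' := by
        show ((v⁻¹ : R'ˣ) : R') * t 1 = 1
        rw [← hv, Units.inv_mul]
      map_mul' := hfmul
      map_zero' := by
        show ((v⁻¹ : R'ˣ) : R') * t 0 = 0
        rw [map_zero, mul_zero]
      map_add' := by
        intro a b
        show ((v⁻¹ : R'ˣ) : R') * t (a + b) = (v⁻¹ : R'ˣ) * t a + (v⁻¹ : R'ˣ) * t b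
        rw [map_add, mul_add] }
  refine ⟨RingEquiv.ofBijective F hfbij, v, ?_, ?_⟩
  · show ((v⁻¹ : R'ˣ) : R') * t u = u'
    have h1 := ht 1
    rw [mul_one, ← hv] at h1
    rw [h1, mul_comm (u' : R'), ← mul_assoc, Units.inv_mul, one_mul]
  · intro r
    show t r = v * (((v⁻¹ : R'ˣ) : R') * t r)
    rw [← mul_assoc, Units.mul_inv, one_mul]

/-- Equivalence of listed pairs. -/
theorem listing_equiv {G : Type} [Group G] {A : Perm G}
    {P : Type} [Group P] {B : Perm P} {R : Type} [CommRing R] {u : Rˣ} {s : R}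
    {e : P × Multiplicative R ≃* G}
    {G' : Type} [Group G'] {A' : Perm G'}
    {P' : Type} [Group P'] {B' : Perm P'} {R' : Type} [CommRing R'] {u' : R'ˣ} {s' : R'}
    {e' : P' × Multiplicative R' ≃* G'}
    (h : Listing A P B R u s e) (h' : Listing A' P' B' R' u' s' e') :
    (∃ φ : G ≃* G', ∀ x, φ (A x) = A' (φ x)) ↔
      (∃ θ : P ≃* P', ∀ x, θ (B x) = B' (θ x)) ∧
      (∃ (ψ : R ≃+* R') (v : R'ˣ), ψ u = u' ∧ s' = v * ψ s) := by
  constructor
  · rintro ⟨φ, hφ⟩
    -- transport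
    have h2 : Listing A P' B' R' u' s' (e'.trans φ.symm) := by
      refine ⟨h'.1, h'.2.1, fun x r => ?_⟩
      apply φ.injective
      show φ (A (φ.symm (e' (x, Multiplicative.ofAdd r)))) = φ (φ.symm (e' _))
      rw [hφ, MulEquiv.apply_symm_apply, MulEquiv.apply_symm_apply, h'.2.2]
    obtain ⟨β, M, r₀, hL⟩ := h.lf
    obtain ⟨β', M', r₀', hL'⟩ := h2.lf
    obtain ⟨θ, t, ht⟩ := hL.iso hL'
    have key : ∀ x r, (θ (B x), t (Multiplicative.ofAdd (M r))) =
        (B' (θ x), Multiplicative.ofAdd (M' (t (Multiplicative.ofAdd r)).toAdd)) := by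
      intro x r
      apply (e'.trans φ.symm).injective
      rw [← ht, ← hL.map, ht, ← hL'.map]; rfl
    refine ⟨⟨θ, fun x => congrArg Prod.fst (key x 0)⟩, ?_⟩
    let T : R ≃+ R' := MulEquiv.toAdditive t
    have hT : ∀ r, T r = (t (Multiplicative.ofAdd r)).toAdd := fun r => rfl
    have hTM : ∀ r, T ((u : R) * r + s) = u' * T r + s' := by
      intro r
      have h3 := congrArg Prod.snd (key 1 r)
      have h4 : t (Multiplicative.ofAdd (M r)) =
        Multiplicative.ofAdd (M' (t (Multiplicative.ofAdd r)).toAdd) := h3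
      rw [hL.hM, hL'.hM] at h4
      rw [hT, hT, h4]; rfl
    have hTs : T s = s' := by
      have := hTM 0
      rwa [mul_zero, zero_add, map_zero, mul_zero, zero_add] at this
    have hTu : ∀ r, T (u * r) = u' * T r := by
      intro r
      have := hTM r
      rw [map_add, hTs] at this
      exact add_right_cancel this
    obtain ⟨ψ, v, hψ, hv⟩ := ring_iso hL.rd T hTu
    exact ⟨ψ, v, hψ, by rw [← hv, hTs]⟩
  · rintro ⟨⟨θ, hθ⟩, ψ, v, hψ, hs⟩
    let f : R → R' := fun r => v * ψ r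
    let F : R ≃+ R' :=
      { toFun := f
        invFun := fun r => ψ.symm ((v⁻¹ : R'ˣ) * r)
        left_inv := by
          intro r
          show ψ.symm ((v⁻¹ : R'ˣ) * (v * ψ r)) = r
          rw [← mul_assoc, Units.inv_mul, one_mul, RingEquiv.symm_apply_apply]
        right_inv := by
          intro r
          show (v : R') * ψ (ψ.symm ((v⁻¹ : R'ˣ) * r)) = r
          rw [RingEquiv.apply_symm_apply, ← mul_assoc, Units.mul_inv, one_mul]
        map_add' := by
          intro a b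
          show (v : R') * ψ (a + b) = v * ψ a + v * ψ b
          rw [map_add, mul_add] }
    let T : Multiplicative R ≃* Multiplicative R' := AddEquiv.toMultiplicative F
    refine ⟨(e.symm.trans (θ.prodCongr T)).trans e', fun x => ?_⟩
    obtain ⟨⟨x, r⟩, rfl⟩ := e.surjective x
    obtain ⟨r, rfl⟩ := Multiplicative.ofAdd.surjective r
    show e' (θ.prodCongr T (e.symm (A (e (x, Multiplicative.ofAdd r))))) =
      A' (e' (θ.prodCongr T (e.symm (e (x, Multiplicative.ofAdd r)))))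
    rw [h.2.2, MulEquiv.symm_apply_apply, MulEquiv.symm_apply_apply]
    show e' (θ (B x), Multiplicative.ofAdd (v * ψ ((u : R) * r + s))) =
      A' (e' (θ x, Multiplicative.ofAdd (v * ψ r)))
    rw [h'.2.2, hθ]
    congr 3
    rw [map_add, map_mul, hψ, hs]; ring

end H67
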