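import Mathlib
import Pool.Agent.H67.Conv3

namespace H67

open Equiv

/-- elements of odd prime order of a core -/
theorem core_prime {H : Type} [Group H] {S : Perm H} (h : IsCore H S) {β : MulAut H}
    (hβ : IsAff S β) {p : ℕ} (hp : p.Prime) (hp2 : p ≠ 2) {x : H} (hx : x ^ p = 1) :
    β x = x ∧ ∀ g, g * x = x * g := by
  have hodd : Odd p := hp.odd_of_ne_two hp2
  have zfact : ∀ (m w : ℕ), 0 < m → (∀ p : ℕ, p.Prime → p ∣ m → (p : ℤ) ∣ (w : ℤ) - 1) →
      ∀ y : ZMod m, (p : ZMod m) * y = 0 → (w : ZMod m) * y = y := by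
    intro m w hm hw y hy
    have : NeZero m := ⟨hm.ne'⟩
    by_cases hpm : p ∣ m
    · obtain ⟨c, hc⟩ := hw p hp hpm
      have h1 : (w : ZMod m) - 1 = (c : ZMod m) * (p : ZMod m) := by
        have := congrArg (fun k : ℤ => (k : ZMod m)) hc
        push_cast at this
        rw [this]; ring
      have h2 : ((w : ZMod m) - 1) * y = 0 := by rw [h1, mul_assoc, hy, mul_zero]
      linear_combination h2
    · have hu : IsUnit (p : ZMod m) := by
        rw [ZMod.isUnit_iff_coprime]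
        exact (Nat.Prime.coprime_iff_not_dvd hp).mpr hpm
      rw [hu.mul_right_eq_zero] at hy
      rw [hy, mul_zero]
  have hβx : ∀ x, β x = (S 1)⁻¹ * S x := fun x => hβ.lin x
  rcases h with ⟨m, w, e, hm, hw, h4, hS⟩ | ⟨m, w, k, v, e, hm, hw, hk, hv, hS1, hS2⟩ |
    ⟨m, w, k, v, e, hm, hw, hk, hv, hS1, hS2⟩
  · obtain ⟨y, rfl⟩ := e.surjective x
    obtain ⟨y, rfl⟩ := Multiplicative.ofAdd.surjective y
    have h1 : (p : ZMod m) * y = 0 := by
      rw [← map_pow, ← ofAdd_nsmul, nsmul_eq_mul] at hx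
      have h2 := (map_eq_one_iff e e.injective).mp hx
      exact h2
    have hS0 : S 1 = e (Multiplicative.ofAdd 1) := by
      have := hS 0
      rwa [ofAdd_zero, map_one, mul_zero, zero_add] at this
    constructor
    · rw [hβx, hS, hS0, ← map_inv, ← map_mul, zfact m w hm hw y h1, ← ofAdd_neg, ← ofAdd_add]
      congr 2
      ring
    · intro g
      obtain ⟨g, rfl⟩ := e.surjective g
      rw [← map_mul, ← map_mul, mul_comm]
  · have hk0 : NeZero (2 ^ k) := ⟨by positivity⟩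
    obtain ⟨⟨y, d⟩, rfl⟩ := e.surjective x
    obtain ⟨y, rfl⟩ := Multiplicative.ofAdd.surjective y
    rw [← map_pow] at hx
    have h2 := (map_eq_one_iff e e.injective).mp hx
    rw [Prod.pow_mk, Prod.mk_eq_one, ← ofAdd_nsmul, nsmul_eq_mul] at h2
    have h1 : (p : ZMod m) * y = 0 := h2.1
    have hd : d = 1 := by
      have h3 : orderOf d ∣ p := orderOf_dvd_of_pow_eq_one h2.2
      have h5 : orderOf d ∣ 2 * 2 ^ k := by
        rw [← DihedralGroup.nat_card]; exact orderOf_dvd_natCard d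
      have h6 : Nat.Coprime p (2 * 2 ^ k) := by
        rw [← pow_succ']
        exact Nat.Coprime.pow_right _ (Nat.coprime_two_right.mpr hodd)
      rw [← orderOf_eq_one_iff]
      exact Nat.eq_one_of_dvd_coprimes h6 h3 h5
    subst hd
    have hS0 : S 1 = e (Multiplicative.ofAdd 1, .sr 0) := by
      have := hS1 0 0
      rw [ofAdd_zero, DihedralGroup.r_zero, ← Prod.one_eq_mk, map_one, mul_zero, mul_zero,
        zero_add] at this
      exact this
    have hSy : S (e (Multiplicative.ofAdd y, 1)) =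
        e (Multiplicative.ofAdd ((w : ZMod m) * y + 1), .sr 0) := by
      have := hS1 y 0
      rwa [DihedralGroup.r_zero, mul_zero] at this
    constructor
    · rw [hβx, hSy, hS0, ← map_inv, ← map_mul, zfact m w hm.pos hw y h1]
      congr 1
      show ((Multiplicative.ofAdd (1 : ZMod m))⁻¹ * Multiplicative.ofAdd (y + 1), _) = _
      rw [← ofAdd_neg, ← ofAdd_add]
      congr 1
      · congr 1; ring
      · exact inv_mul_cancel _
    · intro g
      obtain ⟨⟨g, g'⟩, rfl⟩ := e.surjective g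
      rw [← map_mul, ← map_mul, Prod.mk_mul_mk, Prod.mk_mul_mk, mul_one, one_mul, mul_comm]
  · have hk0 : NeZero (2 ^ k) := ⟨by positivity⟩
    obtain ⟨⟨y, d⟩, rfl⟩ := e.surjective x
    obtain ⟨y, rfl⟩ := Multiplicative.ofAdd.surjective y
    rw [← map_pow] at hx
    have h2 := (map_eq_one_iff e e.injective).mp hx
    rw [Prod.pow_mk, Prod.mk_eq_one, ← ofAdd_nsmul, nsmul_eq_mul] at h2
    have h1 : (p : ZMod m) * y = 0 := h2.1
    have hd : d = 1 := by
      have h3 : orderOf d ∣ p := orderOf_dvd_of_pow_eq_one h2.2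
      have h5 : orderOf d ∣ 4 * 2 ^ k := by
        rw [← QuaternionGroup.card, ← Nat.card_eq_fintype_card]; exact orderOf_dvd_natCard d
      have h6 : Nat.Coprime p (4 * 2 ^ k) := by
        rw [show 4 * 2 ^ k = 2 ^ (k + 2) by ring]
        exact Nat.Coprime.pow_right _ (Nat.coprime_two_right.mpr hodd)
      rw [← orderOf_eq_one_iff]
      exact Nat.eq_one_of_dvd_coprimes h6 h3 h5
    subst hd
    have hS0 : S 1 = e (Multiplicative.ofAdd 1, .xa 0) := by
      have := hS1 0 0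
      rw [ofAdd_zero, QuaternionGroup.a_zero, ← Prod.one_eq_mk, map_one, mul_zero, mul_zero,
        zero_add] at this
      exact this
    have hSy : S (e (Multiplicative.ofAdd y, 1)) =
        e (Multiplicative.ofAdd ((w : ZMod m) * y + 1), .xa 0) := by
      have := hS1 y 0
      rwa [QuaternionGroup.a_zero, mul_zero] at this
    constructor
    · rw [hβx, hSy, hS0, ← map_inv, ← map_mul, zfact m w hm.pos hw y h1]
      congr 1
      show ((Multiplicative.ofAdd (1 : ZMod m))⁻¹ * Multiplicative.ofAdd (y + 1), _) = _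
      rw [← ofAdd_neg, ← ofAdd_add]
      congr 1
      · congr 1; ring
      · exact inv_mul_cancel _
    · intro g
      obtain ⟨⟨g, g'⟩, rfl⟩ := e.surjective g
      rw [← map_mul, ← map_mul, Prod.mk_mul_mk, Prod.mk_mul_mk, mul_one, one_mul, mul_comm]

/-- facts on the coordinates of a full pair -/
structure FF {n₁ n₂ : ℕ} {H : Type} [Group H] (S : Perm H) (χ₁ : H →* (ZMod n₁)ˣ)
    (χ₂ : H →* (ZMod n₂)ˣ) (w₁ w₂ : ℕ) (C : Type) [Group C] (K : Perm C)
    (f : ZMod n₁ × H × ZMod n₂ ≃ C) (α : MulAut C) (β : MulAut H) (pr : C →* H) : Prop where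
  D : FullDatum n₁ n₂ H S χ₁ χ₂ w₁ w₂
  mul : ∀ x₁ h x₂ y₁ g y₂, f (x₁, h, x₂) * f (y₁, g, y₂) =
    f (x₁ + (χ₁ h : ZMod n₁) * y₁, h * g, ((χ₂ g)⁻¹ : (ZMod n₂)ˣ) * x₂ + y₂)
  mapK : ∀ x₁ h x₂, K (f (x₁, h, x₂)) = f ((w₁ : ZMod n₁) * x₁ + 1, S h, (w₂ : ZMod n₂) * x₂ + 1)
  finC : Finite C
  finH : Finite H
  pos₁ : 0 < n₁
  pos₂ : 0 < n₂
  affS : IsAff S β
  one : f (0, 1, 0) = 1
  aff : IsAff K α
  prf : ∀ x h y, pr (f (x, h, y)) = h
  prα : ∀ x, pr (α x) = β (pr x)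
  α₁ : ∀ x, α (f (x, 1, 0)) = f (((χ₁ (S 1))⁻¹ : (ZMod n₁)ˣ) * (w₁ : ZMod n₁) * x, 1, 0)
  α₂ : ∀ y, α (f (0, 1, y)) = f (0, 1, (w₂ : ZMod n₂) * y)
  c₁ : ∀ g x, g * f (x, 1, 0) * g⁻¹ = f ((χ₁ (pr g) : ZMod n₁) * x, 1, 0)
  c₂ : ∀ g y, g * f (0, 1, y) * g⁻¹ = f (0, 1, (χ₂ (pr g) : ZMod n₂) * y)
  pow : ∀ (n : ℕ) x y, f (x, 1, y) ^ n = f (n * x, 1, n * y)

theorem exists_ff {n₁ n₂ : ℕ} {H : Type} [Group H] {S : Perm H} {χ₁ : H →* (ZMod n₁)ˣ}
    {χ₂ : H →* (ZMod n₂)ˣ} {w₁ w₂ : ℕ} {C : Type} [Group C] {K : Perm C}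
    {f : ZMod n₁ × H × ZMod n₂ ≃ C} (hD : FullDatum n₁ n₂ H S χ₁ χ₂ w₁ w₂)
    (hC : FullCoord S χ₁ χ₂ w₁ w₂ C K f) :
    ∃ α β pr, FF S χ₁ χ₂ w₁ w₂ C K f α β pr := by
  obtain ⟨hn₁, hn₂, hS⟩ := fullDatum_pos hD
  have hfull : FullCyc C K :=
    full_of_isFull ⟨n₁, n₂, H, inferInstance, S, χ₁, χ₂, w₁, w₂, f, hD, hC⟩
  obtain ⟨β, hβ⟩ := hS.aff
  obtain ⟨α, hα⟩ := hfull.aff
  obtain ⟨hmul, hK⟩ := hC
  have hone : f (0, 1, 0) = 1 := by
    have h1 := hmul 0 1 0 0 1 0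
    rw [mul_zero, mul_zero, add_zero, add_zero, one_mul] at h1
    exact mul_eq_left.mp h1
  let pr : C →* H :=
    { toFun := fun x => (f.symm x).2.1
      map_one' := by rw [← hone, Equiv.symm_apply_apply]
      map_mul' := by
        intro x y
        obtain ⟨⟨x₁, h, x₂⟩, rfl⟩ := f.surjective x
        obtain ⟨⟨y₁, g, y₂⟩, rfl⟩ := f.surjective y
        rw [hmul]
        simp only [Equiv.symm_apply_apply] }
  have hpr : ∀ x h y, pr (f (x, h, y)) = h := by
    intro x h y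
    show (f.symm (f (x, h, y))).2.1 = h
    rw [Equiv.symm_apply_apply]
  have hprK : ∀ x, pr (K x) = S (pr x) := by
    intro x
    obtain ⟨⟨x₁, h, x₂⟩, rfl⟩ := f.surjective x
    rw [hK, hpr, hpr]
  have hχ₁1 : ∀ x, f (x, 1, 0) = f (x, 1, 0) := fun x => rfl
  refine ⟨α, β, pr, ⟨hD, hmul, hK, hfull.fin, hS.fin, hn₁, hn₂, hβ, hone, hα, hpr, ?_, ?_, ?_, ?_,
    ?_, ?_⟩⟩
  · intro x
    rw [hα.lin, hβ.lin, map_mul, map_inv, hprK, hprK, map_one]
  · intro x
    have h1 := hα (f (x, 1, 0))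
    rw [hK, ← hone, hK] at h1
    have h2 : f ((w₁ : ZMod n₁) * 0 + 1, S 1, (w₂ : ZMod n₂) * 0 + 1) *
        f (((χ₁ (S 1))⁻¹ : (ZMod n₁)ˣ) * (w₁ : ZMod n₁) * x, 1, 0) =
        f ((w₁ : ZMod n₁) * x + 1, S 1, (w₂ : ZMod n₂) * 0 + 1) := by
      rw [hmul]
      congr 1
      ext
      · simp only []
        have h3 := (χ₁ (S 1)).mul_inv
        linear_combination ((w₁ : ZMod n₁) * x) * h3
      · simp
      · simp
    exact (mul_left_cancel (h2.trans h1)).symm
  · intro y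
    have h1 := hα (f (0, 1, y))
    rw [hK, ← hone, hK] at h1
    have h2 : f ((w₁ : ZMod n₁) * 0 + 1, S 1, (w₂ : ZMod n₂) * 0 + 1) *
        f (0, 1, (w₂ : ZMod n₂) * y) =
        f ((w₁ : ZMod n₁) * 0 + 1, S 1, (w₂ : ZMod n₂) * y + 1) := by
      rw [hmul]
      congr 1
      ext
      · simp
      · simp
      · simp [add_comm]
    exact (mul_left_cancel (h2.trans h1)).symm
  · intro g x
    obtain ⟨⟨a, h, b⟩, rfl⟩ := f.surjective g
    rw [mul_inv_eq_iff_eq_mul, hpr, hmul, hmul]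
    congr 1
    ext
    · simp only [map_one, Units.val_one]; ring
    · simp
    · simp
  · intro g y
    obtain ⟨⟨a, h, b⟩, rfl⟩ := f.surjective g
    rw [mul_inv_eq_iff_eq_mul, hpr, hmul, hmul]
    congr 1
    ext
    · simp
    · simp
    · simp only [map_one, inv_one, Units.val_one]
      rw [← mul_assoc, Units.inv_mul]; ring
  · intro n x y
    induction n with
    | zero => simp [hone]
    | succ n ih =>
      rw [pow_succ, ih, hmul]
      congr 1
      ext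
      · simp only [map_one, Units.val_one]; push_cast; ring
      · simp
      · simp only [map_one, inv_one, Units.val_one]; push_cast; ring

end H67
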