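import Mathlib
import Pool.Agent.H67.Uniq3

namespace H67

open Equiv

section

variable {n₁ n₂ : ℕ} {H : Type} [Group H] {S : Perm H} {χ₁ : H →* (ZMod n₁)ˣ}
    {χ₂ : H →* (ZMod n₂)ˣ} {w₁ w₂ : ℕ} {C : Type} [Group C] {K : Perm C}
    {f : ZMod n₁ × H × ZMod n₂ ≃ C} {α : MulAut C} {β : MulAut H} {pr : C →* H}

theorem zmod_prime_kill {p m : ℕ} (hp : p.Prime) (hpm : ¬ p ∣ m) {y : ZMod m}
    (hy : (p : ZMod m) * y = 0) : y = 0 := by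
  have hu : IsUnit (p : ZMod m) := by
    rw [ZMod.isUnit_iff_coprime]
    exact (Nat.Prime.coprime_iff_not_dvd hp).mpr hpm
  rwa [hu.mul_right_eq_zero] at hy

theorem zmod_w_fix {p m w : ℕ} (hp : p.Prime)
    (hw : ∀ p : ℕ, p.Prime → p ∣ m → (p : ℤ) ∣ (w : ℤ) - 1) {y : ZMod m}
    (hy : (p : ZMod m) * y = 0) : (w : ZMod m) * y = y := by
  by_cases hpm : p ∣ m
  · obtain ⟨c, hc⟩ := hw p hp hpm
    have h1 : (w : ZMod m) - 1 = (c : ZMod m) * (p : ZMod m) := by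
      have := congrArg (fun k : ℤ => (k : ZMod m)) hc
      push_cast at this
      rw [this]; ring
    have h2 : ((w : ZMod m) - 1) * y = 0 := by rw [h1, mul_assoc, hy, mul_zero]
    linear_combination h2
  · rw [zmod_prime_kill hp hpm hy, mul_zero]

theorem dvd_sub_of_pow {G : Type} [Group G] {p c : ℕ} (hp : p.Prime) {v : G} (hv : v ^ p = 1)
    (hv1 : v ≠ 1) (hc : v = v ^ c) : (p : ℤ) ∣ (c : ℤ) - 1 := by
  have h1 : orderOf v = p := orderOf_eq_prime (hp := ⟨hp⟩) hv hv1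
  rw [← h1, orderOf_dvd_iff_zpow_eq_one, zpow_sub, zpow_natCast, ← hc, zpow_one, mul_inv_cancel]

theorem FF.prK (h : FF S χ₁ χ₂ w₁ w₂ C K f α β pr) (x : C) : pr (K x) = S (pr x) := by
  obtain ⟨⟨x₁, g, x₂⟩, rfl⟩ := f.surjective x
  rw [h.mapK, h.prf, h.prf]

theorem FF.lemXa (h : FF S χ₁ χ₂ w₁ w₂ C K f α β pr) {p c : ℕ} (hp : p.Prime) (hp2 : p ≠ 2)
    (hpn : ¬ p ∣ n₁) {v : C} (hv : v ^ p = 1) (hv1 : v ≠ 1) (hc : α v = v ^ c) :
    (p : ℤ) ∣ (c : ℤ) - 1 := by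
  obtain ⟨⟨a, g, b⟩, rfl⟩ := f.surjective v
  have hg : g ^ p = 1 := by
    have := congrArg pr hv
    rwa [map_pow, map_one, h.prf] at this
  obtain ⟨hβ, hcen⟩ := core_prime h.D.2.2.2.2.2.1 h.affS hp hp2 hg
  by_cases hg1 : g = 1
  · subst hg1
    have h1 : f ((p : ZMod n₁) * a, 1, (p : ZMod n₂) * b) = f (0, 1, 0) := by
      rw [← h.pow, hv, h.one]
    have h2 := f.injective h1
    have ha : a = 0 := zmod_prime_kill hp hpn (congrArg Prod.fst h2)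
    have hb : (w₂ : ZMod n₂) * b = b :=
      zmod_w_fix hp h.D.2.2.2.2.2.2.2.1 (congrArg (fun x => x.2.2) h2)
    subst ha
    apply dvd_sub_of_pow hp hv hv1
    rw [← hc, h.α₂, hb]
  · apply dvd_sub_of_pow hp hg hg1
    have := congrArg pr hc
    rwa [h.prα, map_pow, h.prf, hβ] at this

theorem FF.lemXb (h : FF S χ₁ χ₂ w₁ w₂ C K f α β pr) {p c : ℕ} (hp : p.Prime) (hp2 : p ≠ 2)
    (hpn : ¬ p ∣ n₂) {v : C} (hv : v ^ p = 1) (hv1 : v ≠ 1) (hc : K 1 * α v * (K 1)⁻¹ = v ^ c) :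
    (p : ℤ) ∣ (c : ℤ) - 1 := by
  obtain ⟨⟨a, g, b⟩, rfl⟩ := f.surjective v
  have hg : g ^ p = 1 := by
    have := congrArg pr hv
    rwa [map_pow, map_one, h.prf] at this
  obtain ⟨hβ, hcen⟩ := core_prime h.D.2.2.2.2.2.1 h.affS hp hp2 hg
  by_cases hg1 : g = 1
  · subst hg1
    have h1 : f ((p : ZMod n₁) * a, 1, (p : ZMod n₂) * b) = f (0, 1, 0) := by
      rw [← h.pow, hv, h.one]
    have h2 := f.injective h1
    have hb : b = 0 := zmod_prime_kill hp hpn (congrArg (fun x => x.2.2) h2)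
    have ha : (w₁ : ZMod n₁) * a = a :=
      zmod_w_fix hp h.D.2.2.2.2.2.2.1 (congrArg Prod.fst h2)
    subst hb
    apply dvd_sub_of_pow hp hv hv1
    rw [← hc, h.α₁, h.c₁, h.prK, map_one]
    congr 2
    calc a = (w₁ : ZMod n₁) * a := ha.symm
      _ = ((χ₁ (S 1) : ZMod n₁) * ((χ₁ (S 1))⁻¹ : (ZMod n₁)ˣ)) * ((w₁ : ZMod n₁) * a) := by
          rw [Units.mul_inv, one_mul]
      _ = _ := by ring
  · apply dvd_sub_of_pow hp hg hg1
    have := congrArg pr hc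
    rw [map_mul, map_mul, map_inv, h.prα, map_pow, h.prf, hβ, hcen, mul_inv_cancel_right] at this
    exact this

theorem not_unit_prime {p m : ℕ} (hp : p.Prime) (hpm : p ∣ m) : ¬ IsUnit (p : ZMod m) := by
  rw [ZMod.isUnit_iff_coprime]
  intro h
  have := Nat.Coprime.eq_one_of_dvd h hpm
  exact hp.ne_one this

theorem natCast_dvd_of_int {p m : ℕ} {c : ℤ} (h : (p : ℤ) ∣ c) : (p : ZMod m) ∣ (c : ZMod m) := by
  obtain ⟨d, rfl⟩ := h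
  exact ⟨(d : ZMod m), by push_cast; rfl⟩

theorem exists_ne_pow {p m : ℕ} (hp : p.Prime) (hm : 0 < m) (hpm : p ∣ m) :
    ((m / p : ℕ) : ZMod m) ≠ 0 ∧ (p : ZMod m) * ((m / p : ℕ) : ZMod m) = 0 := by
  obtain ⟨q, hq⟩ := hpm
  have hpos : 0 < q := by
    rcases Nat.eq_zero_or_pos q with h | h
    · rw [h, mul_zero] at hq; omega
    · exact h
  constructor
  · rw [ne_eq, ZMod.natCast_eq_zero_iff]
    intro h1
    have h2 : m / p < m := Nat.div_lt_self hm hp.one_lt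
    have h3 : 0 < m / p := by rw [hq, Nat.mul_div_cancel_left _ hp.pos]; exact hpos
    exact absurd (Nat.le_of_dvd h3 h1) (by omega)
  · rw [← Nat.cast_mul, hq, Nat.mul_div_cancel_left _ hp.pos, ZMod.natCast_self]

theorem FF.lemYa (h : FF S χ₁ χ₂ w₁ w₂ C K f α β pr) {p : ℕ} (hp : p.Prime) (hpn : p ∣ n₁) :
    ∃ (v : C) (c : ℕ), v ^ p = 1 ∧ v ≠ 1 ∧ α v = v ^ c ∧ ¬ (p : ℤ) ∣ (c : ℤ) - 1 := by
  have : NeZero n₁ := ⟨h.pos₁.ne'⟩
  obtain ⟨h1, h2⟩ := exists_ne_pow hp h.pos₁ hpn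
  set x : ZMod n₁ := ((n₁ / p : ℕ) : ZMod n₁) with hx
  set c : ℕ := ((((χ₁ (S 1))⁻¹ : (ZMod n₁)ˣ) : ZMod n₁) * (w₁ : ZMod n₁)).val with hcdef
  have hc : (c : ZMod n₁) = (((χ₁ (S 1))⁻¹ : (ZMod n₁)ˣ) : ZMod n₁) * (w₁ : ZMod n₁) := by
    rw [hcdef, ZMod.natCast_zmod_val]
  refine ⟨f (x, 1, 0), c, ?_, ?_, ?_, ?_⟩
  · rw [h.pow, h2, mul_zero, h.one]
  · rw [← h.one]
    intro h3
    exact h1 (congrArg Prod.fst (f.injective h3))
  · rw [h.α₁, h.pow, hc, mul_zero]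
  · intro h3
    apply not_unit_prime hp hpn
    have h4 : (p : ZMod n₁) ∣ (c : ZMod n₁) - 1 := by
      have := natCast_dvd_of_int (m := n₁) h3
      push_cast at this
      exact this
    have h5 : (p : ZMod n₁) ∣ (w₁ : ZMod n₁) - 1 := by
      have := natCast_dvd_of_int (m := n₁) (h.D.2.2.2.2.2.2.1 p hp hpn)
      push_cast at this
      exact this
    have h6 : (χ₁ (S 1) : ZMod n₁) - 1 = ((w₁ : ZMod n₁) - 1) -
        (χ₁ (S 1) : ZMod n₁) * ((c : ZMod n₁) - 1) := by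
      rw [hc]
      have h7 := (χ₁ (S 1)).mul_inv
      linear_combination (w₁ : ZMod n₁) * h7
    have h8 : (p : ZMod n₁) ∣ (χ₁ (S 1) : ZMod n₁) - 1 := by
      rw [h6]
      exact dvd_sub h5 (h4.mul_left _)
    exact isUnit_of_dvd_unit h8 h.D.2.2.2.2.2.2.2.2.2.2.1

theorem FF.lemYb (h : FF S χ₁ χ₂ w₁ w₂ C K f α β pr) {p : ℕ} (hp : p.Prime) (hpn : p ∣ n₂) :
    ∃ (v : C) (c : ℕ), v ^ p = 1 ∧ v ≠ 1 ∧ K 1 * α v * (K 1)⁻¹ = v ^ c ∧
      ¬ (p : ℤ) ∣ (c : ℤ) - 1 := by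
  have : NeZero n₂ := ⟨h.pos₂.ne'⟩
  obtain ⟨h1, h2⟩ := exists_ne_pow hp h.pos₂ hpn
  set x : ZMod n₂ := ((n₂ / p : ℕ) : ZMod n₂) with hx
  set c : ℕ := ((χ₂ (S 1) : ZMod n₂) * (w₂ : ZMod n₂)).val with hcdef
  have hc : (c : ZMod n₂) = (χ₂ (S 1) : ZMod n₂) * (w₂ : ZMod n₂) := by
    rw [hcdef, ZMod.natCast_zmod_val]
  refine ⟨f (0, 1, x), c, ?_, ?_, ?_, ?_⟩
  · rw [h.pow, h2, mul_zero, h.one]
  · rw [← h.one]
    intro h3
    exact h1 (congrArg (fun x => x.2.2) (f.injective h3))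
  · rw [h.α₂, h.c₂, h.pow, h.prK, map_one, hc, mul_zero, mul_assoc]
  · intro h3
    apply not_unit_prime hp hpn
    have h4 : (p : ZMod n₂) ∣ (c : ZMod n₂) - 1 := by
      have := natCast_dvd_of_int (m := n₂) h3
      push_cast at this
      exact this
    have h5 : (p : ZMod n₂) ∣ (w₂ : ZMod n₂) - 1 := by
      have := natCast_dvd_of_int (m := n₂) (h.D.2.2.2.2.2.2.2.1 p hp hpn)
      push_cast at this
      exact this
    have h6 : (χ₂ (S 1) : ZMod n₂) - 1 = ((c : ZMod n₂) - 1) -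
        (χ₂ (S 1) : ZMod n₂) * ((w₂ : ZMod n₂) - 1) := by
      rw [hc]; ring
    have h8 : (p : ZMod n₂) ∣ (χ₂ (S 1) : ZMod n₂) - 1 := by
      rw [h6]
      exact dvd_sub h4 (h5.mul_left _)
    exact isUnit_of_dvd_unit h8 h.D.2.2.2.2.2.2.2.2.2.2.2

theorem FF.cardC (h : FF S χ₁ χ₂ w₁ w₂ C K f α β pr) :
    Nat.card C = n₁ * (Nat.card H * n₂) := by
  rw [← Nat.card_congr f, Nat.card_prod, Nat.card_prod, Nat.card_zmod, Nat.card_zmod]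

variable {n₁' n₂' : ℕ} {H' : Type} [Group H'] {S' : Perm H'} {χ₁' : H' →* (ZMod n₁')ˣ}
    {χ₂' : H' →* (ZMod n₂')ˣ} {w₁' w₂' : ℕ}
    {f' : ZMod n₁' × H' × ZMod n₂' ≃ C} {β' : MulAut H'} {pr' : C →* H'}

theorem FF.dvd₁ (h : FF S χ₁ χ₂ w₁ w₂ C K f α β pr)
    (h' : FF S' χ₁' χ₂' w₁' w₂' C K f' α β' pr') {p : ℕ} (hp : p.Prime) (hpn : p ∣ n₁) :
    p ∣ n₁' := by
  by_contra hcon
  have hp2 : p ≠ 2 := by
    rintro rfl
    exact (Nat.not_even_iff_odd.mpr h.D.1) (even_iff_two_dvd.mpr hpn)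
  obtain ⟨v, c, hv, hv1, hc, hn⟩ := h.lemYa hp hpn
  exact hn (h'.lemXa hp hp2 hcon hv hv1 hc)

theorem FF.dvd₂ (h : FF S χ₁ χ₂ w₁ w₂ C K f α β pr)
    (h' : FF S' χ₁' χ₂' w₁' w₂' C K f' α β' pr') {p : ℕ} (hp : p.Prime) (hpn : p ∣ n₂) :
    p ∣ n₂' := by
  by_contra hcon
  have hp2 : p ≠ 2 := by
    rintro rfl
    exact (Nat.not_even_iff_odd.mpr h.D.2.1) (even_iff_two_dvd.mpr hpn)
  obtain ⟨v, c, hv, hv1, hc, hn⟩ := h.lemYb hp hpn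
  exact hn (h'.lemXb hp hp2 hcon hv hv1 hc)

theorem hall_dvd {n r n' r' : ℕ} (h : n * r = n' * r') (hc' : Nat.Coprime n' r')
    (hp : ∀ p : ℕ, p.Prime → p ∣ n → p ∣ n') : n ∣ n' := by
  have h1 : Nat.Coprime n r' := by
    rw [Nat.coprime_iff_gcd_eq_one]
    by_contra hcon
    obtain ⟨p, hpp, hpd⟩ := Nat.exists_prime_and_dvd hcon
    have h2 := hp p hpp (hpd.trans (Nat.gcd_dvd_left _ _))
    have h3 := hpd.trans (Nat.gcd_dvd_right _ _)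
    exact hpp.one_lt.ne' (Nat.eq_one_of_dvd_coprimes hc' h2 h3)
  exact h1.dvd_of_dvd_mul_right (by rw [← h]; exact dvd_mul_right _ _)

theorem FF.n_eq (h : FF S χ₁ χ₂ w₁ w₂ C K f α β pr)
    (h' : FF S' χ₁' χ₂' w₁' w₂' C K f' α β' pr') : n₁ = n₁' ∧ n₂ = n₂' := by
  have hc := h.cardC
  have hc' := h'.cardC
  have e1 : n₁ * (Nat.card H * n₂) = n₁' * (Nat.card H' * n₂') := by rw [← hc, hc']
  have e2 : n₂ * (n₁ * Nat.card H) = n₂' * (n₁' * Nat.card H') := by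
    calc n₂ * (n₁ * Nat.card H) = n₁ * (Nat.card H * n₂) := by ring
      _ = n₁' * (Nat.card H' * n₂') := e1
      _ = _ := by ring
  have c1 : Nat.Coprime n₁ (Nat.card H * n₂) := Nat.Coprime.mul_right h.D.2.2.2.1 h.D.2.2.1
  have c1' : Nat.Coprime n₁' (Nat.card H' * n₂') := Nat.Coprime.mul_right h'.D.2.2.2.1 h'.D.2.2.1
  have c2 : Nat.Coprime n₂ (n₁ * Nat.card H) := Nat.Coprime.mul_right h.D.2.2.1.symm h.D.2.2.2.2.1
  have c2' : Nat.Coprime n₂' (n₁' * Nat.card H') :=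
    Nat.Coprime.mul_right h'.D.2.2.1.symm h'.D.2.2.2.2.1
  constructor
  · exact Nat.dvd_antisymm (hall_dvd e1 c1' fun p hp => h.dvd₁ h' hp)
      (hall_dvd e1.symm c1 fun p hp => h'.dvd₁ h hp)
  · exact Nat.dvd_antisymm (hall_dvd e2 c2' fun p hp => h.dvd₂ h' hp)
      (hall_dvd e2.symm c2 fun p hp => h'.dvd₂ h hp)

theorem FF.ker_iff (h : FF S χ₁ χ₂ w₁ w₂ C K f α β pr) (x : C) :
    pr x = 1 ↔ x ^ (n₁ * n₂) = 1 := by
  have := h.finH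
  obtain ⟨⟨a, g, b⟩, rfl⟩ := f.surjective x
  rw [h.prf]
  constructor
  · rintro rfl
    rw [h.pow, ← h.one]
    congr 1
    ext
    · push_cast; simp
    · rfl
    · push_cast; simp
  · intro h1
    have h2 := congrArg pr h1
    rw [map_pow, h.prf, map_one] at h2
    have h3 : orderOf g ∣ n₁ * n₂ := orderOf_dvd_of_pow_eq_one h2
    have h4 : orderOf g ∣ Nat.card H := orderOf_dvd_natCard g
    have h5 : Nat.Coprime (n₁ * n₂) (Nat.card H) := Nat.Coprime.mul_left h.D.2.2.2.1 h.D.2.2.2.2.1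
    rw [← orderOf_eq_one_iff]
    exact Nat.eq_one_of_dvd_coprimes h5 h3 h4

theorem FF.mem₁ (h : FF S χ₁ χ₂ w₁ w₂ C K f α β pr) {x : C} (hx : x ^ n₁ = 1) :
    ∃ a, x = f (a, 1, 0) := by
  have h0 : pr x = 1 := by
    rw [h.ker_iff, pow_mul, hx, one_pow]
  obtain ⟨⟨a, g, b⟩, rfl⟩ := f.surjective x
  rw [h.prf] at h0
  subst h0
  rw [h.pow, ← h.one] at hx
  have h1 : (n₁ : ZMod n₂) * b = 0 := congrArg (fun x => x.2.2) (f.injective hx)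
  have h2 : IsUnit (n₁ : ZMod n₂) := (ZMod.isUnit_iff_coprime _ _).mpr h.D.2.2.1
  rw [h2.mul_right_eq_zero] at h1
  exact ⟨a, by rw [h1]⟩

theorem FF.mem₂ (h : FF S χ₁ χ₂ w₁ w₂ C K f α β pr) {x : C} (hx : x ^ n₂ = 1) :
    ∃ b, x = f (0, 1, b) := by
  have h0 : pr x = 1 := by
    rw [h.ker_iff, mul_comm, pow_mul, hx, one_pow]
  obtain ⟨⟨a, g, b⟩, rfl⟩ := f.surjective x
  rw [h.prf] at h0
  subst h0
  rw [h.pow, ← h.one] at hx
  have h1 : (n₂ : ZMod n₁) * a = 0 := congrArg Prod.fst (f.injective hx)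
  have h2 : IsUnit (n₂ : ZMod n₁) := (ZMod.isUnit_iff_coprime _ _).mpr h.D.2.2.1.symm
  rw [h2.mul_right_eq_zero] at h1
  exact ⟨b, by rw [h1]⟩

end

/-- uniqueness of coordinates for equal `n₁`, `n₂` -/
theorem FF.uniq {n₁ n₂ : ℕ} {H : Type} [Group H] {S : Perm H} {χ₁ : H →* (ZMod n₁)ˣ}
    {χ₂ : H →* (ZMod n₂)ˣ} {w₁ w₂ : ℕ} {C : Type} [Group C] {K : Perm C}
    {f : ZMod n₁ × H × ZMod n₂ ≃ C} {α : MulAut C} {β : MulAut H} {pr : C →* H}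
    {H' : Type} [Group H'] {S' : Perm H'} {χ₁' : H' →* (ZMod n₁)ˣ}
    {χ₂' : H' →* (ZMod n₂)ˣ} {w₁' w₂' : ℕ}
    {f' : ZMod n₁ × H' × ZMod n₂ ≃ C} {β' : MulAut H'} {pr' : C →* H'}
    (h : FF S χ₁ χ₂ w₁ w₂ C K f α β pr) (h' : FF S' χ₁' χ₂' w₁' w₂' C K f' α β' pr') :
    (w₁ : ZMod n₁) = w₁' ∧ (w₂ : ZMod n₂) = w₂' ∧ ∃ θ : H ≃* H', (∀ x, θ (S x) = S' (θ x)) ∧
      (∀ x, χ₁ x = χ₁' (θ x)) ∧ (∀ x, χ₂ x = χ₂' (θ x)) := by
  have : NeZero n₁ := ⟨h.pos₁.ne'⟩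
  have : NeZero n₂ := ⟨h.pos₂.ne'⟩
  have hker : ∀ x, pr x = 1 ↔ pr' x = 1 := fun x => by rw [h.ker_iff, h'.ker_iff]
  -- the isomorphism
  let F : H →* H' :=
    { toFun := fun g => pr' (f (0, g, 0))
      map_one' := by rw [h.one, map_one]
      map_mul' := by
        intro x y
        rw [← map_mul, h.mul, mul_zero, mul_zero, add_zero, add_zero] }
  have hF : ∀ x, F (pr x) = pr' x := by
    intro x
    have h1 : pr (f (0, pr x, 0) * x⁻¹) = 1 := by rw [map_mul, h.prf, map_inv, mul_inv_cancel]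
    rw [hker, map_mul, map_inv, mul_inv_eq_one] at h1
    exact h1
  have hprs : Function.Surjective pr := fun g => ⟨f (0, g, 0), h.prf _ _ _⟩
  have hprs' : Function.Surjective pr' := fun g => ⟨f' (0, g, 0), h'.prf _ _ _⟩
  have hFbij : Function.Bijective F := by
    constructor
    · rw [injective_iff_map_eq_one]
      intro g hg
      obtain ⟨x, rfl⟩ := hprs g
      rw [hF, ← hker] at hg
      exact hg
    · intro g
      obtain ⟨x, rfl⟩ := hprs' g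
      exact ⟨pr x, hF x⟩
  have h11 : (f (1, 1, 0)) ^ n₁ = 1 := by
    rw [h.pow, mul_zero, ZMod.natCast_self, zero_mul, h.one]
  have h12 : (f (0, 1, 1)) ^ n₂ = 1 := by
    rw [h.pow, mul_zero, ZMod.natCast_self, zero_mul, h.one]
  obtain ⟨a, ha⟩ := h'.mem₁ h11
  obtain ⟨b, hb⟩ := h'.mem₂ h12
  have scal₁ : ∀ c : ZMod n₁, f (c, 1, 0) = f' (c * a, 1, 0) := by
    intro c
    have h1 := h.pow c.val 1 0
    rw [ha, h'.pow, ZMod.natCast_zmod_val, mul_zero, mul_one] at h1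
    exact h1.symm
  have scal₂ : ∀ c : ZMod n₂, f (0, 1, c) = f' (0, 1, c * b) := by
    intro c
    have h1 := h.pow c.val 0 1
    rw [hb, h'.pow, ZMod.natCast_zmod_val, mul_zero, mul_one] at h1
    exact h1.symm
  have canc₁ : ∀ c c' : ZMod n₁, c * a = c' * a → c = c' := by
    intro c c' hcc
    have h1 := scal₁ c
    rw [hcc, ← scal₁] at h1
    exact congrArg Prod.fst (f.injective h1)
  have canc₂ : ∀ c c' : ZMod n₂, c * b = c' * b → c = c' := by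
    intro c c' hcc
    have h1 := scal₂ c
    rw [hcc, ← scal₂] at h1
    exact congrArg (fun x => x.2.2) (f.injective h1)
  have hFS : ∀ x, F (S x) = S' (F x) := by
    intro x
    obtain ⟨x, rfl⟩ := hprs x
    rw [← h.prK, hF, hF, h'.prK]
  have hχ₁ : ∀ x, χ₁ x = χ₁' (F x) := by
    intro x
    obtain ⟨x, rfl⟩ := hprs x
    rw [hF]
    have h1 := h.c₁ x 1
    rw [mul_one, ha, h'.c₁, scal₁] at h1
    exact (Units.ext (canc₁ _ _ (congrArg Prod.fst (f'.injective h1)))).symm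
  have hχ₂ : ∀ x, χ₂ x = χ₂' (F x) := by
    intro x
    obtain ⟨x, rfl⟩ := hprs x
    rw [hF]
    have h1 := h.c₂ x 1
    rw [mul_one, hb, h'.c₂, scal₂] at h1
    exact (Units.ext (canc₂ _ _ (congrArg (fun x => x.2.2) (f'.injective h1)))).symm
  refine ⟨?_, ?_, MulEquiv.ofBijective F hFbij, hFS, hχ₁, hχ₂⟩
  · have h1 := h.α₁ 1
    rw [ha, h'.α₁, scal₁] at h1
    have h2 := congrArg Prod.fst (f'.injective h1)
    have h3 : ((((χ₁' (S' 1))⁻¹ : (ZMod n₁)ˣ) : ZMod n₁) * (w₁' : ZMod n₁)) * a =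
      ((((χ₁ (S 1))⁻¹ : (ZMod n₁)ˣ) : ZMod n₁) * (w₁ : ZMod n₁) * 1) * a := h2
    have h4 := canc₁ _ _ h3
    have h5 : χ₁ (S 1) = χ₁' (S' 1) := by rw [hχ₁, hFS, map_one]
    rw [h5, mul_one] at h4
    exact ((Units.mul_right_inj _).mp h4).symm
  · have h1 := h.α₂ 1
    rw [hb, h'.α₂, scal₂] at h1
    have h2 : (w₂' : ZMod n₂) * b = (w₂ : ZMod n₂) * 1 * b :=
      congrArg (fun x => x.2.2) (f'.injective h1)
    have h4 := canc₂ _ _ h2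
    rw [mul_one] at h4
    exact h4.symm

/-- Equivalence of full pairs. -/
theorem full_equiv {n₁ n₂ : ℕ} {H : Type} [Group H] {S : Perm H} {χ₁ : H →* (ZMod n₁)ˣ}
    {χ₂ : H →* (ZMod n₂)ˣ} {w₁ w₂ : ℕ} {C : Type} [Group C] {K : Perm C}
    {f : ZMod n₁ × H × ZMod n₂ ≃ C}
    {n₁' n₂' : ℕ} {H' : Type} [Group H'] {S' : Perm H'} {χ₁' : H' →* (ZMod n₁')ˣ}
    {χ₂' : H' →* (ZMod n₂')ˣ} {w₁' w₂' : ℕ} {C' : Type} [Group C'] {K' : Perm C'}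
    {f' : ZMod n₁' × H' × ZMod n₂' ≃ C'}
    (hD : FullDatum n₁ n₂ H S χ₁ χ₂ w₁ w₂) (hC : FullCoord S χ₁ χ₂ w₁ w₂ C K f)
    (hD' : FullDatum n₁' n₂' H' S' χ₁' χ₂' w₁' w₂')
    (hC' : FullCoord S' χ₁' χ₂' w₁' w₂' C' K' f') :
    (∃ φ : C ≃* C', ∀ x, φ (K x) = K' (φ x)) ↔
      n₁ = n₁' ∧ n₂ = n₂' ∧ w₁ ≡ w₁' [MOD n₁] ∧ w₂ ≡ w₂' [MOD n₂] ∧
      ∃ θ : H ≃* H', (∀ x, θ (S x) = S' (θ x)) ∧
        (∀ x, (χ₁ x : ZMod n₁).val = (χ₁' (θ x) : ZMod n₁').val) ∧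
        (∀ x, (χ₂ x : ZMod n₂).val = (χ₂' (θ x) : ZMod n₂').val) := by
  constructor
  · rintro ⟨φ, hφ⟩
    have hC2 : FullCoord S' χ₁' χ₂' w₁' w₂' C K (f'.trans φ.symm.toEquiv) := by
      refine ⟨?_, ?_⟩
      · intro x₁ g x₂ y₁ g' y₂
        show φ.symm (f' _) * φ.symm (f' _) = φ.symm (f' _)
        rw [← map_mul, hC'.1]
      · intro x₁ g x₂
        show K (φ.symm (f' _)) = φ.symm (f' _)
        apply φ.injective
        rw [hφ, MulEquiv.apply_symm_apply, MulEquiv.apply_symm_apply, hC'.2]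
    obtain ⟨α, β, pr, h⟩ := exists_ff hD hC
    obtain ⟨α', β', pr', h'⟩ := exists_ff hD' hC2
    have hαα : α' = α := h'.aff.unique h.aff
    subst hαα
    obtain ⟨rfl, rfl⟩ := h.n_eq h'
    obtain ⟨hw₁, hw₂, θ, hθ, h1, h2⟩ := h.uniq h'
    refine ⟨rfl, rfl, (ZMod.natCast_eq_natCast_iff _ _ _).mp hw₁,
      (ZMod.natCast_eq_natCast_iff _ _ _).mp hw₂, θ, hθ, fun x => by rw [h1], fun x => by rw [h2]⟩
  · rintro ⟨rfl, rfl, hw₁, hw₂, θ, hθ, h1, h2⟩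
    obtain ⟨hn₁, hn₂, -⟩ := fullDatum_pos hD
    have : NeZero n₁ := ⟨hn₁.ne'⟩
    have : NeZero n₂ := ⟨hn₂.ne'⟩
    have h1' : ∀ x, χ₁ x = χ₁' (θ x) := fun x => Units.ext (ZMod.val_injective _ (h1 x))
    have h2' : ∀ x, χ₂ x = χ₂' (θ x) := fun x => Units.ext (ZMod.val_injective _ (h2 x))
    have hw₁' := (ZMod.natCast_eq_natCast_iff _ _ _).mpr hw₁
    have hw₂' := (ZMod.natCast_eq_natCast_iff _ _ _).mpr hw₂
    let F : C ≃ C' := (f.symm.trans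
      (Equiv.prodCongr (Equiv.refl _) (Equiv.prodCongr θ.toEquiv (Equiv.refl _)))).trans f'
    have hF : ∀ x g y, F (f (x, g, y)) = f' (x, θ g, y) := by
      intro x g y
      show f' (Equiv.prodCongr (Equiv.refl _) (Equiv.prodCongr θ.toEquiv (Equiv.refl _))
        (f.symm (f (x, g, y)))) = _
      rw [Equiv.symm_apply_apply]; rfl
    refine ⟨⟨F, ?_⟩, ?_⟩
    · intro x y
      obtain ⟨⟨x₁, g, x₂⟩, rfl⟩ := f.surjective x
      obtain ⟨⟨y₁, g', y₂⟩, rfl⟩ := f.surjective y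
      show F _ = F _ * F _
      rw [hC.1, hF, hF, hF, hC'.1, h1', h2', map_mul]
    · intro x
      obtain ⟨⟨x₁, g, x₂⟩, rfl⟩ := f.surjective x
      show F _ = K' (F _)
      rw [hC.2, hF, hF, hC'.2, hθ, hw₁', hw₂']

end H67
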