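import Mathlib
import Pool.Agent.H67.Defs

namespace H67

open Equiv

/-- comparison of two coordinate systems -/
theorem split_coord {m N : ℕ} (hm : Odd m) {H D : Type} [Group H] [Group D]
    (e e' : Multiplicative (ZMod m) × D ≃* H) (hN : ∀ d : D, d ^ (2 ^ N) = 1) {d₀ d₀' : D}
    (h0 : e (Multiplicative.ofAdd 1, d₀) = e' (Multiplicative.ofAdd 1, d₀')) :
    (∀ x : ZMod m, e (Multiplicative.ofAdd x, 1) = e' (Multiplicative.ofAdd x, 1)) ∧
    ∀ (x x' : ZMod m) (d d' : D),
      e (Multiplicative.ofAdd x, d) = e' (Multiplicative.ofAdd x', d') →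
      x = x' ∧ e (1, d) = e' (1, d') := by
  have : NeZero m := ⟨hm.pos.ne'⟩
  have hu : IsUnit ((2 ^ N : ℕ) : ZMod m) := by
    rw [ZMod.isUnit_iff_coprime]
    exact Nat.Coprime.pow_left _ (Nat.coprime_two_left.mpr hm)
  have hpow : ∀ (e : Multiplicative (ZMod m) × D ≃* H) (x : ZMod m) (d : D),
      (e (Multiplicative.ofAdd x, d)) ^ (2 ^ N) =
        e (Multiplicative.ofAdd (((2 ^ N : ℕ) : ZMod m) * x), 1) := by
    intro e x d
    rw [← map_pow, Prod.pow_mk, hN, ← ofAdd_nsmul, nsmul_eq_mul]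
  have h1 : ∀ x : ZMod m, e (Multiplicative.ofAdd x, 1) = e' (Multiplicative.ofAdd x, 1) := by
    intro x
    obtain ⟨c, hc⟩ := hu
    have h2 : (e (Multiplicative.ofAdd 1, d₀)) ^ (2 ^ N) =
      (e' (Multiplicative.ofAdd 1, d₀')) ^ (2 ^ N) := by rw [h0]
    rw [hpow, hpow, mul_one] at h2
    have h3 := congrArg (fun y => y ^ ((((c⁻¹ : (ZMod m)ˣ) : ZMod m) * x).val)) h2
    simp only [← map_pow, Prod.pow_mk, one_pow, ← ofAdd_nsmul, nsmul_eq_mul,
      ZMod.natCast_zmod_val] at h3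
    have h4 : ((c⁻¹ : (ZMod m)ˣ) : ZMod m) * x * ((2 ^ N : ℕ) : ZMod m) = x := by
      rw [← hc, mul_right_comm, Units.inv_mul, one_mul]
    rw [h4] at h3
    exact h3
  refine ⟨h1, ?_⟩
  intro x x' d d' hxx
  have h2 : (e (Multiplicative.ofAdd x, d)) ^ (2 ^ N) =
      (e' (Multiplicative.ofAdd x', d')) ^ (2 ^ N) := by rw [hxx]
  rw [hpow, hpow, ← h1] at h2
  have h3 := congrArg Prod.fst (e.injective h2)
  have h4 := hu.mul_left_cancel (Multiplicative.ofAdd.injective h3)
  refine ⟨h4, ?_⟩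
  subst h4
  have h5 : (((1 : Multiplicative (ZMod m)), d) : Multiplicative (ZMod m) × D) =
    (Multiplicative.ofAdd x, d) * (Multiplicative.ofAdd x, 1)⁻¹ := by
    ext <;> simp
  have h6 : (((1 : Multiplicative (ZMod m)), d') : Multiplicative (ZMod m) × D) =
    (Multiplicative.ofAdd x, d') * (Multiplicative.ofAdd x, 1)⁻¹ := by
    ext <;> simp
  rw [h5, h6, map_mul, map_mul, hxx, map_inv, map_inv, h1]

theorem two_pow_odd {k k' m m' : ℕ} (hm : Odd m) (hm' : Odd m')
    (h : m * 2 ^ k = m' * 2 ^ k') : m = m' ∧ k = k' := by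
  have c1 : Nat.Coprime m (2 ^ k') := Nat.Coprime.pow_right _ (Nat.coprime_two_right.mpr hm)
  have c2 : Nat.Coprime m' (2 ^ k) := Nat.Coprime.pow_right _ (Nat.coprime_two_right.mpr hm')
  have h1 : m ∣ m' := c1.dvd_of_dvd_mul_right (by rw [← h]; exact dvd_mul_right _ _)
  have h2 : m' ∣ m := c2.dvd_of_dvd_mul_right (by rw [h]; exact dvd_mul_right _ _)
  have h3 := Nat.dvd_antisymm h1 h2
  subst h3
  have h4 := Nat.eq_of_mul_eq_mul_left hm.pos h
  exact ⟨rfl, Nat.pow_right_injective le_rfl h4⟩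

theorem modEq_of_cast {n a b : ℕ} (h : (a : ZMod n) = b) : a ≡ b [MOD n] :=
  (ZMod.natCast_eq_natCast_iff _ _ _).mp h

theorem cast_of_modEq {n a b : ℕ} (h : a ≡ b [MOD n]) : (a : ZMod n) = b :=
  (ZMod.natCast_eq_natCast_iff _ _ _).mpr h

section

variable {H : Type} [Group H] {S : Perm H} {H' : Type} [Group H'] {S' : Perm H'}

theorem cyc_equiv {m w m' w' : ℕ} {e : Multiplicative (ZMod m) ≃* H}
    {e' : Multiplicative (ZMod m') ≃* H'} (h : CycCoord m w H S e) (h' : CycCoord m' w' H' S' e') :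
    (∃ φ : H ≃* H', ∀ x, φ (S x) = S' (φ x)) ↔ m = m' ∧ w ≡ w' [MOD m] := by
  obtain ⟨hm, hw, h4, hS⟩ := h
  obtain ⟨hm', hw', h4', hS'⟩ := h'
  have : NeZero m := ⟨hm.ne'⟩
  have hS1 : S 1 = e (Multiplicative.ofAdd 1) := by
    have := hS 0
    rwa [ofAdd_zero, map_one, mul_zero, zero_add] at this
  have hS1' : S' 1 = e' (Multiplicative.ofAdd 1) := by
    have := hS' 0
    rwa [ofAdd_zero, map_one, mul_zero, zero_add] at this
  constructor
  · rintro ⟨φ, hφ⟩
    have h1 : m = m' := by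
      have := Nat.card_congr ((e.trans φ).trans e'.symm).toEquiv
      rwa [Nat.card_congr Multiplicative.toAdd, Nat.card_congr Multiplicative.toAdd,
        Nat.card_zmod, Nat.card_zmod] at this
    subst h1
    refine ⟨rfl, ?_⟩
    have h2 : φ (e (Multiplicative.ofAdd 1)) = e' (Multiplicative.ofAdd 1) := by
      rw [← hS1, hφ, map_one, hS1']
    have h3 : ∀ x : ZMod m, φ (e (Multiplicative.ofAdd x)) = e' (Multiplicative.ofAdd x) := by
      intro x
      have h5 := congrArg (fun y => y ^ x.val) h2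
      simp only [← map_pow, ← ofAdd_nsmul, nsmul_eq_mul, mul_one, ZMod.natCast_zmod_val] at h5
      exact h5
    have h5 := hS 1
    have h6 := congrArg φ h5
    rw [hφ, h3, h3, hS'] at h6
    have h7 := Multiplicative.ofAdd.injective (e'.injective h6)
    rw [mul_one, mul_one] at h7
    exact (modEq_of_cast (add_right_cancel h7)).symm
  · rintro ⟨rfl, hww⟩
    refine ⟨e.symm.trans e', fun x => ?_⟩
    obtain ⟨x, rfl⟩ := e.surjective x
    obtain ⟨x, rfl⟩ := Multiplicative.ofAdd.surjective x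
    show e' (e.symm (S (e _))) = S' (e' (e.symm (e _)))
    rw [hS, MulEquiv.symm_apply_apply, MulEquiv.symm_apply_apply, hS', cast_of_modEq hww]

theorem dih_equiv {m w k v m' w' k' v' : ℕ}
    {e : Multiplicative (ZMod m) × DihedralGroup (2 ^ k) ≃* H}
    {e' : Multiplicative (ZMod m') × DihedralGroup (2 ^ k') ≃* H'}
    (h : DihCoord m w k v H S e) (h' : DihCoord m' w' k' v' H' S' e') :
    (∃ φ : H ≃* H', ∀ x, φ (S x) = S' (φ x)) ↔
      m = m' ∧ w ≡ w' [MOD m] ∧ k = k' ∧ v ≡ v' [MOD 2 ^ k] := by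
  obtain ⟨hm, hw, hk, hv, hS1, hS2⟩ := h
  obtain ⟨hm', hw', hk', hv', hS1', hS2'⟩ := h'
  have : NeZero m := ⟨hm.pos.ne'⟩
  constructor
  · rintro ⟨φ, hφ⟩
    have hmk : m = m' ∧ k + 1 = k' + 1 := by
      have h1 := Nat.card_congr ((e.trans φ).trans e'.symm).toEquiv
      rw [Nat.card_prod, Nat.card_prod, Nat.card_congr Multiplicative.toAdd,
        Nat.card_congr Multiplicative.toAdd, Nat.card_zmod, Nat.card_zmod,
        DihedralGroup.nat_card, DihedralGroup.nat_card, ← pow_succ', ← pow_succ'] at h1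
      exact two_pow_odd hm hm' h1
    obtain ⟨rfl, hkk⟩ := hmk
    obtain rfl : k = k' := by omega
    have : NeZero (2 ^ k) := ⟨by positivity⟩
    have hN : ∀ d : DihedralGroup (2 ^ k), d ^ (2 ^ (k + 1)) = 1 := by
      intro d
      rw [pow_succ', ← DihedralGroup.nat_card]; exact pow_card_eq_one'
    have eS1 : S 1 = e (Multiplicative.ofAdd 1, .sr 0) := by
      have := hS1 0 0
      rw [ofAdd_zero, DihedralGroup.r_zero, ← Prod.one_eq_mk, map_one, mul_zero, mul_zero,
        zero_add] at this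
      exact this
    have eS1' : S' 1 = e' (Multiplicative.ofAdd 1, .sr 0) := by
      have := hS1' 0 0
      rw [ofAdd_zero, DihedralGroup.r_zero, ← Prod.one_eq_mk, map_one, mul_zero, mul_zero,
        zero_add] at this
      exact this
    have h0 : (e.trans φ) (Multiplicative.ofAdd 1, .sr 0) = e' (Multiplicative.ofAdd 1, .sr 0) := by
      show φ (e _) = _
      rw [← eS1, hφ, map_one, eS1']
    obtain ⟨g1, g2⟩ := split_coord hm (e.trans φ) e' hN h0
    have h3 : (e.trans φ) (Multiplicative.ofAdd ((w : ZMod m) * 1 + 1), .r (v * 0 + 1)) =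
        e' (Multiplicative.ofAdd ((w' : ZMod m) * 1 + 1), .r (v' * 0 + 1)) := by
      show φ (e _) = _
      rw [← hS2, hφ]
      have : φ (e (Multiplicative.ofAdd 1, .sr 0)) = e' (Multiplicative.ofAdd 1, .sr 0) := h0
      rw [this, hS2']
    obtain ⟨h5, h6⟩ := g2 _ _ _ _ h3
    obtain ⟨-, h7⟩ := g2 _ _ _ _ h0
    rw [mul_zero, mul_zero, zero_add] at h6
    -- agreement on `sr v`
    have h8 : (e.trans φ) (1, .sr v) = e' (1, .sr v) := by
      have h9 : ((1, .sr v) : Multiplicative (ZMod m) × DihedralGroup (2 ^ k)) =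
        (1, .sr 0) * (1, .r 1) ^ v := by
        rw [Prod.pow_mk, DihedralGroup.r_one_pow, Prod.mk_mul_mk, DihedralGroup.sr_mul_r, zero_add,
          one_pow, one_mul]
      rw [h9, map_mul, map_mul, map_pow, map_pow, h6, h7]
    have h10 : (e.trans φ) (Multiplicative.ofAdd 1, .sr v) =
        e' (Multiplicative.ofAdd 1, .sr v') := by
      show φ (e _) = _
      have h11 := hS1 0 1
      rw [mul_zero, zero_add, mul_one] at h11
      have h12 := hS1' 0 1
      rw [mul_zero, zero_add, mul_one] at h12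
      rw [← h11, ← h12, hφ]
      congr 1
    have h13 := (g2 _ _ _ _ h10).2
    rw [h8] at h13
    have h14 := congrArg Prod.snd (e'.injective h13)
    injection h14 with h15
    rw [mul_one, mul_one] at h5
    exact ⟨rfl, modEq_of_cast (add_right_cancel h5), rfl, modEq_of_cast h15⟩
  · rintro ⟨rfl, hww, rfl, hvv⟩
    refine ⟨e.symm.trans e', fun x => ?_⟩
    obtain ⟨⟨x, d⟩, rfl⟩ := e.surjective x
    obtain ⟨x, rfl⟩ := Multiplicative.ofAdd.surjective x
    show e' (e.symm (S (e _))) = S' (e' (e.symm (e _)))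
    rcases d with i | i
    · rw [hS1, MulEquiv.symm_apply_apply, MulEquiv.symm_apply_apply, hS1', cast_of_modEq hww,
        cast_of_modEq hvv]
    · rw [hS2, MulEquiv.symm_apply_apply, MulEquiv.symm_apply_apply, hS2', cast_of_modEq hww,
        cast_of_modEq hvv]

theorem quat_equiv {m w k v m' w' k' v' : ℕ}
    {e : Multiplicative (ZMod m) × QuaternionGroup (2 ^ k) ≃* H}
    {e' : Multiplicative (ZMod m') × QuaternionGroup (2 ^ k') ≃* H'}
    (h : QuatCoord m w k v H S e) (h' : QuatCoord m' w' k' v' H' S' e') :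
    (∃ φ : H ≃* H', ∀ x, φ (S x) = S' (φ x)) ↔
      m = m' ∧ w ≡ w' [MOD m] ∧ k = k' ∧ v ≡ v' [MOD 2 ^ (k + 1)] := by
  obtain ⟨hm, hw, hk, hv, hS1, hS2⟩ := h
  obtain ⟨hm', hw', hk', hv', hS1', hS2'⟩ := h'
  have : NeZero m := ⟨hm.pos.ne'⟩
  have hk0 : NeZero (2 ^ k) := ⟨by positivity⟩
  have hk0' : NeZero (2 ^ k') := ⟨by positivity⟩
  have hcq : ∀ k : ℕ, Nat.card (QuaternionGroup (2 ^ k)) = 2 ^ (k + 2) := by
    intro k
    have : NeZero (2 ^ k) := ⟨by positivity⟩
    rw [Nat.card_eq_fintype_card, QuaternionGroup.card]; ring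
  rw [pow_succ']
  constructor
  · rintro ⟨φ, hφ⟩
    have hmk : m = m' ∧ k + 2 = k' + 2 := by
      have h1 := Nat.card_congr ((e.trans φ).trans e'.symm).toEquiv
      rw [Nat.card_prod, Nat.card_prod, Nat.card_congr Multiplicative.toAdd,
        Nat.card_congr Multiplicative.toAdd, Nat.card_zmod, Nat.card_zmod, hcq, hcq] at h1
      exact two_pow_odd hm hm' h1
    obtain ⟨rfl, hkk⟩ := hmk
    obtain rfl : k = k' := by omega
    have hN : ∀ d : QuaternionGroup (2 ^ k), d ^ (2 ^ (k + 2)) = 1 := by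
      intro d
      rw [← hcq]; exact pow_card_eq_one'
    have eS1 : S 1 = e (Multiplicative.ofAdd 1, .xa 0) := by
      have := hS1 0 0
      rw [ofAdd_zero, QuaternionGroup.a_zero, ← Prod.one_eq_mk, map_one, mul_zero, mul_zero,
        zero_add] at this
      exact this
    have eS1' : S' 1 = e' (Multiplicative.ofAdd 1, .xa 0) := by
      have := hS1' 0 0
      rw [ofAdd_zero, QuaternionGroup.a_zero, ← Prod.one_eq_mk, map_one, mul_zero, mul_zero,
        zero_add] at this
      exact this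
    have h0 : (e.trans φ) (Multiplicative.ofAdd 1, .xa 0) = e' (Multiplicative.ofAdd 1, .xa 0) := by
      show φ (e _) = _
      rw [← eS1, hφ, map_one, eS1']
    obtain ⟨g1, g2⟩ := split_coord hm (e.trans φ) e' hN h0
    have h3 : (e.trans φ) (Multiplicative.ofAdd ((w : ZMod m) * 1 + 1), .a (v * 0 + 1)) =
        e' (Multiplicative.ofAdd ((w' : ZMod m) * 1 + 1), .a (v' * 0 + 1)) := by
      show φ (e _) = _
      rw [← hS2, hφ]
      have : φ (e (Multiplicative.ofAdd 1, .xa 0)) = e' (Multiplicative.ofAdd 1, .xa 0) := h0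
      rw [this, hS2']
    obtain ⟨h5, h6⟩ := g2 _ _ _ _ h3
    obtain ⟨-, h7⟩ := g2 _ _ _ _ h0
    rw [mul_zero, mul_zero, zero_add] at h6
    have h8 : (e.trans φ) (1, .xa v) = e' (1, .xa v) := by
      have h9 : ((1, .xa v) : Multiplicative (ZMod m) × QuaternionGroup (2 ^ k)) =
        (1, .xa 0) * (1, .a 1) ^ v := by
        rw [Prod.pow_mk, QuaternionGroup.a_one_pow, Prod.mk_mul_mk, QuaternionGroup.xa_mul_a,
          zero_add, one_pow, one_mul]
      rw [h9, map_mul, map_mul, map_pow, map_pow, h6, h7]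
    have h10 : (e.trans φ) (Multiplicative.ofAdd 1, .xa v) =
        e' (Multiplicative.ofAdd 1, .xa v') := by
      show φ (e _) = _
      have h11 := hS1 0 1
      rw [mul_zero, zero_add, mul_one] at h11
      have h12 := hS1' 0 1
      rw [mul_zero, zero_add, mul_one] at h12
      rw [← h11, ← h12, hφ]
      congr 1
    have h13 := (g2 _ _ _ _ h10).2
    rw [h8] at h13
    have h14 := congrArg Prod.snd (e'.injective h13)
    injection h14 with h15
    rw [mul_one, mul_one] at h5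
    exact ⟨rfl, modEq_of_cast (add_right_cancel h5), rfl, modEq_of_cast h15⟩
  · rintro ⟨rfl, hww, rfl, hvv⟩
    refine ⟨e.symm.trans e', fun x => ?_⟩
    obtain ⟨⟨x, d⟩, rfl⟩ := e.surjective x
    obtain ⟨x, rfl⟩ := Multiplicative.ofAdd.surjective x
    show e' (e.symm (S (e _))) = S' (e' (e.symm (e _)))
    rcases d with i | i
    · rw [hS1, MulEquiv.symm_apply_apply, MulEquiv.symm_apply_apply, hS1', cast_of_modEq hww,
        cast_of_modEq hvv]
    · rw [hS2, MulEquiv.symm_apply_apply, MulEquiv.symm_apply_apply, hS2', cast_of_modEq hww,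
        cast_of_modEq hvv]

/-- at most one involution -/
def InvU (H : Type) [Group H] : Prop := ∀ x y : H, x * x = 1 → x ≠ 1 → y * y = 1 → y ≠ 1 → x = y

theorem InvU.congr {H H' : Type} [Group H] [Group H'] (φ : H ≃* H') (h : InvU H) : InvU H' := by
  intro x y hx hx1 hy hy1
  obtain ⟨x, rfl⟩ := φ.surjective x
  obtain ⟨y, rfl⟩ := φ.surjective y
  congr 1
  apply h
  · apply φ.injective; rw [map_mul, hx, map_one]
  · rintro rfl; exact hx1 (map_one φ)
  · apply φ.injective; rw [map_mul, hy, map_one]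
  · rintro rfl; exact hy1 (map_one φ)

theorem zmod_two_mul {m : ℕ} (hm : 0 < m) {x y : ZMod m} (hx : x + x = 0) (hx0 : x ≠ 0)
    (hy : y + y = 0) (hy0 : y ≠ 0) : x = y := by
  have : NeZero m := ⟨hm.ne'⟩
  have key : ∀ x : ZMod m, x + x = 0 → x ≠ 0 → 2 * x.val = m := by
    intro x hx hx0
    have h1 : ((x.val + x.val : ℕ) : ZMod m) = 0 := by
      push_cast; rw [ZMod.natCast_zmod_val]; exact hx
    rw [ZMod.natCast_eq_zero_iff] at h1
    have h2 := ZMod.val_lt x
    have h3 : 0 < x.val := by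
      rw [Nat.pos_iff_ne_zero, ne_eq, ZMod.val_eq_zero]; exact hx0
    obtain ⟨c, hc⟩ := h1
    have h4 : c = 1 := by
      have h5 : c < 2 := by
        by_contra hcon
        have : m * 2 ≤ m * c := Nat.mul_le_mul_left _ (by omega)
        omega
      have h6 : 0 < c := by
        rcases Nat.eq_zero_or_pos c with h7 | h7
        · rw [h7, mul_zero] at hc; omega
        · exact h7
      omega
    rw [h4] at hc; omega
  apply ZMod.val_injective
  have h1 := key x hx hx0
  have h2 := key y hy hy0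
  omega

theorem cyc_invU {m w : ℕ} {e : Multiplicative (ZMod m) ≃* H} (h : CycCoord m w H S e) :
    InvU H := by
  apply InvU.congr e
  intro x y hx hx1 hy hy1
  obtain ⟨x, rfl⟩ := Multiplicative.ofAdd.surjective x
  obtain ⟨y, rfl⟩ := Multiplicative.ofAdd.surjective y
  congr 1
  apply zmod_two_mul h.1
  · exact Multiplicative.ofAdd.injective hx
  · rintro rfl; exact hx1 rfl
  · exact Multiplicative.ofAdd.injective hy
  · rintro rfl; exact hy1 rfl

theorem quat_invU {m w k v : ℕ} {e : Multiplicative (ZMod m) × QuaternionGroup (2 ^ k) ≃* H}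
    (h : QuatCoord m w k v H S e) : InvU H := by
  have hk0 : NeZero (2 ^ k) := ⟨by positivity⟩
  have hk1 : NeZero (2 * 2 ^ k) := ⟨by positivity⟩
  have hm := h.1
  apply InvU.congr e
  have key : ∀ x : Multiplicative (ZMod m) × QuaternionGroup (2 ^ k), x * x = 1 → x ≠ 1 →
      x.1 = 1 ∧ ∃ i : ZMod (2 * 2 ^ k), x.2 = .a i ∧ i + i = 0 ∧ i ≠ 0 := by
    rintro ⟨x, d⟩ hx hx1
    obtain ⟨x, rfl⟩ := Multiplicative.ofAdd.surjective x
    have h1 : x + x = 0 := Multiplicative.ofAdd.injective (congrArg Prod.fst hx)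
    have h2 : d * d = 1 := congrArg Prod.snd hx
    have h3 : x = 0 := by
      have hu : IsUnit ((2 : ℕ) : ZMod m) := by
        rw [ZMod.isUnit_iff_coprime]; exact Nat.coprime_two_left.mpr hm
      have h4 : ((2 : ℕ) : ZMod m) * x = 0 := by push_cast; rw [two_mul, h1]
      rwa [hu.mul_right_eq_zero] at h4
    subst h3
    refine ⟨rfl, ?_⟩
    rcases d with i | i
    · refine ⟨i, rfl, ?_, ?_⟩
      · rw [QuaternionGroup.a_mul_a] at h2
        have h4 : (QuaternionGroup.a (i + i) : QuaternionGroup (2 ^ k)) = .a 0 := h2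
        injection h4
      · rintro rfl; exact hx1 rfl
    · exfalso
      have h4 := QuaternionGroup.orderOf_xa i
      have h5 : orderOf (QuaternionGroup.xa i : QuaternionGroup (2 ^ k)) ∣ 2 :=
        orderOf_dvd_of_pow_eq_one (by rw [pow_two]; exact h2)
      rw [h4] at h5
      omega
  intro x y hx hx1 hy hy1
  obtain ⟨h1, i, h2, h3, h4⟩ := key x hx hx1
  obtain ⟨h1', i', h2', h3', h4'⟩ := key y hy hy1
  have : i = i' := zmod_two_mul (by positivity) h3 h4 h3' h4'
  ext
  · rw [h1, h1']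
  · rw [h2, h2', this]

theorem dih_not_invU {m w k v : ℕ} {e : Multiplicative (ZMod m) × DihedralGroup (2 ^ k) ≃* H}
    (h : DihCoord m w k v H S e) : ¬ InvU H := by
  intro hU
  have hk := h.2.2.1
  have h1 : ∀ i : ZMod (2 ^ k), e (1, .sr i) * e (1, .sr i) = 1 := by
    intro i
    rw [← map_mul, Prod.mk_mul_mk, DihedralGroup.sr_mul_sr, sub_self, one_mul]
    exact map_one e
  have h2 : ∀ i : ZMod (2 ^ k), e (1, .sr i) ≠ 1 := by
    intro i hi
    have h3 := (map_eq_one_iff e e.injective).mp hi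
    have h4 : (DihedralGroup.sr i : DihedralGroup (2 ^ k)) = .r 0 := congrArg Prod.snd h3
    cases h4
  have h3 := hU _ _ (h1 0) (h2 0) (h1 1) (h2 1)
  have h4 := congrArg Prod.snd (e.injective h3)
  injection h4 with h5
  have : Fact (1 < 2 ^ k) := ⟨Nat.one_lt_two_pow (by omega)⟩
  exact zero_ne_one h5

theorem cyc_not_dih {m w m' w' k' v' : ℕ} {e : Multiplicative (ZMod m) ≃* H}
    {e' : Multiplicative (ZMod m') × DihedralGroup (2 ^ k') ≃* H'}
    (h : CycCoord m w H S e) (h' : DihCoord m' w' k' v' H' S' e') :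
    ¬ ∃ φ : H ≃* H', ∀ x, φ (S x) = S' (φ x) := by
  rintro ⟨φ, -⟩
  exact dih_not_invU h' ((cyc_invU h).congr φ)

theorem quat_not_dih {m w k v m' w' k' v' : ℕ}
    {e : Multiplicative (ZMod m) × QuaternionGroup (2 ^ k) ≃* H}
    {e' : Multiplicative (ZMod m') × DihedralGroup (2 ^ k') ≃* H'}
    (h : QuatCoord m w k v H S e) (h' : DihCoord m' w' k' v' H' S' e') :
    ¬ ∃ φ : H ≃* H', ∀ x, φ (S x) = S' (φ x) := by
  rintro ⟨φ, -⟩
  exact dih_not_invU h' ((quat_invU h).congr φ)

theorem cyc_not_quat {m w m' w' k' v' : ℕ} {e : Multiplicative (ZMod m) ≃* H}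
    {e' : Multiplicative (ZMod m') × QuaternionGroup (2 ^ k') ≃* H'}
    (_ : CycCoord m w H S e) (h' : QuatCoord m' w' k' v' H' S' e') :
    ¬ ∃ φ : H ≃* H', ∀ x, φ (S x) = S' (φ x) := by
  rintro ⟨φ, -⟩
  have hk := h'.2.2.1
  have h1 : ∀ x y : H', x * y = y * x := by
    intro x y
    obtain ⟨x, rfl⟩ := (e.trans φ).surjective x
    obtain ⟨y, rfl⟩ := (e.trans φ).surjective y
    rw [← map_mul, ← map_mul, mul_comm]
  have h2 := h1 (e' (1, .a 1)) (e' (1, .xa 0))
  rw [← map_mul, ← map_mul, Prod.mk_mul_mk, Prod.mk_mul_mk, QuaternionGroup.a_mul_xa,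
    QuaternionGroup.xa_mul_a] at h2
  have h3 := congrArg Prod.snd (e'.injective h2)
  injection h3 with h4
  rw [zero_sub, zero_add] at h4
  have h5 : ((2 : ℕ) : ZMod (2 * 2 ^ k')) = 0 := by
    push_cast
    linear_combination -h4
  rw [ZMod.natCast_eq_zero_iff] at h5
  have h6 := Nat.le_of_dvd (by norm_num) h5
  have h7 : 2 ≤ 2 ^ k' := by
    calc 2 = 2 ^ 1 := rfl
      _ ≤ 2 ^ k' := Nat.pow_le_pow_right (by norm_num) hk
  omega

end

end H67
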