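import Mathlib
import Pool.Agent.H67.Conv4
import Pool.Agent.H67.Conv6
import Pool.Agent.H67.UQ8

namespace H67

open Equiv

theorem iso_of_range {P C C' : Type} [Group P] [Group C] [Group C'] (a : C →* P) (a' : C' →* P)
    (ha : Function.Injective a) (ha' : Function.Injective a')
    (h : ∀ x, (∃ c, a c = x) ↔ ∃ c', a' c' = x) : ∃ θ : C ≃* C', ∀ c, a c = a' (θ c) := by
  have h1 : a.range = a'.range := by
    ext x
    exact h x
  refine ⟨((MonoidHom.ofInjective ha).trans (MulEquiv.subgroupCongr h1)).trans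
    (MonoidHom.ofInjective ha').symm, fun c => ?_⟩
  have h2 : (MonoidHom.ofInjective ha') ((((MonoidHom.ofInjective ha).trans
    (MulEquiv.subgroupCongr h1)).trans (MonoidHom.ofInjective ha').symm) c) =
    (MulEquiv.subgroupCongr h1) (MonoidHom.ofInjective ha c) := by
    simp only [MulEquiv.trans_apply, MulEquiv.apply_symm_apply]
  have h3 := congrArg Subtype.val h2
  exact h3.symm

theorem amalgam_card {C : Type} [Group C] {K : Perm C} {z : C} {τ : Perm (QuaternionGroup 2)}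
    {P : Type} [Group P] {B : Perm P} {π : C × QuaternionGroup 2 →* P}
    (h : AmalgamDatum C K z τ) (hc : AmalgamCoord K z τ P B π) :
    Nat.card P = 4 * Nat.card C := by
  obtain ⟨hfull, h3, hz1, hzz, hzc, hKz, hτ, hτ3⟩ := h
  obtain ⟨hsurj, hker, hB⟩ := hc
  have hCfin := (full_of_isFull hfull).fin
  have h1 : Nat.card (C × QuaternionGroup 2) = Nat.card C * 8 := by
    rw [Nat.card_prod]
    congr 1
    rw [Nat.card_eq_fintype_card, QuaternionGroup.card]
  have h2 : Nat.card π.ker = 2 := by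
    have h3 : (π.ker : Set (C × QuaternionGroup 2)) = {1, (z, QuaternionGroup.a 2)} := by
      ext ⟨c, q⟩
      show π (c, q) = 1 ↔ _
      rw [hker]
      constructor
      · rintro (⟨rfl, rfl⟩ | ⟨rfl, rfl⟩)
        · left; rfl
        · right; rfl
      · rintro (h | h)
        · left
          exact ⟨congrArg Prod.fst h, congrArg Prod.snd h⟩
        · right
          have h' : (c, q) = (z, QuaternionGroup.a 2) := h
          exact ⟨congrArg Prod.fst h', congrArg Prod.snd h'⟩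
    have h4 : Nat.card π.ker = (π.ker : Set (C × QuaternionGroup 2)).ncard := rfl
    rw [h4, h3, Set.ncard_pair]
    intro h5
    exact hz1 (congrArg Prod.fst h5).symm
  have h3 := Subgroup.card_mul_index π.ker
  rw [Subgroup.index_ker, h1, h2] at h3
  have h4 : Nat.card π.range = Nat.card P := by
    rw [MonoidHom.range_eq_top.mpr hsurj]
    exact Nat.card_congr Subgroup.topEquiv.toEquiv
  rw [h4] at h3
  omega

/-- facts on an amalgam -/
structure AF {C : Type} [Group C] (K : Perm C) (z : C) (τ : Perm (QuaternionGroup 2))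
    (P : Type) [Group P] (B : Perm P) (π : C × QuaternionGroup 2 →* P) (δ : MulAut P)
    (ν : MulAut (QuaternionGroup 2)) (j : ℕ) : Prop where
  z1 : z ≠ 1
  zz : z * z = 1
  surj : Function.Surjective π
  ker : ∀ c q, π (c, q) = 1 ↔ (c = 1 ∧ q = 1) ∨ (c = z ∧ q = QuaternionGroup.a 2)
  mapB : ∀ c q, B (π (c, q)) = π (K c, τ q)
  powB : ∀ c q, (B ^ j) (π (c, q)) = π (c, τ q)
  lin : ∀ c q, δ (π (c, q)) = π (c, ν q)
  gen : ∀ q, ∃ r s, q = ν r * r⁻¹ * (ν s * s⁻¹)
  fixν : ∀ q, ν q = q → q = 1 ∨ q = .a 2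

theorem exists_af {C : Type} [Group C] {K : Perm C} {z : C} {τ : Perm (QuaternionGroup 2)}
    {P : Type} [Group P] {B : Perm P} {π : C × QuaternionGroup 2 →* P}
    (h : AmalgamDatum C K z τ) (hc : AmalgamCoord K z τ P B π) {β : MulAut P} (hβ : IsAff B β) :
    ∃ ν, AF K z τ P B π (β ^ (Nat.card C * Nat.card C)) ν (Nat.card C * Nat.card C) := by
  obtain ⟨hfull, h3, hz1, hzz, hzc, hKz, hτ, hτ3⟩ := h
  obtain ⟨hsurj, hker, hB⟩ := hc
  have hK := full_of_isFull hfull
  obtain ⟨ν, hν⟩ := isAffine_iff.mp hτ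
  have hBn : ∀ (n : ℕ) c q, (B ^ n) (π (c, q)) = π ((K ^ n) c, (τ ^ n) q) := by
    intro n
    induction n with
    | zero => intro c q; simp
    | succ n ih =>
      intro c q
      rw [pow_succ, Perm.mul_apply, hB, ih, pow_succ, pow_succ]; rfl
  have hKj : K ^ (Nat.card C * Nat.card C) = 1 := by
    rw [pow_mul, ← orderOf_full hK, pow_orderOf_eq_one, one_pow]
  have hτj : τ ^ (Nat.card C * Nat.card C) = τ := by
    have h1 : (Nat.card C * Nat.card C) % 3 = 1 := by
      have h2 : Nat.card C % 3 = 1 ∨ Nat.card C % 3 = 2 := by omega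
      rw [Nat.mul_mod]
      rcases h2 with h2 | h2 <;> rw [h2]
    rw [← pow_mod_orderOf, hτ3, h1, pow_one]
  have hτne : τ ≠ 1 := by
    rintro rfl
    rw [orderOf_one] at hτ3
    omega
  have hτ3' : τ ^ 3 = 1 := by rw [← hτ3, pow_orderOf_eq_one]
  obtain ⟨hν3, hν1⟩ := q8_lin hν hτ3' hτne
  obtain ⟨hgen, hfix⟩ := q8_order3 ν hν3 hν1
  have hBj : ∀ c q, (B ^ (Nat.card C * Nat.card C)) (π (c, q)) = π (c, τ q) := by
    intro c q
    rw [hBn, hKj, hτj]; rfl
  refine ⟨ν, hz1, hzz, hsurj, hker, hB, hBj, ?_, hgen, hfix⟩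
  intro c q
  have h1 : (1 : P) = π (1, 1) := by rw [← Prod.one_eq_mk, map_one]
  rw [(hβ.pow _).lin, hBj, h1, hBj, ← map_inv, ← map_mul]
  congr 1
  show ((1 : C)⁻¹ * c, (τ 1)⁻¹ * τ q) = _
  rw [hν.lin, inv_one, one_mul]

section

variable {C : Type} [Group C] {K : Perm C} {z : C} {τ : Perm (QuaternionGroup 2)}
    {P : Type} [Group P] {B : Perm P} {π : C × QuaternionGroup 2 →* P} {δ : MulAut P}
    {ν : MulAut (QuaternionGroup 2)} {j : ℕ}

theorem AF.injC (h : AF K z τ P B π δ ν j) {c c' : C} (hc : π (c, 1) = π (c', 1)) : c = c' := by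
  have h1 : π (c * c'⁻¹, 1) = 1 := by
    have h2 : ((c * c'⁻¹, 1) : C × QuaternionGroup 2) = (c, 1) * (c', 1)⁻¹ := by ext <;> simp
    rw [h2, map_mul, map_inv, hc, mul_inv_cancel]
  rcases (h.ker _ _).mp h1 with h2 | h2
  · exact mul_inv_eq_one.mp h2.1
  · exact absurd h2.2 (by decide)

theorem AF.injQ (h : AF K z τ P B π δ ν j) {q q' : QuaternionGroup 2}
    (hq : π (1, q) = π (1, q')) : q = q' := by
  have h1 : π (1, q * q'⁻¹) = 1 := by
    have h2 : ((1, q * q'⁻¹) : C × QuaternionGroup 2) = (1, q) * (1, q')⁻¹ := by ext <;> simp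
    rw [h2, map_mul, map_inv, hq, mul_inv_cancel]
  rcases (h.ker _ _).mp h1 with h2 | h2
  · exact mul_inv_eq_one.mp h2.2
  · exact absurd h2.1.symm h.z1

theorem AF.split (h : AF K z τ P B π δ ν j) (c : C) (q : QuaternionGroup 2) :
    π (c, q) = π (c, 1) * π (1, q) := by
  rw [← map_mul, Prod.mk_mul_mk, mul_one, one_mul]

theorem AF.a2 (h : AF K z τ P B π δ ν j) : π (1, .a 2) = π (z, 1) := by
  have h1 : π (z, .a 2) = 1 := (h.ker _ _).mpr (Or.inr ⟨rfl, rfl⟩)
  rw [h.split] at h1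
  have h2 : π (z, 1) * π (z, 1) = 1 := by
    rw [← map_mul, Prod.mk_mul_mk, h.zz, one_mul, ← Prod.one_eq_mk, map_one]
  exact mul_left_cancel (h1.trans h2.symm)

theorem AF.fix_iff (h : AF K z τ P B π δ ν j) (x : P) : (∃ c, π (c, 1) = x) ↔ δ x = x := by
  constructor
  · rintro ⟨c, rfl⟩
    rw [h.lin, map_one]
  · intro hx
    obtain ⟨⟨c, q⟩, rfl⟩ := h.surj x
    rw [h.lin, h.split, h.split c q] at hx
    have h1 := h.injQ (mul_left_cancel hx)
    rcases h.fixν q h1 with rfl | rfl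
    · exact ⟨c, rfl⟩
    · refine ⟨c * z, ?_⟩
      rw [h.split c, h.a2, ← map_mul, Prod.mk_mul_mk, one_mul]

theorem AF.im_iff (h : AF K z τ P B π δ ν j) (x : P) :
    (∃ q, π (1, q) = x) ↔ ∃ g g', x = δ g * g⁻¹ * (δ g' * g'⁻¹) := by
  have key : ∀ c q, δ (π (c, q)) * (π (c, q))⁻¹ = π (1, ν q * q⁻¹) := by
    intro c q
    rw [h.lin, ← map_inv, ← map_mul]
    congr 1
    ext <;> simp
  constructor
  · rintro ⟨q, rfl⟩
    obtain ⟨r, s, hrs⟩ := h.gen q
    refine ⟨π (1, r), π (1, s), ?_⟩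
    rw [key, key, ← map_mul, Prod.mk_mul_mk, ← hrs, one_mul]
  · rintro ⟨g, g', rfl⟩
    obtain ⟨⟨c, q⟩, rfl⟩ := h.surj g
    obtain ⟨⟨c', q'⟩, rfl⟩ := h.surj g'
    refine ⟨ν q * q⁻¹ * (ν q' * q'⁻¹), ?_⟩
    rw [key, key, ← map_mul, Prod.mk_mul_mk, one_mul]

end

/-- Equivalence of amalgams. -/
theorem amalgam_equiv {C : Type} [Group C] {K : Perm C} {z : C} {τ : Perm (QuaternionGroup 2)}
    {P : Type} [Group P] {B : Perm P} {π : C × QuaternionGroup 2 →* P}
    {C' : Type} [Group C'] {K' : Perm C'} {z' : C'} {τ' : Perm (QuaternionGroup 2)}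
    {P' : Type} [Group P'] {B' : Perm P'} {π' : C' × QuaternionGroup 2 →* P'}
    (h : AmalgamDatum C K z τ) (hc : AmalgamCoord K z τ P B π)
    (h' : AmalgamDatum C' K' z' τ') (hc' : AmalgamCoord K' z' τ' P' B' π') :
    (∃ φ : P ≃* P', ∀ x, φ (B x) = B' (φ x)) ↔
      (∃ θ : C ≃* C', (∀ x, θ (K x) = K' (θ x)) ∧ θ z = z') ∧
      ∃ μ : MulAut (QuaternionGroup 2), ∀ q, μ (τ q) = τ' (μ q) := by
  constructor
  · rintro ⟨φ, hφ⟩
    have hc2 : AmalgamCoord K' z' τ' P B (φ.symm.toMonoidHom.comp π') := by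
      refine ⟨φ.symm.surjective.comp hc'.1, ?_, ?_⟩
      · intro c q
        rw [← hc'.2.1 c q]
        show φ.symm (π' (c, q)) = 1 ↔ _
        exact map_eq_one_iff φ.symm φ.symm.injective
      · intro c q
        show B (φ.symm (π' (c, q))) = φ.symm (π' _)
        apply φ.injective
        rw [hφ, MulEquiv.apply_symm_apply, MulEquiv.apply_symm_apply, hc'.2.2]
    have hcard : Nat.card C = Nat.card C' := by
      have h1 := amalgam_card h hc
      have h2 := amalgam_card h' hc2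
      omega
    obtain ⟨n, -, ⟨β, hβ⟩, -⟩ := amalgam_facts ⟨C, _, K, z, τ, π, h, hc⟩
    obtain ⟨ν, hA⟩ := exists_af h hc hβ
    obtain ⟨ν', hA'⟩ := exists_af h' hc2 hβ
    rw [← hcard] at hA'
    generalize φ.symm.toMonoidHom.comp π' = ρ at hA'
    obtain ⟨θ, hθ⟩ := iso_of_range (π.comp (MonoidHom.inl C (QuaternionGroup 2)))
      (ρ.comp (MonoidHom.inl C' (QuaternionGroup 2))) (fun c c' hcc => hA.injC hcc)
      (fun c c' hcc => hA'.injC hcc) (fun x => (hA.fix_iff x).trans (hA'.fix_iff x).symm)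
    obtain ⟨μ, hμ⟩ := iso_of_range (π.comp (MonoidHom.inr C (QuaternionGroup 2)))
      (ρ.comp (MonoidHom.inr C' (QuaternionGroup 2))) (fun c c' hcc => hA.injQ hcc)
      (fun c c' hcc => hA'.injQ hcc) (fun x => (hA.im_iff x).trans (hA'.im_iff x).symm)
    have hθ' : ∀ c, π (c, 1) = ρ (θ c, 1) := hθ
    have hμ' : ∀ q, π (1, q) = ρ (1, μ q) := hμ
    have hboth : ∀ c q, π (c, q) = ρ (θ c, μ q) := by
      intro c q
      rw [hA.split, hA'.split, hθ', hμ']
    have hμτ : ∀ q, μ (τ q) = τ' (μ q) := by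
      intro q
      have h1 := hA.powB 1 q
      rw [hboth, hA'.powB, hboth, map_one] at h1
      exact (hA'.injQ h1).symm
    refine ⟨⟨θ, ?_, ?_⟩, μ, hμτ⟩
    · intro c
      have h1 := hA.mapB c 1
      rw [hboth, hA'.mapB, hboth, hμτ, hA'.split, hA'.split (θ (K c))] at h1
      exact (hA'.injC (mul_right_cancel h1)).symm
    · have h1 := hA.a2
      rw [hμ', hθ', q8_a2 μ, hA'.a2] at h1
      exact (hA'.injC h1).symm
  · rintro ⟨⟨θ, hθ, hz⟩, μ, hμ⟩
    let ρ : C × QuaternionGroup 2 →* P' := π'.comp (θ.prodCongr μ).toMonoidHom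
    have hρ : ∀ c q, ρ (c, q) = π' (θ c, μ q) := fun c q => rfl
    have hρs : Function.Surjective ρ := hc'.1.comp (θ.prodCongr μ).surjective
    have hker : π.ker = ρ.ker := by
      ext ⟨c, q⟩
      show π (c, q) = 1 ↔ ρ (c, q) = 1
      rw [hρ, hc.2.1, hc'.2.1, map_eq_one_iff θ θ.injective, map_eq_one_iff μ μ.injective, ← hz,
        θ.injective.eq_iff]
      have h1 : μ q = QuaternionGroup.a 2 ↔ q = QuaternionGroup.a 2 := by
        rw [← μ.injective.eq_iff (a := q), q8_a2 μ]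
      rw [h1]
    let φ : P ≃* P' := ((QuotientGroup.quotientKerEquivOfSurjective π hc.1).symm.trans
      (QuotientGroup.quotientMulEquivOfEq hker)).trans
      (QuotientGroup.quotientKerEquivOfSurjective ρ hρs)
    have hφ : ∀ x, φ (π x) = ρ x := by
      intro x
      have h1 : (QuotientGroup.quotientKerEquivOfSurjective π hc.1).symm (π x) =
          (x : (C × QuaternionGroup 2) ⧸ π.ker) := by
        rw [MulEquiv.symm_apply_eq]; rfl
      show (QuotientGroup.quotientKerEquivOfSurjective ρ hρs)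
        ((QuotientGroup.quotientMulEquivOfEq hker)
          ((QuotientGroup.quotientKerEquivOfSurjective π hc.1).symm (π x))) = ρ x
      rw [h1]; rfl
    refine ⟨φ, fun x => ?_⟩
    obtain ⟨⟨c, q⟩, rfl⟩ := hc.1 x
    rw [hc.2.2, hφ, hφ, hρ, hρ, hc'.2.2, hθ, hμ]

/-- full pairs are not amalgams -/
theorem full_not_amalgam {P : Type} [Group P] {B : Perm P} {P' : Type} [Group P'] {B' : Perm P'}
    (h : IsFull P B) (h' : IsAmalgam P' B') : ¬ ∃ φ : P ≃* P', ∀ x, φ (B x) = B' (φ x) := by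
  rintro ⟨φ, hφ⟩
  have h1 := orderOf_full (full_of_isFull h)
  obtain ⟨n, hfin, -, -, h2, h3⟩ := amalgam_facts h'
  have h4 : orderOf B = orderOf B' := orderOf_of_equiv φ.toEquiv B B' hφ
  have h5 : Nat.card P = Nat.card P' := Nat.card_congr φ.toEquiv
  have h6 : 0 < Nat.card P' := Nat.card_pos
  omega

end H67
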