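import Mathlib
import Pool.Agent.H67.Conv5
import Pool.Agent.H67.Metab
import Pool.Agent.H67.Uniq2
import Pool.Agent.H67.Uniq4
import Pool.Agent.H67.Uniq5
import Pool.Agent.H67.Uniq6

namespace H67

open Equiv

theorem coresRealised : CoresRealised := by
  constructor
  · intro m w hm hw h4
    obtain ⟨a, ha, -⟩ := exists_affZ hm hw
    exact ⟨Multiplicative (ZMod m), inferInstance,
      (Multiplicative.toAdd.trans a).trans Multiplicative.ofAdd, MulEquiv.refl _, hm, hw, h4,
      fun x => by
        show Multiplicative.ofAdd (a x) = _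
        rw [ha]; rfl⟩
  · intro m w k v hm hw hk hv
    obtain ⟨a, ha, -⟩ := exists_affZ hm.pos hw
    let a' : Perm (Multiplicative (ZMod m)) :=
      (Multiplicative.toAdd.trans a).trans Multiplicative.ofAdd
    have ha' : ∀ x, a' (Multiplicative.ofAdd x) = Multiplicative.ofAdd (w * x + 1) := by
      intro x
      show Multiplicative.ofAdd (a x) = _
      rw [ha]
    constructor
    · obtain ⟨D, hD1, hD2, -⟩ := dih_full (k := k) hv
      refine ⟨_, inferInstance, a'.prodCongr D, MulEquiv.refl _, hm, hw, hk, hv, ?_, ?_⟩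
      · intro x i
        exact Prod.ext (ha' x) (hD1 i)
      · intro x i
        exact Prod.ext (ha' x) (hD2 i)
    · obtain ⟨D, hD1, hD2, -⟩ := quat_full (k := k) hv
      refine ⟨_, inferInstance, a'.prodCongr D, MulEquiv.refl _, hm, hw, hk, hv, ?_, ?_⟩
      · intro x i
        exact Prod.ext (ha' x) (hD1 i)
      · intro x i
        exact Prod.ext (ha' x) (hD2 i)

theorem pairsRealised : PairsRealised := by
  refine ⟨fun _ _ _ _ _ _ _ _ _ h => full_exists h, fun _ _ _ _ _ h => amalgam_exists h, ?_⟩
  intro P _ B R _ u s hR hcase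
  let M : Perm R := (Units.mulLeft u).trans (Equiv.addRight s)
  let M' : Perm (Multiplicative R) := (Multiplicative.toAdd.trans M).trans Multiplicative.ofAdd
  exact ⟨P × Multiplicative R, inferInstance, B.prodCongr M', MulEquiv.refl _, hR, hcase,
    fun x r => rfl⟩

theorem listingEquiv : ListingEquiv := by
  intro G _ A P _ B R _ u s e G' _ A' P' _ B' R' _ u' s' e' h h'
  exact listing_equiv h h'

theorem fullEquiv : FullEquiv := by
  intro n₁ n₂ H _ S χ₁ χ₂ w₁ w₂ C _ K f n₁' n₂' H' _ S' χ₁' χ₂' w₁' w₂' C' _ K' f' hD hC hD' hC'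
  exact full_equiv hD hC hD' hC'

theorem amalgamEquiv : AmalgamEquiv := by
  constructor
  · intro C _ K z τ P _ B π C' _ K' z' τ' P' _ B' π' h hc h' hc'
    exact amalgam_equiv h hc h' hc'
  · intro P _ B P' _ B' h h'
    exact full_not_amalgam h h'

theorem coreEquiv : CoreEquiv := by
  intro H _ S H' _ S' m w k v m' w' k' v'
  exact ⟨fun _ _ h h' => cyc_equiv h h', fun _ _ h h' => dih_equiv h h',
    fun _ _ h h' => quat_equiv h h', fun _ _ h h' => cyc_not_dih h h',
    fun _ _ h h' => cyc_not_quat h h', fun _ _ h h' => quat_not_dih h h'⟩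

end H67
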